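import Pool.Agent.PT3.Stmts
import Pool.Agent.PTE.DSUM

/-!
# DADD: sum of the densities of disjoint sets
-/

open Finset

namespace Pool.Agent.PT3

namespace DADD

open RI.PD in
/-- the pointwise inequality -/
lemma point {ι : Type} [Fintype ι] (S : ι → Set ℕ) (T : Set ℕ) (h1 : ∀ i, S i ⊆ T)
    (h2 : ∀ i j, i ≠ j → Disjoint (S i) (S j)) (s : ℝ) (n : ℕ) :
    ∑ i : ι, Set.indicator {q : ℕ | q.Prime ∧ q ∈ S i} (fun n : ℕ => (n : ℝ) ^ (-s)) n ≤
      Set.indicator {q : ℕ | q.Prime ∧ q ∈ T} (fun n : ℕ => (n : ℝ) ^ (-s)) n := by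
  classical
  by_cases hex : ∃ i, n.Prime ∧ n ∈ S i
  · obtain ⟨i, hp, hi⟩ := hex
    rw [Finset.sum_eq_single i]
    · have hsub : {q : ℕ | q.Prime ∧ q ∈ S i} ⊆ {q : ℕ | q.Prime ∧ q ∈ T} :=
        fun q hq => ⟨hq.1, h1 i hq.2⟩
      exact Set.indicator_le_indicator_of_subset hsub (fun x => term_nonneg s x) n
    · intro j _ hj
      rw [Set.indicator_of_notMem]
      rintro ⟨_, h⟩
      exact Set.disjoint_left.1 (h2 j i hj) h hi
    · intro h
      exact absurd (Finset.mem_univ i) h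
  · have h0 : ∑ i : ι, Set.indicator {q : ℕ | q.Prime ∧ q ∈ S i}
        (fun n : ℕ => (n : ℝ) ^ (-s)) n = 0 := by
      refine Finset.sum_eq_zero fun i _ => ?_
      rw [Set.indicator_of_notMem]
      rintro ⟨hp, h⟩
      exact hex ⟨i, hp, h⟩
    rw [h0]
    exact Set.indicator_nonneg (fun x _ => term_nonneg s x) n

end DADD

open DADD RI.PD in
theorem DADD_thm : DADD := by
  classical
  intro ι _ S T d hd h1 h2 h3 N hN
  choose C hC using h1
  refine ⟨∑ i, C i, fun s hs hs2 => ?_⟩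
  rw [sub_eq]
  have hsum := summ hs
  have hSi : ∀ i ∈ (Finset.univ : Finset ι), Summable (Set.indicator
      {q : ℕ | q.Prime ∧ q ∈ S i} (fun n : ℕ => (n : ℝ) ^ (-s))) :=
    fun i _ => hsum.indicator _
  have hT := hsum.indicator {q : ℕ | q.Prime ∧ q ∈ T}
  have h6 := (summable_sum hSi).tsum_le_tsum
    (fun n => by
      have := point S T h2 h3 s n
      simpa using this) hT
  rw [Summable.tsum_finsetSum hSi] at h6
  have h7 : ∑ i : ι, (d * Real.log (1 / (s - 1)) - C i) ≤ ∑ i : ι, ∑' n : ℕ,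
      Set.indicator {q : ℕ | q.Prime ∧ q ∈ S i} (fun n : ℕ => (n : ℝ) ^ (-s)) n := by
    refine Finset.sum_le_sum fun i _ => ?_
    have h8 := hC i s hs hs2
    rwa [sub_eq] at h8
  rw [Finset.sum_sub_distrib, Finset.sum_const, nsmul_eq_mul, Finset.card_univ] at h7
  have hlog : 0 ≤ Real.log (1 / (s - 1)) := by
    apply Real.log_nonneg
    rw [le_div_iff₀ (by linarith)]
    linarith
  have h9 : (N : ℝ) * (d * Real.log (1 / (s - 1))) ≤
      (Fintype.card ι : ℝ) * (d * Real.log (1 / (s - 1))) :=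
    mul_le_mul_of_nonneg_right (by exact_mod_cast hN) (mul_nonneg hd hlog)
  have h10 : (N : ℝ) * d * Real.log (1 / (s - 1)) = (N : ℝ) * (d * Real.log (1 / (s - 1))) := by
    ring
  rw [h10]
  linarith

end Pool.Agent.PT3
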