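import Pool.Agent.PT3.Stmts
import Pool.Agent.PTE.DCONSTS
import Pool.Agent.PTL.DC

/-!
# Prime twists of rank zero, `n` divisible by `3`: the pairing as a function of the prime
`Q = 1 (mod 3)` and of the exponent `E`
-/

set_option autoImplicit false

namespace Pool.Agent.PT3

open Pool.Agent.Lib_helper18 Pool.Agent.Lib_helper18.Eis Pool.Agent.Lib_helper84.Cub
open Pool.Agent.PT Pool.Agent.PTE

namespace DCOU

open Pool.Agent.PT.DCONST

lemma sy_zero (hSTM : STM) (hSPP : SPP) {B x : ℤ} (hB : B ≠ 0) (hx : AG B x) (v : Pl) :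
    sy v (B : Eis) (x : Eis) = 0 := by
  have h1 : ∀ π : PP, tm π.1 (B : Eis) (x : Eis) = 0 := by
    intro π
    have h1 := (hSTM π.1 π.2.1 (hSPP.2.2.2.1 π).1).skew (x : Eis) (B : Eis)
      (cast_ne hx.ne) (cast_ne hB)
    rw [h1, hx.sym π, neg_zero]
  rcases v with _ | π
  · show sl (B : Eis) (x : Eis) = 0
    unfold sl
    rw [finsum_eq_zero_of_forall_eq_zero h1, neg_zero]
  · exact h1 π

/-- the symbol at a prime, the second argument being a unit -/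
lemma tm_val {ρ B L : Eis} {E : ℕ} (hB : V ρ B = E) (hL : ¬ ρ ∣ L) :
    tm ρ B L = - ((E : ZMod 3) * sym ρ L) := by
  have h2 : up ρ L = L := by
    unfold up
    rw [V_eq_zero hL, pow_zero, EuclideanDomain.div_one]
  unfold tm
  rw [V_eq_zero hL, hB]
  unfold ch
  rw [h2]
  simp

end DCOU

open Pool.Agent.PT.DCONST Pool.Agent.PTE.DCONSTS in
/-- DCOU: the pairing `O_{NQ^E}(b, η)` as a function of the prime `Q = 1 (mod 3)` and of `E`. -/
theorem DCOU_thm (hSTM : STM) (hSPP : SPP) (hSLC : SLC) (hLCI : LCI) (hAVV : AVV)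
    (_hSCJ : SCJ) (hSPLT : SPLT) : DCOU := by
  intro n b X Y x p q p' q' hn0 hs hb hx
  have hn1 := hs.n1
  have hn2 : p' ^ 3 + b * q' ^ 3 ≠ 0 := by
    intro h
    apply hs.n1
    rw [hs.eq, h, mul_zero]
  have hnz : (n : ℤ) ≠ 0 := by omega
  obtain ⟨M, hMdef⟩ : ∃ M : ℤ, M = (n : ℤ) * b * x * (p ^ 3 + b * q ^ 3) *
    (p' ^ 3 + b * q' ^ 3) := ⟨_, rfl⟩
  have hM : M ≠ 0 := by
    rw [hMdef]
    exact mul_ne_zero (mul_ne_zero (mul_ne_zero (mul_ne_zero hnz hb) hx) hn1) hn2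
  have dn : (n : ℤ) ∣ M := ⟨b * x * (p ^ 3 + b * q ^ 3) * (p' ^ 3 + b * q' ^ 3), by
    rw [hMdef]; ring⟩
  have db : b ∣ M := ⟨(n : ℤ) * x * (p ^ 3 + b * q ^ 3) * (p' ^ 3 + b * q' ^ 3), by
    rw [hMdef]; ring⟩
  have dx : x ∣ M := ⟨(n : ℤ) * b * (p ^ 3 + b * q ^ 3) * (p' ^ 3 + b * q' ^ 3), by
    rw [hMdef]; ring⟩
  have d1 : p ^ 3 + b * q ^ 3 ∣ M := ⟨(n : ℤ) * b * x * (p' ^ 3 + b * q' ^ 3), by
    rw [hMdef]; ring⟩
  have d2 : p' ^ 3 + b * q' ^ 3 ∣ M := ⟨(n : ℤ) * b * x * (p ^ 3 + b * q ^ 3), by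
    rw [hMdef]; ring⟩
  have hfin := hSPP.2.2.1 (M : Eis) (cast_ne hM)
  have hMa : 0 < M.natAbs := Int.natAbs_pos.2 hM
  refine ⟨9 * M.natAbs, by omega, ?_⟩
  intro f hf0 hf
  have h9 : 9 ∣ f := (Dvd.intro _ rfl).trans hf
  have hf1 : 1 < f := by
    have := Nat.le_of_dvd hf0 h9
    omega
  have hMf : M ∣ (f : ℤ) := by
    have h1 : M.natAbs ∣ f := (Dvd.intro_left 9 rfl).trans hf
    exact Int.natAbs_dvd.1 (Int.natCast_dvd_natCast.2 h1)
  have hlamf : lam ^ 4 ∣ ((f : ℤ) : Eis) := by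
    have h1 : ((9 : ℤ) : Eis) ∣ ((f : ℤ) : Eis) :=
      intCast_dvd_intCast.2 (by exact_mod_cast h9)
    refine Dvd.dvd.trans ⟨w ^ 4, ?_⟩ h1
    have h2 : ((9 : ℤ) : Eis) = (3 : Eis) ^ 2 := by norm_num
    rw [h2, three_eq]
    ring
  have hQM : ∀ Q : ℕ, Q.Prime → Q.Coprime f → ¬ (Q : ℤ) ∣ M := by
    intro Q hQ hQf h
    have h1 : (Q : ℤ) ∣ (f : ℤ) := h.trans hMf
    have h2 : Q ∣ f := Int.natCast_dvd_natCast.1 h1
    have h3 := Nat.Coprime.eq_one_of_dvd hQf h2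
    exact hQ.one_lt.ne' h3
  have hBne : ∀ E Q : ℕ, Q.Prime → (n : ℤ) * (Q : ℤ) ^ E ≠ 0 := fun E Q hQ =>
    mul_ne_zero hnz (pow_ne_zero _ (by exact_mod_cast hQ.ne_zero))
  -- the place above `3`
  obtain ⟨c₀, Φ₀, H₀⟩ : ∃ (c : ZMod 3) (Φ : (ZMod f)ˣ →* Multiplicative (ZMod 3)),
      ∀ (E Q : ℕ) (hQ : Q.Coprime f), Q.Prime → AG ((n : ℤ) * (Q : ℤ) ^ E) x →
        TT none ((n : ℤ) * (Q : ℤ) ^ E) b x p q p' q' =
          c + E * (Φ (ZMod.unitOfCoprime Q hQ)).toAdd := by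
    by_cases hLC : LC (uni none) b
    · obtain ⟨C, Φ, H⟩ := Pool.Agent.PTL.DC.place_LC (n := (n : ℤ)) hSLC hnz hn1 hn2 hLC hf1 hlamf
      refine ⟨C + sl w (x : Eis), Φ, ?_⟩
      intro E Q hQ hQp hax
      rw [TT_LC hLC]
      obtain ⟨N0, hN0⟩ := (hAVV none ((n : ℤ) * (Q : ℤ) ^ E) b x p q p' q' (hBne E Q hQp) hb hx hs.toSolW
        (DCOU.sy_zero hSTM hSPP (hBne E Q hQp) hax none) hLC).1
      rw [H E Q hQ _ N0 hN0]
      show _ + sl w (x : Eis) = _
      ring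
    · refine ⟨0, 1, ?_⟩
      intro E Q hQ hQp hax
      unfold TT
      rw [if_neg hLC]
      simp
  -- the places dividing `M`
  have hpl : ∀ π : PP, ∃ (c : ZMod 3) (Φ : (ZMod f)ˣ →* Multiplicative (ZMod 3)),
      π.1 ∣ (M : Eis) → ∀ (E Q : ℕ) (hQ : Q.Coprime f), Q.Prime → AG ((n : ℤ) * (Q : ℤ) ^ E) x →
        TT (some π) ((n : ℤ) * (Q : ℤ) ^ E) b x p q p' q' =
          c + E * (Φ (ZMod.unitOfCoprime Q hQ)).toAdd := by
    intro π
    by_cases hπM : π.1 ∣ (M : Eis)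
    · have hπf : π.1 ∣ ((f : ℤ) : Eis) := hπM.trans (intCast_dvd_intCast.2 hMf)
      by_cases hLC : LC (uni (some π)) b
      · obtain ⟨C, Φ, H⟩ := Pool.Agent.PTL.DC.place_LC (n := (n : ℤ)) (hSTM π.1 π.2.1 (hSPP.2.2.2.1 π).1) hnz hn1
          hn2 hLC hf1 (by rw [pow_one]; exact hπf)
        refine ⟨C + tm π.1 w (x : Eis), Φ, ?_⟩
        intro _ E Q hQ hQp hax
        rw [TT_LC hLC]
        obtain ⟨N0, hN0⟩ := (hAVV (some π) ((n : ℤ) * (Q : ℤ) ^ E) b x p q p' q' (hBne E Q hQp) hb hx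
          hs.toSolW (DCOU.sy_zero hSTM hSPP (hBne E Q hQp) hax (some π)) hLC).1
        rw [H E Q hQ _ N0 hN0]
        show _ + tm π.1 w (x : Eis) = _
        ring
      · refine ⟨if 3 ∣ V π.1 (b : Eis) + V π.1 ((n : ℤ) : Eis) ∧ ¬ 3 ∣ V π.1 (b : Eis)
          then - tm π.1 w (x : Eis) else 0, 1, ?_⟩
        intro _ E Q hQ hQp hax
        rw [TT_some hLC]
        have hVQ : V π.1 ((Q : ℤ) : Eis) = 0 := by
          apply V_eq_zero
          intro hd
          obtain ⟨y, z, hyz⟩ := Nat.isCoprime_iff_coprime.2 hQ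
          apply π.2.1.not_isUnit
          apply isUnit_of_dvd_one
          have h1 : (1 : Eis) = (y : Eis) * ((Q : ℤ) : Eis) + (z : Eis) * ((f : ℤ) : Eis) := by
            have h2 := congrArg (fun t : ℤ => (t : Eis)) hyz
            simp only [Int.cast_add, Int.cast_mul, Int.cast_one] at h2
            exact h2.symm
          rw [h1]
          exact dvd_add (dvd_mul_of_dvd_right hd _) (dvd_mul_of_dvd_right hπf _)
        have hV : V π.1 (((n : ℤ) * (Q : ℤ) ^ E : ℤ) : Eis) = V π.1 ((n : ℤ) : Eis) := by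
          have hQe : ((Q : ℤ) : Eis) ≠ 0 := cast_ne (by exact_mod_cast hQp.ne_zero)
          rw [Int.cast_mul, Int.cast_pow, V_mul π.2.1 (cast_ne hnz) (pow_ne_zero _ hQe),
            V_pow π.2.1 hQe, hVQ, mul_zero, add_zero]
        rw [hV]
        simp
    · exact ⟨0, 1, fun h => absurd h hπM⟩
  choose c Φ H using hpl
  classical
  refine ⟨c₀ + (∑ π ∈ hfin.toFinset, c π) +
    (if LC lam b then 0 else SV sl b p (-p') (-q) q' X Y), Φ₀ * ∏ π ∈ hfin.toFinset, Φ π, 0, ?_⟩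
  intro E Q hQ ρ hE hQp _ hQ3 hρ hab hax r hr
  obtain ⟨hna, ⟨ρ', hρ'⟩, hdv, hint, hcj, -⟩ := hSPLT.2 Q ρ hQp hQ3 hρ
  have hQc : ((Q : ℤ) : Eis) = (Q : Eis) := Int.cast_natCast Q
  have hQ0 : (Q : Eis) ≠ 0 := by
    rw [← hQc]
    exact cast_ne (by exact_mod_cast hQp.ne_zero)
  have hρ2 : (Q : Eis) = ρ'.1 * conj ρ'.1 := by
    rw [hρ', conj_conj, mul_comm]
    exact hρ
  have hcjr : conj ρ'.1 = ρ.1 := by rw [hρ', conj_conj]
  have hBcast : (((n : ℤ) * (Q : ℤ) ^ E : ℤ) : Eis) =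
      ((n : ℤ) : Eis) * (Q : Eis) ^ E := by
    rw [Int.cast_mul, Int.cast_pow, hQc]
  have hQM' := hQM Q hQp hQ
  have hp : Prime (Q : ℤ) := Nat.prime_iff_prime_int.1 hQp
  have hrQ : ¬ (Q : ℤ) ∣ r := by
    intro h
    apply hQM'
    refine Dvd.dvd.trans ?_ db
    have h1 := dvd_sub (dvd_pow h (three_ne_zero)) hr
    rwa [sub_sub_cancel] at h1
  have h3Q : ¬ (Q : ℤ) ∣ 3 := by
    intro h
    have h1 : Q ∣ 3 := by exact_mod_cast h
    have h2 := (Nat.prime_dvd_prime_iff_eq hQp Nat.prime_three).1 h1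
    omega
  -- the value at a place above `Q`
  have key : ∀ σ : PP, (Q : Eis) = σ.1 * conj σ.1 → ¬ Associated σ.1 (conj σ.1) →
      (∀ x : ℤ, σ.1 ∣ (x : Eis) ↔ (Q : ℤ) ∣ x) →
      TT (some σ) ((n : ℤ) * (Q : ℤ) ^ E) b x p q p' q' =
        - (E * TAUVS σ.1 p q p' q' r) := by
    intro σ hσ hσa hσi
    have hnd : ∀ m : ℤ, m ∣ M → ¬ σ.1 ∣ (m : Eis) := by
      intro m hm h
      exact hQM' (((hσi m).1 h).trans hm)
    have hσw : ¬ σ.1 ∣ w := not_dvd_w σ.2.1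
    have hσc : ¬ σ.1 ∣ conj σ.1 := by
      intro h
      apply hσa
      exact σ.2.1.associated_of_dvd (by
        have h1 := (hSPP.2.2.2.1 σ).2
        obtain ⟨τ, hτ⟩ := h1
        rw [← hτ]
        exact τ.2.1) h
    have hc0 : conj σ.1 ≠ 0 := by
      intro h
      apply hQ0
      rw [hσ, h, mul_zero]
    have hVQ : V σ.1 (Q : Eis) = 1 := by
      rw [hσ, V_mul σ.2.1 σ.2.1.ne_zero hc0, V_self, V_eq_zero hσc]
    have hVB : V σ.1 (((n : ℤ) * (Q : ℤ) ^ E : ℤ) : Eis) = E := by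
      rw [hBcast, V_mul_not_dvd σ.2.1 (hnd _ dn) (pow_ne_zero _ hQ0), V_pow σ.2.1 hQ0, hVQ,
        mul_one]
    have hLC : LC (uni (some σ)) b := by
      refine (hLCI.1 σ b hb).2 ⟨?_, ?_⟩
      · rw [V_eq_zero (hnd b db)]
        exact dvd_zero 3
      · have h1 := hab.sym σ
        unfold tm at h1
        rw [hVB, V_eq_zero (hnd b db), Nat.cast_zero, zero_mul, sub_zero] at h1
        have h2 : (E : ZMod 3) ≠ 0 := by
          rcases hE with rfl | rfl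
          · decide
          · decide
        exact (mul_eq_zero.1 h1).resolve_left h2
    rw [TT_LC hLC]
    have hw : sy (some σ) w (x : Eis) = 0 := tm_zero hσw (hnd x dx)
    rw [hw, add_zero]
    obtain ⟨N0, hN0⟩ := (hAVV (some σ) ((n : ℤ) * (Q : ℤ) ^ E) b x p q p' q' (hBne E Q hQp) hb hx
      hs.toSolW (DCOU.sy_zero hSTM hSPP (hBne E Q hQp) hax (some σ)) hLC).1
    obtain ⟨r₁, hr₁, hrr⟩ := lift_root hQp h3Q hrQ hr N0
    have hσQ : σ.1 ∣ (Q : Eis) := by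
      rw [hσ]
      exact Dvd.intro _ rfl
    have hr0 : σ.1 ^ (N0 + 1) ∣ (r₁ : Eis) ^ 3 - (b : Eis) := by
      have h1 : (Q : Eis) ^ (N0 + 1) ∣ (r₁ : Eis) ^ 3 - (b : Eis) := by
        have h2 := intCast_dvd_intCast.2 hr₁
        push_cast at h2
        exact h2
      exact (pow_dvd_pow_of_dvd hσQ _).trans h1
    have hr1 : σ.1 ∣ (r₁ : Eis) ^ 3 - (b : Eis) := (dvd_pow_self _ (by omega)).trans hr0
    have hrr' : σ.1 ∣ (r₁ : Eis) - (r : Eis) := by
      have h1 := (hσi (r₁ - r)).2 hrr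
      rwa [Int.cast_sub] at h1
    rw [← hN0 r₁ ((pow_dvd_pow _ (Nat.le_succ _)).trans hr0)]
    have hsym : ∀ (g h : ℤ) (i : ℕ), sym σ.1 (Lf g h i r₁) = sym σ.1 (Lf g h i r) := by
      intro g h i
      apply sym_congr
      have h1 : Lf g h i r₁ - Lf g h i r = (h * w ^ i) * ((r₁ : Eis) - r) := by
        unfold Lf
        ring
      rw [h1]
      exact dvd_mul_of_dvd_right hrr' _
    have k1 := Lf_ndvd (p := p) (q := q) hr1 (hnd _ d1)
    have k2 := Lf_ndvd (p := p') (q := q') hr1 (hnd _ d2)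
    show tm σ.1 (((n : ℤ) * (Q : ℤ) ^ E : ℤ) : Eis) (Lf p q 2 r₁) +
      tm σ.1 (((n : ℤ) * (Q : ℤ) ^ E : ℤ) : Eis) (Lf p' q' 1 r₁) -
      tm σ.1 (((n : ℤ) * (Q : ℤ) ^ E : ℤ) : Eis) (Lf p q 1 r₁) -
      tm σ.1 (((n : ℤ) * (Q : ℤ) ^ E : ℤ) : Eis) (Lf p' q' 2 r₁) =
      - (E * TAUVS σ.1 p q p' q' r)
    rw [DCOU.tm_val hVB (k1 2), DCOU.tm_val hVB (k2 1), DCOU.tm_val hVB (k1 1),
      DCOU.tm_val hVB (k2 2), hsym, hsym, hsym, hsym]
    unfold TAUVS
    ring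
  have hTρ := key ρ hρ hna hint
  have hTρ' := key ρ' hρ2 (by
    rw [hcjr, hρ']
    exact fun h => hna h.symm) (by
    intro x
    rw [← hint x, hρ']
    constructor
    · rintro ⟨y, hy⟩
      refine ⟨conj y, ?_⟩
      have h1 := congrArg conj hy
      rw [map_mul, conj_conj, conj_intCast] at h1
      exact h1
    · rintro ⟨y, hy⟩
      refine ⟨conj y, ?_⟩
      have h1 := congrArg conj hy
      rw [map_mul, conj_intCast] at h1
      exact h1)
  -- the two values are equal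
  have hnρ : ∀ m : ℤ, m ∣ M → ¬ ρ.1 ∣ (m : Eis) := fun m hm h =>
    hQM' (((hint m).1 h).trans hm)
  have hrρ : ρ.1 ∣ (r : Eis) ^ 3 - (b : Eis) := by
    have h1 := (hint (r ^ 3 - b)).2 hr
    push_cast at h1
    exact h1
  have l1 := Lf_ndvd (p := p) (q := q) hrρ (hnρ _ d1)
  have l2 := Lf_ndvd (p := p') (q := q') hrρ (hnρ _ d2)
  have hTT : TAUVS ρ'.1 p q p' q' r = TAUVS ρ.1 p q p' q' r := by
    have e1 := hcj _ (l1 1)
    have e2 := hcj _ (l1 2)
    have e3 := hcj _ (l2 1)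
    have e4 := hcj _ (l2 2)
    rw [(conj_Lf p q r).1] at e1
    rw [(conj_Lf p q r).2] at e2
    rw [(conj_Lf p' q' r).1] at e3
    rw [(conj_Lf p' q' r).2] at e4
    unfold TAUVS
    rw [hρ', e1, e2, e3, e4]
    ring
  rw [hTT] at hTρ'
  have hρne : ρ ≠ ρ' := by
    rintro h
    apply hna
    rw [← hρ', ← h]
  -- the sum
  have hnρ' : ¬ ρ'.1 ∣ (M : Eis) := by
    intro h
    obtain ⟨y, hy⟩ := h
    apply hnρ M dvd_rfl
    refine ⟨conj y, ?_⟩
    have h1 := congrArg conj hy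
    rw [map_mul, hcjr, conj_intCast] at h1
    exact h1
  have hQS : ρ ∉ hfin.toFinset := by
    rw [Set.Finite.mem_toFinset]
    exact hnρ M dvd_rfl
  have hQS' : ρ' ∉ hfin.toFinset := by
    rw [Set.Finite.mem_toFinset]
    exact hnρ'
  have hsupp : (Function.support fun v : Pl => TT v ((n : ℤ) * (Q : ℤ) ^ E) b x p q p' q') ⊆
      ((insert none (insert (some ρ) (insert (some ρ') (hfin.toFinset.image some))) :
        Finset Pl) : Set Pl) := by
    intro v hv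
    by_contra hnv
    apply hv
    rcases v with _ | π
    · exact absurd (Finset.mem_coe.2 (Finset.mem_insert_self _ _)) hnv
    · have hnM : ¬ π.1 ∣ (M : Eis) := by
        intro h
        apply hnv
        rw [Finset.mem_coe]
        refine Finset.mem_insert_of_mem (Finset.mem_insert_of_mem (Finset.mem_insert_of_mem
          (Finset.mem_image_of_mem _ ?_)))
        rw [Set.Finite.mem_toFinset]
        exact h
      have hπne : π ≠ ρ := by
        rintro rfl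
        apply hnv
        rw [Finset.mem_coe]
        exact Finset.mem_insert_of_mem (Finset.mem_insert_self _ _)
      have hπne' : π ≠ ρ' := by
        rintro rfl
        apply hnv
        rw [Finset.mem_coe]
        exact Finset.mem_insert_of_mem (Finset.mem_insert_of_mem (Finset.mem_insert_self _ _))
      have hd : ∀ m : ℤ, m ∣ M → ¬ π.1 ∣ (m : Eis) := fun m hm h =>
        hnM (h.trans (intCast_dvd_intCast.2 hm))
      have hπQnd : ¬ π.1 ∣ (Q : Eis) := by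
        intro h
        rcases hdv π h with h1 | h1
        · exact hπne (Subtype.ext h1)
        · exact hπne' (Subtype.ext (h1.trans hρ'.symm))
      have hnB : ¬ π.1 ∣ (((n : ℤ) * (Q : ℤ) ^ E : ℤ) : Eis) := by
        rw [hBcast]
        intro h
        rcases π.2.1.dvd_or_dvd h with h1 | h1
        · exact hd _ dn h1
        · exact hπQnd (π.2.1.dvd_of_dvd_pow h1)
      have hnw : ¬ π.1 ∣ w := not_dvd_w π.2.1
      show TT (some π) ((n : ℤ) * (Q : ℤ) ^ E) b x p q p' q' = 0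
      by_cases hLC : LC (uni (some π)) b
      · rw [TT_LC hLC]
        have hw : sy (some π) w (x : Eis) = 0 := tm_zero hnw (hd x dx)
        obtain ⟨N0, hN0⟩ := (hAVV (some π) ((n : ℤ) * (Q : ℤ) ^ E) b x p q p' q' (hBne E Q hQp) hb hx
          hs.toSolW (DCOU.sy_zero hSTM hSPP (hBne E Q hQp) hax (some π)) hLC).1
        obtain ⟨r₁, hr₁⟩ := hLC (max N0 1)
        have hr0 : uni (some π) ^ N0 ∣ (r₁ : Eis) ^ 3 - (b : Eis) :=
          (pow_dvd_pow _ (le_max_left _ _)).trans hr₁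
        have hr1 : π.1 ∣ (r₁ : Eis) ^ 3 - (b : Eis) := by
          have h1 : π.1 ^ 1 ∣ (r₁ : Eis) ^ 3 - (b : Eis) :=
            (pow_dvd_pow π.1 (le_max_right N0 1)).trans hr₁
          rwa [pow_one] at h1
        have k1 := Lf_ndvd (p := p) (q := q) hr1 (hd _ d1)
        have k2 := Lf_ndvd (p := p') (q := q') hr1 (hd _ d2)
        rw [hw, ← hN0 r₁ hr0]
        show tm π.1 (((n : ℤ) * (Q : ℤ) ^ E : ℤ) : Eis) (Lf p q 2 r₁) +
          tm π.1 (((n : ℤ) * (Q : ℤ) ^ E : ℤ) : Eis) (Lf p' q' 1 r₁) -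
          tm π.1 (((n : ℤ) * (Q : ℤ) ^ E : ℤ) : Eis) (Lf p q 1 r₁) -
          tm π.1 (((n : ℤ) * (Q : ℤ) ^ E : ℤ) : Eis) (Lf p' q' 2 r₁) + 0 = 0
        rw [tm_zero hnB (k1 2), tm_zero hnB (k2 1), tm_zero hnB (k1 1), tm_zero hnB (k2 2)]
        simp
      · rw [TT_some hLC, if_neg]
        rintro ⟨-, h1⟩
        apply h1
        rw [V_eq_zero (hd b db)]
        exact dvd_zero 3
  have hn_notin : (none : Pl) ∉ insert (some ρ) (insert (some ρ')
      (hfin.toFinset.image some)) := by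
    simp
  have hρ'_notin : (some ρ' : Pl) ∉ hfin.toFinset.image some := by
    intro h
    obtain ⟨y, hy, hy'⟩ := Finset.mem_image.1 h
    rw [Option.some.injEq] at hy'
    rw [hy'] at hy
    exact hQS' hy
  have hρ_notin : (some ρ : Pl) ∉ insert (some ρ') (hfin.toFinset.image some) := by
    intro h
    rcases Finset.mem_insert.1 h with h1 | h1
    · exact hρne (Option.some_injective _ h1)
    · obtain ⟨y, hy, hy'⟩ := Finset.mem_image.1 h1
      rw [Option.some.injEq] at hy'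
      rw [hy'] at hy
      exact hQS hy
  have hsum : ∑ π ∈ hfin.toFinset, TT (some π) ((n : ℤ) * (Q : ℤ) ^ E) b x p q p' q' =
      ∑ π ∈ hfin.toFinset, (c π + E * (Φ π (ZMod.unitOfCoprime Q hQ)).toAdd) := by
    refine Finset.sum_congr rfl ?_
    intro π hπ
    rw [Set.Finite.mem_toFinset] at hπ
    exact H π hπ E Q hQ hQp hax
  unfold OT OO
  rw [finsum_eq_sum_of_support_subset _ hsupp, Finset.sum_insert hn_notin,
    Finset.sum_insert hρ_notin, Finset.sum_insert hρ'_notin,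
    Finset.sum_image (fun _ _ _ _ h => Option.some_injective _ h),
    hsum, hTρ, hTρ', H₀ E Q hQ hQp hax, Finset.sum_add_distrib, MonoidHom.mul_apply,
    MonoidHom.finsetProd_apply, toAdd_mul, toAdd_prod, ← Finset.mul_sum]
  have h3 : (3 : ZMod 3) = 0 := rfl
  linear_combination (-(E * TAUVS ρ.1 p q p' q' r)) * h3


end Pool.Agent.PT3
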