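import Pool.Agent.PT3.Stmts
import Pool.Agent.PT.DENS

/-!
# PT3_DENG: the density of the primes with nonsingular matrix

Copy of `Pool/Agent/PT/DENS.lean` with `SysG` in place of `Sys`; the helper lemmas are those of that file.
-/

open NumberField IsDedekindDomain Finset
open scoped nonZeroDivisors Pointwise

namespace Pool.Agent.PT3

open Pool.Agent.Lib_helper18 Pool.Agent.Lib_helper18.Eis Pool.Agent.Lib_helper84.Cub
open Pool.Agent.PT Pool.Agent.PTE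

open Pool.Agent.PT.DENS in
theorem DENG_thm (hGALG : GALG) (hDCNT : DCNT) (hDIR : DIR) : DENG := by
  classical
  intro s b p q p' q' f m κ c C Φ hSys hs hf h9 hK
  have : NeZero f := ⟨hf.ne'⟩
  have h3f : 3 ∣ f := dvd_trans (by norm_num) h9
  obtain ⟨L, iF, iN, iG, χ, t, N₀, hsurj, hconj, hpow, hcnt, hfrob⟩ :=
    hGALG s b p q p' q' f hSys hf h9
  have hG : Gov b p q p' q' f L χ t N₀ := ⟨hconj, hpow, hfrob⟩
  have hDat : Dat χ t (fun a => (κ a).toAdd) := ⟨hK, hDCNT s f _ χ t hs hf hsurj hcnt⟩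
  change RI.DensityGE (SS b p q p' q' f κ c C Φ) (1 / (24 * 3 ^ m))
  have hGpos : 0 < Nat.card (L ≃ₐ[ℚ] L) := Nat.card_pos
  have hb1 : ∀ a, M2 a → 8 * Nat.card {g : L ≃ₐ[ℚ] L // χ g = a ∧
      (alt (C + (Φ a).toAdd - t g)).det = 0} ≤ 3 * Nat.card {g : L ≃ₐ[ℚ] L // χ g = a} :=
    fun a ha => (hDat.hD a (C + (Φ a).toAdd) ha).1
  have hb2 : ∀ a, M2 a → 8 * Nat.card {g : L ≃ₐ[ℚ] L // χ g = a ∧
      (alt (C - (Φ a).toAdd + t g)).det = 0} ≤ 3 * Nat.card {g : L ≃ₐ[ℚ] L // χ g = a} :=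
    fun a ha => (hDat.hD a (C - (Φ a).toAdd) ha).2.1
  by_cases hc0 : c = 0
  · subst hc0
    let T : Set (L ≃ₐ[ℚ] L) := {g | (M2 (χ g) ∧ (κ (χ g)).toAdd = 0) ∧
      ¬ (alt (C + (Φ (χ g)).toAdd - t g)).det = 0 ∧
      ¬ (alt (C - (Φ (χ g)).toAdd + t g)).det = 0}
    have hT : ∀ g h τ : L ≃ₐ[ℚ] L, g ∈ T →
        Subgroup.zpowers h = Subgroup.zpowers (τ * g * τ⁻¹) → h ∈ T := by
      rintro g h τ ⟨⟨hM, hκ⟩, hd1, hd2⟩ hz
      obtain ⟨hM', hh⟩ := inv_main (κ := κ) (Φ := Φ) h3f hconj hpow hM hz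
      rcases hh with ⟨e1, e2, e3⟩ | ⟨e1, e2, e3⟩
      · obtain ⟨d1, d2⟩ := det_same (C := C) e2 e3
        refine ⟨⟨hM', e1.trans hκ⟩, ?_, ?_⟩
        · rw [d1]; exact hd1
        · rw [d2]; exact hd2
      · obtain ⟨d1, d2⟩ := det_opp (C := C) e2 e3
        refine ⟨⟨hM', by rw [e1, hκ, neg_zero]⟩, ?_, ?_⟩
        · rw [d1]; exact hd2
        · rw [d2]; exact hd1
    have hcard := countPP hDat 0 (fun g => (alt (C + (Φ (χ g)).toAdd - t g)).det = 0)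
      (fun g => (alt (C - (Φ (χ g)).toAdd + t g)).det = 0)
      (fun a g => (alt (C + (Φ a).toAdd - t g)).det = 0)
      (fun a g => (alt (C - (Φ a).toAdd + t g)).det = 0)
      (fun g => Iff.rfl) (fun g => Iff.rfl) hb1 hb2
    have hF := RI.FROBD_thm L T hT
    have hF2 := RI.PDGE_thm _ (SS b p q p' q' f κ 0 C Φ) (Finset.range (N₀ + f + 1)) _ hF (by
      rintro Q hQF hQ hQA
      rw [Finset.mem_range, not_lt] at hQA
      obtain ⟨hc, φ, hφT, hφ, ht⟩ := frob_step hG hf T hT hQ (by omega) (by omega) hQF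
      have hQ3 : Q % 3 = 2 := M2_Q h3f hc (hφ ▸ hφT.1.1)
      exact mem_SS hQ hQ3 hc hφ (ht hQ3) hφT.1.2 hφT.2.1)
    refine dens_mono hF2 ?_
    have h1 : (Nat.card (L ≃ₐ[ℚ] L) : ℝ) ≤ 4 * (2 * 3 ^ (m + 1)) * Nat.card T := by
      exact_mod_cast hcard
    rw [div_le_div_iff₀ (by positivity) (by exact_mod_cast hGpos)]
    rw [pow_succ] at h1
    linarith
  · let T : Set (L ≃ₐ[ℚ] L) := {g | ((M2 (χ g) ∧ (κ (χ g)).toAdd = c) ∧
      ¬ (alt (C + (Φ (χ g)).toAdd - t g)).det = 0) ∨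
      ((M2 (χ g) ∧ (κ (χ g)).toAdd = -c) ∧
      ¬ (alt (C - (Φ (χ g)).toAdd + t g)).det = 0)}
    have hT : ∀ g h τ : L ≃ₐ[ℚ] L, g ∈ T →
        Subgroup.zpowers h = Subgroup.zpowers (τ * g * τ⁻¹) → h ∈ T := by
      rintro g h τ hg hz
      have hM : M2 (χ g) := by
        rcases hg with ⟨⟨hM, -⟩, -⟩ | ⟨⟨hM, -⟩, -⟩ <;> exact hM
      obtain ⟨hM', hh⟩ := inv_main (κ := κ) (Φ := Φ) h3f hconj hpow hM hz
      rcases hh with ⟨e1, e2, e3⟩ | ⟨e1, e2, e3⟩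
      · obtain ⟨d1, d2⟩ := det_same (C := C) e2 e3
        rcases hg with ⟨⟨-, hκ⟩, hd⟩ | ⟨⟨-, hκ⟩, hd⟩
        · left
          refine ⟨⟨hM', e1.trans hκ⟩, ?_⟩
          rw [d1]; exact hd
        · right
          refine ⟨⟨hM', e1.trans hκ⟩, ?_⟩
          rw [d2]; exact hd
      · obtain ⟨d1, d2⟩ := det_opp (C := C) e2 e3
        rcases hg with ⟨⟨-, hκ⟩, hd⟩ | ⟨⟨-, hκ⟩, hd⟩
        · right
          refine ⟨⟨hM', by rw [e1, hκ]⟩, ?_⟩
          rw [d2]; exact hd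
        · left
          refine ⟨⟨hM', by rw [e1, hκ, neg_neg]⟩, ?_⟩
          rw [d1]; exact hd
    have hcard1 := countP hDat c (fun g => (alt (C + (Φ (χ g)).toAdd - t g)).det = 0)
      (fun a g => (alt (C + (Φ a).toAdd - t g)).det = 0) (fun g => Iff.rfl) hb1
    have hcard2 := countP hDat (-c) (fun g => (alt (C - (Φ (χ g)).toAdd + t g)).det = 0)
      (fun a g => (alt (C - (Φ a).toAdd + t g)).det = 0) (fun g => Iff.rfl) hb2
    have hne : c ≠ -c := by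
      intro h
      apply hc0
      ext i
      have h1 := congrFun h i
      rw [Pi.neg_apply] at h1
      rw [Pi.zero_apply]
      revert h1
      generalize c i = x
      revert x
      decide
    have hcardT : Nat.card T = Nat.card {g : L ≃ₐ[ℚ] L // (M2 (χ g) ∧ (κ (χ g)).toAdd = c) ∧
        ¬ (alt (C + (Φ (χ g)).toAdd - t g)).det = 0} +
        Nat.card {g : L ≃ₐ[ℚ] L // (M2 (χ g) ∧ (κ (χ g)).toAdd = -c) ∧
        ¬ (alt (C - (Φ (χ g)).toAdd + t g)).det = 0} := by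
      have := Fintype.ofFinite (L ≃ₐ[ℚ] L)
      change Nat.card {g : L ≃ₐ[ℚ] L // ((M2 (χ g) ∧ (κ (χ g)).toAdd = c) ∧
      ¬ (alt (C + (Φ (χ g)).toAdd - t g)).det = 0) ∨
      ((M2 (χ g) ∧ (κ (χ g)).toAdd = -c) ∧
      ¬ (alt (C - (Φ (χ g)).toAdd + t g)).det = 0)} = _
      simp only [Nat.card_eq_fintype_card, Fintype.card_subtype]
      rw [Finset.filter_or, Finset.card_union_of_disjoint]
      rw [Finset.disjoint_filter]
      rintro g - ⟨⟨-, h1⟩, -⟩ ⟨⟨-, h2⟩, -⟩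
      exact hne (h1.symm.trans h2)
    have hF := RI.FROBD_thm L T hT
    have hF2 := RI.PDGE_thm _ {Q : ℕ | Q ∈ SS b p q p' q' f κ c C Φ ∨
        ∃ a ∈ univ.filter (fun a : (ZMod f)ˣ => M2 a ∧ (κ a).toAdd = -c), (Q : ZMod f) = a}
      (Finset.range (N₀ + f + 1)) _ hF (by
      rintro Q hQF hQ hQA
      rw [Finset.mem_range, not_lt] at hQA
      obtain ⟨hc, φ, hφT, hφ, ht⟩ := frob_step hG hf T hT hQ (by omega) (by omega) hQF
      have hM : M2 (χ φ) := by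
        rcases hφT with ⟨⟨hM, -⟩, -⟩ | ⟨⟨hM, -⟩, -⟩ <;> exact hM
      have hQ3 : Q % 3 = 2 := M2_Q h3f hc (hφ ▸ hM)
      rcases hφT with ⟨⟨-, hκ⟩, hd⟩ | ⟨⟨-, hκ⟩, hd⟩
      · left
        exact mem_SS hQ hQ3 hc hφ (ht hQ3) hκ hd
      · right
        refine ⟨χ φ, ?_, ?_⟩
        · rw [Finset.mem_filter]
          exact ⟨Finset.mem_univ _, hM, hκ⟩
        · rw [hφ, ZMod.coe_unitOfCoprime])
    have hF3 := dens_sub hDIR hf (univ.filter (fun a : (ZMod f)ˣ => M2 a ∧ (κ a).toAdd = -c)) _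
      (SS b p q p' q' f κ c C Φ) _ hF2 (by
      rintro Q hQ1 - hQ2
      exact hQ1.resolve_left hQ2)
    refine dens_mono hF3 ?_
    have hφ : 0 < f.totient := Nat.totient_pos.mpr hf
    have hKc := hK (-c)
    rw [Nat.card_eq_fintype_card, Fintype.card_subtype] at hKc
    have e1 : ((univ.filter (fun a : (ZMod f)ˣ => M2 a ∧ (κ a).toAdd = -c)).card : ℝ) /
        f.totient = 1 / (2 * 3 ^ (m + 1)) := by
      rw [div_eq_div_iff (by exact_mod_cast hφ.ne') (by positivity), one_mul]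
      exact_mod_cast hKc
    rw [e1]
    have h1 : (5 : ℝ) * (Nat.card (L ≃ₐ[ℚ] L) : ℝ) ≤ 8 * 3 ^ (m + 1) * Nat.card T := by
      have h2 : 10 * Nat.card (L ≃ₐ[ℚ] L) ≤ 8 * (2 * 3 ^ (m + 1)) * Nat.card T := by
        rw [hcardT, mul_add]
        omega
      have h4 : (10 : ℝ) * (Nat.card (L ≃ₐ[ℚ] L) : ℝ) ≤ 8 * (2 * 3 ^ (m + 1)) * Nat.card T := by
        exact_mod_cast h2
      linarith
    have h2 : (5 : ℝ) / (8 * 3 ^ (m + 1)) ≤ (Nat.card T : ℝ) / Nat.card (L ≃ₐ[ℚ] L) := by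
      rw [div_le_div_iff₀ (by positivity) (by exact_mod_cast hGpos)]
      linarith
    have h5 : (1 : ℝ) / (24 * 3 ^ m) = 5 / (8 * 3 ^ (m + 1)) - 1 / (2 * 3 ^ (m + 1)) := by
      have h6 : (3 : ℝ) ^ m ≠ 0 := by positivity
      rw [pow_succ]
      field_simp
      norm_num
    rw [h5]
    linarith

end Pool.Agent.PT3
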