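import Pool.Agent.PT3.Stmts
import Pool.Agent.PT.EADM

/-!
# EADT: `AdC` and `AdT`, `q = 2 (mod 3)`

Follows `Pool/Agent/PT/EADM.lean`.
-/

set_option autoImplicit false

namespace Pool.Agent.PT3

open Pool.Agent.Lib_helper18 Pool.Agent.Lib_helper18.Eis Pool.Agent.Lib_helper84.Cub
open Pool.Agent.PT Pool.Agent.PTE

namespace EADT

open Pool.Agent.PT.EADM

section

variable {h n m k E q : ℕ} {π : Fin m → PP} {p e : Fin m → ℕ} {r f : Fin k → ℕ}
  {w0 : ZMod 3} {c : Fin m → ZMod 3}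

theorem below (hSPP : SPP) (π : PP) : ∃ l, Below π l := by
  obtain ⟨_, _, _, _, _, hSPP6⟩ := hSPP
  obtain ⟨l, hl, h⟩ := hSPP6 π
  exact ⟨l, hl, h⟩

theorem below_ne {π : PP} {l : ℕ} (h : Below π l) : l ≠ 3 := by
  rcases h.h with ⟨h1, _⟩ | ⟨h1, _, _, _⟩ <;> omega

theorem BB_cast (h n E q : ℕ) : BB h n E q = ((3 ^ h * n * q ^ E : ℕ) : ℤ) := by
  unfold BB
  push_cast
  ring

theorem BB_eis (h n E q : ℕ) : ((BB h n E q : ℤ) : Eis) = ((3 ^ h * n * q ^ E : ℕ) : Eis) := by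
  rw [BB_cast, Int.cast_natCast]

theorem nat_ne (hN : NF n π p e r f) (hq : q.Prime) : 3 ^ h * n * q ^ E ≠ 0 :=
  mul_ne_zero (mul_ne_zero (pow_ne_zero _ three_ne_zero) (n_ne hN)) (pow_ne_zero _ hq.ne_zero)

theorem BB_ne (hN : NF n π p e r f) (hq : q.Prime) : BB h n E q ≠ 0 := by
  rw [BB_cast]
  exact_mod_cast nat_ne hN hq

theorem not_dvd_nq (hN : NF n π p e r f) (hq : q.Prime) (hq3 : q ≠ 3) : ¬ 3 ∣ n * q ^ E := by
  intro h1
  rcases Nat.prime_three.dvd_mul.1 h1 with h2 | h2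
  · exact three_not hN h2
  · exact hq3 ((Nat.prime_dvd_prime_iff_eq Nat.prime_three hq).1
      (Nat.prime_three.dvd_of_dvd_pow h2)).symm

theorem base_BT (hSPP : SPP) (hN : NF n π p e r f) (hh : h = 1 ∨ h = 2) (hE : E = 1 ∨ E = 2)
    (hq : q.Prime) (hq3 : q ≠ 3) (hqn : ¬ q ∣ n) : BT (BB h n E q) := by
  have hn0 : n ≠ 0 := n_ne hN
  have h3n := not_dvd_nq (E := E) hN hq hq3
  refine ⟨⟨BB_ne hN hq, fun ϖ => ?_⟩, ?_, ?_⟩
  · obtain ⟨l, hl⟩ := below hSPP ϖ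
    have hqE : q ^ E ≠ 0 := pow_ne_zero _ hq.ne_zero
    have h30 : 3 ^ h ≠ 0 := pow_ne_zero _ three_ne_zero
    rw [BB_eis, hl.V_nat (nat_ne hN hq), Nat.factorization_mul (mul_ne_zero h30 hn0) hqE,
      Nat.factorization_mul h30 hn0, Finsupp.add_apply, Finsupp.add_apply]
    have h1 := fac_le hN l
    have h2 : (3 ^ h).factorization l = 0 := by
      apply Nat.factorization_eq_zero_of_not_dvd
      intro h4
      exact below_ne hl ((Nat.prime_dvd_prime_iff_eq hl.pr Nat.prime_three).1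
        (hl.pr.dvd_of_dvd_pow h4))
    by_cases hlq : l = q
    · have h4 : n.factorization l = 0 := by
        rw [hlq]
        exact Nat.factorization_eq_zero_of_not_dvd hqn
      have h3 : (q ^ E).factorization l = E := by
        rw [hlq, hq.factorization_pow, Finsupp.single_eq_same]
      omega
    · have h3 : (q ^ E).factorization l = 0 := by
        apply Nat.factorization_eq_zero_of_not_dvd
        intro h
        exact hlq ((Nat.prime_dvd_prime_iff_eq hl.pr hq).1 (hl.pr.dvd_of_dvd_pow h))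
      omega
  · unfold BB
    have h1 : (3 : ℤ) ∣ 3 ^ h := dvd_pow_self _ (by omega)
    exact (h1.mul_right _).mul_right _
  · intro h27
    rw [BB_cast] at h27
    have h1 : 27 ∣ 3 ^ h * n * q ^ E := by exact_mod_cast h27
    rw [mul_assoc] at h1
    apply h3n
    rcases hh with rfl | rfl
    · exact (Nat.dvd_of_mul_dvd_mul_left (by norm_num : 0 < 3)
        ((by norm_num : 3 * 3 ∣ 27).trans (by simpa using h1)))
    · exact (Nat.dvd_of_mul_dvd_mul_left (by norm_num : 0 < 9)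
        ((by norm_num : 9 * 3 ∣ 27).trans (by simpa using h1)))

theorem base_Ty (hLCL : LCL) (hN : NF n π p e r f) (hh : h = 1 ∨ h = 2)
    (hq : q.Prime) (hq3 : q ≠ 3) (hw : wt (((q : ℤ) ^ E) ^ 2) = w0) :
    TyB h n w0 (BB h n E q) := by
  obtain ⟨-, hmul, ⟨h3v, h3w⟩, hunit, -⟩ := hLCL
  have hn0 : (n : ℤ) ≠ 0 := by exact_mod_cast n_ne hN
  have hn3 : ¬ (3 : ℤ) ∣ (n : ℤ) := by
    intro h
    exact three_not hN (by exact_mod_cast h)
  have hq0 : (q : ℤ) ^ E ≠ 0 := pow_ne_zero _ (by exact_mod_cast hq.ne_zero)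
  have hqE3 : ¬ (3 : ℤ) ∣ (q : ℤ) ^ E := by
    intro h
    have h1 : 3 ∣ q ^ E := by exact_mod_cast h
    exact hq3 ((Nat.prime_dvd_prime_iff_eq Nat.prime_three hq).1
      (Nat.prime_three.dvd_of_dvd_pow h1)).symm
  have h30 : (3 : ℤ) ≠ 0 := by norm_num
  have h3h : lv ((3 : ℤ) ^ h) = (h : ZMod 3) ∧ lw ((3 : ℤ) ^ h) = 0 := by
    rcases hh with rfl | rfl
    · rw [pow_one, h3v, h3w]
      exact ⟨by norm_num, rfl⟩
    · rw [pow_two, (hmul 3 3 h30 h30).1, (hmul 3 3 h30 h30).2, h3v, h3w]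
      exact ⟨by norm_num, by norm_num⟩
  have h1 := hmul ((3 : ℤ) ^ h) n (pow_ne_zero _ h30) hn0
  have h2 := hmul ((3 : ℤ) ^ h * n) ((q : ℤ) ^ E) (mul_ne_zero (pow_ne_zero _ h30) hn0) hq0
  refine ⟨BB_ne hN hq, ?_, ?_⟩
  · unfold BB
    rw [h2.1, h1.1, h3h.1, (hunit _ hn3).1, (hunit _ hqE3).1, add_zero, add_zero]
  · unfold BB
    rw [h2.2, h1.2, h3h.2, (hunit _ hn3).2, (hunit _ hqE3).2, zero_add, hw]

theorem sym_pow (hSPP : SPP) {ϖ : PP} (hE : E = 1 ∨ E = 2) {a : Eis} (ha : ¬ ϖ.1 ∣ a) :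
    sym ϖ.1 (a ^ E) = (E : ZMod 3) * sym ϖ.1 a := by
  obtain ⟨_, _, _, hSPP4, _, _⟩ := hSPP
  rcases hE with rfl | rfl
  · rw [pow_one, Nat.cast_one, one_mul]
  · rw [pow_two, sym_mul ϖ.2.1 (hSPP4 ϖ).1 ha ha]
    push_cast
    ring

/-- The condition at `π i`. -/
theorem key (hSPP : SPP) (hN : NF n π p e r f) (hE : E = 1 ∨ E = 2) (hq : q.Prime)
    (hqn : ¬ q ∣ n) (hqc : ∀ i, (E : ZMod 3) * sym (π i).1 (q : Eis) = c i) {x : ℤ} (hx : x ≠ 0)
    (i : Fin m) :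
    (V (π i).1 (n : Eis) : ZMod 3) * ch (π i).1 (x : Eis) -
      (V (π i).1 (x : Eis) : ZMod 3) * (ch (π i).1 ((3 ^ h * n : ℕ) : Eis) + c i) =
        tm (π i).1 (x : Eis) ((BB h n E q : ℤ) : Eis) := by
  have hn0 : n ≠ 0 := n_ne hN
  obtain ⟨l, hl⟩ := below hSPP (π i)
  have hpi : (p i : Eis) = (π i).1 * conj (π i).1 := hN.pπ i
  have hlp : l = p i := by
    have h1 : (π i).1 ∣ (p i : Eis) := by rw [hpi]; exact dvd_mul_right _ _
    exact (Nat.prime_dvd_prime_iff_eq hl.pr (hN.pp i)).1 ((hl.dvd_nat _).1 h1)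
  have hpn : p i ∣ n := by
    have h1 : p i ∣ ∏ i, p i ^ e i :=
      (dvd_pow_self _ (by rcases hN.pe i with h | h <;> omega)).trans
        (Finset.dvd_prod_of_mem _ (Finset.mem_univ i))
    rw [hN.eq]
    exact h1.mul_right _
  have hq' : ¬ (π i).1 ∣ (q : Eis) := by
    intro h
    have h1 := (Nat.prime_dvd_prime_iff_eq hl.pr hq).1 ((hl.dvd_nat _).1 h)
    apply hqn
    rw [← h1, hlp]
    exact hpn
  have hqE' : ¬ (π i).1 ∣ (q : Eis) ^ E := fun h => hq' ((π i).2.1.dvd_of_dvd_pow h)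
  have h3 : ¬ (π i).1 ∣ 3 := by
    obtain ⟨_, _, _, hSPP4, _, _⟩ := hSPP
    exact (hSPP4 (π i)).1
  have h30 : (3 : ℕ) ^ h ≠ 0 := pow_ne_zero _ three_ne_zero
  have h3h : ¬ (π i).1 ∣ ((3 ^ h : ℕ) : Eis) := by
    rw [hl.dvd_nat]
    intro h4
    exact below_ne hl ((Nat.prime_dvd_prime_iff_eq hl.pr Nat.prime_three).1
      (hl.pr.dvd_of_dvd_pow h4))
  have hqE0 : (q : Eis) ^ E ≠ 0 := pow_ne_zero _ (natCast_ne hq.ne_zero)
  have e1 : ((BB h n E q : ℤ) : Eis) = ((3 ^ h * n : ℕ) : Eis) * (q : Eis) ^ E := by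
    rw [BB_eis]
    push_cast
    ring
  have e2 : V (π i).1 ((3 ^ h * n : ℕ) : Eis) = V (π i).1 (n : Eis) := by
    have h5 : ((3 ^ h * n : ℕ) : Eis) = ((3 ^ h : ℕ) : Eis) * (n : Eis) := by push_cast; ring
    rw [h5, V_mul (π i).2.1 (natCast_ne h30) (natCast_ne hn0), V_eq_zero h3h, zero_add]
  have hm0 : ((3 ^ h * n : ℕ) : Eis) ≠ 0 := natCast_ne (mul_ne_zero h30 hn0)
  rw [e1]
  unfold tm
  rw [V_mul (π i).2.1 hm0 hqE0, V_eq_zero hqE', add_zero, e2,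
    ch_mul (π i).2.1 h3 hm0 hqE0, ch_unit (π i).2.1 hqE', sym_pow hSPP hE hq', hqc i]

/-- The tame conditions outside of `q`. -/
theorem sym_of (hSPP : SPP) (hSCJ : SCJ) (hN : NF n π p e r f) (hE : E = 1 ∨ E = 2)
    (hq : q.Prime) (hqn : ¬ q ∣ n) (hqc : ∀ i, (E : ZMod 3) * sym (π i).1 (q : Eis) = c i)
    {x : ℤ} (hx : x ≠ 0) (hsupp : ∀ l : ℕ, l.Prime → (l : ℤ) ∣ x → l ∣ 3 * n)
    (hsym : ∀ i, (V (π i).1 (n : Eis) : ZMod 3) * ch (π i).1 (x : Eis) -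
      (V (π i).1 (x : Eis) : ZMod 3) * (ch (π i).1 ((3 ^ h * n : ℕ) : Eis) + c i) = 0)
    (ϖ : PP) (hϖ : q % 3 = 2 ∨ ¬ ϖ.1 ∣ (q : Eis)) :
    tm ϖ.1 (x : Eis) ((BB h n E q : ℤ) : Eis) = 0 := by
  have hB0 : BB h n E q ≠ 0 := BB_ne hN hq
  obtain ⟨l, hl⟩ := below hSPP ϖ
  have hlq : l % 3 = 1 → l ≠ q := by
    intro h1 h2
    rcases hϖ with h3 | h3
    · omega
    · apply h3
      rw [hl.dvd_nat, h2]
  obtain ⟨_, hSPP2, _, hSPP4, _, _⟩ := id hSPP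
  obtain ⟨hSCJ1, _, _, hSCJ4⟩ := hSCJ
  rcases hl.h with ⟨hl3, hl2⟩ | ⟨hl3, hl2, hl4, hl5⟩
  · rw [hl2]
    exact hSCJ4 l hl.pr hl3 x _ hx hB0
  · by_cases hln : l ∣ n
    · rcases prime_dvd hN hl.pr hln with ⟨i, hi⟩ | ⟨j, hj⟩
      · have h4 : ϖ.1 ∣ (π i).1 * conj (π i).1 := by
          rw [← hN.pπ i, ← hi, hl4]
          exact dvd_mul_right _ _
        rcases ϖ.2.1.dvd_or_dvd h4 with h5 | h5
        · have h6 : ϖ = π i :=
            hSPP2 _ _ (ϖ.2.1.associated_of_dvd (π i).2.1 h5)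
          rw [h6, ← key hSPP hN hE hq hqn hqc hx i]
          exact hsym i
        · obtain ⟨ϖ', hϖ'⟩ := (hSPP4 (π i)).2
          have h6 : ϖ = ϖ' := by
            apply hSPP2
            rw [hϖ']
            exact ϖ.2.1.associated_of_dvd (prime_conj (π i).2.1) h5
          rw [h6, hϖ']
          have h7 := hSCJ1 (π i).1 (x : Eis) ((BB h n E q : ℤ) : Eis) (π i).2.1
            (hSPP4 (π i)).1 (intCast_ne hx) (intCast_ne hB0)
          rw [map_intCast, map_intCast] at h7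
          rw [h7, ← key hSPP hN hE hq hqn hqc hx i, hsym i, neg_zero]
      · have := hN.r2 j
        rw [← hj] at this
        omega
    · have hl3' : ¬ l ∣ 3 * n := by
        intro h1
        rcases hl.pr.dvd_mul.1 h1 with h2 | h2
        · exact below_ne hl ((Nat.prime_dvd_prime_iff_eq hl.pr Nat.prime_three).1 h2)
        · exact hln h2
      have h4 : ¬ ϖ.1 ∣ (x : Eis) := by
        intro h
        exact hl3' (hsupp l hl.pr ((hl.dvd_int x).1 h))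
      have h5 : ¬ ϖ.1 ∣ ((BB h n E q : ℤ) : Eis) := by
        rw [BB_eis, hl.dvd_nat]
        intro h
        rcases hl.pr.dvd_mul.1 h with h6 | h6
        · rcases hl.pr.dvd_mul.1 h6 with h7 | h7
          · exact below_ne hl ((Nat.prime_dvd_prime_iff_eq hl.pr Nat.prime_three).1
              (hl.pr.dvd_of_dvd_pow h7))
          · exact hln h7
        · exact hlq hl3 ((Nat.prime_dvd_prime_iff_eq hl.pr hq).1 (hl.pr.dvd_of_dvd_pow h6))
      unfold tm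
      rw [V_eq_zero h4, V_eq_zero h5]
      simp

theorem unr_of (hSPP : SPP) (hh : h = 1 ∨ h = 2) {x : ℤ}
    (hsupp : ∀ l : ℕ, l.Prime → (l : ℤ) ∣ x → l ∣ 3 * n) (ϖ : PP)
    (hϖ : ¬ ϖ.1 ∣ ((BB h n E q : ℤ) : Eis)) : ¬ ϖ.1 ∣ (x : Eis) := by
  intro h1
  obtain ⟨l, hl⟩ := below hSPP ϖ
  apply hϖ
  rw [BB_eis, hl.dvd_nat]
  have h2 : 3 * n ∣ 3 ^ h * n := Nat.mul_dvd_mul_right (dvd_pow_self _ (by omega)) n
  exact ((hsupp l hl.pr ((hl.dvd_int x).1 h1)).trans h2).mul_right _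

theorem wild_iff (hT : TyB h n w0 (BB h n E q)) (hh : h = 1 ∨ h = 2) (x : ℤ) :
    (h = 2 → lw x + lv x * (wt ((n : ℤ) ^ 2) + w0) = 0) ↔
      (lv (BB h n E q) = 2 → lw x + lv x * lw (BB h n E q) = 0) := by
  obtain ⟨-, h1, h2⟩ := hT
  rw [h1, h2]
  rcases hh with rfl | rfl
  · constructor
    · intro _ h3
      exact absurd h3 (by decide)
    · intro _ h3
      exact absurd h3 (by norm_num)
  · constructor
    · intro h3 _
      exact h3 rfl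
    · intro h3 _
      exact h3 (by decide)

end

end EADT

open EADT in
/-- EADT: `AdC` and `AdT`, `q = 2 (mod 3)`. -/
theorem EADT_thm (hSTM : STM) (hSPP : SPP) (hSCJ : SCJ) (hLCL : LCL) : EADT := by
  have _ := hSTM
  intro h n m k π p e r f w0 c E q hN hh hE hq hq3 hcl hqn
  obtain ⟨hqw, hqc⟩ := hcl
  have hq3' : q ≠ 3 := by rintro rfl; omega
  have hT := base_Ty hLCL hN hh hq hq3' hqw
  refine ⟨base_BT hSPP hN hh hE hq hq3' hqn, hT, fun x hsupp => ⟨?_, ?_⟩⟩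
  · rintro ⟨hx, _, hsym, hwild⟩
    exact ⟨⟨hx, fun ϖ => sym_of hSPP hSCJ hN hE hq hqn hqc hx hsupp hsym ϖ (Or.inl hq3),
      fun ϖ hϖ => unr_of hSPP hh hsupp ϖ hϖ⟩, (wild_iff hT hh x).1 hwild⟩
  · rintro ⟨⟨hx, hsym, _⟩, hwild⟩
    refine ⟨hx, hsupp, fun i => ?_, (wild_iff hT hh x).2 hwild⟩
    rw [key hSPP hN hE hq hqn hqc hx i]
    exact hsym (π i)

end Pool.Agent.PT3
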