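import Pool.Agent.PT3.Stmts
import Pool.Agent.PT.EADM

/-!
# EADU: `AdC` and `AdT` for the primes `q = 1 (mod 3)`

Follows `Pool/Agent/PTE/EADMS.lean`.
-/

set_option autoImplicit false

namespace Pool.Agent.PT3

open Pool.Agent.Lib_helper18 Pool.Agent.Lib_helper18.Eis Pool.Agent.Lib_helper84.Cub
open Pool.Agent.PT Pool.Agent.PTE

namespace EADU

open Pool.Agent.PT.EADM

theorem ch_pow' {π a : Eis} (hπ : Prime π) (h3 : ¬ π ∣ 3) (ha : a ≠ 0) (E : ℕ) :
    ch π (a ^ E) = (E : ZMod 3) * ch π a := by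
  induction E with
  | zero =>
    have h1 : ch π (1 * 1 : Eis) = ch π 1 + ch π 1 := ch_mul hπ h3 one_ne_zero one_ne_zero
    rw [one_mul] at h1
    have h2 : ch π (1 : Eis) = 0 := by
      have h4 := sub_eq_zero.2 h1
      linear_combination - h4
    rw [pow_zero, h2, Nat.cast_zero, zero_mul]
  | succ k ih =>
    rw [pow_succ, ch_mul hπ h3 (pow_ne_zero _ ha) ha, ih]
    push_cast
    ring

theorem below_ne {π : PP} {l : ℕ} (h : Below π l) : l ≠ 3 := by
  rcases h.h with ⟨h1, _⟩ | ⟨h1, _⟩ <;> omega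

/-- the type of `B` at `3` -/
theorem type (hLCL : LCL) {h n E q : ℕ} {w0 : ZMod 3} (hh : h = 1 ∨ h = 2)
    (hn0 : n ≠ 0) (hn3 : ¬ 3 ∣ n) (hq0 : q ≠ 0) (hq3 : ¬ 3 ∣ q)
    (hw : wt (((q : ℤ) ^ E) ^ 2) = w0) : TyB h n w0 (BB h n E q) := by
  obtain ⟨-, hL2, ⟨hL3, hL4⟩, hL5, -⟩ := hLCL
  have hn : (n : ℤ) ≠ 0 := by exact_mod_cast hn0
  have hq : (q : ℤ) ≠ 0 := by exact_mod_cast hq0
  have hqE : (q : ℤ) ^ E ≠ 0 := pow_ne_zero _ hq
  have h3n : ¬ (3 : ℤ) ∣ (n : ℤ) := fun h => hn3 (by exact_mod_cast h)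
  have h3q : ¬ (3 : ℤ) ∣ (q : ℤ) ^ E := by
    intro h
    have h1 : (3 : ℤ) ∣ (q : ℤ) := Int.prime_three.dvd_of_dvd_pow h
    exact hq3 (by exact_mod_cast h1)
  have h3h : (3 : ℤ) ^ h ≠ 0 := pow_ne_zero _ (by norm_num)
  have hp : lv ((3 : ℤ) ^ h) = (h : ZMod 3) ∧ lw ((3 : ℤ) ^ h) = 0 := by
    rcases hh with rfl | rfl
    · rw [pow_one]
      exact ⟨by rw [hL3]; norm_num, hL4⟩
    · have h1 := hL2 3 3 (by norm_num) (by norm_num)
      have h2 : (3 : ℤ) ^ 2 = 3 * 3 := by norm_num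
      rw [h2, h1.1, h1.2, hL3, hL4]
      constructor
      · decide
      · ring
  have hB : BB h n E q ≠ 0 := mul_ne_zero (mul_ne_zero h3h hn) hqE
  obtain ⟨h1, h2⟩ := hL2 ((3 : ℤ) ^ h * n) ((q : ℤ) ^ E) (mul_ne_zero h3h hn) hqE
  obtain ⟨h3, h4⟩ := hL2 ((3 : ℤ) ^ h) n h3h hn
  obtain ⟨h5, h6⟩ := hL5 n h3n
  obtain ⟨h7, h8⟩ := hL5 _ h3q
  refine ⟨hB, ?_, ?_⟩
  · unfold BB
    rw [h1, h3, hp.1, h5, h7]
    ring
  · unfold BB
    rw [h2, h4, hp.2, h6, h8, hw]
    ring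

/-- the conditions on `B` -/
theorem bt {h n m k : ℕ} {π : Fin m → PP} {p e : Fin m → ℕ} {r f : Fin k → ℕ} {E q : ℕ}
    (hN : NF n π p e r f) (hh : h = 1 ∨ h = 2) (hE : E = 1 ∨ E = 2) (hq : q.Prime)
    (hq3 : ¬ 3 ∣ q) (hqn : ¬ q ∣ n) (hbelow : ∀ π : PP, ∃ l, Below π l) :
    BT (BB h n E q) := by
  have hn0 : n ≠ 0 := n_ne hN
  have hn3 : ¬ 3 ∣ n := three_not hN
  have hM : ¬ 3 ∣ n * q ^ E := by
    intro h1
    rcases Nat.prime_three.dvd_mul.1 h1 with h2 | h2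
    · exact hn3 h2
    · exact hq3 (Nat.prime_three.dvd_of_dvd_pow h2)
  have e0 : BB h n E q = ((3 ^ h * (n * q ^ E) : ℕ) : ℤ) := by
    unfold BB
    push_cast
    ring
  have hne : 3 ^ h * (n * q ^ E) ≠ 0 :=
    mul_ne_zero (pow_ne_zero _ (by norm_num)) (mul_ne_zero hn0 (pow_ne_zero _ hq.ne_zero))
  refine ⟨⟨?_, ?_⟩, ?_, ?_⟩
  · rw [e0]
    exact_mod_cast hne
  · intro ϖ
    obtain ⟨l, hl⟩ := hbelow ϖ
    have hl3 := below_ne hl
    rw [e0, Int.cast_natCast, hl.V_nat hne,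
      Nat.factorization_mul (pow_ne_zero _ (by norm_num))
        (mul_ne_zero hn0 (pow_ne_zero _ hq.ne_zero)), Finsupp.add_apply,
      Nat.factorization_mul hn0 (pow_ne_zero _ hq.ne_zero), Finsupp.add_apply]
    have h1 := fac_le hN l
    have h0 : (3 ^ h).factorization l = 0 := by
      apply Nat.factorization_eq_zero_of_not_dvd
      intro h2
      exact hl3 ((Nat.prime_dvd_prime_iff_eq hl.pr Nat.prime_three).1 (hl.pr.dvd_of_dvd_pow h2))
    by_cases hlq : l = q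
    · have h2 : n.factorization l = 0 := by
        rw [hlq]
        exact Nat.factorization_eq_zero_of_not_dvd hqn
      have h3 : (q ^ E).factorization l = E := by
        rw [hlq, hq.factorization_pow, Finsupp.single_eq_same]
      omega
    · have h3 : (q ^ E).factorization l = 0 := by
        apply Nat.factorization_eq_zero_of_not_dvd
        intro h2
        exact hlq ((Nat.prime_dvd_prime_iff_eq hl.pr hq).1 (hl.pr.dvd_of_dvd_pow h2))
      omega
  · rw [e0]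
    have h1 : 3 ∣ 3 ^ h * (n * q ^ E) := by
      apply Dvd.dvd.mul_right
      rcases hh with rfl | rfl
      · norm_num
      · norm_num
    exact_mod_cast h1
  · rw [e0]
    intro h1
    have h2 : 27 ∣ 3 ^ h * (n * q ^ E) := by exact_mod_cast h1
    apply hM
    rcases hh with rfl | rfl
    · generalize n * q ^ E = M at *
      omega
    · generalize n * q ^ E = M at *
      omega

end EADU

open Pool.Agent.PT.EADM EADU in
/-- EADU: `AdC` and `AdT`, `q = 1 (mod 3)`. -/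
theorem EADU_thm (hSTM : STM) (hSPP : SPP) (hSCJ : SCJ) (hSPLT : SPLT) (hLCL : LCL) : EADU := by
  have _ := hSTM
  intro h n m k π p e r f w0 c E q ρ hN hh hE hq hq3 hcl hqn hqρ
  obtain ⟨_, hSPP2, _, hSPP4, _, hSPP6⟩ := hSPP
  obtain ⟨hSCJ1, _, _, hSCJ4⟩ := hSCJ
  obtain ⟨hqw, hqc⟩ := hcl
  obtain ⟨-, hsplit⟩ := hSPLT
  obtain ⟨-, -, hS3, hS4, -, -⟩ := hsplit q ρ hq hq3 hqρ
  have hn0 : n ≠ 0 := n_ne hN
  have hn3 : ¬ 3 ∣ n := three_not hN
  have hbelow : ∀ π : PP, ∃ l, Below π l := by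
    intro π
    obtain ⟨l, hl, h⟩ := hSPP6 π
    exact ⟨l, hl, h⟩
  have h3q : ¬ 3 ∣ q := by omega
  have hbt := bt hN hh hE hq h3q hqn hbelow
  have hty := EADU.type hLCL hh hn0 hn3 hq.ne_zero h3q hqw
  refine ⟨hbt, hty, ?_⟩
  have hB0 : BB h n E q ≠ 0 := hbt.ne
  intro x hsupp
  have hρ3 : ¬ ρ.1 ∣ 3 := (hSPP4 ρ).1
  have h3ne : ((3 ^ h * n : ℕ) : Eis) ≠ 0 := natCast_ne
    (mul_ne_zero (pow_ne_zero _ (by norm_num)) hn0)
  have hq0 : (q : Eis) ≠ 0 := natCast_ne hq.ne_zero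
  have e1 : ((BB h n E q : ℤ) : Eis) = ((3 ^ h * n : ℕ) : Eis) * (q : Eis) ^ E := by
    unfold BB
    push_cast
    ring
  -- divisors of `3 n`
  have hsupp' : ∀ l : ℕ, l.Prime → l ≠ 3 → (l : ℤ) ∣ x → l ∣ n := by
    intro l hl hl3 hlx
    rcases hl.dvd_mul.1 (hsupp l hl hlx) with h1 | h1
    · exact absurd ((Nat.prime_dvd_prime_iff_eq hl Nat.prime_three).1 h1) hl3
    · exact h1
  have hq3' : q ≠ 3 := by omega
  -- `ρ` does not divide `x`
  have hρx : ¬ ρ.1 ∣ (x : Eis) := fun h => hqn (hsupp' q hq hq3' ((hS4 x).1 h))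
  have hρn : ¬ ρ.1 ∣ ((3 ^ h * n : ℕ) : Eis) := by
    intro h1
    have h2 := (hS4 ((3 ^ h * n : ℕ) : ℤ)).1 (by rwa [Int.cast_natCast])
    have h3 : q ∣ 3 ^ h * n := by exact_mod_cast h2
    rcases hq.dvd_mul.1 h3 with h4 | h4
    · exact hq3' ((Nat.prime_dvd_prime_iff_eq hq Nat.prime_three).1 (hq.dvd_of_dvd_pow h4))
    · exact hqn h4
  -- the symbol at `ρ`
  have hVq : V ρ.1 (q : Eis) = 1 := by
    obtain ⟨l, hl⟩ := hbelow ρ
    have h1 : ρ.1 ∣ (q : Eis) := by rw [hqρ]; exact dvd_mul_right _ _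
    have h2 : l = q := (Nat.prime_dvd_prime_iff_eq hl.pr hq).1 ((hl.dvd_nat _).1 h1)
    rw [← h2]
    exact hl.V_self
  have hVB : V ρ.1 ((BB h n E q : ℤ) : Eis) = E := by
    rw [e1, V_mul ρ.2.1 h3ne (pow_ne_zero _ hq0), V_eq_zero hρn, V_pow ρ.2.1 hq0, hVq,
      zero_add, mul_one]
  have hrho : tm ρ.1 (x : Eis) ((BB h n E q : ℤ) : Eis) = (E : ZMod 3) * sym ρ.1 (x : Eis) := by
    unfold tm
    rw [hVB, V_eq_zero hρx, ch_unit ρ.2.1 hρx]
    simp
  have hE0 : (E : ZMod 3) ≠ 0 := by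
    rcases hE with rfl | rfl <;> decide
  -- the conditions at the `π i`
  have key : x ≠ 0 → ∀ i, (V (π i).1 (n : Eis) : ZMod 3) * ch (π i).1 (x : Eis) -
      (V (π i).1 (x : Eis) : ZMod 3) * (ch (π i).1 ((3 ^ h * n : ℕ) : Eis) + c i) =
      tm (π i).1 (x : Eis) ((BB h n E q : ℤ) : Eis) := by
    intro hx i
    obtain ⟨l, hl⟩ := hbelow (π i)
    have hpi : (p i : Eis) = (π i).1 * conj (π i).1 := hN.pπ i
    have hlp : l = p i := by
      have h1 : (π i).1 ∣ (p i : Eis) := by rw [hpi]; exact dvd_mul_right _ _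
      exact (Nat.prime_dvd_prime_iff_eq hl.pr (hN.pp i)).1 ((hl.dvd_nat _).1 h1)
    have hq' : ¬ (π i).1 ∣ (q : Eis) := by
      intro h
      have h1 := (Nat.prime_dvd_prime_iff_eq hl.pr hq).1 ((hl.dvd_nat _).1 h)
      apply hqn
      rw [← h1, hlp, hN.eq]
      have he : e i ≠ 0 := by
        have := hN.pe i
        omega
      exact Dvd.dvd.mul_right ((dvd_pow_self _ he).trans
        (Finset.dvd_prod_of_mem (fun i => p i ^ e i) (Finset.mem_univ i))) _
    have h3 : ¬ (π i).1 ∣ 3 := (hSPP4 (π i)).1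
    have h3' : ¬ (π i).1 ∣ ((3 ^ h : ℕ) : Eis) := by
      intro h4
      apply h3
      have h5 := (hl.dvd_nat _).1 h4
      have h6 := (hl.dvd_nat 3).2 (hl.pr.dvd_of_dvd_pow h5)
      exact_mod_cast h6
    have h30 : ((3 ^ h : ℕ) : Eis) ≠ 0 := natCast_ne (pow_ne_zero _ (by norm_num))
    have hV : V (π i).1 ((3 ^ h * n : ℕ) : Eis) = V (π i).1 (n : Eis) := by
      rw [Nat.cast_mul, V_mul (π i).2.1 h30 (natCast_ne hn0), V_eq_zero h3', zero_add]
    rw [e1]
    unfold tm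
    rw [V_mul (π i).2.1 h3ne (pow_ne_zero _ hq0), V_pow (π i).2.1 hq0, V_eq_zero hq', mul_zero,
      add_zero, hV, ch_mul (π i).2.1 h3 h3ne (pow_ne_zero _ hq0), ch_pow' (π i).2.1 h3 hq0 E,
      ch_unit (π i).2.1 hq', hqc i]
  have hwild : h = 2 ↔ lv (BB h n E q) = 2 := by
    rw [hty.2.1]
    rcases hh with rfl | rfl
    · constructor
      · intro h1
        omega
      · intro h1
        exact absurd h1 (by decide)
    · constructor
      · intro _
        rfl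
      · intro _
        rfl
  constructor
  · rintro ⟨⟨hx, _, hsym, h9⟩, hxρ⟩
    refine ⟨⟨hx, ?_, ?_⟩, fun h1 => ?_⟩
    · intro ϖ
      obtain ⟨l, hl⟩ := hbelow ϖ
      rcases hl.h with ⟨hl3, hl2⟩ | ⟨hl3, hl2, hl4, hl5⟩
      · rw [hl2]
        exact hSCJ4 l hl.pr hl3 x _ hx hB0
      · by_cases hln : l ∣ n
        · rcases prime_dvd hN hl.pr hln with ⟨i, hi⟩ | ⟨j, hj⟩
          · have h4 : ϖ.1 ∣ (π i).1 * conj (π i).1 := by
              rw [← hN.pπ i, ← hi, hl4]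
              exact dvd_mul_right _ _
            rcases ϖ.2.1.dvd_or_dvd h4 with h5 | h5
            · have h6 : ϖ = π i :=
                hSPP2 _ _ (ϖ.2.1.associated_of_dvd (π i).2.1 h5)
              rw [h6, ← key hx i]
              exact hsym i
            · obtain ⟨ϖ', hϖ'⟩ := (hSPP4 (π i)).2
              have h6 : ϖ = ϖ' := by
                apply hSPP2
                rw [hϖ']
                exact ϖ.2.1.associated_of_dvd (prime_conj (π i).2.1) h5
              rw [h6, hϖ']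
              have h7 := hSCJ1 (π i).1 (x : Eis) ((BB h n E q : ℤ) : Eis) (π i).2.1
                (hSPP4 (π i)).1 (intCast_ne hx) (intCast_ne hB0)
              rw [map_intCast, map_intCast] at h7
              rw [h7, ← key hx i, hsym i, neg_zero]
          · have := hN.r2 j
            rw [← hj] at this
            omega
        · by_cases hlq : l = q
          · -- the primes above `q`
            have h4 : ϖ.1 ∣ (q : Eis) := by
              rw [← hlq, hl4]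
              exact dvd_mul_right _ _
            rcases hS3 ϖ h4 with h5 | h5
            · rw [h5, hrho, hxρ, mul_zero]
            · rw [h5]
              have h7 := hSCJ1 ρ.1 (x : Eis) ((BB h n E q : ℤ) : Eis) ρ.2.1
                hρ3 (intCast_ne hx) (intCast_ne hB0)
              rw [map_intCast, map_intCast] at h7
              rw [h7, hrho, hxρ, mul_zero, neg_zero]
          · have h4 : ¬ ϖ.1 ∣ (x : Eis) := by
              intro h
              exact hln (hsupp' l hl.pr (below_ne hl) ((hl.dvd_int x).1 h))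
            have h5 : ¬ ϖ.1 ∣ ((BB h n E q : ℤ) : Eis) := by
              rw [e1]
              intro h6
              rcases ϖ.2.1.dvd_or_dvd h6 with h7 | h7
              · rcases hl.pr.dvd_mul.1 ((hl.dvd_nat _).1 h7) with h8 | h8
                · exact below_ne hl ((Nat.prime_dvd_prime_iff_eq hl.pr Nat.prime_three).1
                    (hl.pr.dvd_of_dvd_pow h8))
                · exact hln h8
              · exact hlq ((Nat.prime_dvd_prime_iff_eq hl.pr hq).1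
                  ((hl.dvd_nat _).1 (ϖ.2.1.dvd_of_dvd_pow h7)))
            unfold tm
            rw [V_eq_zero h4, V_eq_zero h5]
            simp
    · intro ϖ hϖ h1
      obtain ⟨l, hl⟩ := hbelow ϖ
      apply hϖ
      rw [e1]
      apply Dvd.dvd.mul_right
      rw [hl.dvd_nat]
      exact (hsupp' l hl.pr (below_ne hl) ((hl.dvd_int x).1 h1)).mul_left _
    · have h2 := h9 (hwild.2 h1)
      rw [hty.2.2]
      exact h2
  · rintro ⟨⟨hx, hsym, _⟩, h9⟩
    refine ⟨⟨hx, hsupp, fun i => ?_, fun h1 => ?_⟩, ?_⟩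
    · rw [key hx i]
      exact hsym (π i)
    · have h2 := h9 (hwild.1 h1)
      rw [hty.2.2] at h2
      exact h2
    · have h1 := hsym ρ
      rw [hrho] at h1
      exact (mul_eq_zero.1 h1).resolve_left hE0

end Pool.Agent.PT3
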