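import Pool.Agent.PT3.Stmts
import Pool.Agent.PT.EBAS

/-!
# Prime twists of rank zero, `n` divisible by `3`: basis of the admissible classes (module EBAT)
-/

namespace Pool.Agent.PT3

open Pool.Agent.Lib_helper18 Pool.Agent.Lib_helper18.Eis Pool.Agent.Lib_helper84.Cub
open Pool.Agent.PT Pool.Agent.PTE

namespace EBAT

open Pool.Agent.PT.EBAS

/-! ### Linear algebra -/

/-- A basis made of a basis of the kernel of a linear map and of given vectors. -/
theorem glue {S Q : Type} [AddCommGroup S] [Module (ZMod 3) S] [Module.Finite (ZMod 3) S]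
    [AddCommGroup Q] [Module (ZMod 3) Q] (Λ : S →ₗ[ZMod 3] Q) {c : ℕ} (u : Fin c → S)
    (hli : ∀ g : Fin c → ZMod 3, ∑ i, g i • Λ (u i) = 0 → ∀ i, g i = 0)
    (hsp : ∀ x, ∃ g : Fin c → ZMod 3, Λ x = ∑ i, g i • Λ (u i)) :
    ∃ (e : Fin (Module.finrank (ZMod 3) S) ≃
        Fin (Module.finrank (ZMod 3) (LinearMap.ker Λ)) ⊕ Fin c)
      (b : Module.Basis (Fin (Module.finrank (ZMod 3) S)) (ZMod 3) S),
      ∀ i, b i = Sum.elim (fun a =>
        ((Module.finBasis (ZMod 3) (LinearMap.ker Λ) a : LinearMap.ker Λ) : S)) u (e i) := by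
  classical
  set K := Module.finBasis (ZMod 3) (LinearMap.ker Λ) with hK
  set F : Fin (Module.finrank (ZMod 3) (LinearMap.ker Λ)) ⊕ Fin c → S :=
    Sum.elim (fun a => ((K a : LinearMap.ker Λ) : S)) u with hF
  have h1 : LinearIndependent (ZMod 3) F := by
    rw [Fintype.linearIndependent_iff]
    intro g hg
    rw [Fintype.sum_sum_type] at hg
    simp only [hF, Sum.elim_inl, Sum.elim_inr] at hg
    have h2 : ∀ i, g (Sum.inr i) = 0 := by
      apply hli
      have h3 := congrArg Λ hg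
      rw [map_add, map_sum, map_sum, map_zero] at h3
      rw [Finset.sum_eq_zero fun a _ => ?_, zero_add] at h3
      · rw [← h3]
        exact Finset.sum_congr rfl fun i _ => by rw [map_smul]
      · rw [map_smul, LinearMap.mem_ker.mp (K a).2, smul_zero]
    have h4 : ∑ a, g (Sum.inl a) • K a = 0 := by
      apply Subtype.ext
      rw [AddSubmonoidClass.coe_finsetSum, Submodule.coe_zero, ← hg]
      rw [Finset.sum_eq_zero fun i (_ : i ∈ Finset.univ) => show g (Sum.inr i) • u i = 0 by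
        rw [h2 i, zero_smul], add_zero]
      rfl
    have h5 := Fintype.linearIndependent_iff.mp K.linearIndependent _ h4
    rintro (a | i)
    · exact h5 a
    · exact h2 i
  have h6 : ⊤ ≤ Submodule.span (ZMod 3) (Set.range F) := by
    intro x _
    obtain ⟨g, hg⟩ := hsp x
    have h7 : x - ∑ i, g i • u i ∈ LinearMap.ker Λ := by
      rw [LinearMap.mem_ker, map_sub, map_sum, hg, sub_eq_zero]
      exact Finset.sum_congr rfl fun i _ => by rw [map_smul]
    have h8 : x - ∑ i, g i • u i = ∑ a, K.repr ⟨_, h7⟩ a • ((K a : LinearMap.ker Λ) : S) := by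
      have h9 := congrArg (fun z : LinearMap.ker Λ => (z : S)) (K.sum_repr ⟨_, h7⟩)
      simp only [AddSubmonoidClass.coe_finsetSum] at h9
      exact h9.symm
    have h10 : x = ∑ a, K.repr ⟨_, h7⟩ a • ((K a : LinearMap.ker Λ) : S) + ∑ i, g i • u i := by
      rw [← h8, sub_add_cancel]
    rw [h10]
    refine add_mem (sum_mem fun a _ => Submodule.smul_mem _ _ ?_)
      (sum_mem fun i _ => Submodule.smul_mem _ _ ?_)
    · exact Submodule.subset_span ⟨Sum.inl a, rfl⟩
    · exact Submodule.subset_span ⟨Sum.inr i, rfl⟩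
  let b := Module.Basis.mk h1 h6
  have hc : Fintype.card (Fin (Module.finrank (ZMod 3) (LinearMap.ker Λ)) ⊕ Fin c) =
      Module.finrank (ZMod 3) S := (Module.finrank_eq_card_basis b).symm
  let e := Fintype.equivFinOfCardEq hc
  refine ⟨e.symm, b.reindex e, fun i => ?_⟩
  rw [Module.Basis.reindex_apply]
  exact congrFun (Module.Basis.coe_mk h1 h6) _

theorem pair_or : ∀ p q : ZMod 3 × ZMod 3, p ≠ 0 →
    (∃ t : ZMod 3, q = t • p) ∨ ∀ w : ZMod 3 × ZMod 3, ∃ s t : ZMod 3, w = s • p + t • q := by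
  rintro ⟨a, b⟩ ⟨c, d⟩ hp
  have hF : Fact (Nat.Prime 3) := ⟨Nat.prime_three⟩
  by_cases hd : a * d - b * c = 0
  · left
    by_cases ha : a = 0
    · subst ha
      have hb : b ≠ 0 := by
        rintro rfl
        exact hp rfl
      have hc : c = 0 := by
        have : b * c = 0 := by linear_combination -hd
        exact (mul_eq_zero.mp this).resolve_left hb
      subst hc
      refine ⟨d / b, Prod.ext ?_ ?_⟩
      · simp
      · simp only [Prod.smul_mk, smul_eq_mul]
        field_simp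
    · refine ⟨c / a, Prod.ext ?_ ?_⟩
      · simp only [Prod.smul_mk, smul_eq_mul]
        field_simp
      · simp only [Prod.smul_mk, smul_eq_mul]
        field_simp
        linear_combination hd
  · right
    have hd' : a * d - b * c ≠ 0 := hd
    rintro ⟨x, y⟩
    refine ⟨(x * d - y * c) / (a * d - b * c), (a * y - b * x) / (a * d - b * c),
      Prod.ext ?_ ?_⟩
    · simp only [Prod.smul_mk, Prod.mk_add_mk, smul_eq_mul]
      rw [div_mul_eq_mul_div, div_mul_eq_mul_div, ← add_div, eq_div_iff hd']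
      ring
    · simp only [Prod.smul_mk, Prod.mk_add_mk, smul_eq_mul]
      rw [div_mul_eq_mul_div, div_mul_eq_mul_div, ← add_div, eq_div_iff hd']
      ring

theorem dec_one : ((1 : ℕ) : ZMod 3) ≠ 0 := by decide

theorem dec_two : ((2 : ℕ) : ZMod 3) ≠ 0 := by decide

theorem dec_a : ∀ a : ZMod 3, a = 2 * a * ((2 : ℕ) : ZMod 3) := by decide

theorem dec_b : ∀ a b : ZMod 3, a + b = 0 → a = 2 * b := by decide

/-- The properties of an adapted basis. -/
structure Adp {M : Type} [AddCommGroup M] [Module (ZMod 3) M]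
    (Λ : M →ₗ[ZMod 3] (ZMod 3 × ZMod 3)) (w : ZMod 3 × ZMod 3) {s : ℕ} (τ : Fin s → Fin 3)
    (b : Fin s → M) : Prop where
  a0 : ∀ i, τ i = 0 → Λ (b i) = 0
  a1 : ∀ i, τ i = 1 → Λ (b i) = w
  a2 : ∀ i, τ i = 2 → Λ (b i) ≠ 0 ∧ ¬ ∃ t : ZMod 3, Λ (b i) = t • w
  inj : ∀ i j, τ i = τ j → τ i ≠ 0 → i = j
  one : ∀ i j, i ≠ j → (Λ (b i)).1 = 0 ∨ (Λ (b j)).1 = 0

theorem adapted_aux {S : Type} [AddCommGroup S] [Module (ZMod 3) S] [Module.Finite (ZMod 3) S]
    (Λ : S →ₗ[ZMod 3] (ZMod 3 × ZMod 3)) (w : ZMod 3 × ZMod 3) {c : ℕ} (u : Fin c → S)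
    (τ : Fin c → Fin 3) (ht : ∀ i, τ i ≠ 0) (hA : Adp Λ w τ u)
    (hli : ∀ g : Fin c → ZMod 3, ∑ i, g i • Λ (u i) = 0 → ∀ i, g i = 0)
    (hsp : ∀ x, ∃ g : Fin c → ZMod 3, Λ x = ∑ i, g i • Λ (u i)) :
    ∃ (τ : Fin (Module.finrank (ZMod 3) S) → Fin 3)
      (b : Module.Basis (Fin (Module.finrank (ZMod 3) S)) (ZMod 3) S), Adp Λ w τ b := by
  obtain ⟨e, b, hb⟩ := glue Λ u hli hsp
  have hl : ∀ i a, e i = Sum.inl a → Λ (b i) = 0 := by
    intro i a hi
    rw [hb, hi, Sum.elim_inl]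
    exact LinearMap.mem_ker.mp (Subtype.prop _)
  have hr : ∀ i j, e i = Sum.inr j → Λ (b i) = Λ (u j) := by
    intro i j hi
    rw [hb, hi, Sum.elim_inr]
  refine ⟨fun i => Sum.elim (fun _ => 0) τ (e i), b, ?_, ?_, ?_, ?_, ?_⟩
  · intro i hi
    rcases hei : e i with a | j
    · exact hl i a hei
    · simp only [hei, Sum.elim_inr] at hi
      exact absurd hi (ht j)
  · intro i hi
    rcases hei : e i with a | j
    · simp only [hei, Sum.elim_inl] at hi
      exact absurd hi (by decide)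
    · simp only [hei, Sum.elim_inr] at hi
      rw [hr i j hei]
      exact hA.a1 j hi
  · intro i hi
    rcases hei : e i with a | j
    · simp only [hei, Sum.elim_inl] at hi
      exact absurd hi (by decide)
    · simp only [hei, Sum.elim_inr] at hi
      rw [hr i j hei]
      exact hA.a2 j hi
  · intro i i' hii hi
    rcases hei : e i with a | j
    · simp only [hei, Sum.elim_inl] at hi
      exact absurd rfl hi
    · rcases hei' : e i' with a' | j'
      · simp only [hei, hei', Sum.elim_inl, Sum.elim_inr] at hii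
        exact absurd hii (ht j)
      · simp only [hei, hei', Sum.elim_inr] at hii
        have := hA.inj j j' hii (ht j)
        apply e.injective
        rw [hei, hei', this]
  · intro i i' hii
    rcases hei : e i with a | j
    · left
      rw [hl i a hei]
      rfl
    · rcases hei' : e i' with a' | j'
      · right
        rw [hl i' a' hei']
        rfl
      · rw [hr i j hei, hr i' j' hei']
        apply hA.one
        rintro rfl
        apply hii
        apply e.injective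
        rw [hei, hei']

/-- A basis of a space with two linear forms, adapted to a vector `w`. -/
theorem adapted {S : Type} [AddCommGroup S] [Module (ZMod 3) S] [Module.Finite (ZMod 3) S]
    (Λ : S →ₗ[ZMod 3] (ZMod 3 × ZMod 3)) (w : ZMod 3 × ZMod 3) (hw : w.1 ≠ 0) :
    ∃ (τ : Fin (Module.finrank (ZMod 3) S) → Fin 3)
      (b : Module.Basis (Fin (Module.finrank (ZMod 3) S)) (ZMod 3) S), Adp Λ w τ b := by
  have hF : Fact (Nat.Prime 3) := ⟨Nat.prime_three⟩
  have hw0 : w ≠ 0 := by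
    rintro rfl
    exact hw rfl
  by_cases h0 : ∀ x, Λ x = 0
  · -- all types are `0`
    refine adapted_aux Λ w (c := 0) (fun i => i.elim0) (fun i => i.elim0) (fun i => i.elim0)
      ⟨fun i => i.elim0, fun i => i.elim0, fun i => i.elim0, fun i => i.elim0, fun i => i.elim0⟩
      (fun g _ i => i.elim0) (fun x => ⟨fun i => i.elim0, ?_⟩)
    rw [h0 x]
    simp
  push Not at h0
  obtain ⟨x₀, hx₀⟩ := h0
  by_cases h1 : ∃ u₁, Λ u₁ = w
  · obtain ⟨u₁, hu₁⟩ := h1
    by_cases h2 : ∀ x, ∃ t : ZMod 3, Λ x = t • w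
    · refine adapted_aux Λ w (c := 1) (fun _ => u₁) (fun _ => 1) (fun _ => by decide)
        ⟨fun i hi => absurd hi (by decide), fun _ _ => hu₁, fun i hi => absurd hi (by decide),
          fun i j _ _ => Subsingleton.elim i j, fun i j hij => absurd (Subsingleton.elim i j) hij⟩
        (fun g hg i => ?_) (fun x => ?_)
      · rw [Fin.sum_univ_one, hu₁] at hg
        have h3 : g 0 * w.1 = 0 := congrArg Prod.fst hg
        rw [Subsingleton.elim i 0]
        exact (mul_eq_zero.mp h3).resolve_right hw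
      · obtain ⟨t, ht⟩ := h2 x
        refine ⟨fun _ => t, ?_⟩
        rw [Fin.sum_univ_one, hu₁, ht]
    · push Not at h2
      obtain ⟨x, hx⟩ := h2
      obtain ⟨u₂, hu₂⟩ : ∃ u₂, Λ u₂ = (0, 1) := by
        rcases pair_or w (Λ x) hw0 with ⟨t, ht⟩ | h3
        · exact absurd ht (hx t)
        · obtain ⟨s, t, hst⟩ := h3 (0, 1)
          refine ⟨s • u₁ + t • x, ?_⟩
          rw [map_add, map_smul, map_smul, hu₁, ← hst]
      have hv : ∀ i : Fin 2, Λ ((![u₁, u₂] : Fin 2 → S) i) = (![w, (0, 1)] : Fin 2 → _) i := by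
        intro i
        fin_cases i
        · exact hu₁
        · exact hu₂
      refine adapted_aux Λ w (c := 2) ![u₁, u₂] ![1, 2] (fun i => ?_)
        ⟨fun i hi => ?_, fun i hi => ?_, fun i hi => ?_, fun i j hij _ => ?_, fun i j hij => ?_⟩
        (fun g hg => ?_) (fun y => ?_)
      · fin_cases i <;> decide
      · fin_cases i
        · exact absurd hi (by decide)
        · exact absurd hi (by decide)
      · fin_cases i
        · exact hu₁
        · exact absurd hi (by decide)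
      · fin_cases i
        · exact absurd hi (by decide)
        · change Λ u₂ ≠ 0 ∧ ¬ ∃ t : ZMod 3, Λ u₂ = t • w
          rw [hu₂]
          refine ⟨fun h3 => one_ne_zero (congrArg Prod.snd h3), ?_⟩
          rintro ⟨t, ht⟩
          have h4 : (0 : ZMod 3) = t * w.1 := congrArg Prod.fst ht
          have h5 : (1 : ZMod 3) = t * w.2 := congrArg Prod.snd ht
          have h6 : t = 0 := (mul_eq_zero.mp h4.symm).resolve_right hw
          rw [h6, zero_mul] at h5
          exact one_ne_zero h5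
      · fin_cases i <;> fin_cases j
        · rfl
        · exact absurd hij (by decide)
        · exact absurd hij (by decide)
        · rfl
      · fin_cases i <;> fin_cases j
        · exact absurd rfl hij
        · right
          change (Λ u₂).1 = 0
          rw [hu₂]
        · left
          change (Λ u₂).1 = 0
          rw [hu₂]
        · exact absurd rfl hij
      · rw [Fin.sum_univ_two] at hg
        change g 0 • Λ u₁ + g 1 • Λ u₂ = 0 at hg
        rw [hu₁, hu₂] at hg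
        have h3 : g 0 * w.1 + g 1 * 0 = 0 := congrArg Prod.fst hg
        have h4 : g 0 * w.2 + g 1 * 1 = 0 := congrArg Prod.snd hg
        have h5 : g 0 = 0 := by
          rw [mul_zero, add_zero] at h3
          exact (mul_eq_zero.mp h3).resolve_right hw
        rw [h5, zero_mul, zero_add, mul_one] at h4
        intro i
        fin_cases i
        · exact h5
        · exact h4
      · have h3 : ¬ ∃ t : ZMod 3, ((0, 1) : ZMod 3 × ZMod 3) = t • w := by
          rintro ⟨t, ht⟩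
          have h4 : (0 : ZMod 3) = t * w.1 := congrArg Prod.fst ht
          have h5 : (1 : ZMod 3) = t * w.2 := congrArg Prod.snd ht
          have h6 : t = 0 := (mul_eq_zero.mp h4.symm).resolve_right hw
          rw [h6, zero_mul] at h5
          exact one_ne_zero h5
        obtain ⟨s, t, hst⟩ := ((pair_or w (0, 1) hw0).resolve_left h3) (Λ y)
        refine ⟨![s, t], ?_⟩
        rw [Fin.sum_univ_two]
        change Λ y = s • Λ u₁ + t • Λ u₂
        rw [hu₁, hu₂, hst]
  · -- one vector of type `2`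
    have h2 : ∀ x, ∃ t : ZMod 3, Λ x = t • Λ x₀ := by
      intro x
      rcases pair_or (Λ x₀) (Λ x) hx₀ with h3 | h3
      · exact h3
      · obtain ⟨s, t, hst⟩ := h3 w
        exact absurd ⟨s • x₀ + t • x, by rw [map_add, map_smul, map_smul, hst]⟩ h1
    refine adapted_aux Λ w (c := 1) (fun _ => x₀) (fun _ => 2) (fun _ => by decide)
      ⟨fun i hi => absurd hi (by decide), fun i hi => absurd hi (by decide), fun _ _ => ⟨hx₀, ?_⟩,
        fun i j _ _ => Subsingleton.elim i j, fun i j hij => absurd (Subsingleton.elim i j) hij⟩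
      (fun g hg i => ?_) (fun x => ?_)
    · rintro ⟨t, ht⟩
      have ht0 : t ≠ 0 := by
        rintro rfl
        rw [zero_smul] at ht
        exact hx₀ ht
      apply h1
      refine ⟨t⁻¹ • x₀, ?_⟩
      rw [map_smul, ht, smul_smul, inv_mul_cancel₀ ht0, one_smul]
    · rw [Fin.sum_univ_one] at hg
      rw [Subsingleton.elim i 0]
      exact (smul_eq_zero.mp hg).resolve_right hx₀
    · obtain ⟨t, ht⟩ := h2 x
      refine ⟨fun _ => t, ?_⟩
      rw [Fin.sum_univ_one, ht]

/-! ### Exponent vectors -/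

/-- Exponent vectors modulo `3`, with the exponent of `3`. -/
abbrev EVT (m k : ℕ) : Type := ZMod 3 × EV m k

/-- The conditions at the split primes. -/
noncomputable def LmT (h n : ℕ) {m k : ℕ} (π : Fin m → PP) (p e : Fin m → ℕ) (r : Fin k → ℕ)
    (c : Fin m → ZMod 3) : EVT m k →ₗ[ZMod 3] (Fin m → ZMod 3) where
  toFun v i := (e i : ZMod 3) * (v.1 * sym (π i).1 3) + Lm (3 ^ h * n) π p e r c v.2 i
  map_add' := by
    intro v v'
    funext i
    simp only [Prod.fst_add, Prod.snd_add, map_add, Pi.add_apply]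
    ring
  map_smul' := by
    intro t v
    funext i
    simp only [Prod.smul_fst, Prod.smul_snd, map_smul, Pi.smul_apply, smul_eq_mul,
      RingHom.id_apply]
    ring

/-- The condition at `lam`, `h = 2`. -/
noncomputable def WmT (n : ℕ) {m k : ℕ} (p : Fin m → ℕ) (r : Fin k → ℕ) (w0 : ZMod 3) :
    EVT m k →ₗ[ZMod 3] ZMod 3 where
  toFun v := Wm p r v.2 + v.1 * (wt ((n : ℤ) ^ 2) + w0)
  map_add' := by
    intro v v'
    simp only [Prod.fst_add, Prod.snd_add, map_add]
    ring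
  map_smul' := by
    intro t v
    simp only [Prod.smul_fst, Prod.smul_snd, map_smul, smul_eq_mul, RingHom.id_apply]
    ring

/-- The pair `(lv, lw)` in terms of exponents. -/
noncomputable def LaT {m k : ℕ} (p : Fin m → ℕ) (r : Fin k → ℕ) :
    EVT m k →ₗ[ZMod 3] (ZMod 3 × ZMod 3) where
  toFun v := (v.1, Wm p r v.2)
  map_add' := by
    intro v v'
    simp only [Prod.fst_add, Prod.snd_add, map_add, Prod.mk_add_mk]
  map_smul' := by
    intro t v
    simp only [Prod.smul_fst, Prod.smul_snd, map_smul, RingHom.id_apply, Prod.smul_mk]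

theorem sum_zero {m k : ℕ} (π : Fin m → PP) (r : Fin k → ℕ) (i : Fin m) :
    ∑ j, (0 : Fin k → ZMod 3) j * sym (π i).1 (r j : Eis) = 0 :=
  Finset.sum_eq_zero fun j _ => by rw [Pi.zero_apply, zero_mul]

theorem rowT (h n : ℕ) {m k : ℕ} (π : Fin m → PP) (p e : Fin m → ℕ) (r : Fin k → ℕ)
    (w0 : ZMod 3) (c : Fin m → ZMod 3) (u : Fin (m + 1) → ZMod 3) (i : Fin m) :
    LmT h n π p e r c (u 0, ((fun i => u i.succ), (0 : Fin k → ZMod 3))) i =
      ∑ b, Mt h n π p e w0 c i.succ b * u b := by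
  change (e i : ZMod 3) * (u 0 * sym (π i).1 3) +
    Lm (3 ^ h * n) π p e r c ((fun i => u i.succ), (0 : Fin k → ZMod 3)) i = _
  rw [row, Fin.sum_univ_succ]
  have h1 : ∑ j, (((fun i : Fin m => u i.succ), (0 : Fin k → ZMod 3)) : EV m k).2 j *
      sym (π i).1 (r j : Eis) = 0 := sum_zero π r i
  rw [h1, mul_zero, add_zero]
  have h2 : Mt h n π p e w0 c i.succ 0 = (e i : ZMod 3) * sym (π i).1 3 := rfl
  rw [h2]
  have h3 : (e i : ZMod 3) * (u 0 * sym (π i).1 3) = (e i : ZMod 3) * sym (π i).1 3 * u 0 := by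
    ring
  rw [h3]
  rfl

theorem surj_one (n : ℕ) {m k : ℕ} (π : Fin m → PP) (p e : Fin m → ℕ) (r : Fin k → ℕ)
    (w0 : ZMod 3) (c : Fin m → ZMod 3) (hdet : (Mt 1 n π p e w0 c).det ≠ 0) :
    Function.Surjective (LmT 1 n π p e r c : EVT m k →ₗ[ZMod 3] (Fin m → ZMod 3)) := by
  intro v
  obtain ⟨u, hu⟩ := solve _ hdet (Fin.cons 0 v)
  refine ⟨(u 0, ((fun i => u i.succ), 0)), ?_⟩
  funext i
  rw [rowT 1 n π p e r w0 c u i, hu i.succ, Fin.cons_succ]

theorem surj_two (n : ℕ) {m k : ℕ} (π : Fin m → PP) (p e : Fin m → ℕ) (r : Fin k → ℕ)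
    (w0 : ZMod 3) (c : Fin m → ZMod 3) (hdet : (Mt 2 n π p e w0 c).det ≠ 0) :
    Function.Surjective ((WmT n p r w0).prod (LmT 2 n π p e r c) :
      EVT m k →ₗ[ZMod 3] (ZMod 3 × (Fin m → ZMod 3))) := by
  rintro ⟨t, v⟩
  obtain ⟨u, hu⟩ := solve _ hdet (Fin.cons t v)
  refine ⟨(u 0, ((fun i => u i.succ), 0)), Prod.ext ?_ ?_⟩
  · have h1 := hu 0
    rw [Fin.sum_univ_succ, Fin.cons_zero] at h1
    change ((∑ i, u (Fin.succ i) * wt ((p i : ℤ) ^ 2)) +
      ∑ j, (0 : Fin k → ZMod 3) j * wt ((r j : ℤ) ^ 2)) + u 0 * (wt ((n : ℤ) ^ 2) + w0) = t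
    rw [Finset.sum_eq_zero fun j (_ : j ∈ (Finset.univ : Finset (Fin k))) =>
      show (0 : Fin k → ZMod 3) j * wt ((r j : ℤ) ^ 2) = 0 by rw [Pi.zero_apply, zero_mul],
      add_zero, ← h1]
    have h2 : Mt 2 n π p e w0 c 0 0 = wt ((n : ℤ) ^ 2) + w0 := by
      change (if 2 = 2 then wt ((n : ℤ) ^ 2) + w0 else 1) = _
      rw [if_pos rfl]
    have h3 : ∀ i : Fin m, Mt 2 n π p e w0 c 0 i.succ = wt ((p i : ℤ) ^ 2) := by
      intro i
      change (if 2 = 2 then wt ((p i : ℤ) ^ 2) else 0) = _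
      rw [if_pos rfl]
    rw [h2, add_comm]
    congr 1
    · exact mul_comm _ _
    · exact Finset.sum_congr rfl fun i _ => by rw [h3 i, mul_comm]
  · change LmT 2 n π p e r c (u 0, ((fun i => u i.succ), 0)) = v
    funext i
    rw [rowT 2 n π p e r w0 c u i, hu i.succ, Fin.cons_succ]

/-- The space of admissible exponent vectors. -/
theorem exists_spaceT (h n : ℕ) {m k : ℕ} (π : Fin m → PP) (p e : Fin m → ℕ) (r : Fin k → ℕ)
    (w0 : ZMod 3) (c : Fin m → ZMod 3) (h12 : h = 1 ∨ h = 2)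
    (hdet : (Mt h n π p e w0 c).det ≠ 0) :
    ∃ S : Submodule (ZMod 3) (EVT m k), Module.finrank (ZMod 3) S + h = k + 2 ∧
      ∀ v : EVT m k, v ∈ S ↔ (∀ i, LmT h n π p e r c v i = 0) ∧ (h = 2 → WmT n p r w0 v = 0) := by
  rcases h12 with rfl | rfl
  · refine ⟨LinearMap.ker (LmT 1 n π p e r c), ?_, fun v => ?_⟩
    · have h1 := LinearMap.finrank_range_add_finrank_ker
        (LmT 1 n π p e r c : EVT m k →ₗ[ZMod 3] (Fin m → ZMod 3))
      rw [LinearMap.range_eq_top.mpr (surj_one n π p e r w0 c hdet), finrank_top] at h1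
      simp only [Module.finrank_prod, Module.finrank_fintype_fun_eq_card, Fintype.card_fin,
        Module.finrank_self] at h1
      omega
    · rw [LinearMap.mem_ker, funext_iff]
      exact ⟨fun h3 => ⟨h3, fun h4 => absurd h4 (by decide)⟩, fun h3 => h3.1⟩
  · refine ⟨LinearMap.ker ((WmT n p r w0).prod (LmT 2 n π p e r c)), ?_, fun v => ?_⟩
    · have h1 := LinearMap.finrank_range_add_finrank_ker
        ((WmT n p r w0).prod (LmT 2 n π p e r c) :
          EVT m k →ₗ[ZMod 3] (ZMod 3 × (Fin m → ZMod 3)))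
      rw [LinearMap.range_eq_top.mpr (surj_two n π p e r w0 c hdet), finrank_top] at h1
      simp only [Module.finrank_prod, Module.finrank_fintype_fun_eq_card, Fintype.card_fin,
        Module.finrank_self] at h1
      omega
    · rw [LinearMap.mem_ker]
      change (WmT n p r w0 v, LmT 2 n π p e r c v) = 0 ↔ _
      rw [Prod.mk_eq_zero, funext_iff]
      exact ⟨fun h3 => ⟨h3.2, fun _ => h3.1⟩, fun h3 => ⟨h3.2 rfl, h3.1⟩⟩

/-! ### From exponent vectors to integers -/

/-- The number with given exponents. -/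
noncomputable def toT {m k : ℕ} (p : Fin m → ℕ) (r : Fin k → ℕ) (v : EVT m k) : ℤ :=
  ((3 ^ v.1.val * toN p r v.2 : ℕ) : ℤ)

/-- The exponent vector of an integer. -/
noncomputable def evT {m k : ℕ} (p : Fin m → ℕ) (r : Fin k → ℕ) (x : ℤ) : EVT m k :=
  (lv x, ev p r x)

section

variable {h n m k : ℕ} {π : Fin m → PP} {p e : Fin m → ℕ} {r f : Fin k → ℕ}

theorem toT_ne (hN : NF n π p e r f) (v : EVT m k) : toT p r v ≠ 0 := by
  have h1 : (3 ^ v.1.val * toN p r v.2 : ℕ) ≠ 0 :=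
    mul_ne_zero (pow_ne_zero _ (by norm_num)) (toN_ne hN v.2)
  rw [toT]
  exact_mod_cast h1

theorem padic_toT (hN : NF n π p e r f) (v : EVT m k) (l : ℕ) (hl : l.Prime) :
    padicValInt l (toT p r v) =
      (if l = 3 then v.1.val else 0) + padicValNat l (toN p r v.2) := by
  have hl' : Fact l.Prime := ⟨hl⟩
  have h3 : Fact (Nat.Prime 3) := ⟨Nat.prime_three⟩
  rw [toT, padicValInt.of_nat, padicValNat.mul (pow_ne_zero _ (by norm_num)) (toN_ne hN v.2),
    padicValNat.pow _ _]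
  congr 1
  split_ifs with h1
  · subst h1
    rw [padicValNat_self, mul_one]
  · rw [padicValNat_primes h1, mul_zero]

theorem three_toN' (hN : NF n π p e r f) (v : EV m k) : padicValNat 3 (toN p r v) = 0 := by
  apply padicValNat.eq_zero_of_not_dvd
  intro hd
  exact three_toN hN v (by exact_mod_cast hd)

theorem p_ne (hN : NF n π p e r f) (i : Fin m) : p i ≠ 3 := by
  intro h1
  have := hN.p1 i
  rw [h1] at this
  omega

theorem r_ne (hN : NF n π p e r f) (j : Fin k) : r j ≠ 3 := by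
  intro h1
  have := hN.r2 j
  rw [h1] at this
  omega

theorem evT_toT (hN : NF n π p e r f) (v : EVT m k) : evT p r (toT p r v) = v := by
  refine Prod.ext ?_ (Prod.ext ?_ ?_)
  · change ((padicValInt 3 (toT p r v) : ℕ) : ZMod 3) = v.1
    rw [padic_toT hN v 3 Nat.prime_three, if_pos rfl, three_toN' hN, add_zero,
      ZMod.natCast_zmod_val]
  · funext i
    change ((padicValInt (p i) (toT p r v) : ℕ) : ZMod 3) = v.2.1 i
    rw [padic_toT hN v _ (hN.pp i), if_neg (p_ne hN i), zero_add, val_p hN,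
      ZMod.natCast_zmod_val]
  · funext j
    change ((padicValInt (r j) (toT p r v) : ℕ) : ZMod 3) = v.2.2 j
    rw [padic_toT hN v _ (hN.rp j), if_neg (r_ne hN j), zero_add, val_r hN,
      ZMod.natCast_zmod_val]

theorem padic_toT_le (hN : NF n π p e r f) (v : EVT m k) (l : ℕ) (hl : l.Prime) :
    padicValInt l (toT p r v) ≤ 2 := by
  rw [padic_toT hN v l hl]
  split_ifs with h1
  · subst h1
    rw [three_toN' hN, add_zero]
    exact zval_le _
  · rw [zero_add]
    exact val_le hN _ l hl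

theorem V_toT_le (hSPP : SPP) (hN : NF n π p e r f) (v : EVT m k) (π' : PP) :
    V π'.1 (toT p r v : Eis) ≤ 2 := by
  obtain ⟨l, hl, hle⟩ := V_le hSPP π' (toT_ne hN v)
  exact hle.trans (padic_toT_le hN v l hl)

theorem supp_toT (hN : NF n π p e r f) (v : EVT m k) (l : ℕ) (hl : l.Prime)
    (hd : (l : ℤ) ∣ toT p r v) : l ∣ 3 * n := by
  rw [toT] at hd
  have h1 : l ∣ 3 ^ v.1.val * toN p r v.2 := Int.natCast_dvd_natCast.mp hd
  rcases hl.dvd_mul.mp h1 with h2 | h2
  · have h3 := hl.dvd_of_dvd_pow h2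
    exact Dvd.dvd.mul_right h3 _
  · exact Dvd.dvd.mul_left (supp_toN hN v.2 l hl (Int.natCast_dvd_natCast.mpr h2)) _

theorem three_toT (hN : NF n π p e r f) (v : EVT m k) (hv : v.1 = 0) :
    ¬ (3 : ℤ) ∣ toT p r v := by
  have h1 : toT p r v = (toN p r v.2 : ℤ) := by
    rw [toT, hv]
    simp
  rw [h1]
  exact three_toN hN v.2

theorem evT_prod (hN : NF n π p e r f) {s : ℕ} (x : Fin s → ℤ) (hx : ∀ i, x i ≠ 0)
    (g : Fin s → ℕ) : evT p r (∏ i, x i ^ g i) = ∑ i, (g i : ZMod 3) • evT p r (x i) := by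
  refine Prod.ext ?_ ?_
  · rw [Prod.fst_sum]
    change ((padicValInt 3 (∏ i, x i ^ g i) : ℕ) : ZMod 3) =
      ∑ i, (g i : ZMod 3) * (padicValInt 3 (x i) : ZMod 3)
    rw [padicInt_prod 3 Nat.prime_three _ _ fun i => pow_ne_zero _ (hx i), Nat.cast_sum]
    refine Finset.sum_congr rfl fun i _ => ?_
    rw [padicInt_pow 3 Nat.prime_three (hx i), Nat.cast_mul]
  · rw [Prod.snd_sum]
    exact ev_prod hN x hx g

theorem evT_cube (hN : NF n π p e r f) (t : ℤ) (ht : t ≠ 0) : evT p r (t ^ 3) = 0 := by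
  have h3 : ((3 : ℕ) : ZMod 3) = 0 := ZMod.natCast_self 3
  refine Prod.ext ?_ (ev_cube hN t ht)
  change ((padicValInt 3 (t ^ 3) : ℕ) : ZMod 3) = 0
  rw [padicInt_pow _ Nat.prime_three ht, Nat.cast_mul, h3, zero_mul]

/-- Admissible classes in terms of exponent vectors. -/
theorem adC_iff (hEVET : EVET) (hN : NF n π p e r f) (w0 : ZMod 3) (c : Fin m → ZMod 3)
    (S : Submodule (ZMod 3) (EVT m k))
    (hS : ∀ v : EVT m k, v ∈ S ↔
      (∀ i, LmT h n π p e r c v i = 0) ∧ (h = 2 → WmT n p r w0 v = 0))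
    (x : ℤ) (h1 : x ≠ 0) (h2 : ∀ l : ℕ, l.Prime → (l : ℤ) ∣ x → l ∣ 3 * n) :
    AdC h n π w0 c x ↔ evT p r x ∈ S := by
  obtain ⟨hE1, -⟩ := hEVET h n m k π p e r f w0 c hN
  rw [(hE1 x h1 h2).1, hS]
  refine and_congr (forall_congr' fun i => ?_) (forall_congr' fun _ => ?_)
  · change _ ↔ (e i : ZMod 3) * (lv x * sym (π i).1 3) +
      ((e i : ZMod 3) * (∑ i', (padicValInt (p i') x : ZMod 3) *
          (if i' = i then sym (π i).1 (conj (π i).1) else sym (π i).1 (p i' : Eis))) +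
        (e i : ZMod 3) * (∑ j, (padicValInt (r j) x : ZMod 3) * sym (π i).1 (r j : Eis)) -
        (padicValInt (p i) x : ZMod 3) * (ch (π i).1 ((3 ^ h * n : ℕ) : Eis) + c i)) = 0
    rw [← add_sub_assoc, ← add_assoc]
  · exact Iff.rfl

theorem lw_toT (hEVET : EVET) (hN : NF n π p e r f) (h : ℕ) (w0 : ZMod 3) (c : Fin m → ZMod 3)
    (v : EVT m k) : lw (toT p r v) = Wm p r v.2 := by
  obtain ⟨hE1, -⟩ := hEVET h n m k π p e r f w0 c hN
  rw [(hE1 _ (toT_ne hN v) (supp_toT hN v)).2]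
  change Wm p r (evT p r (toT p r v)).2 = _
  rw [evT_toT hN]

theorem lv_toT (hN : NF n π p e r f) (v : EVT m k) : lv (toT p r v) = v.1 :=
  congrArg Prod.fst (evT_toT hN v)

/-- The adapted basis of a space of exponent vectors. -/
theorem core (hEVET : EVET) (hLPT : LPT) (hLCL : LCL) (hN : NF n π p e r f)
    (h12 : h = 1 ∨ h = 2) (w0 : ZMod 3) (c : Fin m → ZMod 3)
    (T : Submodule (ZMod 3) (EVT m k)) (hT : h = 2 → ∀ v ∈ T, WmT n p r w0 v = 0) :
    ∃ (τ : Fin (Module.finrank (ZMod 3) T) → Fin 3)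
      (u : Module.Basis (Fin (Module.finrank (ZMod 3) T)) (ZMod 3) T)
      (X Y : Fin (Module.finrank (ZMod 3) T) → ℤ),
      (∀ i j, i ≠ j → (u i : EVT m k).1 = 0 ∨ (u j : EVT m k).1 = 0) ∧
      ∀ B : ℤ, TyB h n w0 B → LamS B τ (fun i => toT p r (u i : EVT m k)) X Y := by
  have hF : Fact (Nat.Prime 3) := ⟨Nat.prime_three⟩
  set β : ZMod 3 := wt ((n : ℤ) ^ 2) + w0 with hβ
  have hh : (h : ZMod 3) ≠ 0 := by
    rcases h12 with rfl | rfl
    · exact dec_one
    · exact dec_two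
  obtain ⟨τ, u, hA⟩ := adapted ((LaT p r).comp T.subtype) ((h : ZMod 3), β) hh
  have hLa : ∀ i, ((LaT p r).comp T.subtype) (u i) =
      (lv (toT p r (u i : EVT m k)), lw (toT p r (u i : EVT m k))) := by
    intro i
    rw [lv_toT hN, lw_toT hEVET hN h w0 c]
    rfl
  have hLC : ∀ i, LC lam (toT p r (u i : EVT m k)) ↔
      lv (toT p r (u i : EVT m k)) = 0 ∧ lw (toT p r (u i : EVT m k)) = 0 := fun i =>
    hLCL.1 _ (toT_ne hN _)
  have hXY : ∀ i, ∃ X Y : ℤ, (τ i = 1 → X = 1 ∧ Y = 0) ∧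
      (τ i = 2 → X ≠ 0 ∧ Y ≠ 0 ∧ X ^ 3 + toT p r (u i : EVT m k) * Y ^ 3 ≠ 0 ∧
        lv (toT p r (u i : EVT m k) * (X ^ 3 + toT p r (u i : EVT m k) * Y ^ 3)) = 1 ∧
        lw (toT p r (u i : EVT m k) * (X ^ 3 + toT p r (u i : EVT m k) * Y ^ 3)) = β) := by
    intro i
    by_cases h2 : τ i = 2
    · have h3 : ¬ (lv (toT p r (u i : EVT m k)) = 0 ∧ lw (toT p r (u i : EVT m k)) = 0) := by
        rintro ⟨h4, h5⟩
        apply (hA.a2 i h2).1
        rw [hLa i, h4, h5]
        rfl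
      obtain ⟨X, Y, hXY⟩ := hLPT _ β (toT_ne hN (u i : EVT m k)) h3
      refine ⟨X, Y, fun h4 => ?_, fun _ => hXY⟩
      rw [h2] at h4
      exact absurd h4 (by decide)
    · exact ⟨1, 0, fun _ => ⟨rfl, rfl⟩, fun h3 => absurd h3 h2⟩
  choose X Y hX1 hX2 using hXY
  refine ⟨τ, u, X, Y, hA.one, fun B hB => ⟨fun i hi => ?_, fun i hi => ?_, fun i hi => ?_,
    hA.inj⟩⟩
  · have h1 := hA.a0 i hi
    rw [hLa i, Prod.mk_eq_zero] at h1
    exact (hLC i).mpr h1
  · have h1 := hA.a1 i hi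
    rw [hLa i, Prod.mk.injEq] at h1
    obtain ⟨-, hB1, hB2⟩ := hB
    refine ⟨fun h2 => ?_, ?_, ?_, (hX1 i hi).1, (hX1 i hi).2⟩
    · have h3 := ((hLC i).mp h2).1
      rw [h1.1] at h3
      exact hh h3
    · rw [hB1]
      exact h1.1
    · rw [hB2]
      exact h1.2
  · obtain ⟨-, hB1, hB2⟩ := hB
    have h1 := hA.a2 i hi
    have h2 : h ≠ 2 := by
      intro h2
      apply h1.2
      have h3 : Wm p r (u i : EVT m k).2 + (u i : EVT m k).1 * β = 0 := hT h2 _ (u i).2
      refine ⟨2 * (u i : EVT m k).1, Prod.ext ?_ ?_⟩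
      · change (u i : EVT m k).1 = 2 * (u i : EVT m k).1 * (h : ZMod 3)
        rw [h2]
        exact dec_a _
      · change Wm p r (u i : EVT m k).2 = 2 * (u i : EVT m k).1 * β
        rw [mul_assoc]
        exact dec_b _ _ h3
    have h3 : h = 1 := by
      rcases h12 with h3 | h3
      · exact h3
      · exact absurd h3 h2
    have hB1' : lv B = 1 := by
      rw [hB1, h3, Nat.cast_one]
    obtain ⟨hx1, hx2, hx3, hx4, hx5⟩ := hX2 i hi
    refine ⟨fun h4 => ?_, hB1', ⟨hx1, hx2, hx3, ?_, ?_⟩⟩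
    · apply h1.1
      have h5 := (hLC i).mp h4
      rw [hLa i, h5.1, h5.2]
      rfl
    · rw [hB1']
      exact hx4
    · rw [hB2]
      exact hx5

/-- Independence modulo cubes of the numbers of a family of independent exponent vectors. -/
theorem not_cube (hN : NF n π p e r f) {s : ℕ} (v : Fin s → EVT m k)
    (hv : ∀ g : Fin s → ZMod 3, ∑ i, g i • v i = 0 → ∀ i, g i = 0)
    (g : Fin s → ℕ) (hg : ∃ i, ¬ 3 ∣ g i) : ¬ ∃ t : ℤ, t ^ 3 = ∏ i, toT p r (v i) ^ g i := by
  rintro ⟨t, ht⟩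
  have hprod : ∏ i, toT p r (v i) ^ g i ≠ 0 :=
    Finset.prod_ne_zero_iff.mpr fun i _ => pow_ne_zero _ (toT_ne hN _)
  have ht0 : t ≠ 0 := by
    rintro rfl
    apply hprod
    rw [← ht]
    norm_num
  have h1 := evT_prod hN (fun i => toT p r (v i)) (fun i => toT_ne hN _) g
  rw [← ht, evT_cube hN t ht0] at h1
  simp only [evT_toT hN] at h1
  obtain ⟨i, hi⟩ := hg
  exact hi ((ZMod.natCast_eq_zero_iff _ _).mp (hv _ h1.symm i))

/-- A number whose exponent vector is a combination of given ones. -/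
theorem express (hEVET : EVET) (hN : NF n π p e r f) (h : ℕ) (w0 : ZMod 3)
    (c : Fin m → ZMod 3) {s : ℕ} (v : Fin s → EVT m k) (x : ℤ) (hx : x ≠ 0)
    (hxs : ∀ l : ℕ, l.Prime → (l : ℤ) ∣ x → l ∣ 3 * n) (a : Fin s → ZMod 3)
    (hxa : evT p r x = ∑ i, a i • v i) :
    ∃ (g : Fin s → ℕ) (u t : ℤ), u ≠ 0 ∧ t ≠ 0 ∧
      x * u ^ 3 = (∏ i, toT p r (v i) ^ g i) * t ^ 3 := by
  obtain ⟨-, hE2⟩ := hEVET h n m k π p e r f w0 c hN
  refine ⟨fun i => (a i).val, ?_⟩
  rw [hE2 x _ hx (Finset.prod_ne_zero_iff.mpr fun i _ => pow_ne_zero _ (toT_ne hN _)) hxs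
    (fun l hl hd => ?_)]
  · have h1 := evT_prod hN (fun i => toT p r (v i)) (fun i => toT_ne hN _)
      (fun i => (a i).val)
    simp only [evT_toT hN, ZMod.natCast_zmod_val] at h1
    rw [← hxa] at h1
    have h2 : evT p r x = evT p r (∏ i, toT p r (v i) ^ (a i).val) := h1.symm
    exact ⟨congrArg Prod.fst h2,
      fun i => congrFun (congrArg Prod.fst (congrArg Prod.snd h2)) i,
      fun j => congrFun (congrArg Prod.snd (congrArg Prod.snd h2)) j⟩
  · obtain ⟨i, -, hi⟩ := (Nat.prime_iff_prime_int.mp hl).dvd_finsetProd_iff _ |>.mp hd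
    exact supp_toT hN _ l hl ((Nat.prime_iff_prime_int.mp hl).dvd_of_dvd_pow hi)

end

end EBAT

open EBAT in
/-- EBAT: basis of the admissible classes. -/
theorem EBAT_thm (hEVET : EVET) (hSPP : SPP) (hLPT : LPT) (hLCL : LCL) : EBAT := by
  intro h n m k π p e r f w0 c hN h12 hdet
  obtain ⟨S, hfr, hS⟩ := exists_spaceT h n π p e r w0 c h12 hdet
  obtain ⟨τ, u, X, Y, hone, hL⟩ := core hEVET hLPT hLCL hN h12 w0 c S
    (fun h2 v hv => ((hS v).mp hv).2 h2)
  refine ⟨Module.finrank (ZMod 3) S, τ, fun i => toT p r (u i), X, Y, hfr, fun i => ?_,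
    fun i π' => V_toT_le hSPP hN _ π', fun g hg => ?_, fun i j hij => ?_, hL, fun x hx => ?_⟩
  · rw [adC_iff hEVET hN w0 c S hS _ (toT_ne hN _) (supp_toT hN _), evT_toT hN]
    exact (u i).2
  · refine not_cube hN (fun i => (u i : EVT m k)) (fun a ha => ?_) g hg
    apply Fintype.linearIndependent_iff.mp u.linearIndependent a
    apply Subtype.ext
    rw [AddSubmonoidClass.coe_finsetSum]
    exact ha
  · rcases hone i j hij with h2 | h2
    · exact Or.inl (three_toT hN _ h2)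
    · exact Or.inr (three_toT hN _ h2)
  · have hxS : evT p r x ∈ S := (adC_iff hEVET hN w0 c S hS x hx.ne hx.supp).mp hx
    refine express hEVET hN h w0 c (fun i => (u i : EVT m k)) x hx.ne hx.supp
      (fun i => u.repr ⟨evT p r x, hxS⟩ i) ?_
    have h3 := congrArg (fun z : S => (z : EVT m k)) (u.sum_repr ⟨evT p r x, hxS⟩)
    simp only [AddSubmonoidClass.coe_finsetSum] at h3
    exact h3.symm

end Pool.Agent.PT3
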