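import Pool.Agent.PT3.Stmts
import Pool.Agent.PT.ECL

/-!
# PT3: the class and the system, `3` does not divide `n`, `k` even
-/

set_option autoImplicit false

open NumberField IsDedekindDomain Finset
open scoped nonZeroDivisors Pointwise

namespace Pool.Agent.PT3

open Pool.Agent.Lib_helper18 Pool.Agent.Lib_helper18.Eis Pool.Agent.Lib_helper84.Cub
open Pool.Agent.PT Pool.Agent.PTE

namespace ECL0

open Pool.Agent.PT.ECL

/-- the determinant vanishes -/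
lemma point_det0 (hEADM : EADM) (hFD1 : FD1) (hFD2 : FD2) (hTEND : TEND)
    {n m k : ℕ} {π : Fin m → PP} {p e : Fin m → ℕ} {r f : Fin k → ℕ} (hNF : NF n π p e r f)
    {w0 : ZMod 3} {c : Fin m → ZMod 3}
    {s : ℕ} {b : Fin s → ℤ} (hAdm : ∀ i, AdmC n π w0 c (b i))
    (hgen : ∀ x : ℤ, AdmC n π w0 c x → ∃ (g : Fin s → ℕ) (u v : ℤ), u ≠ 0 ∧ v ≠ 0 ∧
      x * u ^ 3 = (∏ i, b i ^ g i) * v ^ 3)
    {P Q P' Q' : Fin s → Fin s → ℤ} (hSys : Sys b P Q P' Q') (q : ℕ) (hq : q.Prime)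
    (hIn : InCl π w0 c q) (hqn : ¬ q ∣ n) (hq3 : 3 < q) (hH : HypM ((n : ℤ) * q)) :
    (∀ i, Adm ((n : ℤ) * q) (b i)) ∧ BOk ((n : ℤ) * q) ∧
      ((∃ X Y : ℚ, X ^ 3 + Y ^ 3 = (n : ℚ) * q) → (Mat b P Q P' Q' ((n : ℤ) * q)).det = 0) := by
  obtain ⟨hB, hE⟩ := hEADM n m k π p e r f w0 c q hNF hq hIn hqn
  have hA : ∀ i, Adm ((n : ℤ) * q) (b i) := fun i => (hE _ (hAdm i).supp).1 (hAdm i)
  refine ⟨hA, hB, ?_⟩
  rintro ⟨X, Y, hXY⟩
  have hn0 : 0 < n := by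
    rcases Nat.eq_zero_or_pos n with h | h
    · exact absurd (by rw [h]; exact dvd_zero q) hqn
    · exact h
  have h3 : 3 ≤ |(n : ℤ) * q| := by
    have h1 : (3 : ℤ) ≤ (n : ℤ) * q := by
      have h2 : 3 ≤ n * q := by nlinarith
      exact_mod_cast h2
    exact h1.trans (le_abs_self _)
  obtain ⟨a, x, hC⟩ := hFD1 ((n : ℤ) * q) hB h3 hH ⟨X, Y, by rw [hXY]; push_cast; ring⟩
  obtain ⟨z, X1, Y1, hPt, hAz, hsupp, hcube⟩ := hFD2 n q a x hq hIn.1 hqn hn0 hB hC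
  obtain ⟨g, u, v, hu, hv, hg⟩ := hgen z ((hE z hsupp).2 hAz)
  set W : ℤ := ∏ i, b i ^ g i with hW
  have hex : ∃ i, ¬ 3 ∣ g i := by
    by_contra hcon
    push Not at hcon
    choose g' hg' using hcon
    apply hcube
    have h1 : z * u ^ 3 = ((∏ i, b i ^ g' i) * v) ^ 3 := by
      rw [hg, hW, mul_pow, ← Finset.prod_pow]
      congr 1
      refine Finset.prod_congr rfl fun i _ => ?_
      rw [← pow_mul, hg' i, mul_comm]
    exact cube_of hu h1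
  have hPt' : Pt ((n : ℤ) * q) (∏ i, b i ^ g i) (u * v * X1) (v ^ 2 * Y1) := by
    refine ⟨mul_ne_zero (mul_ne_zero hu hv) hPt.hX, mul_ne_zero (pow_ne_zero 2 hv) hPt.hY, ?_⟩
    obtain ⟨c0, hc0, h1⟩ := hPt.eq
    refine ⟨c0 * u ^ 2, mul_ne_zero hc0 (pow_ne_zero 2 hu), ?_⟩
    rw [← hW]
    have e1 : W * ((u * v * X1) ^ 3 + W * (v ^ 2 * Y1) ^ 3) =
        (W * v ^ 3) * (u ^ 3 * X1 ^ 3 + (W * v ^ 3) * Y1 ^ 3) := by ring
    rw [e1, ← hg]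
    have e2 : z * u ^ 3 * (u ^ 3 * X1 ^ 3 + z * u ^ 3 * Y1 ^ 3) =
        u ^ 6 * (z * (X1 ^ 3 + z * Y1 ^ 3)) := by ring
    rw [e2, h1]
    ring
  have hker := (hTEND s b P Q P' Q' ((n : ℤ) * q) hSys hB hA).2 g _ _ hex hPt'
  rw [← Matrix.exists_mulVec_eq_zero_iff]
  refine ⟨fun i => (g i : ZMod 3), ?_, ?_⟩
  · intro h1
    obtain ⟨i, hi⟩ := hex
    apply hi
    have h2 := congrFun h1 i
    exact (ZMod.natCast_eq_zero_iff (g i) 3).1 h2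
  · ext j
    exact hker j

end ECL0

/-- ECL0: the system for a class, `k` even. -/
theorem ECL0_thm (hHYP0 : HYP0) (hEBAS : EBAS) (hEADM : EADM) (hESYS : ESYS) (hFD1 : FD1)
    (hFD2 : FD2) (hTEND : TEND) : ECL0 := by
  intro n m k π p e r f w0 c hNF hk hw hdet
  obtain ⟨s, b, hs, hAdm, hV, hind, hc9, hgen⟩ :=
    hEBAS n m k π p e r f w0 c none hNF (Or.inl ⟨rfl, hk, hw⟩) (fun j hj => by cases hj) hdet
  obtain ⟨P, Q, P', Q', hSys⟩ := hESYS n m k π p e r f w0 c s b hNF hAdm hV hind hc9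
  refine ⟨s, b, P, Q, P', Q', hs, hAdm, hSys, ?_⟩
  intro q hq hIn hqn hq3
  exact ECL0.point_det0 hEADM hFD1 hFD2 hTEND hNF hAdm hgen hSys q hq hIn hqn hq3
    (hHYP0 n m k π p e r f w0 c q hNF hq hIn hqn hw hdet)

end Pool.Agent.PT3
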