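import Pool.Agent.PT3.Stmts
import Pool.Agent.PT.ECL

/-!
# Prime twists of rank zero, `3 ∣ B`: the class and the system, `q = 2 (mod 3)`
-/

set_option autoImplicit false

namespace Pool.Agent.PT3

open Pool.Agent.Lib_helper18 Pool.Agent.Lib_helper18.Eis Pool.Agent.Lib_helper84.Cub
open Pool.Agent.PT Pool.Agent.PTE

namespace ECLT

/-- a point whose class is generated by the `b i` gives a point of the class of a product -/
lemma pt_prod {s : ℕ} {B z X Y : ℤ} {b : Fin s → ℤ} (hPt : Pt B z X Y)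
    (hcube : ¬ ∃ t : ℤ, t ^ 3 = z) {g : Fin s → ℕ} {u v : ℤ} (hu : u ≠ 0) (hv : v ≠ 0)
    (hg : z * u ^ 3 = (∏ i, b i ^ g i) * v ^ 3) :
    (∃ i, ¬ 3 ∣ g i) ∧ ∃ X' Y' : ℤ, Pt B (∏ i, b i ^ g i) X' Y' := by
  set W : ℤ := ∏ i, b i ^ g i with hW
  constructor
  · by_contra hcon
    push Not at hcon
    choose g' hg' using hcon
    apply hcube
    have h1 : z * u ^ 3 = ((∏ i, b i ^ g' i) * v) ^ 3 := by
      rw [hg, hW, mul_pow, ← Finset.prod_pow]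
      congr 1
      refine Finset.prod_congr rfl fun i _ => ?_
      rw [← pow_mul, hg' i, mul_comm]
    exact ECL.cube_of hu h1
  · refine ⟨u * v * X, v ^ 2 * Y, mul_ne_zero (mul_ne_zero hu hv) hPt.hX,
      mul_ne_zero (pow_ne_zero 2 hv) hPt.hY, ?_⟩
    obtain ⟨c0, hc0, h1⟩ := hPt.eq
    refine ⟨c0 * u ^ 2, mul_ne_zero hc0 (pow_ne_zero 2 hu), ?_⟩
    have e1 : W * ((u * v * X) ^ 3 + W * (v ^ 2 * Y) ^ 3) =
        (W * v ^ 3) * (u ^ 3 * X ^ 3 + (W * v ^ 3) * Y ^ 3) := by ring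
    rw [e1, ← hg]
    have e2 : z * u ^ 3 * (u ^ 3 * X ^ 3 + z * u ^ 3 * Y ^ 3) =
        u ^ 6 * (z * (X ^ 3 + z * Y ^ 3)) := by ring
    rw [e2, h1]
    ring

end ECLT

open ECLT in
/-- ECLT: the system for a class, `q = 2 (mod 3)`. -/
theorem ECLT_thm (hHYPT : HYPT) (hEBAT : EBAT) (hEADT : EADT) (hESYT : ESYT) (hFD1T : FD1T)
    (hFD2T : FD2T) (hTENT : TENT) : ECLT := by
  intro h n m k π p e r f w0 c hNF hh hhk hdet
  obtain ⟨s, τ, b, X, Y, hs, hAdC, hV, hind, h3, hLam, hgen⟩ :=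
    hEBAT h n m k π p e r f w0 c hNF hh hdet
  obtain ⟨P, Q, P', Q', hSys, hSw⟩ := hESYT h n m k π p e r f w0 c s b hNF hAdC hV hind h3
  have hb0 : ∀ i, b i ≠ 0 := fun i => (hAdC i).ne
  refine ⟨s, b, X, Y, P, Q, P', Q', ?_, hSys, hb0, ?_⟩
  · obtain ⟨a, ha⟩ := hhk
    exact ⟨a + 1 - h, by omega⟩
  intro E q hE hq hq2 hIn hqn
  obtain ⟨hBT, hTy, hiff⟩ := hEADT h n m k π p e r f w0 c E q hNF hh hE hq hq2 hIn hqn
  have hA : ∀ i, AdT (BB h n E q) (b i) := fun i => (hiff _ (hAdC i).supp).1 (hAdC i)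
  obtain ⟨hsk, hker⟩ := hTENT s τ b X Y P Q P' Q' (BB h n E q) hSys hSw hBT.toBG
    (fun i => (hA i).toAG) (hLam _ hTy) hb0
  refine ⟨hBT, hA, hsk, ?_⟩
  intro hXY
  have hn0 : 0 < n := by
    rcases Nat.eq_zero_or_pos n with h0 | h0
    · exact absurd (by rw [h0]; exact dvd_zero q) hqn
    · exact h0
  have hq3 : q ≠ 3 := by
    rintro rfl
    norm_num at hq2
  have hH : HypT (BB h n E q) :=
    hHYPT h n m k π p e r f w0 c E q hNF hh hE hq hq2 hIn hqn hdet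
  obtain ⟨a, x, hC⟩ := hFD1T (BB h n E q) hBT hH hXY
  obtain ⟨z, X1, Y1, hPt, hAz, hsupp, hcube⟩ := hFD2T h n E q a x hh hE hq hq3 hqn hn0 hBT hC
  obtain ⟨g, u, v, hu, hv, hg⟩ := hgen z ((hiff z hsupp).2 hAz)
  obtain ⟨hex, X', Y', hPt'⟩ := pt_prod hPt hcube hu hv hg
  have hk := hker g X' Y' hex hPt'
  rw [← Matrix.exists_mulVec_eq_zero_iff]
  refine ⟨fun i => (g i : ZMod 3), ?_, ?_⟩
  · intro h1
    obtain ⟨i, hi⟩ := hex
    apply hi
    have h2 := congrFun h1 i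
    exact (ZMod.natCast_eq_zero_iff (g i) 3).1 h2
  · ext j
    exact hk j

end Pool.Agent.PT3
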