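import Pool.Agent.PT3.Stmts
import Pool.Agent.PTE.ECLS

/-!
# Prime twists of rank zero, `n` divisible by `3`: the systems for the primes `q = 1 (mod 3)`
-/

set_option autoImplicit false

namespace Pool.Agent.PT3

open Pool.Agent.Lib_helper18 Pool.Agent.Lib_helper18.Eis Pool.Agent.Lib_helper84.Cub
open Pool.Agent.PT Pool.Agent.PTE

namespace ECLU

/-- the restriction of a system to the first indices -/
lemma sysG_restr {s : ℕ} {b : Fin (s + 1) → ℤ} {P Q P' Q' : Fin (s + 1) → Fin (s + 1) → ℤ}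
    (h : SysG b P Q P' Q') : SysG (rv b) (rs P) (rs Q) (rs P') (rs Q') where
  ind := by
    rintro c ⟨i, hi⟩ ⟨t, ht⟩
    refine h.ind (Fin.snoc (α := fun _ => ℕ) c 0) ⟨i.castSucc, ?_⟩ ⟨t, ?_⟩
    · rw [Fin.snoc_castSucc]
      exact hi
    · rw [ht, Fin.prod_univ_castSucc, Fin.snoc_last, pow_zero, mul_one]
      refine Finset.prod_congr rfl fun j _ => ?_
      rw [Fin.snoc_castSucc]
      rfl
  sol j i hji := h.sol j.castSucc i.castSucc fun h1 => hji (Fin.castSucc_injective _ h1)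

lemma sw_restr {s : ℕ} {P Q P' Q' : Fin (s + 1) → Fin (s + 1) → ℤ}
    (h : SwS P Q P' Q') : SwS (rs P) (rs Q) (rs P') (rs Q') :=
  fun j i hji => h j.castSucc i.castSucc fun h1 => hji (Fin.castSucc_injective _ h1)

/-- the class of a point gives a kernel vector -/
lemma det_zero (hTENT : TENT) {s : ℕ} {τ : Fin s → Fin 3} {b X Y : Fin s → ℤ}
    {P Q P' Q' : Fin s → Fin s → ℤ} {B : ℤ}
    (hSys : SysG b P Q P' Q') (hSw : SwS P Q P' Q') (hB : BG B) (hA : ∀ i, AG B (b i))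
    (hT : LamS B τ b X Y) (hb : ∀ i, b i ≠ 0) {z X1 Y1 : ℤ}
    (hPt : Pt B z X1 Y1) (hcube : ¬ ∃ t : ℤ, t ^ 3 = z) {g : Fin s → ℕ} {u v : ℤ} (hu : u ≠ 0)
    (hv : v ≠ 0) (hg : z * u ^ 3 = (∏ i, b i ^ g i) * v ^ 3) :
    (MaT b X Y P Q P' Q' B).det = 0 := by
  obtain ⟨W, hW⟩ : ∃ W : ℤ, W = ∏ i, b i ^ g i := ⟨_, rfl⟩
  rw [← hW] at hg
  have hex : ∃ i, ¬ 3 ∣ g i := by
    by_contra hcon
    push Not at hcon
    choose g' hg' using hcon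
    apply hcube
    have h1 : z * u ^ 3 = ((∏ i, b i ^ g' i) * v) ^ 3 := by
      rw [hg, hW, mul_pow, ← Finset.prod_pow]
      congr 1
      refine Finset.prod_congr rfl fun i _ => ?_
      rw [← pow_mul, hg' i, mul_comm]
    exact ECLS.cube_of hu h1
  have hPt' : Pt B (∏ i, b i ^ g i) (u * v * X1) (v ^ 2 * Y1) := by
    refine ⟨mul_ne_zero (mul_ne_zero hu hv) hPt.hX, mul_ne_zero (pow_ne_zero 2 hv) hPt.hY, ?_⟩
    obtain ⟨c0, hc0, h1⟩ := hPt.eq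
    refine ⟨c0 * u ^ 2, mul_ne_zero hc0 (pow_ne_zero 2 hu), ?_⟩
    rw [← hW]
    have e1 : W * ((u * v * X1) ^ 3 + W * (v ^ 2 * Y1) ^ 3) =
        (W * v ^ 3) * (u ^ 3 * X1 ^ 3 + (W * v ^ 3) * Y1 ^ 3) := by ring
    rw [e1, ← hg]
    have e2 : z * u ^ 3 * (u ^ 3 * X1 ^ 3 + z * u ^ 3 * Y1 ^ 3) =
        u ^ 6 * (z * (X1 ^ 3 + z * Y1 ^ 3)) := by ring
    rw [e2, h1]
    ring
  have hker := (hTENT s τ b X Y P Q P' Q' B hSys hSw hB hA hT hb).2 g _ _ hex hPt'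
  rw [← Matrix.exists_mulVec_eq_zero_iff]
  refine ⟨fun i => (g i : ZMod 3), ?_, ?_⟩
  · intro h1
    obtain ⟨i, hi⟩ := hex
    apply hi
    have h2 := congrFun h1 i
    exact (ZMod.natCast_eq_zero_iff (g i) 3).1 h2
  · ext j
    exact hker j

end ECLU

open ECLU in
/-- ECLU: the systems for a class, `q = 1 (mod 3)`. -/
theorem ECLU_thm (hHYPU : HYPU) (hEHPT : EHPT) (hEADU : EADU) (hESYT : ESYT) (hFD1T : FD1T)
    (hFD2T : FD2T) (hTENT : TENT) (hSPLT : SPLT) : ECLU := by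
  intro h n m k π p e r f w0 c hNF hh hodd hdet
  obtain ⟨d, v, hd, hv, hδ⟩ := hEHPT h n m k π p e r f w0 c hNF hh hdet
  refine ⟨d, v, ?_, fun i => ⟨(hv i).ne, (hv i).supp⟩, ?_⟩
  · rw [Nat.odd_iff] at hodd ⊢
    omega
  intro δ hδ0
  obtain ⟨s, τ, b, X, Y, hs, hAdm, hV, hind, h3, hT, hρ⟩ := hδ δ hδ0
  obtain ⟨P, Q, P', Q', hSys, hSw⟩ := hESYT h n m k π p e r f w0 c (s + 1) b hNF hAdm hV hind h3
  refine ⟨s, b, X, Y, P, Q, P', Q', hs, hSys, fun i => (hAdm i).ne, ?_, ?_⟩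
  · intro ρ h1 h2 h3
    exact (hρ ρ h1 h2 h3).1
  intro E q ρ hE hq hq1 hIn hqn hqρ h0 h1
  obtain ⟨hB, hTy, hEA⟩ := hEADU h n m k π p e r f w0 c E q ρ hNF hh hE hq hq1 hIn hqn hqρ
  have hA : ∀ i : Fin s, AdT (BB h n E q) (b i.castSucc) := fun i =>
    (hEA _ (hAdm i.castSucc).supp).1 ⟨hAdm i.castSucc, h0 i⟩
  have hR := sysG_restr hSys
  have hRw := sw_restr hSw
  have hL := hT _ hTy
  have hAG : ∀ i : Fin s, AG (BB h n E q) (rv b i) := fun i => (hA i).toAG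
  have hne : ∀ i : Fin s, rv b i ≠ 0 := fun i => (hAdm i.castSucc).ne
  refine ⟨hB, hA, (hTENT s τ (rv b) X Y _ _ _ _ _ hR hRw hB.toBG hAG hL hne).1, ?_⟩
  intro hXY
  have hn0 : 0 < n := by
    rcases Nat.eq_zero_or_pos n with h | h
    · exact absurd (by rw [h]; exact dvd_zero q) hqn
    · exact h
  have hq3 : q ≠ 3 := by
    rintro rfl
    norm_num at hq1
  have hH : HypT (BB h n E q) := hHYPU h n m k π p e r f w0 c E q ρ (b (Fin.last s)) hNF hh hE hq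
    hq1 hIn hqn hqρ hdet (hAdm _) h1
  obtain ⟨a, x, hC⟩ := hFD1T (BB h n E q) hB hH hXY
  obtain ⟨z, X1, Y1, hPt, hAz, hsupp, hcube⟩ := hFD2T h n E q a x hh hE hq hq3 hqn hn0 hB hC
  obtain ⟨hz1, hz2⟩ := (hEA z hsupp).2 hAz
  have hρn : ¬ ρ.1 ∣ (n : Eis) := by
    intro h2
    have h4 := (hSPLT.2 q ρ hq hq1 hqρ).2.2.2.1 (n : ℤ)
    rw [Int.cast_natCast] at h4
    exact hqn (Int.natCast_dvd_natCast.1 (h4.1 h2))
  obtain ⟨g, u, t, hu, ht, hg⟩ := (hρ ρ hρn h0 h1).2 z hz1 hz2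
  exact det_zero hTENT hR hRw hB.toBG hAG hL hne hPt hcube hu ht hg

end Pool.Agent.PT3
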