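import Pool.Agent.PT3.Stmts
import Pool.Agent.PTE.ECLS

/-!
# Prime twists of rank zero: the systems for a given class, `k` odd (module ECS0)
-/

set_option autoImplicit false

namespace Pool.Agent.PT3

open Pool.Agent.Lib_helper18 Pool.Agent.Lib_helper18.Eis Pool.Agent.Lib_helper84.Cub
open Pool.Agent.PT Pool.Agent.PTE
open Pool.Agent.PTE.ECLS

/-- ECS0: the systems for a class, `k` odd. -/
theorem ECS0_thm (hEHPL : EHPL) (hESYS : ESYS) (hEADMS : EADMS) (hHYPS : HYPS)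
    (hFD1 : FD1) (hFD2S : FD2S) (hTEND : TEND) (hSPLT : SPLT) : ECS0 := by
  intro n m k π p e r f w0 c hNF hk hwt hdet
  obtain ⟨v, hv, hδ⟩ := hEHPL n m k π p e r f w0 c hNF hk.pos hwt hdet
  refine ⟨v, fun i => ⟨(hv i).ne, (hv i).supp⟩, ?_⟩
  intro δ hδ0
  obtain ⟨s, b, hs, hAdm, hV, hind, hc9, hρ⟩ := hδ δ hδ0
  obtain ⟨P, Q, P', Q', hSys⟩ := hESYS n m k π p e r f w0 c (s + 1) b hNF hAdm hV hind hc9
  refine ⟨s, b, P, Q, P', Q', hs, ⟨hSys.ind, hSys.sol⟩, fun i => (hAdm i).ne, ?_, ?_⟩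
  · intro ρ h1 h2 h3
    exact (hρ ρ h1 h2 h3).1
  intro q ρ hq hIn hqn hq3 hqρ h0 h1
  obtain ⟨hB, hE⟩ := hEADMS n m k π p e r f w0 c q ρ hNF hq hIn hqn hqρ
  have hA : ∀ i : Fin s, Adm ((n : ℤ) * q) (b i.castSucc) := fun i =>
    (hE _ (hAdm i.castSucc).supp).1 ⟨hAdm i.castSucc, h0 i⟩
  have hR := sys_restr hSys
  refine ⟨hB, hA, (hTEND s (rv b) _ _ _ _ _ hR hB hA).1, ?_⟩
  rintro ⟨X, Y, hXY⟩
  have hn0 : 0 < n := by
    rcases Nat.eq_zero_or_pos n with h | h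
    · exact absurd (by rw [h]; exact dvd_zero q) hqn
    · exact h
  have h3 : 3 ≤ |(n : ℤ) * q| := by
    have h1 : (3 : ℤ) ≤ (n : ℤ) * q := by
      have h2 : 3 ≤ n * q := by nlinarith
      exact_mod_cast h2
    exact h1.trans (le_abs_self _)
  have hH : HypM ((n : ℤ) * q) := hHYPS n m k π p e r f w0 c q ρ (b (Fin.last s)) hNF hq hIn hqn
    hqρ hwt hdet (hAdm _) h1
  obtain ⟨a, x, hC⟩ := hFD1 ((n : ℤ) * q) hB h3 hH ⟨X, Y, by rw [hXY]; push_cast; ring⟩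
  obtain ⟨z, X1, Y1, hPt, hAz, hsupp, hcube⟩ := hFD2S n q a x hq hIn.1 hqn hn0 hB hC
  obtain ⟨hz1, hz2⟩ := (hE z hsupp).2 hAz
  have hρn : ¬ ρ.1 ∣ (n : Eis) := by
    intro h2
    have h4 := (hSPLT.2 q ρ hq hIn.1 hqρ).2.2.2.1 (n : ℤ)
    rw [Int.cast_natCast] at h4
    exact hqn (Int.natCast_dvd_natCast.1 (h4.1 h2))
  obtain ⟨g, u, t, hu, ht, hg⟩ := (hρ ρ hρn h0 h1).2 z hz1 hz2
  exact det_zero hTEND hR hB hA hPt hcube hu ht hg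

end Pool.Agent.PT3
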