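import Pool.Agent.PT3.Stmts
import Pool.Agent.PT.EDET

/-!
# Prime twists of rank zero, `n` divisible by `3`: the number of the diagonals (module EDC)
-/

namespace Pool.Agent.PT3

open Pool.Agent.Lib_helper18 Pool.Agent.Lib_helper18.Eis Pool.Agent.Lib_helper84.Cub
open Pool.Agent.PT Pool.Agent.PTE

namespace EDC

theorem ne_of : ∀ a b u : ZMod 3, b ≠ 0 → u ≠ 0 → a - (a * b + u) * b ≠ 0 := by
  decide

theorem card_two : Nat.card {u : ZMod 3 // u ≠ 0} = 2 := by
  rw [Nat.card_eq_fintype_card]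
  decide

/-- The determinant of the upper left block. -/
noncomputable def D1 {m : ℕ} (A : Matrix (Fin (m + 2)) (Fin (m + 2)) (ZMod 3))
    (d : Fin m → ZMod 3) : ZMod 3 :=
  (A.submatrix Fin.castSucc Fin.castSucc -
    Matrix.diagonal (Fin.cons 0 d : Fin (m + 1) → ZMod 3)).det

/-- The determinant for the last entry `0`. -/
noncomputable def D0 {m : ℕ} (A : Matrix (Fin (m + 2)) (Fin (m + 2)) (ZMod 3))
    (d : Fin m → ZMod 3) : ZMod 3 :=
  (A - Matrix.diagonal (Fin.snoc (Fin.cons 0 d : Fin (m + 1) → ZMod 3) 0 :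
    Fin (m + 2) → ZMod 3)).det

theorem det_eq {m : ℕ} (A : Matrix (Fin (m + 2)) (Fin (m + 2)) (ZMod 3))
    (d : Fin m → ZMod 3) (t : ZMod 3) :
    (A - Matrix.diagonal (Fin.cons 0 (Fin.snoc d t : Fin (m + 1) → ZMod 3) :
      Fin (m + 2) → ZMod 3)).det = D0 A d - t * D1 A d := by
  rw [EDET.cons_snoc, EDET.det_last]
  rfl

end EDC

/-- EDC: the number of the diagonals such that the matrix becomes invertible. -/
theorem EDC_thm : EDC := by
  intro m
  induction m with
  | zero =>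
    intro A hA
    have hne : Nonempty {d : Fin 0 → ZMod 3 //
        (A - Matrix.diagonal (Fin.cons 0 d : Fin (0 + 1) → ZMod 3)).det ≠ 0} := by
      refine ⟨⟨fun _ => 0, ?_⟩⟩
      rw [Matrix.det_fin_one, Matrix.sub_apply, Matrix.diagonal_apply_eq, Fin.cons_zero, sub_zero]
      exact hA
    rw [pow_zero]
    exact Nat.card_pos
  | succ m ih =>
    intro A hA
    have h1 := ih (A.submatrix Fin.castSucc Fin.castSucc) hA
    have hD : ∀ d : Fin m → ZMod 3, (A.submatrix Fin.castSucc Fin.castSucc -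
        Matrix.diagonal (Fin.cons 0 d : Fin (m + 1) → ZMod 3)).det = EDC.D1 A d := fun _ => rfl
    let f : {d : Fin m → ZMod 3 // (A.submatrix Fin.castSucc Fin.castSucc -
        Matrix.diagonal (Fin.cons 0 d : Fin (m + 1) → ZMod 3)).det ≠ 0} ×
        {u : ZMod 3 // u ≠ 0} → {d : Fin (m + 1) → ZMod 3 //
        (A - Matrix.diagonal (Fin.cons 0 d : Fin (m + 1 + 1) → ZMod 3)).det ≠ 0} := fun x =>
      ⟨Fin.snoc x.1.1 (EDC.D0 A x.1.1 * EDC.D1 A x.1.1 + x.2.1), by
        rw [EDC.det_eq]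
        exact EDC.ne_of _ _ _ x.1.2 x.2.2⟩
    have hf : Function.Injective f := by
      rintro ⟨⟨d, hd⟩, ⟨u, hu⟩⟩ ⟨⟨d', hd'⟩, ⟨u', hu'⟩⟩ hx
      have h2 : (Fin.snoc d (EDC.D0 A d * EDC.D1 A d + u) : Fin (m + 1) → ZMod 3) =
          Fin.snoc d' (EDC.D0 A d' * EDC.D1 A d' + u') := congrArg Subtype.val hx
      have h3 : d = d' := by
        have := congrArg Fin.init h2
        rwa [Fin.init_snoc, Fin.init_snoc] at this
      subst h3
      have h4 := congrFun h2 (Fin.last m)
      rw [Fin.snoc_last, Fin.snoc_last] at h4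
      have h5 : u = u' := add_left_cancel h4
      subst h5
      rfl
    have h6 := Nat.card_le_card_of_injective f hf
    rw [Nat.card_prod, EDC.card_two] at h6
    rw [pow_succ]
    omega

end Pool.Agent.PT3
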