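import Pool.Agent.PT3.Stmts
import Pool.Agent.PTE.EHPL

/-!
# Prime twists of rank zero, `n` divisible by `3`: bases adapted to a hyperplane (module EHPT)
-/

namespace Pool.Agent.PT3

open Pool.Agent.Lib_helper18 Pool.Agent.Lib_helper18.Eis Pool.Agent.Lib_helper84.Cub
open Pool.Agent.PT Pool.Agent.PTE

namespace EHPT

open Pool.Agent.PT.EBAS

/-! ### Linear algebra -/

/-- A basis adapted to two linear forms. -/
theorem family {M : Type} [AddCommGroup M] [Module (ZMod 3) M] [Module.Finite (ZMod 3) M]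
    (A W : M →ₗ[ZMod 3] ZMod 3) (β1 β2 : ZMod 3) (hβ : β1 ≠ 0) (T : Prop)
    (hT : T ∨ ∀ x, W x * β1 = A x * β2) :
    ∃ (s : ℕ) (b : Fin s → M) (τ : Fin s → Fin 3), s = Module.finrank (ZMod 3) M ∧
      (∀ g : Fin s → ZMod 3, ∑ i, g i • b i = 0 → ∀ i, g i = 0) ∧
      (∀ x, ∃ g : Fin s → ZMod 3, x = ∑ i, g i • b i) ∧
      (∀ i, τ i = 0 → A (b i) = 0 ∧ W (b i) = 0) ∧
      (∀ i, τ i = 1 → A (b i) = β1 ∧ W (b i) = β2) ∧
      (∀ i, τ i = 2 → T ∧ ¬ (A (b i) = 0 ∧ W (b i) = 0)) ∧
      (∀ i j, τ i = τ j → τ i ≠ 0 → i = j) ∧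
      (∀ i j, i ≠ j → A (b i) = 0 ∨ A (b j) = 0) := by
  classical
  obtain ⟨bK, hbK⟩ := EBAS.exists_basis W (LinearMap.ker A)
  have hA : ∀ i, A (bK i : M) = 0 := fun i => LinearMap.mem_ker.mp (bK i).2
  let τK : Fin (Module.finrank (ZMod 3) (LinearMap.ker A)) → Fin 3 := fun i =>
    if W (bK i : M) = 0 then 0 else 2
  have hτ : ∀ i, (τK i = 0 ∧ W (bK i : M) = 0) ∨ (τK i = 2 ∧ W (bK i : M) ≠ 0) := by
    intro i
    by_cases h : W (bK i : M) = 0
    · exact Or.inl ⟨if_pos h, h⟩
    · exact Or.inr ⟨if_neg h, h⟩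
  have hτT : ∀ i, W (bK i : M) ≠ 0 → T := by
    intro i hi
    rcases hT with h | h
    · exact h
    · exfalso
      have h1 := h (bK i : M)
      rw [hA i, zero_mul] at h1
      exact hi ((mul_eq_zero.mp h1).resolve_right hβ)
  have h02 : (0 : Fin 3) ≠ 1 ∧ (0 : Fin 3) ≠ 2 ∧ (1 : Fin 3) ≠ 2 := by decide
  by_cases hA0 : A = 0
  · have htop : LinearMap.ker A = ⊤ := by rw [hA0, LinearMap.ker_zero]
    refine ⟨_, fun i => (bK i : M), τK, ?_, ?_, ?_, ?_, ?_, ?_, ?_, ?_⟩
    · rw [htop, finrank_top]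
    · intro g hg
      have h3 : ∑ i, g i • bK i = 0 := by
        apply Subtype.ext
        rw [AddSubmonoidClass.coe_finsetSum]
        exact hg
      exact Fintype.linearIndependent_iff.mp bK.linearIndependent _ h3
    · intro x
      have hx : x ∈ LinearMap.ker A := by
        rw [htop]
        trivial
      refine ⟨fun i => bK.repr ⟨x, hx⟩ i, ?_⟩
      have h3 := congrArg (fun z : LinearMap.ker A => (z : M)) (bK.sum_repr ⟨x, hx⟩)
      simp only [AddSubmonoidClass.coe_finsetSum] at h3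
      exact h3.symm
    · intro i hi
      rcases hτ i with h | h
      · exact ⟨hA i, h.2⟩
      · rw [hi] at h
        exact absurd h.1 h02.2.1
    · intro i hi
      rcases hτ i with h | h
      · rw [hi] at h
        exact absurd h.1.symm h02.1
      · rw [hi] at h
        exact absurd h.1 h02.2.2
    · intro i hi
      rcases hτ i with h | h
      · rw [hi] at h
        exact absurd h.1.symm h02.2.1
      · exact ⟨hτT i h.2, fun h4 => h.2 h4.2⟩
    · intro i j hij hi
      by_contra hne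
      rcases hτ i with h | h
      · exact hi h.1
      · rcases hτ j with h' | h'
        · rw [h.1, h'.1] at hij
          exact absurd hij.symm h02.2.1
        · rcases hbK i j hne with h5 | h5
          · exact h.2 h5
          · exact h'.2 h5
    · intro i j _
      exact Or.inl (hA i)
  · obtain ⟨y0, hy0⟩ : ∃ y, A y ≠ 0 := by
      by_contra hc
      push Not at hc
      exact hA0 (LinearMap.ext hc)
    obtain ⟨y, hy, hyW⟩ : ∃ y, A y = β1 ∧ (W y = β2 ∨ (T ∧ ∀ i, W (bK i : M) = 0)) := by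
      have hy1 : A ((β1 / A y0) • y0) = β1 := by
        rw [map_smul, smul_eq_mul, div_mul_cancel₀ _ hy0]
      by_cases h : ∀ i, W (bK i : M) = 0
      · rcases hT with hT | hT
        · exact ⟨_, hy1, Or.inr ⟨hT, h⟩⟩
        · refine ⟨_, hy1, Or.inl ?_⟩
          have h1 := hT ((β1 / A y0) • y0)
          rw [hy1, mul_comm β1] at h1
          exact mul_right_cancel₀ hβ h1
      · push Not at h
        obtain ⟨i0, hi0⟩ := h
        refine ⟨(β1 / A y0) • y0 +
          ((β2 - W ((β1 / A y0) • y0)) / W (bK i0 : M)) • (bK i0 : M), ?_, Or.inl ?_⟩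
        · rw [map_add, hy1, map_smul, hA, smul_zero, add_zero]
        · rw [map_add, map_smul W _ (bK i0 : M), smul_eq_mul, div_mul_cancel₀ _ hi0,
            add_sub_cancel]
    have hrk : Module.finrank (ZMod 3) (LinearMap.ker A) + 1 = Module.finrank (ZMod 3) M := by
      have h1 := LinearMap.finrank_range_add_finrank_ker A
      rw [LinearMap.range_eq_top.mpr (LinearMap.surjective hA0), finrank_top,
        Module.finrank_self] at h1
      omega
    let b : Fin (Module.finrank (ZMod 3) (LinearMap.ker A) + 1) → M :=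
      Fin.snoc (α := fun _ => M) (fun i => (bK i : M)) y
    have hb1 : ∀ i : Fin (Module.finrank (ZMod 3) (LinearMap.ker A)),
        b i.castSucc = (bK i : M) := fun i => Fin.snoc_castSucc (α := fun _ => M) _ _ _
    have hb2 : b (Fin.last _) = y := Fin.snoc_last (α := fun _ => M) _ _
    let t0 : Fin 3 := if W y = β2 then 1 else 2
    have ht0 : (t0 = 1 ∧ W y = β2) ∨ (t0 = 2 ∧ T ∧ ∀ i, W (bK i : M) = 0) := by
      by_cases h : W y = β2
      · exact Or.inl ⟨if_pos h, h⟩
      · exact Or.inr ⟨if_neg h, hyW.resolve_left h⟩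
    let τ : Fin (Module.finrank (ZMod 3) (LinearMap.ker A) + 1) → Fin 3 :=
      Fin.snoc (α := fun _ => Fin 3) τK t0
    have hτ1 : ∀ i : Fin (Module.finrank (ZMod 3) (LinearMap.ker A)),
        τ i.castSucc = τK i := fun i => Fin.snoc_castSucc (α := fun _ => Fin 3) _ _ _
    have hτ2 : τ (Fin.last _) = t0 := Fin.snoc_last (α := fun _ => Fin 3) _ _
    refine ⟨_, b, τ, hrk, ?_, ?_, ?_, ?_, ?_, ?_, ?_⟩
    · intro g hg
      rw [Fin.sum_univ_castSucc, hb2] at hg
      simp only [hb1] at hg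
      have hl : g (Fin.last _) = 0 := by
        have h1 := congrArg A hg
        rw [map_add, map_sum, map_smul, map_zero, smul_eq_mul, hy] at h1
        have h2 : ∑ i, A (g (Fin.castSucc i) • (bK i : M)) = 0 :=
          Finset.sum_eq_zero fun i _ => by rw [map_smul, hA, smul_zero]
        rw [h2, zero_add] at h1
        exact (mul_eq_zero.mp h1).resolve_right hβ
      rw [hl, zero_smul, add_zero] at hg
      have h3 : ∑ i, g (Fin.castSucc i) • bK i = 0 := by
        apply Subtype.ext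
        rw [AddSubmonoidClass.coe_finsetSum]
        exact hg
      have h4 := Fintype.linearIndependent_iff.mp bK.linearIndependent _ h3
      intro i
      induction i using Fin.lastCases with
      | last => exact hl
      | cast i => exact h4 i
    · intro x
      have hx : x - (A x / β1) • y ∈ LinearMap.ker A := by
        rw [LinearMap.mem_ker, map_sub, map_smul, hy, smul_eq_mul, div_mul_cancel₀ _ hβ, sub_self]
      refine ⟨Fin.snoc (α := fun _ => ZMod 3) (fun i => bK.repr ⟨_, hx⟩ i) (A x / β1), ?_⟩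
      rw [Fin.sum_univ_castSucc, hb2]
      simp only [hb1, Fin.snoc_castSucc, Fin.snoc_last]
      have h3 := congrArg (fun z : LinearMap.ker A => (z : M)) (bK.sum_repr ⟨_, hx⟩)
      simp only [AddSubmonoidClass.coe_finsetSum] at h3
      have h4 : ∑ i, bK.repr ⟨x - (A x / β1) • y, hx⟩ i • (bK i : M) = x - (A x / β1) • y := h3
      rw [h4, sub_add_cancel]
    · intro i hi
      induction i using Fin.lastCases with
      | last =>
        rw [hτ2] at hi
        rcases ht0 with h | h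
        · rw [h.1] at hi
          exact absurd hi.symm h02.1
        · rw [h.1] at hi
          exact absurd hi.symm h02.2.1
      | cast i =>
        rw [hτ1] at hi
        rw [hb1]
        rcases hτ i with h | h
        · exact ⟨hA i, h.2⟩
        · rw [hi] at h
          exact absurd h.1 h02.2.1
    · intro i hi
      induction i using Fin.lastCases with
      | last =>
        rw [hτ2] at hi
        rw [hb2]
        rcases ht0 with h | h
        · exact ⟨hy, h.2⟩
        · rw [h.1] at hi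
          exact absurd hi.symm h02.2.2
      | cast i =>
        rw [hτ1] at hi
        rcases hτ i with h | h
        · rw [hi] at h
          exact absurd h.1.symm h02.1
        · rw [hi] at h
          exact absurd h.1 h02.2.2
    · intro i hi
      induction i using Fin.lastCases with
      | last =>
        rw [hτ2] at hi
        rw [hb2, hy]
        rcases ht0 with h | h
        · rw [h.1] at hi
          exact absurd hi h02.2.2
        · exact ⟨h.2.1, fun h4 => hβ h4.1⟩
      | cast i =>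
        rw [hτ1] at hi
        rw [hb1]
        rcases hτ i with h | h
        · rw [hi] at h
          exact absurd h.1.symm h02.2.1
        · exact ⟨hτT i h.2, fun h4 => h.2 h4.2⟩
    · intro i j hij hi
      induction i using Fin.lastCases with
      | last =>
        induction j using Fin.lastCases with
        | last => rfl
        | cast j =>
          exfalso
          rw [hτ2, hτ1] at hij
          rcases ht0 with h | h
          · rcases hτ j with h' | h'
            · rw [h.1, h'.1] at hij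
              exact absurd hij.symm h02.1
            · rw [h.1, h'.1] at hij
              exact absurd hij h02.2.2
          · rcases hτ j with h' | h'
            · rw [h.1, h'.1] at hij
              exact absurd hij.symm h02.2.1
            · exact h'.2 (h.2.2 j)
      | cast i =>
        induction j using Fin.lastCases with
        | last =>
          exfalso
          rw [hτ2, hτ1] at hij
          rcases ht0 with h | h
          · rcases hτ i with h' | h'
            · rw [h.1, h'.1] at hij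
              exact absurd hij h02.1
            · rw [h.1, h'.1] at hij
              exact absurd hij.symm h02.2.2
          · rcases hτ i with h' | h'
            · rw [h.1, h'.1] at hij
              exact absurd hij h02.2.1
            · exact h'.2 (h.2.2 i)
        | cast j =>
          rw [hτ1, hτ1] at hij
          rw [hτ1] at hi
          by_contra hne
          have hne' : i ≠ j := fun h => hne (by rw [h])
          rcases hτ i with h | h
          · exact hi h.1
          · rcases hτ j with h' | h'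
            · rw [h.1, h'.1] at hij
              exact absurd hij.symm h02.2.1
            · rcases hbK i j hne' with h5 | h5
              · exact h.2 h5
              · exact h'.2 h5
    · intro i j hij
      induction i using Fin.lastCases with
      | last =>
        induction j using Fin.lastCases with
        | last => exact absurd rfl hij
        | cast j =>
          right
          rw [hb1]
          exact hA j
      | cast i =>
        left
        rw [hb1]
        exact hA i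

/-! ### The space of admissible exponent vectors -/

/-- Exponent vectors modulo `3`; the first component belongs to the prime `3`. -/
abbrev E3 (m k : ℕ) : Type := ZMod 3 × EV m k

/-- The part of the conditions which belongs to the prime `3`. -/
noncomputable def c3 {m : ℕ} (π : Fin m → PP) (e : Fin m → ℕ) :
    ZMod 3 →ₗ[ZMod 3] (Fin m → ZMod 3) where
  toFun a i := (e i : ZMod 3) * (a * sym (π i).1 3)
  map_add' := by
    intro a b
    funext i
    simp only [Pi.add_apply]
    ring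
  map_smul' := by
    intro t a
    funext i
    simp only [Pi.smul_apply, smul_eq_mul, RingHom.id_apply]
    ring

/-- The conditions at the split primes. -/
noncomputable def L3 (h n : ℕ) {m k : ℕ} (π : Fin m → PP) (p e : Fin m → ℕ) (r : Fin k → ℕ)
    (c : Fin m → ZMod 3) : E3 m k →ₗ[ZMod 3] (Fin m → ZMod 3) :=
  (c3 π e).comp (LinearMap.fst (ZMod 3) (ZMod 3) (EV m k)) +
    (Lm (3 ^ h * n) π p e r c).comp (LinearMap.snd (ZMod 3) (ZMod 3) (EV m k))

theorem L3_apply (h n : ℕ) {m k : ℕ} (π : Fin m → PP) (p e : Fin m → ℕ) (r : Fin k → ℕ)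
    (c : Fin m → ZMod 3) (u : E3 m k) (i : Fin m) :
    L3 h n π p e r c u i = (e i : ZMod 3) * (u.1 * sym (π i).1 3) +
      Lm (3 ^ h * n) π p e r c u.2 i := rfl

/-- The exponent of `3`. -/
def A3 (m k : ℕ) : E3 m k →ₗ[ZMod 3] ZMod 3 := LinearMap.fst (ZMod 3) (ZMod 3) (EV m k)

/-- The class modulo `9`. -/
noncomputable def W3 {m k : ℕ} (p : Fin m → ℕ) (r : Fin k → ℕ) : E3 m k →ₗ[ZMod 3] ZMod 3 :=
  (Wm p r).comp (LinearMap.snd (ZMod 3) (ZMod 3) (EV m k))

/-- The space. -/
noncomputable def SS (h n : ℕ) {m k : ℕ} (π : Fin m → PP) (p e : Fin m → ℕ) (r : Fin k → ℕ)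
    (w0 : ZMod 3) (c : Fin m → ZMod 3) : Submodule (ZMod 3) (E3 m k) :=
  if h = 2 then LinearMap.ker
    ((W3 p r + (wt ((n : ℤ) ^ 2) + w0) • A3 m k).prod (L3 h n π p e r c))
  else LinearMap.ker (L3 h n π p e r c)

theorem mem_SS (h n : ℕ) {m k : ℕ} (π : Fin m → PP) (p e : Fin m → ℕ) (r : Fin k → ℕ)
    (w0 : ZMod 3) (c : Fin m → ZMod 3) (u : E3 m k) :
    u ∈ SS h n π p e r w0 c ↔ (∀ i, L3 h n π p e r c u i = 0) ∧
      (h = 2 → Wm p r u.2 + u.1 * (wt ((n : ℤ) ^ 2) + w0) = 0) := by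
  unfold SS
  by_cases hh : h = 2
  · rw [if_pos hh, LinearMap.mem_ker]
    change (Wm p r u.2 + (wt ((n : ℤ) ^ 2) + w0) * u.1, L3 h n π p e r c u) = 0 ↔ _
    rw [Prod.mk_eq_zero, funext_iff, mul_comm]
    exact ⟨fun h3 => ⟨h3.2, fun _ => h3.1⟩, fun h3 => ⟨h3.2 hh, h3.1⟩⟩
  · rw [if_neg hh, LinearMap.mem_ker, funext_iff]
    exact ⟨fun h3 => ⟨h3, fun h4 => absurd h4 hh⟩, fun h3 => h3.1⟩

theorem L3_row (h n : ℕ) {m k : ℕ} (π : Fin m → PP) (p e : Fin m → ℕ) (r : Fin k → ℕ)
    (w0 : ZMod 3) (c : Fin m → ZMod 3) (u : Fin (m + 1) → ZMod 3) (i : Fin m) :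
    L3 h n π p e r c (u 0, ((fun i => u i.succ, 0) : EV m k)) i =
      ∑ b, Mt h n π p e w0 c i.succ b * u b := by
  rw [L3_apply, row, Fin.sum_univ_succ]
  have h1 : Mt h n π p e w0 c i.succ 0 = (e i : ZMod 3) * sym (π i).1 3 := rfl
  have h3 : ∑ j : Fin k, (0 : Fin k → ZMod 3) j * sym (π i).1 (r j : Eis) = 0 := by simp
  rw [h1]
  change (e i : ZMod 3) * (u 0 * sym (π i).1 3) + (_ + (e i : ZMod 3) *
    (∑ j : Fin k, (0 : Fin k → ZMod 3) j * sym (π i).1 (r j : Eis))) = _
  rw [h3, mul_zero, add_zero]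
  congr 1
  ring

theorem finrank_E3 (m k : ℕ) : Module.finrank (ZMod 3) (E3 m k) = 1 + (m + k) := by
  simp only [Module.finrank_prod, Module.finrank_fintype_fun_eq_card, Fintype.card_fin,
    Module.finrank_self]

theorem finrank_SS (h n : ℕ) {m k : ℕ} (π : Fin m → PP) (p e : Fin m → ℕ) (r : Fin k → ℕ)
    (w0 : ZMod 3) (c : Fin m → ZMod 3) (hh : h = 1 ∨ h = 2)
    (hdet : (Mt h n π p e w0 c).det ≠ 0) :
    Module.finrank (ZMod 3) (SS h n π p e r w0 c) + h = k + 2 := by
  unfold SS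
  rcases hh with rfl | rfl
  · rw [if_neg (by norm_num)]
    have hs : Function.Surjective (L3 1 n π p e r c : E3 m k →ₗ[ZMod 3] (Fin m → ZMod 3)) := by
      intro v
      obtain ⟨u, hu⟩ := solve _ hdet (Fin.cons 0 v)
      refine ⟨(u 0, ((fun i => u i.succ, 0) : EV m k)), ?_⟩
      funext i
      rw [L3_row 1 n π p e r w0 c u i, hu i.succ, Fin.cons_succ]
    have h1 := LinearMap.finrank_range_add_finrank_ker
      (L3 1 n π p e r c : E3 m k →ₗ[ZMod 3] (Fin m → ZMod 3))
    rw [LinearMap.range_eq_top.mpr hs, finrank_top, finrank_E3] at h1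
    simp only [Module.finrank_fintype_fun_eq_card, Fintype.card_fin] at h1
    omega
  · rw [if_pos rfl]
    have hs : Function.Surjective ((W3 p r + (wt ((n : ℤ) ^ 2) + w0) • A3 m k).prod
        (L3 2 n π p e r c) : E3 m k →ₗ[ZMod 3] (ZMod 3 × (Fin m → ZMod 3))) := by
      rintro ⟨t, v⟩
      obtain ⟨u, hu⟩ := solve _ hdet (Fin.cons t v)
      refine ⟨(u 0, ((fun i => u i.succ, 0) : EV m k)), ?_⟩
      refine Prod.ext ?_ ?_
      · have h1 := hu 0
        rw [Fin.sum_univ_succ, Fin.cons_zero] at h1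
        have h2 : Mt 2 n π p e w0 c 0 0 = wt ((n : ℤ) ^ 2) + w0 := by simp [Mt]
        have h3 : ∀ i : Fin m, Mt 2 n π p e w0 c 0 i.succ = wt ((p i : ℤ) ^ 2) := by
          intro i
          simp [Mt]
        change ((∑ i, u i.succ * wt ((p i : ℤ) ^ 2)) +
          ∑ j : Fin k, (0 : Fin k → ZMod 3) j * wt ((r j : ℤ) ^ 2)) +
            (wt ((n : ℤ) ^ 2) + w0) * u 0 = t
        have h4 : ∑ j : Fin k, (0 : Fin k → ZMod 3) j * wt ((r j : ℤ) ^ 2) = 0 := by simp
        rw [h4, add_zero, ← h1, h2, add_comm]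
        congr 1
        exact Finset.sum_congr rfl fun i _ => by rw [h3, mul_comm]
      · change L3 2 n π p e r c (u 0, ((fun i => u i.succ, 0) : EV m k)) = v
        funext i
        rw [L3_row 2 n π p e r w0 c u i, hu i.succ, Fin.cons_succ]
    have h1 := LinearMap.finrank_range_add_finrank_ker
      ((W3 p r + (wt ((n : ℤ) ^ 2) + w0) • A3 m k).prod
        (L3 2 n π p e r c) : E3 m k →ₗ[ZMod 3] (ZMod 3 × (Fin m → ZMod 3)))
    rw [LinearMap.range_eq_top.mpr hs, finrank_top, finrank_E3] at h1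
    simp only [Module.finrank_prod, Module.finrank_fintype_fun_eq_card, Fintype.card_fin,
      Module.finrank_self] at h1
    omega

/-! ### From exponent vectors to integers -/

/-- The number with given exponents. -/
def N3 {m k : ℕ} (p : Fin m → ℕ) (r : Fin k → ℕ) (u : E3 m k) : ℤ :=
  3 ^ u.1.val * (toN p r u.2 : ℤ)

/-- The exponent vector modulo `3`. -/
noncomputable def e3 {m k : ℕ} (p : Fin m → ℕ) (r : Fin k → ℕ) (x : ℤ) : E3 m k :=
  (lv x, ev p r x)

section

variable {n m k : ℕ} {π : Fin m → PP} {p e : Fin m → ℕ} {r f : Fin k → ℕ}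

theorem N3_ne (h : NF n π p e r f) (u : E3 m k) : N3 p r u ≠ 0 :=
  mul_ne_zero (pow_ne_zero _ (by norm_num)) (by exact_mod_cast toN_ne h u.2)

theorem N3_supp (h : NF n π p e r f) (u : E3 m k) (l : ℕ) (hl : l.Prime)
    (hd : (l : ℤ) ∣ N3 p r u) : l ∣ 3 * n := by
  rcases (Nat.prime_iff_prime_int.mp hl).dvd_mul.mp hd with h1 | h1
  · have h2 : (l : ℤ) ∣ ((3 : ℕ) : ℤ) := (Nat.prime_iff_prime_int.mp hl).dvd_of_dvd_pow h1
    exact Dvd.dvd.mul_right (Int.natCast_dvd_natCast.mp h2) _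
  · exact Dvd.dvd.mul_left (supp_toN h u.2 l hl h1) _

theorem lv_three_pow (hLCL : LCL) (a : ℕ) : lv ((3 : ℤ) ^ a) = a := by
  induction a with
  | zero =>
    rw [pow_zero, (hLCL.2.2.2.1 1 (by norm_num)).1]
    simp
  | succ a ih =>
    rw [pow_succ, (hLCL.2.1 _ _ (pow_ne_zero _ (by norm_num)) (by norm_num)).1, ih,
      hLCL.2.2.1.1]
    push_cast
    ring

theorem lv_N3 (hLCL : LCL) (h : NF n π p e r f) (u : E3 m k) : lv (N3 p r u) = u.1 := by
  unfold N3
  rw [(hLCL.2.1 _ _ (pow_ne_zero _ (by norm_num)) (by exact_mod_cast toN_ne h u.2)).1,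
    lv_three_pow hLCL, (hLCL.2.2.2.1 _ (three_toN h u.2)).1, add_zero, ZMod.natCast_zmod_val]

theorem val_three (l : ℕ) (hl : l.Prime) (h3 : l ≠ 3) (a : ℕ) :
    padicValInt l ((3 : ℤ) ^ a) = 0 := by
  have hl' : Fact l.Prime := ⟨hl⟩
  have h3' : Fact (Nat.Prime 3) := ⟨Nat.prime_three⟩
  rw [padicInt_pow l hl (by norm_num)]
  have h4 : padicValInt l (3 : ℤ) = 0 := by
    have h5 : padicValInt l ((3 : ℕ) : ℤ) = padicValNat l 3 := padicValInt.of_nat
    have h6 : ((3 : ℕ) : ℤ) = 3 := by norm_num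
    rw [h6] at h5
    rw [h5, padicValNat_primes h3]
  rw [h4, mul_zero]

theorem p_ne_three (h : NF n π p e r f) (i : Fin m) : p i ≠ 3 := by
  intro h1
  have h2 := h.p1 i
  rw [h1] at h2
  omega

theorem r_ne_three (h : NF n π p e r f) (j : Fin k) : r j ≠ 3 := by
  intro h1
  have h2 := h.r2 j
  rw [h1] at h2
  omega

theorem ev_mul_pow (h : NF n π p e r f) (a : ℕ) {x : ℤ} (hx : x ≠ 0) :
    ev p r (3 ^ a * x) = ev p r x := by
  refine Prod.ext ?_ ?_
  · funext i
    change ((padicValInt (p i) (3 ^ a * x) : ℕ) : ZMod 3) = (padicValInt (p i) x : ℕ)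
    rw [padicInt_mul _ (h.pp i) (pow_ne_zero _ (by norm_num)) hx,
      val_three _ (h.pp i) (p_ne_three h i), zero_add]
  · funext j
    change ((padicValInt (r j) (3 ^ a * x) : ℕ) : ZMod 3) = (padicValInt (r j) x : ℕ)
    rw [padicInt_mul _ (h.rp j) (pow_ne_zero _ (by norm_num)) hx,
      val_three _ (h.rp j) (r_ne_three h j), zero_add]

theorem e3_N3 (hLCL : LCL) (h : NF n π p e r f) (u : E3 m k) : e3 p r (N3 p r u) = u := by
  unfold e3
  rw [lv_N3 hLCL h u]
  unfold N3
  rw [ev_mul_pow h _ (by exact_mod_cast toN_ne h u.2), ev_toN h]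

theorem lv_pow (hLCL : LCL) {x : ℤ} (hx : x ≠ 0) (a : ℕ) : lv (x ^ a) = (a : ZMod 3) * lv x := by
  induction a with
  | zero =>
    rw [pow_zero, (hLCL.2.2.2.1 1 (by norm_num)).1]
    simp
  | succ a ih =>
    rw [pow_succ, (hLCL.2.1 _ _ (pow_ne_zero _ hx) hx).1, ih]
    push_cast
    ring

theorem lv_prod (hLCL : LCL) {s : ℕ} (x : Fin s → ℤ) (hx : ∀ i, x i ≠ 0) (g : Fin s → ℕ) :
    lv (∏ i, x i ^ g i) = ∑ i, (g i : ZMod 3) * lv (x i) := by
  classical
  have key : ∀ t : Finset (Fin s), lv (∏ i ∈ t, x i ^ g i) =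
      ∑ i ∈ t, (g i : ZMod 3) * lv (x i) := by
    intro t
    induction t using Finset.induction_on with
    | empty => rw [Finset.prod_empty, Finset.sum_empty, (hLCL.2.2.2.1 1 (by norm_num)).1]
    | insert a t ha ih =>
      rw [Finset.prod_insert ha, Finset.sum_insert ha, (hLCL.2.1 _ _ (pow_ne_zero _ (hx a))
        (Finset.prod_ne_zero_iff.mpr fun i _ => pow_ne_zero _ (hx i))).1, ih,
        lv_pow hLCL (hx a)]
  exact key Finset.univ

theorem e3_prod (hLCL : LCL) (h : NF n π p e r f) {s : ℕ} (x : Fin s → ℤ) (hx : ∀ i, x i ≠ 0)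
    (g : Fin s → ℕ) : e3 p r (∏ i, x i ^ g i) = ∑ i, (g i : ZMod 3) • e3 p r (x i) := by
  refine Prod.ext ?_ ?_
  · rw [Prod.fst_sum]
    exact lv_prod hLCL x hx g
  · rw [Prod.snd_sum]
    exact ev_prod h x hx g

theorem e3_cube (hLCL : LCL) (h : NF n π p e r f) (t : ℤ) (ht : t ≠ 0) :
    e3 p r (t ^ 3) = 0 := by
  refine Prod.ext ?_ (ev_cube h t ht)
  change lv (t ^ 3) = 0
  rw [lv_pow hLCL ht]
  have h3 : ((3 : ℕ) : ZMod 3) = 0 := ZMod.natCast_self 3
  rw [h3, zero_mul]

theorem val_N3_le (h : NF n π p e r f) (u : E3 m k) (l : ℕ) (hl : l.Prime) :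
    padicValInt l (N3 p r u) ≤ 2 := by
  have h0 : (toN p r u.2 : ℤ) ≠ 0 := by exact_mod_cast toN_ne h u.2
  unfold N3
  rw [padicInt_mul l hl (pow_ne_zero _ (by norm_num)) h0]
  by_cases h3 : l = 3
  · subst h3
    have h1 : padicValInt 3 (toN p r u.2 : ℤ) = 0 := padicValInt.eq_zero_of_not_dvd (three_toN h u.2)
    have h2 : padicValInt 3 (3 : ℤ) = 1 := by
      have h3' : Fact (Nat.Prime 3) := ⟨Nat.prime_three⟩
      have h5 : padicValInt 3 ((3 : ℕ) : ℤ) = padicValNat 3 3 := padicValInt.of_nat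
      rw [padicValNat_self] at h5
      exact h5
    rw [h1, padicInt_pow 3 hl (by norm_num), h2]
    have := zval_le u.1
    omega
  · rw [val_three l hl h3, zero_add, padicValInt.of_nat]
    exact val_le h u.2 l hl

theorem V_N3_le (hSPP : SPP) (h : NF n π p e r f) (u : E3 m k) (ρ : PP) :
    V ρ.1 (N3 p r u : Eis) ≤ 2 := by
  obtain ⟨l, hl, hle⟩ := V_le hSPP ρ (N3_ne h u)
  exact hle.trans (val_N3_le h u l hl)

theorem not_three_N3 (h : NF n π p e r f) (u : E3 m k) (hu : u.1 = 0) :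
    ¬ (3 : ℤ) ∣ N3 p r u := by
  unfold N3
  rw [hu, ZMod.val_zero, pow_zero, one_mul]
  exact three_toN h u.2

/-- The symbol as a function of the exponent vector. -/
theorem sym_eq (hSPP : SPP) (h : NF n π p e r f) (ρ : PP)
    (hρ : ¬ ρ.1 ∣ (n : Eis)) {x : ℤ}
    (hx : x ≠ 0) (hs : ∀ l : ℕ, l.Prime → (l : ℤ) ∣ x → l ∣ 3 * n) :
    sym ρ.1 (x : Eis) = (e3 p r x).1 * sym ρ.1 3 +
      EHPL.Fm (fun i => ch ρ.1 (p i : Eis)) (fun j => ch ρ.1 (r j : Eis)) (e3 p r x).2 := by
  have hcast : ∀ a : ℤ, a ≠ 0 → (a : Eis) ≠ 0 := by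
    intro a ha h0
    apply ha
    have := congrArg Eis.re h0
    simpa using this
  have h3' : Fact (Nat.Prime 3) := ⟨Nat.prime_three⟩
  obtain ⟨y, hy⟩ : (3 : ℤ) ^ padicValInt 3 x ∣ x := by
    have := padicValInt_dvd (p := 3) x
    exact_mod_cast this
  have hy0 : y ≠ 0 := by
    rintro rfl
    rw [mul_zero] at hy
    exact hx hy
  have hy3 : ¬ (3 : ℤ) ∣ y := by
    rintro ⟨z, hz⟩
    have hz0 : z ≠ 0 := by
      rintro rfl
      rw [mul_zero] at hz
      exact hy0 hz
    have h1 : x = 3 ^ (padicValInt 3 x + 1) * z := by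
      rw [pow_succ, mul_assoc, ← hz]
      exact hy
    have h2 : padicValInt 3 (3 : ℤ) = 1 := by
      have h5 : padicValInt 3 ((3 : ℕ) : ℤ) = padicValNat 3 3 := padicValInt.of_nat
      rw [padicValNat_self] at h5
      exact h5
    have h4 := congrArg (padicValInt 3) h1
    rw [padicInt_mul 3 Nat.prime_three (pow_ne_zero _ (by norm_num)) hz0,
      padicInt_pow 3 Nat.prime_three (by norm_num), h2] at h4
    omega
  have hys : ∀ l : ℕ, l.Prime → (l : ℤ) ∣ y → l ∣ n := by
    intro l hl hd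
    have h1 : l ∣ 3 * n := hs l hl (by rw [hy]; exact Dvd.dvd.mul_left hd _)
    rcases hl.dvd_mul.mp h1 with h2 | h2
    · exfalso
      have h4 : l = 3 := (Nat.prime_dvd_prime_iff_eq hl Nat.prime_three).mp h2
      rw [h4] at hd
      exact hy3 (by exact_mod_cast hd)
    · exact h2
  have hρ3 : ¬ ρ.1 ∣ 3 := (hSPP.2.2.2.1 ρ).1
  have hxd : ¬ ρ.1 ∣ (x : Eis) := by
    rw [hy]
    push_cast
    intro hd
    rcases ρ.2.1.dvd_mul.mp hd with h1 | h1
    · exact hρ3 (ρ.2.1.dvd_of_dvd_pow h1)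
    · exact EHPL.not_dvd hSPP ρ hρ hys h1
  have hpow : ∀ a : ℕ, ch ρ.1 ((3 : Eis) ^ a) = (a : ZMod 3) * sym ρ.1 3 := by
    intro a
    induction a with
    | zero =>
      have h1 : ch ρ.1 (1 : Eis) = 0 := by
        have h2 := EVEC.ch_mul ρ.2.1 hρ3 (a := 1) (b := 1) one_ne_zero one_ne_zero
        rw [mul_one] at h2
        exact left_eq_add.mp h2
      rw [pow_zero, h1]
      simp
    | succ a ih =>
      rw [pow_succ, EVEC.ch_mul ρ.2.1 hρ3 (pow_ne_zero _ (by decide)) (by decide), ih,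
        EVEC.ch_not_dvd ρ.2.1 hρ3]
      push_cast
      ring
  have h5 : sym ρ.1 (x : Eis) = (padicValInt 3 x : ZMod 3) * sym ρ.1 3 + sym ρ.1 (y : Eis) := by
    rw [← EVEC.ch_not_dvd ρ.2.1 hxd, ← EVEC.ch_not_dvd ρ.2.1 (EHPL.not_dvd hSPP ρ hρ hys), ← hpow,
      ← EVEC.ch_mul ρ.2.1 hρ3 (pow_ne_zero _ (by decide)) (hcast y hy0)]
    congr 1
    conv_lhs => rw [hy]
    push_cast
    rfl
  have h6 : ev p r x = ev p r y := by
    conv_lhs => rw [hy]
    exact ev_mul_pow h _ hy0
  rw [h5, EHPL.sym_eq hSPP h ρ hρ hy0 hys]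
  change _ = lv x * sym ρ.1 3 + EHPL.Fm (fun i => ch ρ.1 (p i : Eis))
    (fun j => ch ρ.1 (r j : Eis)) (ev p r x)
  rw [h6]
  rfl

end

end EHPT

open EHPT EBAS in
/-- EHPT: bases of the admissible classes adapted to a hyperplane. -/
theorem EHPT_thm (hEVET : EVET) (_hSTM : STM) (hSPP : SPP) (hLPT : LPT) (hLCL : LCL) : EHPT := by
  classical
  intro h n m k π p e r f w0 c hNF hh hdet
  obtain ⟨hE1, hE2⟩ := hEVET h n m k π p e r f w0 c hNF
  have hadm : ∀ x : ℤ, x ≠ 0 → (∀ l : ℕ, l.Prime → (l : ℤ) ∣ x → l ∣ 3 * n) →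
      (AdC h n π w0 c x ↔ e3 p r x ∈ SS h n π p e r w0 c) := by
    intro x h1 h2
    rw [(hE1 x h1 h2).1, mem_SS]
    refine and_congr (forall_congr' fun i => ?_) (Iff.rfl)
    rw [L3_apply]
    change _ ↔ (e i : ZMod 3) * (lv x * sym (π i).1 3) +
      ((e i : ZMod 3) * (∑ i', (padicValInt (p i') x : ZMod 3) *
          (if i' = i then sym (π i).1 (conj (π i).1) else sym (π i).1 (p i' : Eis))) +
        (e i : ZMod 3) * (∑ j, (padicValInt (r j) x : ZMod 3) * sym (π i).1 (r j : Eis)) -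
        (padicValInt (p i) x : ZMod 3) * (ch (π i).1 ((3 ^ h * n : ℕ) : Eis) + c i)) = 0
    rw [← add_sub_assoc, ← add_assoc]
  set S : Submodule (ZMod 3) (E3 m k) := SS h n π p e r w0 c with hS
  have hSk : Module.finrank (ZMod 3) S + h = k + 2 := finrank_SS h n π p e r w0 c hh hdet
  have hadmB : ∀ u : S, AdC h n π w0 c (N3 p r (u : E3 m k)) := by
    intro u
    rw [hadm _ (N3_ne hNF _) (N3_supp hNF _), e3_N3 hLCL hNF]
    exact u.2
  have hlw : ∀ u : E3 m k, lw (N3 p r u) = Wm p r u.2 := by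
    intro u
    rw [(hE1 _ (N3_ne hNF _) (N3_supp hNF _)).2]
    change Wm p r (ev p r (N3 p r u)) = Wm p r u.2
    have h1 := e3_N3 hLCL hNF u
    have h2 : ev p r (N3 p r u) = u.2 := congrArg Prod.snd h1
    rw [h2]
  let B0 : Module.Basis (Fin (Module.finrank (ZMod 3) S)) (ZMod 3) S :=
    Module.finBasisOfFinrankEq (ZMod 3) S rfl
  refine ⟨_, fun i => N3 p r (B0 i : E3 m k), hSk, fun i => hadmB _, fun δ hδ => ?_⟩
  let D : S →ₗ[ZMod 3] ZMod 3 := B0.constr (ZMod 3) δ
  have hDB : ∀ i, D (B0 i) = δ i := fun i => B0.constr_basis (ZMod 3) δ i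
  have hD : D ≠ 0 := by
    intro h0
    apply hδ
    funext i
    rw [← hDB i, h0]
    rfl
  let A : S →ₗ[ZMod 3] ZMod 3 := (A3 m k).comp S.subtype
  let W : S →ₗ[ZMod 3] ZMod 3 := (W3 p r).comp S.subtype
  have hβ : (h : ZMod 3) ≠ 0 := by
    rcases hh with rfl | rfl <;> decide
  have hWA : h = 1 ∨ ∀ x : S, W x * (h : ZMod 3) = A x * (wt ((n : ℤ) ^ 2) + w0) := by
    rcases hh with h1 | h2
    · exact Or.inl h1
    · right
      intro x
      have h3 := ((mem_SS h n π p e r w0 c (x : E3 m k)).mp x.2).2 h2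
      have h4 : W x + A x * (wt ((n : ℤ) ^ 2) + w0) = 0 := h3
      have h5 : (h : ZMod 3) = -1 := by rw [h2]; decide
      rw [h5, eq_neg_of_add_eq_zero_left h4]
      ring
  obtain ⟨s, b', τ, hs, hli, hsp, ht0, ht1, ht2, hinj, hA'⟩ := family
    (M := LinearMap.ker D) (A.comp (LinearMap.ker D).subtype) (W.comp (LinearMap.ker D).subtype)
    (h : ZMod 3) (wt ((n : ℤ) ^ 2) + w0) hβ (h = 1) (by
      rcases hWA with h1 | h1
      · exact Or.inl h1
      · exact Or.inr fun x => h1 (x : S))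
  have hrk : Module.finrank (ZMod 3) (LinearMap.ker D) + 1 = Module.finrank (ZMod 3) S := by
    have h1 := LinearMap.finrank_range_add_finrank_ker D
    rw [LinearMap.range_eq_top.mpr (LinearMap.surjective hD), finrank_top,
      Module.finrank_self] at h1
    omega
  have hDb : ∀ i, D (b' i : S) = 0 := fun i => LinearMap.mem_ker.mp (b' i).2
  obtain ⟨y0, hy0⟩ : ∃ y, D y ≠ 0 := by
    by_contra hc
    push Not at hc
    exact hD (LinearMap.ext hc)
  obtain ⟨y, hy, hyA⟩ : ∃ y : S, D y ≠ 0 ∧ (A y = 0 ∨ ∀ i, A (b' i : S) = 0) := by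
    by_cases h1 : ∀ i, A (b' i : S) = 0
    · exact ⟨y0, hy0, Or.inr h1⟩
    · push Not at h1
      obtain ⟨i0, hi0⟩ := h1
      refine ⟨y0 - (A y0 / A (b' i0 : S)) • (b' i0 : S), ?_, Or.inl ?_⟩
      · rw [map_sub, map_smul, hDb, smul_zero, sub_zero]
        exact hy0
      · rw [map_sub, map_smul, smul_eq_mul, div_mul_cancel₀ _ hi0, sub_self]
  let b : Fin (s + 1) → S := Fin.snoc (α := fun _ => S) (fun i => (b' i : S)) y
  have hb1 : ∀ i : Fin s, b i.castSucc = (b' i : S) := fun i =>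
    Fin.snoc_castSucc (α := fun _ => S) _ _ _
  have hb2 : b (Fin.last s) = y := Fin.snoc_last (α := fun _ => S) _ _
  have hbli : ∀ g : Fin (s + 1) → ZMod 3, ∑ i, g i • b i = 0 → ∀ i, g i = 0 := by
    intro g hg
    rw [Fin.sum_univ_castSucc, hb2] at hg
    simp only [hb1] at hg
    have hl : g (Fin.last _) = 0 := by
      have h1 := congrArg D hg
      rw [map_add, map_sum, map_smul, map_zero, smul_eq_mul] at h1
      have h2 : ∑ i, D (g (Fin.castSucc i) • (b' i : S)) = 0 :=
        Finset.sum_eq_zero fun i _ => by rw [map_smul, hDb, smul_zero]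
      rw [h2, zero_add] at h1
      exact (mul_eq_zero.mp h1).resolve_right hy
    rw [hl, zero_smul, add_zero] at hg
    have h3 : ∑ i, g (Fin.castSucc i) • b' i = 0 := by
      apply Subtype.ext
      rw [AddSubmonoidClass.coe_finsetSum]
      exact hg
    have h4 := hli _ h3
    intro i
    induction i using Fin.lastCases with
    | last => exact hl
    | cast i => exact h4 i
  have hbA : ∀ i j, i ≠ j → A (b i) = 0 ∨ A (b j) = 0 := by
    intro i j hij
    induction i using Fin.lastCases with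
    | last =>
      induction j using Fin.lastCases with
      | last => exact absurd rfl hij
      | cast j =>
        rw [hb2, hb1]
        rcases hyA with h1 | h1
        · exact Or.inl h1
        · exact Or.inr (h1 j)
    | cast i =>
      induction j using Fin.lastCases with
      | last =>
        rw [hb2, hb1]
        rcases hyA with h1 | h1
        · exact Or.inr h1
        · exact Or.inl (h1 i)
      | cast j =>
        rw [hb1, hb1]
        exact hA' i j fun h1 => hij (congrArg _ h1)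
  have hLV : ∀ i : Fin s, lv (N3 p r ((b' i : S) : E3 m k)) = A (b' i : S) := fun i =>
    lv_N3 hLCL hNF _
  have hLW : ∀ i : Fin s, lw (N3 p r ((b' i : S) : E3 m k)) = W (b' i : S) := fun i => hlw _
  have hXY : ∀ i : Fin s, ∃ X Y : ℤ, (τ i ≠ 2 → X = 1 ∧ Y = 0) ∧ (τ i = 2 → X ≠ 0 ∧ Y ≠ 0 ∧
      X ^ 3 + N3 p r ((b' i : S) : E3 m k) * Y ^ 3 ≠ 0 ∧
      lv (N3 p r ((b' i : S) : E3 m k) * (X ^ 3 + N3 p r ((b' i : S) : E3 m k) * Y ^ 3)) = 1 ∧
      lw (N3 p r ((b' i : S) : E3 m k) * (X ^ 3 + N3 p r ((b' i : S) : E3 m k) * Y ^ 3)) =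
        wt ((n : ℤ) ^ 2) + w0) := by
    intro i
    by_cases hi : τ i = 2
    · obtain ⟨X, Y, h1⟩ := hLPT (N3 p r ((b' i : S) : E3 m k)) (wt ((n : ℤ) ^ 2) + w0)
        (N3_ne hNF _) (by rw [hLV, hLW]; exact (ht2 i hi).2)
      exact ⟨X, Y, fun h2 => absurd hi h2, fun _ => h1⟩
    · exact ⟨1, 0, fun _ => ⟨rfl, rfl⟩, fun h2 => absurd h2 hi⟩
  choose X Y hXY1 hXY2 using hXY
  have h12 : (1 : Fin 3) ≠ 2 := by decide
  refine ⟨s, τ, fun i => N3 p r (b i : E3 m k), X, Y, by omega, fun i => hadmB _,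
    fun i π' => V_N3_le hSPP hNF _ π', fun g hg => ?_, fun i j hij => ?_, fun B hB => ?_,
    fun ρ hρ hρ0 hρ1 => ?_⟩
  · rintro ⟨t, ht⟩
    have hprod : ∏ i, N3 p r (b i : E3 m k) ^ g i ≠ 0 :=
      Finset.prod_ne_zero_iff.mpr fun i _ => pow_ne_zero _ (N3_ne hNF _)
    have ht0 : t ≠ 0 := by
      rintro rfl
      apply hprod
      rw [← ht]
      norm_num
    have h1 := e3_prod hLCL hNF (fun i => N3 p r (b i : E3 m k)) (fun i => N3_ne hNF _) g
    rw [← ht, e3_cube hLCL hNF t ht0] at h1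
    simp only [e3_N3 hLCL hNF] at h1
    have h2 : ∑ i, (g i : ZMod 3) • b i = 0 := by
      apply Subtype.ext
      rw [AddSubmonoidClass.coe_finsetSum]
      exact h1.symm
    have h3 := hbli _ h2
    obtain ⟨i, hi⟩ := hg
    exact hi ((ZMod.natCast_eq_zero_iff _ _).mp (h3 i))
  · rcases hbA i j hij with h2 | h2
    · exact Or.inl (not_three_N3 hNF _ h2)
    · exact Or.inr (not_three_N3 hNF _ h2)
  · obtain ⟨hB0, hB1, hB2⟩ := hB
    have hrv : ∀ i : Fin s, rv (fun i => N3 p r (b i : E3 m k)) i =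
        N3 p r ((b' i : S) : E3 m k) := by
      intro i
      change N3 p r (b i.castSucc : E3 m k) = _
      rw [hb1]
    refine ⟨fun i hi => ?_, fun i hi => ?_, fun i hi => ?_, fun i j hij hi => ?_⟩
    · rw [hrv, hLCL.1 _ (N3_ne hNF _), hLV, hLW]
      exact ht0 i hi
    · obtain ⟨h1, h2⟩ := ht1 i hi
      have h3 : A (b' i : S) = h := h1
      have h4 : W (b' i : S) = wt ((n : ℤ) ^ 2) + w0 := h2
      rw [hrv, hLCL.1 _ (N3_ne hNF _), hLV, hLW, hB1, hB2, h3, h4]
      exact ⟨fun h5 => hβ h5.1, rfl, rfl, hXY1 i (by rw [hi]; exact h12)⟩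
    · obtain ⟨h1, h2⟩ := ht2 i hi
      obtain ⟨h3, h4, h5, h6, h7⟩ := hXY2 i hi
      rw [hrv, hLCL.1 _ (N3_ne hNF _), hLV, hLW, hB1]
      refine ⟨h2, by rw [h1]; decide, ⟨h3, h4, h5, ?_, ?_⟩⟩
      · rw [h6, hB1, h1]
        decide
      · rw [h7, hB2]
    · exact hinj i j hij hi
  · let F : S →ₗ[ZMod 3] ZMod 3 := sym ρ.1 3 • A +
      (EHPL.Fm (fun i => ch ρ.1 (p i : Eis)) (fun j => ch ρ.1 (r j : Eis))).comp
        ((LinearMap.snd (ZMod 3) (ZMod 3) (EV m k)).comp S.subtype)
    have hF : ∀ u : S, sym ρ.1 (N3 p r (u : E3 m k) : Eis) = F u := by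
      intro u
      rw [EHPT.sym_eq hSPP hNF ρ hρ (N3_ne hNF _) (N3_supp hNF _), e3_N3 hLCL hNF]
      change (u : E3 m k).1 * sym ρ.1 3 + _ = sym ρ.1 3 * (u : E3 m k).1 + _
      rw [mul_comm]
      rfl
    have hspan : ∀ x : S, D x = 0 → ∃ g : Fin s → ZMod 3, x = ∑ i, g i • b i.castSucc := by
      intro x hx
      obtain ⟨g, hg⟩ := hsp ⟨x, LinearMap.mem_ker.mpr hx⟩
      refine ⟨g, ?_⟩
      simp only [hb1]
      have h3 := congrArg (fun z : LinearMap.ker D => (z : S)) hg
      simp only [AddSubmonoidClass.coe_finsetSum] at h3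
      exact h3
    have hF0 : ∀ u : S, D u = 0 → F u = 0 := by
      intro u hu
      obtain ⟨g, hg⟩ := hspan u hu
      rw [hg, map_sum]
      refine Finset.sum_eq_zero fun i _ => ?_
      rw [map_smul, ← hF, hρ0 i, smul_zero]
    obtain ⟨ε, hε, hFD⟩ := EHPL.form_eq D F hF0 (b (Fin.last s)) (by rw [hb2]; exact hy)
      (by rw [← hF]; exact hρ1)
    refine ⟨⟨ε, hε, fun i => ?_⟩, fun x hx hx0 => ?_⟩
    · rw [hF, hFD, hDB]
    · have hxS : e3 p r x ∈ S := (hadm x hx.ne hx.supp).mp hx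
      have hDx : D ⟨e3 p r x, hxS⟩ = 0 := by
        have h1 := hFD ⟨e3 p r x, hxS⟩
        have h2 : F ⟨e3 p r x, hxS⟩ = 0 := by
          rw [EHPT.sym_eq hSPP hNF ρ hρ hx.ne hx.supp] at hx0
          change sym ρ.1 3 * (e3 p r x).1 + EHPL.Fm (fun i => ch ρ.1 (p i : Eis))
            (fun j => ch ρ.1 (r j : Eis)) (e3 p r x).2 = 0
          rw [mul_comm]
          exact hx0
        rw [h2] at h1
        exact (mul_eq_zero.mp h1.symm).resolve_left hε
      obtain ⟨g, hg⟩ := hspan _ hDx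
      have hne : ∏ i : Fin s, N3 p r (b i.castSucc : E3 m k) ^ (g i).val ≠ 0 :=
        Finset.prod_ne_zero_iff.mpr fun i _ => pow_ne_zero _ (N3_ne hNF _)
      have h1 := e3_prod hLCL hNF (fun i : Fin s => N3 p r (b i.castSucc : E3 m k))
        (fun i => N3_ne hNF _) (fun i => (g i).val)
      simp only [e3_N3 hLCL hNF, ZMod.natCast_zmod_val] at h1
      have h2 : e3 p r x = e3 p r (∏ i : Fin s, N3 p r (b i.castSucc : E3 m k) ^ (g i).val) := by
        rw [h1]
        have h3 := congrArg (fun z : S => (z : E3 m k)) hg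
        simp only [AddSubmonoidClass.coe_finsetSum] at h3
        exact h3
      obtain ⟨u, t, hu, ht, hut⟩ := (hE2 x _ hx.ne hne hx.supp (fun l hl hd => by
          obtain ⟨i, -, hi⟩ := (Nat.prime_iff_prime_int.mp hl).dvd_finsetProd_iff _ |>.mp hd
          exact N3_supp hNF _ l hl ((Nat.prime_iff_prime_int.mp hl).dvd_of_dvd_pow hi))).mpr
        ⟨congrArg Prod.fst h2, fun i => congrFun (congrArg (fun z => z.2.1) h2) i,
          fun j => congrFun (congrArg (fun z => z.2.2) h2) j⟩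
      exact ⟨fun i => (g i).val, u, t, hu, ht, hut⟩

end Pool.Agent.PT3
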