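import Pool.Agent.PT3.Stmts

/-!
# PT3, EMA0: the number of the classes with an invertible matrix
-/

namespace Pool.Agent.PT3

open Pool.Agent.PT Pool.Agent.PTE

namespace EMA0

/-- The matrix of a class is the matrix of the class `0` minus a diagonal matrix. -/
theorem Mp_eq (n m k : ℕ) (π : Fin m → PP) (p e : Fin m → ℕ) (r : Fin k → ℕ)
    (c : Fin m → ZMod 3) :
    Mp n π p e r none c =
      Mp n π p e r none (fun _ => 0) -
        Matrix.diagonal (Fin.cons 0 c : Fin (m + 1) → ZMod 3) := by
  ext a b
  rw [Matrix.sub_apply, Matrix.diagonal_apply]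
  refine Fin.cases ?_ (fun i => ?_) a
  · rw [Fin.cons_zero, ite_self, sub_zero]
    rfl
  · refine Fin.cases ?_ (fun i' => ?_) b
    · rw [if_neg (Fin.succ_ne_zero i), sub_zero]
      rfl
    · by_cases h : i' = i
      · subst h
        rw [if_pos rfl, Fin.cons_succ]
        simp only [Mp, Fin.cases_succ, if_true, sub_zero]
      · rw [if_neg (fun h' => h (Fin.succ_injective _ h').symm), sub_zero]
        simp only [Mp, Fin.cases_succ, if_neg h]

end EMA0

theorem EMA0_thm (hEDC : EDC) : EMA0 := by
  intro n m k π p e r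
  have h := hEDC m (Mp n π p e r none (fun _ => 0)) (by
    have : Mp n π p e r none (fun _ => 0) 0 0 = 1 := rfl
    rw [this]
    exact one_ne_zero)
  refine h.trans (le_of_eq (Nat.card_congr (Equiv.subtypeEquivRight fun c => ?_)))
  rw [EMA0.Mp_eq n m k π p e r c]

end Pool.Agent.PT3
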