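import Pool.Agent.PT3.Stmts

/-!
# EMAX: the number of the classes such that the matrix is invertible
-/

namespace Pool.Agent.PT3

open Pool.Agent.Lib_helper18 Pool.Agent.Lib_helper18.Eis Pool.Agent.Lib_helper84.Cub
open Pool.Agent.PT Pool.Agent.PTE

namespace EMAX

theorem Mt_eq (h n : ℕ) {m : ℕ} (π : Fin m → PP) (p e : Fin m → ℕ) (w0 : ZMod 3)
    (c : Fin m → ZMod 3) :
    Mt h n π p e w0 c = Mt h n π p e w0 0 -
      Matrix.diagonal (Fin.cons 0 c : Fin (m + 1) → ZMod 3) := by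
  ext a b
  rw [Matrix.sub_apply]
  refine Fin.cases ?_ (fun i => ?_) a
  · have h0 : (Matrix.diagonal (Fin.cons 0 c : Fin (m + 1) → ZMod 3)) 0 b = 0 := by
      by_cases hb : (0 : Fin (m + 1)) = b
      · rw [← hb, Matrix.diagonal_apply_eq, Fin.cons_zero]
      · rw [Matrix.diagonal_apply_ne _ hb]
    rw [h0, sub_zero]
    rfl
  · refine Fin.cases ?_ (fun i' => ?_) b
    · rw [Matrix.diagonal_apply_ne _ (Fin.succ_ne_zero i), sub_zero]
      rfl
    · by_cases h1 : i' = i
      · subst h1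
        rw [Matrix.diagonal_apply_eq, Fin.cons_succ]
        simp [Mt]
      · have h' : i.succ ≠ i'.succ := fun h2 => h1 (Fin.succ_injective _ h2).symm
        rw [Matrix.diagonal_apply_ne _ h', sub_zero]
        simp [Mt, h1]

end EMAX

open EMAX in
theorem EMAX_thm (hEDC : EDC) : EMAX := by
  intro h n m π p e w0 hw
  have h0 : Mt h n π p e w0 0 0 0 ≠ 0 := by
    have h1 : Mt h n π p e w0 0 0 0 = if h = 2 then wt ((n : ℤ) ^ 2) + w0 else 1 := rfl
    rw [h1]
    split_ifs with h2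
    · exact hw h2
    · exact one_ne_zero
  have h3 : ∀ c : Fin m → ZMod 3, (Mt h n π p e w0 0 -
      Matrix.diagonal (Fin.cons 0 c : Fin (m + 1) → ZMod 3)).det ≠ 0 ↔
      (Mt h n π p e w0 c).det ≠ 0 := fun c => by
    rw [Mt_eq h n π p e w0 c]
  exact (hEDC m _ h0).trans_eq (Nat.card_congr (Equiv.subtypeEquivRight h3))

end Pool.Agent.PT3
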