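import Pool.Agent.PT3.Stmts
import Pool.Agent.PT.ESYS

/-!
# ESYT: from a basis to a system with solutions, `n` divisible by `3`
-/

set_option linter.unusedVariables false

open Finset

namespace Pool.Agent.PT3

open Pool.Agent.Lib_helper18 Pool.Agent.Lib_helper18.Eis Pool.Agent.Lib_helper84.Cub
open Pool.Agent.PT Pool.Agent.PTE

namespace ESYT

/-- the symbols of two admissible classes -/
theorem tm_zero (hSPP : SPP) (hSCJ : SCJ) {h n m k : ℕ} {π : Fin m → PP} {p e : Fin m → ℕ}
    {r f : Fin k → ℕ} {w0 : ZMod 3} {c : Fin m → ZMod 3} (hN : NF n π p e r f) {x y : ℤ}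
    (hx : AdC h n π w0 c x) (hy : AdC h n π w0 c y) (ρ : PP) :
    tm ρ.1 (x : Eis) (y : Eis) = 0 := by
  obtain ⟨-, hS2, -, hS4, -, hS6⟩ := hSPP
  obtain ⟨hC1, -, -, hC4⟩ := hSCJ
  obtain ⟨l, hl, ⟨hl3, hρ⟩ | ⟨hl3, hnorm, hn, hna⟩⟩ := hS6 ρ
  · rw [hρ]
    exact hC4 l hl hl3 x y hx.ne hy.ne
  by_cases hln : l ∣ n
  · rcases PT.ESYS.prime_cases hN hl hln with ⟨i, rfl⟩ | ⟨j, rfl⟩
    · -- the key computation
      have key : ∀ σ : PP, σ = π i → σ.1.norm = p i → (p i : Eis) = σ.1 * conj σ.1 →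
          ¬ Associated σ.1 (conj σ.1) → tm σ.1 (x : Eis) (y : Eis) = 0 := by
        intro σ hσ h1 h2 h3
        have hV := PT.ESYS.V_n hN i σ.2.1 h1 h2 h3
        have e1 := hx.sym i
        have e2 := hy.sym i
        rw [← hσ, hV] at e1 e2
        have h4 : (e i : ZMod 3) * tm σ.1 (x : Eis) (y : Eis) = 0 := by
          unfold tm
          linear_combination (V σ.1 (y : Eis) : ZMod 3) * e1 - (V σ.1 (x : Eis) : ZMod 3) * e2
        rcases hN.pe i with h5 | h5
        · rw [h5] at h4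
          simpa using h4
        · rw [h5] at h4
          generalize tm σ.1 (x : Eis) (y : Eis) = z at h4
          revert z
          decide
      have hd : ρ.1 ∣ (π i).1 * conj (π i).1 := by
        rw [← hN.pπ i, hn]
        exact Dvd.intro _ rfl
      rcases ρ.2.1.dvd_or_dvd hd with h1 | h1
      · have h2 := hS2 ρ (π i) ((ρ.2.1.dvd_prime_iff_associated (π i).2.1).1 h1)
        exact key ρ h2 hnorm hn hna
      · obtain ⟨σ, hσ⟩ := (hS4 (π i)).2
        have h2 : ρ = σ := by
          apply hS2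
          rw [hσ]
          exact (ρ.2.1.dvd_prime_iff_associated (prime_conj (π i).2.1)).1 h1
        have h3 : (π i).1 = conj ρ.1 := by rw [h2, hσ, conj_conj]
        have h4 := key (π i) rfl (by rw [h3, norm_conj, hnorm])
          (by rw [h3, conj_conj, mul_comm, ← hn])
          (by
            rw [h3, conj_conj]
            exact fun h => hna h.symm)
        have h5 : ¬ (π i).1 ∣ 3 := (hS4 (π i)).1
        have h6 := hC1 (π i).1 (x : Eis) (y : Eis) (π i).2.1 h5 (PT.ESYS.cast_ne hx.ne)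
          (PT.ESYS.cast_ne hy.ne)
        rw [h4, neg_zero, conj_intCast, conj_intCast, h3, conj_conj] at h6
        exact h6
    · have := hN.r2 j
      omega
  · have hnd : ∀ z : ℤ, AdC h n π w0 c z → V ρ.1 (z : Eis) = 0 := by
      intro z hz
      apply V_eq_zero
      intro hd
      have h1 := hz.supp l hl (PT.ESYS.dvd_int hl hnorm hd)
      rcases hl.dvd_mul.1 h1 with h2 | h2
      · have h3 := (Nat.prime_dvd_prime_iff_eq hl Nat.prime_three).1 h2
        omega
      · exact hln h2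
    unfold tm
    rw [hnd x hx, hnd y hy]
    simp

end ESYT

theorem ESYT_thm (hSTM : STM) (hSPP : SPP) (hSCJ : SCJ) (hHNT : HNT) : ESYT := by
  classical
  intro h n m k π p e r f w0 c s b hNF hA hV hind h3
  have hnc : ∀ i, ¬ ∃ t : ℤ, t ^ 3 = b i := by
    intro i
    have := hind (fun j => if j = i then 1 else 0) ⟨i, by simp⟩
    simpa [Finset.prod_ite_eq'] using this
  have hex1 : ∀ j i : Fin s, ¬ (3 : ℤ) ∣ b j → ∃ P Q P' Q' : ℤ, Sol (b j) (b i) P Q P' Q' := by
    intro j i hj
    obtain ⟨P, Q, P', Q', h⟩ := hHNT (b j) (b i) (hA j).ne hj (hnc j) (hV j) (hA i).ne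
      (fun ρ => ESYT.tm_zero hSPP hSCJ hNF (hA j) (hA i) ρ)
    exact ⟨P, Q, P', Q', PT.ESYS.sol_of h (hA j).ne (hnc i)⟩
  have hex : ∀ j i : Fin s, ∃ P Q P' Q' : ℤ, j ≠ i → Sol (b j) (b i) P Q P' Q' := by
    intro j i
    by_cases hji : j = i
    · exact ⟨0, 0, 0, 0, fun h => absurd hji h⟩
    · rcases h3 j i hji with h4 | h4
      · obtain ⟨P, Q, P', Q', h5⟩ := hex1 j i h4
        exact ⟨P, Q, P', Q', fun _ => h5⟩
      · obtain ⟨P, Q, P', Q', h5⟩ := hex1 i j h4
        exact ⟨P, -P', -Q, Q', fun _ => PT.ESYS.sol_swap h5⟩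
  choose P Q P' Q' hsol using hex
  refine ⟨fun j i => if j < i then P j i else P i j, fun j i => if j < i then Q j i else - P' i j,
    fun j i => if j < i then P' j i else - Q i j, fun j i => if j < i then Q' j i else Q' i j,
    ⟨hind, ?_⟩, ?_⟩
  · intro j i hji
    rcases lt_or_gt_of_ne hji with h | h
    · simp only [h, if_true]
      exact hsol j i hji
    · simp only [not_lt_of_gt h, if_false]
      exact PT.ESYS.sol_swap (hsol i j hji.symm)
  · intro j i hji
    rcases lt_or_gt_of_ne hji with h | h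
    · simp [h, not_lt_of_gt h]
    · simp [h, not_lt_of_gt h]

end Pool.Agent.PT3
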