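import Pool.Agent.PT3.Stmts
import Pool.Agent.PT.EVEC

/-!
# PT3, module EVET: the admissible classes in terms of exponent vectors
-/

set_option autoImplicit false

namespace Pool.Agent.PT3

open Pool.Agent.Lib_helper18 Pool.Agent.Lib_helper18.Eis Pool.Agent.Lib_helper84.Cub
open Pool.Agent.PT Pool.Agent.PTE

namespace EVET

/-- the part prime to `3` -/
theorem split3 {x : ℤ} (hx : x ≠ 0) : ∃ y : ℤ, y ≠ 0 ∧ ¬ (3 : ℤ) ∣ y ∧
    x = 3 ^ padicValInt 3 x * y ∧ x / 3 ^ padicValInt 3 x = y := by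
  have : Fact (Nat.Prime 3) := ⟨Nat.prime_three⟩
  obtain ⟨c, hc⟩ : ((3 : ℕ) : ℤ) ^ padicValInt 3 x ∣ x := padicValInt_dvd x
  rw [Nat.cast_ofNat] at hc
  have hc0 : c ≠ 0 := by
    rintro rfl
    rw [mul_zero] at hc
    exact hx hc
  refine ⟨c, hc0, ?_, hc, ?_⟩
  · rintro ⟨d, rfl⟩
    have h1 : ((3 : ℕ) : ℤ) ^ (padicValInt 3 x + 1) ∣ x := ⟨d, by
      rw [pow_succ, Nat.cast_ofNat]
      conv_lhs => rw [hc]
      ring⟩
    rw [padicValInt_dvd_iff] at h1
    rcases h1 with h1 | h1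
    · exact hx h1
    · omega
  · exact Int.ediv_eq_of_eq_mul_right (pow_ne_zero _ (by norm_num)) hc

theorem val_split {l : ℕ} (hl : l.Prime) (h3 : l ≠ 3) {x y : ℤ} {a : ℕ} (hy : y ≠ 0)
    (h : x = 3 ^ a * y) : padicValInt l x = padicValInt l y := by
  have : Fact l.Prime := ⟨hl⟩
  rw [h, padicValInt.mul (pow_ne_zero _ (by norm_num)) hy, padicValInt.eq_zero_of_not_dvd,
    zero_add]
  intro hd
  have h1 : (l : ℤ) ∣ ((3 : ℕ) : ℤ) := by
    rw [Nat.cast_ofNat]
    exact (Nat.prime_iff_prime_int.1 hl).dvd_of_dvd_pow hd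
  rw [Int.natCast_dvd_natCast, Nat.prime_dvd_prime_iff_eq hl Nat.prime_three] at h1
  exact h3 h1

theorem supp_split {n : ℕ} {x y : ℤ} {a : ℕ} (hy : ¬ (3 : ℤ) ∣ y) (h : x = 3 ^ a * y)
    (hs : ∀ l : ℕ, l.Prime → (l : ℤ) ∣ x → l ∣ 3 * n) : ∀ l : ℕ, l.Prime → (l : ℤ) ∣ y → l ∣ n := by
  intro l hl hd
  have h1 := hs l hl (by rw [h]; exact hd.mul_left _)
  rcases (Nat.Prime.dvd_mul hl).1 h1 with h2 | h2
  · exfalso
    rw [Nat.prime_dvd_prime_iff_eq hl Nat.prime_three] at h2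
    rw [h2] at hd
    exact hy hd
  · exact h2

theorem cast0 {a : ℤ} (ha : a ≠ 0) : (a : Eis) ≠ 0 := by
  intro h0
  apply ha
  have := congrArg Eis.re h0
  simpa using this

theorem ch_pow {π : Eis} (hπ : Prime π) (h3 : ¬ π ∣ 3) {a : Eis} (ha : a ≠ 0) (j : ℕ) :
    ch π (a ^ j) = (j : ZMod 3) * ch π a := by
  induction j with
  | zero =>
    rw [pow_zero, Nat.cast_zero, zero_mul]
    have h1 := EVEC.ch_mul hπ h3 (one_ne_zero (α := Eis)) (one_ne_zero (α := Eis))
    rw [mul_one] at h1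
    exact left_eq_add.1 h1
  | succ j ih =>
    rw [pow_succ, EVEC.ch_mul hπ h3 (pow_ne_zero _ ha) ha, ih]
    push_cast
    ring

end EVET

open EVET EVEC in
theorem EVET_thm (_hSTM : STM) (hSPP : SPP) (_hLCL : LCL) : EVET := by
  classical
  intro h' n m k π p e r f w0 c h
  -- the primes are split
  have hSp : ∀ i, Sp (π i).1 (p i) := by
    intro i
    obtain ⟨-, -, -, h4, -, h6⟩ := hSPP
    obtain ⟨p', hp', hc⟩ := h6 (π i)
    rcases hc with ⟨-, hc⟩ | ⟨-, hc1, hc2, hc3⟩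
    · exfalso
      have e1 := h.pπ i
      rw [hc, conj_natCast, ← Nat.cast_mul] at e1
      have e2 : p i = p' * p' := by
        have := congrArg Eis.re e1
        rw [natCast_re, natCast_re] at this
        exact_mod_cast this
      have e3 := h.pp i
      rw [e2] at e3
      exact Nat.not_prime_mul hp'.one_lt.ne' hp'.one_lt.ne' e3
    · have e1 : p i = p' := by
        have e2 : (p i : Eis) = (p' : Eis) := by rw [h.pπ i, hc2]
        have := congrArg Eis.re e2
        simpa using this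
      exact ⟨h.pp i, h.p1 i, (π i).2.1, (h4 (π i)).1, by rw [e1]; exact hc1, h.pπ i, hc3⟩
  have hpne : ∀ i i', i' ≠ i → ¬ (π i).1 ∣ (p i' : Eis) := by
    intro i i' hii hd
    have e1 : (p i : ℤ) ∣ (p i' : ℤ) := (hSp i).dvd_int (by exact_mod_cast hd)
    rw [Int.natCast_dvd_natCast, Nat.prime_dvd_prime_iff_eq (h.pp i) (h.pp i')] at e1
    exact hii (h.pinj e1).symm
  have hrne : ∀ i j, ¬ (π i).1 ∣ (r j : Eis) := by
    intro i j hd
    have e1 : (p i : ℤ) ∣ (r j : ℤ) := (hSp i).dvd_int (by exact_mod_cast hd)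
    rw [Int.natCast_dvd_natCast, Nat.prime_dvd_prime_iff_eq (h.pp i) (h.rp j)] at e1
    have e2 := h.p1 i
    have e3 := h.r2 j
    omega
  have hp3 : ∀ i, p i ≠ 3 := by
    intro i h0
    have := h.p1 i
    omega
  have hr3 : ∀ j, r j ≠ 3 := by
    intro j h0
    have := h.r2 j
    omega
  -- the valuation of `n`
  have hVn : ∀ i, V (π i).1 (n : Eis) = e i := by
    intro i
    let F : ℤ → ℕ := fun a => V (π i).1 (a : Eis)
    have hF1 : F 1 = 0 := by
      show V (π i).1 ((1 : ℤ) : Eis) = 0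
      rw [Int.cast_one]
      exact V_eq_zero (not_dvd_of_isUnit (π i).2.1 isUnit_one)
    have hF : ∀ a b : ℤ, a ≠ 0 → b ≠ 0 → F (a * b) = F a + F b := by
      intro a b ha hb
      show V (π i).1 ((a * b : ℤ) : Eis) = _
      rw [Int.cast_mul, V_mul (π i).2.1 (cast0 ha) (cast0 hb)]
    obtain ⟨a1, a2⟩ := fun_prod (fun a : ℤ => a ≠ 0) F one_ne_zero
      (fun a b => mul_ne_zero) hF1 hF Finset.univ (fun i => (p i : ℤ)) e
      (fun i _ => by exact_mod_cast (h.pp i).ne_zero)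
    obtain ⟨b1, b2⟩ := fun_prod (fun a : ℤ => a ≠ 0) F one_ne_zero
      (fun a b => mul_ne_zero) hF1 hF Finset.univ (fun j => (r j : ℤ)) f
      (fun j _ => by exact_mod_cast (h.rp j).ne_zero)
    have e1 : V (π i).1 (n : Eis) = F ((∏ i, (p i : ℤ) ^ e i) * ∏ j, (r j : ℤ) ^ f j) := by
      have e2 : ((n : ℕ) : ℤ) = (∏ i, (p i : ℤ) ^ e i) * ∏ j, (r j : ℤ) ^ f j := by
        rw [h.eq]
        push_cast
        rfl
      rw [← e2]
      show V (π i).1 (n : Eis) = V (π i).1 ((n : ℤ) : Eis)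
      rw [Int.cast_natCast]
    have hFp : F (p i) = 1 := by
      show V (π i).1 ((p i : ℤ) : Eis) = 1
      rw [Int.cast_natCast]
      exact (hSp i).V_self
    have hFp' : ∀ i', i' ≠ i → F (p i') = 0 := by
      intro i' hi'
      show V (π i).1 ((p i' : ℤ) : Eis) = 0
      rw [Int.cast_natCast]
      exact V_eq_zero (hpne i i' hi')
    have hFr : ∀ j, F (r j) = 0 := by
      intro j
      show V (π i).1 ((r j : ℤ) : Eis) = 0
      rw [Int.cast_natCast]
      exact V_eq_zero (hrne i j)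
    rw [e1, hF _ _ a1 b1, a2, b2, Finset.sum_eq_single i, hFp,
      Finset.sum_eq_zero fun j _ => by rw [hFr, smul_zero]]
    · simp
    · intro i' _ hi'
      rw [hFp' i' hi', smul_zero]
    · intro h0
      exact absurd (Finset.mem_univ _) h0
  -- the symbols, part prime to `3`
  have hch0 : ∀ (x : ℤ), x ≠ 0 → (∀ l : ℕ, l.Prime → (l : ℤ) ∣ x → l ∣ n) → ∀ i,
      ch (π i).1 (x : Eis) = (∑ i', (padicValInt (p i') x : ZMod 3) *
          (if i' = i then sym (π i).1 (conj (π i).1) else sym (π i).1 (p i' : Eis))) +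
        ∑ j, (padicValInt (r j) x : ZMod 3) * sym (π i).1 (r j : Eis) := by
    intro x hx hs i
    have hπ := (hSp i).pr
    have h3 := (hSp i).h3
    have e1 := fun_eq h (fun a => ch (π i).1 (a : Eis))
      (fun a b ha hb _ _ => by
        show ch (π i).1 ((a * b : ℤ) : Eis) = _
        rw [Int.cast_mul, ch_mul hπ h3 (cast0 ha) (cast0 hb)])
      (by
        show ch (π i).1 ((-1 : ℤ) : Eis) = 0
        rw [Int.cast_neg, Int.cast_one, ch_neg_one hπ h3]) hx hs
    rw [e1]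
    congr 1
    · refine Finset.sum_congr rfl fun i' _ => ?_
      congr 1
      show ch (π i).1 ((p i' : ℤ) : Eis) = _
      rw [Int.cast_natCast]
      by_cases hi' : i' = i
      · rw [if_pos hi', hi', (hSp i).eq, ch_self_mul hπ (hSp i).not_dvd_conj]
      · rw [if_neg hi', ch_not_dvd hπ (hpne i i' hi')]
    · refine Finset.sum_congr rfl fun j _ => ?_
      congr 1
      show ch (π i).1 ((r j : ℤ) : Eis) = _
      rw [Int.cast_natCast, ch_not_dvd hπ (hrne i j)]
  -- the symbols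
  have hch : ∀ (x : ℤ), x ≠ 0 → (∀ l : ℕ, l.Prime → (l : ℤ) ∣ x → l ∣ 3 * n) → ∀ i,
      ch (π i).1 (x : Eis) = lv x * sym (π i).1 3 + ((∑ i', (padicValInt (p i') x : ZMod 3) *
          (if i' = i then sym (π i).1 (conj (π i).1) else sym (π i).1 (p i' : Eis))) +
        ∑ j, (padicValInt (r j) x : ZMod 3) * sym (π i).1 (r j : Eis)) := by
    intro x hx hs i
    obtain ⟨y, hy, hy3, hxy, -⟩ := split3 hx
    have hπ := (hSp i).pr
    have h3 := (hSp i).h3
    have h30 : (3 : Eis) ≠ 0 := by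
      have := cast0 (show (3 : ℤ) ≠ 0 by norm_num)
      rwa [Int.cast_ofNat] at this
    have e1 : ch (π i).1 (x : Eis) = lv x * sym (π i).1 3 + ch (π i).1 (y : Eis) := by
      conv_lhs => rw [hxy]
      rw [Int.cast_mul, Int.cast_pow, Int.cast_ofNat, ch_mul hπ h3 (pow_ne_zero _ h30) (cast0 hy),
        ch_pow hπ h3 h30, ch_not_dvd hπ h3]
      rfl
    rw [e1, hch0 y hy (supp_split hy3 hxy hs) i]
    congr 2
    · refine Finset.sum_congr rfl fun i' _ => ?_
      rw [val_split (h.pp i') (hp3 i') hy hxy]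
    · refine Finset.sum_congr rfl fun j _ => ?_
      rw [val_split (h.rp j) (hr3 j) hy hxy]
  -- the weight
  have hwt : ∀ (x : ℤ), x ≠ 0 → (∀ l : ℕ, l.Prime → (l : ℤ) ∣ x → l ∣ 3 * n) →
      lw x = (∑ i, (padicValInt (p i) x : ZMod 3) * wt ((p i : ℤ) ^ 2)) +
        ∑ j, (padicValInt (r j) x : ZMod 3) * wt ((r j : ℤ) ^ 2) := by
    intro x hx hs
    obtain ⟨y, hy, hy3, hxy, hxy'⟩ := split3 hx
    have e1 : lw x = wt (y ^ 2) := by
      unfold lw
      rw [hxy']
    have e2 : wt (y ^ 2) = (∑ i, (padicValInt (p i) y : ZMod 3) * wt ((p i : ℤ) ^ 2)) +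
        ∑ j, (padicValInt (r j) y : ZMod 3) * wt ((r j : ℤ) ^ 2) :=
      fun_eq h (fun a => wt (a ^ 2))
      (fun a b _ _ ha hb => by
        show wt ((a * b) ^ 2) = _
        rw [mul_pow, wt_mul (sq_mod_three ha) (sq_mod_three hb)])
      (by
        show wt ((-1) ^ 2) = 0
        rw [neg_one_sq, wt_one]) hy (supp_split hy3 hxy hs)
    rw [e1, e2]
    congr 1
    · refine Finset.sum_congr rfl fun i' _ => ?_
      rw [val_split (h.pp i') (hp3 i') hy hxy]
    · refine Finset.sum_congr rfl fun j _ => ?_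
      rw [val_split (h.rp j) (hr3 j) hy hxy]
  refine ⟨fun x hx hs => ⟨?_, hwt x hx hs⟩, ?_⟩
  · have e1 : ∀ i, ((V (π i).1 (n : Eis) : ZMod 3) * ch (π i).1 (x : Eis) -
        (V (π i).1 (x : Eis) : ZMod 3) * (ch (π i).1 ((3 ^ h' * n : ℕ) : Eis) + c i) = 0) ↔
        ((e i : ZMod 3) * (lv x * sym (π i).1 3) +
        (e i : ZMod 3) * (∑ i', (padicValInt (p i') x : ZMod 3) *
          (if i' = i then sym (π i).1 (conj (π i).1) else sym (π i).1 (p i' : Eis))) +
        (e i : ZMod 3) * (∑ j, (padicValInt (r j) x : ZMod 3) * sym (π i).1 (r j : Eis)) -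
        (padicValInt (p i) x : ZMod 3) * (ch (π i).1 ((3 ^ h' * n : ℕ) : Eis) + c i) = 0) := by
      intro i
      rw [hVn i, (hSp i).V_int hx, hch x hx hs i, mul_add, mul_add, add_assoc]
    constructor
    · intro hA
      refine ⟨fun i => (e1 i).1 (hA.sym i), fun h2 => ?_⟩
      rw [← hwt x hx hs]
      exact hA.wild h2
    · rintro ⟨hA, hB⟩
      refine ⟨hx, hs, fun i => (e1 i).2 (hA i), fun h2 => ?_⟩
      rw [hwt x hx hs]
      exact hB h2
  · -- equality modulo cubes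
    intro x x' hx hx' hs hs'
    have hmod : ∀ l : ℕ, l.Prime → ∀ u v : ℤ, u ≠ 0 → v ≠ 0 → x * u ^ 3 = x' * v ^ 3 →
        (padicValInt l x : ZMod 3) = padicValInt l x' := by
      intro l hl u v hu hv huv
      have : Fact l.Prime := ⟨hl⟩
      have e1 := congrArg (padicValInt l) huv
      rw [padicValInt.mul hx (pow_ne_zero _ hu), padicValInt.mul hx' (pow_ne_zero _ hv),
        pow_succ, pow_succ, pow_one, pow_succ, pow_succ, pow_one,
        padicValInt.mul (mul_ne_zero hu hu) hu, padicValInt.mul hu hu,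
        padicValInt.mul (mul_ne_zero hv hv) hv, padicValInt.mul hv hv] at e1
      have e2 := congrArg (fun t : ℕ => (t : ZMod 3)) e1
      push_cast at e2
      have e3 : (3 : ZMod 3) = 0 := by decide
      linear_combination e2 + ((padicValInt l v : ZMod 3) - padicValInt l u) * e3
    constructor
    · rintro ⟨u, v, hu, hv, huv⟩
      exact ⟨hmod 3 Nat.prime_three u v hu hv huv, fun i => hmod _ (h.pp i) u v hu hv huv,
        fun j => hmod _ (h.rp j) u v hu hv huv⟩
    · rintro ⟨h0, hA, hB⟩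
      have hxx : x * x' ^ 2 ≠ 0 := mul_ne_zero hx (pow_ne_zero _ hx')
      have h3 : ∀ l : ℕ, l.Prime → (padicValInt l x : ZMod 3) = padicValInt l x' →
          3 ∣ padicValInt l (x * x' ^ 2) := by
        intro l hl he
        have : Fact l.Prime := ⟨hl⟩
        rw [padicValInt.mul hx (pow_ne_zero _ hx'), pow_two, padicValInt.mul hx' hx',
          ← ZMod.natCast_eq_zero_iff]
        push_cast
        rw [he]
        have e3 : (3 : ZMod 3) = 0 := by decide
        linear_combination (padicValInt l x' : ZMod 3) * e3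
      have hss : ∀ l : ℕ, l.Prime → (l : ℤ) ∣ x * x' ^ 2 → l ∣ 3 * n := by
        intro l hl hd
        rcases (Nat.prime_iff_prime_int.1 hl).dvd_or_dvd hd with h1 | h1
        · exact hs l hl h1
        · exact hs' l hl ((Nat.prime_iff_prime_int.1 hl).dvd_of_dvd_pow h1)
      obtain ⟨y, hy, hy3, hxy, -⟩ := split3 hxx
      obtain ⟨b, hb⟩ := h3 3 Nat.prime_three h0
      obtain ⟨t, ht, hyt⟩ := exists_cube h hy (supp_split hy3 hxy hss)
        (fun i => by rw [← val_split (h.pp i) (hp3 i) hy hxy]; exact h3 _ (h.pp i) (hA i))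
        (fun j => by rw [← val_split (h.rp j) (hr3 j) hy hxy]; exact h3 _ (h.rp j) (hB j))
      refine ⟨x', 3 ^ b * t, hx', mul_ne_zero (pow_ne_zero _ (by norm_num)) ht, ?_⟩
      have e5 : x * x' ^ 2 = (3 ^ b * t) ^ 3 := by
        rw [hxy, hb, hyt]
        ring
      rw [← e5]
      ring

end Pool.Agent.PT3
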