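import Pool.Agent.PT3.Stmts
import Pool.Agent.RI.PDGE

/-!
# PT3, module FCL0: one class, `3` does not divide `n`, `k` even
-/

set_option autoImplicit false

open NumberField IsDedekindDomain Finset
open scoped nonZeroDivisors Pointwise

namespace Pool.Agent.PT3

open Pool.Agent.Lib_helper18 Pool.Agent.Lib_helper18.Eis Pool.Agent.Lib_helper84.Cub
open Pool.Agent.PT Pool.Agent.PTE

namespace FCL0

theorem pos_of_nf {n m k : ℕ} {π : Fin m → PP} {p e : Fin m → ℕ} {r f : Fin k → ℕ}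
    (h : NF n π p e r f) : 0 < n := by
  rw [h.eq]
  exact Nat.mul_pos (Finset.prod_pos fun i _ => pow_pos (h.pp i).pos _)
    (Finset.prod_pos fun j _ => pow_pos (h.rp j).pos _)

theorem three_of_nf {n m k : ℕ} {π : Fin m → PP} {p e : Fin m → ℕ} {r f : Fin k → ℕ}
    (h : NF n π p e r f) : ¬ 3 ∣ n := by
  rw [h.eq]
  intro h0
  rcases (Nat.prime_three.dvd_mul).1 h0 with h1 | h1
  · obtain ⟨i, _, hi⟩ := (Nat.prime_three.prime.dvd_finsetProd_iff _).1 h1
    have h2 := Nat.prime_three.dvd_of_dvd_pow hi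
    have h3 := h.p1 i
    omega
  · obtain ⟨i, _, hi⟩ := (Nat.prime_three.prime.dvd_finsetProd_iff _).1 h1
    have h2 := Nat.prime_three.dvd_of_dvd_pow hi
    have h3 := h.r2 i
    omega

/-- The homomorphism with given components. -/
def assemble {s F : ℕ} (Φ : Fin s → Fin s → ((ZMod F)ˣ →* Multiplicative (ZMod 3))) :
    (ZMod F)ˣ →* Multiplicative (Fin s → Fin s → ZMod 3) where
  toFun := fun a => Multiplicative.ofAdd fun j i => (Φ j i a).toAdd
  map_one' := by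
    apply Multiplicative.toAdd.injective
    funext j i
    simp
  map_mul' := fun a a' => by
    apply Multiplicative.toAdd.injective
    funext j i
    simp

theorem assemble_apply {s F : ℕ} (Φ : Fin s → Fin s → ((ZMod F)ˣ →* Multiplicative (ZMod 3)))
    (a : (ZMod F)ˣ) (j i : Fin s) : (assemble Φ a).toAdd j i = (Φ j i a).toAdd := rfl

end FCL0

set_option linter.unusedVariables false in
/-- One class, `3` does not divide `n`, `k` even. -/
theorem FCL0_thm (hSPP : SPP) (hECL0 : ECL0) (hDCONST : DCONST) (hCLSC : CLSC) (hDENS : DENS)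
    (hTEND : TEND) : FCL0 := by
  intro n m k π p e r f w0 c hNF hk hw hdt
  obtain ⟨s, b, P, Q, P', Q', hs, hadm, hsys, hq⟩ := hECL0 n m k π p e r f w0 c hNF hk hw hdt
  have hn : 0 < n := FCL0.pos_of_nf hNF
  have h3 : ¬ 3 ∣ n := FCL0.three_of_nf hNF
  have hD : ∀ j i : Fin s, ∃ f₀ : ℕ, 0 < f₀ ∧ ∀ F : ℕ, 0 < F → f₀ ∣ F →
      ∃ (C : ZMod 3) (Φ : (ZMod F)ˣ →* Multiplicative (ZMod 3)) (N₀ : ℕ), j ≠ i →
        ∀ (q : ℕ) (hQ : q.Coprime F), q.Prime → N₀ < q → q % 3 = 2 → BOk ((n : ℤ) * q) →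
          Adm ((n : ℤ) * q) (b j) → Adm ((n : ℤ) * q) (b i) → ∀ t : ℤ, (q : ℤ) ∣ t ^ 3 - b j →
          OO ((n : ℤ) * q) (b j) (b i) (P j i) (Q j i) (P' j i) (Q' j i) =
            C + (Φ (ZMod.unitOfCoprime q hQ)).toAdd -
              TAUV q (P j i) (Q j i) (P' j i) (Q' j i) t := by
    intro j i
    by_cases hji : j = i
    · exact ⟨1, one_pos, fun F _ _ => ⟨0, 1, 0, fun h => absurd hji h⟩⟩
    · obtain ⟨f₀, hf₀, h⟩ := hDCONST n (b j) (b i) (P j i) (Q j i) (P' j i) (Q' j i) hn h3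
        (hsys.sol j i hji) (hadm j).ne (hadm i).ne
      refine ⟨f₀, hf₀, fun F hF hd => ?_⟩
      obtain ⟨C, Φ, N₀, h'⟩ := h F hF hd
      exact ⟨C, Φ, N₀, fun _ => h'⟩
  choose f₀ hf₀ hD1 using hD
  obtain ⟨F, hF, h9, hpF, hfF⟩ : ∃ F : ℕ, 0 < F ∧ 9 ∣ F ∧ (∀ i, p i ∣ F) ∧ ∀ j i, f₀ j i ∣ F := by
    refine ⟨9 * (∏ i, p i) * ∏ j, ∏ i, f₀ j i, ?_, ?_, ?_, ?_⟩
    · have h1 : 0 < ∏ i, p i := Finset.prod_pos fun i _ => (hNF.pp i).pos
      have h2 : 0 < ∏ j, ∏ i, f₀ j i :=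
        Finset.prod_pos fun j _ => Finset.prod_pos fun i _ => hf₀ j i
      positivity
    · exact Dvd.dvd.mul_right (Dvd.intro _ rfl) _
    · intro i
      exact Dvd.dvd.mul_right (Dvd.dvd.mul_left (Finset.dvd_prod_of_mem p (mem_univ i)) _) _
    · intro j i
      exact Dvd.dvd.mul_left ((Finset.dvd_prod_of_mem (fun i => f₀ j i) (mem_univ i)).trans
        (Finset.dvd_prod_of_mem (fun j => ∏ i, f₀ j i) (mem_univ j))) _
  choose C Φ N₀ hD2 using fun j i => hD1 j i F hF (hfF j i)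
  obtain ⟨κ, hκ, hcount⟩ := hCLSC m π p hNF.pp hNF.p1 hNF.pπ hNF.pinj F hF h9 hpF
  have hdens := hDENS s b P Q P' Q' F m κ (Fin.cons w0 c) C (FCL0.assemble Φ) hsys hs hF h9 hcount
  refine RI.PDGE_thm _ _ (Finset.range (n + 3 + ∑ j, ∑ i, N₀ j i + 1)) _ hdens ?_
  rintro q ⟨hQ, hq3, hκq, hdet⟩ hqp hqA
  rw [Finset.mem_range, not_lt] at hqA
  have hN : ∀ j i, N₀ j i ≤ ∑ j, ∑ i, N₀ j i := by
    intro j i
    exact (Finset.single_le_sum (f := fun i => N₀ j i) (fun i _ => Nat.zero_le _)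
      (mem_univ i)).trans (Finset.single_le_sum (f := fun j => ∑ i, N₀ j i)
        (fun j _ => Nat.zero_le _) (mem_univ j))
  rw [hκ q hQ] at hκq
  have hcl : InCl π w0 c q := by
    refine ⟨hq3, ?_, fun i => ?_⟩
    · have := congrFun hκq 0
      simpa using this
    · have := congrFun hκq i.succ
      simpa using this
  refine ⟨hcl, fun hXY => ?_⟩
  have hqn : ¬ q ∣ n := fun h => by
    have := Nat.le_of_dvd hn h
    omega
  obtain ⟨hA, hB, hM⟩ := hq q hqp hcl hqn (by omega)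
  have hM0 := hM hXY
  have hskew := (hTEND s b P Q P' Q' ((n : ℤ) * q) hsys hB hA).1
  let τ : Fin s → Fin s → ZMod 3 := fun j i =>
    C j i + (Φ j i (ZMod.unitOfCoprime q hQ)).toAdd -
      OO ((n : ℤ) * q) (b j) (b i) (P j i) (Q j i) (P' j i) (Q' j i)
  apply hdet τ
  · intro j i hji t ht
    have h1 := hD2 j i hji q hQ hqp (by have := hN j i; omega) hq3 hB (hA j) (hA i) t ht
    simp only [τ]
    rw [h1]
    ring
  · rw [← hM0]
    congr 1
    ext j i
    have hv : ∀ j i, (C + (FCL0.assemble Φ (ZMod.unitOfCoprime q hQ)).toAdd - τ) j i =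
        OO ((n : ℤ) * q) (b j) (b i) (P j i) (Q j i) (P' j i) (Q' j i) := by
      intro j i
      simp only [Pi.sub_apply, Pi.add_apply, τ, FCL0.assemble_apply]
      ring
    unfold alt
    rw [hv, hv]
    by_cases h1 : j < i
    · rw [if_pos h1]
      unfold Mat
      rw [if_neg h1.ne]
    · rw [if_neg h1]
      by_cases h2 : i < j
      · rw [if_pos h2, hskew j i]
        unfold Mat
        rw [if_neg h2.ne]
      · rw [if_neg h2]
        have h3 : j = i := le_antisymm (not_lt.1 h2) (not_lt.1 h1)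
        unfold Mat
        rw [if_pos h3]

end Pool.Agent.PT3
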