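import Pool.Agent.PT3.Stmts
import Pool.Agent.PT.FINA
import Pool.Agent.RI.PDGE

/-!
# Prime twists of rank zero, `n` divisible by `3`: module FCLT
-/

set_option autoImplicit false

open NumberField IsDedekindDomain Finset
open scoped nonZeroDivisors Pointwise

namespace Pool.Agent.PT3

open Pool.Agent.Lib_helper18 Pool.Agent.Lib_helper18.Eis Pool.Agent.Lib_helper84.Cub
open Pool.Agent.PT Pool.Agent.PTE

/-- FCLT: one class, `3^h n`, `h + k` even. -/
theorem FCLT_thm (hSPP : SPP) (hECLT : ECLT) (hDCOT : DCOT) (hCLSC : CLSC) (hDENG : DENG) :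
    FCLT := by
  intro h n m k π p e r f w0 c hNF hh hk hMt
  obtain ⟨s, b, X, Y, P, Q, P', Q', hs, hsys, hb0, hq⟩ :=
    hECLT h n m k π p e r f w0 c hNF hh hk hMt
  have hn : 0 < n := PT.FINA.pos_of_nf hNF
  have hN0 : 0 < 3 ^ h * n := Nat.mul_pos (pow_pos (by norm_num) _) hn
  have hBB : ∀ q : ℕ, BB h n 1 q = ((3 ^ h * n : ℕ) : ℤ) * (q : ℤ) ^ 1 := by
    intro q
    unfold BB
    push_cast
    ring
  have hD : ∀ j i : Fin s, ∃ f₀ : ℕ, 0 < f₀ ∧ ∀ F : ℕ, 0 < F → f₀ ∣ F →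
      ∃ (C : ZMod 3) (Φ : (ZMod F)ˣ →* Multiplicative (ZMod 3)), j ≠ i →
        ∀ (q : ℕ) (hQ : q.Coprime F), q.Prime → q % 3 = 2 →
          AG (BB h n 1 q) (b i) → ∀ t : ℤ, (q : ℤ) ∣ t ^ 3 - b j →
          OT (BB h n 1 q) (b j) (X j) (Y j) (b i) (P j i) (Q j i) (P' j i) (Q' j i) =
            C + (Φ (ZMod.unitOfCoprime q hQ)).toAdd -
              TAUV q (P j i) (Q j i) (P' j i) (Q' j i) t := by
    intro j i
    by_cases hji : j = i
    · exact ⟨1, one_pos, fun F _ _ => ⟨0, 1, fun h => absurd hji h⟩⟩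
    · obtain ⟨f₀, hf₀, h'⟩ := hDCOT (3 ^ h * n) (b j) (X j) (Y j) (b i) (P j i) (Q j i) (P' j i)
        (Q' j i) hN0 (hsys.sol j i hji) (hb0 j) (hb0 i)
      refine ⟨f₀, hf₀, fun F hF hd => ?_⟩
      obtain ⟨C, Φ, h''⟩ := h' F hF hd
      refine ⟨C, Φ, fun _ q hQ hqp hq3 hAG t ht => ?_⟩
      rw [hBB q] at hAG ⊢
      have h1 := h'' 1 q hQ hqp hq3 hAG t ht
      rw [h1]
      push_cast
      ring
  choose f₀ hf₀ hD1 using hD
  obtain ⟨F, hF, h9, hpF, hfF⟩ : ∃ F : ℕ, 0 < F ∧ 9 ∣ F ∧ (∀ i, p i ∣ F) ∧ ∀ j i, f₀ j i ∣ F := by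
    refine ⟨9 * (∏ i, p i) * ∏ j, ∏ i, f₀ j i, ?_, ?_, ?_, ?_⟩
    · have h1 : 0 < ∏ i, p i := Finset.prod_pos fun i _ => (hNF.pp i).pos
      have h2 : 0 < ∏ j, ∏ i, f₀ j i :=
        Finset.prod_pos fun j _ => Finset.prod_pos fun i _ => hf₀ j i
      positivity
    · exact Dvd.dvd.mul_right (Dvd.intro _ rfl) _
    · intro i
      exact Dvd.dvd.mul_right (Dvd.dvd.mul_left (Finset.dvd_prod_of_mem p (mem_univ i)) _) _
    · intro j i
      exact Dvd.dvd.mul_left ((Finset.dvd_prod_of_mem (fun i => f₀ j i) (mem_univ i)).trans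
        (Finset.dvd_prod_of_mem (fun j => ∏ i, f₀ j i) (mem_univ j))) _
  choose C Φ hD2 using fun j i => hD1 j i F hF (hfF j i)
  obtain ⟨κ, hκ, hcount⟩ := hCLSC m π p hNF.pp hNF.p1 hNF.pπ hNF.pinj F hF h9 hpF
  have hdens := hDENG s b P Q P' Q' F m κ (Fin.cons w0 c) C (PT.FINA.assemble Φ) hsys hs hF h9
    hcount
  refine RI.PDGE_thm _ _ (Finset.range (n + 4)) _ hdens ?_
  rintro q ⟨hQ, hq3, hκq, hdet⟩ hqp hqA
  rw [Finset.mem_range, not_lt] at hqA
  rw [hκ q hQ] at hκq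
  have hcl : InCl π w0 c q := by
    refine ⟨hq3, ?_, fun i => ?_⟩
    · have := congrFun hκq 0
      simpa using this
    · have := congrFun hκq i.succ
      simpa using this
  have hct : InCT 1 π w0 c q := by
    refine ⟨?_, fun i => ?_⟩
    · rw [pow_one]
      exact hcl.2.1
    · rw [Nat.cast_one, one_mul]
      exact hcl.2.2 i
  have hqn : ¬ q ∣ n := fun h => by
    have := Nat.le_of_dvd hn h
    omega
  refine ⟨hcl, fun hXY => ?_⟩
  obtain ⟨hB, hA, hskew, hM⟩ := hq 1 q (Or.inl rfl) hqp hq3 hct hqn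
  have hM0 := hM (by
    obtain ⟨x, y, hxy⟩ := hXY
    refine ⟨x, y, ?_⟩
    rw [hxy, hBB q]
    push_cast
    ring)
  let τ : Fin s → Fin s → ZMod 3 := fun j i =>
    C j i + (Φ j i (ZMod.unitOfCoprime q hQ)).toAdd -
      OT (BB h n 1 q) (b j) (X j) (Y j) (b i) (P j i) (Q j i) (P' j i) (Q' j i)
  apply hdet τ
  · intro j i hji t ht
    have h1 := hD2 j i hji q hQ hqp hq3 (hA i).toAG t ht
    simp only [τ]
    rw [h1]
    ring
  · rw [← hM0]
    congr 1
    ext j i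
    have hv : ∀ j i, (C + (PT.FINA.assemble Φ (ZMod.unitOfCoprime q hQ)).toAdd - τ) j i =
        OT (BB h n 1 q) (b j) (X j) (Y j) (b i) (P j i) (Q j i) (P' j i) (Q' j i) := by
      intro j i
      simp only [Pi.sub_apply, Pi.add_apply, τ, PT.FINA.assemble_apply]
      ring
    unfold alt
    rw [hv, hv]
    by_cases h1 : j < i
    · rw [if_pos h1]
      unfold MaT
      rw [if_neg h1.ne]
    · rw [if_neg h1]
      by_cases h2 : i < j
      · rw [if_pos h2, hskew j i]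
        unfold MaT
        rw [if_neg h2.ne]
      · rw [if_neg h2]
        have h3 : j = i := le_antisymm (not_lt.1 h2) (not_lt.1 h1)
        unfold MaT
        rw [if_pos h3]

end Pool.Agent.PT3
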