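import Pool.Agent.PT3.Stmts
import Pool.Agent.PTE.FINAS

/-!
# PT3: one class, `3` does not divide `n`, `k` odd
-/

set_option autoImplicit false

open NumberField IsDedekindDomain Finset
open scoped nonZeroDivisors Pointwise

namespace Pool.Agent.PT3

open Pool.Agent.Lib_helper18 Pool.Agent.Lib_helper18.Eis Pool.Agent.Lib_helper84.Cub
open Pool.Agent.PT Pool.Agent.PTE Pool.Agent.PTE.FINAS

namespace FCS0

/-- The set of the theorem. -/
def TS (n : ℕ) {m : ℕ} (π : Fin m → PP) (w0 : ZMod 3) (c : Fin m → ZMod 3) : Set ℕ :=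
  {q : ℕ | InClS π w0 c q ∧ ¬ ∃ X Y : ℚ, X ^ 3 + Y ^ 3 = (n : ℚ) * q}

/-- One hyperplane. -/
theorem one (hDCONSTS : DCONSTS) (hCLSC : CLSC) (hCLSCS : CLSCS) (hDENSS : DENSS)
    {n m k : ℕ} {π : Fin m → PP} {p e : Fin m → ℕ} {r f : Fin k → ℕ} (hNF : NF n π p e r f)
    (hk : Odd k) (w0 : ZMod 3) (c : Fin m → ZMod 3) (v : Fin k → ℤ) (hw0 : w0 ≠ 0 ∨ c ≠ 0)
    (δ : Fin k → ZMod 3)
    (hδ : ∃ (s : ℕ) (b : Fin (s + 1) → ℤ)
      (P Q P' Q' : Fin (s + 1) → Fin (s + 1) → ℤ), s + 1 = k ∧ SysG b P Q P' Q' ∧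
      (∀ i, b i ≠ 0) ∧
      (∀ ρ : PP, ¬ ρ.1 ∣ (n : Eis) → (∀ i : Fin s, sym ρ.1 (b i.castSucc : Eis) = 0) →
        sym ρ.1 (b (Fin.last s) : Eis) ≠ 0 →
        ∃ ε : ZMod 3, ε ≠ 0 ∧ ∀ i, sym ρ.1 (v i : Eis) = ε * δ i) ∧
      ∀ (q : ℕ) (ρ : PP), q.Prime → InClS π w0 c q → ¬ q ∣ n → 3 < q →
        (q : Eis) = ρ.1 * conj ρ.1 → (∀ i : Fin s, sym ρ.1 (b i.castSucc : Eis) = 0) →
        sym ρ.1 (b (Fin.last s) : Eis) ≠ 0 →
        BOk ((n : ℤ) * q) ∧ (∀ i : Fin s, Adm ((n : ℤ) * q) (b i.castSucc)) ∧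
        (∀ i j, Mat (rv b) (rs P) (rs Q) (rs P') (rs Q') ((n : ℤ) * q) i j =
          - Mat (rv b) (rs P) (rs Q) (rs P') (rs Q') ((n : ℤ) * q) j i) ∧
        ((∃ X Y : ℚ, X ^ 3 + Y ^ 3 = (n : ℚ) * q) →
          (Mat (rv b) (rs P) (rs Q) (rs P') (rs Q') ((n : ℤ) * q)).det = 0)) :
    ∃ (S S' : Set ℕ) (N : ℕ), RI.DensityGE (S ∪ S') (2 * rh (k - 1) / 3 ^ (k + m + 1)) ∧
      (∀ q, q.Prime → q ∈ S' → q ∈ {q : ℕ | InClS π (-w0) (-c) q}) ∧
      (∀ q, q.Prime → N < q → q ∈ S → q ∈ TS n π w0 c) ∧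
      ∀ q, q.Prime → N < q → q ∈ S ∨ q ∈ S' → q % 3 = 1 ∧ ∃ ρ : PP,
        (q : Eis) = ρ.1 * conj ρ.1 ∧ (¬ ρ.1 ∣ (n : Eis) →
          ∃ ε : ZMod 3, ε ≠ 0 ∧ ∀ i, sym ρ.1 (v i : Eis) = ε * δ i) := by
  obtain ⟨s, b, P, Q, P', Q', hs, hsys, hb, hρ, hq⟩ := hδ
  have hn : 0 < n := pos_of_nf hNF
  have h3 : ¬ 3 ∣ n := three_of_nf hNF
  have hD : ∀ j i : Fin s, ∃ f₀ : ℕ, 0 < f₀ ∧ ∀ F : ℕ, 0 < F → f₀ ∣ F →
      ∃ (C : ZMod 3) (Φ : (ZMod F)ˣ →* Multiplicative (ZMod 3)) (N₀ : ℕ), j ≠ i →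
        ∀ (q : ℕ) (hQ : q.Coprime F) (ρ : PP), q.Prime → N₀ < q → q % 3 = 1 →
          (q : Eis) = ρ.1 * conj ρ.1 → BOk ((n : ℤ) * q) →
          Adm ((n : ℤ) * q) (b j.castSucc) → Adm ((n : ℤ) * q) (b i.castSucc) →
          ∀ t : ℤ, (q : ℤ) ∣ t ^ 3 - b j.castSucc →
          OO ((n : ℤ) * q) (b j.castSucc) (b i.castSucc) (rs P j i) (rs Q j i) (rs P' j i)
            (rs Q' j i) = C + (Φ (ZMod.unitOfCoprime q hQ)).toAdd +
              TAUVS ρ.1 (rs P j i) (rs Q j i) (rs P' j i) (rs Q' j i) t := by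
    intro j i
    by_cases hji : j = i
    · exact ⟨1, one_pos, fun F _ _ => ⟨0, 1, 0, fun h => absurd hji h⟩⟩
    · obtain ⟨f₀, hf₀, h⟩ := hDCONSTS n (b j.castSucc) (b i.castSucc) (rs P j i) (rs Q j i)
        (rs P' j i) (rs Q' j i) hn h3
        (hsys.sol j.castSucc i.castSucc fun h => hji (Fin.castSucc_injective _ h)) (hb _) (hb _)
      refine ⟨f₀, hf₀, fun F hF hd => ?_⟩
      obtain ⟨C, Φ, N₀, h'⟩ := h F hF hd
      exact ⟨C, Φ, N₀, fun _ => h'⟩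
  choose f₀ hf₀ hD1 using hD
  obtain ⟨F, hF, h9, hpF, hfF⟩ : ∃ F : ℕ, 0 < F ∧ 9 ∣ F ∧ (∀ i, p i ∣ F) ∧ ∀ j i, f₀ j i ∣ F := by
    refine ⟨9 * (∏ i, p i) * ∏ j, ∏ i, f₀ j i, ?_, ?_, ?_, ?_⟩
    · have h1 : 0 < ∏ i, p i := Finset.prod_pos fun i _ => (hNF.pp i).pos
      have h2 : 0 < ∏ j, ∏ i, f₀ j i :=
        Finset.prod_pos fun j _ => Finset.prod_pos fun i _ => hf₀ j i
      positivity
    · exact Dvd.dvd.mul_right (Dvd.intro _ rfl) _
    · intro i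
      exact Dvd.dvd.mul_right (Dvd.dvd.mul_left (Finset.dvd_prod_of_mem p (mem_univ i)) _) _
    · intro j i
      exact Dvd.dvd.mul_left ((Finset.dvd_prod_of_mem (fun i => f₀ j i) (mem_univ i)).trans
        (Finset.dvd_prod_of_mem (fun j => ∏ i, f₀ j i) (mem_univ j))) _
  choose C Φ N₀ hD2 using fun j i => hD1 j i F hF (hfF j i)
  obtain ⟨κ, hκ, hcount⟩ := hCLSC m π p hNF.pp hNF.p1 hNF.pπ hNF.pinj F hF h9 hpF
  have hcount' := hCLSCS F m κ hF h9 hcount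
  have heven : Even s := by
    rw [← hs] at hk
    rcases hk with ⟨t, ht⟩
    exact ⟨t, by omega⟩
  have hc0 : (Fin.cons w0 c : Fin (m + 1) → ZMod 3) ≠ 0 := by
    intro h
    rcases hw0 with h1 | h1
    · apply h1
      have := congrFun h 0
      simpa using this
    · apply h1
      funext i
      have := congrFun h i.succ
      simpa using this
  have hdens := hDENSS s b P Q P' Q' F m κ (Fin.cons w0 c) C (assemble Φ) hsys heven hF h9 hc0
    hcount'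
  have hN : ∀ j i, N₀ j i ≤ ∑ j, ∑ i, N₀ j i := by
    intro j i
    exact (Finset.single_le_sum (f := fun i => N₀ j i) (fun i _ => Nat.zero_le _)
      (mem_univ i)).trans (Finset.single_le_sum (f := fun j => ∑ i, N₀ j i)
        (fun j _ => Nat.zero_le _) (mem_univ j))
  have hk1 : k - 1 = s := by omega
  have hk2 : k + m + 1 = s + m + 2 := by omega
  rw [hk1, hk2]
  refine ⟨SSS b P Q P' Q' κ (Fin.cons w0 c) C (assemble Φ),
    {Q : ℕ | ∃ (hQ : Q.Coprime F) (ρ : PP), ClQ b κ (-Fin.cons w0 c) Q hQ ρ},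
    n + 3 + ∑ j, ∑ i, N₀ j i, hdens, ?_, ?_, ?_⟩
  · -- the second set is in `R`
    rintro q hqp ⟨hQ, ρ, hq3, hκq, -⟩
    rw [hκ q hQ] at hκq
    refine ⟨hq3, ?_, fun i => ?_⟩
    · have := congrFun hκq 0
      simpa using this
    · have := congrFun hκq i.succ
      simpa using this
  · -- the first set is in `T`
    rintro q hqp hqN ⟨hQ, ρ, ⟨hq3, hκq, hqρ, hb0, hb1⟩, hdet⟩
    rw [hκ q hQ] at hκq
    have hcl : InClS π w0 c q := by
      refine ⟨hq3, ?_, fun i => ?_⟩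
      · have := congrFun hκq 0
        simpa using this
      · have := congrFun hκq i.succ
        simpa using this
    refine ⟨hcl, fun hXY => ?_⟩
    have hqn : ¬ q ∣ n := fun h => by
      have := Nat.le_of_dvd hn h
      omega
    obtain ⟨hB, hA, hskew, hM⟩ := hq q ρ hqp hcl hqn (by omega) hqρ hb0 hb1
    have hM0 := hM hXY
    let τ : Fin s → Fin s → ZMod 3 := fun j i =>
      OO ((n : ℤ) * q) (b j.castSucc) (b i.castSucc) (rs P j i) (rs Q j i) (rs P' j i)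
            (rs Q' j i) - C j i - (Φ j i (ZMod.unitOfCoprime q hQ)).toAdd
    apply hdet τ
    · intro j i hji t ht
      have h1 := hD2 j i hji q hQ ρ hqp (by have := hN j i; omega) hq3 hqρ hB (hA j) (hA i) t ht
      simp only [τ]
      rw [h1]
      ring
    · rw [← hM0]
      congr 1
      ext j i
      have hv : ∀ j i, (C + (assemble Φ (ZMod.unitOfCoprime q hQ)).toAdd + τ) j i =
          OO ((n : ℤ) * q) (b j.castSucc) (b i.castSucc) (rs P j i) (rs Q j i) (rs P' j i)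
            (rs Q' j i) := by
        intro j i
        simp only [Pi.add_apply, τ, assemble_apply]
        ring
      unfold alt
      rw [hv, hv]
      by_cases h1 : j < i
      · rw [if_pos h1]
        unfold Mat
        rw [if_neg h1.ne]
        rfl
      · rw [if_neg h1]
        by_cases h2 : i < j
        · rw [if_pos h2, hskew j i]
          unfold Mat
          rw [if_neg h2.ne]
          rfl
        · rw [if_neg h2]
          have h3 : j = i := le_antisymm (not_lt.1 h2) (not_lt.1 h1)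
          unfold Mat
          rw [if_pos h3]
  · -- the hyperplane
    rintro q hqp hqN (⟨hQ, ρ, ⟨hq3, hκq, hqρ, hb0, hb1⟩, hdet⟩ | ⟨hQ, ρ, hq3, hκq, hqρ, hb0, hb1⟩)
    · exact ⟨hq3, ρ, hqρ, fun hn => hρ ρ hn hb0 hb1⟩
    · exact ⟨hq3, ρ, hqρ, fun hn => hρ ρ hn hb0 hb1⟩

end FCS0

open FCS0

/-- One class, `3` does not divide `n`, `k` odd. -/
theorem FCS0_thm (hSPLT : SPLT) (hECS0 : ECS0) (hDCONSTS : DCONSTS) (hCLSC : CLSC)
    (hCLSCS : CLSCS) (hDENSS : DENSS) (hDIRS : DIRS) (hDSUM : DSUM) : FCS0 := by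
  intro n m k π p e r f w0 c hNF hk hw0 hwt hdet
  obtain ⟨v, hv, hδ⟩ := hECS0 n m k π p e r f w0 c hNF hk hwt hdet
  have hn : 0 < n := pos_of_nf hNF
  choose S S' N hd hR hT hH using fun δ : {δ : Fin k → ZMod 3 // δ ≠ 0} =>
    one hDCONSTS hCLSC hCLSCS hDENSS hNF hk w0 c v hw0 δ.1 (hδ δ.1 δ.2)
  have hN : ∀ δ, N δ ≤ ∑ δ, N δ := fun δ =>
    Finset.single_le_sum (f := fun δ => N δ) (fun i _ => Nat.zero_le _) (mem_univ δ)
  have hmain := hDSUM {δ : Fin k → ZMod 3 // δ ≠ 0} S S' (TS n π w0 c)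
    {q : ℕ | InClS π (-w0) (-c) q} _ _ (n + ∑ δ, N δ) hd
    (hDIRS m π p hNF.pp hNF.p1 hNF.pπ hNF.pinj (-w0) (-c))
    (fun i q hq _ h => hR i q hq h) (fun i q hq hNq h => hT i q hq (by have := hN i; omega) h) ?_
  · refine dens_mono hmain ?_
    have hcard : ((Fintype.card {δ : Fin k → ZMod 3 // δ ≠ 0} : ℕ) : ℝ) = 3 ^ k - 1 := by
      rw [Fintype.card_subtype_compl, Fintype.card_subtype_eq, Fintype.card_fun, ZMod.card,
        Fintype.card_fin, Nat.cast_sub (Nat.one_le_pow _ _ (by norm_num))]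
      push_cast
      ring
    rw [hcard]
    rcases Nat.eq_zero_or_pos (k - 1) with h0 | h0
    · have hk1 : k = 1 := by
        rcases hk with ⟨t, ht⟩
        omega
      subst hk1
      have : rh (1 - 1) = 1 := by simp [rh]
      rw [this]
      exact num0 m
    · have hk3 : 3 ≤ k := by
        rcases hk with ⟨t, ht⟩
        omega
      have : rh (k - 1) = 5 / 8 := by
        unfold rh
        rw [if_neg (by omega)]
      rw [this]
      exact num1 m k hk3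
  · intro q hqp hNq
    by_cases hex : ∃ i, q ∈ S i ∨ q ∈ S' i
    · obtain ⟨δ₀, h₀⟩ := hex
      obtain ⟨hq3, ρ₀, hqρ₀, hε₀⟩ := hH δ₀ q hqp (by have := hN δ₀; omega) h₀
      have hqn : ¬ q ∣ n := fun h => by
        have := Nat.le_of_dvd hn h
        omega
      have hqv : ∀ i, ¬ (q : ℤ) ∣ v i := fun i h => hqn ((hv i).2 q hqp h)
      obtain ⟨-, -, hσ, hdv, hcj, -⟩ := hSPLT.2 q ρ₀ hqp hq3 hqρ₀
      have hn₀ : ∀ ρ : PP, (q : Eis) = ρ.1 * conj ρ.1 → ¬ ρ.1 ∣ (n : Eis) := by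
        intro ρ hρ h
        obtain ⟨-, -, -, hdv', -, -⟩ := hSPLT.2 q ρ hqp hq3 hρ
        have h1 : ρ.1 ∣ ((n : ℤ) : Eis) := by
          rwa [Int.cast_natCast]
        exact hqn (Int.natCast_dvd_natCast.1 ((hdv' n).1 h1))
      obtain ⟨ε₀, hε₀0, hε₀v⟩ := hε₀ (hn₀ ρ₀ hqρ₀)
      refine ⟨δ₀, ⟨-δ₀.1, neg_ne_zero.2 δ₀.2⟩, fun δ h => ?_⟩
      obtain ⟨-, ρ, hqρ, hε⟩ := hH δ q hqp (by have := hN δ; omega) h
      obtain ⟨ε, hε0, hεv⟩ := hε (hn₀ ρ hqρ)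
      rcases hσ ρ ⟨conj ρ.1, hqρ⟩ with h1 | h1
      · rcases line δ₀.1 δ.1 hε₀0 hε0 fun i => by rw [← hεv i, ← hε₀v i, h1] with h2 | h2
        · exact Or.inl (Subtype.ext h2)
        · exact Or.inr (Subtype.ext h2)
      · rcases line δ₀.1 δ.1 (neg_ne_zero.2 hε₀0) hε0 fun i => by
          have h3 := hcj (v i : Eis) fun h => hqv i ((hdv (v i)).1 h)
          rw [← hεv i, h1, neg_mul, ← hε₀v i, ← h3]
          congr 1
          exact (conj_intCast _).symm with h2 | h2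
        · exact Or.inl (Subtype.ext h2)
        · exact Or.inr (Subtype.ext h2)
    · have : Nonempty {δ : Fin k → ZMod 3 // δ ≠ 0} := by
        refine ⟨fun _ => 1, fun h => ?_⟩
        have h1 := congrFun h ⟨0, hk.pos⟩
        exact one_ne_zero h1
      obtain ⟨i⟩ := this
      exact ⟨i, i, fun j hj => absurd ⟨j, hj⟩ hex⟩

end Pool.Agent.PT3
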