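import Pool.Agent.PT3.Stmts
import Pool.Agent.PT.FD1

/-!
# FD1T: the first descent, `B` divisible by `3`
-/

set_option autoImplicit false

namespace Pool.Agent.PT3

open Pool.Agent.Lib_helper18 Pool.Agent.Lib_helper18.Eis Pool.Agent.Lib_helper84.Cub
open Pool.Agent.PT Pool.Agent.PTE

namespace FD1T

/-- A cube of a prime does not divide `B`. -/
theorem cube_free {B : ℤ} (hB : BT B) {l : ℕ} (hl : l.Prime) : ¬ (l : ℤ) ^ 3 ∣ B := by
  intro h
  by_cases h3 : l = 3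
  · apply hB.t2
    rw [h3] at h
    norm_num at h
    exact h
  have hlE : (l : Eis) ≠ 0 := by
    intro h4
    have h5 := congrArg Eis.re h4
    simp only [natCast_re, zero_re] at h5
    exact hl.ne_zero (by exact_mod_cast h5)
  have hnu : ¬ IsUnit (l : Eis) := by
    rw [isUnit_iff_norm, norm_natCast]
    intro h4
    have h5 : (l : ℤ) = 1 ∨ (l : ℤ) = -1 := sq_eq_one_iff_of_side h4
    rcases h5 with h5 | h5
    · exact hl.one_lt.ne' (by exact_mod_cast h5)
    · omega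
  obtain ⟨q, hq, hql⟩ := WfDvdMonoid.exists_irreducible_factor hnu hlE
  have hqp : Prime q := hq.prime
  have hlam : ¬ lam ∣ q := by
    intro h4
    have h5 : lam ∣ (l : Eis) := h4.trans hql
    obtain ⟨t, ht⟩ := h5
    have h6 := congrArg Eis.norm ht
    rw [Eis.norm_mul, norm_natCast, norm_lam] at h6
    have h7 : (3 : ℤ) ∣ (l : ℤ) ^ 2 := ⟨_, h6⟩
    have h8 : (3 : ℤ) ∣ (l : ℤ) := Int.prime_three.dvd_of_dvd_pow h7
    have h9 : 3 ∣ l := by exact_mod_cast h8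
    exact h3 ((Nat.prime_dvd_prime_iff_eq Nat.prime_three hl).1 h9).symm
  obtain ⟨i, hi⟩ := exists_prim hlam
  have hwu : IsUnit (w ^ i) := by
    have h4 : IsUnit w := IsUnit.of_mul_eq_one (w ^ 2) (by rw [← pow_succ']; exact w_cube)
    exact h4.pow i
  have key : ∃ π : PP, Associated q π.1 := by
    have h4 : (q * w ^ i).re % 3 = 1 ∨ (q * w ^ i).re % 3 = 2 := by
      have := hi.2
      omega
    have h5 : Associated q (q * w ^ i) := associated_mul_unit_right q (w ^ i) hwu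
    rcases h4 with h4 | h4
    · refine ⟨⟨-(q * w ^ i), ?_, ?_, ?_⟩, ?_⟩
      · exact (h5.prime hqp).neg
      · rw [neg_re]
        omega
      · rw [neg_im]
        exact (dvd_neg).2 hi.1
      · exact h5.neg_right
    · exact ⟨⟨q * w ^ i, h5.prime hqp, h4, hi.1⟩, h5⟩
  obtain ⟨π, hπ⟩ := key
  have h4 : π.1 ^ 3 ∣ (B : Eis) := by
    have h5 : π.1 ∣ (l : Eis) := hπ.symm.dvd.trans hql
    refine (pow_dvd_pow_of_dvd h5 3).trans ?_
    obtain ⟨t, ht⟩ := h
    rw [ht]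
    refine ⟨(t : Eis), ?_⟩
    ext <;> simp
  have hBE : (B : Eis) ≠ 0 := by
    intro h5
    have h6 := congrArg Eis.re h5
    simp only [intCast_re, zero_re] at h6
    exact hB.ne h6
  have h5 : 3 ≤ V π.1 (B : Eis) := by
    rw [V, ← (fin π.2.1 hBE).pow_dvd_iff_le_multiplicity]
    exact h4
  have := hB.cf π
  omega

/-- The clause `nine` of a cell is void. -/
theorem not_c9 {B : ℤ} (hB : (3 : ℤ) ∣ B) : ¬ C9 B := by
  unfold C9
  omega

end FD1T

open FD1T in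
theorem FD1T_thm (hFDKT : FDKT) (hFDAT : FDAT) (hFDCT : FDCT) : FD1T := by
  classical
  intro B hB hH hex
  have hB3 : 3 ≤ |B| := by
    obtain ⟨t, ht⟩ := hB.t1
    have h1 : t ≠ 0 := by
      rintro rfl
      exact hB.ne (by rw [ht, mul_zero])
    have h2 : 1 ≤ |t| := Int.one_le_abs h1
    rw [ht, abs_mul, abs_of_nonneg (by norm_num : (0 : ℤ) ≤ 3)]
    omega
  -- the minimal solution
  obtain ⟨X, Y, hXY⟩ := hex
  have hsol : ∃ n : ℕ, ∃ x y z : ℤ, z ≠ 0 ∧ x ^ 3 + y ^ 3 = B * z ^ 3 ∧ z.natAbs = n := by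
    refine ⟨_, X.num * Y.den, Y.num * X.den, X.den * Y.den, ?_, ?_, rfl⟩
    · have h1 : (X.den : ℤ) ≠ 0 := by exact_mod_cast X.den_nz
      have h2 : (Y.den : ℤ) ≠ 0 := by exact_mod_cast Y.den_nz
      exact mul_ne_zero h1 h2
    · have h1 : (X.den : ℚ) ≠ 0 := by exact_mod_cast X.den_nz
      have h2 : (Y.den : ℚ) ≠ 0 := by exact_mod_cast Y.den_nz
      have h3 : (X.num : ℚ) = X * X.den := by
        rw [Rat.mul_den_eq_num]
      have h4 : (Y.num : ℚ) = Y * Y.den := by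
        rw [Rat.mul_den_eq_num]
      have h5 : (((X.num * Y.den) ^ 3 + (Y.num * X.den) ^ 3 : ℤ) : ℚ) =
          ((B * (X.den * Y.den) ^ 3 : ℤ) : ℚ) := by
        push_cast
        rw [h3, h4, ← hXY]
        ring
      exact_mod_cast h5
  obtain ⟨x, y, z, hz, heq, hzn⟩ := Nat.find_spec hsol
  have hmin : ∀ x' y' z' : ℤ, z' ≠ 0 → x' ^ 3 + y' ^ 3 = B * z' ^ 3 → ¬ |z'| < |z| := by
    intro x' y' z' hz' h' hlt
    have h1 := Nat.find_min' hsol ⟨x', y', z', hz', h', rfl⟩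
    rw [← hzn] at h1
    rw [Int.abs_eq_natAbs, Int.abs_eq_natAbs] at hlt
    omega
  have hcop : IsCoprime x y := by
    rw [Int.isCoprime_iff_gcd_eq_one]
    by_contra hg
    obtain ⟨l, hl, hlg⟩ := Nat.exists_prime_and_dvd hg
    have hlx : (l : ℤ) ∣ x := (Int.natCast_dvd_natCast.2 hlg).trans (Int.gcd_dvd_left _ _)
    have hly : (l : ℤ) ∣ y := (Int.natCast_dvd_natCast.2 hlg).trans (Int.gcd_dvd_right _ _)
    have hlp : Prime (l : ℤ) := Nat.prime_iff_prime_int.1 hl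
    obtain ⟨x', rfl⟩ := hlx
    obtain ⟨y', rfl⟩ := hly
    by_cases hlz : (l : ℤ) ∣ z
    · obtain ⟨z', rfl⟩ := hlz
      have hl0 : (l : ℤ) ≠ 0 := hlp.ne_zero
      have hz' : z' ≠ 0 := right_ne_zero_of_mul hz
      refine hmin x' y' z' hz' ?_ ?_
      · have h1 : (l : ℤ) ^ 3 * (x' ^ 3 + y' ^ 3) = (l : ℤ) ^ 3 * (B * z' ^ 3) := by
          linear_combination heq
        exact mul_left_cancel₀ (pow_ne_zero 3 hl0) h1
      · rw [abs_mul]
        have h1 : 0 < |z'| := abs_pos.2 hz'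
        have h2 : (2 : ℤ) ≤ |(l : ℤ)| := by
          rw [Nat.abs_cast]
          exact_mod_cast hl.two_le
        nlinarith
    · apply cube_free hB hl
      have h1 : (l : ℤ) ^ 3 ∣ B * z ^ 3 := ⟨x' ^ 3 + y' ^ 3, by rw [← heq]; ring⟩
      have h3 : Nat.Coprime l z.natAbs := (Nat.Prime.coprime_iff_not_dvd hl).2
        fun h3 => hlz (Int.natCast_dvd.2 h3)
      have h4 : IsCoprime (l : ℤ) z := by
        rw [Int.isCoprime_iff_gcd_eq_one]
        exact h3
      have h2 : IsCoprime ((l : ℤ) ^ 3) (z ^ 3) := h4.pow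
      exact h2.dvd_of_dvd_mul_right h1
  obtain ⟨δ, c, d, hc, hd, hδ, hcd⟩ := hFDKT B x y z hB hH hcop hz heq
  obtain ⟨A, m, hA0, hAs, hAp, hAc, hmz⟩ := hFDAT B x y z c d δ hB hB3 hcop hz heq hc hd hδ hcd
  obtain ⟨a, u, hau, hap, hac, huc⟩ := hFDCT B m A hB hA0 hAs hAp hAc
  have hu0 : ∀ k, u k ≠ 0 := by
    intro k hk
    apply hA0 k
    rw [hau k, hk]
    ring
  have hprod : a 0 * a 1 * a 2 = B := by
    rw [← hap, Fin.prod_univ_three]
  rw [hau 0, hau 1, hau 2] at hAs hAp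
  refine ⟨a, u, hu0, by rw [Fin.sum_univ_three]; exact hAs, hap, hac, ?_,
    fun h => absurd h (not_c9 hB.t1)⟩
  intro k
  by_contra hno
  push Not at hno
  fin_cases k
  · obtain ⟨x', y', z', h1, h2, h3⟩ := PT.FD1.small (B := B) (z := z) (m := m) hB.ne
      (ai := a 1) (aj := a 2) (ak := a 0) (xi := u 1) (xj := u 2) (xk := u 0)
      (by rw [← hprod]; ring) (by rw [← hAp]; ring) (by rw [← hAs]; ring) (huc 1 2 (by decide))
      (hu0 1) (hu0 2) (hu0 0) (hno 1 (by decide)) (hno 2 (by decide)) hmz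
    exact hmin x' y' z' h1 h2 h3
  · obtain ⟨x', y', z', h1, h2, h3⟩ := PT.FD1.small (B := B) (z := z) (m := m) hB.ne
      (ai := a 0) (aj := a 2) (ak := a 1) (xi := u 0) (xj := u 2) (xk := u 1)
      (by rw [← hprod]; ring) (by rw [← hAp]; ring) (by rw [← hAs]; ring) (huc 0 2 (by decide))
      (hu0 0) (hu0 2) (hu0 1) (hno 0 (by decide)) (hno 2 (by decide)) hmz
    exact hmin x' y' z' h1 h2 h3
  · obtain ⟨x', y', z', h1, h2, h3⟩ := PT.FD1.small (B := B) (z := z) (m := m) hB.ne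
      (ai := a 0) (aj := a 1) (ak := a 2) (xi := u 0) (xj := u 1) (xk := u 2)
      hprod hAp hAs (huc 0 1 (by decide))
      (hu0 0) (hu0 1) (hu0 2) (hno 0 (by decide)) (hno 1 (by decide)) hmz
    exact hmin x' y' z' h1 h2 h3

end Pool.Agent.PT3
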