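import Pool.Agent.PT3.Stmts
import Pool.Agent.PT.FD2

/-!
# FD2T: the class of a point (`B` divisible by `3`)
-/

set_option autoImplicit false

namespace Pool.Agent.PT3

open Pool.Agent.Lib_helper18 Pool.Agent.Lib_helper18.Eis Pool.Agent.Lib_helper84.Cub
open Pool.Agent.PT Pool.Agent.PTE

namespace FD2T

open Pool.Agent.PT.FD2 (cast_ne s_cube s_cube' s_self mul_right s_neg)

/-- A cube-free number is not divisible by the cube of a prime. -/
theorem no_cube (hSPP : SPP) {B : ℤ} (hB : BT B) {l : ℕ} (hl : l.Prime)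
    (h : (l : ℤ) ^ 3 ∣ B) : False := by
  obtain ⟨h1, -⟩ := hSPP
  by_cases hl3 : (3 : ℤ) ∣ l
  · have h3 : 3 ∣ l := by exact_mod_cast hl3
    have h4 : 3 = l := (Nat.prime_dvd_prime_iff_eq Nat.prime_three hl).1 h3
    subst h4
    exact hB.t2 (by simpa using h)
  have hlu : ¬ IsUnit (l : Eis) := by
    rw [isUnit_iff_norm, norm_natCast]
    intro h3
    have h4 : l ^ 2 = 1 := by exact_mod_cast h3
    have h5 := hl.two_le
    nlinarith
  have hl0 : (l : Eis) ≠ 0 := by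
    have := cast_ne (m := (l : ℤ)) (by exact_mod_cast hl.ne_zero)
    simpa using this
  obtain ⟨ρ, hρ, hρl⟩ := WfDvdMonoid.exists_irreducible_factor hlu hl0
  have hρ' : Prime ρ := hρ.prime
  have hρ3 : ¬ ρ ∣ 3 := by
    intro h3
    have h4 : IsCoprime (3 : ℤ) l := by
      rw [Int.isCoprime_iff_gcd_eq_one]
      have h5 : Nat.Coprime 3 l := (Nat.Prime.coprime_iff_not_dvd Nat.prime_three).2
        (fun h6 => hl3 (by exact_mod_cast h6))
      exact_mod_cast h5
    obtain ⟨u, v, huv⟩ := h4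
    have h5 : (u : Eis) * 3 + v * l = 1 := by
      have := congrArg (fun m : ℤ => (m : Eis)) huv
      push_cast at this
      exact this
    exact hρ'.not_isUnit (isUnit_of_dvd_one (h5 ▸ dvd_add (h3.mul_left _) (hρl.mul_left _)))
  obtain ⟨π, hπ⟩ := h1 ρ hρ' hρ3
  have h2 : π.1 ^ 3 ∣ (B : Eis) := by
    have h3 : π.1 ∣ (l : Eis) := hπ.symm.dvd.trans hρl
    refine (pow_dvd_pow_of_dvd h3 3).trans ?_
    obtain ⟨c, hc⟩ := h
    refine ⟨c, ?_⟩
    rw [hc]
    push_cast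
    rfl
  have h3 := (fin π.2.1 (cast_ne hB.ne)).pow_dvd_iff_le_multiplicity.1 h2
  have h4 := hB.cf π
  exact absurd h3 (by unfold V at h4; omega)

theorem cube9 : ∀ y : ZMod 9, y ^ 3 = 0 ∨ y ^ 3 = 1 ∨ y ^ 3 = -1 := by decide

theorem three_dvd {x : ℤ} (h : (x : ZMod 9) ^ 3 = 0) : (3 : ℤ) ∣ x := by
  have h1 : ((x ^ 3 : ℤ) : ZMod 9) = 0 := by
    push_cast
    exact h
  rw [ZMod.intCast_zmod_eq_zero_iff_dvd] at h1
  have h2 : (3 : ℤ) ∣ x ^ 3 := (Dvd.intro 3 (by norm_num)).trans h1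
  exact Int.prime_three.dvd_of_dvd_pow h2

theorem wt_eq {a b : ℤ} (h3 : ¬ (3 : ℤ) ∣ a) (h : ((a : ZMod 9)) ^ 2 = (b : ZMod 9) ^ 2) :
    wt (a ^ 2) = wt (b ^ 2) := by
  have h1 : ((a ^ 2 : ℤ) : ZMod 9) = ((b ^ 2 : ℤ) : ZMod 9) := by
    push_cast
    exact h
  rw [ZMod.intCast_eq_intCast_iff_dvd_sub] at h1
  have e0 : a ^ 2 % 3 = 1 := by
    have h3 : a % 3 = 1 ∨ a % 3 = 2 := by omega
    rcases h3 with h3 | h3 <;> simp [pow_two, Int.mul_emod, h3]
  unfold wt
  rw [ZMod.intCast_eq_intCast_iff_dvd_sub]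
  set A : ℤ := a ^ 2
  set C : ℤ := b ^ 2
  push_cast at h1 ⊢
  omega

/-- the condition at `3` -/
theorem wild0 (a b c : ℤ) (ha : ¬ (3 : ℤ) ∣ a) (hc : (9 : ℤ) ∣ c)
    (hc27 : ¬ (27 : ℤ) ∣ c) : ∀ (N : ℕ) (x y z : ℤ), x.natAbs ≤ N → x ≠ 0 →
    a * x ^ 3 + b * y ^ 3 + c * z ^ 3 = 0 → ¬ (3 : ℤ) ∣ b → wt (a ^ 2) = wt (b ^ 2) := by
  intro N
  induction N with
  | zero =>
    intro x y z h1 h2 _ _
    exact absurd (Int.natAbs_eq_zero.1 (Nat.le_zero.1 h1)) h2
  | succ N ih =>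
    intro x y z h1 h2 hs hb
    by_cases hx : (3 : ℤ) ∣ x
    · obtain ⟨x', rfl⟩ := hx
      have hy : (3 : ℤ) ∣ y := by
        have h5 : (3 : ℤ) ∣ b * y ^ 3 := by
          obtain ⟨c', rfl⟩ := hc
          exact ⟨-(9 * a * x' ^ 3 + 3 * c' * z ^ 3), by linear_combination hs⟩
        exact Int.prime_three.dvd_of_dvd_pow ((Int.prime_three.dvd_or_dvd h5).resolve_left hb)
      obtain ⟨y', rfl⟩ := hy
      have hz : (3 : ℤ) ∣ z := by
        obtain ⟨c', rfl⟩ := hc
        have h5 : (3 : ℤ) ∣ c' * z ^ 3 := ⟨-(a * x' ^ 3 + b * y' ^ 3), by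
          have h6 : (9 : ℤ) * (c' * z ^ 3) = 9 * (3 * (-(a * x' ^ 3 + b * y' ^ 3))) := by
            linear_combination hs
          exact mul_left_cancel₀ (by norm_num) h6⟩
        refine Int.prime_three.dvd_of_dvd_pow ((Int.prime_three.dvd_or_dvd h5).resolve_left ?_)
        rintro ⟨d, rfl⟩
        exact hc27 ⟨d, by ring⟩
      obtain ⟨z', rfl⟩ := hz
      refine ih x' y' z' ?_ ?_ ?_ hb
      · have : (3 * x').natAbs = 3 * x'.natAbs := by rw [Int.natAbs_mul]; rfl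
        have h7 : x'.natAbs ≠ 0 := fun h => h2 (by rw [Int.natAbs_eq_zero.1 h, mul_zero])
        omega
      · rintro rfl
        exact h2 (mul_zero _)
      · have h6 : (27 : ℤ) * (a * x' ^ 3 + b * y' ^ 3 + c * z' ^ 3) = 27 * 0 := by
          linear_combination hs
        exact mul_left_cancel₀ (by norm_num) h6
    · have hy : ¬ (3 : ℤ) ∣ y := by
        intro hy
        have h5 : (3 : ℤ) ∣ a * x ^ 3 := by
          obtain ⟨c', rfl⟩ := hc
          obtain ⟨y', rfl⟩ := hy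
          exact ⟨-(9 * b * y' ^ 3 + 3 * c' * z ^ 3), by linear_combination hs⟩
        exact hx (Int.prime_three.dvd_of_dvd_pow
          ((Int.prime_three.dvd_or_dvd h5).resolve_left ha))
      refine wt_eq ha ?_
      have h9 : (c : ZMod 9) = 0 := by
        rw [ZMod.intCast_zmod_eq_zero_iff_dvd]
        exact_mod_cast hc
      have hs9 : (a : ZMod 9) * (x : ZMod 9) ^ 3 + (b : ZMod 9) * (y : ZMod 9) ^ 3 = 0 := by
        have := congrArg (Int.cast : ℤ → ZMod 9) hs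
        push_cast at this
        rw [h9, zero_mul, add_zero] at this
        exact this
      have hx9 : (x : ZMod 9) ^ 3 = 1 ∨ (x : ZMod 9) ^ 3 = -1 :=
        (cube9 _).resolve_left fun h => hx (three_dvd h)
      have hy9 : (y : ZMod 9) ^ 3 = 1 ∨ (y : ZMod 9) ^ 3 = -1 :=
        (cube9 _).resolve_left fun h => hy (three_dvd h)
      rcases hx9 with h7 | h7 <;> rcases hy9 with h8 | h8 <;> rw [h7, h8] at hs9
      · have : (a : ZMod 9) = -b := by linear_combination hs9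
        rw [this]; ring
      · have : (a : ZMod 9) = b := by linear_combination hs9
        rw [this]
      · have : (a : ZMod 9) = b := by linear_combination -hs9
        rw [this]
      · have : (a : ZMod 9) = -b := by linear_combination -hs9
        rw [this]; ring

theorem z3a : ∀ t : ZMod 3, t + t + t = 0 := by decide

/-- the number `9` divides one of the three factors -/
theorem split9 {a0 a1 a2 B : ℤ} (hp : a0 * a1 * a2 = B) (hc01 : IsCoprime a0 a1)
    (hc02 : IsCoprime a0 a2) (h9 : (9 : ℤ) ∣ B) (h27 : ¬ (27 : ℤ) ∣ B) (h : (3 : ℤ) ∣ a0) :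
    ¬ (3 : ℤ) ∣ a1 ∧ ¬ (3 : ℤ) ∣ a2 ∧ (9 : ℤ) ∣ a0 ∧ ¬ (27 : ℤ) ∣ a0 := by
  have h1 : ¬ (3 : ℤ) ∣ a1 := fun h' => Int.prime_three.not_isUnit (hc01.isUnit_of_dvd' h h')
  have h2 : ¬ (3 : ℤ) ∣ a2 := fun h' => Int.prime_three.not_isUnit (hc02.isUnit_of_dvd' h h')
  refine ⟨h1, h2, ?_, fun h' => h27 (by rw [← hp]; exact (h'.mul_right _).mul_right _)⟩
  have c1 : IsCoprime (3 : ℤ) a1 :=
    (Int.prime_three.irreducible.coprime_iff_not_dvd).2 h1
  have c2 : IsCoprime (3 : ℤ) a2 :=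
    (Int.prime_three.irreducible.coprime_iff_not_dvd).2 h2
  have c3 : IsCoprime (9 : ℤ) (a1 * a2) := by
    have : (9 : ℤ) = 3 ^ 2 := by norm_num
    rw [this]
    exact (c1.mul_right c2).pow_left
  rw [← hp, mul_assoc] at h9
  exact c3.dvd_of_dvd_mul_right h9

theorem main (hSTM : STM) (hSPP : SPP) (hLCL : LCL) {h n E q : ℕ} (hq : q.Prime)
    (hB : BT (BB h n E q))
    {a0 a1 a2 x0 x1 x2 : ℤ} (hx0 : x0 ≠ 0) (hx1 : x1 ≠ 0) (hx2 : x2 ≠ 0)
    (hs : a0 * x0 ^ 3 + a1 * x1 ^ 3 + a2 * x2 ^ 3 = 0) (hp : a0 * a1 * a2 = BB h n E q)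
    (hc : IsCoprime a0 a1) (hc02 : IsCoprime a0 a2) (hc12 : IsCoprime a1 a2)
    (h2 : ¬ IsUnit a0 ∨ ¬ IsUnit a1)
    (hq0 : ¬ (q : ℤ) ∣ a0) (hq1 : ¬ (q : ℤ) ∣ a1) :
    ∃ z X Y : ℤ, Pt (BB h n E q) z X Y ∧ AdT (BB h n E q) z ∧
      (∀ l : ℕ, l.Prime → (l : ℤ) ∣ z → l ∣ 3 * n) ∧ ¬ ∃ t : ℤ, t ^ 3 = z := by
  have hBB : BB h n E q = (3 : ℤ) ^ h * n * (q : ℤ) ^ E := rfl
  set B : ℤ := BB h n E q with hBd
  have ha0 : a0 ≠ 0 := by
    rintro rfl
    exact hB.ne (by rw [← hp]; ring)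
  have ha1 : a1 ≠ 0 := by
    rintro rfl
    exact hB.ne (by rw [← hp]; ring)
  have ha2 : a2 ≠ 0 := by
    rintro rfl
    exact hB.ne (by rw [← hp]; ring)
  have hz0 : a0 ^ 2 * a1 ≠ 0 := mul_ne_zero (pow_ne_zero 2 ha0) ha1
  have heq : a0 ^ 2 * a1 * ((a0 * x0) ^ 3 + a0 ^ 2 * a1 * x1 ^ 3) = B * (-a0 * x2) ^ 3 := by
    rw [← hp]
    linear_combination a0 ^ 4 * a1 * hs
  have hc0 : -a0 * x2 ≠ 0 := mul_ne_zero (neg_ne_zero.2 ha0) hx2
  refine ⟨a0 ^ 2 * a1, a0 * x0, x1, ⟨mul_ne_zero ha0 hx0, hx1, -a0 * x2, hc0, heq⟩, ?_, ?_, ?_⟩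
  · refine ⟨⟨hz0, ?_, ?_⟩, ?_⟩
    · intro π
      have hs := hSTM π.1 π.2.1 (hSPP.2.2.2.1 π).1
      set z : Eis := ((a0 ^ 2 * a1 : ℤ) : Eis) with hz
      set n0 : ℤ := (a0 * x0) ^ 3 + a0 ^ 2 * a1 * x1 ^ 3 with hn0
      have hn0' : n0 ≠ 0 := by
        intro h
        rw [h, mul_zero] at heq
        exact mul_ne_zero hB.ne (pow_ne_zero 3 hc0) heq.symm
      have hzne : z ≠ 0 := cast_ne hz0
      have hBne : (B : Eis) ≠ 0 := cast_ne hB.ne
      have hcne : ((-a0 * x2 : ℤ) : Eis) ≠ 0 := cast_ne hc0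
      have hnne : (n0 : Eis) ≠ 0 := cast_ne hn0'
      have hXne : ((a0 * x0 : ℤ) : Eis) ≠ 0 := cast_ne (mul_ne_zero ha0 hx0)
      have hYne : (x1 : Eis) ≠ 0 := cast_ne hx1
      have e1 : z * (n0 : Eis) = (B : Eis) * ((-a0 * x2 : ℤ) : Eis) ^ 3 := by
        have := congrArg (fun m : ℤ => (m : Eis)) heq
        push_cast at this ⊢
        rw [hz]
        push_cast
        exact this
      have e2 : tm π.1 z (B : Eis) = tm π.1 z (z * (n0 : Eis)) := by
        rw [e1, mul_right hs hzne hBne (pow_ne_zero 3 hcne), s_cube' hs hzne hcne, add_zero]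
      rw [e2, mul_right hs hzne hzne hnne, s_self hs hzne, zero_add]
      have e3 : ((a0 * x0 : ℤ) : Eis) ^ 3 + z * (x1 : Eis) ^ 3 + -(n0 : Eis) = 0 := by
        rw [hz, hn0]
        push_cast
        ring
      have e4 := hs.stein _ _ _ (pow_ne_zero 3 hXne) (mul_ne_zero hzne (pow_ne_zero 3 hYne))
        (neg_ne_zero.2 hnne) e3
      rw [s_cube hs hXne (mul_ne_zero hzne (pow_ne_zero 3 hYne)),
        s_cube' hs (neg_ne_zero.2 hnne) hXne, zero_add, add_zero,
        s_neg hs (mul_ne_zero hzne (pow_ne_zero 3 hYne)) hnne,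
        hs.mul _ _ _ hzne (pow_ne_zero 3 hYne) hnne, s_cube hs hYne hnne, add_zero] at e4
      exact e4
    · intro π hπ h
      apply hπ
      have e1 : (B : Eis) = (a0 : Eis) * a1 * a2 := by
        rw [← hp]
        push_cast
        ring
      have e2 : ((a0 ^ 2 * a1 : ℤ) : Eis) = (a0 : Eis) ^ 2 * a1 := by
        push_cast
        ring
      rw [e2] at h
      rw [e1]
      rcases π.2.1.dvd_or_dvd h with h | h
      · exact ((π.2.1.dvd_of_dvd_pow h).mul_right _).mul_right _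
      · exact (h.mul_left _).mul_right _
    · intro hlv
      obtain ⟨-, hmul, -, hpr, -⟩ := hLCL
      have m1 := hmul a0 a1 ha0 ha1
      have m2 := hmul (a0 * a1) a2 (mul_ne_zero ha0 ha1) ha2
      have m3 := hmul a0 a0 ha0 ha0
      have m4 := hmul (a0 ^ 2) a1 (pow_ne_zero 2 ha0) ha1
      rw [← pow_two] at m3
      rw [hp, m1.1, m1.2] at m2
      rw [m3.1, m3.2] at m4
      have h9 : (9 : ℤ) ∣ B := by
        have hv1 : padicValInt 3 B < 3 := by
          by_contra hcon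
          have : ((3 : ℕ) : ℤ) ^ 3 ∣ B := (padicValInt_dvd_iff 3 B).2 (Or.inr (by omega))
          exact hB.t2 (by simpa using this)
        have hv2 : padicValInt 3 B = 2 := by
          unfold lv at hlv
          generalize padicValInt 3 B = v at hlv hv1
          interval_cases v
          · exact absurd hlv (by decide)
          · exact absurd hlv (by decide)
          · rfl
        have : ((3 : ℕ) : ℤ) ^ 2 ∣ B := (padicValInt_dvd_iff 2 B).2 (Or.inr hv2.ge)
        simpa using this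
      have h3d : (3 : ℤ) ∣ a0 ∨ (3 : ℤ) ∣ a1 ∨ (3 : ℤ) ∣ a2 := by
        have h3B : (3 : ℤ) ∣ a0 * a1 * a2 := by rw [hp]; exact hB.t1
        rcases Int.prime_three.dvd_or_dvd h3B with h | h
        · rcases Int.prime_three.dvd_or_dvd h with h | h
          · exact Or.inl h
          · exact Or.inr (Or.inl h)
        · exact Or.inr (Or.inr h)
      rw [m4.1, m4.2]
      rcases h3d with h3 | h3 | h3
      · obtain ⟨n1, n2, n3, n4⟩ := split9 hp hc hc02 h9 hB.t2 h3
        have w := wild0 a1 a2 a0 n1 n3 n4 _ x1 x2 x0 le_rfl hx1 (by linear_combination hs) n2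
        obtain ⟨v1, u1⟩ := hpr a1 n1
        obtain ⟨v2, u2⟩ := hpr a2 n2
        rw [v1, v2, hlv] at m2
        rw [m2.2, u2, ← w, ← u1, v1]
        have v0 : lv a0 = 2 := by
          have := m2.1
          linear_combination -this
        rw [v0]
        generalize lw a0 = s
        generalize lw a1 = t
        revert s t
        decide
      · obtain ⟨n1, n2, n3, n4⟩ := split9 (a0 := a1) (a1 := a0) (a2 := a2)
          (by rw [← hp]; ring) hc.symm hc12 h9 hB.t2 h3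
        have w := wild0 a0 a2 a1 n1 n3 n4 _ x0 x2 x1 le_rfl hx0 (by linear_combination hs) n2
        obtain ⟨v1, u1⟩ := hpr a0 n1
        obtain ⟨v2, u2⟩ := hpr a2 n2
        rw [v1, v2, hlv] at m2
        rw [m2.2, u2, ← w, ← u1, v1]
        have v0 : lv a1 = 2 := by
          have := m2.1
          linear_combination -this
        rw [v0]
        generalize lw a0 = s
        generalize lw a1 = t
        revert s t
        decide
      · obtain ⟨n1, n2, n3, n4⟩ := split9 (a0 := a2) (a1 := a0) (a2 := a1)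
          (by rw [← hp]; ring) hc02.symm hc12.symm h9 hB.t2 h3
        have w := wild0 a0 a1 a2 n1 n3 n4 _ x0 x1 x2 le_rfl hx0 hs n2
        obtain ⟨v1, u1⟩ := hpr a0 n1
        obtain ⟨v2, u2⟩ := hpr a1 n2
        rw [u2, ← w, ← u1, v1, v2]
        generalize lw a0 = s
        generalize lw B = t
        revert s t
        decide
  · intro l hl h
    have hl' : Prime (l : ℤ) := Nat.prime_iff_prime_int.1 hl
    have h1 : (l : ℤ) ∣ a0 ∨ (l : ℤ) ∣ a1 := by
      rcases hl'.dvd_or_dvd h with h | h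
      · exact Or.inl (hl'.dvd_of_dvd_pow h)
      · exact Or.inr h
    have h3 : (l : ℤ) ∣ B := by
      rw [← hp]
      rcases h1 with h1 | h1
      · exact (h1.mul_right _).mul_right _
      · exact (h1.mul_left _).mul_right _
    rw [hBB] at h3
    rcases hl'.dvd_or_dvd h3 with h4 | h4
    · rcases hl'.dvd_or_dvd h4 with h5 | h5
      · have h6 : (l : ℤ) ∣ 3 := hl'.dvd_of_dvd_pow h5
        have h7 : l ∣ 3 := by exact_mod_cast h6
        exact h7.mul_right _
      · have h7 : l ∣ n := by exact_mod_cast h5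
        exact h7.mul_left _
    · exfalso
      have h5 : l ∣ q := by
        have := hl'.dvd_of_dvd_pow h4
        exact_mod_cast this
      have h6 : l = q := (Nat.prime_dvd_prime_iff_eq hl hq).1 h5
      rw [h6] at h1
      exact h1.elim hq0 hq1
  · rintro ⟨t, ht⟩
    have hc' : IsCoprime (a0 ^ 2) a1 := hc.pow_left
    obtain ⟨e, he⟩ := Int.eq_pow_of_mul_eq_pow_odd_left hc' (by decide : Odd 3) ht.symm
    obtain ⟨f, hf⟩ := Int.eq_pow_of_mul_eq_pow_odd_right hc' (by decide : Odd 3) ht.symm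
    rcases h2 with h2 | h2
    · -- `a0` is a cube
      have h3 : e ∣ a0 := by
        rw [← Int.pow_dvd_pow_iff (n := 3) (by norm_num)]
        exact ⟨a0, by rw [← he]; ring⟩
      obtain ⟨g, hg⟩ := h3
      have he0 : e ≠ 0 := by
        rintro rfl
        exact ha0 (by rw [hg, zero_mul])
      have h4 : g ^ 2 = e := by
        have h5 : e ^ 2 * g ^ 2 = e ^ 2 * e := by
          rw [← mul_pow, ← hg, he]
          ring
        exact mul_left_cancel₀ (pow_ne_zero 2 he0) h5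
      have h5 : a0 = g ^ 3 := by rw [hg, ← h4]; ring
      have h6 : ¬ IsUnit g := fun h => h2 (by rw [h5]; exact h.pow 3)
      have h7 : g.natAbs ≠ 1 := fun h => h6 (Int.isUnit_iff_natAbs_eq.2 h)
      obtain ⟨l, hl, hlg⟩ := Nat.exists_prime_and_dvd h7
      refine no_cube hSPP hB hl ?_
      have h8 : (l : ℤ) ∣ g := Int.natCast_dvd.2 hlg
      refine (pow_dvd_pow_of_dvd h8 3).trans ?_
      rw [← h5, ← hp]
      exact ⟨a1 * a2, by ring⟩
    · have h6 : ¬ IsUnit f := fun h => h2 (by rw [hf]; exact h.pow 3)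
      have h7 : f.natAbs ≠ 1 := fun h => h6 (Int.isUnit_iff_natAbs_eq.2 h)
      obtain ⟨l, hl, hlg⟩ := Nat.exists_prime_and_dvd h7
      refine no_cube hSPP hB hl ?_
      have h8 : (l : ℤ) ∣ f := Int.natCast_dvd.2 hlg
      refine (pow_dvd_pow_of_dvd h8 3).trans ?_
      rw [← hf, ← hp]
      exact ⟨a0 * a2, by ring⟩

end FD2T

open FD2T in
theorem FD2T_thm (hSTM : STM) (hSPP : SPP) (hLCL : LCL) : FD2T := by
  intro h n E q a x _ hE hq _ _ _ hB hcell
  obtain ⟨hne, hsum, hprod, hcop, htwo, -⟩ := hcell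
  rw [Fin.sum_univ_three] at hsum
  rw [Fin.prod_univ_three] at hprod
  have hq' : Prime (q : ℤ) := Nat.prime_iff_prime_int.1 hq
  have hqd : (q : ℤ) ∣ a 0 * a 1 * a 2 := by
    rw [hprod]
    have hE0 : E ≠ 0 := by rcases hE with h | h <;> omega
    exact (dvd_pow_self _ hE0).mul_left _
  have hnot : ∀ i j, i ≠ j → (q : ℤ) ∣ a i → ¬ (q : ℤ) ∣ a j := fun i j hij h1 h2 =>
    hq'.not_isUnit ((hcop i j hij).isUnit_of_dvd' h1 h2)
  have hk : (q : ℤ) ∣ a 0 ∨ (q : ℤ) ∣ a 1 ∨ (q : ℤ) ∣ a 2 := by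
    rcases hq'.dvd_or_dvd hqd with h | h
    · rcases hq'.dvd_or_dvd h with h | h
      · exact Or.inl h
      · exact Or.inr (Or.inl h)
    · exact Or.inr (Or.inr h)
  rcases hk with h | h | h
  · refine main hSTM hSPP hLCL (a0 := a 1) (a1 := a 2) (a2 := a 0) hq hB (hne 1) (hne 2) (hne 0)
      (by linear_combination hsum) (by linear_combination hprod) (hcop 1 2 (by decide))
      (hcop 1 0 (by decide)) (hcop 2 0 (by decide)) ?_
      (hnot 0 1 (by decide) h) (hnot 0 2 (by decide) h)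
    obtain ⟨j, hj, hu⟩ := htwo 0
    fin_cases j
    · exact absurd rfl hj
    · exact Or.inl hu
    · exact Or.inr hu
  · refine main hSTM hSPP hLCL (a0 := a 0) (a1 := a 2) (a2 := a 1) hq hB (hne 0) (hne 2) (hne 1)
      (by linear_combination hsum) (by linear_combination hprod) (hcop 0 2 (by decide))
      (hcop 0 1 (by decide)) (hcop 2 1 (by decide)) ?_
      (hnot 1 0 (by decide) h) (hnot 1 2 (by decide) h)
    obtain ⟨j, hj, hu⟩ := htwo 1
    fin_cases j
    · exact Or.inl hu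
    · exact absurd rfl hj
    · exact Or.inr hu
  · refine main hSTM hSPP hLCL (a0 := a 0) (a1 := a 1) (a2 := a 2) hq hB (hne 0) (hne 1) (hne 2)
      (by linear_combination hsum) (by linear_combination hprod) (hcop 0 1 (by decide))
      (hcop 0 2 (by decide)) (hcop 1 2 (by decide)) ?_
      (hnot 2 0 (by decide) h) (hnot 2 1 (by decide) h)
    obtain ⟨j, hj, hu⟩ := htwo 2
    fin_cases j
    · exact Or.inl hu
    · exact Or.inr hu
    · exact absurd rfl hj

end Pool.Agent.PT3
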