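import Pool.Agent.PT3.Stmts
import Pool.Agent.PT.FDC

/-!
# Splitting into cells, `3 ∣ B`
-/

namespace Pool.Agent.PT3

open Pool.Agent.Lib_helper18 Pool.Agent.Lib_helper18.Eis Pool.Agent.Lib_helper84.Cub
open Pool.Agent.PT Pool.Agent.PTE

namespace FDCT

open Pool.Agent.PT.FDC

/-- the condition on `B` means that `B` is cube-free -/
theorem cf_of_BT {B : ℤ} (hB : BT B) : CF B := by
  intro p hp h
  by_cases h3 : (3 : ℤ) ∣ p
  · apply hB.t2
    have e : (27 : ℤ) = 3 ^ 3 := by norm_num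
    rw [e]
    exact (pow_dvd_pow_of_dvd h3 3).trans h
  have hp0 : p ≠ 0 := hp.ne_zero
  have hnu : ¬ IsUnit ((p : ℤ) : Eis) := by
    rw [isUnit_iff_norm]
    intro h1
    have h2 : ((p : ℤ) : Eis).norm = p ^ 2 := by
      rw [Eis.norm]; simp
    rw [h2] at h1
    have : p = 1 ∨ p = -1 := by
      have h3 : (p - 1) * (p + 1) = 0 := by linear_combination h1
      rcases mul_eq_zero.mp h3 with h | h
      · left; linarith
      · right; linarith
    exact hp.not_isUnit (Int.isUnit_iff.mpr this)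
  have hpe : ((p : ℤ) : Eis) ≠ 0 := by
    intro h1
    have := congrArg Eis.re h1
    simp at this
    exact hp0 this
  obtain ⟨l, hlirr, hlt⟩ := WfDvdMonoid.exists_irreducible_factor hnu hpe
  have hl : Prime l := hlirr.prime
  have hl3 : ¬ l ∣ 3 := by
    intro h1
    obtain ⟨u, v, huv⟩ := (Int.prime_three.coprime_iff_not_dvd).mpr h3
    have h2 : ((u : ℤ) : Eis) * 3 + ((v : ℤ) : Eis) * ((p : ℤ) : Eis) = 1 := by
      have h4 : ((u * 3 + v * p : ℤ) : Eis) = ((1 : ℤ) : Eis) := by rw [huv]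
      push_cast at h4
      exact h4
    apply hl.not_isUnit
    rw [isUnit_iff_dvd_one, ← h2]
    exact dvd_add (Dvd.dvd.mul_left h1 _) (Dvd.dvd.mul_left hlt _)
  obtain ⟨i, hi⟩ := exists_prim (not_lam_dvd_of_prime hl hl3)
  have hass : Associated (l * w ^ i) l := ⟨(isUnit_w.pow i).unit⁻¹, by
    rw [mul_assoc]; simp⟩
  have hBe : ((B : ℤ) : Eis) ≠ 0 := by
    intro h1
    have := congrArg Eis.re h1
    simp at this
    exact hB.ne this
  have key : ∀ π : Eis, Associated π l → π.re % 3 = 2 → (3 : ℤ) ∣ π.im → False := by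
    intro π hπ h1 h2
    have hπp : Prime π := hπ.symm.prime hl
    have h3 := hB.cf ⟨π, hπp, h1, h2⟩
    simp only at h3
    have h4 : π ^ 3 ∣ ((B : ℤ) : Eis) := by
      have h5 : π ∣ ((p : ℤ) : Eis) := hπ.dvd.trans hlt
      refine (pow_dvd_pow_of_dvd h5 3).trans ?_
      obtain ⟨c, rfl⟩ := h
      exact ⟨c, by push_cast; ring⟩
    have h6 : 3 ≤ V π ((B : ℤ) : Eis) := (fin hπp hBe).le_multiplicity_of_pow_dvd h4
    omega
  obtain ⟨hi1, hi2⟩ := hi
  have h5 : (l * w ^ i).re % 3 = 1 ∨ (l * w ^ i).re % 3 = 2 := by omega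
  rcases h5 with h5 | h5
  · refine key (-(l * w ^ i)) (hass.neg_left) ?_ ?_
    · rw [neg_re]; omega
    · rw [neg_im]; omega
  · exact key _ hass h5 hi1

end FDCT

open FDCT Pool.Agent.PT.FDC in
theorem FDCT_thm : FDCT := by
  intro B m A hB hA hsum hprod hcop
  choose a x hax hcf using fun k => exists_cf (A k) (hA k)
  have hx0 : ∀ k, x k ≠ 0 := by
    intro k h
    apply hA k
    rw [hax k, h]; ring
  have hm0 : m ≠ 0 := by
    rintro rfl
    have : A 0 * A 1 * A 2 = 0 := by rw [hprod]; ring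
    exact mul_ne_zero (mul_ne_zero (hA 0) (hA 1)) (hA 2) this
  have hca : ∀ i j, i ≠ j → IsCoprime (a i) (a j) := by
    intro i j hij
    have h := hcop i j hij
    rw [hax i, hax j] at h
    exact h.of_mul_left_left.of_mul_right_left
  have hcx : ∀ i j, i ≠ j → IsCoprime (x i) (x j) := by
    intro i j hij
    have h := hcop i j hij
    rw [hax i, hax j] at h
    exact (h.of_mul_left_right.of_mul_right_right.of_isCoprime_of_dvd_left
      (dvd_pow_self _ (by norm_num))).of_isCoprime_of_dvd_right (dvd_pow_self _ (by norm_num))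
  have hP : CF (a 0 * a 1 * a 2) := CF.mul (CF.mul (hcf 0) (hcf 1) (hca 0 1 (by decide))) (hcf 2)
    (IsCoprime.mul_left (hca 0 2 (by decide)) (hca 1 2 (by decide)))
  have hu := cf_unique (cf_of_BT hB) hP hm0
    (mul_ne_zero (mul_ne_zero (hx0 0) (hx0 1)) (hx0 2)) (by
      rw [← hprod, hax 0, hax 1, hax 2]; ring)
  rcases hu with hu | hu
  · have hprod' : ∏ k, a k = B := by rw [Fin.prod_univ_three, hu]
    exact ⟨a, x, hax, hprod', hca, hcx⟩
  · have hprod' : ∏ k, (-a k) = B := by rw [Fin.prod_univ_three]; linear_combination -hu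
    have hax' : ∀ k, A k = (-a k) * (-x k) ^ 3 := by intro k; rw [hax k]; ring
    have hcx' : ∀ i j, i ≠ j → IsCoprime (-x i) (-x j) := fun i j h =>
      (hcx i j h).neg_left.neg_right
    exact ⟨fun k => -a k, fun k => -x k, hax', hprod',
      fun i j h => (hca i j h).neg_left.neg_right, hcx'⟩

end Pool.Agent.PT3
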