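import Pool.Agent.PT3.Stmts
import Pool.Agent.PT.F2B
import Pool.Agent.PT.FDK

/-!
# FDKT: first descent, a primitive solution of `x^3 + y^3 = B z^3`, `B` divisible by `3`
-/

open NumberField IsDedekindDomain Finset
open scoped nonZeroDivisors Pointwise

namespace Pool.Agent.PT3

open Pool.Agent.Lib_helper18 Pool.Agent.Lib_helper18.Eis Pool.Agent.Lib_helper84.Cub
open Pool.Agent.PT Pool.Agent.PTE

namespace FDKT

theorem cube_sub (t : ℤ) : (3 : ℤ) ∣ t ^ 3 - t := by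
  have h : t % 3 = 0 ∨ t % 3 = 1 ∨ t % 3 = 2 := by omega
  have e := Int.emod_add_mul_ediv t 3
  rcases h with h | h | h
  · rw [h] at e
    refine ⟨9 * (t / 3) ^ 3 - t / 3, ?_⟩
    obtain ⟨k, hk⟩ : ∃ k, k = t / 3 := ⟨_, rfl⟩
    rw [← hk] at e ⊢
    rw [← e]
    ring
  · rw [h] at e
    refine ⟨9 * (t / 3) ^ 3 + 9 * (t / 3) ^ 2 + 2 * (t / 3), ?_⟩
    obtain ⟨k, hk⟩ : ∃ k, k = t / 3 := ⟨_, rfl⟩
    rw [← hk] at e ⊢
    rw [← e]
    ring
  · rw [h] at e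
    refine ⟨9 * (t / 3) ^ 3 + 18 * (t / 3) ^ 2 + 11 * (t / 3) + 2, ?_⟩
    obtain ⟨k, hk⟩ : ∃ k, k = t / 3 := ⟨_, rfl⟩
    rw [← hk] at e ⊢
    rw [← e]
    ring

theorem dvd27 {B x y z : ℤ} (h3 : (3 : ℤ) ∣ B) (h9 : ¬ (9 : ℤ) ∣ B) (hxy : IsCoprime x y)
    (h : x ^ 3 + y ^ 3 = B * z ^ 3) : (27 : ℤ) ∣ x + y ∧ ¬ (3 : ℤ) ∣ y := by
  have p3 : Prime (3 : ℤ) := Int.prime_three
  have hs : (3 : ℤ) ∣ x + y := by
    have h1 := cube_sub x
    have h2 := cube_sub y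
    have h4 : (3 : ℤ) ∣ x ^ 3 + y ^ 3 := by
      rw [h]
      exact h3.mul_right _
    have e : x + y = (x ^ 3 + y ^ 3) - (x ^ 3 - x) - (y ^ 3 - y) := by ring
    rw [e]
    exact (h4.sub h1).sub h2
  have hy : ¬ (3 : ℤ) ∣ y := by
    intro hy
    have hx : (3 : ℤ) ∣ x := (dvd_add_left hy).1 hs
    exact p3.not_isUnit (hxy.isUnit_of_dvd' hx hy)
  have hx : ¬ (3 : ℤ) ∣ x := by
    intro hx
    exact hy ((dvd_add_right hx).1 hs)
  refine ⟨?_, hy⟩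
  obtain ⟨t, ht⟩ := hs
  obtain ⟨B', hB'⟩ := h3
  have hB3 : ¬ (3 : ℤ) ∣ B' := by
    rintro ⟨c, hc⟩
    exact h9 ⟨c, by rw [hB', hc]; ring⟩
  have hU : ¬ (3 : ℤ) ∣ 3 * t ^ 2 - x * y := by
    intro hU
    have h5 : (3 : ℤ) ∣ x * y := by
      have e : x * y = 3 * t ^ 2 - (3 * t ^ 2 - x * y) := by ring
      rw [e]
      exact (dvd_mul_right _ _).sub hU
    rcases p3.dvd_or_dvd h5 with h6 | h6
    · exact hx h6
    · exact hy h6
  have e1 : 3 * (t * (3 * t ^ 2 - x * y)) = B' * z ^ 3 := by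
    have hy' : y = 3 * t - x := by linarith
    have h5 : x ^ 3 + y ^ 3 = 3 * (B' * z ^ 3) := by rw [h, hB']; ring
    have h6 : x ^ 3 + y ^ 3 = 3 * (3 * (t * (3 * t ^ 2 - x * y))) := by
      rw [hy']
      ring
    have h7 : (3 : ℤ) * (3 * (t * (3 * t ^ 2 - x * y))) = 3 * (B' * z ^ 3) := by
      rw [← h6, h5]
    exact mul_left_cancel₀ (by norm_num) h7
  have hz : (3 : ℤ) ∣ z := by
    have h5 : (3 : ℤ) ∣ B' * z ^ 3 := ⟨_, e1.symm⟩
    rcases p3.dvd_or_dvd h5 with h6 | h6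
    · exact absurd h6 hB3
    · exact p3.dvd_of_dvd_pow h6
  obtain ⟨z', hz'⟩ := hz
  have e2 : t * (3 * t ^ 2 - x * y) = 9 * (B' * z' ^ 3) := by
    have h5 : (3 : ℤ) * (t * (3 * t ^ 2 - x * y)) = 3 * (9 * (B' * z' ^ 3)) := by
      rw [e1, hz']
      ring
    exact mul_left_cancel₀ (by norm_num) h5
  have h6 : (9 : ℤ) ∣ t * (3 * t ^ 2 - x * y) := ⟨_, e2⟩
  have h7 : IsCoprime (9 : ℤ) (3 * t ^ 2 - x * y) := by
    have h8 : IsCoprime (3 : ℤ) (3 * t ^ 2 - x * y) := (Prime.coprime_iff_not_dvd p3).2 hU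
    have h10 := h8.pow_left (m := 2)
    norm_num at h10
    exact h10
  obtain ⟨c, hc⟩ := h7.dvd_of_dvd_mul_right h6
  exact ⟨c, by rw [ht, hc]; ring⟩

theorem lam_eq : lam = 1 - w := by
  ext <;> simp [lam]

theorem lam_six : lam ^ 6 = -27 := by
  rw [lam_eq]
  linear_combination (w ^ 4 - 7 * w ^ 3 + 21 * w ^ 2 - 34 * w + 28) * w_rel

theorem wild (hSLC : SLC) {x y : ℤ} (h27 : (27 : ℤ) ∣ x + y) (hy : ¬ (3 : ℤ) ∣ y) (c : Eis)
    (hc : c ≠ 0) :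
    sl (w ^ 2 * (((x : Eis) + w * y) * ((x : Eis) + w ^ 2 * y) ^ 2)) c = 0 := by
  obtain ⟨k, hk⟩ := h27
  have hl : Prime lam := hSLC.prime
  have hly : ¬ lam ∣ (y : Eis) := by
    rw [lam_dvd_iff]
    simp only [intCast_re, intCast_im, add_zero]
    exact hy
  have hy0 : (y : Eis) ≠ 0 := fun h0 => hly (by rw [h0]; exact dvd_zero _)
  have ha0 : -((y : Eis) * lam) ≠ 0 := neg_ne_zero.2 (mul_ne_zero hy0 hl.ne_zero)
  have hx : (x : Eis) = lam ^ 6 * (-k : Eis) - y := by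
    have h1 : (x : Eis) + y = 27 * k := by
      have := congrArg (fun t : ℤ => (t : Eis)) hk
      push_cast at this
      exact this
    rw [lam_six]
    linear_combination h1
  have hF1 : (x : Eis) + w * y = lam ^ 6 * (-k : Eis) - y * lam := by
    rw [hx]
    rw [lam_eq]
    ring
  have hF2 : (x : Eis) + w ^ 2 * y = lam ^ 6 * (-k : Eis) + w ^ 2 * y * lam := by
    rw [hx]
    rw [lam_eq]
    linear_combination (y : Eis) * w_cube
  have hV : V lam ((-((y : Eis) * lam)) ^ 3) = 3 := by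
    rw [V_pow hl ha0, V_neg, V_mul hl hy0 hl.ne_zero, V_eq_zero hly, V_self]
  have hd : lam ^ (V lam ((-((y : Eis) * lam)) ^ 3) + 4) ∣
      w ^ 2 * (((x : Eis) + w * y) * ((x : Eis) + w ^ 2 * y) ^ 2) - (-((y : Eis) * lam)) ^ 3 := by
    rw [hV, hF1, hF2]
    refine ⟨lam * ((-k : Eis) * (w ^ 2 * lam ^ 10 * (-k : Eis) ^ 2 +
      2 * w ^ 4 * lam ^ 5 * (-k : Eis) * y + w ^ 6 * (y : Eis) ^ 2 -
      w ^ 2 * y * lam ^ 5 * (-k : Eis) - 2 * w ^ 4 * (y : Eis) ^ 2)), ?_⟩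
    linear_combination (-(w ^ 3 + 1) * ((y : Eis) * lam) ^ 3) * w_cube
  rw [hSLC.cont _ _ c (pow_ne_zero 3 ha0) hc hd, PT.F2B.s_pow hSLC ha0 hc]
  have h3 : ((3 : ℕ) : ZMod 3) = 0 := rfl
  rw [h3, zero_mul]

theorem three_ne : (3 : Eis) ≠ 0 := by
  intro h
  have := congrArg Eis.re h
  revert this
  decide

theorem four_ne : (4 : Eis) ≠ 0 := by
  intro h
  have := congrArg Eis.re h
  revert this
  decide

end FDKT

open PT.FDK in
theorem FDKT_thm (hSTM : STM) (hSPP : SPP) (hSTAR : STAR) (hSLC : SLC) (hSSL : SSL) (hSCJ : SCJ) :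
    FDKT := by
  intro B x y z hB hM hxy hz hxyz
  have hB0 : (B : Eis) ≠ 0 := cast_ne hB.ne
  have hz0 : (z : Eis) ≠ 0 := cast_ne hz
  obtain ⟨F, hF⟩ : ∃ F : ℕ → Eis, F = fun i => (x : Eis) + w ^ i * 1 * y := ⟨_, rfl⟩
  have hF0 : F 0 = (x : Eis) + y := by rw [hF]; ring
  have hF1 : F 1 = (x : Eis) + w * y := by rw [hF]; ring
  have hF2 : F 2 = (x : Eis) + w ^ 2 * y := by rw [hF]; ring
  have hcast : (x : Eis) ^ 3 + (y : Eis) ^ 3 = B * (z : Eis) ^ 3 := by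
    have := congrArg (fun t : ℤ => (t : Eis)) hxyz
    push_cast at this
    exact this
  have hprod : F 0 * F 1 * F 2 = (B : Eis) * (z : Eis) ^ 3 := by
    rw [← hcast, hF0, hF1, hF2]
    linear_combination ((x : Eis) ^ 2 * y + x * y ^ 2) * w_rel + ((x : Eis) * y ^ 2 + y ^ 3) * w_cube
  have hne : F 0 * F 1 * F 2 ≠ 0 := by
    rw [hprod]
    exact mul_ne_zero hB0 (pow_ne_zero _ hz0)
  have h0 : F 0 ≠ 0 := left_ne_zero_of_mul (left_ne_zero_of_mul hne)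
  have h1 : F 1 ≠ 0 := right_ne_zero_of_mul (left_ne_zero_of_mul hne)
  have h2 : F 2 ≠ 0 := right_ne_zero_of_mul hne
  have hc1 : conj (F 1) = F 2 := by
    rw [hF1, hF2, map_add, map_mul, conj_intCast, conj_intCast, conj_w]
  have hc2 : conj (F 2) = F 1 := by rw [← hc1, conj_conj]
  have hw0 : w ≠ 0 := fun h => by
    have := w_cube
    rw [h] at this
    norm_num at this
  have hFall : ∀ i, F i ≠ 0 := by
    intro i
    have hi : F i = F (i % 3) := by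
      have : w ^ i = w ^ (i % 3) := by
        conv_lhs => rw [← Nat.div_add_mod i 3, pow_add, pow_mul, w_cube, one_pow, one_mul]
      rw [hF]
      simp only [this]
    rw [hi]
    have h3 : i % 3 < 3 := Nat.mod_lt _ (by norm_num)
    interval_cases (i % 3)
    · exact h0
    · exact h1
    · exact h2
  -- the element
  obtain ⟨ζ, hζ⟩ : ∃ ζ : Eis, ζ = w ^ 2 * (F 1 * F 2 ^ 2) := ⟨_, rfl⟩
  have hζ0 : ζ ≠ 0 := by
    rw [hζ]
    exact mul_ne_zero (pow_ne_zero _ hw0) (mul_ne_zero h1 (pow_ne_zero _ h2))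
  have hζn : ζ * conj ζ = (F 1 * F 2) ^ 3 := by
    rw [hζ, map_mul, map_mul, map_pow, map_pow, hc1, hc2, conj_w]
    linear_combination ((F 1 * F 2) ^ 3 * (w ^ 3 + 1)) * w_cube
  have htm : ∀ π : PP, tm π.1 ζ (B : Eis) = 0 := by
    intro π
    have hs := hSTM π.1 π.2.1 (hSPP.2.2.2.1 π).1
    obtain ⟨hst, -⟩ := hSTAR π.1 (tm π.1) 1 hs x y 0 0 1 F (fun _ => 0 + w ^ 0 * 1 * 0)
      (fun i => (x : Eis) * 0 - w ^ i * 0 * y) (fun i => by rw [hF]) (fun i => by ring)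
      (fun i => by ring) one_ne_zero hFall
    have hz3 : (z : Eis) ^ 3 ≠ 0 := pow_ne_zero _ hz0
    have hr : ∀ a : Eis, a ≠ 0 → tm π.1 a (F 0 * F 1 * F 2) = tm π.1 a (B : Eis) := by
      intro a ha
      rw [hprod, right_mul hs ha hB0 hz3, pow_succ, right_mul hs ha (pow_ne_zero _ hz0) hz0,
        pow_two, right_mul hs ha hz0 hz0]
      have h3 : (3 : ZMod 3) = 0 := rfl
      linear_combination (tm π.1 a z) * h3
    rw [hr _ h1, hr _ h2, hr _ hw0] at hst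
    rw [hζ, hs.mul _ _ _ (pow_ne_zero _ hw0) (mul_ne_zero h1 (pow_ne_zero _ h2)) hB0,
      hs.mul _ _ _ h1 (pow_ne_zero _ h2) hB0, pow_two, pow_two, hs.mul _ _ _ hw0 hw0 hB0,
      hs.mul _ _ _ h2 h2 hB0]
    have h3 : (3 : ZMod 3) = 0 := rfl
    linear_combination hst + (tm π.1 w B + tm π.1 (F 2) B) * h3
  have hV : ∀ π : PP, ¬ π.1 ∣ (B : Eis) → 3 ∣ V π.1 ζ := by
    intro π hπB
    have hπ := π.2.1
    have h3 : ¬ π.1 ∣ 3 := (hSPP.2.2.2.1 π).1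
    have hsum : V π.1 (F 0) + V π.1 (F 1) + V π.1 (F 2) = 3 * V π.1 (z : Eis) := by
      rw [← V_mul hπ h0 h1, ← V_mul hπ (mul_ne_zero h0 h1) h2, hprod,
        V_mul_not_dvd hπ hπB (pow_ne_zero _ hz0), V_pow hπ hz0]
    have hd1 : (1 - w) ∣ (3 : Eis) := ⟨_, three_fac⟩
    have h01 : ¬ (π.1 ∣ F 0 ∧ π.1 ∣ F 1) := by
      rintro ⟨ha, hb⟩
      refine not_dvd_of hπ h3 hxy hd1 ?_ ?_
      · have : (1 - w) * (x : Eis) = F 1 - w * F 0 := by rw [hF0, hF1]; ring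
        rw [this]
        exact dvd_sub hb (Dvd.dvd.mul_left ha _)
      · have : (1 - w) * (y : Eis) = F 0 - F 1 := by rw [hF0, hF1]; ring
        rw [this]
        exact dvd_sub ha hb
    have h12 : ¬ (π.1 ∣ F 1 ∧ π.1 ∣ F 2) := by
      rintro ⟨ha, hb⟩
      refine not_dvd_of hπ h3 hxy hd1 ?_ ?_
      · have : (1 - w) * (x : Eis) = F 2 - w * F 1 := by rw [hF1, hF2]; ring
        rw [this]
        exact dvd_sub hb (Dvd.dvd.mul_left ha _)
      · have : (1 - w) * (y : Eis) = w ^ 2 * (F 1 - F 2) := by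
          rw [hF1, hF2]
          linear_combination (-(1 - w) * (y : Eis)) * w_cube
        rw [this]
        exact Dvd.dvd.mul_left (dvd_sub ha hb) _
    have hd2 : (1 - w ^ 2) ∣ (3 : Eis) := ⟨1 - w, by rw [three_fac]; ring⟩
    have h02 : ¬ (π.1 ∣ F 0 ∧ π.1 ∣ F 2) := by
      rintro ⟨ha, hb⟩
      refine not_dvd_of hπ h3 hxy hd2 ?_ ?_
      · have : (1 - w ^ 2) * (x : Eis) = F 2 - w ^ 2 * F 0 := by rw [hF0, hF2]; ring
        rw [this]
        exact dvd_sub hb (Dvd.dvd.mul_left ha _)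
      · have : (1 - w ^ 2) * (y : Eis) = F 0 - F 2 := by rw [hF0, hF2]; ring
        rw [this]
        exact dvd_sub ha hb
    have hz0' : V π.1 (F 0) = 0 ∨ V π.1 (F 1) = 0 := by
      by_contra hcon
      push Not at hcon
      apply h01
      constructor
      · by_contra h
        exact hcon.1 (V_eq_zero h)
      · by_contra h
        exact hcon.2 (V_eq_zero h)
    have hz1' : V π.1 (F 1) = 0 ∨ V π.1 (F 2) = 0 := by
      by_contra hcon
      push Not at hcon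
      apply h12
      constructor
      · by_contra h
        exact hcon.1 (V_eq_zero h)
      · by_contra h
        exact hcon.2 (V_eq_zero h)
    have hz2' : V π.1 (F 0) = 0 ∨ V π.1 (F 2) = 0 := by
      by_contra hcon
      push Not at hcon
      apply h02
      constructor
      · by_contra h
        exact hcon.1 (V_eq_zero h)
      · by_contra h
        exact hcon.2 (V_eq_zero h)
    have hw : ¬ π.1 ∣ w ^ 2 := by
      intro h
      apply hπ.not_isUnit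
      apply isUnit_of_dvd_unit h
      exact (IsUnit.of_mul_eq_one (w ^ 2) (by rw [← pow_succ', w_cube])).pow 2
    rw [hζ, V_mul_not_dvd hπ hw (mul_ne_zero h1 (pow_ne_zero _ h2)), V_mul hπ h1 (pow_ne_zero _ h2),
      V_pow hπ h2]
    omega
  have hlam : ¬ (9 : ℤ) ∣ B → sl ζ 3 = 0 ∧ sl ζ 4 = 0 := by
    intro h9
    obtain ⟨h27, hy3⟩ := FDKT.dvd27 hB.t1 h9 hxy hxyz
    rw [hζ, hF1, hF2]
    exact ⟨FDKT.wild hSLC h27 hy3 3 FDKT.three_ne, FDKT.wild hSLC h27 hy3 4 FDKT.four_ne⟩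
  obtain ⟨γ, hγ⟩ := hM ζ (F 1 * F 2) hζ0 hζn htm hV hlam
  have hγ0 : γ ≠ 0 := by
    rintro rfl
    rw [hγ] at hζ0
    exact hζ0 (by norm_num)
  have hcγ0 : conj γ ≠ 0 := by
    intro h
    apply hγ0
    rw [← conj_conj γ, h, map_zero]
  obtain ⟨g, δ, hg, hgδ, hδ⟩ := content hcγ0
  have hm : F 1 * F 2 = ((F 1).norm : Eis) := by rw [← hc1, mul_conj]
  have hn1 : (F 1).norm ≠ 0 := (norm_pos h1).ne'
  refine ⟨δ, (F 1).norm ^ 2 * g ^ 3, γ.norm ^ 3, mul_ne_zero (pow_ne_zero _ hn1)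
    (pow_ne_zero _ hg), pow_ne_zero _ (norm_pos hγ0).ne', hδ, ?_⟩
  have e1 : γ ^ 3 * F 1 = w ^ 2 * (F 1 * F 2) ^ 2 := by
    rw [← hγ, hζ]
    ring
  have e2 : (γ.norm : Eis) = γ * conj γ := (mul_conj γ).symm
  push_cast
  rw [← hF1, e2, ← hm]
  calc (γ * conj γ) ^ 3 * F 1 = (conj γ) ^ 3 * (γ ^ 3 * F 1) := by ring
    _ = (g * δ) ^ 3 * (w ^ 2 * (F 1 * F 2) ^ 2) := by rw [e1, ← hgδ]
    _ = _ := by ring

end Pool.Agent.PT3
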