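import Pool.Agent.PT3.Stmts

/-!
# PT3, module FIN0: sum over the classes, `n` prime to `3`
-/

set_option autoImplicit false

namespace Pool.Agent.PT3

open Pool.Agent.Lib_helper18 Pool.Agent.Lib_helper18.Eis Pool.Agent.Lib_helper84.Cub
open Pool.Agent.PT Pool.Agent.PTE

namespace FIN0

/-- there are two values `w0` with `a + w0 ≠ 0` -/
theorem two_le (a : ZMod 3) : 2 ≤ Nat.card {w0 : ZMod 3 // a + w0 ≠ 0} := by
  rw [Nat.card_eq_fintype_card]
  revert a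
  decide

/-- there is a value `w0 ≠ 0` with `a + w0 ≠ 0` -/
theorem exists_w0 (a : ZMod 3) : ∃ w0 : ZMod 3, w0 ≠ 0 ∧ a + w0 ≠ 0 := by
  revert a
  decide

/-- a smaller density -/
theorem dens_mono {S : Set ℕ} {δ δ' : ℝ} (h : RI.DensityGE S δ) (hδ : δ' ≤ δ) :
    RI.DensityGE S δ' := by
  obtain ⟨C, h⟩ := h
  refine ⟨C, fun s hs hs2 => le_trans ?_ (h s hs hs2)⟩
  have h0 : 0 ≤ Real.log (1 / (s - 1)) := by
    apply Real.log_nonneg
    rw [le_div_iff₀ (by linarith)]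
    linarith
  have h1 := mul_le_mul_of_nonneg_right hδ h0
  linarith

/-- sum over the classes, with two values of `w0` -/
theorem sum_two (hDADD : DADD) {m : ℕ} (a : ZMod 3) (D : ZMod 3 → (Fin m → ZMod 3) → Prop)
    (hD : ∀ w0, a + w0 ≠ 0 → 2 ^ m ≤ Nat.card {c : Fin m → ZMod 3 // D w0 c})
    (I : ZMod 3 → (Fin m → ZMod 3) → ℕ → Prop) (T : Set ℕ)
    (hI : ∀ w0 w0' c c' q, I w0 c q → I w0' c' q → w0 = w0' ∧ c = c')
    (h : ∀ w0 c, a + w0 ≠ 0 → D w0 c → RI.DensityGE {q : ℕ | I w0 c q ∧ q ∈ T} (1 / (24 * 3 ^ m))) :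
    RI.DensityGE T (2 ^ m / (12 * 3 ^ m)) := by
  classical
  have h1 := hDADD (Σ w : {w0 : ZMod 3 // a + w0 ≠ 0}, {c : Fin m → ZMod 3 // D w.1 c})
    (fun i => {q : ℕ | I i.1.1 i.2.1 q ∧ q ∈ T}) T (1 / (24 * 3 ^ m)) (by positivity)
    (fun i => h _ _ i.1.2 i.2.2) (fun i q hq => hq.2) (fun i j hij => by
      rw [Set.disjoint_left]
      rintro q ⟨h1, -⟩ ⟨h2, -⟩
      apply hij
      obtain ⟨⟨w, hw⟩, ⟨c, hc⟩⟩ := i
      obtain ⟨⟨w', hw'⟩, ⟨c', hc'⟩⟩ := j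
      obtain ⟨rfl, rfl⟩ := hI _ _ _ _ _ h1 h2
      rfl) (2 * 2 ^ m) (by
      rw [Fintype.card_sigma]
      have h2 := two_le a
      rw [Nat.card_eq_fintype_card] at h2
      calc 2 * 2 ^ m ≤ Fintype.card {w0 : ZMod 3 // a + w0 ≠ 0} * 2 ^ m :=
            Nat.mul_le_mul_right _ h2
        _ = ∑ w : {w0 : ZMod 3 // a + w0 ≠ 0}, 2 ^ m := by
            rw [Finset.sum_const, Finset.card_univ, smul_eq_mul]
        _ ≤ _ := Finset.sum_le_sum fun w _ => by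
            have h3 := hD w.1 w.2
            rwa [Nat.card_eq_fintype_card] at h3)
  refine dens_mono h1 (le_of_eq ?_)
  push_cast
  rw [mul_one_div, div_eq_div_iff (by positivity) (by positivity)]
  ring

/-- sum over the classes, with one value of `w0` -/
theorem sum_one (hDADD : DADD) {m : ℕ} (D : (Fin m → ZMod 3) → Prop)
    (hD : 2 ^ m ≤ Nat.card {c : Fin m → ZMod 3 // D c})
    (I : (Fin m → ZMod 3) → ℕ → Prop) (T : Set ℕ)
    (hI : ∀ c c' q, I c q → I c' q → c = c')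
    (h : ∀ c, D c → RI.DensityGE {q : ℕ | I c q ∧ q ∈ T} (1 / (30 * 3 ^ m))) :
    RI.DensityGE T (2 ^ m / (30 * 3 ^ m)) := by
  classical
  have h1 := hDADD {c : Fin m → ZMod 3 // D c}
    (fun i => {q : ℕ | I i.1 q ∧ q ∈ T}) T (1 / (30 * 3 ^ m)) (by positivity)
    (fun i => h _ i.2) (fun i q hq => hq.2) (fun i j hij => by
      rw [Set.disjoint_left]
      rintro q ⟨h1, -⟩ ⟨h2, -⟩
      exact hij (Subtype.ext (hI _ _ _ h1 h2))) (2 ^ m) (by
      rwa [Nat.card_eq_fintype_card] at hD)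
  refine dens_mono h1 (le_of_eq ?_)
  push_cast
  rw [mul_one_div]

theorem incl_unique {m : ℕ} (π : Fin m → PP) (w0 w0' : ZMod 3) (c c' : Fin m → ZMod 3) (q : ℕ)
    (h : InCl π w0 c q) (h' : InCl π w0' c' q) : w0 = w0' ∧ c = c' :=
  ⟨h.2.1.symm.trans h'.2.1, funext fun i => (h.2.2 i).symm.trans (h'.2.2 i)⟩

theorem incls_unique {m : ℕ} (π : Fin m → PP) (w0 w0' : ZMod 3) (c c' : Fin m → ZMod 3) (q : ℕ)
    (h : InClS π w0 c q) (h' : InClS π w0' c' q) : w0 = w0' ∧ c = c' :=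
  ⟨h.2.1.symm.trans h'.2.1, funext fun i => (h.2.2 i).symm.trans (h'.2.2 i)⟩

theorem weaker {T : Set ℕ} {m : ℕ} (h : RI.DensityGE T (2 ^ m / (12 * 3 ^ m))) :
    RI.DensityGE T (2 ^ m / (30 * 3 ^ m)) := by
  refine dens_mono h ?_
  apply div_le_div_of_nonneg_left (by positivity) (by positivity)
  have : (0 : ℝ) < 3 ^ m := by positivity
  linarith

end FIN0

open FIN0 in
/-- FIN0: `n` prime to `3`. -/
theorem FIN0_thm (hFCL0 : FCL0) (hFCS0 : FCS0) (hEMA0 : EMA0) (hDADD : DADD) : FIN0 := by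
  intro n m k π p e r f hNF
  have hev : Even k → RI.DensityGE {q : ℕ | ¬ ∃ X Y : ℚ, X ^ 3 + Y ^ 3 = (n : ℚ) * q}
      (2 ^ m / (12 * 3 ^ m)) := by
    intro hk
    exact sum_two hDADD (wt ((n : ℤ) ^ 2)) (fun _ c => (Mp n π p e r none c).det ≠ 0)
      (fun _ _ => hEMA0 n m k π p e r) (fun w0 c q => InCl π w0 c q) _ (incl_unique π)
      (fun w0 c hw hc => hFCL0 n m k π p e r f w0 c hNF hk hw hc)
  refine ⟨hev, ?_⟩
  rcases Nat.even_or_odd k with hk | hk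
  · exact weaker (hev hk)
  · obtain ⟨w0, h0, hw⟩ := exists_w0 (wt ((n : ℤ) ^ 2))
    exact sum_one hDADD (fun c => (Mp n π p e r none c).det ≠ 0) (hEMA0 n m k π p e r)
      (fun c q => InClS π w0 c q) _ (fun c c' q h h' => (incls_unique π w0 w0 c c' q h h').2)
      (fun c hc => hFCS0 n m k π p e r f w0 c hNF hk (Or.inl h0) hw hc)

end Pool.Agent.PT3
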