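import Pool.Agent.PT3.Stmts
import Pool.Agent.PT.DENS

/-!
# FIN3: all the classes together, `3^h n`
-/

open NumberField IsDedekindDomain Finset
open scoped nonZeroDivisors Pointwise

namespace Pool.Agent.PT3

open Pool.Agent.Lib_helper18 Pool.Agent.Lib_helper18.Eis Pool.Agent.Lib_helper84.Cub
open Pool.Agent.PT Pool.Agent.PTE

namespace FIN3

theorem card_two : ∀ t : ZMod 3, Fintype.card {w : ZMod 3 // t + w ≠ 0} = 2 := by decide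

theorem exists_w : ∀ t : ZMod 3, ∃ w : ZMod 3, w ≠ 0 ∧ t + w ≠ 0 := by decide

open Classical in
/-- sum over the classes, `q = 2 (mod 3)` -/
theorem even_part (hDADD : DADD) {m : ℕ} (π : Fin m → PP) (t : ZMod 3)
    (D : ZMod 3 → (Fin m → ZMod 3) → Prop) (T : Set ℕ) (d : ℝ) (hd : 0 ≤ d)
    (hD : ∀ w0, t + w0 ≠ 0 → 2 ^ m ≤ Nat.card {c : Fin m → ZMod 3 // D w0 c})
    (hS : ∀ w0 c, t + w0 ≠ 0 → D w0 c → RI.DensityGE {q : ℕ | InCl π w0 c q ∧ q ∈ T} d) :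
    RI.DensityGE T ((2 * 2 ^ m : ℕ) * d) := by
  refine hDADD (Σ w : {w : ZMod 3 // t + w ≠ 0}, {c : Fin m → ZMod 3 // D w.1 c})
    (fun i => {q : ℕ | InCl π i.1.1 i.2.1 q ∧ q ∈ T}) T d hd ?_ ?_ ?_ _ ?_
  · rintro ⟨⟨w, hw⟩, ⟨c, hc⟩⟩
    exact hS w c hw hc
  · rintro i q ⟨_, hq⟩
    exact hq
  · rintro ⟨⟨w, hw⟩, ⟨c, hc⟩⟩ ⟨⟨w', hw'⟩, ⟨c', hc'⟩⟩ hne
    rw [Set.disjoint_left]
    rintro q ⟨⟨_, h1, h2⟩, _⟩ ⟨⟨_, h3, h4⟩, _⟩
    apply hne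
    have e1 : w = w' := h1.symm.trans h3
    have e2 : c = c' := funext fun i => (h2 i).symm.trans (h4 i)
    subst e1
    subst e2
    rfl
  · rw [Fintype.card_sigma]
    calc 2 * 2 ^ m = ∑ _w : {w : ZMod 3 // t + w ≠ 0}, 2 ^ m := by
          rw [Finset.sum_const, Finset.card_univ, smul_eq_mul]
          congr 1
          exact (card_two t).symm.trans (Fintype.card_congr (Equiv.refl _))
      _ ≤ _ := by
          refine Finset.sum_le_sum fun w _ => ?_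
          rw [← Nat.card_eq_fintype_card]
          exact hD w.1 w.2

open Classical in
/-- sum over the classes, `q = 1 (mod 3)` -/
theorem odd_part (hDADD : DADD) {m : ℕ} (π : Fin m → PP) (w0 : ZMod 3)
    (D : (Fin m → ZMod 3) → Prop) (T : Set ℕ) (d : ℝ) (hd : 0 ≤ d)
    (hD : 2 ^ m ≤ Nat.card {c : Fin m → ZMod 3 // D c})
    (hS : ∀ c, D c → RI.DensityGE {q : ℕ | InClS π w0 c q ∧ q ∈ T} d) :
    RI.DensityGE T ((2 ^ m : ℕ) * d) := by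
  refine hDADD {c : Fin m → ZMod 3 // D c}
    (fun i => {q : ℕ | InClS π w0 i.1 q ∧ q ∈ T}) T d hd ?_ ?_ ?_ _ ?_
  · rintro ⟨c, hc⟩
    exact hS c hc
  · rintro i q ⟨_, hq⟩
    exact hq
  · rintro ⟨c, hc⟩ ⟨c', hc'⟩ hne
    rw [Set.disjoint_left]
    rintro q ⟨⟨_, h1, h2⟩, _⟩ ⟨⟨_, h3, h4⟩, _⟩
    apply hne
    have e2 : c = c' := funext fun i => (h2 i).symm.trans (h4 i)
    subst e2
    rfl
  · rw [← Nat.card_eq_fintype_card]
    exact hD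

theorem const_even (m : ℕ) : ((2 * 2 ^ m : ℕ) : ℝ) * (1 / (24 * 3 ^ m)) = 2 ^ m / (12 * 3 ^ m) := by
  have h : (3 : ℝ) ^ m ≠ 0 := pow_ne_zero _ (by norm_num)
  push_cast
  field_simp
  norm_num

theorem const_odd (m : ℕ) : ((2 ^ m : ℕ) : ℝ) * (1 / (30 * 3 ^ m)) = 2 ^ m / (30 * 3 ^ m) := by
  have h : (3 : ℝ) ^ m ≠ 0 := pow_ne_zero _ (by norm_num)
  push_cast
  field_simp

theorem const_le (m : ℕ) : (2 : ℝ) ^ m / (30 * 3 ^ m) ≤ 2 ^ m / (12 * 3 ^ m) := by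
  have h : (0 : ℝ) < 3 ^ m := pow_pos (by norm_num) _
  have h2 : (0 : ℝ) ≤ 2 ^ m := (pow_pos (by norm_num) _).le
  exact div_le_div_of_nonneg_left h2 (by linarith) (by linarith)

end FIN3

open FIN3 in
theorem FIN3_thm (hFCLT : FCLT) (hFCLU : FCLU) (hEMAX : EMAX) (hDADD : DADD) : FIN3 := by
  intro h n m k π p e r f hNF hh
  have hE : Even (h + k) →
      RI.DensityGE {q : ℕ | ¬ ∃ X Y : ℚ, X ^ 3 + Y ^ 3 = ((3 ^ h * n : ℕ) : ℚ) * q}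
        (2 ^ m / (12 * 3 ^ m)) := by
    intro hev
    have h1 := even_part hDADD π (wt ((n : ℤ) ^ 2))
      (fun w0 c => (Mt h n π p e w0 c).det ≠ 0)
      {q : ℕ | ¬ ∃ X Y : ℚ, X ^ 3 + Y ^ 3 = ((3 ^ h * n : ℕ) : ℚ) * q} (1 / (24 * 3 ^ m))
      (by positivity)
      (fun w0 hw => hEMAX h n m π p e w0 fun _ => hw)
      (fun w0 c _ hc => hFCLT h n m k π p e r f w0 c hNF hh hev hc)
    rwa [const_even] at h1
  refine ⟨hE, ?_⟩
  rcases Nat.even_or_odd (h + k) with hev | hod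
  · exact PT.DENS.dens_mono (hE hev) (const_le m)
  · obtain ⟨w0, hw0, hw1⟩ := exists_w (wt ((n : ℤ) ^ 2))
    have h1 := odd_part hDADD π w0 (fun c => (Mt h n π p e w0 c).det ≠ 0)
      {q : ℕ | ¬ ∃ X Y : ℚ, X ^ 3 + Y ^ 3 = ((3 ^ h * n : ℕ) : ℚ) * q} (1 / (30 * 3 ^ m))
      (by positivity)
      (hEMAX h n m π p e w0 fun _ => hw1)
      (fun c hc => hFCLU h n m k π p e r f w0 c hNF hh hod (Or.inl hw0) hc)
    rwa [const_odd] at h1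

end Pool.Agent.PT3
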