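import Pool.Agent.PT3.Stmts
import Pool.Agent.PT.GALD

/-!
# GALG: summary of the governing field, without congruence conditions at `3`
-/

open NumberField IsDedekindDomain Finset
open scoped nonZeroDivisors Pointwise

namespace Pool.Agent.PT3

open Pool.Agent.Lib_helper18 Pool.Agent.Lib_helper18.Eis Pool.Agent.Lib_helper84.Cub
open Pool.Agent.PT Pool.Agent.PTE Pool.Agent.PT.GALD

theorem GALG_thm (hGZEROG : GZEROG) (hGCHI : GCHI) (hGTG : GTG) (hGCG : GCG) (hGFRG : GFRG) :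
    GALG := by
  classical
  intro s b p q p' q' f hSys hf h9
  obtain ⟨L, hF, hN, ζ, ω, hG⟩ := hGZEROG s b p q p' q' f hSys hf h9
  haveI := hG.gal
  obtain ⟨χ, hχs, hχζ, hχF⟩ := hGCHI L f ζ hf hG.prim
  obtain ⟨N₀, hFr⟩ := hGFRG s b p q p' q' f L ζ ω hSys hG
  have hω3 : ω ^ 3 = 1 := om_cube hG.rel
  have hf1 : 1 < f := by
    obtain ⟨c, hc⟩ := h9
    omega
  have hT := hGTG s b p q p' q' f L ζ ω hSys hG
  -- action on ω
  have hM : ∀ g : L ≃ₐ[ℚ] L, M2 (χ g) → g ω = ω ^ 2 := by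
    intro g hg
    rw [hG.hω, map_pow, hχζ g, ← pow_mul, mul_comm, pow_mul, ← hG.hω]
    apply om_congr hω3
    unfold M2 at hg
    omega
  let t : (L ≃ₐ[ℚ] L) → Fin s → Fin s → ZMod 3 := fun g j i =>
    if h : j ≠ i ∧ g ω = ω ^ 2 then ((hT j i h.1).1 g h.2).choose else 0
  have ht : ∀ (g : L ≃ₐ[ℚ] L) (j i : Fin s), j ≠ i → g ω = ω ^ 2 →
      IsT b p q p' q' ω g j i (t g j i) := by
    intro g j i hji hg
    have h : j ≠ i ∧ g ω = ω ^ 2 := ⟨hji, hg⟩
    have e : t g j i = ((hT j i h.1).1 g h.2).choose := dif_pos h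
    rw [e]
    exact ((hT j i h.1).1 g h.2).choose_spec.1
  have htu : ∀ (g : L ≃ₐ[ℚ] L) (j i : Fin s) (c : ZMod 3), j ≠ i → g ω = ω ^ 2 →
      IsT b p q p' q' ω g j i c → t g j i = c := by
    intro g j i c hji hg hc
    exact ((hT j i hji).1 g hg).unique (ht g j i hji hg) hc
  refine ⟨L, hF, hN, hG.gal, χ, t, N₀, hχs, ?_, ?_, ?_, ?_⟩
  · intro g τ hg j i hji
    have h1 : χ (τ * g * τ⁻¹) = χ g := by
      rw [map_mul, map_mul, map_inv, mul_comm (χ τ), mul_inv_cancel_right]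
    apply htu _ _ _ _ hji
    · apply hM
      rw [h1]
      exact hg
    · exact (hT j i hji).2.1 g τ _ (hM g hg) (ht g j i hji (hM g hg))
  · intro g k hg hk j i hji
    apply htu _ _ _ _ hji
    · rw [pow_om hω3 g (hM g hg) k]
      apply om_congr hω3
      rw [two_pow_odd hk]
    · exact (hT j i hji).2.2 g _ k (hM g hg) hk (ht g j i hji (hM g hg))
  · intro a v v' ha
    obtain ⟨z, hzζ, hzρ, hzA⟩ := hGCG s b p q p' q' f L ζ ω hSys hG (fun j i => v j i - v' j i)
    have hzω : z ω = ω := by rw [hG.hω, map_pow, hzζ]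
    have hχz : χ z = 1 := by
      have h1 := hχζ z
      rw [hzζ] at h1
      haveI : NeZero f := ⟨hf.ne'⟩
      have h2 : ((χ z : ZMod f)).val = 1 := by
        apply hG.prim.pow_inj (ZMod.val_lt _) hf1
        rw [← h1, pow_one]
      apply Units.ext
      have h3 := ZMod.natCast_zmod_val (χ z : ZMod f)
      rw [h2] at h3
      rw [← h3]
      simp
    have key : ∀ g : L ≃ₐ[ℚ] L, g ω = ω ^ 2 → ∀ j i, j < i →
        t (g * z) j i = t g j i - (v j i - v' j i) := by
      intro g hg j i hji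
      have hgz : (g * z) ω = ω ^ 2 := by rw [AlgEquiv.mul_apply, hzω, hg]
      apply htu _ _ _ _ hji.ne hgz
      intro ρ A hρ hgρ hA
      rw [AlgEquiv.mul_apply, hzρ j ρ hρ] at hgρ
      have h1 := ht g j i hji.ne hg ρ A hρ hgρ hA
      rw [AlgEquiv.mul_apply, hzA j i hji ρ A hρ hA, map_mul, map_pow, hg, mul_assoc, h1,
        ← pow_mul, ← pow_add]
      apply om_congr hω3
      have : ((2 * (v j i - v' j i).val + (t g j i).val : ℕ) : ZMod 3) =
          (((t g j i - (v j i - v' j i)).val : ℕ) : ZMod 3) := by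
        push_cast
        rw [ZMod.natCast_zmod_val, ZMod.natCast_zmod_val, ZMod.natCast_zmod_val]
        have h3 : (3 : ZMod 3) = 0 := by decide
        linear_combination (v j i - v' j i) * h3
      exact (ZMod.natCast_eq_natCast_iff' _ _ 3).mp this
    apply Nat.card_congr
    refine Equiv.subtypeEquiv (Equiv.mulRight z) ?_
    intro g
    have hχ : χ (g * z) = χ g := by rw [map_mul, hχz, mul_one]
    show (χ g = a ∧ ∀ j i, j < i → t g j i = v j i) ↔
      (χ (g * z) = a ∧ ∀ j i, j < i → t (g * z) j i = v' j i)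
    rw [hχ]
    constructor
    · rintro ⟨h1, h2⟩
      refine ⟨h1, fun j i hji => ?_⟩
      rw [key g (hM g (by rw [h1]; exact ha)) j i hji, h2 j i hji]
      ring
    · rintro ⟨h1, h2⟩
      refine ⟨h1, fun j i hji => ?_⟩
      have h3 := h2 j i hji
      rw [key g (hM g (by rw [h1]; exact ha)) j i hji] at h3
      linear_combination h3
  · intro Q hQ hQp hN₀ P g hP hQP hst
    haveI := hP
    obtain ⟨h1, h2⟩ := hFr Q hQp hN₀ P hP hQP
    obtain ⟨k, hk, hfr⟩ := h1 g hst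
    refine ⟨k, hk, hχF Q hQ hQp P (g ^ k) hP hQP hfr, ?_⟩
    intro hQ3 j i hji r hr
    obtain ⟨h3, h4⟩ := h2 (g ^ k) hfr hQ3
    exact h4 j i hji r _ hr (ht (g ^ k) j i hji h3)

end Pool.Agent.PT3
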