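import Pool.Agent.PT3.Stmts
import Pool.Agent.PT.GFR

/-!
# Module GFRG: Frobenius elements and the classes `t`
-/

set_option autoImplicit false

open NumberField IsDedekindDomain Finset
open scoped nonZeroDivisors Pointwise

namespace Pool.Agent.PT3

open Pool.Agent.Lib_helper18 Pool.Agent.Lib_helper18.Eis Pool.Agent.Lib_helper84.Cub
open Pool.Agent.PT Pool.Agent.PTE

open Pool.Agent.PT.GFR in
theorem GFRG_thm : GFRG := by
  classical
  intro s b p q p' q' f L _ _ ζ ω hS hG
  have hgal := hG.gal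
  let B : Fin s → Fin s → ℕ := fun j i => (b j).natAbs + (p j i ^ 3 + b j * q j i ^ 3).natAbs +
    (p' j i ^ 3 + b j * q' j i ^ 3).natAbs
  refine ⟨∑ j, ∑ i, B j i, fun Q hQ hQN P hP hQP => ⟨fun g hg => ?_, fun φ hφ hQ3 => ?_⟩⟩
  · have hfin := quo_finite hQ hP hQP
    exact exists_frob_gen (R := ℤ) P g hg
  · have hφω := frob_omega hQ hP hQP hQ3 hφ hG.rel
    refine ⟨hφω, fun j i hji r t hr ht => ?_⟩
    have hB : B j i < Q := by
      refine lt_of_le_of_lt ?_ hQN
      have h1 : B j i ≤ ∑ i, B j i :=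
        Finset.single_le_sum (f := fun i => B j i) (fun _ _ => Nat.zero_le _) (Finset.mem_univ i)
      refine h1.trans ?_
      exact Finset.single_le_sum (f := fun j => ∑ i, B j i) (fun _ _ => Nat.zero_le _)
        (Finset.mem_univ j)
    have hsol := hS.sol j i hji
    have hbj : b j ≠ 0 := by
      intro h0
      refine hS.ind (Pi.single j 1) ⟨j, by simp⟩ ⟨0, ?_⟩
      have h1 : ∏ i, b i ^ (Pi.single j 1 : Fin s → ℕ) i = 0 := by
        refine Finset.prod_eq_zero (Finset.mem_univ j) ?_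
        rw [Pi.single_eq_same, pow_one, h0]
      rw [h1]
      norm_num
    have h2 : p' j i ^ 3 + b j * q' j i ^ 3 ≠ 0 := by
      intro h0
      refine hsol.n1 ?_
      rw [hsol.eq, h0, mul_zero]
    simp only [B] at hB
    obtain ⟨θ, hθ⟩ := hG.root j
    obtain ⟨ρ, hρ, hφρ⟩ := exists_fixed hG.rel hφω hθ
    obtain ⟨A, hA⟩ := hG.A j i hji ρ hρ
    exact core hQ hP hQP hQ3 hφ hG.rel (not_dvd_of_lt hbj (by omega))
      (not_dvd_of_lt hsol.n1 (by omega)) (not_dvd_of_lt h2 (by omega)) hr hρ hφρ hA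
      (ht ρ A hρ hφρ hA)

end Pool.Agent.PT3
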