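import Pool.Agent.PT3.Stmts
import Pool.Agent.PT.HN

/-!
# HNT: the Hasse norm theorem for pure cubic fields, rational version, arbitrary norm
-/

namespace Pool.Agent.PT3

open Pool.Agent.Lib_helper18 Pool.Agent.Lib_helper18.Eis Pool.Agent.Lib_helper84.Cub
open Pool.Agent.PT Pool.Agent.PTE

theorem HNT_thm (hNFLD : NFLD) (hNMAT : NMAT) (hNDESC : NDESC) (hSTM : STM) (hSPP : SPP)
    (hLCI : LCI) : HNT := by
  intro x y hx h3x hcube hV hy htm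
  obtain ⟨-, -, -, hSPP4, -, hSPP6⟩ := hSPP
  obtain ⟨y1, m, hm, hy1, hyy, hprop⟩ := HN.split x y hy
  obtain ⟨L, iF, iN, ι, θ, σ, c, hC⟩ := hNFLD x hx hcube
  have hxE : (x : Eis) ≠ 0 := HN.cast_ne hx
  have hyE : (y : Eis) ≠ 0 := HN.cast_ne hy
  have hy1E : (y1 : Eis) ≠ 0 := HN.cast_ne hy1
  have hmE : ((m : ℤ) : Eis) ≠ 0 := HN.cast_ne (by exact_mod_cast hm)
  have htm1 : ∀ π : PP, tm π.1 (x : Eis) (y1 : Eis) = 0 := by
    intro π
    have hS := hSTM π.1 π.2.1 (hSPP4 π).1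
    have h1 := htm π
    have h2 : (y : Eis) = (y1 : Eis) * ((m : ℤ) : Eis) * ((m : ℤ) : Eis) * ((m : ℤ) : Eis) := by
      rw [hyy]
      push_cast
      ring
    have h3 : tm π.1 (y : Eis) (x : Eis) = tm π.1 (y1 : Eis) (x : Eis) +
        3 * tm π.1 ((m : ℤ) : Eis) (x : Eis) := by
      rw [h2, hS.mul _ _ _ (mul_ne_zero (mul_ne_zero hy1E hmE) hmE) hmE hxE,
        hS.mul _ _ _ (mul_ne_zero hy1E hmE) hmE hxE, hS.mul _ _ _ hy1E hmE hxE]
      ring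
    have h4 : (3 : ZMod 3) = 0 := rfl
    rw [h4, zero_mul, add_zero, hS.skew _ _ hxE hyE, h1, hS.skew _ _ hxE hy1E] at h3
    rw [neg_zero] at h3
    exact neg_eq_zero.1 h3.symm
  have hLC : ∀ π : PP, π.1 ∣ (y1 : Eis) → ¬ LC π.1 x → π.1 ∣ (x : Eis) := by
    intro π hπ hnot
    by_contra hπx
    obtain ⟨p, hp, hcl⟩ := hSPP6 π
    have h1 := HN.dvd_int hp hcl hπ
    have h2 : ¬ (p : ℤ) ∣ x := by
      intro h
      obtain ⟨d, hd⟩ := h
      apply hπx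
      rw [hd, Int.cast_mul, Int.cast_natCast]
      exact (HN.dvd_nat hcl).mul_right _
    obtain ⟨k, t, hk, ht, hyt⟩ := hprop p hp h1 h2
    have h3 : V π.1 (y1 : Eis) = k := by
      rw [hyt]
      exact HN.V_eq hp hcl k ht
    have h4 : V π.1 (x : Eis) = 0 := V_eq_zero hπx
    have h5 := htm1 π
    rw [tm, h3, h4, Nat.cast_zero, zero_mul, sub_zero] at h5
    have h6 : (k : ZMod 3) ≠ 0 := by
      rw [ne_eq, ZMod.natCast_eq_zero_iff]
      exact hk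
    have h7 : ch π.1 (x : Eis) = 0 := by
      have : Fact (Nat.Prime 3) := ⟨Nat.prime_three⟩
      exact (mul_eq_zero.1 h5).resolve_left h6
    exact hnot ((hLCI.1 π x hx).2 ⟨by rw [h4]; exact dvd_zero _, h7⟩)
  obtain ⟨z, hz, hzN⟩ := hNMAT x L ι θ σ c hx h3x hV hcube hC y1 hy1 htm1 hLC
  obtain ⟨p, q, p', q', hsol⟩ := hNDESC x L ι θ σ c hx hC y1 z hy1 hz hzN
  have hmz : (m : ℤ) ≠ 0 := by exact_mod_cast hm
  refine ⟨m * p, m * q, p', q', ⟨?_, ?_⟩⟩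
  · have h1 := hsol.eq
    rw [hyy]
    linear_combination (m : ℤ) ^ 3 * h1
  · have h1 := hsol.n1
    have h2 : ((m : ℤ) * p) ^ 3 + x * ((m : ℤ) * q) ^ 3 = (m : ℤ) ^ 3 * (p ^ 3 + x * q ^ 3) := by
      ring
    rw [h2]
    exact mul_ne_zero (pow_ne_zero 3 hmz) h1

end Pool.Agent.PT3
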