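import Pool.Agent.PT3.Stmts
import Pool.Agent.PTE.HYPS

/-!
# HYP0: the minus part of the Selmer group is trivial, `3` does not divide `n`, twists by primes
`= 2 (mod 3)`
-/

set_option autoImplicit false

namespace Pool.Agent.PT3

open Pool.Agent.Lib_helper18 Pool.Agent.Lib_helper18.Eis Pool.Agent.Lib_helper84.Cub
open Pool.Agent.PT Pool.Agent.PT.EHYP Pool.Agent.PTE Pool.Agent.PTE.HYPS

namespace HYP0

/-- the extended normal form -/
theorem ext0 {n m k : ℕ} {π : Fin m → PP} {p e : Fin m → ℕ} {r f : Fin k → ℕ}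
    (h : NF n π p e r f) {q : ℕ} (hq : q.Prime) (hq2 : q % 3 = 2) (hqn : ¬ q ∣ n) :
    NF (n * q) π p e (Fin.cons q r : Fin (k + 1) → ℕ) (Fin.cons 1 f : Fin (k + 1) → ℕ) where
  pp := h.pp
  p1 := h.p1
  pπ := h.pπ
  pe := h.pe
  pinj := h.pinj
  rp j := by
    refine Fin.cases ?_ (fun j => ?_) j
    · exact hq
    · exact h.rp j
  r2 j := by
    refine Fin.cases ?_ (fun j => ?_) j
    · exact hq2
    · exact h.r2 j
  rf j := by
    refine Fin.cases ?_ (fun j => ?_) j
    · exact Or.inl rfl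
    · exact h.rf j
  rinj := by
    rw [Fin.cons_injective_iff]
    refine ⟨?_, h.rinj⟩
    rintro ⟨j, hj⟩
    apply hqn
    rw [← hj, h.eq]
    refine Dvd.dvd.mul_left ?_ _
    have h1 : r j ^ f j ∣ ∏ j, r j ^ f j := Finset.dvd_prod_of_mem _ (Finset.mem_univ j)
    refine (dvd_pow_self _ ?_).trans h1
    have := h.rf j
    omega
  eq := by
    rw [Fin.prod_univ_succ]
    simp only [Fin.cons_zero, Fin.cons_succ, pow_one]
    rw [h.eq]
    ring

end HYP0

open HYP0 in
/-- HYP0 -/
theorem HYP0_thm (_hSTM : STM) (hSPP : SPP) (hSSL : SSL) (hSREC : SREC) (hSCJ : SCJ) :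
    HYP0 := by
  intro n m k π p e r f w0 c q h hq hcl hqn hw0 hdet z t hz hzt htm hun
  obtain ⟨hq1, hq9, hqs⟩ := hcl
  have h' := ext0 h hq hq1 hqn
  have hB : (((n : ℤ) * q : ℤ) : Eis) = ((n * q : ℕ) : Eis) := by push_cast; rfl
  rw [hB] at htm hun
  have hB2 : ((n * q : ℕ) : Eis) = (n : Eis) * (q : Eis) := by push_cast; rfl
  have hn0 := n_ne0 h
  have hB0 := n_ne0 h'
  have hq0 : (q : Eis) ≠ 0 := fun h0 => hB0 (by rw [hB2, h0, mul_zero])
  have h3n := three_n h
  have hun2 : ∀ σ : PP, ¬ σ.1 ∣ ((((n * q : ℕ) : ℤ) * (2 : ℕ) : ℤ) : Eis) → 3 ∣ V σ.1 z := by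
    intro σ hσ
    refine hun σ fun h1 => hσ ?_
    push_cast
    rw [hB2] at h1
    exact Dvd.dvd.mul_right h1 _
  obtain ⟨a, hF, hcube⟩ := decomp hSPP h' Nat.prime_two rfl hz hzt hun2
  have h3 : ∀ i, ¬ (π i).1 ∣ 3 := fun i => (hSPP.2.2.2.1 (π i)).1
  have hP : ∀ σ : PP, Prim σ.1 := fun σ => ⟨σ.2.2.2, by
    have := σ.2.2.1
    omega⟩
  have hPB : Prim ((n * q : ℕ) : Eis) := by
    refine ⟨by simp, ?_⟩
    rw [natCast_re]
    intro h4
    have h5 : 3 ∣ n * q := by exact_mod_cast h4
    rcases (Nat.prime_three.dvd_mul).1 h5 with h5 | h5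
    · exact h3n h5
    · omega
  -- the unit
  have ha : (a : ZMod 3) = 0 := by
    have hsl : sl z ((n * q : ℕ) : Eis) = 0 := by
      unfold sl
      rw [finsum_eq_zero_of_forall_eq_zero fun π => htm π, neg_zero]
    have h2 := hF _ (add3_sl hSSL hB0)
    have h4 : ∀ σ : PP, sl σ.1 ((n * q : ℕ) : Eis) = 0 := fun σ => hSREC.1 _ _ (hP σ) hPB
    have h5 : ∀ σ : PP, sl (conj σ.1) ((n * q : ℕ) : Eis) = 0 := fun σ =>
      hSREC.1 _ _ (hP σ).conj hPB
    simp only [h4, h5, sub_zero, mul_zero, Finset.sum_const_zero, add_zero] at h2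
    rw [hsl, hSSL.2.1 _ w hB0 w_ne, hSREC.2.1 _ hPB] at h2
    have h6 : wt ((n * q : ℕ) : Eis).norm = wt ((n : ℤ) ^ 2) + w0 := by
      rw [← hq9, ← wt_mul]
      · rw [norm_natCast]
        push_cast
        rw [mul_pow]
      · exact sq_mod_three fun h7 => h3n (by exact_mod_cast h7)
      · refine sq_mod_three fun h7 => ?_
        have h8 : 3 ∣ q := by exact_mod_cast h7
        omega
    rw [← h6] at hw0
    have h8 : (a : ZMod 3) * wt ((n * q : ℕ) : Eis).norm = 0 := by linear_combination h2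
    have : Fact (Nat.Prime 3) := ⟨Nat.prime_three⟩
    exact (mul_eq_zero.1 h8).resolve_right hw0
  -- the product formula
  have key : ∀ x : ℤ, x ≠ 0 → ¬ (3 : ℤ) ∣ x → (∀ σ : PP, σ.1 ∣ (x : Eis) → σ.1 ∣ (n : Eis)) →
      ∑ i, (e i : ZMod 3) * (V (π i).1 z : ZMod 3) *
          tm (π i).1 (x : Eis) ((n * q : ℕ) : Eis) = 0 := by
    intro x hx hx3 hxn
    have hx0 : (x : Eis) ≠ 0 := by
      intro h0
      have := congrArg Eis.re h0
      simp only [intCast_re, zero_re] at this
      exact hx this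
    have hPx : Prim (x : Eis) := ⟨by simp, by rwa [intCast_re]⟩
    have h2 := hF _ (add3_sl hSSL hx0)
    have h4 : ∀ σ : PP, sl σ.1 (x : Eis) = 0 := fun σ => hSREC.1 _ _ (hP σ) hPx
    have h5 : ∀ σ : PP, sl (conj σ.1) (x : Eis) = 0 := fun σ => hSREC.1 _ _ (hP σ).conj hPx
    simp only [h4, h5, sub_zero, mul_zero, Finset.sum_const_zero, add_zero, ha, zero_mul] at h2
    have h6 := finsum_tm hSPP hSCJ h' hz hzt htm hun x hx fun σ hσ => by
      rw [hB2]
      exact Dvd.dvd.mul_right (hxn σ hσ) _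
    rw [← h6]
    unfold sl at h2
    rwa [neg_eq_zero] at h2
  have hi : ∀ i, Prime (π i).1 := fun i => (π i).2.1
  have hqi : ∀ i, ¬ (π i).1 ∣ (q : Eis) := fun i h5 => by
    have h6 : ¬ Associated (π i).1 (q : Eis) := not_assoc_nat h' i q
    exact h6 ((hi i).associated_of_dvd (inert hSPP hq hq1).1 h5)
  have hVB : ∀ i, V (π i).1 ((n * q : ℕ) : Eis) = e i := fun i => by
    rw [hB2, V_mul (hi i) hn0 hq0, V_n_i hSPP h, V_eq_zero (hqi i), add_zero]
  have hcB : ∀ i, ch (π i).1 ((n * q : ℕ) : Eis) = ch (π i).1 (n : Eis) + c i := fun i => by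
    rw [hB2, ch_mul (hi i) (h3 i) hn0 hq0, ch_of_not_dvd (hi i) (hqi i), hqs i]
  have : Fact (Nat.Prime 3) := ⟨Nat.prime_three⟩
  -- the other primes
  have hVi : ∀ i, (V (π i).1 z : ZMod 3) = 0 := by
    have hpn : ∀ i, (p i : Eis) ∣ (n : Eis) := fun i => by
      have h1 : p i ∣ n := by
        rw [h.eq]
        refine Dvd.dvd.mul_right ?_ _
        have h1 : p i ^ e i ∣ ∏ i, p i ^ e i := Finset.dvd_prod_of_mem _ (Finset.mem_univ i)
        refine (dvd_pow_self _ ?_).trans h1
        have := h.pe i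
        omega
      obtain ⟨d, hd⟩ := h1
      exact ⟨(d : Eis), by rw [hd]; push_cast; rfl⟩
    have hvec : Matrix.vecMul
        (Fin.cons 0 fun i => (e i : ZMod 3) * (V (π i).1 z : ZMod 3) : Fin (m + 1) → ZMod 3)
        (Mp n π p e r none c) = 0 := by
      funext b
      refine Fin.cases ?_ (fun i' => ?_) b
      · simp [Matrix.vecMul, dotProduct, Mp, Fin.sum_univ_succ]
      · have h1 : Matrix.vecMul
            (Fin.cons 0 fun i => (e i : ZMod 3) * (V (π i).1 z : ZMod 3) : Fin (m + 1) → ZMod 3)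
            (Mp n π p e r none c) i'.succ = ∑ i, (e i : ZMod 3) * (V (π i).1 z : ZMod 3) *
              (if i' = i then
                (e i : ZMod 3) * sym (π i).1 (conj (π i).1) - ch (π i).1 (n : Eis) - c i
              else (e i : ZMod 3) * sym (π i).1 (p i' : Eis)) := by
          simp [Matrix.vecMul, dotProduct, Mp, Fin.sum_univ_succ]
        rw [h1, Pi.zero_apply]
        have h2 := key (p i') (by exact_mod_cast (h.pp i').ne_zero) (by
          intro h4
          have h5 : 3 ∣ p i' := by exact_mod_cast h4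
          have := h.p1 i'
          omega) (fun σ hσ => by
          rw [Int.cast_natCast] at hσ
          exact hσ.trans (hpn i'))
        rw [← h2]
        refine Finset.sum_congr rfl fun i _ => ?_
        congr 1
        rw [Int.cast_natCast]
        unfold tm
        rw [hVB i, hcB i]
        split_ifs with hii
        · subst hii
          have hcj : ¬ (π i').1 ∣ conj (π i').1 := fun h5 =>
            not_assoc h i' i' ((hi i').associated_of_dvd (prime_conj (π i').2.1) h5)
          rw [h.pπ i', V_mul (hi i') (hi i').ne_zero (prime_conj (π i').2.1).ne_zero, V_self,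
            V_eq_zero hcj, ch_mul (hi i') (h3 i') (hi i').ne_zero
              (prime_conj (π i').2.1).ne_zero, ch_self (hi i') (h3 i'),
            ch_of_not_dvd (hi i') hcj]
          push_cast
          ring
        · have hnd : ¬ (π i).1 ∣ (p i' : Eis) := by
            rw [h.pπ i']
            intro h5
            rcases (hi i).dvd_or_dvd h5 with h5 | h5
            · exact hii (assoc_iff h i i' ((hi i).associated_of_dvd (π i').2.1 h5)).symm
            · exact not_assoc h i i' ((hi i).associated_of_dvd (prime_conj (π i').2.1) h5)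
          rw [V_eq_zero hnd, ch_of_not_dvd (hi i) hnd]
          push_cast
          ring
    have hx := Matrix.eq_zero_of_vecMul_eq_zero hdet hvec
    intro i
    have h1 := congrFun hx i.succ
    simp only [Fin.cons_succ, Pi.zero_apply] at h1
    refine (mul_eq_zero.1 h1).resolve_left fun h2 => ?_
    have h4 := e_sq h i
    rw [h2, mul_zero] at h4
    exact zero_ne_one h4
  exact hcube ha hVi

end Pool.Agent.PT3
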