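import Pool.Agent.PT3.Stmts
import Pool.Agent.PTE.HYPS

/-!
# HYPT: the minus part of the Selmer group is trivial, `B = 3^h n q^E`, `q = 2 (mod 3)`
-/

set_option autoImplicit false

namespace Pool.Agent.PT3

open Pool.Agent.Lib_helper18 Pool.Agent.Lib_helper18.Eis Pool.Agent.Lib_helper84.Cub
open Pool.Agent.PT Pool.Agent.PTE Pool.Agent.PT.EHYP

namespace HYPT

/-- a family of split primes of `B` with their valuations; all other primes of `B` are inert -/
structure Dat (B : ℤ) {M : ℕ} (π : Fin M → PP) (e : Fin M → ℕ) : Prop where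
  ne : B ≠ 0
  e12 : ∀ i, e i = 1 ∨ e i = 2
  vB : ∀ i, V (π i).1 (B : Eis) = e i
  nc : ∀ i j, ¬ Associated (π i).1 (conj (π j).1)
  inj : ∀ i j, Associated (π i).1 (π j).1 → i = j
  cls : ∀ σ : PP, σ.1 ∣ (B : Eis) →
    (∃ i, Associated σ.1 (π i).1 ∨ Associated σ.1 (conj (π i).1)) ∨
      (Associated (conj σ.1) σ.1 ∧ ¬ 3 ∣ V σ.1 (B : Eis))

theorem int_ne {x : ℤ} (hx : x ≠ 0) : (x : Eis) ≠ 0 := by
  intro h0
  have := congrArg Eis.re h0
  simp only [intCast_re, zero_re] at this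
  exact hx this

section

variable {B : ℤ} {M : ℕ} {π : Fin M → PP} {e : Fin M → ℕ}

theorem e_sq (h : Dat B π e) (i : Fin M) : (e i : ZMod 3) * (e i : ZMod 3) = 1 := by
  rcases h.e12 i with h1 | h1 <;> rw [h1] <;> decide

/-- the local terms at a split pair -/
theorem pair (hSPP : SPP) (hSCJ : SCJ) (h : Dat B π e) {z t : Eis} (hz : z ≠ 0)
    (hzt : z * conj z = t ^ 3) (htm : ∀ σ : PP, tm σ.1 z (B : Eis) = 0) (i : Fin M) (x : ℤ)
    (hx : x ≠ 0) :
    tm (π i).1 z (x : Eis) + tm (conj (π i).1) z (x : Eis) =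
      (e i : ZMod 3) * (V (π i).1 z : ZMod 3) * tm (π i).1 (x : Eis) (B : Eis) := by
  have hx0 : (x : Eis) ≠ 0 := int_ne hx
  have hB0 : (B : Eis) ≠ 0 := int_ne h.ne
  have h3 := (hSPP.2.2.2.1 (π i)).1
  obtain ⟨κ, hκ⟩ := (hSPP.2.2.2.1 (π i)).2
  have hA := htm (π i)
  have hA' := htm κ
  rw [hκ] at hA'
  have hc := hSCJ.1 (π i).1 (x : Eis) (B : Eis) (π i).2.1 h3 hx0 hB0
  rw [conj_intCast, conj_intCast] at hc
  have hVn : V (π i).1 (B : Eis) = e i := h.vB i
  have hVn' : V (conj (π i).1) (B : Eis) = e i := by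
    have h1 := V_conj (π i).2.1 hB0
    rw [conj_intCast, hVn] at h1
    exact h1
  have hV : ((V (π i).1 z + V (conj (π i).1) z : ℕ) : ZMod 3) = 0 :=
    (ZMod.natCast_eq_zero_iff _ 3).2 (V_add_conj (π i).2.1 hz hzt)
  push_cast at hV
  have hE := e_sq h i
  unfold tm at hA hA' hc ⊢
  rw [hVn] at hA hc ⊢
  rw [hVn'] at hA' hc
  have h0 := three_zero ((e i : ZMod 3) * (V (π i).1 z : ZMod 3) *
    ((e i : ZMod 3) * ch (π i).1 (x : Eis) - (V (π i).1 (x : Eis) : ZMod 3) *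
      ch (π i).1 (B : Eis)))
  generalize (V (π i).1 z : ZMod 3) = v at *
  generalize (V (conj (π i).1) z : ZMod 3) = v' at *
  generalize (e i : ZMod 3) = E at *
  generalize (V (π i).1 (x : Eis) : ZMod 3) = a at *
  generalize (V (conj (π i).1) (x : Eis) : ZMod 3) = a' at *
  generalize ch (π i).1 z = cz at *
  generalize ch (conj (π i).1) z = cz' at *
  generalize ch (π i).1 (x : Eis) = cx at *
  generalize ch (conj (π i).1) (x : Eis) = cx' at *
  generalize ch (π i).1 (B : Eis) = cn at *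
  generalize ch (conj (π i).1) (B : Eis) = cn' at *
  linear_combination (exp := 1) E * a * hA + E * a' * hA' - (a * cz - v * cx) * hE -
    (a' * cz' - v' * cx') * hE - h0 + v' * E * hc * (-1) +
    E * (E * cx - a * cn) * hV

/-- the local terms at the other places -/
theorem other (h : Dat B π e) {z t : Eis} (hz : z ≠ 0)
    (hzt : z * conj z = t ^ 3) (htm : ∀ σ : PP, tm σ.1 z (B : Eis) = 0)
    (hun : ∀ σ : PP, ¬ σ.1 ∣ (B : Eis) → 3 ∣ V σ.1 z) (x : ℤ)
    (hxn : ∀ σ : PP, σ.1 ∣ (x : Eis) → σ.1 ∣ (B : Eis)) (σ : PP)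
    (h1 : ∀ i, ¬ Associated σ.1 (π i).1) (h2 : ∀ i, ¬ Associated σ.1 (conj (π i).1)) :
    tm σ.1 z (x : Eis) = 0 := by
  by_cases hd : σ.1 ∣ (B : Eis)
  · rcases h.cls σ hd with ⟨i, h3 | h3⟩ | ⟨h3, h3'⟩
    · exact absurd h3 (h1 i)
    · exact absurd h3 (h2 i)
    · have h4 : 3 ∣ V σ.1 z := self_conj σ.2.1 h3 hz hzt
      have h5 := htm σ
      unfold tm at h5 ⊢
      rw [(ZMod.natCast_eq_zero_iff _ 3).2 h4, zero_mul, sub_zero] at h5 ⊢
      have hf : (V σ.1 (B : Eis) : ZMod 3) ≠ 0 := fun h6 =>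
        h3' ((ZMod.natCast_eq_zero_iff _ 3).1 h6)
      have : Fact (Nat.Prime 3) := ⟨Nat.prime_three⟩
      rw [(mul_eq_zero.1 h5).resolve_left hf, mul_zero]
  · unfold tm
    rw [V_eq_zero fun h3 => hd (hxn σ h3), (ZMod.natCast_eq_zero_iff _ 3).2 (hun σ hd)]
    simp

/-- the sum of the local terms -/
theorem finsum_tm (hSPP : SPP) (hSCJ : SCJ) (h : Dat B π e) {z t : Eis} (hz : z ≠ 0)
    (hzt : z * conj z = t ^ 3) (htm : ∀ σ : PP, tm σ.1 z (B : Eis) = 0)
    (hun : ∀ σ : PP, ¬ σ.1 ∣ (B : Eis) → 3 ∣ V σ.1 z) (x : ℤ) (hx : x ≠ 0)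
    (hxn : ∀ σ : PP, σ.1 ∣ (x : Eis) → σ.1 ∣ (B : Eis)) :
    ∑ᶠ σ : PP, tm σ.1 z (x : Eis) =
      ∑ i, (e i : ZMod 3) * (V (π i).1 z : ZMod 3) * tm (π i).1 (x : Eis) (B : Eis) := by
  classical
  choose κ hκ using fun i => (hSPP.2.2.2.1 (π i)).2
  have hg : Function.Injective (Sum.elim π κ) := by
    rintro (i | i) (j | j) hij
    · have h1 : π i = π j := hij
      rw [h.inj i j (by rw [h1])]
    · have h1 : π i = κ j := hij
      exact absurd (by rw [h1, hκ j]) (h.nc i j)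
    · have h1 : κ i = π j := hij
      exact absurd (by rw [← h1, hκ i]) (h.nc j i)
    · have h1 : κ i = κ j := hij
      have h2 : conj (π i).1 = conj (π j).1 := by rw [← hκ i, ← hκ j, h1]
      have h3 : (π i).1 = (π j).1 := by rw [← conj_conj (π i).1, h2, conj_conj]
      rw [h.inj i j (by rw [h3])]
  have hsup : Function.support (fun σ : PP => tm σ.1 z (x : Eis)) ⊆
      ((Finset.univ.image (Sum.elim π κ) : Finset PP) : Set PP) := by
    intro σ hσ
    by_contra hn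
    apply hσ
    have hn' : ∀ y, Sum.elim π κ y ≠ σ := by
      intro y hy
      apply hn
      rw [Finset.mem_coe, Finset.mem_image]
      exact ⟨y, Finset.mem_univ _, hy⟩
    refine other h hz hzt htm hun x hxn σ (fun i hi => ?_) fun i hi => ?_
    · exact hn' (Sum.inl i) (hSPP.2.1 _ _ hi.symm)
    · exact hn' (Sum.inr i) (hSPP.2.1 _ _ (by
        change Associated (κ i).1 σ.1
        rw [hκ i]
        exact hi.symm))
  rw [finsum_eq_sum_of_support_subset _ hsup, Finset.sum_image fun a _ b _ hab => hg hab,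
    Fintype.sum_sum_type, ← Finset.sum_add_distrib]
  refine Finset.sum_congr rfl fun i _ => ?_
  rw [← pair hSPP hSCJ h hz hzt htm i x hx]
  change tm (π i).1 z (x : Eis) + tm (κ i).1 z (x : Eis) = _
  rw [hκ i]

/-- the product formula -/
theorem prodf (hSPP : SPP) (hSCJ : SCJ) (h : Dat B π e) {z t : Eis} (hz : z ≠ 0)
    (hzt : z * conj z = t ^ 3) (htm : ∀ σ : PP, tm σ.1 z (B : Eis) = 0)
    (hun : ∀ σ : PP, ¬ σ.1 ∣ (B : Eis) → 3 ∣ V σ.1 z) (x : ℤ) (hx : x ≠ 0)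
    (hxn : ∀ σ : PP, σ.1 ∣ (x : Eis) → σ.1 ∣ (B : Eis)) :
    sl z (x : Eis) +
      ∑ i, (e i : ZMod 3) * (V (π i).1 z : ZMod 3) * tm (π i).1 (x : Eis) (B : Eis) = 0 := by
  rw [← finsum_tm hSPP hSCJ h hz hzt htm hun x hx hxn]
  unfold sl
  ring

end

/-! ### The symbol with rational integers -/

theorem lv_pow (hLCL : LCL) {a : ℤ} (ha : a ≠ 0) (k : ℕ) :
    lv (a ^ k) = k * lv a ∧ lw (a ^ k) = k * lw a := by
  induction k with
  | zero =>
    have h1 := hLCL.2.2.2.1 1 (by norm_num)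
    rw [pow_zero, h1.1, h1.2, one_pow, wt_one]
    simp
  | succ k ih =>
    have h1 := hLCL.2.1 (a ^ k) a (pow_ne_zero _ ha) ha
    rw [pow_succ, h1.1, h1.2, ih.1, ih.2]
    push_cast
    constructor <;> ring

theorem lw_four (hLCL : LCL) : lv 4 = 0 ∧ lw 4 = -1 := by
  have h1 := hLCL.2.2.2.1 4 (by norm_num)
  rw [h1.1, h1.2]
  refine ⟨rfl, ?_⟩
  rw [wt_eq (k := 5) (by norm_num)]
  decide

/-- the symbol with a rational integer -/
theorem sl_int (hSSL : SSL) (hLCL : LCL) {z : Eis} (hz : z ≠ 0) (x : ℤ) (hx : x ≠ 0) :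
    sl z (x : Eis) = lv x * sl z 3 - lw x * sl z 4 := by
  obtain ⟨i, hi⟩ : ∃ i : ℕ, (i : ZMod 3) = lv x := ⟨(lv x).val, ZMod.natCast_zmod_val _⟩
  obtain ⟨j, hj⟩ : ∃ j : ℕ, (j : ZMod 3) = -lw x := ⟨(-lw x).val, ZMod.natCast_zmod_val _⟩
  have h3 : (3 : ℤ) ^ i ≠ 0 := pow_ne_zero _ (by norm_num)
  have h4 : (4 : ℤ) ^ j ≠ 0 := pow_ne_zero _ (by norm_num)
  have e3 := lv_pow hLCL (a := 3) (by norm_num) i
  have e4 := lv_pow hLCL (a := 4) (by norm_num) j
  have e34 := hLCL.2.1 _ _ h3 h4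
  obtain ⟨f1, f2⟩ := hLCL.2.2.1
  obtain ⟨g1, g2⟩ := lw_four hLCL
  have h5 := hLCL.2.2.2.2.2.1 x (3 ^ i * 4 ^ j) z hx (mul_ne_zero h3 h4) hz
    (by rw [e34.1, e3.1, e4.1, f1, g1, hi]; ring)
    (by rw [e34.2, e3.2, e4.2, f2, g2, hj]; ring)
  have hsk : ∀ a : Eis, a ≠ 0 → sl z a = - sl a z := fun a ha => hSSL.2.1 a z ha hz
  have hA := add3_sl hSSL hz
  have k3 : (3 : Eis) ≠ 0 := by
    have := int_ne (x := 3) (by norm_num)
    push_cast at this
    exact this
  have k4 : (4 : Eis) ≠ 0 := by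
    have := int_ne (x := 4) (by norm_num)
    push_cast at this
    exact this
  rw [h5]
  push_cast
  have h6 : sl (3 ^ i * 4 ^ j) z = i * sl 3 z + j * sl 4 z := by
    have h7 := hA _ _ (pow_ne_zero i k3) (pow_ne_zero j k4)
    have h8 := hA.pow k3 i
    have h9 := hA.pow k4 j
    simp only at h7 h8 h9
    rw [h7, h8, h9]
  rw [hsk _ (mul_ne_zero (pow_ne_zero i k3) (pow_ne_zero j k4)), hsk _ k3, hsk _ k4, h6, hi, hj]
  ring

/-! ### The family of `B = 3^h n q^E` -/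

section

variable {n m k : ℕ} {π : Fin m → PP} {p e : Fin m → ℕ} {r f : Fin k → ℕ}

theorem BB_cast (h n E q : ℕ) : ((BB h n E q : ℤ) : Eis) = 3 ^ h * (n : Eis) * (q : Eis) ^ E := by
  unfold BB
  push_cast
  rfl

theorem three_ne : (3 : Eis) ≠ 0 := by
  have := int_ne (x := 3) (by norm_num)
  push_cast at this
  exact this

theorem BB_ne (hn : NF n π p e r f) {h E q : ℕ} (hq : q.Prime) : BB h n E q ≠ 0 := by
  unfold BB
  have h1 := EHYP.n_ne hn
  have h2 := hq.ne_zero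
  positivity

theorem dvd_iff (hSPP : SPP) {h n E q : ℕ} (hE : E = 1 ∨ E = 2) (σ : PP) :
    σ.1 ∣ ((BB h n E q : ℤ) : Eis) ↔ σ.1 ∣ (n : Eis) ∨ σ.1 ∣ (q : Eis) := by
  rw [BB_cast]
  constructor
  · intro h1
    rcases σ.2.1.dvd_or_dvd h1 with h1 | h1
    · rcases σ.2.1.dvd_or_dvd h1 with h1 | h1
      · exact absurd (σ.2.1.dvd_of_dvd_pow h1) (hSPP.2.2.2.1 σ).1
      · exact Or.inl h1
    · exact Or.inr (σ.2.1.dvd_of_dvd_pow h1)
  · rintro (h1 | h1)
    · exact Dvd.dvd.mul_right (Dvd.dvd.mul_left h1 _) _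
    · refine Dvd.dvd.mul_left (h1.trans (dvd_pow_self _ ?_)) _
      omega

theorem V_BB (hn : NF n π p e r f) {h E q : ℕ} (hq : q.Prime) {l : Eis} (hl : Prime l)
    (h3 : ¬ l ∣ 3) : V l ((BB h n E q : ℤ) : Eis) = V l (n : Eis) + E * V l (q : Eis) := by
  have hq0 : (q : Eis) ≠ 0 := by
    have := int_ne (x := (q : ℤ)) (by exact_mod_cast hq.ne_zero)
    push_cast at this
    exact this
  have hn0 := HYPS.n_ne0 hn
  rw [BB_cast, V_mul hl (mul_ne_zero (pow_ne_zero _ three_ne) hn0) (pow_ne_zero _ hq0),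
    V_mul hl (pow_ne_zero _ three_ne) hn0, V_pow hl three_ne, V_pow hl hq0, V_eq_zero h3]
  ring

theorem nat_dvd {a b : ℕ} (h : (a : Eis) ∣ (b : Eis)) : a ∣ b := by
  obtain ⟨y, hy⟩ := h
  have h1 := congrArg Eis.re hy
  have h2 : (a : ℤ) ∣ (b : ℤ) := by
    refine ⟨y.re, ?_⟩
    simpa using h1
  exact_mod_cast h2

theorem dat (hSPP : SPP) (hn : NF n π p e r f) {h E q : ℕ} (hE : E = 1 ∨ E = 2) (hq : q.Prime)
    (hq2 : q % 3 = 2) (hqn : ¬ q ∣ n) : Dat (BB h n E q) π e where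
  ne := BB_ne hn hq
  e12 := hn.pe
  vB i := by
    have hqI := inert hSPP hq hq2
    rw [V_BB hn hq (π i).2.1 (hSPP.2.2.2.1 (π i)).1, V_n_i hSPP hn i,
      V_ne (π i).2.1 hqI.1 (not_assoc_nat hn i q)]
    ring
  nc := not_assoc hn
  inj := assoc_iff hn
  cls σ hσ := by
    have hqI := inert hSPP hq hq2
    have h3 := (hSPP.2.2.2.1 σ).1
    have key : ∀ s : ℕ, Associated σ.1 (s : Eis) → Associated (conj σ.1) σ.1 := by
      intro s hs
      have h1 := assoc_conj hs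
      rw [conj_natCast] at h1
      exact h1.trans hs.symm
    rw [V_BB hn hq σ.2.1 h3]
    rcases (dvd_iff hSPP hE σ).1 hσ with h1 | h1
    · rcases HYPS.cls hSPP hn σ.2.1 h1 with h2 | ⟨j, h2⟩
      · exact Or.inl h2
      · refine Or.inr ⟨key _ h2, ?_⟩
        have hj := inert hSPP (hn.rp j) (hn.r2 j)
        have h4 : r j ≠ q := by
          rintro h5
          apply hqn
          rw [← h5, hn.eq]
          refine Dvd.dvd.mul_left ?_ _
          have h11 : r j ^ f j ∣ ∏ j, r j ^ f j := Finset.dvd_prod_of_mem _ (Finset.mem_univ j)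
          refine (dvd_pow_self _ ?_).trans h11
          have := hn.rf j
          omega
        rw [V_assoc h2, V_assoc h2, V_n_j hSPP hn, V_nat_nat hj.1 hqI.1, if_neg h4.symm]
        have := hn.rf j
        omega
    · refine Or.inr ?_
      have h2 : Associated σ.1 (q : Eis) := σ.2.1.associated_of_dvd hqI.1 h1
      refine ⟨key _ h2, ?_⟩
      have h4 : V (q : Eis) (n : Eis) = 0 := V_eq_zero fun h5 => hqn (nat_dvd h5)
      rw [V_assoc h2, V_assoc h2, h4, V_nat_nat hqI.1 hqI.1, if_pos rfl]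
      omega

/-- the classes of `B` at `lam` -/
theorem lvw (hLCL : LCL) (hn : NF n π p e r f) {h E q : ℕ} {w0 : ZMod 3} (hq : q.Prime)
    (hq3 : ¬ 3 ∣ q) (hw : wt (((q : ℤ) ^ E) ^ 2) = w0) :
    lv (BB h n E q) = h ∧ lw (BB h n E q) = wt ((n : ℤ) ^ 2) + w0 := by
  have h0 : (n : ℤ) ≠ 0 := by exact_mod_cast EHYP.n_ne hn
  have h1 : (q : ℤ) ^ E ≠ 0 := pow_ne_zero _ (by exact_mod_cast hq.ne_zero)
  have h2 : (3 : ℤ) ^ h ≠ 0 := pow_ne_zero _ (by norm_num)
  have a1 := hLCL.2.1 _ _ (mul_ne_zero h2 h0) h1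
  have a2 := hLCL.2.1 _ _ h2 h0
  have a3 := lv_pow hLCL (a := 3) (by norm_num) h
  have a4 := hLCL.2.2.1
  have a5 := hLCL.2.2.2.1 (n : ℤ) fun h5 => three_n hn (by exact_mod_cast h5)
  have a6 := hLCL.2.2.2.1 ((q : ℤ) ^ E) fun h5 => hq3 (by
    have h6 := Int.prime_three.dvd_of_dvd_pow h5
    exact_mod_cast h6)
  unfold BB
  rw [a1.1, a1.2, a2.1, a2.2, a3.1, a3.2, a4.1, a4.2, a5.1, a5.2, a6.1, a6.2, hw]
  constructor <;> ring

theorem nine_BB (hn : NF n π p e r f) {E q : ℕ} (hq3 : ¬ 3 ∣ q) : ¬ (9 : ℤ) ∣ BB 1 n E q := by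
  unfold BB
  intro h1
  have h2 : (3 : ℤ) ∣ n * (q : ℤ) ^ E := by
    obtain ⟨y, hy⟩ := h1
    refine ⟨y, ?_⟩
    linarith
  rcases Int.prime_three.dvd_or_dvd h2 with h3 | h3
  · exact three_n hn (by exact_mod_cast h3)
  · have h6 := Int.prime_three.dvd_of_dvd_pow h3
    exact hq3 (by exact_mod_cast h6)

end

end HYPT

open HYPT in
/-- HYPT -/
theorem HYPT_thm (_hSTM : STM) (hSPP : SPP) (hSSL : SSL) (_hSLC : SLC) (_hSREC : SREC)
    (hSCJ : SCJ) (_hLCI : LCI) (hLCL : LCL) : HYPT := by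
  intro h n m k π p e r f w0 c E q hn hh hE hq hq2 hcl hqn hdet z t hz hzt htm hun h9
  obtain ⟨hw, hqs⟩ := hcl
  have hD := dat hSPP hn (h := h) hE hq hq2 hqn
  have hq3 : ¬ 3 ∣ q := by omega
  have hqI := inert hSPP hq hq2
  have hB0 := int_ne hD.ne
  have hn0 := HYPS.n_ne0 hn
  obtain ⟨a, hF, hcube⟩ := decomp hSPP hn hq hq2 hz hzt (fun σ hσ => hun σ fun h1 => hσ (by
    push_cast
    rcases (dvd_iff hSPP hE σ).1 h1 with h2 | h2
    · exact Dvd.dvd.mul_right h2 _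
    · exact Dvd.dvd.mul_left h2 _))
  obtain ⟨hlv, hlw⟩ := lvw hLCL hn (h := h) hq hq3 hw
  have hsl := sl_int hSSL hLCL hz
  -- the two values of the symbol
  obtain ⟨μ, hμ, hμ1⟩ : ∃ μ : ZMod 3, (∀ x : ℤ, x ≠ 0 →
      sl z (x : Eis) = μ * (lw x + lv x * (wt ((n : ℤ) ^ 2) + w0))) ∧ (h = 1 → μ = 0) := by
    rcases hh with rfl | rfl
    · obtain ⟨h1, h2⟩ := h9 (nine_BB hn hq3)
      refine ⟨0, fun x hx => ?_, fun _ => rfl⟩
      rw [hsl x hx, h1, h2]
      ring
    · refine ⟨-sl z 4, fun x hx => ?_, fun h1 => by omega⟩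
      have h1 : sl z ((BB 2 n E q : ℤ) : Eis) = 0 := by
        unfold sl
        rw [finsum_eq_zero_of_forall_eq_zero fun π => htm π, neg_zero]
      have h2 := hsl _ hD.ne
      rw [h1, hlv, hlw] at h2
      rw [hsl x hx]
      have h3 := three_zero (lv x * sl z 3)
      push_cast at h2
      linear_combination h3 + (-lv x) * (-1) * h2
  -- the product formula
  have key : ∀ x : ℤ, x ≠ 0 → (∀ σ : PP, σ.1 ∣ (x : Eis) → σ.1 ∣ ((BB h n E q : ℤ) : Eis)) →
      μ * (lw x + lv x * (wt ((n : ℤ) ^ 2) + w0)) +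
        ∑ i, (e i : ZMod 3) * (V (π i).1 z : ZMod 3) *
          tm (π i).1 (x : Eis) ((BB h n E q : ℤ) : Eis) = 0 := by
    intro x hx hxn
    rw [← hμ x hx]
    exact prodf hSPP hSCJ hD hz hzt htm hun x hx hxn
  have hi : ∀ i, Prime (π i).1 := fun i => (π i).2.1
  have h3 : ∀ i, ¬ (π i).1 ∣ 3 := fun i => (hSPP.2.2.2.1 (π i)).1
  have hqi : ∀ i, ¬ (π i).1 ∣ (q : Eis) := fun i h5 =>
    not_assoc_nat hn i q ((hi i).associated_of_dvd hqI.1 h5)
  have hcB : ∀ i, ch (π i).1 ((BB h n E q : ℤ) : Eis) =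
      ch (π i).1 ((3 ^ h * n : ℕ) : Eis) + c i := fun i => by
    have h1 : ((3 ^ h * n : ℕ) : Eis) = 3 ^ h * (n : Eis) := by push_cast; rfl
    have h2 := (add3_ch (hi i) (h3 i)).pow hqI.1.ne_zero E
    rw [BB_cast, h1, ch_mul (hi i) (h3 i) (mul_ne_zero (pow_ne_zero _ three_ne) hn0)
      (pow_ne_zero _ hqI.1.ne_zero), h2, ch_of_not_dvd (hi i) (hqi i), hqs i]
  have : Fact (Nat.Prime 3) := ⟨Nat.prime_three⟩
  have hpn : ∀ i, (p i : Eis) ∣ (n : Eis) := fun i => by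
    have h1 : p i ∣ n := by
      rw [hn.eq]
      refine Dvd.dvd.mul_right ?_ _
      have h1 : p i ^ e i ∣ ∏ i, p i ^ e i := Finset.dvd_prod_of_mem _ (Finset.mem_univ i)
      refine (dvd_pow_self _ ?_).trans h1
      have := hn.pe i
      omega
    obtain ⟨d, hd⟩ := h1
    exact ⟨(d : Eis), by rw [hd]; push_cast; rfl⟩
  -- the kernel
  have hvec : Matrix.vecMul
      (Fin.cons μ fun i => (e i : ZMod 3) * (V (π i).1 z : ZMod 3) : Fin (m + 1) → ZMod 3)
      (Mt h n π p e w0 c) = 0 := by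
    funext b
    refine Fin.cases ?_ (fun i' => ?_) b
    · have h1 : Matrix.vecMul
          (Fin.cons μ fun i => (e i : ZMod 3) * (V (π i).1 z : ZMod 3) : Fin (m + 1) → ZMod 3)
          (Mt h n π p e w0 c) 0 = μ * (if h = 2 then wt ((n : ℤ) ^ 2) + w0 else 1) +
            ∑ i, (e i : ZMod 3) * (V (π i).1 z : ZMod 3) *
            ((e i : ZMod 3) * sym (π i).1 3) := by
        simp [Matrix.vecMul, dotProduct, Mt, Fin.sum_univ_succ]
      rw [h1, Pi.zero_apply]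
      have h2 := key 3 (by norm_num) (fun σ hσ => absurd (by push_cast at hσ; exact hσ)
        (hSPP.2.2.2.1 σ).1)
      rw [hLCL.2.2.1.1, hLCL.2.2.1.2, one_mul, zero_add] at h2
      rw [← h2]
      congr 1
      · rcases hh with rfl | rfl
        · rw [hμ1 rfl]
          ring
        · rw [if_pos rfl]
      · refine Finset.sum_congr rfl fun i _ => ?_
        congr 1
        push_cast
        unfold tm
        rw [hD.vB i, V_eq_zero (h3 i), ch_of_not_dvd (hi i) (h3 i)]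
        simp
    · have h1 : Matrix.vecMul
          (Fin.cons μ fun i => (e i : ZMod 3) * (V (π i).1 z : ZMod 3) : Fin (m + 1) → ZMod 3)
          (Mt h n π p e w0 c) i'.succ = μ * (if h = 2 then wt ((p i' : ℤ) ^ 2) else 0) +
            ∑ i, (e i : ZMod 3) * (V (π i).1 z : ZMod 3) *
            (if i' = i then (e i : ZMod 3) * sym (π i).1 (conj (π i).1) -
              ch (π i).1 ((3 ^ h * n : ℕ) : Eis) - c i
            else (e i : ZMod 3) * sym (π i).1 (p i' : Eis)) := by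
        simp [Matrix.vecMul, dotProduct, Mt, Fin.sum_univ_succ]
      rw [h1, Pi.zero_apply]
      have h2 := key (p i') (by exact_mod_cast (hn.pp i').ne_zero) (fun σ hσ => by
        rw [Int.cast_natCast] at hσ
        exact (dvd_iff hSPP hE σ).2 (Or.inl (hσ.trans (hpn i'))))
      have h4 := hLCL.2.2.2.1 (p i' : ℤ) fun h5 => by
        have h6 : 3 ∣ p i' := by exact_mod_cast h5
        have := hn.p1 i'
        omega
      rw [h4.1, h4.2, zero_mul, add_zero] at h2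
      rw [← h2]
      congr 1
      · rcases hh with rfl | rfl
        · rw [hμ1 rfl]
          ring
        · rw [if_pos rfl]
      refine Finset.sum_congr rfl fun i _ => ?_
      congr 1
      rw [Int.cast_natCast]
      unfold tm
      rw [hD.vB i, hcB i]
      split_ifs with hii
      · subst hii
        have hcj : ¬ (π i').1 ∣ conj (π i').1 := fun h5 =>
          not_assoc hn i' i' ((hi i').associated_of_dvd (prime_conj (π i').2.1) h5)
        rw [hn.pπ i', V_mul (hi i') (hi i').ne_zero (prime_conj (π i').2.1).ne_zero, V_self,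
          V_eq_zero hcj, ch_mul (hi i') (h3 i') (hi i').ne_zero
            (prime_conj (π i').2.1).ne_zero, ch_self (hi i') (h3 i'),
          ch_of_not_dvd (hi i') hcj]
        push_cast
        ring
      · have hnd : ¬ (π i).1 ∣ (p i' : Eis) := by
          rw [hn.pπ i']
          intro h5
          rcases (hi i).dvd_or_dvd h5 with h5 | h5
          · exact hii (assoc_iff hn i i' ((hi i).associated_of_dvd (π i').2.1 h5)).symm
          · exact not_assoc hn i i' ((hi i).associated_of_dvd (prime_conj (π i').2.1) h5)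
        rw [V_eq_zero hnd, ch_of_not_dvd (hi i) hnd]
        push_cast
        ring
  have hx := Matrix.eq_zero_of_vecMul_eq_zero hdet hvec
  have hμ0 : μ = 0 := by
    have := congrFun hx 0
    simpa using this
  have hV : ∀ i, (V (π i).1 z : ZMod 3) = 0 := by
    intro i
    have h1 := congrFun hx i.succ
    simp only [Fin.cons_succ, Pi.zero_apply] at h1
    refine (mul_eq_zero.1 h1).resolve_left fun h2 => ?_
    have h4 := e_sq hD i
    rw [h2, mul_zero] at h4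
    exact zero_ne_one h4
  -- the unit
  refine hcube ?_ hV
  have h4 := hF _ (add3_sl hSSL (int_ne (x := 4) (by norm_num)))
  simp only [hV, zero_mul, Finset.sum_const_zero, add_zero] at h4
  rw [hμ 4 (by norm_num), hμ0, zero_mul, hLCL.2.2.2.2.1 4 (by norm_num), (lw_four hLCL).2] at h4
  rw [neg_neg, mul_one] at h4
  exact h4.symm

end Pool.Agent.PT3
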