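import Pool.Agent.PT3.Stmts
import Pool.Agent.PTE.HYPS

/-!
# HYPU: the minus part of the Selmer group is trivial, `n` divisible by `3`, twists by primes
`= 1 (mod 3)`
-/

set_option autoImplicit false

namespace Pool.Agent.PT3

open Pool.Agent.Lib_helper18 Pool.Agent.Lib_helper18.Eis Pool.Agent.Lib_helper84.Cub
open Pool.Agent.PT Pool.Agent.PTE Pool.Agent.PT.EHYP

namespace HYPU

section

variable {n m k : ℕ} {π : Fin m → PP} {p e : Fin m → ℕ} {r f : Fin k → ℕ}

/-- the extended normal form -/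
theorem ext (h : NF n π p e r f) {q E : ℕ} (hE : E = 1 ∨ E = 2) (ρ : PP) (hq : q.Prime)
    (hq1 : q % 3 = 1) (hqn : ¬ q ∣ n) (hρ : (q : Eis) = ρ.1 * conj ρ.1) :
    NF (n * q ^ E) (Fin.cons ρ π : Fin (m + 1) → PP) (Fin.cons q p : Fin (m + 1) → ℕ)
      (Fin.cons E e : Fin (m + 1) → ℕ) r f where
  pp i := by
    refine Fin.cases ?_ (fun i => ?_) i
    · exact hq
    · exact h.pp i
  p1 i := by
    refine Fin.cases ?_ (fun i => ?_) i
    · exact hq1
    · exact h.p1 i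
  pπ i := by
    refine Fin.cases ?_ (fun i => ?_) i
    · exact hρ
    · exact h.pπ i
  pe i := by
    refine Fin.cases ?_ (fun i => ?_) i
    · exact hE
    · exact h.pe i
  pinj := by
    rw [Fin.cons_injective_iff]
    refine ⟨?_, h.pinj⟩
    rintro ⟨i, hi⟩
    apply hqn
    rw [← hi, h.eq]
    refine Dvd.dvd.mul_right ?_ _
    have h1 : p i ^ e i ∣ ∏ i, p i ^ e i := Finset.dvd_prod_of_mem _ (Finset.mem_univ i)
    refine (dvd_pow_self _ ?_).trans h1
    have := h.pe i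
    omega
  rp := h.rp
  r2 := h.r2
  rf := h.rf
  rinj := h.rinj
  eq := by
    rw [Fin.prod_univ_succ]
    simp only [Fin.cons_zero, Fin.cons_succ]
    rw [h.eq]
    ring

/-- the local terms at a split pair; `B` has the same valuations as `n` -/
theorem pair (hSPP : SPP) (hSCJ : SCJ) (h : NF n π p e r f) {B : ℤ} (hB : (B : Eis) ≠ 0)
    (hVB : ∀ σ : PP, V σ.1 (B : Eis) = V σ.1 (n : Eis)) {z t : Eis} (hz : z ≠ 0)
    (hzt : z * conj z = t ^ 3) (htm : ∀ σ : PP, tm σ.1 z (B : Eis) = 0) (i : Fin m) (x : ℤ)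
    (hx : x ≠ 0) :
    tm (π i).1 z (x : Eis) + tm (conj (π i).1) z (x : Eis) =
      (e i : ZMod 3) * (V (π i).1 z : ZMod 3) * tm (π i).1 (x : Eis) (B : Eis) := by
  have hx0 : (x : Eis) ≠ 0 := by
    intro h0
    have := congrArg Eis.re h0
    simp only [intCast_re, zero_re] at this
    exact hx this
  have h3 := (hSPP.2.2.2.1 (π i)).1
  obtain ⟨κ, hκ⟩ := (hSPP.2.2.2.1 (π i)).2
  have hA := htm (π i)
  have hA' := htm κ
  rw [hκ] at hA'
  have hc := hSCJ.1 (π i).1 (x : Eis) (B : Eis) (π i).2.1 h3 hx0 hB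
  rw [conj_intCast, conj_intCast] at hc
  have hVn : V (π i).1 (B : Eis) = e i := by rw [hVB]; exact V_n_i hSPP h i
  have hVn' : V (conj (π i).1) (B : Eis) = e i := by
    have h1 := V_conj (π i).2.1 hB
    rw [conj_intCast, hVn] at h1
    exact h1
  have hV : ((V (π i).1 z + V (conj (π i).1) z : ℕ) : ZMod 3) = 0 :=
    (ZMod.natCast_eq_zero_iff _ 3).2 (V_add_conj (π i).2.1 hz hzt)
  push_cast at hV
  have hE := HYPS.e_sq h i
  unfold tm at hA hA' hc ⊢
  rw [hVn] at hA hc ⊢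
  rw [hVn'] at hA' hc
  have h0 := three_zero ((e i : ZMod 3) * (V (π i).1 z : ZMod 3) *
    ((e i : ZMod 3) * ch (π i).1 (x : Eis) - (V (π i).1 (x : Eis) : ZMod 3) *
      ch (π i).1 (B : Eis)))
  generalize (V (π i).1 z : ZMod 3) = v at *
  generalize (V (conj (π i).1) z : ZMod 3) = v' at *
  generalize (e i : ZMod 3) = E at *
  generalize (V (π i).1 (x : Eis) : ZMod 3) = a at *
  generalize (V (conj (π i).1) (x : Eis) : ZMod 3) = a' at *
  generalize ch (π i).1 z = cz at *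
  generalize ch (conj (π i).1) z = cz' at *
  generalize ch (π i).1 (x : Eis) = cx at *
  generalize ch (conj (π i).1) (x : Eis) = cx' at *
  generalize ch (π i).1 (B : Eis) = cn at *
  generalize ch (conj (π i).1) (B : Eis) = cn' at *
  linear_combination (exp := 1) E * a * hA + E * a' * hA' - (a * cz - v * cx) * hE -
    (a' * cz' - v' * cx') * hE - h0 + v' * E * hc * (-1) +
    E * (E * cx - a * cn) * hV

/-- the local terms at the other places -/
theorem other (hSPP : SPP) (h : NF n π p e r f) {B : ℤ}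
    (hVB : ∀ σ : PP, V σ.1 (B : Eis) = V σ.1 (n : Eis)) {z t : Eis} (hz : z ≠ 0)
    (hzt : z * conj z = t ^ 3) (htm : ∀ σ : PP, tm σ.1 z (B : Eis) = 0)
    (hun : ∀ σ : PP, ¬ σ.1 ∣ (n : Eis) → 3 ∣ V σ.1 z) (x : ℤ)
    (hxn : ∀ σ : PP, σ.1 ∣ (x : Eis) → σ.1 ∣ (n : Eis)) (σ : PP)
    (h1 : ∀ i, ¬ Associated σ.1 (π i).1) (h2 : ∀ i, ¬ Associated σ.1 (conj (π i).1)) :
    tm σ.1 z (x : Eis) = 0 := by
  by_cases hd : σ.1 ∣ (n : Eis)
  · rcases HYPS.cls hSPP h σ.2.1 hd with ⟨i, h3 | h3⟩ | ⟨j, h3⟩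
    · exact absurd h3 (h1 i)
    · exact absurd h3 (h2 i)
    · have hj := inert hSPP (h.rp j) (h.r2 j)
      have h4 : 3 ∣ V σ.1 z := by
        rw [V_assoc h3]
        exact self_conj hj.1 (by rw [conj_natCast]) hz hzt
      have h5 := htm σ
      unfold tm at h5 ⊢
      rw [(ZMod.natCast_eq_zero_iff _ 3).2 h4, zero_mul, sub_zero] at h5 ⊢
      have hf : (f j : ZMod 3) ≠ 0 := by
        rcases h.rf j with h10 | h10 <;> rw [h10] <;> decide
      have : Fact (Nat.Prime 3) := ⟨Nat.prime_three⟩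
      rw [hVB σ, V_assoc h3, V_n_j hSPP h] at h5
      rw [(mul_eq_zero.1 h5).resolve_left hf, mul_zero]
  · unfold tm
    rw [V_eq_zero fun h3 => hd (hxn σ h3), (ZMod.natCast_eq_zero_iff _ 3).2 (hun σ hd)]
    simp

/-- the sum of the local terms -/
theorem finsum_tm (hSPP : SPP) (hSCJ : SCJ) (h : NF n π p e r f) {B : ℤ} (hB : (B : Eis) ≠ 0)
    (hVB : ∀ σ : PP, V σ.1 (B : Eis) = V σ.1 (n : Eis)) {z t : Eis} (hz : z ≠ 0)
    (hzt : z * conj z = t ^ 3) (htm : ∀ σ : PP, tm σ.1 z (B : Eis) = 0)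
    (hun : ∀ σ : PP, ¬ σ.1 ∣ (n : Eis) → 3 ∣ V σ.1 z) (x : ℤ) (hx : x ≠ 0)
    (hxn : ∀ σ : PP, σ.1 ∣ (x : Eis) → σ.1 ∣ (n : Eis)) :
    ∑ᶠ σ : PP, tm σ.1 z (x : Eis) =
      ∑ i, (e i : ZMod 3) * (V (π i).1 z : ZMod 3) * tm (π i).1 (x : Eis) (B : Eis) := by
  classical
  choose κ hκ using fun i => (hSPP.2.2.2.1 (π i)).2
  have hg : Function.Injective (Sum.elim π κ) := by
    rintro (i | i) (j | j) hij
    · have h1 : π i = π j := hij
      rw [assoc_iff h i j (by rw [h1])]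
    · have h1 : π i = κ j := hij
      exact absurd (by rw [h1, hκ j]) (not_assoc h i j)
    · have h1 : κ i = π j := hij
      exact absurd (by rw [← h1, hκ i]) (not_assoc h j i)
    · have h1 : κ i = κ j := hij
      have h2 : conj (π i).1 = conj (π j).1 := by rw [← hκ i, ← hκ j, h1]
      have h3 : (π i).1 = (π j).1 := by rw [← conj_conj (π i).1, h2, conj_conj]
      rw [assoc_iff h i j (by rw [h3])]
  have hsup : Function.support (fun σ : PP => tm σ.1 z (x : Eis)) ⊆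
      ((Finset.univ.image (Sum.elim π κ) : Finset PP) : Set PP) := by
    intro σ hσ
    by_contra hn
    apply hσ
    have hn' : ∀ y, Sum.elim π κ y ≠ σ := by
      intro y hy
      apply hn
      rw [Finset.mem_coe, Finset.mem_image]
      exact ⟨y, Finset.mem_univ _, hy⟩
    refine other hSPP h hVB hz hzt htm hun x hxn σ (fun i hi => ?_) fun i hi => ?_
    · exact hn' (Sum.inl i) (hSPP.2.1 _ _ hi.symm)
    · exact hn' (Sum.inr i) (hSPP.2.1 _ _ (by
        change Associated (κ i).1 σ.1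
        rw [hκ i]
        exact hi.symm))
  rw [finsum_eq_sum_of_support_subset _ hsup, Finset.sum_image fun a _ b _ hab => hg hab,
    Fintype.sum_sum_type, ← Finset.sum_add_distrib]
  refine Finset.sum_congr rfl fun i _ => ?_
  rw [← pair hSPP hSCJ h hB hVB hz hzt htm i x hx]
  change tm (π i).1 z (x : Eis) + tm (κ i).1 z (x : Eis) = _
  rw [hκ i]

end

/-! ### the classes at `lam` -/

theorem cast_ne {x : ℤ} (hx : x ≠ 0) : (x : Eis) ≠ 0 := by
  intro h0
  have := congrArg Eis.re h0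
  simp only [intCast_re, zero_re] at this
  exact hx this

theorem add3_slr (hSSL : SSL) {z : Eis} (hz : z ≠ 0) : Add3 fun b => sl z b := by
  intro a b ha hb
  have h1 := hSSL.1 a b z ha hb hz
  rw [hSSL.2.1 z (a * b) hz (mul_ne_zero ha hb), hSSL.2.1 z a hz ha, hSSL.2.1 z b hz hb] at h1
  linear_combination (-1 : ZMod 3) * h1

theorem l_one (hLCL : LCL) : lv 1 = 0 ∧ lw 1 = 0 := by
  have h := hLCL.2.2.2.1 1 (by norm_num)
  refine ⟨h.1, ?_⟩
  rw [h.2, one_pow, wt_one]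

theorem l_pow (hLCL : LCL) (a : ℤ) (ha : a ≠ 0) (k : ℕ) :
    lv (a ^ k) = k * lv a ∧ lw (a ^ k) = k * lw a := by
  induction k with
  | zero =>
    rw [pow_zero]
    have h := l_one hLCL
    rw [h.1, h.2]
    simp
  | succ k ih =>
    have h := hLCL.2.1 (a ^ k) a (pow_ne_zero _ ha) ha
    rw [pow_succ, h.1, h.2, ih.1, ih.2]
    push_cast
    constructor <;> ring

theorem l_four (hLCL : LCL) : lv 4 = 0 ∧ lw 4 = -1 := by
  have h := hLCL.2.2.2.1 4 (by norm_num)
  refine ⟨h.1, ?_⟩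
  rw [h.2]
  decide

/-- the symbol of a fixed number and the rational numbers -/
theorem sl_lin (hSSL : SSL) (hLCL : LCL) {z : Eis} (hz : z ≠ 0) (x : ℤ) (hx : x ≠ 0) :
    sl z (x : Eis) = lv x * sl z 3 - lw x * sl z 4 := by
  have hA := add3_slr hSSL hz
  have h30 : (3 : Eis) ≠ 0 := by
    have := cast_ne (x := 3) (by norm_num)
    exact_mod_cast this
  have h40 : (4 : Eis) ≠ 0 := by
    have := cast_ne (x := 4) (by norm_num)
    exact_mod_cast this
  obtain ⟨i, hi⟩ : ∃ i : ℕ, (i : ZMod 3) = lv x := ⟨(lv x).val, ZMod.natCast_zmod_val _⟩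
  obtain ⟨j, hj⟩ : ∃ j : ℕ, (j : ZMod 3) = -lw x := ⟨(-lw x).val, ZMod.natCast_zmod_val _⟩
  have h3 := l_pow hLCL 3 (by norm_num) i
  have h4 := l_pow hLCL 4 (by norm_num) j
  have h5 := hLCL.2.1 (3 ^ i) (4 ^ j) (pow_ne_zero _ (by norm_num)) (pow_ne_zero _ (by norm_num))
  rw [h3.1, h3.2, h4.1, h4.2, hLCL.2.2.1.1, hLCL.2.2.1.2, (l_four hLCL).1, (l_four hLCL).2,
    hi, hj] at h5
  have h6 := hLCL.2.2.2.2.2.1 x (3 ^ i * 4 ^ j) z hx
    (mul_ne_zero (pow_ne_zero _ (by norm_num)) (pow_ne_zero _ (by norm_num))) hz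
    (by rw [h5.1]; ring) (by rw [h5.2]; ring)
  rw [h6]
  push_cast
  have h7 := hA ((3 : Eis) ^ i) ((4 : Eis) ^ j) (pow_ne_zero _ h30) (pow_ne_zero _ h40)
  have h8 := hA.pow h30 i
  have h9 := hA.pow h40 j
  simp only at h7 h8 h9
  rw [h7, h8, h9, hi, hj]
  ring

/-- the classes of `B` -/
theorem l_BB (hLCL : LCL) {h n E q : ℕ} (hn : ¬ 3 ∣ n) (hq : q.Prime) (hq3 : q % 3 = 1 ∨ q % 3 = 2)
    (hn0 : n ≠ 0) :
    BB h n E q ≠ 0 ∧ lv (BB h n E q) = h ∧
      lw (BB h n E q) = wt ((n : ℤ) ^ 2) + wt (((q : ℤ) ^ E) ^ 2) := by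
  have hq0 : (q : ℤ) ≠ 0 := by exact_mod_cast hq.ne_zero
  have hn0' : (n : ℤ) ≠ 0 := by exact_mod_cast hn0
  have h3 : ((3 : ℤ) ^ h) ≠ 0 := pow_ne_zero _ (by norm_num)
  have hn' : ¬ (3 : ℤ) ∣ (n : ℤ) := by exact_mod_cast hn
  have hq' : ¬ (3 : ℤ) ∣ (q : ℤ) ^ E := by
    intro h1
    have h2 : (3 : ℤ) ∣ (q : ℤ) := Int.prime_three.dvd_of_dvd_pow h1
    have h4 : 3 ∣ q := by exact_mod_cast h2
    omega
  have h1 := hLCL.2.1 ((3 : ℤ) ^ h * n) ((q : ℤ) ^ E) (mul_ne_zero h3 hn0') (pow_ne_zero _ hq0)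
  have h2 := hLCL.2.1 ((3 : ℤ) ^ h) n h3 hn0'
  have h4 := l_pow hLCL 3 (by norm_num) h
  have h5 := hLCL.2.2.2.1 n hn'
  have h6 := hLCL.2.2.2.1 _ hq'
  unfold BB
  refine ⟨mul_ne_zero (mul_ne_zero h3 hn0') (pow_ne_zero _ hq0), ?_, ?_⟩
  · rw [h1.1, h2.1, h4.1, h5.1, h6.1, hLCL.2.2.1.1]
    ring
  · rw [h1.2, h2.2, h4.2, h5.2, h6.2, hLCL.2.2.1.2]
    ring

end HYPU

open HYPU in
/-- HYPU -/
theorem HYPU_thm (_hSTM : STM) (hSPP : SPP) (hSSL : SSL) (_hSLC : SLC) (_hSREC : SREC)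
    (hSCJ : SCJ) (_hLCI : LCI) (_hSPLT : SPLT) (hLCL : LCL) : HYPU := by
  intro h n m k π p e r f w0 c E q ρ y hN hh hE hq hq1 hcl hqn hρ hdet hy hsy z t hz hzt htm hun
    h9
  obtain ⟨hcw, hci⟩ := hcl
  have h' := ext hN hE ρ hq hq1 hqn hρ
  have hn0 := HYPS.n_ne0 hN
  have hn1 := n_ne hN
  have h3n := three_n hN
  have hq0 : (q : Eis) ≠ 0 := by
    rw [hρ]
    exact mul_ne_zero ρ.2.1.ne_zero (prime_conj ρ.2.1).ne_zero
  have hE0 : E ≠ 0 := by omega
  have hEz : (E : ZMod 3) ≠ 0 := by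
    rcases hE with h1 | h1 <;> rw [h1] <;> decide
  obtain ⟨hBne, hBv, hBw⟩ := l_BB hLCL (h := h) (E := E) h3n hq (Or.inl hq1) hn1
  rw [hcw] at hBw
  have hB0 := cast_ne hBne
  have h30 : (3 : Eis) ≠ 0 := by
    have := cast_ne (x := 3) (by norm_num)
    exact_mod_cast this
  have h40 : (4 : Eis) ≠ 0 := by
    have := cast_ne (x := 4) (by norm_num)
    exact_mod_cast this
  have hσ3 : ∀ σ : PP, ¬ σ.1 ∣ 3 := fun σ => (hSPP.2.2.2.1 σ).1
  have hBe : ((BB h n E q : ℤ) : Eis) = (3 : Eis) ^ h * ((n * q ^ E : ℕ) : Eis) := by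
    unfold BB
    push_cast
    ring
  have hn'0 := HYPS.n_ne0 h'
  have hVB : ∀ σ : PP, V σ.1 ((BB h n E q : ℤ) : Eis) = V σ.1 ((n * q ^ E : ℕ) : Eis) := by
    intro σ
    rw [hBe, V_mul σ.2.1 (pow_ne_zero _ h30) hn'0, V_pow σ.2.1 h30, V_eq_zero (hσ3 σ)]
    omega
  have hdB : ∀ σ : PP, ¬ σ.1 ∣ ((n * q ^ E : ℕ) : Eis) → ¬ σ.1 ∣ ((BB h n E q : ℤ) : Eis) := by
    intro σ h1 h2
    rw [hBe] at h2
    rcases σ.2.1.dvd_or_dvd h2 with h2 | h2
    · exact hσ3 σ (σ.2.1.dvd_of_dvd_pow h2)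
    · exact h1 h2
  have hun1 : ∀ σ : PP, ¬ σ.1 ∣ ((n * q ^ E : ℕ) : Eis) → 3 ∣ V σ.1 z := fun σ h1 =>
    hun σ (hdB σ h1)
  have hun2 : ∀ σ : PP, ¬ σ.1 ∣ ((((n * q ^ E : ℕ) : ℤ) * (2 : ℕ) : ℤ) : Eis) →
      3 ∣ V σ.1 z := by
    intro σ hσ
    refine hun1 σ fun h1 => hσ ?_
    rw [Int.cast_mul, Int.cast_natCast]
    exact Dvd.dvd.mul_right h1 _
  obtain ⟨a, hF, hcube⟩ := decomp hSPP h' Nat.prime_two rfl hz hzt hun2
  -- the product formula
  have key : ∀ x : ℤ, x ≠ 0 → (∀ σ : PP, σ.1 ∣ (x : Eis) → σ.1 ∣ (n : Eis)) →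
      sl z (x : Eis) + ((E : ZMod 3) * (V ρ.1 z : ZMod 3) *
        tm ρ.1 (x : Eis) ((BB h n E q : ℤ) : Eis) +
        ∑ i, (e i : ZMod 3) * (V (π i).1 z : ZMod 3) *
          tm (π i).1 (x : Eis) ((BB h n E q : ℤ) : Eis)) = 0 := by
    intro x hx hxn
    have h6 := finsum_tm hSPP hSCJ h' hB0 hVB hz hzt htm hun1 x hx fun σ hσ => by
      push_cast
      exact Dvd.dvd.mul_right (hxn σ hσ) _
    rw [Fin.sum_univ_succ] at h6
    simp only [Fin.cons_zero, Fin.cons_succ] at h6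
    rw [← h6]
    unfold sl
    rw [neg_add_cancel]
  -- the symbols of `z` and the rational numbers
  have hlin := fun x hx => sl_lin hSSL hLCL hz x hx
  have hslB : sl z ((BB h n E q : ℤ) : Eis) = 0 := by
    unfold sl
    rw [finsum_eq_zero_of_forall_eq_zero fun σ => htm σ, neg_zero]
  have h3' : ((3 : ℤ) : Eis) = 3 := by push_cast; rfl
  have h4' : ((4 : ℤ) : Eis) = 4 := by push_cast; rfl
  obtain ⟨μ, hμ, hμ1⟩ : ∃ μ : ZMod 3, (∀ x : ℤ, x ≠ 0 → sl z (x : Eis) =
      μ * (lw x + lv x * (wt ((n : ℤ) ^ 2) + w0))) ∧ (h = 1 → μ = 0) := by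
    rcases hh with hh | hh
    · have h1 : ¬ (9 : ℤ) ∣ BB h n E q := by
        intro h2
        rw [hh] at h2
        unfold BB at h2
        have h5 : (3 : ℤ) * 3 ∣ 3 * (n * (q : ℤ) ^ E) := by
          have h6 : (3 : ℤ) * 3 = 9 := by norm_num
          have h7 : (3 : ℤ) * (n * (q : ℤ) ^ E) = 3 ^ 1 * n * (q : ℤ) ^ E := by ring
          rw [h6, h7]
          exact h2
        have h6 : (3 : ℤ) ∣ n * (q : ℤ) ^ E := (mul_dvd_mul_iff_left (by norm_num)).1 h5
        have h7 : 3 ∣ n * q ^ E := by exact_mod_cast h6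
        exact three_n h' h7
      obtain ⟨h2, h5⟩ := h9 h1
      refine ⟨0, fun x hx => ?_, fun _ => rfl⟩
      rw [hlin x hx, h2, h5]
      ring
    · refine ⟨-sl z 4, fun x hx => ?_, fun h1 => by omega⟩
      have h1 := hlin _ hBne
      rw [hslB, hBv, hBw, hh] at h1
      rw [hlin x hx]
      have h2 := three_zero (lv x * sl z 3)
      push_cast at h1
      linear_combination (lv x) * h1 + h2
  -- valuations and characters of `B`
  have hi : ∀ i, Prime (π i).1 := fun i => (π i).2.1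
  have h3 : ∀ i, ¬ (π i).1 ∣ 3 := fun i => hσ3 (π i)
  have hqi : ∀ i, ¬ (π i).1 ∣ (q : Eis) := fun i h5 => by
    rw [hρ] at h5
    have h6 := not_assoc h' i.succ 0
    have h7 := mt (assoc_iff h' i.succ 0) (Fin.succ_ne_zero i)
    simp only [Fin.cons_zero, Fin.cons_succ] at h6 h7
    rcases (hi i).dvd_or_dvd h5 with h5 | h5
    · exact h7 ((hi i).associated_of_dvd ρ.2.1 h5)
    · exact h6 ((hi i).associated_of_dvd (prime_conj ρ.2.1) h5)
  have hVBi : ∀ i, V (π i).1 ((BB h n E q : ℤ) : Eis) = e i := fun i => by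
    rw [hVB (π i)]
    have h1 := V_n_i hSPP h' i.succ
    simpa only [Fin.cons_succ] using h1
  have hcB : ∀ i, ch (π i).1 ((BB h n E q : ℤ) : Eis) =
      ch (π i).1 ((3 ^ h * n : ℕ) : Eis) + c i := fun i => by
    have h1 : ((BB h n E q : ℤ) : Eis) = ((3 ^ h * n : ℕ) : Eis) * (q : Eis) ^ E := by
      unfold BB
      push_cast
      ring
    have h2 : ((3 ^ h * n : ℕ) : Eis) ≠ 0 := by
      push_cast
      exact mul_ne_zero (pow_ne_zero _ h30) hn0
    rw [h1, ch_mul (hi i) (h3 i) h2 (pow_ne_zero _ hq0),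
      (add3_ch (hi i) (h3 i)).pow hq0 E, ch_of_not_dvd (hi i) (hqi i), hci i]
  have hρn : ¬ ρ.1 ∣ (n : Eis) := by
    intro h1
    rcases HYPS.cls hSPP hN ρ.2.1 h1 with ⟨i, h2 | h2⟩ | ⟨j, h2⟩
    · have h7 := mt (assoc_iff h' 0 i.succ) (Fin.succ_ne_zero i).symm
      simp only [Fin.cons_zero, Fin.cons_succ] at h7
      exact h7 h2
    · have h6 := not_assoc h' 0 i.succ
      simp only [Fin.cons_zero, Fin.cons_succ] at h6
      exact h6 h2
    · have h6 := not_assoc_nat h' 0 (r j)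
      simp only [Fin.cons_zero] at h6
      exact h6 h2
  have hVρB : V ρ.1 ((BB h n E q : ℤ) : Eis) = E := by
    rw [hVB ρ]
    have h1 := V_n_i hSPP h' 0
    simpa only [Fin.cons_zero] using h1
  have htmρ : ∀ x : ℤ, ¬ ρ.1 ∣ (x : Eis) →
      tm ρ.1 (x : Eis) ((BB h n E q : ℤ) : Eis) = (E : ZMod 3) * sym ρ.1 (x : Eis) := by
    intro x hx
    unfold tm
    rw [hVρB, V_eq_zero hx, ch_of_not_dvd ρ.2.1 hx]
    simp
  have hF3 : Fact (Nat.Prime 3) := ⟨Nat.prime_three⟩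
  -- the prime above `q`
  have hy2 : ∀ σ : PP, σ.1 ∣ (y : Eis) → σ.1 ∣ (n : Eis) := by
    intro σ h1
    have h2 := HYPS.supp hSPP (n := 3 * n) hy.supp σ h1
    push_cast at h2
    rcases σ.2.1.dvd_or_dvd h2 with h2 | h2
    · exact absurd h2 (hσ3 σ)
    · exact h2
  have hsly : sl z (y : Eis) = 0 := by
    rw [hμ y hy.ne]
    rcases hh with hh | hh
    · rw [hμ1 hh, zero_mul]
    · rw [hy.wild hh, mul_zero]
  have hV0 : (V ρ.1 z : ZMod 3) = 0 := by
    have h1 := key y hy.ne hy2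
    have h2 : ∀ i, (e i : ZMod 3) * (V (π i).1 z : ZMod 3) *
        tm (π i).1 (y : Eis) ((BB h n E q : ℤ) : Eis) = 0 := by
      intro i
      have h4 := hy.sym i
      rw [V_n_i hSPP hN, ← hcB i] at h4
      unfold tm
      rw [hVBi i, h4, mul_zero]
    rw [Finset.sum_congr rfl fun i _ => h2 i, Finset.sum_const_zero, add_zero, hsly, zero_add,
      htmρ y fun h4 => hρn (hy2 ρ h4)] at h1
    have h5 := (mul_eq_zero.1 h1).resolve_right (mul_ne_zero hEz hsy)
    exact (mul_eq_zero.1 h5).resolve_left hEz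
  -- the other primes
  have hmain : μ = 0 ∧ ∀ i, (V (π i).1 z : ZMod 3) = 0 := by
    have hpn : ∀ i, (p i : Eis) ∣ (n : Eis) := fun i => by
      have h1 : p i ∣ n := by
        rw [hN.eq]
        refine Dvd.dvd.mul_right ?_ _
        have h1 : p i ^ e i ∣ ∏ i, p i ^ e i := Finset.dvd_prod_of_mem _ (Finset.mem_univ i)
        refine (dvd_pow_self _ ?_).trans h1
        have := hN.pe i
        omega
      obtain ⟨d, hd⟩ := h1
      exact ⟨(d : Eis), by rw [hd]; push_cast; rfl⟩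
    have hvec : Matrix.vecMul
        (Fin.cons μ fun i => (e i : ZMod 3) * (V (π i).1 z : ZMod 3) : Fin (m + 1) → ZMod 3)
        (Mt h n π p e w0 c) = 0 := by
      funext b
      refine Fin.cases ?_ (fun i' => ?_) b
      · have h1 : Matrix.vecMul
            (Fin.cons μ fun i => (e i : ZMod 3) * (V (π i).1 z : ZMod 3) : Fin (m + 1) → ZMod 3)
            (Mt h n π p e w0 c) 0 = μ * (if h = 2 then wt ((n : ℤ) ^ 2) + w0 else 1) +
              ∑ i, (e i : ZMod 3) * (V (π i).1 z : ZMod 3) *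
              ((e i : ZMod 3) * sym (π i).1 3) := by
          simp [Matrix.vecMul, dotProduct, Mt, Fin.sum_univ_succ]
        rw [h1, Pi.zero_apply]
        have h2 := key 3 (by norm_num) (fun σ hσ => by
          rw [h3'] at hσ
          exact absurd hσ (hσ3 σ))
        rw [hV0, mul_zero, zero_mul, zero_add, hμ 3 (by norm_num), hLCL.2.2.1.1,
          hLCL.2.2.1.2, h3'] at h2
        rw [← h2]
        congr 1
        · split_ifs with h5
          · ring
          · have h6 : h = 1 := by omega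
            rw [hμ1 h6]
            ring
        · refine Finset.sum_congr rfl fun i _ => ?_
          congr 1
          unfold tm
          rw [hVBi i, V_eq_zero (h3 i), ch_of_not_dvd (hi i) (h3 i)]
          simp
      · have h1 : Matrix.vecMul
            (Fin.cons μ fun i => (e i : ZMod 3) * (V (π i).1 z : ZMod 3) : Fin (m + 1) → ZMod 3)
            (Mt h n π p e w0 c) i'.succ =
              μ * (if h = 2 then wt ((p i' : ℤ) ^ 2) else 0) +
              ∑ i, (e i : ZMod 3) * (V (π i).1 z : ZMod 3) *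
              (if i' = i then
                (e i : ZMod 3) * sym (π i).1 (conj (π i).1) -
                  ch (π i).1 ((3 ^ h * n : ℕ) : Eis) - c i
              else (e i : ZMod 3) * sym (π i).1 (p i' : Eis)) := by
          simp [Matrix.vecMul, dotProduct, Mt, Fin.sum_univ_succ]
        rw [h1, Pi.zero_apply]
        have hp3 : ¬ (3 : ℤ) ∣ (p i' : ℤ) := by
          intro h4
          have h5 : 3 ∣ p i' := by exact_mod_cast h4
          have := hN.p1 i'
          omega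
        have hp0 : (p i' : ℤ) ≠ 0 := by exact_mod_cast (hN.pp i').ne_zero
        have h2 := key (p i') hp0 (fun σ hσ => by
          rw [Int.cast_natCast] at hσ
          exact hσ.trans (hpn i'))
        rw [hV0, mul_zero, zero_mul, zero_add, hμ _ hp0, (hLCL.2.2.2.1 _ hp3).1,
          (hLCL.2.2.2.1 _ hp3).2] at h2
        rw [← h2]
        congr 1
        · split_ifs with h5
          · ring
          · have h6 : h = 1 := by omega
            rw [hμ1 h6]
            ring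
        refine Finset.sum_congr rfl fun i _ => ?_
        congr 1
        rw [Int.cast_natCast]
        unfold tm
        rw [hVBi i, hcB i]
        split_ifs with hii
        · subst hii
          have hcj : ¬ (π i').1 ∣ conj (π i').1 := fun h5 =>
            not_assoc hN i' i' ((hi i').associated_of_dvd (prime_conj (π i').2.1) h5)
          rw [hN.pπ i', V_mul (hi i') (hi i').ne_zero (prime_conj (π i').2.1).ne_zero, V_self,
            V_eq_zero hcj, ch_mul (hi i') (h3 i') (hi i').ne_zero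
              (prime_conj (π i').2.1).ne_zero, ch_self (hi i') (h3 i'),
            ch_of_not_dvd (hi i') hcj]
          push_cast
          ring
        · have hnd : ¬ (π i).1 ∣ (p i' : Eis) := by
            rw [hN.pπ i']
            intro h5
            rcases (hi i).dvd_or_dvd h5 with h5 | h5
            · exact hii (assoc_iff hN i i' ((hi i).associated_of_dvd (π i').2.1 h5)).symm
            · exact not_assoc hN i i' ((hi i).associated_of_dvd (prime_conj (π i').2.1) h5)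
          rw [V_eq_zero hnd, ch_of_not_dvd (hi i) hnd]
          push_cast
          ring
    have hx := Matrix.eq_zero_of_vecMul_eq_zero hdet hvec
    refine ⟨by simpa using congrFun hx 0, fun i => ?_⟩
    have h1 := congrFun hx i.succ
    simp only [Fin.cons_succ, Pi.zero_apply] at h1
    refine (mul_eq_zero.1 h1).resolve_left fun h2 => ?_
    have h4 := HYPS.e_sq hN i
    rw [h2, mul_zero] at h4
    exact zero_ne_one h4
  obtain ⟨hμ0, hVi⟩ := hmain
  have hVall : ∀ i : Fin (m + 1), (V ((Fin.cons ρ π : Fin (m + 1) → PP) i).1 z : ZMod 3) = 0 := by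
    intro i
    refine Fin.cases ?_ (fun i => ?_) i
    · exact hV0
    · exact hVi i
  -- the unit
  have ha : (a : ZMod 3) = 0 := by
    have h1 := hF _ (add3_sl hSSL h40)
    have h2 : sl z 4 = 0 := by
      have h5 := hμ 4 (by norm_num)
      rw [hμ0, zero_mul, h4'] at h5
      exact h5
    have h5 : sl w 4 = 1 := by
      have h6 := hLCL.2.2.2.2.1 4 (by norm_num)
      rw [(l_four hLCL).2, neg_neg, h4'] at h6
      exact h6
    rw [h2, h5, Finset.sum_congr rfl fun i _ => by rw [hVall i, zero_mul], Finset.sum_const_zero,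
      add_zero, mul_one] at h1
    exact h1.symm
  exact hcube ha hVall

end Pool.Agent.PT3
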