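import Pool.Agent.PT3.Stmts
import Pool.Agent.PT.LEV

/-!
# Prime twists of rank zero, `n` divisible by `3`: the local term of a point at `lam` when `b` is a
local cube
-/

namespace Pool.Agent.PT3

open Pool.Agent.Lib_helper18 Pool.Agent.Lib_helper18.Eis Pool.Agent.Lib_helper84.Cub
open Pool.Agent.PT Pool.Agent.PTE

namespace IIA

/-- close integers have the same symbols -/
theorem close (hL : LSym lam sl 4) {a a0 : ℤ} {N : ℕ} (h0 : a0 ≠ 0)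
    (hN : V lam (a0 : Eis) + 4 ≤ N) (h : lam ^ N ∣ (a : Eis) - (a0 : Eis)) :
    a ≠ 0 ∧ ∀ y : Eis, y ≠ 0 → sl (a : Eis) y = sl (a0 : Eis) y := by
  refine ⟨?_, fun y hy => hL.cont _ _ y (LEV.cast_ne h0) hy ((pow_dvd_pow lam hN).trans h)⟩
  rintro rfl
  have h1 : lam ^ N ∣ (a0 : Eis) := by
    have := (dvd_neg (a := lam ^ N)).2 h
    simpa using this
  have h2 := (fin prime_lam (LEV.cast_ne h0)).le_multiplicity_of_pow_dvd h1
  unfold V at hN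
  omega

theorem cube_close (hL : LSym lam sl 4) {a h0 m : ℤ} {N : ℕ} (hh : h0 ≠ 0) (hm : m ≠ 0)
    (hN : V lam ((h0 ^ 3 * m : ℤ) : Eis) + 4 ≤ N)
    (h : lam ^ N ∣ (a : Eis) - ((h0 ^ 3 * m : ℤ) : Eis)) :
    a ≠ 0 ∧ ∀ y : Eis, y ≠ 0 → sl (a : Eis) y = sl (m : Eis) y := by
  obtain ⟨h1, h2⟩ := close hL (mul_ne_zero (pow_ne_zero 3 hh) hm) hN h
  refine ⟨h1, fun y hy => ?_⟩
  rw [h2 y hy]
  push_cast
  rw [hL.mul _ _ _ (pow_ne_zero 3 (LEV.cast_ne hh)) (LEV.cast_ne hm) hy,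
    LEV.cube_left hL (LEV.cast_ne hh) hy, zero_add]

theorem wlin {u v : ℤ} (h : u ≠ 0 ∨ v ≠ 0) (i : ℕ) (hi : i = 1 ∨ i = 2) :
    (u : Eis) + w ^ i * (v : Eis) ≠ 0 := by
  intro h0
  rcases hi with rfl | rfl
  · have h1 := congrArg Eis.re h0
    have h2 := congrArg Eis.im h0
    simp at h1 h2
    rcases h with h | h
    · exact h (by omega)
    · exact h (by omega)
  · have h1 := congrArg Eis.re h0
    have h2 := congrArg Eis.im h0
    rw [pow_two] at h1 h2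
    simp at h1 h2
    rcases h with h | h
    · exact h (by omega)
    · exact h (by omega)

end IIA

theorem IIA_thm (hSLC : SLC) (hSSL : SSL) (hSCJ : SCJ) (hIIAG : IIAG) : IIA := by
  intro b x p q p' q' X Y hb hx hLC hS hX hY hn
  have hL : LSym lam sl 4 := hSLC
  obtain ⟨⟨heq, hn1⟩, hn2⟩ := hS
  have hS' : Sol b x p q p' q' := ⟨⟨heq, hn1⟩, hn2⟩
  have hH0 : p' ^ 3 + b * q' ^ 3 ≠ 0 := by
    intro h0
    apply hn1
    rw [heq, h0, mul_zero]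
  have hn3 : x * q' ^ 3 - q ^ 3 ≠ 0 := by
    have := LEV.nn hS'
    intro h0
    apply this
    linear_combination h0
  obtain ⟨H0, hH0d⟩ : ∃ H0, H0 = p' ^ 3 + b * q' ^ 3 := ⟨_, rfl⟩
  rw [← hH0d] at hH0
  set N0 := V lam ((H0 ^ 3 * (X ^ 3 + x * Y ^ 3) : ℤ) : Eis) +
    V lam ((H0 ^ 3 * (p ^ 3 - x * p' ^ 3) : ℤ) : Eis) +
    V lam ((H0 ^ 3 * (x * q' ^ 3 - q ^ 3) : ℤ) : Eis) +
    V lam ((p ^ 3 + b * q ^ 3 : ℤ) : Eis) + V lam ((p' ^ 3 + b * q' ^ 3 : ℤ) : Eis) +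
    V lam (b : Eis) + 5 with hN0
  refine ⟨N0, fun r hr => ?_⟩
  obtain ⟨δ, hδ⟩ : ∃ δ : ℤ, δ = r ^ 3 - b := ⟨_, rfl⟩
  have hδd : lam ^ N0 ∣ (δ : Eis) := by
    rw [hδ]
    push_cast
    exact hr
  have cls : ∀ {a a0 c : ℤ}, a = a0 + δ * c → lam ^ N0 ∣ (a : Eis) - (a0 : Eis) := by
    intro a a0 c h
    have : (a : Eis) - (a0 : Eis) = (δ : Eis) * c := by
      rw [h]
      push_cast
      ring
    rw [this]
    exact Dvd.dvd.mul_right hδd _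
  -- nonvanishing
  have hr0 : r ≠ 0 := by
    have h1 := IIA.close hL (a := r ^ 3) (a0 := b) (N := N0) hb (by omega)
      (cls (c := 1) (by rw [hδ]; ring))
    intro h0
    apply h1.1
    rw [h0]
    ring
  obtain ⟨F, hF⟩ : ∃ F, F = p ^ 3 + r ^ 3 * q ^ 3 := ⟨_, rfl⟩
  obtain ⟨H, hH⟩ : ∃ H, H = p' ^ 3 + r ^ 3 * q' ^ 3 := ⟨_, rfl⟩
  have hFne : F ≠ 0 := (IIA.close hL (a := F) (a0 := p ^ 3 + b * q ^ 3) (N := N0) hn1 (by omega)
    (cls (c := q ^ 3) (by rw [hδ, hF]; ring))).1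
  have hHne : H ≠ 0 := (IIA.close hL (a := H) (a0 := p' ^ 3 + b * q' ^ 3) (N := N0)
    (by rw [← hH0d]; exact hH0) (by omega) (cls (c := q' ^ 3) (by rw [hδ, hH]; ring))).1
  have hHe : H = H0 + δ * q' ^ 3 := by rw [hH, hδ, hH0d]; ring
  have hFe : F = x * H0 + δ * q ^ 3 := by
    rw [hF, hδ, hH0d]
    linear_combination heq
  -- close numbers
  obtain ⟨k1, k1'⟩ := IIA.cube_close hL (a := (X * H) ^ 3 + F * H ^ 2 * Y ^ 3) (h0 := H0)
    (m := X ^ 3 + x * Y ^ 3) (N := N0) hH0 hn (by omega)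
    (cls (c := X ^ 3 * (3 * H0 ^ 2 * q' ^ 3 + 3 * H0 * δ * q' ^ 6 + δ ^ 2 * q' ^ 9) +
      Y ^ 3 * (x * H0 * (2 * H0 * q' ^ 3 + δ * q' ^ 6) +
        q ^ 3 * (H0 + δ * q' ^ 3) ^ 2)) (by rw [hHe, hFe]; ring))
  obtain ⟨k2, k2'⟩ := IIA.cube_close hL (a := (p * H) ^ 3 - F * H ^ 2 * p' ^ 3) (h0 := H0)
    (m := p ^ 3 - x * p' ^ 3) (N := N0) hH0 hn2 (by omega)
    (cls (c := p ^ 3 * (3 * H0 ^ 2 * q' ^ 3 + 3 * H0 * δ * q' ^ 6 + δ ^ 2 * q' ^ 9) -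
      p' ^ 3 * (x * H0 * (2 * H0 * q' ^ 3 + δ * q' ^ 6) +
        q ^ 3 * (H0 + δ * q' ^ 3) ^ 2)) (by rw [hHe, hFe]; ring))
  obtain ⟨k3, k3'⟩ := IIA.cube_close hL (a := F * H ^ 2 * q' ^ 3 - (q * H) ^ 3) (h0 := H0)
    (m := x * q' ^ 3 - q ^ 3) (N := N0) hH0 hn3 (by omega)
    (cls (c := q' ^ 3 * (x * H0 * (2 * H0 * q' ^ 3 + δ * q' ^ 6) +
        q ^ 3 * (H0 + δ * q' ^ 3) ^ 2) -
      q ^ 3 * (3 * H0 ^ 2 * q' ^ 3 + 3 * H0 * δ * q' ^ 6 + δ ^ 2 * q' ^ 9))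
      (by rw [hHe, hFe]; ring))
  -- the global identity
  have hSt : Sol (r ^ 3) (F * H ^ 2) (p * H) (q * H) p' q' := by
    refine ⟨⟨?_, ?_⟩, k2⟩
    · rw [← hH]
      linear_combination (-(H ^ 3)) * hF
    · have : (p * H) ^ 3 + r ^ 3 * (q * H) ^ 3 = F * H ^ 3 := by rw [hF]; ring
      rw [this]
      exact mul_ne_zero hFne (pow_ne_zero 3 hHne)
  have key := hIIAG r (F * H ^ 2) (p * H) (q * H) p' q' (X * H) Y hr0
    (mul_ne_zero hFne (pow_ne_zero 2 hHne)) hSt (mul_ne_zero hX hHne) hY k1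
  -- the forms
  have hHc : (H : Eis) ≠ 0 := LEV.cast_ne hHne
  have hpp : p' ≠ 0 ∨ p ≠ 0 := by
    by_contra h0
    push Not at h0
    apply hn2
    rw [h0.1, h0.2]
    ring
  have hqq : q' ≠ 0 ∨ q ≠ 0 := by
    by_contra h0
    push Not at h0
    apply hn3
    rw [h0.1, h0.2]
    ring
  have hD : ∀ i : ℕ, i = 1 ∨ i = 2 → Df X Y p' p i ≠ 0 := by
    intro i hi
    have := IIA.wlin (u := X * p') (v := p * Y) (by
      rcases hpp with h | h
      · exact Or.inl (mul_ne_zero hX h)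
      · exact Or.inr (mul_ne_zero h hY)) i hi
    unfold Df
    intro h0
    apply this
    push_cast
    linear_combination h0
  have hD' : ∀ i : ℕ, i = 1 ∨ i = 2 → Df X Y q' q i ≠ 0 := by
    intro i hi
    have := IIA.wlin (u := X * q') (v := q * Y) (by
      rcases hqq with h | h
      · exact Or.inl (mul_ne_zero hX h)
      · exact Or.inr (mul_ne_zero h hY)) i hi
    unfold Df
    intro h0
    apply this
    push_cast
    linear_combination h0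
  have hG : ∀ i : ℕ, i = 1 ∨ i = 2 → Gf p q p' q' i ≠ 0 := by
    intro i hi
    have := IIA.wlin (u := q * p') (v := -(p * q')) (by
      by_contra h0
      push Not at h0
      obtain ⟨h1, h2⟩ := h0
      rw [neg_eq_zero] at h2
      rcases mul_eq_zero.1 h1 with h3 | h3 <;> rcases mul_eq_zero.1 h2 with h4 | h4
      · apply hn1
        rw [h3, h4]
        ring
      · apply hn3
        rw [h3, h4]
        ring
      · apply hn2
        rw [h3, h4]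
        ring
      · apply hn1
        rw [heq, h3, h4]
        ring) i hi
    unfold Gf
    intro h0
    apply this
    push_cast
    linear_combination h0
  have hLf : ∀ i, Lf p q i r ≠ 0 :=
    LEV.lf_ne prime_lam (N := N0) hn1 (by omega) hr
  have hLf' : ∀ i, Lf p' q' i r ≠ 0 :=
    LEV.lf_ne prime_lam (N := N0) (b := b) (by rw [← hH0d]; exact hH0) (by omega) hr
  have eD : ∀ i, Df (X * H) Y p' (p * H) i = (H : Eis) * Df X Y p' p i := by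
    intro i
    unfold Df
    push_cast
    ring
  have eD' : ∀ i, Df (X * H) Y q' (q * H) i = (H : Eis) * Df X Y q' q i := by
    intro i
    unfold Df
    push_cast
    ring
  have eG : ∀ i, Gf (p * H) (q * H) p' q' i = (H : Eis) * Gf p q p' q' i := by
    intro i
    unfold Gf
    push_cast
    ring
  have eL : ∀ i, Lf (p * H) (q * H) i r = (H : Eis) * Lf p q i r := by
    intro i
    unfold Lf
    push_cast
    ring
  -- symbols
  have skl : ∀ {m : ℤ} {a : ℤ}, a ≠ 0 → m ≠ 0 → (∀ y : Eis, y ≠ 0 → sl (a : Eis) y = sl (m : Eis) y) →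
      ∀ y : Eis, y ≠ 0 → sl y (a : Eis) = sl y (m : Eis) := by
    intro m a ha hm h y hy
    rw [hL.skew _ _ (LEV.cast_ne ha) hy, hL.skew _ _ (LEV.cast_ne hm) hy, h y hy]
  have j1 := skl k1 hn k1'
  have j2 := skl k2 hn2 k2'
  have j3 := skl k3 hn3 k3'
  have c1 : ∀ {m : ℤ} (hm : m ≠ 0) {u v : Eis} (hu : u ≠ 0) (hv : v ≠ 0),
      sl ((H : Eis) * u) (m : Eis) - sl ((H : Eis) * v) (m : Eis) =
        sl u (m : Eis) - sl v (m : Eis) := by
    intro m hm u v hu hv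
    rw [hL.mul _ _ _ hHc hu (LEV.cast_ne hm), hL.mul _ _ _ hHc hv (LEV.cast_ne hm)]
    ring
  have c2 : ∀ {m : ℤ} (hm : m ≠ 0) {u v : Eis} (hu : u ≠ 0) (hv : v ≠ 0),
      sl (m : Eis) ((H : Eis) * u) - sl (m : Eis) ((H : Eis) * v) =
        sl (m : Eis) u - sl (m : Eis) v := by
    intro m hm u v hu hv
    rw [LEV.mul_right hL hHc hu (LEV.cast_ne hm), LEV.mul_right hL hHc hv (LEV.cast_ne hm)]
    ring
  unfold SV AS at key
  unfold SV AS
  rw [eD, eD, eD', eD', eG, eG, eL, eL] at key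
  have f1 := hD 1 (Or.inl rfl)
  have f2 := hD 2 (Or.inr rfl)
  have f3 := hD' 1 (Or.inl rfl)
  have f4 := hD' 2 (Or.inr rfl)
  have f5 := hG 1 (Or.inl rfl)
  have f6 := hG 2 (Or.inr rfl)
  have g1 := c1 k2 f1 f2
  have g2 := c1 k1 f1 f2
  have g3 := c1 k3 f3 f4
  have g4 := c1 k1 f3 f4
  have g5 := c2 k1 f5 f6
  have g6 := c2 k1 (hLf 2) (hLf 1)
  rw [j2 _ f1, j2 _ f2] at g1
  rw [j1 _ f1, j1 _ f2] at g2
  rw [j3 _ f3, j3 _ f4] at g3
  rw [j1 _ f3, j1 _ f4] at g4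
  rw [k1' _ f5, k1' _ f6] at g5
  rw [k1' _ (hLf 2), k1' _ (hLf 1)] at g6
  have g7 := k1' _ (hLf' 1)
  have g8 := k1' _ (hLf' 2)
  have g9 := j1 _ LEV.w_ne
  linear_combination key - g1 + g2 + g3 - g4 + g5 + g9 - g6 - g7 + g8

end Pool.Agent.PT3
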