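import Pool.Agent.PT3.Stmts
import Pool.Agent.PT.LEV
import Pool.Agent.PT.LFIN

/-!
# Prime twists of rank zero, `n` divisible by `3`: the local term of a point when `b` is a cube
-/

set_option autoImplicit false

namespace Pool.Agent.PT3

open Pool.Agent.Lib_helper18 Pool.Agent.Lib_helper18.Eis Pool.Agent.Lib_helper84.Cub
open Pool.Agent.PT Pool.Agent.PTE

namespace IIAG

/-- the right side of the identity -/
noncomputable def RS (s : Eis → Eis → ZMod 3) (n : Eis) (p q p' q' r : ℤ) : ZMod 3 :=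
  s n (Gf p q p' q' 1) - s n (Gf p q p' q' 2) + s w n - AS s n p q p' q' r

/-- the linear forms do not vanish -/
theorem lf_ne' {π : Eis} (hπ : Prime π) {p q r : ℤ} (hn : p ^ 3 + r ^ 3 * q ^ 3 ≠ 0) (i : ℕ) :
    Lf p q i r ≠ 0 := by
  refine LEV.lf_ne hπ (b := r ^ 3) hn (Nat.lt_succ_self _) ?_ i
  push_cast
  rw [sub_self]
  exact dvd_zero _

theorem sol_n {b x p q p' q' : ℤ} (h : Sol b x p q p' q') : p' ^ 3 + b * q' ^ 3 ≠ 0 := by
  intro h0
  apply h.n1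
  rw [h.eq, h0, mul_zero]

section Sym

variable {π : Eis} {s : Eis → Eis → ZMod 3} {e : ℕ} {p q p' q' r x : ℤ}

theorem RS_congr (h : LSym π s e) (hS : Sol (r ^ 3) x p q p' q') {n m : Eis} (hn : n ≠ 0)
    (hm : m ≠ 0) (hnm : ∀ A : Eis, A ≠ 0 → s n A = s m A) :
    RS s n p q p' q' r = RS s m p q p' q' r := by
  have l1 := lf_ne' h.prime hS.n1
  have l2 := lf_ne' h.prime (sol_n hS)
  unfold RS AS
  rw [hnm _ (LFIN.Gf_ne hS 1 (Or.inl rfl)), hnm _ (LFIN.Gf_ne hS 2 (Or.inr rfl)),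
    h.skew n w hn LEV.w_ne, h.skew m w hm LEV.w_ne, hnm _ LEV.w_ne, hnm _ (l1 2), hnm _ (l2 1),
    hnm _ (l1 1), hnm _ (l2 2)]

theorem RS_zero (h : LSym π s e) (hS : Sol (r ^ 3) x p q p' q') {n : Eis} (hn : n ≠ 0)
    (h0 : ∀ A : Eis, A ≠ 0 → s n A = 0) : RS s n p q p' q' r = 0 := by
  have l1 := lf_ne' h.prime hS.n1
  have l2 := lf_ne' h.prime (sol_n hS)
  unfold RS AS
  rw [h0 _ (LFIN.Gf_ne hS 1 (Or.inl rfl)), h0 _ (LFIN.Gf_ne hS 2 (Or.inr rfl)),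
    h.skew n w hn LEV.w_ne, h0 _ LEV.w_ne, h0 _ (l1 2), h0 _ (l2 1), h0 _ (l1 1), h0 _ (l2 2)]
  ring

/-- IF2 -/
theorem RS_x (h : LSym π s e) (hIF2 : IF2) (hr : r ≠ 0) (hx : x ≠ 0)
    (hS : Sol (r ^ 3) x p q p' q') : RS s (x : Eis) p q p' q' r = 0 := by
  obtain ⟨N0, h1⟩ := hIF2 π s e h (r ^ 3) x p q p' q' (pow_ne_zero 3 hr) hx hS
  have h2 := h1 r (by push_cast; rw [sub_self]; exact dvd_zero _)
  unfold RS
  rw [h2, sub_self]

/-- a symbol of a cube on the right -/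
theorem cube_right (h : LSym π s e) {c y : Eis} (hc : c ≠ 0) (hy : y ≠ 0) : s y (c ^ 3) = 0 := by
  rw [h.skew (c ^ 3) y (pow_ne_zero 3 hc) hy, LEV.cube_left h hc hy, neg_zero]

/-- the case where `x` is a local cube -/
theorem case_cube (h : LSym π s e) (hIF1 : IF1) (hIF4 : IF4) (hr : r ≠ 0) (hx : x ≠ 0)
    (hS : Sol (r ^ 3) x p q p' q') {X Y : ℤ} (hX : X ≠ 0) (hY : Y ≠ 0)
    (hn : X ^ 3 + x * Y ^ 3 ≠ 0) (hL : LC π x) :
    SV s x p q p' q' X Y = RS s ((X ^ 3 + x * Y ^ 3 : ℤ) : Eis) p q p' q' r := by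
  have hr3 : r ^ 3 ≠ 0 := pow_ne_zero 3 hr
  obtain ⟨N1, h1⟩ := hIF4 π s e h (r ^ 3) x p q p' q' X Y hr3 hx hS hX hY hn
  obtain ⟨N2, h2⟩ := hIF1 π s e h (r ^ 3) x p q p' q' hr3 hx hS
  obtain ⟨ξ, hξ⟩ := hL (N1 + N2 + V π ((X ^ 3 + x * Y ^ 3 : ℤ) : Eis) + 1)
  have a1 := h1 ξ ((pow_dvd_pow _ (by omega)).trans hξ)
  have a2 := h2 r ξ (by push_cast; rw [sub_self]; exact dvd_zero _)
    ((pow_dvd_pow _ (by omega)).trans hξ) ((X ^ 3 + x * Y ^ 3 : ℤ) : Eis) (LEV.cast_ne hn)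
  have hF := LEV.lf_ne h.prime hn (N := N1 + N2 + V π ((X ^ 3 + x * Y ^ 3 : ℤ) : Eis) + 1)
    (by omega) hξ
  have c1 : ((r ^ 3 : ℤ) : Eis) = (r : Eis) ^ 3 := by push_cast; ring
  rw [c1, cube_right h (LEV.cast_ne hr) (hF 1), cube_right h (LEV.cast_ne hr) (hF 2)] at a1
  unfold RS
  rw [a1]
  linear_combination a2

end Sym

/-- the continuity of the symbol, in terms of valuations -/
theorem s_close {π : Eis} {s : Eis → Eis → ZMod 3} (h : LSym π s 1) {a c : Eis} (ha : a ≠ 0)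
    (hc : c ≠ 0) (hV : V π a < V π c) {A : Eis} (hA : A ≠ 0) : s (a + c) A = s a A := by
  refine h.cont a (a + c) A ha hA ?_
  rw [add_sub_cancel_left]
  exact (pow_dvd_pow _ hV).trans (pow_multiplicity_dvd _ _)

/-- the tame places -/
theorem tame (hSTM : STM) (hSPP : SPP) (hLCI : LCI) (hIF1 : IF1) (hIF2 : IF2) (hIF4 : IF4)
    (hF6R : F6R) (hF7U : F7U) (π : PP) {r x p q p' q' X Y : ℤ} (hr : r ≠ 0) (hx : x ≠ 0)
    (hS : Sol (r ^ 3) x p q p' q') (hX : X ≠ 0) (hY : Y ≠ 0) (hn : X ^ 3 + x * Y ^ 3 ≠ 0) :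
    SV (tm π.1) x p q p' q' X Y =
      RS (tm π.1) ((X ^ 3 + x * Y ^ 3 : ℤ) : Eis) p q p' q' r := by
  have h3 := (hSPP.2.2.2.1 π).1
  have h : LSym π.1 (tm π.1) 1 := hSTM π.1 π.2.1 h3
  have hπ := π.2.1
  have hr3 : r ^ 3 ≠ 0 := pow_ne_zero 3 hr
  have hXe := LEV.cast_ne hX
  have hYe := LEV.cast_ne hY
  have hxe := LEV.cast_ne hx
  have hne := LEV.cast_ne hn
  have hX3 : (X : Eis) ^ 3 ≠ 0 := pow_ne_zero 3 hXe
  have hY3 : (Y : Eis) ^ 3 ≠ 0 := pow_ne_zero 3 hYe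
  have hxY : (x : Eis) * (Y : Eis) ^ 3 ≠ 0 := mul_ne_zero hxe hY3
  have en : ((X ^ 3 + x * Y ^ 3 : ℤ) : Eis) = (X : Eis) ^ 3 + (x : Eis) * (Y : Eis) ^ 3 := by
    push_cast; ring
  have hsX : ∀ A : Eis, A ≠ 0 → tm π.1 ((X : Eis) ^ 3) A = 0 := fun A hA =>
    LEV.cube_left h hXe hA
  have hsx : ∀ A : Eis, A ≠ 0 → tm π.1 ((x : Eis) * (Y : Eis) ^ 3) A = tm π.1 (x : Eis) A :=
    fun A hA => by rw [h.mul _ _ _ hxe hY3 hA, LEV.cube_left h hYe hA, add_zero]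
  have vX : V π.1 ((X : Eis) ^ 3) = 3 * V π.1 (X : Eis) := V_pow hπ hXe 3
  have vx : V π.1 ((x : Eis) * (Y : Eis) ^ 3) = V π.1 (x : Eis) + 3 * V π.1 (Y : Eis) := by
    rw [V_mul hπ hxe hY3, V_pow hπ hYe]
  by_cases hVx : 3 ∣ V π.1 (x : Eis)
  · by_cases hcx : ch π.1 (x : Eis) = 0
    · exact case_cube h hIF1 hIF4 hr hx hS hX hY hn ((hLCI.1 π x hx).2 ⟨hVx, hcx⟩)
    · -- valuation divisible by three, not a cube
      rw [hF7U π (r ^ 3) x p q p' q' X Y hr3 hx hS hX hY hVx hcx]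
      have hVx0 : (V π.1 (x : Eis) : ZMod 3) = 0 := LEV.cast3.2 hVx
      have hVw : (V π.1 w : ZMod 3) = 0 := by
        rw [V_eq_zero (not_dvd_w hπ)]; rfl
      -- the valuation of `n0`
      have hVn : 3 ∣ V π.1 ((X ^ 3 + x * Y ^ 3 : ℤ) : Eis) := by
        rw [en]
        have hne' : (X : Eis) ^ 3 + (x : Eis) * (Y : Eis) ^ 3 ≠ 0 := by rw [← en]; exact hne
        rcases lt_trichotomy (V π.1 ((X : Eis) ^ 3)) (V π.1 ((x : Eis) * (Y : Eis) ^ 3)) with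
          hlt | heq | hlt
        · have e1 : V π.1 ((X : Eis) ^ 3 + (x : Eis) * (Y : Eis) ^ 3) = V π.1 ((X : Eis) ^ 3) := by
            rw [add_comm]
            exact (fin hπ hX3).multiplicity_add_of_gt hlt
          rw [e1, vX]
          exact dvd_mul_right _ _
        · by_cases hgt : V π.1 ((X : Eis) ^ 3) <
              V π.1 ((X : Eis) ^ 3 + (x : Eis) * (Y : Eis) ^ 3)
          · exfalso
            apply hcx
            have e1 : tm π.1 ((x : Eis) * (Y : Eis) ^ 3) π.1 = 0 := by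
              have e2 := s_close h (a := -((X : Eis) ^ 3))
                (c := (X : Eis) ^ 3 + (x : Eis) * (Y : Eis) ^ 3) (neg_ne_zero.2 hX3) hne'
                (by rw [V_neg]; exact hgt) hπ.ne_zero
              rw [neg_add_cancel_left, LEV.neg_left h hX3 hπ.ne_zero,
                hsX _ hπ.ne_zero] at e2
              exact e2
            rw [hsx _ hπ.ne_zero] at e1
            unfold tm at e1
            rw [V_self, hVx0] at e1
            simpa using e1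
          · have hle : V π.1 ((X : Eis) ^ 3) ≤
                V π.1 ((X : Eis) ^ 3 + (x : Eis) * (Y : Eis) ^ 3) := by
              apply (fin hπ hne').le_multiplicity_of_pow_dvd
              refine dvd_add (pow_multiplicity_dvd _ _) ?_
              change π.1 ^ (V π.1 ((X : Eis) ^ 3)) ∣ _
              rw [heq]
              exact pow_multiplicity_dvd _ _
            have e1 : V π.1 ((X : Eis) ^ 3 + (x : Eis) * (Y : Eis) ^ 3) =
                V π.1 ((X : Eis) ^ 3) := by omega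
            rw [e1, vX]
            exact dvd_mul_right _ _
        · have e1 : V π.1 ((X : Eis) ^ 3 + (x : Eis) * (Y : Eis) ^ 3) =
              V π.1 ((x : Eis) * (Y : Eis) ^ 3) :=
            (fin hπ hxY).multiplicity_add_of_gt hlt
          rw [e1, vx]
          exact (Nat.dvd_add_right hVx).2 (dvd_mul_right _ _)
      have hVn0 : (V π.1 ((X ^ 3 + x * Y ^ 3 : ℤ) : Eis) : ZMod 3) = 0 := LEV.cast3.2 hVn
      have h2 := RS_x h hIF2 hr hx hS
      unfold RS AS tm at h2 ⊢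
      rw [hVx0, hVw] at h2
      rw [hVn0, hVw]
      have e1 : ∀ c d t : ZMod 3, c ≠ 0 → c * t = 0 → d * t = 0 := by decide
      have e2 := e1 (ch π.1 (x : Eis)) (ch π.1 ((X ^ 3 + x * Y ^ 3 : ℤ) : Eis))
        ((V π.1 (Gf p q p' q' 1) : ZMod 3) - (V π.1 (Gf p q p' q' 2) : ZMod 3) -
          ((V π.1 (Lf p q 2 r) : ZMod 3) + (V π.1 (Lf p' q' 1 r) : ZMod 3) -
            (V π.1 (Lf p q 1 r) : ZMod 3) - (V π.1 (Lf p' q' 2 r) : ZMod 3))) hcx
        (by linear_combination h2)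
      linear_combination -e2
  · -- valuation not divisible by three
    have hSV : SV (tm π.1) x p q p' q' X Y = 0 := by
      have h6 := hF6R π (r ^ 3) x p q p' q' X Y hr3 hx hS hX hY hVx
      by_cases hVn : 3 ∣ V π.1 ((X ^ 3 + x * Y ^ 3 : ℤ) : Eis)
      · exact h6.1 hVn
      · have c1 : ((r ^ 3 : ℤ) : Eis) = (r : Eis) ^ 3 := by push_cast; ring
        rw [h6.2 hVn, c1, cube_right h (LEV.cast_ne hr) LEV.w_ne, neg_zero]
    rw [hSV]
    rcases lt_trichotomy (V π.1 ((X : Eis) ^ 3)) (V π.1 ((x : Eis) * (Y : Eis) ^ 3)) with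
      hlt | heq | hlt
    · refine (RS_zero h hS hne fun A hA => ?_).symm
      rw [en, s_close h hX3 hxY hlt hA, hsX A hA]
    · exfalso
      omega
    · rw [RS_congr h hS hne hxe, RS_x h hIF2 hr hx hS]
      intro A hA
      rw [en, add_comm, s_close h hxY hX3 hlt hA, hsx A hA]

end IIAG

open IIAG in
/-- IIAG: the local term of a point when `b` is the cube of an integer. -/
theorem IIAG_thm (hSTM : STM) (hSPP : SPP) (hSSL : SSL) (hLCI : LCI) (hLFIN : LFIN)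
    (hIF1 : IF1) (hIF2 : IF2) (hIF4 : IF4) (hF6R : F6R) (hF7U : F7U) : IIAG := by
  intro r x p q p' q' X Y hr hx hS hX hY hn
  have hr3 : r ^ 3 ≠ 0 := pow_ne_zero 3 hr
  have hne := LEV.cast_ne hn
  obtain ⟨π0, -⟩ := hSPP.2.2.2.2.1 2 Nat.prime_two (by norm_num)
  have l1 := lf_ne' π0.2.1 hS.n1
  have l2 := lf_ne' π0.2.1 (sol_n hS)
  have key : ∀ a b : Eis, a ≠ 0 → b ≠ 0 → LFIN.FZ (fun v : Pl => sy v a b) :=
    fun a b ha hb => hSSL.2.2.2 a b ha hb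
  have hSV : LFIN.FZ (fun v : Pl => SV (sy v) x p q p' q' X Y) :=
    hLFIN.2.2 (r ^ 3) x p q p' q' X Y hr3 hx hS hX hY hn
  have hG1 := LFIN.Gf_ne hS 1 (Or.inl rfl)
  have hG2 := LFIN.Gf_ne hS 2 (Or.inr rfl)
  have hRS : LFIN.FZ (fun v : Pl =>
      RS (sy v) ((X ^ 3 + x * Y ^ 3 : ℤ) : Eis) p q p' q' r) := by
    unfold RS AS
    exact (((key _ _ hne hG1).sub (key _ _ hne hG2)).add (key _ _ LEV.w_ne hne)).sub
      ((((key _ _ hne (l1 2)).add (key _ _ hne (l2 1))).sub (key _ _ hne (l1 1))).sub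
        (key _ _ hne (l2 2)))
  have hD := (hSV.sub hRS).2
  have h0 : ∀ v : Pl, v ≠ none → SV (sy v) x p q p' q' X Y -
      RS (sy v) ((X ^ 3 + x * Y ^ 3 : ℤ) : Eis) p q p' q' r = 0 := by
    intro v hv
    cases v with
    | none => exact absurd rfl hv
    | some π =>
      exact sub_eq_zero.2 (tame hSTM hSPP hLCI hIF1 hIF2 hIF4 hF6R hF7U π hr hx hS hX hY hn)
  rw [finsum_eq_single _ none h0] at hD
  exact sub_eq_zero.1 hD

end Pool.Agent.PT3
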