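import Pool.Agent.PT3.Stmts
import Pool.Agent.PT.LAM

/-!
# PT3_LAMG: the local form of the antisymmetry at the tame places
-/

namespace Pool.Agent.PT3

open Pool.Agent.Lib_helper18 Pool.Agent.Lib_helper18.Eis Pool.Agent.Lib_helper84.Cub
open Pool.Agent.PT Pool.Agent.PTE

namespace LAMG

open Pool.Agent.PT.LAM in
/-- `(B, b) = 0` at the tame places -/
theorem sy_zero {B b : ℤ} (h : AG B b) (π : PP) : sy (some π) (B : Eis) (b : Eis) = 0 := by
  show tm π.1 (B : Eis) (b : Eis) = 0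
  rw [tm_swap π.1 (b : Eis) (B : Eis), h.sym π, neg_zero]

open Pool.Agent.PT.LAM in
/-- the case that `b` is a local cube and `x` is not -/
theorem half (hSTM : STM) (hSPP : SPP) (hSLC : SLC) (hLCI : LCI) (hAVV : AVV) (hF2B : F2BG)
    (π : PP) (B b x p q p' q' : ℤ) (hB : BG B) (hb : AG B b) (hx : AG B x)
    (hs : Sol b x p q p' q') (h1 : LC (uni (some π)) b) (h2 : ¬ LC (uni (some π)) x) :
    TT (some π) B b x p q p' q' = UV (sy (some π)) B b x p q p' q' ∧
      TT (some π) B x b p (-p') (-q) q' = 0 := by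
  obtain ⟨e, hL⟩ := lsym hSTM hSPP hSLC (some π)
  have hwb : sy (some π) w (b : Eis) = 0 := w_lc hLCI hL hb.ne h1
  obtain ⟨N0, hN⟩ := hF2B π B b x p q p' q' hB hb hx hs h1 h2
  have hA := (hAVV (some π) B b x p q p' q' hB.ne hb.ne hx.ne hs.toSolW (sy_zero hx π) h1).2
    _ N0 hN
  constructor
  · unfold TT
    rw [if_pos h1, hA]
    unfold UV
    rw [w_mul hL hB.ne hx.ne hb.ne, hwb]
    show tm π.1 (B : Eis) (Gf p q p' q' 1) - tm π.1 (B : Eis) (Gf p q p' q' 2) +
        tm π.1 w (B : Eis) + tm π.1 w (x : Eis) =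
      tm π.1 (B : Eis) (Gf p q p' q' 1) - tm π.1 (B : Eis) (Gf p q p' q' 2) +
        (tm π.1 w (B : Eis) + tm π.1 w (x : Eis) + 0)
    ring
  · unfold TT
    rw [if_neg h2]
    show (if 3 ∣ V π.1 (x : Eis) + V π.1 (B : Eis) ∧ ¬ 3 ∣ V π.1 (x : Eis)
      then - tm π.1 w (b : Eis) else 0) = 0
    have hwb' : tm π.1 w (b : Eis) = 0 := hwb
    rw [hwb', neg_zero, ite_self]

/-- an admissible noncube at a place dividing `B` has valuation prime to `3` -/
theorem val_nc (hLCI : LCI) {B b : ℤ} (hB : BG B) (hb : AG B b) (π : PP)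
    (hd : π.1 ∣ (B : Eis)) (h : ¬ LC π.1 b) : ¬ 3 ∣ V π.1 (b : Eis) := by
  intro h3
  apply h
  rw [hLCI.1 π b hb.ne]
  refine ⟨h3, ?_⟩
  have h1 : tm π.1 (b : Eis) (B : Eis) = 0 := hb.sym π
  have h2 : ((V π.1 (b : Eis) : ℕ) : ZMod 3) = 0 := by
    rw [ZMod.natCast_eq_zero_iff]
    exact h3
  unfold tm at h1
  rw [h2, zero_mul, sub_zero] at h1
  have h4 : V π.1 (B : Eis) ≤ 2 := hB.cf π
  have h5 : V π.1 (B : Eis) ≠ 0 := by
    intro h0
    exact (V_eq_zero_iff.1 h0) hd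
  have h6 : ((V π.1 (B : Eis) : ℕ) : ZMod 3) ≠ 0 := by
    intro h0
    rw [ZMod.natCast_eq_zero_iff] at h0
    omega
  have : Fact (Nat.Prime 3) := ⟨Nat.prime_three⟩
  rcases mul_eq_zero.1 h1 with h7 | h7
  · exact absurd h7 h6
  · exact h7

end LAMG

set_option linter.unusedVariables false in
open LAMG Pool.Agent.PT.LAM in
theorem LAMG_thm (hSTM : STM) (hSPP : SPP) (hSSL : SSL) (hSLC : SLC) (hSREC : SREC)
    (hSCJ : SCJ) (hLCI : LCI) (hIF1 : IF1) (hAVV : AVV) (hTAMG : TAMG) : LAMG := by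
  intro π B b x p q p' q' hB hb hx hs
  obtain ⟨hF2B, hF3R, hF3U⟩ := hTAMG
  obtain ⟨e, hL⟩ := lsym hSTM hSPP hSLC (some π)
  have hs' := sol_swap hs
  show TT (some π) B b x p q p' q' + TT (some π) B x b p (-p') (-q) q' =
    UV (sy (some π)) B b x p q p' q'
  by_cases h1 : LC (uni (some π)) b
  · by_cases h2 : LC (uni (some π)) x
    · -- both are local cubes
      obtain ⟨N0, hN⟩ := hIF1 (uni (some π)) (sy (some π)) e hL b x p q p' q' hb.ne hx.ne hs
      obtain ⟨N1, hN1⟩ := (hAVV (some π) B b x p q p' q' hB.ne hb.ne hx.ne hs.toSolW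
        (LAMG.sy_zero hx π) h1).1
      obtain ⟨N2, hN2⟩ := (hAVV (some π) B x b p (-p') (-q) q' hB.ne hx.ne hb.ne hs'.toSolW
        (LAMG.sy_zero hb π) h2).1
      obtain ⟨r, hr⟩ := h1 (max N0 N1)
      obtain ⟨ξ, hξ⟩ := h2 (max N0 N2)
      have hwb : sy (some π) w (b : Eis) = 0 := w_lc hLCI hL hb.ne h1
      have hwx : sy (some π) w (x : Eis) = 0 := w_lc hLCI hL hx.ne h2
      have e1 := hN r ξ (dvd_weak (le_max_left _ _) hr) (dvd_weak (le_max_left _ _) hξ)
        (B : Eis) (icast_ne hB.ne)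
      have e2 := hN1 r (dvd_weak (le_max_right _ _) hr)
      have e3 := hN2 ξ (dvd_weak (le_max_right _ _) hξ)
      unfold TT
      rw [if_pos h1, if_pos h2, hwb, hwx, ← e2, ← e3]
      unfold UV
      rw [w_mul hL hB.ne hx.ne hb.ne, hwb, hwx]
      linear_combination e1
    · obtain ⟨h3, h4⟩ := LAMG.half hSTM hSPP hSLC hLCI hAVV hF2B π B b x p q p' q' hB hb hx
        hs h1 h2
      rw [h3, h4, add_zero]
  · by_cases h2 : LC (uni (some π)) x
    · obtain ⟨h3, h4⟩ := LAMG.half hSTM hSPP hSLC hLCI hAVV hF2B π B x b p (-p') (-q) q' hB hx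
        hb hs' h2 h1
      rw [h3, UV_swap]
      rw [neg_neg, neg_neg] at h4
      rw [h4, zero_add]
    · -- both are not local cubes
      have hT1 : TT (some π) B b x p q p' q' =
          if 3 ∣ V π.1 (b : Eis) + V π.1 (B : Eis) ∧ ¬ 3 ∣ V π.1 (b : Eis)
            then - tm π.1 w (x : Eis) else 0 := by
        unfold TT
        rw [if_neg h1]
      have hT2 : TT (some π) B x b p (-p') (-q) q' =
          if 3 ∣ V π.1 (x : Eis) + V π.1 (B : Eis) ∧ ¬ 3 ∣ V π.1 (x : Eis)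
            then - tm π.1 w (b : Eis) else 0 := by
        unfold TT
        rw [if_neg h2]
      have h1' : ¬ LC π.1 b := h1
      have h2' : ¬ LC π.1 x := h2
      rw [hT1, hT2]
      show _ = UV (tm π.1) B b x p q p' q'
      by_cases hd : π.1 ∣ (B : Eis)
      · have hvb := LAMG.val_nc hLCI hB hb π hd h1'
        have hvx := LAMG.val_nc hLCI hB hx π hd h2'
        rw [hF3R π B b x p q p' q' hB hb hx hs hd hvb hvx]
        simp only [hvb, hvx, not_false_eq_true, and_true]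
      · have hvb : V π.1 (b : Eis) = 0 := V_eq_zero (hb.unr π hd)
        have hvx : V π.1 (x : Eis) = 0 := V_eq_zero (hx.unr π hd)
        have hcb : ch π.1 (b : Eis) ≠ 0 := by
          intro h0
          apply h1'
          rw [hLCI.1 π b hb.ne]
          exact ⟨by rw [hvb]; exact dvd_zero 3, h0⟩
        have hcx : ch π.1 (x : Eis) ≠ 0 := by
          intro h0
          apply h2'
          rw [hLCI.1 π x hx.ne]
          exact ⟨by rw [hvx]; exact dvd_zero 3, h0⟩
        rw [hF3U π B b x p q p' q' hB hb hx hs hd hcb hcx, hvb, hvx]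
        simp

end Pool.Agent.PT3
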