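import Pool.Agent.PT3.Stmts
import Pool.Agent.PT.LAM
import Pool.Agent.PT.LEV
import Pool.Agent.PT.LFIN

/-!
# PT3_LB: the local form of the antisymmetry at `lam` when `b` is a local cube
-/

open NumberField IsDedekindDomain Finset
open scoped nonZeroDivisors Pointwise

namespace Pool.Agent.PT3

open Pool.Agent.Lib_helper18 Pool.Agent.Lib_helper18.Eis Pool.Agent.Lib_helper84.Cub
open Pool.Agent.PT Pool.Agent.PTE

namespace LB

/-- the left argument of a symbol at `lam` only matters through its class -/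
theorem sl_congr (hSLC : SLC) (hLCL : LCL) {B x : ℤ} (hB : B ≠ 0) (hx : x ≠ 0)
    (h1 : lv x = lv B) (h2 : lw x = lw B) {c : Eis} (hc : c ≠ 0) :
    sl (B : Eis) c = sl (x : Eis) c := by
  have h3 := hLCL.2.2.2.2.2.1 x B c hx hB hc h1 h2
  rw [hSLC.skew c (B : Eis) hc (LEV.cast_ne hB), hSLC.skew c (x : Eis) hc (LEV.cast_ne hx), h3]

/-- `AS` of a rational number depends only on its class at `lam`. -/
theorem AS_congr (hSLC : SLC) (hLCL : LCL) {B x p q p' q' r : ℤ} (hB : B ≠ 0) (hx : x ≠ 0)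
    (h1 : lv x = lv B) (h2 : lw x = lw B) (hF : ∀ i, Lf p q i r ≠ 0)
    (hH : ∀ i, Lf p' q' i r ≠ 0) :
    AS sl (B : Eis) p q p' q' r = AS sl (x : Eis) p q p' q' r := by
  unfold AS
  rw [sl_congr hSLC hLCL hB hx h1 h2 (hF 2), sl_congr hSLC hLCL hB hx h1 h2 (hH 1),
    sl_congr hSLC hLCL hB hx h1 h2 (hF 1), sl_congr hSLC hLCL hB hx h1 h2 (hH 2)]

theorem hn' {b x p q p' q' : ℤ} (h : SolW b x p q p' q') : p' ^ 3 + b * q' ^ 3 ≠ 0 := by
  intro h0
  apply h.n1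
  rw [h.eq, h0, mul_zero]

theorem first (hSTM : STM) (hSPP : SPP) (hSLC : SLC) (hSCJ : SCJ) (hLCI : LCI) (hIF1 : IF1)
    (hAVV : AVV) (B b x p q p' q' : ℤ) (hB : B ≠ 0) (hb : b ≠ 0) (hx : x ≠ 0)
    (hs : Sol b x p q p' q') (h1 : LC lam b) (h2 : LC lam x) :
    TT none B b x p q p' q' + TT none B x b p (-p') (-q) q' = UV sl B b x p q p' q' := by
  have hL : LSym (uni none) (sy none) 4 := hSLC
  have hs' := LAM.sol_swap hs
  have h1' : LC (uni none) b := h1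
  have h2' : LC (uni none) x := h2
  obtain ⟨N0, hN⟩ := hIF1 (uni none) (sy none) 4 hL b x p q p' q' hb hx hs
  obtain ⟨N1, hN1⟩ := (hAVV none B b x p q p' q' hB hb hx hs.toSolW
    (hSCJ.2.2.1 B x hB hx) h1').1
  obtain ⟨N2, hN2⟩ := (hAVV none B x b p (-p') (-q) q' hB hx hb hs'.toSolW
    (hSCJ.2.2.1 B b hB hb) h2').1
  obtain ⟨r, hr⟩ := h1' (max N0 N1)
  obtain ⟨ξ, hξ⟩ := h2' (max N0 N2)
  have hwb : sy none w (b : Eis) = 0 := LAM.w_lc hLCI hL hb h1'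
  have hwx : sy none w (x : Eis) = 0 := LAM.w_lc hLCI hL hx h2'
  have e1 := hN r ξ (LAM.dvd_weak (le_max_left _ _) hr) (LAM.dvd_weak (le_max_left _ _) hξ)
    (B : Eis) (LAM.icast_ne hB)
  have e2 := hN1 r (LAM.dvd_weak (le_max_right _ _) hr)
  have e3 := hN2 ξ (LAM.dvd_weak (le_max_right _ _) hξ)
  have e4 : UV (sy none) B b x p q p' q' = sy none (B : Eis) (Gf p q p' q' 1) -
      sy none (B : Eis) (Gf p q p' q' 2) + sy none w (B : Eis) := by
    unfold UV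
    rw [LAM.w_mul hL hB hx hb, hwb, hwx, add_zero, add_zero]
  change _ = UV (sy none) B b x p q p' q'
  rw [e4]
  unfold TT
  rw [if_pos h1', if_pos h2', hwb, hwx, ← e2, ← e3]
  linear_combination e1

theorem second (hSLC : SLC) (hSCJ : SCJ) (hLCI : LCI) (hIF2 : IF2)
    (hAVV : AVV) (hLCL : LCL) (B b x p q p' q' : ℤ) (hB : B ≠ 0) (hb : b ≠ 0) (hx : x ≠ 0)
    (hs : Sol b x p q p' q') (h1 : LC lam b) (h2 : lv x = lv B) (h3 : lw x = lw B) :
    TT none B b x p q p' q' = UV sl B b x p q p' q' := by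
  have hL : LSym (uni none) (sy none) 4 := hSLC
  have h1' : LC (uni none) b := h1
  have hwb : sy none w (b : Eis) = 0 := LAM.w_lc hLCI hL hb h1'
  have hwB : sy none w (B : Eis) = sy none w (x : Eis) :=
    hLCL.2.2.2.2.2.1 B x w hB hx LEV.w_ne h2.symm h3.symm
  have hG : ∀ i, i = 1 ∨ i = 2 → sl (B : Eis) (Gf p q p' q' i) = sl (x : Eis) (Gf p q p' q' i) :=
    fun i hi => sl_congr hSLC hLCL hB hx h2 h3 (LFIN.Gf_ne hs i hi)
  obtain ⟨N0, hN⟩ := hIF2 lam sl 4 hSLC b x p q p' q' hb hx hs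
  obtain ⟨N1, hN1⟩ := (hAVV none B b x p q p' q' hB hb hx hs.toSolW
    (hSCJ.2.2.1 B x hB hx) h1').1
  obtain ⟨r, hr⟩ := h1' (max (max N0 N1)
    (max (V lam ((p ^ 3 + b * q ^ 3 : ℤ) : Eis) + 1) (V lam ((p' ^ 3 + b * q' ^ 3 : ℤ) : Eis) + 1)))
  have hr1 := LAM.dvd_weak (le_max_left _ _) hr
  have hr2 := LAM.dvd_weak (le_max_right _ _) hr
  have hF : ∀ i, Lf p q i r ≠ 0 := LEV.lf_ne hSLC.prime hs.n1 (Nat.lt_succ_self _)
    (LAM.dvd_weak (le_max_left _ _) hr2)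
  have hH : ∀ i, Lf p' q' i r ≠ 0 := LEV.lf_ne hSLC.prime (hn' hs.toSolW) (Nat.lt_succ_self _)
    (LAM.dvd_weak (le_max_right _ _) hr2)
  have e1 := hN r (LAM.dvd_weak (le_max_left _ _) hr1)
  have e2 := hN1 r (LAM.dvd_weak (le_max_right _ _) hr1)
  have e3 : AS (sy none) (B : Eis) p q p' q' r = AS sl (x : Eis) p q p' q' r :=
    AS_congr hSLC hLCL hB hx h2 h3 hF hH
  have e4 : UV (sy none) B b x p q p' q' = sl (x : Eis) (Gf p q p' q' 1) -
      sl (x : Eis) (Gf p q p' q' 2) + (sy none w (x : Eis) + sy none w (x : Eis)) := by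
    unfold UV
    rw [LAM.w_mul hL hB hx hb, hwb, hwB, add_zero]
    change sl (B : Eis) _ - sl (B : Eis) _ + _ = _
    rw [hG 1 (Or.inl rfl), hG 2 (Or.inr rfl)]
  change _ = UV (sy none) B b x p q p' q'
  rw [e4]
  unfold TT
  rw [if_pos h1', ← e2, e3, e1]
  change sl (x : Eis) _ - sl (x : Eis) _ + sl w (x : Eis) + sl w (x : Eis) =
    sl (x : Eis) _ - sl (x : Eis) _ + (sl w (x : Eis) + sl w (x : Eis))
  rw [add_assoc]

end LB

set_option linter.unusedVariables false in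
theorem LB_thm (hSTM : STM) (hSPP : SPP) (hSSL : SSL) (hSLC : SLC) (hSCJ : SCJ) (hLCI : LCI)
    (hIF1 : IF1) (hIF2 : IF2) (hAVV : AVV) (hLCL : LCL) : LB :=
  ⟨LB.first hSTM hSPP hSLC hSCJ hLCI hIF1 hAVV, LB.second hSLC hSCJ hLCI hIF2 hAVV hLCL⟩

end Pool.Agent.PT3
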