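import Pool.Agent.PT3.Stmts
import Pool.Agent.PT.F5L

/-!
# Module LE1: the local evaluation at `lam`, `b` in the class of `B`, `v(B) = 1`, `x` not a cube
(reduction to LN1)
-/

set_option autoImplicit false

namespace Pool.Agent.PT3

open Pool.Agent.Lib_helper18 Pool.Agent.Lib_helper18.Eis Pool.Agent.Lib_helper84.Cub
open Pool.Agent.PT Pool.Agent.PTE

namespace LE1

open F5L

/-- a pair of integers is a power of `3` times a pair of integers not both divisible by `3` -/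
theorem exists_pair : ∀ (n : ℕ) (u v : ℤ), u.natAbs + v.natAbs ≤ n → ¬ (u = 0 ∧ v = 0) →
    ∃ A u1 v1 : ℤ, A ≠ 0 ∧ u = A * u1 ∧ v = A * v1 ∧ ¬ ((3 : ℤ) ∣ u1 ∧ (3 : ℤ) ∣ v1) := by
  intro n
  induction n with
  | zero =>
    intro u v h h0
    exact absurd ⟨by omega, by omega⟩ h0
  | succ n ih =>
    intro u v h h0
    by_cases h3 : (3 : ℤ) ∣ u ∧ (3 : ℤ) ∣ v
    · obtain ⟨⟨u1, rfl⟩, v1, rfl⟩ := h3
      have e1 : (3 * u1).natAbs = 3 * u1.natAbs := by rw [Int.natAbs_mul]; rfl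
      have e2 : (3 * v1).natAbs = 3 * v1.natAbs := by rw [Int.natAbs_mul]; rfl
      have h1 : ¬ (u1 = 0 ∧ v1 = 0) := by
        rintro ⟨rfl, rfl⟩
        exact h0 ⟨rfl, rfl⟩
      have h2 : ¬ (u1.natAbs = 0 ∧ v1.natAbs = 0) := by
        rintro ⟨h3, h4⟩
        exact h1 ⟨Int.natAbs_eq_zero.1 h3, Int.natAbs_eq_zero.1 h4⟩
      obtain ⟨A, u2, v2, hA, hu, hv, h4⟩ := ih u1 v1 (by omega) h1
      refine ⟨3 * A, u2, v2, mul_ne_zero (by norm_num) hA, ?_, ?_, h4⟩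
      · rw [hu]; ring
      · rw [hv]; ring
    · exact ⟨1, u, v, one_ne_zero, (one_mul u).symm, (one_mul v).symm, h3⟩

theorem pair (u v : ℤ) (h : ¬ (u = 0 ∧ v = 0)) :
    ∃ A u1 v1 : ℤ, A ≠ 0 ∧ u = A * u1 ∧ v = A * v1 ∧ ¬ ((3 : ℤ) ∣ u1 ∧ (3 : ℤ) ∣ v1) :=
  exists_pair _ u v le_rfl h

/-- additive functions -/
def Ad (l : ℤ → ZMod 3) : Prop := ∀ a b : ℤ, a ≠ 0 → b ≠ 0 → l (a * b) = l a + l b

theorem Ad.cube {l : ℤ → ZMod 3} (h : Ad l) {t N : ℤ} (ht : t ≠ 0) (hN : N ≠ 0) :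
    l (t ^ 3 * N) = l N := by
  have h3 : (3 : ZMod 3) = 0 := rfl
  have e : t ^ 3 * N = t * (t * (t * N)) := by ring
  rw [e, h t _ ht (mul_ne_zero ht (mul_ne_zero ht hN)), h t _ ht (mul_ne_zero ht hN),
    h t _ ht hN]
  linear_combination (l t) * h3

theorem S_scale (hS : SSL) (hC : SCJ) {t g h N : ℤ} (ht : t ≠ 0) (H : ¬ (g = 0 ∧ h = 0))
    (hN : N ≠ 0) : S (t * g) (t * h) N = S g h N := by
  unfold S
  have h1 : E (t * g) (t * h) = ((t : ℤ) : Eis) * E g h := by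
    unfold E; push_cast; ring
  rw [h1, mulL hS (eisInt_ne ht) (E_ne H) (eisInt_ne hN), int_int hC ht hN, zero_add]

/-- the part of `b` prime to cubes -/
theorem exists_b (hLCL : LCL) {b : ℤ} (hb : b ≠ 0) (h1 : lv b = 1) :
    ∃ T b1 : ℤ, T ≠ 0 ∧ b = T ^ 3 * b1 ∧ (3 : ℤ) ∣ b1 ∧ ¬ (9 : ℤ) ∣ b1 := by
  obtain ⟨-, c2, c3, c4, -⟩ := hLCL
  obtain ⟨k, N, hN, h3⟩ : ∃ (k : ℕ) (N : ℤ), b = 3 ^ k * N ∧ ¬ (3 : ℤ) ∣ N := by
    have hf : FiniteMultiplicity (3 : ℤ) b := Int.finiteMultiplicity_iff.2 ⟨by norm_num, hb⟩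
    obtain ⟨c, h1, h2⟩ := hf.exists_eq_pow_mul_and_not_dvd
    exact ⟨_, c, h1, h2⟩
  have hN0 : N ≠ 0 := by
    rintro rfl
    exact h3 (dvd_zero _)
  have hk : ∀ k : ℕ, lv (3 ^ k * N) = k := by
    intro k
    induction k with
    | zero => rw [pow_zero, one_mul, (c4 N h3).1, Nat.cast_zero]
    | succ k ih =>
      rw [pow_succ', mul_assoc, (c2 3 _ (by norm_num) (mul_ne_zero (pow_ne_zero _ (by norm_num))
        hN0)).1, ih, c3.1]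
      push_cast
      ring
  rw [hN, hk] at h1
  have h4 : k % 3 = 1 := by
    have h5 : ((k : ℕ) : ZMod 3) = ((1 : ℕ) : ZMod 3) := by rw [h1]; norm_num
    rw [ZMod.natCast_eq_natCast_iff] at h5
    exact h5
  refine ⟨3 ^ (k / 3), 3 * N, pow_ne_zero _ (by norm_num), ?_, Dvd.intro _ rfl, ?_⟩
  · rw [hN, ← pow_mul, ← mul_assoc, ← pow_succ]
    congr 2
    omega
  · intro h9
    apply h3
    obtain ⟨t, ht⟩ := h9
    exact ⟨t, by omega⟩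

/-- the relations between the classes -/
theorem rels {l : ℤ → ZMod 3} (h : Ad l) {b x p q p' q' X Y T b1 A p1 q1 C p1' q1' D X3 Y3 : ℤ}
    (hx : x ≠ 0) (hT : T ≠ 0) (hb1 : b1 ≠ 0) (hA : A ≠ 0) (hC : C ≠ 0)
    (hD : D ≠ 0) (hb : b = T ^ 3 * b1) (hp : p = A * p1) (hq : T * q = A * q1)
    (hp' : p' = C * p1') (hq' : T * q' = C * q1') (hX : C * X = D * X3) (hY : A * Y = D * Y3)
    (heq : p ^ 3 + b * q ^ 3 = x * (p' ^ 3 + b * q' ^ 3)) (hn1 : p ^ 3 + b * q ^ 3 ≠ 0)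
    (hn2 : p ^ 3 - x * p' ^ 3 ≠ 0) (hn0 : X ^ 3 + x * Y ^ 3 ≠ 0) :
    p1 ^ 3 + b1 * q1 ^ 3 ≠ 0 ∧ p1' ^ 3 + b1 * q1' ^ 3 ≠ 0 ∧
    (p1' ^ 3 + b1 * q1' ^ 3) * X3 ^ 3 + (p1 ^ 3 + b1 * q1 ^ 3) * Y3 ^ 3 ≠ 0 ∧
    p1 ^ 3 * q1' ^ 3 - q1 ^ 3 * p1' ^ 3 ≠ 0 ∧ x * q' ^ 3 - q ^ 3 ≠ 0 ∧
    l b = l b1 ∧ l (p1 ^ 3 + b1 * q1 ^ 3) = l x + l (p1' ^ 3 + b1 * q1' ^ 3) ∧
    l (p ^ 3 - x * p' ^ 3) + l (p1' ^ 3 + b1 * q1' ^ 3) =
      l b1 + l (p1 ^ 3 * q1' ^ 3 - q1 ^ 3 * p1' ^ 3) ∧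
    l b1 + l (x * q' ^ 3 - q ^ 3) = l (p ^ 3 - x * p' ^ 3) ∧
    l ((p1' ^ 3 + b1 * q1' ^ 3) * X3 ^ 3 + (p1 ^ 3 + b1 * q1 ^ 3) * Y3 ^ 3) =
      l (p1' ^ 3 + b1 * q1' ^ 3) + l (X ^ 3 + x * Y ^ 3) := by
  have hb0 : b ≠ 0 := by rw [hb]; exact mul_ne_zero (pow_ne_zero _ hT) hb1
  have hq3 : (T * q) ^ 3 = (A * q1) ^ 3 := by rw [hq]
  have hq3' : (T * q') ^ 3 = (C * q1') ^ 3 := by rw [hq']
  have hX3 : (C * X) ^ 3 = (D * X3) ^ 3 := by rw [hX]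
  have hY3 : (A * Y) ^ 3 = (D * Y3) ^ 3 := by rw [hY]
  have eF : A ^ 3 * (p1 ^ 3 + b1 * q1 ^ 3) = p ^ 3 + b * q ^ 3 := by
    rw [hb, hp]
    linear_combination (-b1) * hq3
  have eH : C ^ 3 * (p1' ^ 3 + b1 * q1' ^ 3) = p' ^ 3 + b * q' ^ 3 := by
    rw [hb, hp']
    linear_combination (-b1) * hq3'
  have hF : p1 ^ 3 + b1 * q1 ^ 3 ≠ 0 := by
    intro h0
    rw [h0, mul_zero] at eF
    exact hn1 eF.symm
  have hH : p1' ^ 3 + b1 * q1' ^ 3 ≠ 0 := by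
    intro h0
    rw [h0, mul_zero] at eH
    rw [← eH, mul_zero] at heq
    exact hn1 heq
  have r1 : A ^ 3 * (p1 ^ 3 + b1 * q1 ^ 3) = x * (C ^ 3 * (p1' ^ 3 + b1 * q1' ^ 3)) := by
    rw [eF, eH, heq]
  have r2 : C ^ 3 * ((p ^ 3 - x * p' ^ 3) * (p1' ^ 3 + b1 * q1' ^ 3)) =
      (A * C) ^ 3 * (b1 * (p1 ^ 3 * q1' ^ 3 - q1 ^ 3 * p1' ^ 3)) := by
    rw [hp, hp']
    linear_combination (C * p1') ^ 3 * r1
  have r3 : b * (x * q' ^ 3 - q ^ 3) = p ^ 3 - x * p' ^ 3 := by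
    linear_combination -heq
  have r4 : D ^ 3 * ((p1' ^ 3 + b1 * q1' ^ 3) * X3 ^ 3 + (p1 ^ 3 + b1 * q1 ^ 3) * Y3 ^ 3) =
      C ^ 3 * ((p1' ^ 3 + b1 * q1' ^ 3) * (X ^ 3 + x * Y ^ 3)) := by
    linear_combination Y ^ 3 * r1 - (p1' ^ 3 + b1 * q1' ^ 3) * hX3 -
      (p1 ^ 3 + b1 * q1 ^ 3) * hY3
  have hM : (p1' ^ 3 + b1 * q1' ^ 3) * X3 ^ 3 + (p1 ^ 3 + b1 * q1 ^ 3) * Y3 ^ 3 ≠ 0 := by
    intro h0
    rw [h0, mul_zero] at r4
    exact mul_ne_zero (pow_ne_zero 3 hC) (mul_ne_zero hH hn0) r4.symm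
  have hW : p1 ^ 3 * q1' ^ 3 - q1 ^ 3 * p1' ^ 3 ≠ 0 := by
    intro h0
    rw [h0, mul_zero, mul_zero] at r2
    exact mul_ne_zero (pow_ne_zero 3 hC) (mul_ne_zero hn2 hH) r2
  have hN : x * q' ^ 3 - q ^ 3 ≠ 0 := by
    intro h0
    rw [h0, mul_zero] at r3
    exact hn2 r3.symm
  have e0 : l b = l b1 := by rw [hb, h.cube hT hb1]
  refine ⟨hF, hH, hM, hW, hN, e0, ?_, ?_, ?_, ?_⟩
  · rw [← h.cube hA hF, r1, h x _ hx (mul_ne_zero (pow_ne_zero 3 hC) hH), h.cube hC hH]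
  · rw [← h _ _ hn2 hH, ← h _ _ hb1 hW, ← h.cube hC (mul_ne_zero hn2 hH), r2,
      h.cube (mul_ne_zero hA hC) (mul_ne_zero hb1 hW)]
  · rw [← e0, ← h _ _ hb0 hN, r3]
  · rw [← h.cube hD hM, r4, h.cube hC (mul_ne_zero hH hn0), h _ _ hH hn0]

end LE1

open LE1 F5L in
/-- LE1 -/
theorem LE1_thm (hLN1 : LN1) (hLCL : LCL) (hSCJ : SCJ) (hSSL : SSL) (hSLC : SLC)
    (hSREC : SREC) : LE1 := by
  have _ := hSLC
  have _ := hSREC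
  intro B b x p q p' q' X Y hB hb hx hsol hlvB hlvb hlwb hLC hPt
  obtain ⟨hX, hY, hn0, hcl1, hcl2⟩ := hPt
  obtain ⟨⟨heq, hn1⟩, hn2⟩ := hsol
  obtain ⟨T, b1, hT, hbT, hb3, hb9⟩ := exists_b hLCL hb (hlvb.trans hlvB)
  obtain ⟨c1, c2, c3, c4, c5, c6, c7⟩ := hLCL
  have hb1 : b1 ≠ 0 := by
    rintro rfl
    exact hb9 (dvd_zero _)
  have hadv : Ad lv := fun a b ha hb => (c2 a b ha hb).1
  have hadw : Ad lw := fun a b ha hb => (c2 a b ha hb).2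
  -- primitive pairs
  obtain ⟨A, p1, q1, hA, hp, hq, hpq3⟩ := pair p (T * q) (by
    rintro ⟨h1, h2⟩
    have h3 : q = 0 := (mul_eq_zero.1 h2).resolve_left hT
    apply hn1
    rw [h1, h3]; ring)
  obtain ⟨C, p1', q1', hC, hp', hq', hpq3'⟩ := pair p' (T * q') (by
    rintro ⟨h1, h2⟩
    have h3 : q' = 0 := (mul_eq_zero.1 h2).resolve_left hT
    apply hn1
    rw [heq, h1, h3]; ring)
  obtain ⟨D, X3, Y3, hD, hXD, hYD, hXY3⟩ := pair (C * X) (A * Y) (by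
    rintro ⟨h1, -⟩
    exact mul_ne_zero hC hX h1)
  have hX3 : X3 ≠ 0 := by
    rintro rfl
    exact mul_ne_zero hC hX (by rw [hXD, mul_zero])
  have hY3 : Y3 ≠ 0 := by
    rintro rfl
    exact mul_ne_zero hA hY (by rw [hYD, mul_zero])
  obtain ⟨hF, hH, hM, hW, hN, v1, v2, v3, v4, v5⟩ := rels hadv hx hT hb1 hA hC hD hbT hp hq hp'
    hq' hXD hYD heq hn1 hn2 hn0
  obtain ⟨-, -, -, -, -, w1, w2, w3, w4, w5⟩ := rels hadw hx hT hb1 hA hC hD hbT hp hq hp'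
    hq' hXD hYD heq hn1 hn2 hn0
  rw [(c2 _ _ hx hn0).1] at hcl1
  rw [(c2 _ _ hx hn0).2] at hcl2
  have h3 : (3 : ZMod 3) = 0 := rfl
  have key := hLN1 b1 p1 q1 p1' q1' X3 Y3 _ _ _ hb3 hb9 hpq3 hpq3' hXY3 hX3 hY3 rfl rfl rfl
    hF hH hM hW (by
      rw [v5, v2]
      linear_combination hcl1 + hlvB + lv (p1' ^ 3 + b1 * q1' ^ 3) * h3) (by
      rw [w5, w2]
      linear_combination hcl2 - hlwb + w1 + lw (p1' ^ 3 + b1 * q1' ^ 3) * h3) (by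
      rintro ⟨h1, h2⟩
      apply hLC
      rw [c1 x hx]
      constructor
      · linear_combination h1 - v2
      · linear_combination h2 - w2)
  -- the linear forms
  have H1 : ¬ (X * p' = 0 ∧ p * Y = 0) := by
    rintro ⟨h4, h5⟩
    have hu : p' = 0 := (mul_eq_zero.1 h4).resolve_left hX
    have hv : p = 0 := (mul_eq_zero.1 h5).resolve_right hY
    apply hn2
    rw [hu, hv]; ring
  have H2 : ¬ (X * q' = 0 ∧ q * Y = 0) := by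
    rintro ⟨h4, h5⟩
    have hu : q' = 0 := (mul_eq_zero.1 h4).resolve_left hX
    have hv : q = 0 := (mul_eq_zero.1 h5).resolve_right hY
    apply hN
    rw [hu, hv]; ring
  have H3 : ¬ (X3 * p1' = 0 ∧ p1 * Y3 = 0) := by
    rintro ⟨h4, h5⟩
    have hu : p1' = 0 := (mul_eq_zero.1 h4).resolve_left hX3
    have hv : p1 = 0 := (mul_eq_zero.1 h5).resolve_right hY3
    apply hW
    rw [hu, hv]; ring
  have H4 : ¬ (X3 * q1' = 0 ∧ q1 * Y3 = 0) := by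
    rintro ⟨h4, h5⟩
    have hu : q1' = 0 := (mul_eq_zero.1 h4).resolve_left hX3
    have hv : q1 = 0 := (mul_eq_zero.1 h5).resolve_right hY3
    apply hW
    rw [hu, hv]; ring
  have H5 : ¬ (q1 * p1' = 0 ∧ -(p1 * q1') = 0) := by
    rintro ⟨h4, h5⟩
    apply hW
    linear_combination (-(q1 * p1') ^ 2) * h4 - (p1 * q1') ^ 2 * h5
  have s1 : ∀ N : ℤ, N ≠ 0 → S (X * p') (p * Y) N = S (X3 * p1') (p1 * Y3) N := by
    intro N hN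
    have e1 : X * p' = D * (X3 * p1') := by
      rw [hp']
      linear_combination p1' * hXD
    have e2 : p * Y = D * (p1 * Y3) := by
      rw [hp]
      linear_combination p1 * hYD
    rw [e1, e2, S_scale hSSL hSCJ hD H3 hN]
  have s2 : ∀ N : ℤ, N ≠ 0 → S (X * q') (q * Y) N = S (X3 * q1') (q1 * Y3) N := by
    intro N hN
    have e1 : T * (X * q') = D * (X3 * q1') := by
      linear_combination X * hq' + q1' * hXD
    have e2 : T * (q * Y) = D * (q1 * Y3) := by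
      linear_combination Y * hq + q1 * hYD
    rw [← S_scale hSSL hSCJ hT H2 hN, e1, e2, S_scale hSSL hSCJ hD H4 hN]
  have H6 : ¬ (q * p' = 0 ∧ -(p * q') = 0) := by
    rintro ⟨h4, h5⟩
    apply H5
    have e1 : T * (q * p') = A * C * (q1 * p1') := by
      rw [hp']
      linear_combination C * p1' * hq
    have e2 : T * (-(p * q')) = A * C * (-(p1 * q1')) := by
      rw [hp]
      linear_combination (-(A * p1)) * hq'
    rw [h4, mul_zero] at e1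
    rw [h5, mul_zero] at e2
    exact ⟨(mul_eq_zero.1 e1.symm).resolve_left (mul_ne_zero hA hC),
      (mul_eq_zero.1 e2.symm).resolve_left (mul_ne_zero hA hC)⟩
  have s3 : ∀ N : ℤ, N ≠ 0 → S (q * p') (-(p * q')) N = S (q1 * p1') (-(p1 * q1')) N := by
    intro N hN
    have e1 : T * (q * p') = A * C * (q1 * p1') := by
      rw [hp']
      linear_combination C * p1' * hq
    have e2 : T * (-(p * q')) = A * C * (-(p1 * q1')) := by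
      rw [hp]
      linear_combination (-(A * p1)) * hq'
    rw [← S_scale hSSL hSCJ hT H6 hN, e1, e2, S_scale hSSL hSCJ (mul_ne_zero hA hC) H5 hN]
  -- the right side
  have g1 : Gf p q p' q' 1 = E (q * p') (-(p * q')) := by
    unfold Gf E
    push_cast
    ring
  have g2 : Gf p q p' q' 2 = conj (E (q * p') (-(p * q'))) := by
    unfold Gf E
    rw [map_add, map_mul, conj_w, conj_intCast, conj_intCast]
    push_cast
    ring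
  have hG1 : Gf p q p' q' 1 ≠ 0 := by
    rw [g1]
    exact E_ne H6
  have hG2 : Gf p q p' q' 2 ≠ 0 := by
    rw [g2]
    intro h0
    apply E_ne H6
    rw [← conj_conj (E (q * p') (-(p * q'))), h0, map_zero]
  have eG1 : sl (Gf p q p' q' 1) (B : Eis) = S (q * p') (-(p * q')) B := by
    rw [g1]
    rfl
  have eG2 : sl (Gf p q p' q' 2) (B : Eis) = - S (q * p') (-(p * q')) B := by
    have h5 := hSCJ.2.1 (E (q * p') (-(p * q'))) (B : Eis) (E_ne H6) (eisInt_ne hB)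
    rw [conj_intCast] at h5
    rw [g2]
    exact h5
  have eU : UV sl B b x p q p' q' = S (q1 * p1') (-(p1 * q1')) b1 + lw b - lw x := by
    unfold UV
    rw [skew hSSL hG1 (eisInt_ne hB), skew hSSL hG2 (eisInt_ne hB), eG1, eG2,
      c5 _ (mul_ne_zero (mul_ne_zero hB hx) hb), hadw _ _ (mul_ne_zero hB hx) hb,
      hadw _ _ hB hx, s3 B hB]
    have h4 : S (q1 * p1') (-(p1 * q1')) B = S (q1 * p1') (-(p1 * q1')) b1 :=
      c6 B b1 _ hB hb1 (E_ne H5) (hlvb.symm.trans v1) (hlwb.symm.trans w1)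
    rw [h4]
    linear_combination (-(S (q1 * p1') (-(p1 * q1')) b1) - lw b) * h3 + hlwb
  -- the left side
  have hZ : b1 * (p1 ^ 3 * q1' ^ 3 - q1 ^ 3 * p1' ^ 3) * (p1 ^ 3 + b1 * q1 ^ 3) *
      (p1' ^ 3 + b1 * q1' ^ 3) ≠ 0 := mul_ne_zero (mul_ne_zero (mul_ne_zero hb1 hW) hF) hH
  have hl : ∀ l : ℤ → ZMod 3, Ad l → l (b1 * (p1 ^ 3 * q1' ^ 3 - q1 ^ 3 * p1' ^ 3) *
      (p1 ^ 3 + b1 * q1 ^ 3) * (p1' ^ 3 + b1 * q1' ^ 3)) = l b1 +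
        l (p1 ^ 3 * q1' ^ 3 - q1 ^ 3 * p1' ^ 3) + l (p1 ^ 3 + b1 * q1 ^ 3) +
        l (p1' ^ 3 + b1 * q1' ^ 3) := by
    intro l h
    rw [h _ _ (mul_ne_zero (mul_ne_zero hb1 hW) hF) hH, h _ _ (mul_ne_zero hb1 hW) hF,
      h _ _ hb1 hW]
  have t2 : S (X3 * q1') (q1 * Y3) (b1 * (p1 ^ 3 * q1' ^ 3 - q1 ^ 3 * p1' ^ 3) *
      (p1 ^ 3 + b1 * q1 ^ 3) * (p1' ^ 3 + b1 * q1' ^ 3) * b1) =
      S (X3 * q1') (q1 * Y3) (x * q' ^ 3 - q ^ 3) -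
        S (X3 * q1') (q1 * Y3) (X ^ 3 + x * Y ^ 3) := by
    rw [eq_sub_iff_add_eq, ← S_mul hSSL H4 (mul_ne_zero hZ hb1) hn0]
    refine c6 _ _ _ (mul_ne_zero (mul_ne_zero hZ hb1) hn0) hN (E_ne H4) ?_ ?_
    · rw [hadv _ _ (mul_ne_zero hZ hb1) hn0, hadv _ _ hZ hb1, hl lv hadv]
      linear_combination -v3 + v2 + hcl1 - v4 - hlvb + v1 +
        (lv b1 + lv (p1' ^ 3 + b1 * q1' ^ 3)) * h3
    · rw [hadw _ _ (mul_ne_zero hZ hb1) hn0, hadw _ _ hZ hb1, hl lw hadw]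
      linear_combination -w3 + w2 + hcl2 - w4 - hlwb + w1 +
        (lw b1 + lw (p1' ^ 3 + b1 * q1' ^ 3)) * h3
  have t1 : S (X3 * p1') (p1 * Y3) (b1 * (p1 ^ 3 * q1' ^ 3 - q1 ^ 3 * p1' ^ 3) *
      (p1 ^ 3 + b1 * q1 ^ 3) * (p1' ^ 3 + b1 * q1' ^ 3) * b1 ^ 2) =
      S (X3 * p1') (p1 * Y3) (p ^ 3 - x * p' ^ 3) -
        S (X3 * p1') (p1 * Y3) (X ^ 3 + x * Y ^ 3) := by
    have hb2 : b1 ^ 2 ≠ 0 := pow_ne_zero 2 hb1
    rw [eq_sub_iff_add_eq, ← S_mul hSSL H3 (mul_ne_zero hZ hb2) hn0]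
    refine c6 _ _ _ (mul_ne_zero (mul_ne_zero hZ hb2) hn0) hn2 (E_ne H3) ?_ ?_
    · rw [hadv _ _ (mul_ne_zero hZ hb2) hn0, hadv _ _ hZ hb2, hl lv hadv, pow_two,
        hadv _ _ hb1 hb1]
      linear_combination -v3 + v2 + hcl1 - hlvb + v1 +
        (lv b1 + lv (p1' ^ 3 + b1 * q1' ^ 3)) * h3
    · rw [hadw _ _ (mul_ne_zero hZ hb2) hn0, hadw _ _ hZ hb2, hl lw hadw, pow_two,
        hadw _ _ hb1 hb1]
      linear_combination -w3 + w2 + hcl2 - hlwb + w1 +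
        (lw b1 + lw (p1' ^ 3 + b1 * q1' ^ 3)) * h3
  have key' : S (X3 * q1') (q1 * Y3) (b1 * (p1 ^ 3 * q1' ^ 3 - q1 ^ 3 * p1' ^ 3) *
      (p1 ^ 3 + b1 * q1 ^ 3) * (p1' ^ 3 + b1 * q1' ^ 3) * b1) -
      S (X3 * p1') (p1 * Y3) (b1 * (p1 ^ 3 * q1' ^ 3 - q1 ^ 3 * p1' ^ 3) *
      (p1 ^ 3 + b1 * q1 ^ 3) * (p1' ^ 3 + b1 * q1' ^ 3) * b1 ^ 2) =
      S (q1 * p1') (-(p1 * q1')) b1 + lw b1 - lw (p1 ^ 3 + b1 * q1 ^ 3) +
        lw (p1' ^ 3 + b1 * q1' ^ 3) := by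
    have g3 : E (q1 * p1') (-(p1 * q1')) =
        ((q1 * p1' : ℤ) : Eis) - ((p1 * q1' : ℤ) : Eis) * w := by
      unfold E
      push_cast
      ring
    unfold S
    rw [g3]
    exact key
  rw [t1, t2] at key'
  rw [SV_eq hSSL hSCJ H1 H2 hn2 hN hn0, s1 _ hn2, s1 _ hn0, s2 _ hN, s2 _ hn0, eU]
  linear_combination key' - w1 - w2 +
    ((S (X3 * p1') (p1 * Y3) (p ^ 3 - x * p' ^ 3) -
        S (X3 * p1') (p1 * Y3) (X ^ 3 + x * Y ^ 3)) -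
      (S (X3 * q1') (q1 * Y3) (x * q' ^ 3 - q ^ 3) -
        S (X3 * q1') (q1 * Y3) (X ^ 3 + x * Y ^ 3))) * h3

end Pool.Agent.PT3
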