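import Pool.Agent.PT3.Stmts
import Pool.Agent.PT.F5L

/-!
# PT3, module LE3: the local term of a point in the class of `B`, `v(B) = 1`
-/

set_option autoImplicit false

namespace Pool.Agent.PT3

open Pool.Agent.Lib_helper18 Pool.Agent.Lib_helper18.Eis Pool.Agent.Lib_helper84.Cub
open Pool.Agent.PT Pool.Agent.PTE

namespace LE3

open Pool.Agent.PT.F5L

theorem three_zero : (3 : ZMod 3) = 0 := by decide

theorem three_ne : (3 : ℤ) ≠ 0 := by norm_num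

/-- the part prime to `3` -/
theorem fac {n : ℤ} (hn : n ≠ 0) : ∃ (m : ℕ) (u : ℤ), n = 3 ^ m * u ∧ ¬ (3 : ℤ) ∣ u := by
  have hf : FiniteMultiplicity (3 : ℤ) n := Int.finiteMultiplicity_iff.mpr ⟨by norm_num, hn⟩
  obtain ⟨u, h1, h2⟩ := hf.exists_eq_pow_mul_and_not_dvd
  exact ⟨_, u, h1, h2⟩

theorem p30 (m : ℕ) : (3 : ℤ) ^ (3 * m) = (3 ^ m) ^ 3 := by
  rw [mul_comm, pow_mul]

theorem p31 (m : ℕ) : (3 : ℤ) ^ (3 * m + 1) = (3 ^ m) ^ 3 * 3 := by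
  rw [pow_succ, p30]

theorem ndvd_ne {u : ℤ} (h : ¬ (3 : ℤ) ∣ u) : u ≠ 0 := by
  rintro rfl
  exact h (dvd_zero _)

/-- the exponent of `3` and the class of the part prime to `3` -/
theorem lvw (hL : LCL) (m : ℕ) {u : ℤ} (hu : ¬ (3 : ℤ) ∣ u) :
    lv (3 ^ m * u) = m ∧ lw (3 ^ m * u) = wt (u ^ 2) := by
  induction m with
  | zero =>
    rw [pow_zero, one_mul, Nat.cast_zero]
    exact hL.2.2.2.1 u hu
  | succ m ih =>
    have h1 : (3 : ℤ) ^ (m + 1) * u = 3 * (3 ^ m * u) := by ring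
    have h2 : (3 : ℤ) ^ m * u ≠ 0 := mul_ne_zero (pow_ne_zero _ three_ne) (ndvd_ne hu)
    rw [h1, (hL.2.1 _ _ three_ne h2).1, (hL.2.1 _ _ three_ne h2).2, ih.1, ih.2,
      hL.2.2.1.1, hL.2.2.1.2]
    push_cast
    exact ⟨by ring, by ring⟩

theorem six {u : ℤ} (hu : ¬ (3 : ℤ) ∣ u) : ∃ k : ℤ, (u ^ 3) ^ 2 = 1 + 9 * k := by
  have h : u % 3 = 1 ∨ u % 3 = 2 := by omega
  rcases h with h | h
  · obtain ⟨l, rfl⟩ : ∃ l, u = 3 * l + 1 := ⟨u / 3, by omega⟩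
    exact ⟨81 * l ^ 6 + 162 * l ^ 5 + 135 * l ^ 4 + 60 * l ^ 3 + 15 * l ^ 2 + 2 * l, by ring⟩
  · obtain ⟨l, rfl⟩ : ∃ l, u = 3 * l - 1 := ⟨u / 3 + 1, by omega⟩
    exact ⟨81 * l ^ 6 - 162 * l ^ 5 + 135 * l ^ 4 - 60 * l ^ 3 + 15 * l ^ 2 - 2 * l, by ring⟩

/-- the class of `u ^ 3 + 3 m` -/
theorem wt_cube {u : ℤ} (hu : ¬ (3 : ℤ) ∣ u) (m : ℤ) :
    wt ((u ^ 3 + 3 * m) ^ 2) = ((2 * u ^ 3 * m : ℤ) : ZMod 3) := by
  obtain ⟨k, hk⟩ := six hu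
  rw [wt_eq (k := 2 * u ^ 3 * m + 3 * (k + m ^ 2)) (by linear_combination hk)]
  push_cast
  rw [three_zero]
  ring

theorem ndvd_cube {u : ℤ} (hu : ¬ (3 : ℤ) ∣ u) (m : ℤ) : ¬ (3 : ℤ) ∣ u ^ 3 + 3 * m := by
  intro h
  have h1 : (3 : ℤ) ∣ u ^ 3 := (Int.dvd_add_left (Dvd.intro m rfl)).mp h
  exact hu (Int.prime_three.dvd_of_dvd_pow h1)

/-- scaling by powers of `3` -/
theorem S_pow (hS : SSL) (hC : SCJ) {g h N : ℤ} (H : ¬ (g = 0 ∧ h = 0)) (hN : N ≠ 0) (e : ℕ) :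
    S (3 ^ e * g) (3 ^ e * h) N = S g h N := by
  induction e with
  | zero => simp
  | succ e ih =>
    have h1 : (3 : ℤ) ^ (e + 1) * g = 3 * (3 ^ e * g) := by ring
    have h2 : (3 : ℤ) ^ (e + 1) * h = 3 * (3 ^ e * h) := by ring
    rw [h1, h2, S_three hS hC _ hN, ih]
    rintro ⟨h3, h4⟩
    exact H ⟨(mul_eq_zero.mp h3).resolve_left (pow_ne_zero _ three_ne),
      (mul_eq_zero.mp h4).resolve_left (pow_ne_zero _ three_ne)⟩

theorem S_A (hE : SLE) {g h N : ℤ} (v : ℕ) (hg : ¬ (3 : ℤ) ∣ g) (hh : (3 : ℤ) ∣ h)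
    (hN : ¬ (3 : ℤ) ∣ N) : S g h (3 ^ v * N) = v * ((g * (h / 3) : ℤ) : ZMod 3) :=
  (hE g h N v hN).1 hg hh

theorem S_one (hS : SSL) {g h : ℤ} (H : ¬ (g = 0 ∧ h = 0)) : S g h 1 = 0 := by
  unfold S
  rw [Int.cast_one, skew hS one_ne_zero (E_ne H), oneL hS (E_ne H), neg_zero]

/-- numbers in the class of the cubes -/
theorem S_cube (hS : SSL) (hL : LCL) {g h N : ℤ} (H : ¬ (g = 0 ∧ h = 0)) (hN : N ≠ 0)
    (h1 : lv N = 0) (h2 : lw N = 0) : S g h N = 0 := by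
  have h3 : lv 1 = 0 ∧ lw 1 = 0 := by
    have h4 := hL.2.2.2.1 1 (by norm_num)
    refine ⟨h4.1, h4.2.trans ?_⟩
    rw [wt_eq (k := 0) (by norm_num)]
    rfl
  have h4 := hL.2.2.2.2.2.1 N 1 (E g h) hN one_ne_zero (E_ne H) (h1.trans h3.1.symm)
    (h2.trans h3.2.symm)
  have h5 := S_one hS H
  unfold S at *
  rw [h4]
  exact h5

theorem S_pow3 (hS : SSL) {g h N : ℤ} (H : ¬ (g = 0 ∧ h = 0)) (hN : N ≠ 0) :
    S g h (N ^ 3) = 0 := by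
  rw [show N ^ 3 = N * (N * N) by ring, S_mul hS H hN (mul_ne_zero hN hN), S_mul hS H hN hN]
  linear_combination (S g h N) * three_zero

/-- the exponents of the coordinates of the point -/
theorem point (hL : LCL) {x1 X1 Y1 : ℤ} {j a c : ℕ} (hx : ¬ (3 : ℤ) ∣ x1) (hX : ¬ (3 : ℤ) ∣ X1)
    (hY : ¬ (3 : ℤ) ∣ Y1)
    (h1 : lv ((3 ^ a * X1) ^ 3 + 3 ^ (3 * j + 1) * x1 * (3 ^ c * Y1) ^ 3) = 0)
    (h2 : lw ((3 ^ a * X1) ^ 3 + 3 ^ (3 * j + 1) * x1 * (3 ^ c * Y1) ^ 3) = 0) :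
    a < j + c := by
  by_contra hlt
  push Not at hlt
  rcases hlt.eq_or_lt with h | h
  · -- equality
    subst h
    have e : (3 ^ (j + c) * X1) ^ 3 + 3 ^ (3 * j + 1) * x1 * (3 ^ c * Y1) ^ 3 =
        3 ^ (3 * (j + c)) * (X1 ^ 3 + 3 * (x1 * Y1 ^ 3)) := by
      rw [p30, p31, pow_add]
      ring
    rw [e, (lvw hL _ (ndvd_cube hX _)).2, wt_cube hX] at h2
    have h3 : (3 : ℤ) ∣ 2 * X1 ^ 3 * (x1 * Y1 ^ 3) :=
      (ZMod.intCast_zmod_eq_zero_iff_dvd _ 3).mp h2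
    have hp := Int.prime_three
    rcases hp.dvd_or_dvd h3 with h4 | h4
    · rcases hp.dvd_or_dvd h4 with h5 | h5
      · norm_num at h5
      · exact hX (hp.dvd_of_dvd_pow h5)
    · rcases hp.dvd_or_dvd h4 with h5 | h5
      · exact hx h5
      · exact hY (hp.dvd_of_dvd_pow h5)
  · obtain ⟨d, rfl⟩ : ∃ d, a = j + c + (d + 1) := ⟨a - (j + c) - 1, by omega⟩
    have e : (3 ^ (j + c + (d + 1)) * X1) ^ 3 + 3 ^ (3 * j + 1) * x1 * (3 ^ c * Y1) ^ 3 =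
        3 ^ (3 * (j + c) + 1) * (x1 * Y1 ^ 3 + 3 * (3 * (3 ^ d) ^ 3 * X1 ^ 3)) := by
      rw [p31, p31, pow_add, pow_add, pow_add, pow_one]
      ring
    have h3 : ¬ (3 : ℤ) ∣ x1 * Y1 ^ 3 + 3 * (3 * (3 ^ d) ^ 3 * X1 ^ 3) := by
      intro h4
      have h5 : (3 : ℤ) ∣ x1 * Y1 ^ 3 := (Int.dvd_add_left (Dvd.intro _ rfl)).mp h4
      rcases Int.prime_three.dvd_or_dvd h5 with h6 | h6
      · exact hx h6
      · exact hY (Int.prime_three.dvd_of_dvd_pow h6)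
    rw [e, (lvw hL _ h3).1] at h1
    push_cast at h1
    rw [three_zero] at h1
    simp at h1

/-- the claim -/
theorem claim (hE : SLE) (hL : LCL) (hC : SCJ) (hS : SSL) {x1 X1 Y1 : ℤ} {j a c : ℕ}
    (hx : ¬ (3 : ℤ) ∣ x1) (hX : ¬ (3 : ℤ) ∣ X1) (hY : ¬ (3 : ℤ) ∣ Y1) (hac : a < j + c)
    (g g' : ℤ) (hN : g ^ 3 - 3 ^ (3 * j + 1) * x1 * g' ^ 3 ≠ 0) :
    S (3 ^ a * X1 * g') (g * (3 ^ c * Y1)) (g ^ 3 - 3 ^ (3 * j + 1) * x1 * g' ^ 3) = 0 := by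
  have hX0 : (3 : ℤ) ^ a * X1 ≠ 0 := mul_ne_zero (pow_ne_zero _ three_ne) (ndvd_ne hX)
  have hY0 : (3 : ℤ) ^ c * Y1 ≠ 0 := mul_ne_zero (pow_ne_zero _ three_ne) (ndvd_ne hY)
  have H : ¬ (3 ^ a * X1 * g' = 0 ∧ g * (3 ^ c * Y1) = 0) := by
    rintro ⟨h1, h2⟩
    have h3 := (mul_eq_zero.mp h1).resolve_left hX0
    have h4 := (mul_eq_zero.mp h2).resolve_right hY0
    apply hN
    rw [h3, h4]
    ring
  by_cases hg' : g' = 0
  · have e : g ^ 3 - 3 ^ (3 * j + 1) * x1 * g' ^ 3 = g ^ 3 := by rw [hg']; ring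
    have hg : g ≠ 0 := by
      rintro rfl
      exact hN (by rw [hg']; ring)
    rw [e]
    exact S_pow3 hS H hg
  by_cases hg : g = 0
  · have e : E (3 ^ a * X1 * g') (g * (3 ^ c * Y1)) = ((3 ^ a * X1 * g' : ℤ) : Eis) := by
      unfold E
      rw [hg, zero_mul, Int.cast_zero, zero_mul, add_zero]
    unfold S
    rw [e]
    exact int_int hC (mul_ne_zero hX0 hg') hN
  obtain ⟨s, g1, rfl, hg1⟩ := fac hg
  obtain ⟨t, g2, rfl, hg2⟩ := fac hg'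
  rcases lt_trichotomy s (j + t) with h | h | h
  · obtain ⟨d, hd⟩ : ∃ d, j + t = s + (d + 1) := ⟨j + t - s - 1, by omega⟩
    have e : (3 ^ s * g1) ^ 3 - 3 ^ (3 * j + 1) * x1 * (3 ^ t * g2) ^ 3 =
        3 ^ (3 * s) * (g1 ^ 3 + 3 * (3 * (-(9 * (3 ^ d) ^ 3 * x1 * g2 ^ 3)))) := by
      have e1 : (3 : ℤ) ^ (3 * j + 1) * x1 * (3 ^ t * g2) ^ 3 =
          (3 ^ (j + t)) ^ 3 * 3 * x1 * g2 ^ 3 := by
        rw [p31, pow_add]
        ring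
      rw [e1, hd, p30, pow_add, pow_add, pow_one]
      ring
    have h3 := lvw hL (3 * s) (ndvd_cube hg1 (3 * (-(9 * (3 ^ d) ^ 3 * x1 * g2 ^ 3))))
    rw [wt_cube hg1] at h3
    rw [e] at hN ⊢
    refine S_cube hS hL H hN ?_ ?_
    · rw [h3.1]
      push_cast
      rw [three_zero, zero_mul]
    · rw [h3.2]
      push_cast
      rw [three_zero]
      ring
  · have e : (3 ^ s * g1) ^ 3 - 3 ^ (3 * j + 1) * x1 * (3 ^ t * g2) ^ 3 =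
        3 ^ (3 * s) * (g1 ^ 3 + 3 * (-(x1 * g2 ^ 3))) := by
      rw [h, p30, p31, pow_add]
      ring
    obtain ⟨d, hd⟩ : ∃ d, j + c = a + (d + 1) := ⟨j + c - a - 1, by omega⟩
    have e2 : (3 : ℤ) ^ a * X1 * (3 ^ t * g2) = 3 ^ (a + t) * (X1 * g2) := by
      rw [pow_add]; ring
    have e3 : (3 : ℤ) ^ s * g1 * (3 ^ c * Y1) = 3 ^ (a + t) * (3 * (3 ^ d * (g1 * Y1))) := by
      have e4 : s + c = a + t + (d + 1) := by omega
      have e5 : (3 : ℤ) ^ s * g1 * (3 ^ c * Y1) = 3 ^ (s + c) * (g1 * Y1) := by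
        rw [pow_add]; ring
      rw [e5, e4, pow_add, pow_succ]
      ring
    have hG : ¬ (3 : ℤ) ∣ X1 * g2 := fun h5 => (Int.prime_three.dvd_or_dvd h5).elim hX hg2
    rw [e] at hN ⊢
    rw [e2, e3, S_pow hS hC (fun h5 => ndvd_ne hG h5.1) hN,
      S_A hE _ hG (Dvd.intro _ rfl) (ndvd_cube hg1 _)]
    push_cast
    rw [three_zero]
    ring
  · obtain ⟨f, hf⟩ : ∃ f, s = j + t + (f + 1) := ⟨s - (j + t) - 1, by omega⟩
    have e : (3 ^ s * g1) ^ 3 - 3 ^ (3 * j + 1) * x1 * (3 ^ t * g2) ^ 3 =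
        3 ^ (3 * (j + t) + 1) * (-(x1 * g2 ^ 3) + 3 * (3 * (3 ^ f) ^ 3 * g1 ^ 3)) := by
      rw [hf, p31, p31, pow_add, pow_add, pow_add, pow_one]
      ring
    have h3 : ¬ (3 : ℤ) ∣ -(x1 * g2 ^ 3) + 3 * (3 * (3 ^ f) ^ 3 * g1 ^ 3) := by
      intro h4
      have h5 : (3 : ℤ) ∣ -(x1 * g2 ^ 3) := (Int.dvd_add_left (Dvd.intro _ rfl)).mp h4
      rw [dvd_neg] at h5
      rcases Int.prime_three.dvd_or_dvd h5 with h6 | h6
      · exact hx h6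
      · exact hg2 (Int.prime_three.dvd_of_dvd_pow h6)
    obtain ⟨d, hd⟩ : ∃ d, j + c = a + (d + 1) := ⟨j + c - a - 1, by omega⟩
    have e2 : (3 : ℤ) ^ a * X1 * (3 ^ t * g2) = 3 ^ (a + t) * (X1 * g2) := by
      rw [pow_add]; ring
    have e3 : (3 : ℤ) ^ s * g1 * (3 ^ c * Y1) =
        3 ^ (a + t) * (3 * (3 * (3 ^ (d + f) * (g1 * Y1)))) := by
      have e4 : s + c = a + t + (d + f + 2) := by omega
      have e5 : (3 : ℤ) ^ s * g1 * (3 ^ c * Y1) = 3 ^ (s + c) * (g1 * Y1) := by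
        rw [pow_add]; ring
      rw [e5, e4, pow_add, pow_add _ (d + f)]
      ring
    have hG : ¬ (3 : ℤ) ∣ X1 * g2 := fun h5 => (Int.prime_three.dvd_or_dvd h5).elim hX hg2
    rw [e] at hN ⊢
    rw [e2, e3, S_pow hS hC (fun h5 => ndvd_ne hG h5.1) hN,
      S_A hE _ hG (Dvd.intro _ rfl) h3, Int.mul_ediv_cancel_left _ three_ne]
    push_cast
    rw [three_zero]
    ring

/-- conjugate linear forms -/
theorem conjS (hC : SCJ) {g h N : ℤ} (H : ¬ (g = 0 ∧ h = 0)) (hN : N ≠ 0) :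
    sl ((g : Eis) + (h : Eis) * w ^ 2) (N : Eis) = - S g h N := by
  have h1 := hC.2.1 (E g h) (N : Eis) (E_ne H) (eisInt_ne hN)
  rw [conj_intCast] at h1
  have h2 : conj (E g h) = (g : Eis) + (h : Eis) * w ^ 2 := by
    unfold E
    rw [map_add, map_mul, conj_intCast, conj_intCast, conj_w]
  rw [h2] at h1
  exact h1

end LE3

open LE3 Pool.Agent.PT.F5L in
theorem LE3_thm (hSLE : SLE) (hLCL : LCL) (hSCJ : SCJ) (hSSL : SSL) (hSLC : SLC) (hSREC : SREC)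
    (hLCI : LCI) : LE3 := by
  intro B b x p q p' q' X Y _ hb hx hSol hB1 hxB _ hP
  obtain ⟨hX0, hY0, hn0, hcl⟩ := hP
  -- the class of `n0`
  have hm := hLCL.2.1 x _ hx hn0
  have hlv : lv (X ^ 3 + x * Y ^ 3) = 0 := by
    have h1 := hcl.1
    rw [hm.1, hxB] at h1
    linear_combination h1
  have hlw : lw (X ^ 3 + x * Y ^ 3) = 0 := by
    have h1 := hcl.2
    rw [hm.2] at h1
    rename_i h2
    rw [h2] at h1
    linear_combination h1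
  obtain ⟨v, x1, hxe, hx1⟩ := fac hx
  obtain ⟨a, X1, hXe, hX1⟩ := fac hX0
  obtain ⟨c, Y1, hYe, hY1⟩ := fac hY0
  have hv : (v : ZMod 3) = 1 := by
    rw [← hB1, ← hxB, hxe, (lvw hLCL v hx1).1]
  obtain ⟨j, rfl⟩ : ∃ j, v = 3 * j + 1 := by
    have h1 : ((v : ℕ) : ZMod 3) = ((1 : ℕ) : ZMod 3) := by rw [hv, Nat.cast_one]
    rw [ZMod.natCast_eq_natCast_iff] at h1
    have h2 : v % 3 = 1 := h1
    exact ⟨v / 3, by omega⟩
  subst hxe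
  subst hXe
  subst hYe
  have hac := point hLCL hx1 hX1 hY1 hlv hlw
  -- the terms
  have hN1 : p ^ 3 - 3 ^ (3 * j + 1) * x1 * p' ^ 3 ≠ 0 := hSol.n2
  have hN2 : q ^ 3 - 3 ^ (3 * j + 1) * x1 * q' ^ 3 ≠ 0 := by
    intro h
    apply hN1
    have h1 := hSol.eq
    linear_combination h1 - b * h
  have H1 : ¬ (3 ^ a * X1 * p' = 0 ∧ p * (3 ^ c * Y1) = 0) := by
    rintro ⟨h1, h2⟩
    have h3 := (mul_eq_zero.mp h1).resolve_left hX0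
    have h4 := (mul_eq_zero.mp h2).resolve_right hY0
    exact hN1 (by rw [h3, h4]; ring)
  have H2 : ¬ (3 ^ a * X1 * q' = 0 ∧ q * (3 ^ c * Y1) = 0) := by
    rintro ⟨h1, h2⟩
    have h3 := (mul_eq_zero.mp h1).resolve_left hX0
    have h4 := (mul_eq_zero.mp h2).resolve_right hY0
    exact hN2 (by rw [h3, h4]; ring)
  have c1 := claim hSLE hLCL hSCJ hSSL hx1 hX1 hY1 hac p p' hN1
  have c2 := claim hSLE hLCL hSCJ hSSL hx1 hX1 hY1 hac q q' hN2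
  have c3 := S_cube hSSL hLCL H1 hn0 hlv hlw
  have c4 := S_cube hSSL hLCL H2 hn0 hlv hlw
  have c2' : S (3 ^ a * X1 * q') (q * (3 ^ c * Y1)) (3 ^ (3 * j + 1) * x1 * q' ^ 3 - q ^ 3) = 0 := by
    have h1 := S_neg hSSL H2 hN2
    rw [neg_sub] at h1
    rw [h1]
    exact c2
  have hN2' : 3 ^ (3 * j + 1) * x1 * q' ^ 3 - q ^ 3 ≠ 0 := by
    intro h
    exact hN2 (by linear_combination -h)
  have d1 : ∀ u v : ℤ, Df (3 ^ a * X1) (3 ^ c * Y1) u v 1 =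
      E (3 ^ a * X1 * u) (v * (3 ^ c * Y1)) := by
    intro u v
    unfold Df E
    push_cast
    ring
  have d2 : ∀ u v : ℤ, Df (3 ^ a * X1) (3 ^ c * Y1) u v 2 =
      ((3 ^ a * X1 * u : ℤ) : Eis) + ((v * (3 ^ c * Y1) : ℤ) : Eis) * w ^ 2 := by
    intro u v
    unfold Df
    push_cast
    ring
  unfold SV
  rw [d1, d1, d2, d2, conjS hSCJ H1 hN1, conjS hSCJ H1 hn0, conjS hSCJ H2 hN2',
    conjS hSCJ H2 hn0, c1, c2', c3, c4]
  unfold S at c1 c2' c3 c4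
  rw [c1, c2', c3, c4]
  ring

end Pool.Agent.PT3
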