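import Pool.Agent.PT3.Stmts
import Pool.Agent.PT.LEV

/-!
# Prime twists of rank zero, `n` divisible by `3`: the local evaluation at the tame places
(module LEVG)
-/

namespace Pool.Agent.PT3

open Pool.Agent.Lib_helper18 Pool.Agent.Lib_helper18.Eis Pool.Agent.Lib_helper84.Cub
open Pool.Agent.PT Pool.Agent.PTE

namespace LEVG

/-- A class that is not a local cube and whose symbol with `B` vanishes has valuation prime to
`3` at a prime dividing `B`. -/
theorem nd {π : PP} {B t : ℤ} (h1 : V π.1 (B : Eis) ≠ 0) (h2 : V π.1 (B : Eis) ≤ 2)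
    (ht : tm π.1 (t : Eis) (B : Eis) = 0)
    (hL : ¬ (3 ∣ V π.1 (t : Eis) ∧ ch π.1 (t : Eis) = 0)) : ¬ 3 ∣ V π.1 (t : Eis) := by
  intro h3
  apply hL
  refine ⟨h3, ?_⟩
  unfold tm at ht
  rw [LEV.cast3.2 h3, zero_mul, sub_zero] at ht
  have h9 : (V π.1 (B : Eis) : ZMod 3) ≠ 0 := by
    rw [Ne, LEV.cast3]
    omega
  have : ∀ u y : ZMod 3, u ≠ 0 → u * y = 0 → y = 0 := by decide
  exact this _ _ h9 ht

end LEVG

/-- LEVG: the local evaluation at the tame places. -/
theorem LEVG_thm (hSTM : STM) (hSPP : SPP) (hSSL : SSL) (hSLC : SLC) (hSREC : SREC) (hSCJ : SCJ)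
    (hLCI : LCI) (hIF1 : IF1) (hIF2 : IF2) (hIF4 : IF4) (hIF4B : IF4B) (hAVV : AVV)
    (hTAMG : TAMG) (hF6R : F6R) (hF7U : F7U) : LEVG := by
  intro π B b x p q p' q' X Y hB hb hx hS hP
  have hs : LSym π.1 (tm π.1) 1 := hSTM π.1 π.2.1 (hSPP.2.2.2.1 π).1
  obtain ⟨hF2B, hF3R, hF3U⟩ := hTAMG
  have hB0 := hB.ne
  have hb0 := hb.ne
  have hx0 := hx.ne
  have hBe := LEV.cast_ne hB0
  have hbe := LEV.cast_ne hb0
  have hxe := LEV.cast_ne hx0
  obtain ⟨hn, c, hc, heq⟩ := LEV.rel hB0 hP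
  have hrel := LEV.rel_sym hs hBe hxe (LEV.cast_ne hn) hc heq
  have hsBx : tm π.1 (B : Eis) (x : Eis) = 0 := by
    have h1 := hx.sym π
    have h2 := hs.skew (x : Eis) (B : Eis) hxe hBe
    rw [h2, h1, neg_zero]
  have hwprod : tm π.1 w ((B * x * b : ℤ) : Eis) =
      tm π.1 w (B : Eis) + tm π.1 w (x : Eis) + tm π.1 w (b : Eis) := by
    push_cast
    rw [LEV.mul_right hs (mul_ne_zero hBe hxe) hbe LEV.w_ne, LEV.mul_right hs hBe hxe LEV.w_ne]
  by_cases hLb : LC π.1 b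
  · have hTT : TT (some π) B b x p q p' q' = AV (some π) B b p q p' q' + tm π.1 w (x : Eis) := by
      unfold TT
      exact if_pos hLb
    have hA := hAVV (some π) B b x p q p' q' hB0 hb0 hx0 hS.toSolW hsBx hLb
    by_cases hLx : LC π.1 x
    · -- both cubes
      obtain ⟨N1, h1⟩ := hA.1
      obtain ⟨N2, h2⟩ := hIF1 π.1 (tm π.1) 1 hs b x p q p' q' hb0 hx0 hS
      obtain ⟨N3, _, h3⟩ := LEV.SV_LC hs hLCI hIF4 hb0 hx0 hS hP.hX hP.hY hn hLx hrel
      obtain ⟨r, hr⟩ := hLb (N1 + N2)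
      obtain ⟨ξ, hξ⟩ := hLx (N2 + N3)
      have a1 : AS (tm π.1) (B : Eis) p q p' q' r = AV (some π) B b p q p' q' :=
        h1 r ((pow_dvd_pow π.1 (by omega)).trans hr)
      have a2 := h2 r ξ ((pow_dvd_pow _ (by omega)).trans hr)
        ((pow_dvd_pow _ (by omega)).trans hξ) (B : Eis) hBe
      obtain ⟨hF, a3⟩ := h3 ξ ((pow_dvd_pow _ (by omega)).trans hξ)
      rw [LEV.lc_right hs hLCI hb0 hLb (hF 1), LEV.lc_right hs hLCI hb0 hLb (hF 2)] at a3
      have a4 := LEV.lc_right hs hLCI hb0 hLb LEV.w_ne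
      have a5 := LEV.lc_right hs hLCI hx0 hLx LEV.w_ne
      rw [hTT]
      unfold UV
      rw [hwprod, a3, a4, a5, ← a1]
      linear_combination a2
    · -- `b` is a cube, `x` is not
      obtain ⟨N1, h1⟩ := hF2B π B b x p q p' q' hB hb hx hS hLb hLx
      have a1 := hA.2 _ N1 h1
      have a4 := LEV.lc_right hs hLCI hb0 hLb LEV.w_ne
      have a2 : SV (tm π.1) x p q p' q' X Y = 0 := by
        by_cases hVx : 3 ∣ V π.1 (x : Eis)
        · refine hF7U π b x p q p' q' X Y hb0 hx0 hS hP.hX hP.hY hVx fun h => hLx ?_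
          exact (hLCI.1 π x hx0).2 ⟨hVx, h⟩
        · have h6 := hF6R π b x p q p' q' X Y hb0 hx0 hS hP.hX hP.hY hVx
          by_cases hVn : 3 ∣ V π.1 ((X ^ 3 + x * Y ^ 3 : ℤ) : Eis)
          · exact h6.1 hVn
          · rw [h6.2 hVn, a4, neg_zero]
      rw [hTT, a1, a2]
      unfold UV
      rw [hwprod, a4]
      ring
  · have hTT : TT (some π) B b x p q p' q' =
        if 3 ∣ V π.1 (b : Eis) + V π.1 (B : Eis) ∧ ¬ 3 ∣ V π.1 (b : Eis)
          then - tm π.1 w (x : Eis) else 0 := by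
      unfold TT
      exact if_neg hLb
    by_cases hLx : LC π.1 x
    · -- `x` is a cube, `b` is not
      have a5 := LEV.lc_right hs hLCI hx0 hLx LEV.w_ne
      have hTT0 : TT (some π) B b x p q p' q' = 0 := by
        rw [hTT]
        split_ifs with hcond
        · rw [a5, neg_zero]
        · rfl
      obtain ⟨N1, h1⟩ := hF2B π B x b p (-p') (-q) q' hB hx hb (LEV.swap hS) hLx hLb
      obtain ⟨N3, hN3, h3⟩ := LEV.SV_LC hs hLCI hIF4 hb0 hx0 hS hP.hX hP.hY hn hLx hrel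
      have hmain : ∃ N4 : ℕ, ∀ ξ : ℤ, π.1 ^ N4 ∣ (ξ : Eis) ^ 3 - (x : Eis) →
          (∀ i, Lf X Y i ξ ≠ 0) →
          tm π.1 (Lf X Y 1 ξ) (b : Eis) - tm π.1 (Lf X Y 2 ξ) (b : Eis) =
            tm π.1 w (b : Eis) := by
        by_cases hLB : LC π.1 B
        · have hB' := (hLCI.1 π B hB0).1 hLB
          have hVB : V π.1 (B : Eis) = 0 := by
            have := hB.cf π
            omega
          have hπB : ¬ π.1 ∣ (B : Eis) := V_eq_zero_iff.1 hVB
          have hπb := hb.unr π hπB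
          have hπx := hx.unr π hπB
          have hVb : V π.1 (b : Eis) = 0 := V_eq_zero hπb
          have hVw : V π.1 w = 0 := V_eq_zero (not_dvd_w π.2.1)
          have hVn : 3 ∣ V π.1 ((X ^ 3 + x * Y ^ 3 : ℤ) : Eis) := by
            have h7 := congrArg (V π.1) heq
            rw [V_mul π.2.1 hxe (LEV.cast_ne hn), V_mul π.2.1 hBe (pow_ne_zero 3 hc),
              V_pow π.2.1 hc, hVB, V_eq_zero hπx] at h7
            omega
          refine ⟨N3, fun ξ hξ hF => ?_⟩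
          have h8 := LEV.val_case π.2.1 (hSPP.2.2.2.1 π).1 hP.hX hP.hY hn hπx hN3 hξ hF hVn
          unfold tm
          rw [hVb, hVw, h8]
          push_cast
          ring
        · obtain ⟨j, hj⟩ := LEV.tame_prop (π := π.1) (b := b) (B := B)
            (fun h => hLB ((hLCI.1 π B hB0).2 h)) (hb.sym π)
          exact LEV.prop_case hs hLCI hIF4B hb0 hx0 hP.hX hP.hY hn hLx hrel j hj
      obtain ⟨N4, h4⟩ := hmain
      obtain ⟨ξ, hξ⟩ := hLx (N1 + N3 + N4)
      obtain ⟨hF, a3⟩ := h3 ξ ((pow_dvd_pow _ (by omega)).trans hξ)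
      have a1 := h1 ξ ((pow_dvd_pow _ (by omega)).trans hξ)
      have a6 := h4 ξ ((pow_dvd_pow _ (by omega)).trans hξ) hF
      rw [LEV.gf_swap, LEV.gf_swap] at a1
      rw [hTT0, a3]
      unfold UV
      rw [hwprod, a5]
      linear_combination a1 + a6
    · -- no cubes
      have hLb' : ¬ (3 ∣ V π.1 (b : Eis) ∧ ch π.1 (b : Eis) = 0) :=
        fun h => hLb ((hLCI.1 π b hb0).2 h)
      have hLx' : ¬ (3 ∣ V π.1 (x : Eis) ∧ ch π.1 (x : Eis) = 0) :=
        fun h => hLx ((hLCI.1 π x hx0).2 h)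
      rw [hTT]
      by_cases hπB : π.1 ∣ (B : Eis)
      · have hVB1 : V π.1 (B : Eis) ≠ 0 := fun h => (V_eq_zero_iff.1 h) hπB
        have hVB2 := hB.cf π
        have hVb := LEVG.nd hVB1 hVB2 (hb.sym π) hLb'
        have hVx := LEVG.nd hVB1 hVB2 (hx.sym π) hLx'
        rw [hF3R π B b x p q p' q' hB hb hx hS hπB hVb hVx]
        have h6 := hF6R π b x p q p' q' X Y hb0 hx0 hS hP.hX hP.hY hVx
        have h7 := congrArg (V π.1) heq
        rw [V_mul π.2.1 hxe (LEV.cast_ne hn), V_mul π.2.1 hBe (pow_ne_zero 3 hc),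
          V_pow π.2.1 hc] at h7
        have hSV : SV (tm π.1) x p q p' q' X Y =
            if 3 ∣ V π.1 (x : Eis) + V π.1 (B : Eis) then - tm π.1 w (b : Eis) else 0 := by
          split_ifs with hcond
          · exact h6.2 (by omega)
          · refine h6.1 ?_
            have c1 : V π.1 (x : Eis) % 3 = 1 ∨ V π.1 (x : Eis) % 3 = 2 := by omega
            have c2 : V π.1 (B : Eis) = 1 ∨ V π.1 (B : Eis) = 2 := by omega
            rcases c1 with c1 | c1 <;> rcases c2 with c2 | c2 <;> omega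
        rw [hSV]
        by_cases hcond : 3 ∣ V π.1 (b : Eis) + V π.1 (B : Eis)
        · rw [if_pos ⟨hcond, hVb⟩, if_pos hcond]
          ring
        · rw [if_neg (fun h => hcond h.1), if_neg hcond]
          ring
      · have hπb := hb.unr π hπB
        have hπx := hx.unr π hπB
        have hVb : V π.1 (b : Eis) = 0 := V_eq_zero hπb
        have hVx : V π.1 (x : Eis) = 0 := V_eq_zero hπx
        have hcb : ch π.1 (b : Eis) ≠ 0 := fun h => hLb' ⟨by rw [hVb]; exact dvd_zero _, h⟩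
        have hcx : ch π.1 (x : Eis) ≠ 0 := fun h => hLx' ⟨by rw [hVx]; exact dvd_zero _, h⟩
        rw [hF3U π B b x p q p' q' hB hb hx hS hπB hcb hcx,
          hF7U π b x p q p' q' X Y hb0 hx0 hS hP.hX hP.hY (by rw [hVx]; exact dvd_zero _) hcx,
          if_neg (fun h => h.2 (by rw [hVb]; exact dvd_zero _))]
        ring

end Pool.Agent.PT3
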