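import Pool.Agent.PT3.Stmts
import Pool.Agent.PT.LFIN

/-!
# Prime twists of rank zero, `n` divisible by `3`: finiteness of the supports
-/

set_option autoImplicit false

open NumberField IsDedekindDomain Finset
open scoped nonZeroDivisors Pointwise

namespace Pool.Agent.PT3

open Pool.Agent.Lib_helper18 Pool.Agent.Lib_helper18.Eis Pool.Agent.Lib_helper84.Cub
open Pool.Agent.PT Pool.Agent.PTE

open Pool.Agent.PT.LFIN in
/-- LFIG: finiteness of the supports. -/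
theorem LFIG_thm (hSTM : STM) (hSPP : SPP) (_hSSL : SSL) (_hSLC : SLC) (_hSCJ : SCJ)
    (_hLCI : LCI) (hAVV : AVV) : LFIG := by
  intro B b x p q p' q' hB hb hx hs
  have hn2 : p' ^ 3 + b * q' ^ 3 ≠ 0 := by
    intro h
    apply hs.n1
    rw [hs.eq, h, mul_zero]
  set M : ℤ := B * b * x * (p ^ 3 + b * q ^ 3) * (p' ^ 3 + b * q' ^ 3) with hMdef
  have hM : M ≠ 0 := mul_ne_zero (mul_ne_zero (mul_ne_zero (mul_ne_zero hB.ne hb.ne) hx.ne)
    hs.n1) hn2
  have hfin := hSPP.2.2.1 (M : Eis) (cast_ne hM)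
  refine ((hfin.image some).union (Set.finite_singleton none)).subset ?_
  intro v hv
  rcases v with _ | π
  · right
    rfl
  · left
    refine ⟨π, ?_, rfl⟩
    by_contra hnd
    apply hv
    have hd : ∀ n : ℤ, n ∣ M → ¬ π.1 ∣ ((n : ℤ) : Eis) := by
      intro n hn h1
      apply hnd
      obtain ⟨c, hc⟩ := hn
      show π.1 ∣ (M : Eis)
      rw [hc]
      push_cast
      exact dvd_mul_of_dvd_left h1 _
    have hnB := hd B ⟨b * x * (p ^ 3 + b * q ^ 3) * (p' ^ 3 + b * q' ^ 3), by rw [hMdef]; ring⟩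
    have hnb := hd b ⟨B * x * (p ^ 3 + b * q ^ 3) * (p' ^ 3 + b * q' ^ 3), by rw [hMdef]; ring⟩
    have hnx := hd x ⟨B * b * (p ^ 3 + b * q ^ 3) * (p' ^ 3 + b * q' ^ 3), by rw [hMdef]; ring⟩
    have hn1 := hd (p ^ 3 + b * q ^ 3) ⟨B * b * x * (p' ^ 3 + b * q' ^ 3), by rw [hMdef]; ring⟩
    have hn2 := hd (p' ^ 3 + b * q' ^ 3) ⟨B * b * x * (p ^ 3 + b * q ^ 3), by rw [hMdef]; ring⟩
    have hnw : ¬ π.1 ∣ w := fun h1 => π.2.1.not_isUnit (isUnit_of_dvd_unit h1 w_unit)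
    show TT (some π) B b x p q p' q' = 0
    by_cases hLC : LC (uni (some π)) b
    · have hTT : TT (some π) B b x p q p' q' =
          AV (some π) B b p q p' q' + sy (some π) w (x : Eis) := by
        unfold TT
        rw [if_pos hLC]
      rw [hTT]
      have hw : sy (some π) w (x : Eis) = 0 := tm_zero hnw hnx
      have hsym : sy (some π) (B : Eis) (x : Eis) = 0 := by
        have h1 := (hSTM π.1 π.2.1 (hSPP.2.2.2.1 π).1).skew (x : Eis) (B : Eis)
          (cast_ne hx.ne) (cast_ne hB.ne)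
        show tm π.1 (B : Eis) (x : Eis) = 0
        rw [h1, hx.sym π, neg_zero]
      obtain ⟨N0, hN0⟩ := (hAVV (some π) B b x p q p' q' hB.ne hb.ne hx.ne hs hsym hLC).1
      obtain ⟨r, hr⟩ := hLC (max N0 1)
      have hr0 : uni (some π) ^ N0 ∣ (r : Eis) ^ 3 - (b : Eis) :=
        (pow_dvd_pow _ (le_max_left _ _)).trans hr
      have hr1 : π.1 ∣ (r : Eis) ^ 3 - (b : Eis) := by
        have h1 : π.1 ^ 1 ∣ (r : Eis) ^ 3 - (b : Eis) :=
          (pow_dvd_pow π.1 (le_max_right N0 1)).trans hr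
        rwa [pow_one] at h1
      rw [hw, ← hN0 r hr0]
      show tm π.1 (B : Eis) (Lf p q 2 r) + tm π.1 (B : Eis) (Lf p' q' 1 r) -
        tm π.1 (B : Eis) (Lf p q 1 r) - tm π.1 (B : Eis) (Lf p' q' 2 r) + 0 = 0
      rw [tm_zero hnB (Lf_not_dvd hr1 hn1 2), tm_zero hnB (Lf_not_dvd hr1 hn2 1),
        tm_zero hnB (Lf_not_dvd hr1 hn1 1), tm_zero hnB (Lf_not_dvd hr1 hn2 2)]
      simp
    · unfold TT
      rw [if_neg hLC]
      show (if 3 ∣ V π.1 (b : Eis) + V π.1 (B : Eis) ∧ ¬ 3 ∣ V π.1 (b : Eis)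
        then - tm π.1 w (x : Eis) else 0) = 0
      rw [if_neg]
      rintro ⟨-, h1⟩
      apply h1
      rw [V_eq_zero hnb]
      exact dvd_zero 3

end Pool.Agent.PT3
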