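import Pool.Agent.PT3.Stmts
import Pool.Agent.PT.DCONST

/-!
# LL1: the linear forms of a point when `x` is a local cube
-/

open NumberField IsDedekindDomain Finset
open scoped nonZeroDivisors Pointwise

namespace Pool.Agent.PT3

open Pool.Agent.Lib_helper18 Pool.Agent.Lib_helper18.Eis Pool.Agent.Lib_helper84.Cub
open Pool.Agent.PT Pool.Agent.PTE

namespace LL1

/-! ### Integers -/

/-- the power of `3` -/
theorem exists_unit {n : ℤ} (hn : n ≠ 0) :
    ∃ m : ℤ, n = 3 ^ padicValInt 3 n * m ∧ ¬ (3 : ℤ) ∣ m := by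
  have : Fact (Nat.Prime 3) := ⟨Nat.prime_three⟩
  obtain ⟨m, hm⟩ : ((3 : ℕ) : ℤ) ^ padicValInt 3 n ∣ n := padicValInt_dvd n
  have hm' : n = 3 ^ padicValInt 3 n * m := hm
  refine ⟨m, hm', ?_⟩
  rintro ⟨k, hk⟩
  have h1 : ((3 : ℕ) : ℤ) ^ (padicValInt 3 n + 1) ∣ n := by
    refine ⟨k, ?_⟩
    have h3 : n = 3 ^ padicValInt 3 n * (3 * k) := by rw [← hk]; exact hm'
    have h4 : ((3 : ℕ) : ℤ) ^ (padicValInt 3 n + 1) * k = 3 ^ padicValInt 3 n * (3 * k) := by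
      rw [pow_succ]
      push_cast
      ring
    exact h3.trans h4.symm
  rcases (padicValInt_dvd_iff (p := 3) (padicValInt 3 n + 1) n).1 h1 with h2 | h2
  · exact hn h2
  · omega

theorem pow_three_cong (a : ℤ) : (3 : ℤ) ∣ a ^ 3 - a := by
  have h : a % 3 = 0 ∨ a % 3 = 1 ∨ a % 3 = 2 := by omega
  obtain ⟨k, hk⟩ : ∃ k, a = 3 * k + a % 3 := ⟨a / 3, by omega⟩
  rcases h with h | h | h
  · rw [h] at hk
    exact ⟨9 * k ^ 3 - k, by rw [hk]; ring⟩
  · rw [h] at hk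
    exact ⟨9 * k ^ 3 + 9 * k ^ 2 + 2 * k, by rw [hk]; ring⟩
  · rw [h] at hk
    exact ⟨9 * k ^ 3 + 18 * k ^ 2 + 11 * k + 2, by rw [hk]; ring⟩

theorem ndvd_mul {a b : ℤ} (ha : ¬ (3 : ℤ) ∣ a) (hb : ¬ (3 : ℤ) ∣ b) : ¬ (3 : ℤ) ∣ a * b := by
  intro h
  rcases Int.prime_three.dvd_or_dvd h with h | h
  · exact ha h
  · exact hb h

/-- the main computation with integers -/
theorem int_part (N : ℕ) : ∀ (X c : ℤ), X.natAbs ≤ N → X ≠ 0 → ∀ (v : ℕ) (m : ℤ),
    X ^ 3 + c ^ 3 = 3 ^ v * m → ¬ (3 : ℤ) ∣ m → v % 3 = 1 →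
    ∃ (a : ℕ) (X1 c1 : ℤ), X = 3 ^ a * X1 ∧ c = 3 ^ a * c1 ∧ ¬ (3 : ℤ) ∣ X1 ∧
      (27 : ℤ) ∣ X1 + c1 := by
  induction N with
  | zero =>
    intro X c hN hX
    exact absurd (Int.natAbs_eq_zero.1 (Nat.le_zero.1 hN)) hX
  | succ N ih =>
    intro X c hN hX v m h hm hv
    obtain ⟨v', rfl⟩ : ∃ v', v = v' + 1 := ⟨v - 1, by omega⟩
    have h3 : (3 : ℤ) ∣ X ^ 3 + c ^ 3 := by
      rw [h, pow_succ]
      exact ⟨3 ^ v' * m, by ring⟩
    have hX3 := pow_three_cong X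
    have hc3 := pow_three_cong c
    have hs : (3 : ℤ) ∣ X + c := by omega
    by_cases hX0 : (3 : ℤ) ∣ X
    · have hc0 : (3 : ℤ) ∣ c := by omega
      obtain ⟨X', rfl⟩ := hX0
      obtain ⟨c', rfl⟩ := hc0
      have hX' : X' ≠ 0 := by
        rintro rfl
        exact hX (mul_zero _)
      have hN' : X'.natAbs ≤ N := by
        rw [Int.natAbs_mul] at hN
        have h1 : 0 < X'.natAbs := Int.natAbs_pos.2 hX'
        have h2 : (3 : ℤ).natAbs = 3 := rfl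
        rw [h2] at hN
        omega
      have hv3 : 3 ≤ v' := by
        by_contra hlt
        have hv0 : v' = 0 := by omega
        subst hv0
        apply hm
        refine ⟨3 * (X' ^ 3 + c' ^ 3), ?_⟩
        have h4 : (3 : ℤ) * m = 3 * (3 * (3 * (X' ^ 3 + c' ^ 3))) := by
          rw [zero_add, pow_one] at h
          linear_combination -h
        exact mul_left_cancel₀ three_ne_zero h4
      obtain ⟨u, rfl⟩ : ∃ u, v' = u + 3 := ⟨v' - 3, by omega⟩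
      have h5 : X' ^ 3 + c' ^ 3 = 3 ^ (u + 1) * m := by
        have h6 : (27 : ℤ) * (X' ^ 3 + c' ^ 3) = 27 * (3 ^ (u + 1) * m) := by
          have h7 : (3 : ℤ) ^ (u + 3 + 1) = 27 * 3 ^ (u + 1) := by
            rw [show u + 3 + 1 = (u + 1) + 3 by ring, pow_add]
            norm_num
            ring
          rw [h7] at h
          linear_combination h
        exact mul_left_cancel₀ (by norm_num) h6
      obtain ⟨a, X1, c1, e1, e2, e3, e4⟩ := ih X' c' hN' hX' (u + 1) m h5 hm (by omega)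
      refine ⟨a + 1, X1, c1, ?_, ?_, e3, e4⟩
      · rw [e1, pow_succ]
        ring
      · rw [e2, pow_succ]
        ring
    · have hc0 : ¬ (3 : ℤ) ∣ c := by omega
      obtain ⟨s', hs'⟩ := hs
      set u : ℤ := 3 * s' ^ 2 - X * c with hu
      have hu3 : ¬ (3 : ℤ) ∣ u := by
        intro h1
        apply ndvd_mul hX0 hc0
        have h2 : X * c = 3 * s' ^ 2 - u := by rw [hu]; ring
        rw [h2]
        exact dvd_sub (dvd_mul_right _ _) h1
      have hfac : X ^ 3 + c ^ 3 = 9 * (s' * u) := by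
        have h1 : X ^ 3 + c ^ 3 = (X + c) * ((X + c) ^ 2 - 3 * (X * c)) := by ring
        rw [h1, hs', hu]
        ring
      have hv1 : 3 ≤ v' := by
        by_contra hlt
        have hv0 : v' = 0 := by omega
        subst hv0
        apply hm
        refine ⟨s' * u, ?_⟩
        have h4 : (3 : ℤ) * m = 3 * (3 * (s' * u)) := by
          rw [zero_add, pow_one] at h
          linear_combination hfac - h
        exact mul_left_cancel₀ three_ne_zero h4
      obtain ⟨t, rfl⟩ : ∃ t, v' = t + 3 := ⟨v' - 3, by omega⟩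
      have h9 : (9 : ℤ) ∣ s' * u := by
        refine ⟨3 ^ t * m, ?_⟩
        have h6 : (9 : ℤ) * (s' * u) = 9 * (9 * (3 ^ t * m)) := by
          have h7 : (3 : ℤ) ^ (t + 3 + 1) = 81 * 3 ^ t := by
            rw [show t + 3 + 1 = t + 4 by ring, pow_add]
            norm_num
            ring
          rw [h7] at h
          linear_combination h - hfac
        exact mul_left_cancel₀ (by norm_num) h6
      have hcop : IsCoprime (9 : ℤ) u := by
        have h1 : IsCoprime (3 : ℤ) u := (Int.prime_three.coprime_iff_not_dvd).2 hu3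
        have h2 := h1.pow_left (m := 2)
        norm_num at h2
        exact h2
      have h9' : (9 : ℤ) ∣ s' := hcop.dvd_of_dvd_mul_right h9
      refine ⟨0, X, c, by ring, by ring, hX0, ?_⟩
      obtain ⟨r, hr⟩ := h9'
      exact ⟨r, by rw [hs', hr]; ring⟩

/-! ### Eisenstein integers -/

theorem lam_sq : lam ^ 2 = 3 * (-w) := by decide

theorem twentyseven : (27 : Eis) = lam ^ 5 * (-lam) := by decide

/-- powers of `lam` and of `3` -/
theorem int_dvd {M : ℕ} {n : ℤ} (h : lam ^ (2 * M) ∣ (n : Eis)) : (3 : ℤ) ^ M ∣ n := by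
  rw [pow_mul, lam_sq, mul_pow] at h
  have h1 : ((3 ^ M : ℤ) : Eis) ∣ (n : Eis) := by
    have h2 : ((3 ^ M : ℤ) : Eis) ∣ 3 ^ M * (-w) ^ M := ⟨(-w) ^ M, by push_cast; ring⟩
    exact h2.trans h
  exact intCast_dvd_intCast.1 h1

theorem lam_dvd_int {n : ℤ} (h : lam ∣ (n : Eis)) : (3 : ℤ) ∣ n := by
  rw [lam_dvd_iff] at h
  simpa using h

theorem ndvd1 {X : ℤ} (hX : ¬ (3 : ℤ) ∣ X) : ¬ lam ^ (1 + 1) ∣ lam * (X : Eis) := by
  intro h
  rw [pow_succ, pow_one] at h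
  exact hX (lam_dvd_int ((mul_dvd_mul_iff_left prime_lam.ne_zero).1 h))

theorem one_sub_w2 : 1 - w ^ 2 = (-1) * (w * (w * lam)) := by decide

theorem ndvd2 {X : ℤ} (hX : ¬ (3 : ℤ) ∣ X) : ¬ lam ^ (1 + 1) ∣ (1 - w ^ 2) * (X : Eis) := by
  intro h
  apply ndvd1 hX
  have h1 : lam * (X : Eis) = ((1 - w ^ 2) * (X : Eis)) * (-w) := by
    rw [one_sub_w2]
    linear_combination (-lam * (X : Eis)) * w_cube
  rw [h1]
  exact dvd_mul_of_dvd_left h _

/-- continuity -/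
theorem near (hSLC : SLC) {X c : ℤ} {i : ℕ} (b : Eis) (hb : b ≠ 0)
    (hn : ¬ lam ^ (1 + 1) ∣ (1 - w ^ i) * (X : Eis)) (h : (27 : ℤ) ∣ X + c) :
    (X : Eis) + w ^ i * (c : Eis) ≠ 0 ∧
    sl ((X : Eis) + w ^ i * (c : Eis)) b = sl ((1 - w ^ i) * (X : Eis)) b := by
  have hV := DCONST.V_le_of_ndvd prime_lam hn
  obtain ⟨k, hk⟩ := h
  have hk' : (X : Eis) + (c : Eis) = 27 * (k : Eis) := by exact_mod_cast congrArg (Int.cast : ℤ → Eis) hk
  have e : ((X : Eis) + w ^ i * (c : Eis)) - (1 - w ^ i) * (X : Eis) =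
      lam ^ 5 * (-lam * (w ^ i * (k : Eis))) := by
    have e1 : ((X : Eis) + w ^ i * (c : Eis)) - (1 - w ^ i) * (X : Eis) =
      w ^ i * ((X : Eis) + (c : Eis)) := by ring
    rw [e1, hk', twentyseven]
    ring
  have h0 := DCONST.ne_of_ndvd hn
  refine ⟨?_, ?_⟩
  · intro hz
    apply hn
    rw [hz, zero_sub] at e
    have e2 : (1 - w ^ i) * (X : Eis) = lam ^ (1 + 1) * (lam ^ 3 * (lam * (w ^ i * (k : Eis)))) := by
      linear_combination -e
    exact ⟨_, e2⟩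
  · refine LSym.cont hSLC _ _ b h0 hb ?_
    have h5 : lam ^ (V lam ((1 - w ^ i) * (X : Eis)) + 4) ∣ lam ^ 5 := pow_dvd_pow _ (by omega)
    refine h5.trans ?_
    rw [e]
    exact dvd_mul_right _ _

end LL1

open LL1 in
theorem LL1_thm (hSLC : SLC) (_ : SSL) (hSCJ : SCJ) (_ : LCL) : LL1 := by
  intro x X Y b hx hb hX hY hn0 hlv
  obtain ⟨m, hm, hm3⟩ := exists_unit hn0
  have hv : padicValInt 3 (X ^ 3 + x * Y ^ 3) % 3 = 1 := by
    have h1 : ((padicValInt 3 (X ^ 3 + x * Y ^ 3) : ℕ) : ZMod 3) = ((1 : ℕ) : ZMod 3) := by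
      rw [Nat.cast_one]
      exact hlv
    rw [ZMod.natCast_eq_natCast_iff'] at h1
    simpa using h1
  set v := padicValInt 3 (X ^ 3 + x * Y ^ 3) with hvd
  refine ⟨2 * (v + 1), fun ξ hξ => ?_⟩
  have h1 : lam ^ (2 * (v + 1)) ∣ ((ξ ^ 3 - x : ℤ) : Eis) := by
    push_cast
    exact hξ
  obtain ⟨k, hk⟩ := int_dvd h1
  have h2 : X ^ 3 + (ξ * Y) ^ 3 = 3 ^ v * (m + 3 * (k * Y ^ 3)) := by
    have h3 : X ^ 3 + (ξ * Y) ^ 3 = (X ^ 3 + x * Y ^ 3) + (ξ ^ 3 - x) * Y ^ 3 := by ring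
    rw [h3, hm, hk, pow_succ]
    ring
  have hm3' : ¬ (3 : ℤ) ∣ m + 3 * (k * Y ^ 3) := by omega
  obtain ⟨a, X1, c1, e1, e2, e3, e4⟩ := int_part X.natAbs X (ξ * Y) le_rfl hX v _ h2 hm3' hv
  have hb' : (b : Eis) ≠ 0 := DCONST.cast_ne hb
  obtain ⟨z1, s1⟩ := near hSLC (i := 1) (b : Eis) hb' (by
    rw [pow_one, ← lam_eq]
    exact ndvd1 e3) e4
  obtain ⟨z2, s2⟩ := near hSLC (i := 2) (b : Eis) hb' (ndvd2 e3) e4
  have hp : ((3 : Eis) ^ a) ≠ 0 := by
    have h3 : ((3 ^ a : ℤ) : Eis) ≠ 0 := DCONST.cast_ne (pow_ne_zero a (by norm_num))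
    push_cast at h3
    exact h3
  have hX1 : (X1 : Eis) ≠ 0 := by
    apply DCONST.cast_ne
    rintro rfl
    exact e3 (dvd_zero _)
  have hL : ∀ i : ℕ, Lf X Y i ξ = (3 : Eis) ^ a * ((X1 : Eis) + w ^ i * (c1 : Eis)) := by
    intro i
    have h5 : (X : Eis) = (3 : Eis) ^ a * (X1 : Eis) := by
      rw [e1]
      push_cast
      ring
    have h6 : (ξ : Eis) * (Y : Eis) = (3 : Eis) ^ a * (c1 : Eis) := by
      have := congrArg (Int.cast : ℤ → Eis) e2
      push_cast at this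
      exact this
    unfold Lf
    linear_combination h5 + w ^ i * h6
  have hw : (w : Eis) ≠ 0 := by decide
  have hl : lam ≠ 0 := prime_lam.ne_zero
  have hn1 : (-1 : Eis) ≠ 0 := by decide
  have hs1 : sl ((-1 : Eis)) (b : Eis) = 0 := by
    have h7 := hSCJ.2.2.1 (-1) b (by norm_num) hb
    have h8 : ((-1 : ℤ) : Eis) = -1 := by push_cast; rfl
    rwa [h8] at h7
  have hM := hSLC.mul
  rw [hL 1, hL 2, hM _ _ _ hp z1 hb', hM _ _ _ hp z2 hb', s1, s2, pow_one, ← lam_eq, one_sub_w2,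
    hM _ _ _ hl hX1 hb',
    hM _ _ _ (mul_ne_zero hn1 (mul_ne_zero hw (mul_ne_zero hw hl))) hX1 hb',
    hM _ _ _ hn1 (mul_ne_zero hw (mul_ne_zero hw hl)) hb',
    hM _ _ _ hw (mul_ne_zero hw hl) hb', hM _ _ _ hw hl hb', hs1]
  generalize sl w (b : Eis) = t
  generalize sl lam (b : Eis) = t'
  generalize sl (X1 : Eis) (b : Eis) = t''
  generalize sl ((3 : Eis) ^ a) (b : Eis) = t'''
  have h3 : (3 : ZMod 3) = 0 := by decide
  linear_combination (-t) * h3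

end Pool.Agent.PT3
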