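import Pool.Agent.PT3.Stmts
import Pool.Agent.PT.SLE

/-!
# Prime twists of rank zero, `n` divisible by `3`: the numerical form of LE1 (module LN1)
-/

namespace Pool.Agent.PT3

open Pool.Agent.Lib_helper18 Pool.Agent.Lib_helper18.Eis Pool.Agent.Lib_helper84.Cub
open Pool.Agent.PT Pool.Agent.PTE

namespace LN1

theorem z3 {x : ℤ} : (x : ZMod 3) = 0 ↔ (3 : ℤ) ∣ x := by
  have := ZMod.intCast_zmod_eq_zero_iff_dvd x 3
  exact_mod_cast this

theorem three0 : (3 : ZMod 3) = 0 := rfl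

theorem sq1 {x : ℤ} (h : ¬ (3 : ℤ) ∣ x) : (x : ZMod 3) ^ 2 = 1 := by
  have h1 : (x : ZMod 3) ≠ 0 := fun h0 => h (z3.mp h0)
  generalize (x : ZMod 3) = y at h1 ⊢
  revert y
  decide

theorem cu (y : ZMod 3) : y ^ 3 = y := by
  revert y
  decide

/-- class of a unit -/
theorem lwG (hL : LCL) {β c k N : ℤ} (hβ : ¬ (3 : ℤ) ∣ β) (hc : ¬ (3 : ℤ) ∣ c)
    (h9 : (9 : ℤ) ∣ N - β * c ^ 3 * (1 + 3 * k)) :
    ¬ (3 : ℤ) ∣ N ∧ lv N = 0 ∧ lw N = lw β - k := by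
  obtain ⟨t, ht⟩ := h9
  have hN' : N = β * c ^ 3 * (1 + 3 * k) + 9 * t := by linarith
  have hN : ¬ (3 : ℤ) ∣ N := by
    intro h
    have h1 : (3 : ℤ) ∣ β * c ^ 3 := by
      have e : β * c ^ 3 = N - 3 * (β * c ^ 3 * k + 3 * t) := by rw [hN']; ring
      rw [e]
      exact dvd_sub h ⟨_, rfl⟩
    rcases Int.prime_three.dvd_or_dvd h1 with h1 | h1
    · exact hβ h1
    · exact hc (Int.prime_three.dvd_of_dvd_pow h1)
  have b1 : β ^ 2 % 3 = 1 := sq_mod_three hβ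
  have c1 : c ^ 2 % 3 = 1 := sq_mod_three hc
  obtain ⟨a, ha⟩ : ∃ a, β ^ 2 = 1 + 3 * a := ⟨β ^ 2 / 3, by omega⟩
  obtain ⟨j, hj⟩ : ∃ j, c ^ 2 = 1 + 3 * j := ⟨c ^ 2 / 3, by omega⟩
  refine ⟨hN, (hL.2.2.2.1 N hN).1, ?_⟩
  have hc6 : c ^ 6 = 1 + 9 * (j + 3 * j ^ 2 + 3 * j ^ 3) := by
    rw [show c ^ 6 = (c ^ 2) ^ 3 by ring, hj]
    ring
  have e2 : N ^ 2 = β ^ 2 * c ^ 6 * (1 + 3 * k) ^ 2 + 18 * t * (β * c ^ 3 * (1 + 3 * k)) +
      81 * t ^ 2 := by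
    rw [hN']
    ring
  have e3 : N ^ 2 = 1 + 3 * (a + 2 * k + 3 * (2 * a * k +
      (1 + 3 * a) * (k ^ 2 + (j + 3 * j ^ 2 + 3 * j ^ 3) * (1 + 3 * k) ^ 2) +
      2 * t * (β * c ^ 3 * (1 + 3 * k)) + 9 * t ^ 2)) := by
    rw [e2, ha, hc6]
    ring
  rw [(hL.2.2.2.1 N hN).2, (hL.2.2.2.1 β hβ).2, wt_eq ha, wt_eq e3]
  generalize (2 * a * k + (1 + 3 * a) * (k ^ 2 + (j + 3 * j ^ 2 + 3 * j ^ 3) * (1 + 3 * k) ^ 2) +
      2 * t * (β * c ^ 3 * (1 + 3 * k)) + 9 * t ^ 2) = K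
  push_cast
  linear_combination ((k : ZMod 3) + K) * three0

theorem l1 (hL : LCL) : lv 1 = 0 ∧ lw 1 = 0 := by
  have h := hL.2.1 1 1 one_ne_zero one_ne_zero
  rw [mul_one] at h
  exact ⟨SLE.self_add h.1, SLE.self_add h.2⟩

/-- class of a unit -/
theorem lwU (hL : LCL) {c k N : ℤ} (hc : ¬ (3 : ℤ) ∣ c)
    (h9 : (9 : ℤ) ∣ N - c ^ 3 * (1 + 3 * k)) :
    ¬ (3 : ℤ) ∣ N ∧ lv N = 0 ∧ lw N = - k := by
  have h := lwG hL (β := 1) (c := c) (k := k) (N := N) (by norm_num) hc (by rwa [one_mul])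
  rw [(l1 hL).2, zero_sub] at h
  exact h

/-- decomposition of an integer -/
theorem dec (hL : LCL) {N : ℤ} (hN : N ≠ 0) :
    ∃ (v : ℕ) (M : ℤ), N = 3 ^ v * M ∧ ¬ (3 : ℤ) ∣ M ∧ lv N = v ∧ lw N = wt (M ^ 2) := by
  have key : ∀ n : ℕ, ∀ N : ℤ, N ≠ 0 → N.natAbs = n →
      ∃ (v : ℕ) (M : ℤ), N = 3 ^ v * M ∧ ¬ (3 : ℤ) ∣ M ∧ lv N = v ∧ lw N = wt (M ^ 2) := by
    intro n
    induction n using Nat.strong_induction_on with
    | _ n ih =>
      intro N hN hn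
      by_cases h : (3 : ℤ) ∣ N
      · obtain ⟨N1, rfl⟩ := h
        have h1 : N1 ≠ 0 := by
          rintro rfl
          exact hN (by ring)
        have h2 : N1.natAbs < n := by
          omega
        obtain ⟨v, M, e, hM, hv, hw⟩ := ih _ h2 N1 h1 rfl
        have h3 := hL.2.1 3 N1 (by norm_num) h1
        refine ⟨v + 1, M, ?_, hM, ?_, ?_⟩
        · rw [e]
          ring
        · rw [h3.1, hL.2.2.1.1, hv]
          push_cast
          ring
        · rw [h3.2, hL.2.2.1.2, hw, zero_add]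
      · refine ⟨0, N, ?_, h, ?_, ?_⟩
        · rw [pow_zero, one_mul]
        · rw [(hL.2.2.2.1 N h).1]
          simp
        · rw [(hL.2.2.2.1 N h).2]
  exact key _ N hN rfl

/-- first case of the symbol -/
theorem slA (hS : SLE) (hL : LCL) {g h k N : ℤ} (hN : N ≠ 0) (hg : ¬ (3 : ℤ) ∣ g)
    (hh : h = 3 * k) : sl ((g : Eis) + (h : Eis) * w) (N : Eis) = lv N * (g * k) := by
  obtain ⟨v, M, e, hM, hv, hw⟩ := dec hL hN
  have h1 := (hS g h M v hM).1 hg (by rw [hh]; exact ⟨k, rfl⟩)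
  rw [← e] at h1
  rw [h1, hv]
  have e2 : h / 3 = k := by omega
  rw [e2]
  push_cast
  ring

/-- second case of the symbol -/
theorem slB (hS : SLE) (hL : LCL) {g h k N : ℤ} (hN : N ≠ 0) (hg : g = 3 * k)
    (hh : ¬ (3 : ℤ) ∣ h) :
    sl ((g : Eis) + (h : Eis) * w) (N : Eis) = - lw N - lv N * (h * k) := by
  obtain ⟨v, M, e, hM, hv, hw⟩ := dec hL hN
  have h1 := (hS g h M v hM).2.1 (by rw [hg]; exact ⟨k, rfl⟩) hh
  rw [← e] at h1
  rw [h1, hv, hw]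
  have e2 : g / 3 = k := by omega
  rw [e2]
  push_cast
  ring

/-- third case of the symbol -/
theorem slC (hS : SLE) (hL : LCL) {g h k N : ℤ} (hN : N ≠ 0) (hh : ¬ (3 : ℤ) ∣ h)
    (hg : g - h = 3 * k) :
    sl ((g : Eis) + (h : Eis) * w) (N : Eis) = lw N - lv N * (h * k) := by
  obtain ⟨v, M, e, hM, hv, hw⟩ := dec hL hN
  have h1 := (hS g h M v hM).2.2 hh (by rw [hg]; exact ⟨k, rfl⟩)
  rw [← e] at h1
  rw [h1, hv, hw]
  have e2 : (g - h) / 3 = k := by omega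
  rw [e2]
  push_cast
  ring

/-- the symbol of `lam` -/
theorem slLam (hSSL : SSL) (hSREC : SREC) (hL : LCL) {N : ℤ} (hN : N ≠ 0) :
    sl lam (N : Eis) = lw N := by
  obtain ⟨v, M, e, hM, hv, hw⟩ := dec hL hN
  have hM0 : M ≠ 0 := fun h => hM (h ▸ dvd_zero 3)
  have hp : Prim (M : Eis) := ⟨by simp, by simpa using hM⟩
  have h1 : sl lam ((3 ^ v * M : ℤ) : Eis) = v * sl lam 3 + sl lam (M : Eis) :=
    SLE.splitR hSSL SLE.lam_ne hM0 v
  have h2 : sl lam 3 = 0 := by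
    rw [SLE.threeR hSSL SLE.lam_ne, SLE.self hSSL SLE.lam_ne,
      SLE.skew hSSL SLE.w_ne SLE.lam_ne, hSREC.2.2.2]
    ring
  have h3 : sl lam (M : Eis) = wt (M ^ 2) := by
    rw [SLE.skew hSSL (SLE.int_ne hM0) SLE.lam_ne, hSREC.2.2.1 _ hp, intCast_re]
    linear_combination (- wt (M ^ 2)) * three0
  rw [e, h1, h2, h3, ← e, hw]
  ring

/-- fourth case of the symbol -/
theorem slD (hS : SLE) (hSSL : SSL) (hSREC : SREC) (hL : LCL) {g h k N : ℤ} (hN : N ≠ 0)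
    (hg : ¬ (3 : ℤ) ∣ g) (hk : g + h = 3 * k) (hv : lv N = 0) :
    sl ((g : Eis) + (h : Eis) * w) (N : Eis) = lw N * (1 - k * g) := by
  have e : (g : Eis) + (h : Eis) * w = lam * (((g - k : ℤ) : Eis) + (k : Eis) * w) := by
    have hh : h = 3 * k - g := by linarith
    ext
    · simp
    · simp only [add_im, mul_im, intCast_re, intCast_im, w_re, w_im, lam_re, lam_im, add_re,
        mul_re, hh]
      ring
  have hd : ((g - k : ℤ) : Eis) + (k : Eis) * w ≠ 0 := by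
    intro h0
    have h1 := congrArg Eis.re h0
    have h2 := congrArg Eis.im h0
    simp at h1 h2
    apply hg
    have : g = 0 := by omega
    rw [this]
    exact dvd_zero 3
  rw [e, SLE.mulL hSSL SLE.lam_ne hd (SLE.int_ne hN), slLam hSSL hSREC hL hN]
  by_cases h1 : (3 : ℤ) ∣ k
  · have hk0 : (k : ZMod 3) = 0 := z3.mpr h1
    obtain ⟨m, hm⟩ := h1
    rw [slA hS hL (k := m) hN (by omega) hm, hv, hk0]
    ring
  · by_cases h2 : (3 : ℤ) ∣ g - k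
    · obtain ⟨m, hm⟩ := h2
      rw [slB hS hL (k := m) hN hm h1, hv]
      have e1 : (g : ZMod 3) = k := by
        have : ((g - k : ℤ) : ZMod 3) = 0 := z3.mpr ⟨m, hm⟩
        push_cast at this
        linear_combination this
      rw [e1]
      linear_combination (lw N) * sq1 h1
    · have h3 : (3 : ℤ) ∣ (g - k) - k := by
        have a1 : g % 3 = 1 ∨ g % 3 = 2 := by omega
        have a2 : k % 3 = 1 ∨ k % 3 = 2 := by omega
        omega
      obtain ⟨m, hm⟩ := h3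
      rw [slC hS hL (k := m) hN h1 hm, hv]
      have e1 : (g : ZMod 3) = - k := by
        have : ((g - k - k : ℤ) : ZMod 3) = 0 := z3.mpr ⟨m, hm⟩
        push_cast at this
        linear_combination this + k * three0
      rw [e1]
      linear_combination (- lw N) * sq1 h1

/-- the symbol of a local cube -/
theorem slZ (hSSL : SSL) (hL : LCL) {c : Eis} {N : ℤ} (hc : c ≠ 0) (hN : N ≠ 0) (h1 : lv N = 0)
    (h2 : lw N = 0) : sl c (N : Eis) = 0 := by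
  have h := hL.2.2.2.2.2.1 N 1 c hN one_ne_zero hc (by rw [h1, (l1 hL).1]) (by rw [h2, (l1 hL).2])
  rw [h, Int.cast_one, SLE.oneR hSSL hc]

/-- third case of the symbol, `lv N = 0` -/
theorem slE (hS : SLE) (hSSL : SSL) (hL : LCL) {g h N : ℤ} (hN : N ≠ 0)
    (hg : (g : ZMod 3) = h) (hh : h ≠ 0) (h1 : lv N = 0) (h2 : (3 : ℤ) ∣ h → lw N = 0) :
    sl ((g : Eis) + (h : Eis) * w) (N : Eis) = lw N := by
  by_cases h3 : (3 : ℤ) ∣ h
  · rw [h2 h3]
    refine slZ hSSL hL ?_ hN h1 (h2 h3)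
    intro h0
    have h4 := congrArg Eis.im h0
    simp at h4
    exact hh h4
  · obtain ⟨m, hm⟩ : (3 : ℤ) ∣ g - h := by
      apply z3.mp
      push_cast
      rw [hg]
      ring
    rw [slC hS hL hN h3 hm, h1]
    ring

theorem nine {x y : ℤ} (h : x = 3 * y) (hy : (y : ZMod 3) = 0) : (9 : ℤ) ∣ x := by
  obtain ⟨z, hz⟩ := z3.mp hy
  exact ⟨z, by rw [h, hz]; ring⟩

/-- class of `p^3 + b q^3`, `p` prime to `3` -/
theorem clU (hL : LCL) {β p q F : ℤ} (hp : ¬ (3 : ℤ) ∣ p) (hF : F = p ^ 3 + 3 * β * q ^ 3) :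
    ¬ (3 : ℤ) ∣ F ∧ lv F = 0 ∧ lw F = - (β * p * q) := by
  have h := lwU hL (c := p) (k := β * p * q) (N := F) hp
    (nine (y := β * (q ^ 3 - p ^ 4 * q)) (by rw [hF]; ring) (by
      push_cast
      linear_combination (β : ZMod 3) * cu (q : ZMod 3) -
        (β : ZMod 3) * q * ((p : ZMod 3) ^ 2 + 1) * sq1 hp))
  refine ⟨h.1, h.2.1, ?_⟩
  rw [h.2.2]
  push_cast
  ring

theorem three_mul (hL : LCL) {N : ℤ} (hN : ¬ (3 : ℤ) ∣ N) :
    lv (3 * N) = 1 ∧ lw (3 * N) = lw N := by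
  have h0 : N ≠ 0 := fun h => hN (h ▸ dvd_zero 3)
  have h3 := hL.2.1 3 N (by norm_num) h0
  rw [h3.1, h3.2, hL.2.2.1.1, hL.2.2.1.2, (hL.2.2.2.1 N hN).1]
  exact ⟨by ring, by ring⟩

/-- class of `p^3 + b q^3`, `3 ∣ p` -/
theorem clT (hL : LCL) {β ρ q : ℤ} (hβ : ¬ (3 : ℤ) ∣ β) (hq : ¬ (3 : ℤ) ∣ q) :
    ¬ (3 : ℤ) ∣ β * q ^ 3 + 9 * ρ ^ 3 ∧ lv (3 * (β * q ^ 3 + 9 * ρ ^ 3)) = 1 ∧
      lw (3 * (β * q ^ 3 + 9 * ρ ^ 3)) = lw β := by
  have h := lwG hL (β := β) (c := q) (k := 0) (N := β * q ^ 3 + 9 * ρ ^ 3) hβ hq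
    ⟨ρ ^ 3, by ring⟩
  have h3 := three_mul hL h.1
  refine ⟨h.1, h3.1, ?_⟩
  rw [h3.2, h.2.2]
  simp

/-- class of a product -/
theorem cl5 (hL : LCL) {b W F H : ℤ} (hb : b ≠ 0) (hW : W ≠ 0) (hF : F ≠ 0) (hH : H ≠ 0) :
    (b * W * F * H * b ≠ 0 ∧ lv (b * W * F * H * b) = 2 * lv b + lv W + lv F + lv H ∧
      lw (b * W * F * H * b) = 2 * lw b + lw W + lw F + lw H) ∧
    (b * W * F * H * b ^ 2 ≠ 0 ∧ lv (b * W * F * H * b ^ 2) = lv W + lv F + lv H ∧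
      lw (b * W * F * H * b ^ 2) = lw W + lw F + lw H) := by
  have n1 : b * W ≠ 0 := mul_ne_zero hb hW
  have n2 : b * W * F ≠ 0 := mul_ne_zero n1 hF
  have n3 : b * W * F * H ≠ 0 := mul_ne_zero n2 hH
  have n4 : b * b ≠ 0 := mul_ne_zero hb hb
  have a1 := hL.2.1 b W hb hW
  have a2 := hL.2.1 (b * W) F n1 hF
  have a3 := hL.2.1 (b * W * F) H n2 hH
  have a4 := hL.2.1 (b * W * F * H) b n3 hb
  have a5 := hL.2.1 b b hb hb
  have a6 := hL.2.1 (b * W * F * H) (b * b) n3 n4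
  refine ⟨⟨mul_ne_zero n3 hb, ?_, ?_⟩, ?_, ?_, ?_⟩
  · rw [a4.1, a3.1, a2.1, a1.1]
    ring
  · rw [a4.2, a3.2, a2.2, a1.2]
    ring
  · rw [pow_two]
    exact mul_ne_zero n3 n4
  · rw [pow_two, a6.1, a5.1, a3.1, a2.1, a1.1]
    linear_combination (lv b) * three0
  · rw [pow_two, a6.2, a5.2, a3.2, a2.2, a1.2]
    linear_combination (lw b) * three0

/-- `3` divides `p` -/
theorem case10 (hS : SLE) (hSSL : SSL) (hL : LCL)
    {b β ρ p q p' q' X Y F H M W : ℤ} (hb : b = 3 * β) (hβ : ¬ (3 : ℤ) ∣ β) (hp : p = 3 * ρ)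
    (hq : ¬ (3 : ℤ) ∣ q) (hp' : ¬ (3 : ℤ) ∣ p') (hXY : ¬ ((3 : ℤ) ∣ X ∧ (3 : ℤ) ∣ Y))
    (hY0 : Y ≠ 0)
    (hF : F = p ^ 3 + b * q ^ 3) (hH : H = p' ^ 3 + b * q' ^ 3) (hM : M = H * X ^ 3 + F * Y ^ 3)
    (hW : W = p ^ 3 * q' ^ 3 - q ^ 3 * p' ^ 3) (hF0 : F ≠ 0) (hH0 : H ≠ 0) (hW0 : W ≠ 0)
    (e1 : lv F + lv H + lv M = 1) (e2 : lw F + lw H + lw M = lw b) :
    sl ((X * q' : ℤ) + (q * Y : ℤ) * w) ((b * W * F * H * b : ℤ) : Eis) -
      sl ((X * p' : ℤ) + (p * Y : ℤ) * w) ((b * W * F * H * b ^ 2 : ℤ) : Eis) =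
    sl ((q * p' : ℤ) - (p * q' : ℤ) * w) (b : Eis) + lw b - lw F + lw H := by
  have hb0 : b ≠ 0 := by
    rw [hb]
    intro h
    exact hβ (by
      have : β = 0 := by omega
      rw [this]
      exact dvd_zero 3)
  have bv : lv b = 1 := by rw [hb]; exact (three_mul hL hβ).1
  have bw : lw b = lw β := by rw [hb]; exact (three_mul hL hβ).2
  have F1 : F = 3 * (β * q ^ 3 + 9 * ρ ^ 3) := by rw [hF, hb, hp]; ring
  obtain ⟨Fu, Fv, Fw⟩ := clT hL (ρ := ρ) hβ hq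
  rw [← F1] at Fv Fw
  obtain ⟨Hu, Hv, Hw⟩ := clU hL (β := β) (q := q') (F := H) hp' (by rw [hH, hb])
  have hc : ¬ (3 : ℤ) ∣ -(q * p') := by
    rw [dvd_neg]
    intro h
    rcases Int.prime_three.dvd_or_dvd h with h | h
    · exact hq h
    · exact hp' h
  obtain ⟨Wu, Wv, Ww⟩ := lwU hL (c := -(q * p')) (k := 0) (N := W) hc
    ⟨3 * ρ ^ 3 * q' ^ 3, by rw [hW, hp]; ring⟩
  rw [Int.cast_zero, neg_zero] at Ww
  have hX : ¬ (3 : ℤ) ∣ X := by
    rintro ⟨X1, hX1⟩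
    have hY : ¬ (3 : ℤ) ∣ Y := fun h => hXY ⟨⟨X1, hX1⟩, h⟩
    have M1 : M = 3 * ((β * q ^ 3 + 9 * ρ ^ 3) * Y ^ 3 + 9 * (H * X1 ^ 3)) := by
      rw [hM, F1, hX1]
      ring
    have h1 : ¬ (3 : ℤ) ∣ (β * q ^ 3 + 9 * ρ ^ 3) * Y ^ 3 + 9 * (H * X1 ^ 3) := by
      intro h
      have h2 : (3 : ℤ) ∣ (β * q ^ 3 + 9 * ρ ^ 3) * Y ^ 3 := by
        have e : (β * q ^ 3 + 9 * ρ ^ 3) * Y ^ 3 =
          ((β * q ^ 3 + 9 * ρ ^ 3) * Y ^ 3 + 9 * (H * X1 ^ 3)) - 3 * (3 * (H * X1 ^ 3)) := by ring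
        rw [e]
        exact dvd_sub h ⟨_, rfl⟩
      rcases Int.prime_three.dvd_or_dvd h2 with h2 | h2
      · exact Fu h2
      · exact hY (Int.prime_three.dvd_of_dvd_pow h2)
    rw [M1, (three_mul hL h1).1, Fv, Hv] at e1
    exact absurd e1 (by decide)
  have hcX : ¬ (3 : ℤ) ∣ p' * X := by
    intro h
    rcases Int.prime_three.dvd_or_dvd h with h | h
    · exact hp' h
    · exact hX h
  have sX := sq1 hX
  have sp' := sq1 hp'
  have sβ := sq1 hβ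
  have sq := sq1 hq
  obtain ⟨Mu, Mv, Mw⟩ := lwU hL (c := p' * X) (k := β * (p' * X) * (q' * X + q * Y)) (N := M) hcX
    (nine (y := β * ((q' * X) ^ 3 + (q * Y) ^ 3) + 9 * (ρ ^ 3 * Y ^ 3) -
      β * (p' * X) ^ 4 * (q' * X + q * Y)) (by rw [hM, hF, hH, hb, hp]; ring) (by
        push_cast
        have e5 : ((p' : ZMod 3) * X) ^ 4 = 1 := by
          linear_combination ((X : ZMod 3) ^ 4 * ((p' : ZMod 3) ^ 2 + 1)) * sp' +
            ((X : ZMod 3) ^ 2 + 1) * sX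
        rw [e5, cu, cu]
        linear_combination (3 * ((ρ : ZMod 3) ^ 3 * (Y : ZMod 3) ^ 3)) * three0))
  push_cast at Mw
  rw [Fw, Hw, Mw, bw] at e2
  have r1 : (q' : ZMod 3) = X * (q * Y) := by
    linear_combination ((β : ZMod 3) * p') * e2 + ((q' : ZMod 3) + X * (q' * X + q * Y)) *
      ((p' : ZMod 3) ^ 2) * sβ + ((q' : ZMod 3) + X * (q' * X + q * Y)) * sp' + (q' : ZMod 3) * sX
      + (q' : ZMod 3) * three0
  have r : ((X * q' : ℤ) : ZMod 3) = ((q * Y : ℤ) : ZMod 3) := by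
    push_cast
    linear_combination (X : ZMod 3) * r1 + (q : ZMod 3) * Y * sX
  have r2 : (X : ZMod 3) * Y = q * q' := by
    linear_combination (-(q : ZMod 3)) * r1 - (X : ZMod 3) * Y * sq
  obtain ⟨⟨n1, v1, w1⟩, n2, v2, w2⟩ := cl5 hL hb0 hW0 hF0 hH0
  rw [bv, Wv, Fv, Hv] at v1
  rw [bw, Ww, Fw] at w1
  rw [Wv, Fv, Hv] at v2
  have v1' : lv (b * W * F * H * b) = 0 := by
    rw [v1]
    decide
  have w1' : lw (b * W * F * H * b) = lw H := by
    rw [w1]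
    linear_combination (lw β) * three0
  have S1 : sl ((X * q' : ℤ) + (q * Y : ℤ) * w) ((b * W * F * H * b : ℤ) : Eis) =
      lw (b * W * F * H * b) := by
    have hq0 : q ≠ 0 := fun h => hq (h ▸ dvd_zero 3)
    refine slE hS hSSL hL n1 r (mul_ne_zero hq0 hY0) v1' ?_
    intro h
    have h4 : (q' : ZMod 3) = 0 := by
      have h5 := z3.mpr h
      push_cast at h5
      rw [r1, h5, mul_zero]
    rw [w1', Hw, h4, mul_zero, neg_zero]
  have hgp : ¬ (3 : ℤ) ∣ X * p' := by rwa [mul_comm]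
  have S2 := slA hS hL (g := X * p') (h := p * Y) (k := ρ * Y) n2 hgp (by rw [hp]; ring)
  have hgq : ¬ (3 : ℤ) ∣ q * p' := by rwa [dvd_neg] at hc
  have S3 := slA hS hL (g := q * p') (h := -(p * q')) (k := -(ρ * q')) hb0 hgq (by rw [hp]; ring)
  have e3 : ((q * p' : ℤ) : Eis) - ((p * q' : ℤ) : Eis) * w =
      ((q * p' : ℤ) : Eis) + ((-(p * q') : ℤ) : Eis) * w := by
    push_cast
    ring
  rw [e3, S1, S2, S3, w1', v2, bv, bw, Fw]
  push_cast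
  linear_combination (-(p' : ZMod 3) * ρ) * r2

/-- `3` divides `p'` -/
theorem case01 (hS : SLE) (hSSL : SSL) (hL : LCL)
    {b β ρ p q p' q' X Y F H M W : ℤ} (hb : b = 3 * β) (hβ : ¬ (3 : ℤ) ∣ β) (hp : ¬ (3 : ℤ) ∣ p)
    (hp' : p' = 3 * ρ) (hq' : ¬ (3 : ℤ) ∣ q') (hXY : ¬ ((3 : ℤ) ∣ X ∧ (3 : ℤ) ∣ Y))
    (hX0 : X ≠ 0) (hY0 : Y ≠ 0)
    (hF : F = p ^ 3 + b * q ^ 3) (hH : H = p' ^ 3 + b * q' ^ 3) (hM : M = H * X ^ 3 + F * Y ^ 3)
    (hW : W = p ^ 3 * q' ^ 3 - q ^ 3 * p' ^ 3) (hF0 : F ≠ 0) (hH0 : H ≠ 0) (hW0 : W ≠ 0)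
    (e1 : lv F + lv H + lv M = 1) (e2 : lw F + lw H + lw M = lw b) :
    sl ((X * q' : ℤ) + (q * Y : ℤ) * w) ((b * W * F * H * b : ℤ) : Eis) -
      sl ((X * p' : ℤ) + (p * Y : ℤ) * w) ((b * W * F * H * b ^ 2 : ℤ) : Eis) =
    sl ((q * p' : ℤ) - (p * q' : ℤ) * w) (b : Eis) + lw b - lw F + lw H := by
  have hb0 : b ≠ 0 := by
    rw [hb]
    intro h
    exact hβ (by
      have : β = 0 := by omega
      rw [this]
      exact dvd_zero 3)
  have bv : lv b = 1 := by rw [hb]; exact (three_mul hL hβ).1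
  have bw : lw b = lw β := by rw [hb]; exact (three_mul hL hβ).2
  have H1 : H = 3 * (β * q' ^ 3 + 9 * ρ ^ 3) := by rw [hH, hb, hp']; ring
  obtain ⟨Hu, Hv, Hw⟩ := clT hL (ρ := ρ) hβ hq'
  rw [← H1] at Hv Hw
  obtain ⟨Fu, Fv, Fw⟩ := clU hL (β := β) (q := q) (F := F) hp (by rw [hF, hb])
  have hc : ¬ (3 : ℤ) ∣ p * q' := by
    intro h
    rcases Int.prime_three.dvd_or_dvd h with h | h
    · exact hp h
    · exact hq' h
  obtain ⟨Wu, Wv, Ww⟩ := lwU hL (c := p * q') (k := 0) (N := W) hc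
    ⟨-(3 * ρ ^ 3 * q ^ 3), by rw [hW, hp']; ring⟩
  rw [Int.cast_zero, neg_zero] at Ww
  have hY : ¬ (3 : ℤ) ∣ Y := by
    rintro ⟨Y1, hY1⟩
    have hX : ¬ (3 : ℤ) ∣ X := fun h => hXY ⟨h, ⟨Y1, hY1⟩⟩
    have M1 : M = 3 * ((β * q' ^ 3 + 9 * ρ ^ 3) * X ^ 3 + 9 * (F * Y1 ^ 3)) := by
      rw [hM, H1, hY1]
      ring
    have h1 : ¬ (3 : ℤ) ∣ (β * q' ^ 3 + 9 * ρ ^ 3) * X ^ 3 + 9 * (F * Y1 ^ 3) := by
      intro h
      have h2 : (3 : ℤ) ∣ (β * q' ^ 3 + 9 * ρ ^ 3) * X ^ 3 := by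
        have e : (β * q' ^ 3 + 9 * ρ ^ 3) * X ^ 3 =
          ((β * q' ^ 3 + 9 * ρ ^ 3) * X ^ 3 + 9 * (F * Y1 ^ 3)) - 3 * (3 * (F * Y1 ^ 3)) := by ring
        rw [e]
        exact dvd_sub h ⟨_, rfl⟩
      rcases Int.prime_three.dvd_or_dvd h2 with h2 | h2
      · exact Hu h2
      · exact hX (Int.prime_three.dvd_of_dvd_pow h2)
    rw [M1, (three_mul hL h1).1, Fv, Hv] at e1
    exact absurd e1 (by decide)
  have hcY : ¬ (3 : ℤ) ∣ p * Y := by
    intro h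
    rcases Int.prime_three.dvd_or_dvd h with h | h
    · exact hp h
    · exact hY h
  have sY := sq1 hY
  have sp := sq1 hp
  have sβ := sq1 hβ
  have sq' := sq1 hq'
  obtain ⟨Mu, Mv, Mw⟩ := lwU hL (c := p * Y) (k := β * (p * Y) * (q' * X + q * Y)) (N := M) hcY
    (nine (y := β * ((q' * X) ^ 3 + (q * Y) ^ 3) + 9 * (ρ ^ 3 * X ^ 3) -
      β * (p * Y) ^ 4 * (q' * X + q * Y)) (by rw [hM, hF, hH, hb, hp']; ring) (by
        push_cast
        have e5 : ((p : ZMod 3) * Y) ^ 4 = 1 := by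
          linear_combination ((Y : ZMod 3) ^ 4 * ((p : ZMod 3) ^ 2 + 1)) * sp +
            ((Y : ZMod 3) ^ 2 + 1) * sY
        rw [e5, cu, cu]
        linear_combination (3 * ((ρ : ZMod 3) ^ 3 * (X : ZMod 3) ^ 3)) * three0))
  push_cast at Mw
  rw [Fw, Hw, Mw, bw] at e2
  have r1 : (q : ZMod 3) = Y * (q' * X) := by
    linear_combination ((β : ZMod 3) * p) * e2 + ((q : ZMod 3) + Y * (q' * X + q * Y)) *
      ((p : ZMod 3) ^ 2) * sβ + ((q : ZMod 3) + Y * (q' * X + q * Y)) * sp + (q : ZMod 3) * sY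
      + (q : ZMod 3) * three0
  have r : ((X * q' : ℤ) : ZMod 3) = ((q * Y : ℤ) : ZMod 3) := by
    push_cast
    linear_combination (-(Y : ZMod 3)) * r1 - (q' : ZMod 3) * X * sY
  have r2 : (X : ZMod 3) * Y = q * q' := by
    linear_combination (-(q' : ZMod 3)) * r1 - (X : ZMod 3) * Y * sq'
  obtain ⟨⟨n1, v1, w1⟩, n2, v2, w2⟩ := cl5 hL hb0 hW0 hF0 hH0
  rw [bv, Wv, Fv, Hv] at v1
  rw [bw, Ww, Hw] at w1
  rw [Wv, Fv, Hv] at v2
  have v1' : lv (b * W * F * H * b) = 0 := by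
    rw [v1]
    decide
  have w1' : lw (b * W * F * H * b) = lw F := by
    rw [w1]
    linear_combination (lw β) * three0
  have S1 : sl ((X * q' : ℤ) + (q * Y : ℤ) * w) ((b * W * F * H * b : ℤ) : Eis) =
      lw (b * W * F * H * b) := by
    by_cases hq : (3 : ℤ) ∣ q
    · have h4 : (q : ZMod 3) = 0 := z3.mpr hq
      have h5 : lw (b * W * F * H * b) = 0 := by
        rw [w1', Fw, h4, mul_zero, neg_zero]
      rw [h5]
      refine slZ hSSL hL ?_ n1 v1' h5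
      intro h0
      have h6 := congrArg Eis.re h0
      simp at h6
      rcases h6 with h6 | h6
      · exact hX0 h6
      · exact hq' (h6 ▸ dvd_zero 3)
    · have hq0 : q ≠ 0 := fun h => hq (h ▸ dvd_zero 3)
      refine slE hS hSSL hL n1 r (mul_ne_zero hq0 hY0) v1' ?_
      intro h
      exfalso
      rcases Int.prime_three.dvd_or_dvd h with h | h
      · exact hq h
      · exact hY h
  have S2 := slB hS hL (g := X * p') (h := p * Y) (k := X * ρ) n2 (by rw [hp']; ring) hcY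
  have hgq : ¬ (3 : ℤ) ∣ -(p * q') := by rwa [dvd_neg]
  have S3 := slB hS hL (g := q * p') (h := -(p * q')) (k := q * ρ) hb0 (by rw [hp']; ring) hgq
  have e3 : ((q * p' : ℤ) : Eis) - ((p * q' : ℤ) : Eis) * w =
      ((q * p' : ℤ) : Eis) + ((-(p * q') : ℤ) : Eis) * w := by
    push_cast
    ring
  rw [e3, S1, S2, S3, w1', v2, w2, bv, bw, Hw, Ww]
  push_cast
  linear_combination ((p : ZMod 3) * ρ) * r2 + (lw F) * three0

/-- `p` and `p'` are prime to `3` -/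
theorem case00 (hS : SLE) (hSSL : SSL) (hSREC : SREC) (hL : LCL)
    {b β p q p' q' X Y F H M W : ℤ} (hb : b = 3 * β) (hβ : ¬ (3 : ℤ) ∣ β) (hp : ¬ (3 : ℤ) ∣ p)
    (hp' : ¬ (3 : ℤ) ∣ p') (hXY : ¬ ((3 : ℤ) ∣ X ∧ (3 : ℤ) ∣ Y))
    (hF : F = p ^ 3 + b * q ^ 3) (hH : H = p' ^ 3 + b * q' ^ 3) (hM : M = H * X ^ 3 + F * Y ^ 3)
    (hW : W = p ^ 3 * q' ^ 3 - q ^ 3 * p' ^ 3) (hF0 : F ≠ 0) (hH0 : H ≠ 0) (hW0 : W ≠ 0)
    (e1 : lv F + lv H + lv M = 1) (e2 : lw F + lw H + lw M = lw b)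
    (e0 : ¬ (lv F = lv H ∧ lw F = lw H)) :
    sl ((X * q' : ℤ) + (q * Y : ℤ) * w) ((b * W * F * H * b : ℤ) : Eis) -
      sl ((X * p' : ℤ) + (p * Y : ℤ) * w) ((b * W * F * H * b ^ 2 : ℤ) : Eis) =
    sl ((q * p' : ℤ) - (p * q' : ℤ) * w) (b : Eis) + lw b - lw F + lw H := by
  have hb0 : b ≠ 0 := by
    rw [hb]
    intro h
    exact hβ (by
      have : β = 0 := by omega
      rw [this]
      exact dvd_zero 3)
  have bv : lv b = 1 := by rw [hb]; exact (three_mul hL hβ).1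
  have bw : lw b = lw β := by rw [hb]; exact (three_mul hL hβ).2
  obtain ⟨Fu, Fv, Fw⟩ := clU hL (β := β) (q := q) (F := F) hp (by rw [hF, hb])
  obtain ⟨Hu, Hv, Hw⟩ := clU hL (β := β) (q := q') (F := H) hp' (by rw [hH, hb])
  have sp := sq1 hp
  have sp' := sq1 hp'
  have sβ := sq1 hβ
  have hne : (p : ZMod 3) * q ≠ p' * q' := by
    intro h
    apply e0
    rw [Fv, Hv, Fw, Hw]
    exact ⟨rfl, by linear_combination (-(β : ZMod 3)) * h⟩
  have hc : ¬ (3 : ℤ) ∣ p * q' - q * p' := by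
    intro h
    have h1 := z3.mpr h
    push_cast at h1
    apply hne
    linear_combination (-(p : ZMod 3) * p') * h1 + (p' : ZMod 3) * q' * sp -
      (p : ZMod 3) * q * sp'
  obtain ⟨Wu, Wv, Ww⟩ := lwU hL (c := p * q' - q * p') (k := (p * q') * (q * p')) (N := W) hc
    (nine (y := (p * q') * (q * p') * ((p * q' - q * p') - (p * q' - q * p') ^ 3))
      (by rw [hW]; ring) (by
        push_cast
        rw [cu]
        ring))
  push_cast at Ww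
  -- `3` divides `M`
  have hMc : (M : ZMod 3) = p' * X + p * Y := by
    rw [hM, hH, hF, hb]
    push_cast
    have a1 := cu (p' : ZMod 3)
    have a2 := cu (p : ZMod 3)
    have a3 := cu (X : ZMod 3)
    have a4 := cu (Y : ZMod 3)
    rw [a1, a2, a3, a4]
    linear_combination ((β : ZMod 3) * (q' : ZMod 3) ^ 3 * X + (β : ZMod 3) * (q : ZMod 3) ^ 3 * Y)
      * three0
  have hM3 : (3 : ℤ) ∣ M := by
    by_contra h
    rw [(hL.2.2.2.1 M h).1, Fv, Hv] at e1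
    exact absurd e1 (by decide)
  have eM := z3.mpr hM3
  rw [hMc] at eM
  have hX : ¬ (3 : ℤ) ∣ X := by
    intro h
    apply hXY
    refine ⟨h, z3.mp ?_⟩
    have h1 := z3.mpr h
    linear_combination (p : ZMod 3) * eM - (Y : ZMod 3) * sp - (p : ZMod 3) * p' * h1
  have hY : ¬ (3 : ℤ) ∣ Y := by
    intro h
    apply hXY
    refine ⟨z3.mp ?_, h⟩
    have h1 := z3.mpr h
    linear_combination (p' : ZMod 3) * eM - (X : ZMod 3) * sp' - (p : ZMod 3) * p' * h1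
  have sX := sq1 hX
  have sY := sq1 hY
  obtain ⟨k, hk⟩ : (3 : ℤ) ∣ p' * X + p * Y := z3.mp (by push_cast; exact eM)
  have hε : ¬ (3 : ℤ) ∣ q' * X + q * Y := by
    intro h
    have h1 := z3.mpr h
    push_cast at h1
    apply hne
    -- q' X + q Y = 0, p' X = - p Y
    linear_combination (-(p' : ZMod 3) * X) * h1 + (p' : ZMod 3) * q' * sX +
      (q : ZMod 3) * Y * eM - (p : ZMod 3) * q * sY
  obtain ⟨Mu, Mv, Mw⟩ := lwG hL (β := β) (c := q' * X + q * Y)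
    (k := k * β * (q' * X + q * Y) - (q' * X) * (q * Y))
    (N := 9 * k ^ 3 - 3 * k * (p' * X) * (p * Y) + β * ((q' * X) ^ 3 + (q * Y) ^ 3)) hβ hε
    (nine (y := β * (q' * X) * (q * Y) * ((q' * X + q * Y) ^ 3 - (q' * X + q * Y)) -
      k * (β ^ 2 * (q' * X + q * Y) ^ 4 + (p' * X) * (p * Y)) + 3 * k ^ 3) (by ring) (by
        push_cast
        have s1 := sq1 hε
        push_cast at s1
        have s4 : ((q' : ZMod 3) * X + q * Y) ^ 4 = 1 := by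
          linear_combination (((q' : ZMod 3) * X + q * Y) ^ 2 + 1) * s1
        have s5 : (p' : ZMod 3) * X * (p * Y) = -1 := by
          linear_combination (p' : ZMod 3) * X * eM - (X : ZMod 3) ^ 2 * sp' - sX
        rw [s4, s5, cu, sβ]
        linear_combination (k : ZMod 3) ^ 3 * three0))
  have M1 : M = 3 * (9 * k ^ 3 - 3 * k * (p' * X) * (p * Y) +
      β * ((q' * X) ^ 3 + (q * Y) ^ 3)) := by
    rw [hM, hH, hF, hb]
    linear_combination ((p' * X + p * Y) ^ 2 + (p' * X + p * Y) * (3 * k) + 9 * k ^ 2 -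
      3 * (p' * X) * (p * Y)) * hk
  have Mw' : lw M = lw β - (k * β * (q' * X + q * Y) - (q' * X) * (q * Y)) := by
    rw [M1, (three_mul hL Mu).2, Mw]
    push_cast
    ring
  rw [Fw, Hw, Mw', bw] at e2
  obtain ⟨⟨n1, v1, w1⟩, n2, v2, w2⟩ := cl5 hL hb0 hW0 hF0 hH0
  rw [bv, Wv, Fv, Hv] at v1
  rw [bw, Ww, Fw, Hw] at w1
  rw [Wv, Fv, Hv] at v2
  rw [Ww, Fw, Hw] at w2
  have v2' : lv (b * W * F * H * b ^ 2) = 0 := by
    rw [v2]
    decide
  have hgp : ¬ (3 : ℤ) ∣ X * p' := by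
    intro h
    rcases Int.prime_three.dvd_or_dvd h with h | h
    · exact hX h
    · exact hp' h
  have S2 := slD hS hSSL hSREC hL (g := X * p') (h := p * Y) (k := k) n2 hgp
    (by rw [← hk]; ring) v2'
  have e3 : ((q * p' : ℤ) : Eis) - ((p * q' : ℤ) : Eis) * w =
      ((q * p' : ℤ) : Eis) + ((-(p * q') : ℤ) : Eis) * w := by
    push_cast
    ring
  have rXY : (X : ZMod 3) * Y = - (p * p') := by
    linear_combination (p' : ZMod 3) * Y * eM - (X : ZMod 3) * Y * sp' - (p : ZMod 3) * p' * sY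
  by_cases hq : (3 : ℤ) ∣ q
  · -- first case
    have hq0 := z3.mpr hq
    have hq' : ¬ (3 : ℤ) ∣ q' := by
      intro h
      apply hne
      rw [hq0, z3.mpr h]
      ring
    have sq' := sq1 hq'
    obtain ⟨κ, hκ⟩ := hq
    have hg1 : ¬ (3 : ℤ) ∣ X * q' := by
      intro h
      rcases Int.prime_three.dvd_or_dvd h with h | h
      · exact hX h
      · exact hq' h
    have hh3 : ¬ (3 : ℤ) ∣ -(p * q') := by
      rw [dvd_neg]
      intro h
      rcases Int.prime_three.dvd_or_dvd h with h | h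
      · exact hp h
      · exact hq' h
    have S1 := slA hS hL (g := X * q') (h := q * Y) (k := κ * Y) n1 hg1 (by rw [hκ]; ring)
    have S3 := slB hS hL (g := q * p') (h := -(p * q')) (k := κ * p') hb0 (by rw [hκ]; ring) hh3
    rw [hq0] at e2
    have c1 : (k : ZMod 3) * (X * p') = -1 := by
      linear_combination (-(β : ZMod 3) * q' * p') * e2 -
        ((k : ZMod 3) * X * p' * (q' : ZMod 3) ^ 2 + (p' : ZMod 3) ^ 2 * (q' : ZMod 3) ^ 2) * sβ -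
        (q' : ZMod 3) ^ 2 * sp' - ((k : ZMod 3) * X * p' + 1) * sq'
    rw [e3, S1, S2, S3, v1, w2, bv, bw, Fw, Hw]
    push_cast
    rw [hq0]
    linear_combination (2 * (q' : ZMod 3) * κ) * rXY - ((β : ZMod 3) * p' * q') * c1 +
      ((β : ZMod 3) * p' * q' - (p : ZMod 3) * p' * q' * κ) * three0
  · have sq := sq1 hq
    have hqY : ¬ (3 : ℤ) ∣ q * Y := by
      intro h
      rcases Int.prime_three.dvd_or_dvd h with h | h
      · exact hq h
      · exact hY h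
    by_cases hq' : (3 : ℤ) ∣ q'
    · -- second case
      have hq0 := z3.mpr hq'
      obtain ⟨κ, hκ⟩ := hq'
      have hg3 : ¬ (3 : ℤ) ∣ q * p' := by
        intro h
        rcases Int.prime_three.dvd_or_dvd h with h | h
        · exact hq h
        · exact hp' h
      have S1 := slB hS hL (g := X * q') (h := q * Y) (k := X * κ) n1 (by rw [hκ]; ring) hqY
      have S3 := slA hS hL (g := q * p') (h := -(p * q')) (k := -(p * κ)) hb0 hg3
        (by rw [hκ]; ring)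
      rw [hq0] at e2
      have c1 : (k : ZMod 3) * (X * p') = 1 := by
        linear_combination (k : ZMod 3) * eM + ((β : ZMod 3) * q * p) * e2 +
          ((k : ZMod 3) * p * Y * (q : ZMod 3) ^ 2 + (p : ZMod 3) ^ 2 * (q : ZMod 3) ^ 2) * sβ +
          (q : ZMod 3) ^ 2 * sp + ((k : ZMod 3) * p * Y + 1) * sq
      rw [e3, S1, S2, S3, v1, w1, w2, bv, bw, Fw, Hw]
      push_cast
      rw [hq0]
      linear_combination (-2 * (q : ZMod 3) * κ) * rXY - ((β : ZMod 3) * p * q) * c1 +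
        ((p : ZMod 3) * p' * q * κ - lw β) * three0
    · -- third case
      have sq' := sq1 hq'
      have hpq : (p' : ZMod 3) * q' = - (p * q) := by
        have opp : ∀ x y : ZMod 3, x ^ 2 = 1 → y ^ 2 = 1 → x ≠ y → y = -x := by decide
        refine opp _ _ ?_ ?_ hne
        · linear_combination (q : ZMod 3) ^ 2 * sp + sq
        · linear_combination (q' : ZMod 3) ^ 2 * sp' + sq'
      have r : (X : ZMod 3) * q' = q * Y := by
        linear_combination (-(X : ZMod 3) * q') * sp' + ((p' : ZMod 3) * q') * eM -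
          ((p : ZMod 3) * Y) * hpq + ((q : ZMod 3) * Y) * sp
      obtain ⟨m, hm⟩ : (3 : ℤ) ∣ X * q' - q * Y := z3.mp (by push_cast; rw [r]; ring)
      obtain ⟨n, hn⟩ : (3 : ℤ) ∣ q * p' - -(p * q') := z3.mp (by
        push_cast
        linear_combination ((p : ZMod 3) * p') * hpq - ((q : ZMod 3) * p') * sp -
          ((p : ZMod 3) * q') * sp')
      have hh3 : ¬ (3 : ℤ) ∣ -(p * q') := by
        rw [dvd_neg]
        intro h
        rcases Int.prime_three.dvd_or_dvd h with h | h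
        · exact hp h
        · exact hq' h
      have S1 := slC hS hL (g := X * q') (h := q * Y) (k := m) n1 hqY hm
      have S3 := slC hS hL (g := q * p') (h := -(p * q')) (k := n) hb0 hh3 hn
      have E3 : 3 * (p' ^ 2 * (q * Y * m - p * q' * n) - n * (p * q') * (Y ^ 2 - p' ^ 2) +
          3 * n ^ 2 * Y ^ 2 - k * p' * q * q' * Y) = 0 := by
        linear_combination (-(p' ^ 2 * q * Y)) * hm + (-(q * p') * Y ^ 2 - 3 * n * Y ^ 2) * hn +
          (p' * q * q' * Y) * hk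
      have E1 := (mul_eq_zero.mp E3).resolve_left (by norm_num)
      have cE := congrArg (Int.cast : ℤ → ZMod 3) E1
      push_cast at cE
      have c0 : (k : ZMod 3) * β * (q * Y) = -1 := by
        linear_combination e2 + (β : ZMod 3) * hpq + ((k : ZMod 3) * β - q * Y) * r -
          (Y : ZMod 3) ^ 2 * sq - sY + ((k : ZMod 3) * β * q * Y) * three0
      have c1 : (k : ZMod 3) * (X * p') = β * p * q := by
        linear_combination ((β : ZMod 3) * q * Y * X * p') * c0 - ((β : ZMod 3) * q * p') * rXY +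
          ((β : ZMod 3) * p * q) * sp' - ((k : ZMod 3) * X * p') * ((q : ZMod 3) ^ 2 *
            (Y : ZMod 3) ^ 2) * sβ - ((k : ZMod 3) * X * p' * (Y : ZMod 3) ^ 2) * sq -
          ((k : ZMod 3) * X * p') * sY
      have key2 : (q : ZMod 3) * Y * m - p * q' * n = β * p * q := by
        linear_combination cE - ((q : ZMod 3) * Y * m - p * q' * n) * sp' +
          ((n : ZMod 3) * p * q') * (sY - sp') - ((n : ZMod 3) ^ 2 * (Y : ZMod 3) ^ 2) * three0 +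
          ((p' : ZMod 3) * q' * β) * c0 - ((p' : ZMod 3) * q' * k * q * Y) * sβ -
          (β : ZMod 3) * hpq
      rw [e3, S1, S2, S3, v1, w1, w2, bv, bw, Fw, Hw]
      push_cast
      linear_combination key2 + c1 + ((k : ZMod 3) * X * p') * (-((p : ZMod 3) * q + β)) * hpq +
        ((k : ZMod 3) * X * p' * (q : ZMod 3) ^ 2) * sp + ((k : ZMod 3) * X * p') * sq +
        (β : ZMod 3) * hpq - ((q : ZMod 3) * Y * m) * three0

end LN1

open LN1 in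
/-- LN1: the numerical form of LE1. -/
theorem LN1_thm (hSLE : SLE) (hSSL : SSL) (hSREC : SREC) (hSCJ : SCJ) (hSLC : SLC)
    (hLCL : LCL) : LN1 := by
  intro b p q p' q' X Y F H M hb3 hb9 hpq hpq' hXY hX0 hY0 hF hH hM hF0 hH0 hM0 hW0 e1 e2 e0
  obtain ⟨β, hb⟩ := hb3
  have hβ : ¬ (3 : ℤ) ∣ β := by
    rintro ⟨c, hc⟩
    exact hb9 ⟨c, by rw [hb, hc]; ring⟩
  by_cases hp : (3 : ℤ) ∣ p
  · have hq : ¬ (3 : ℤ) ∣ q := fun h => hpq ⟨hp, h⟩
    obtain ⟨ρ, hρ⟩ := hp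
    by_cases hp' : (3 : ℤ) ∣ p'
    · exfalso
      have hq' : ¬ (3 : ℤ) ∣ q' := fun h => hpq' ⟨hp', h⟩
      obtain ⟨ρ', hρ'⟩ := hp'
      have a1 := clT hLCL (ρ := ρ) hβ hq
      have a2 := clT hLCL (ρ := ρ') hβ hq'
      have F1 : F = 3 * (β * q ^ 3 + 9 * ρ ^ 3) := by rw [hF, hb, hρ]; ring
      have H1 : H = 3 * (β * q' ^ 3 + 9 * ρ' ^ 3) := by rw [hH, hb, hρ']; ring
      apply e0
      rw [F1, H1, a1.2.1, a1.2.2, a2.2.1, a2.2.2]
      exact ⟨rfl, rfl⟩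
    · exact case10 hSLE hSSL hLCL hb hβ hρ hq hp' hXY hY0 hF hH hM rfl hF0 hH0 hW0 e1 e2
  · by_cases hp' : (3 : ℤ) ∣ p'
    · have hq' : ¬ (3 : ℤ) ∣ q' := fun h => hpq' ⟨hp', h⟩
      obtain ⟨ρ', hρ'⟩ := hp'
      exact case01 hSLE hSSL hLCL hb hβ hp hρ' hq' hXY hX0 hY0 hF hH hM rfl hF0 hH0 hW0 e1 e2
    · exact case00 hSLE hSSL hSREC hLCL hb hβ hp hp' hXY hF hH hM rfl hF0 hH0 hW0 e1 e2 e0

end Pool.Agent.PT3
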