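import Pool.Agent.PT3.Stmts

/-!
# Module LPT: existence of local points
-/

set_option autoImplicit false

open NumberField IsDedekindDomain Finset
open scoped nonZeroDivisors Pointwise

namespace Pool.Agent.PT3

open Pool.Agent.Lib_helper18 Pool.Agent.Lib_helper18.Eis Pool.Agent.Lib_helper84.Cub
open Pool.Agent.PT Pool.Agent.PTE

namespace LPT

lemma wt_eq (m k : ℤ) (h : m = 1 + 3 * k) : wt m = (k : ZMod 3) := by
  unfold wt
  have h1 : (m - 1) / 3 = k := by omega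
  rw [h1]

lemma sq_form (x : ℤ) (hx : ¬ (3 : ℤ) ∣ x) : ∃ k : ℤ, x ^ 2 = 1 + 3 * k := by
  have h1 : x % 3 = 1 ∨ x % 3 = 2 := by omega
  have h2 := Int.emod_add_mul_ediv x 3
  rcases h1 with h1 | h1
  · refine ⟨3 * (x / 3) ^ 2 + 2 * (x / 3), ?_⟩
    rw [h1] at h2
    generalize x / 3 = a at h2 ⊢
    rw [← h2]
    ring
  · refine ⟨3 * (x / 3) ^ 2 + 4 * (x / 3) + 1, ?_⟩
    rw [h1] at h2
    generalize x / 3 = a at h2 ⊢
    rw [← h2]
    ring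

lemma wt_sq_add (x t : ℤ) (hx : ¬ (3 : ℤ) ∣ x) :
    wt ((x + 3 * t) ^ 2) = wt (x ^ 2) + 2 * (x : ZMod 3) * (t : ZMod 3) := by
  obtain ⟨k, hk⟩ := sq_form x hx
  rw [wt_eq _ _ hk, wt_eq ((x + 3 * t) ^ 2) (k + 2 * x * t + 3 * t ^ 2) (by linear_combination hk)]
  push_cast
  have h3 : (3 : ZMod 3) = 0 := by decide
  rw [h3]
  ring

lemma exists_rep (γ : ZMod 3) : ∃ Y : ℤ, Y ≠ 0 ∧ (Y : ZMod 3) = γ := by
  have h : ∀ γ : ZMod 3, γ = 0 ∨ γ = 1 ∨ γ = -1 := by decide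
  rcases h γ with rfl | rfl | rfl
  · exact ⟨3, by norm_num, by decide⟩
  · exact ⟨1, by norm_num, by simp⟩
  · exact ⟨-1, by norm_num, by simp⟩

lemma cast_ne (x : ℤ) (hx : ¬ (3 : ℤ) ∣ x) : (x : ZMod 3) ≠ 0 := by
  intro h
  exact hx ((ZMod.intCast_zmod_eq_zero_iff_dvd x 3).mp h)

lemma cube_eq (x : ZMod 3) : x ^ 3 = x := by
  revert x
  decide

/-- solution of a linear equation by a nonzero integer -/
lemma exists_sol (u γ : ZMod 3) (hu : u ≠ 0) : ∃ Y : ℤ, Y ≠ 0 ∧ u * (Y : ZMod 3) = γ := by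
  have h : ∀ u : ZMod 3, u ≠ 0 → u * u = 1 := by decide
  obtain ⟨Y, h1, h2⟩ := exists_rep (u * γ)
  exact ⟨Y, h1, by rw [h2, ← mul_assoc, h u hu, one_mul]⟩

lemma two_mul_ne (u : ZMod 3) (hu : u ≠ 0) : 2 * u ≠ 0 := by
  revert u
  decide

/-- the decomposition of a nonzero integer -/
lemma decomp (b : ℤ) (hb : b ≠ 0) : ∃ (j i : ℕ) (b' : ℤ), i < 3 ∧ ¬ (3 : ℤ) ∣ b' ∧
    b = (3 ^ j) ^ 3 * (3 ^ i * b') := by
  obtain ⟨n, b', h1, h2⟩ := (Int.finiteMultiplicity_iff.mpr ⟨by decide, hb⟩ :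
    FiniteMultiplicity (3 : ℤ) b).exists_eq_pow_mul_and_not_dvd |>.elim fun c hc =>
      (⟨_, c, hc.1, hc.2⟩ : ∃ (n : ℕ) (c : ℤ), b = 3 ^ n * c ∧ ¬ (3 : ℤ) ∣ c)
  refine ⟨n / 3, n % 3, b', Nat.mod_lt _ (by norm_num), h2, ?_⟩
  rw [h1, ← mul_assoc, ← pow_mul, ← pow_add]
  congr 2
  omega

section

variable (hLCL : LCL)

include hLCL

lemma lv_mul {a b : ℤ} (ha : a ≠ 0) (hb : b ≠ 0) : lv (a * b) = lv a + lv b :=
  (hLCL.2.1 a b ha hb).1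

lemma lw_mul {a b : ℤ} (ha : a ≠ 0) (hb : b ≠ 0) : lw (a * b) = lw a + lw b :=
  (hLCL.2.1 a b ha hb).2

lemma lv_cube {c a : ℤ} (hc : c ≠ 0) (ha : a ≠ 0) : lv (c ^ 3 * a) = lv a := by
  have h : ∀ x y : ZMod 3, x + (x + x) + y = y := by decide
  rw [lv_mul hLCL (pow_ne_zero 3 hc) ha, pow_succ', pow_two, lv_mul hLCL hc (mul_ne_zero hc hc),
    lv_mul hLCL hc hc, h]

lemma lw_cube {c a : ℤ} (hc : c ≠ 0) (ha : a ≠ 0) : lw (c ^ 3 * a) = lw a := by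
  have h : ∀ x y : ZMod 3, x + (x + x) + y = y := by decide
  rw [lw_mul hLCL (pow_ne_zero 3 hc) ha, pow_succ', pow_two, lw_mul hLCL hc (mul_ne_zero hc hc),
    lw_mul hLCL hc hc, h]

lemma lv_unit {a : ℤ} (ha : ¬ (3 : ℤ) ∣ a) : lv a = 0 := (hLCL.2.2.2.1 a ha).1

lemma lw_unit {a : ℤ} (ha : ¬ (3 : ℤ) ∣ a) : lw a = wt (a ^ 2) := (hLCL.2.2.2.1 a ha).2

lemma lv_three {a : ℤ} (ha : a ≠ 0) : lv (3 * a) = 1 + lv a := by
  rw [lv_mul hLCL (by norm_num) ha, hLCL.2.2.1.1]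

lemma lw_three {a : ℤ} (ha : a ≠ 0) : lw (3 * a) = lw a := by
  rw [lw_mul hLCL (by norm_num) ha, hLCL.2.2.1.2, zero_add]

end

lemma ne_of_not_dvd {a : ℤ} (ha : ¬ (3 : ℤ) ∣ a) : a ≠ 0 := by
  rintro rfl
  exact ha (dvd_zero _)

end LPT

open LPT in
theorem LPT_thm (hLCL : LCL) : LPT := by
  intro b β hb hne
  -- reduction to the class of the second factor
  suffices h : ∃ X Y : ℤ, X ≠ 0 ∧ Y ≠ 0 ∧ X ^ 3 + b * Y ^ 3 ≠ 0 ∧
      lv (X ^ 3 + b * Y ^ 3) = 1 - lv b ∧ lw (X ^ 3 + b * Y ^ 3) = β - lw b by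
    obtain ⟨X, Y, hX, hY, h0, h1, h2⟩ := h
    refine ⟨X, Y, hX, hY, h0, ?_, ?_⟩
    · rw [lv_mul hLCL hb h0, h1]
      ring
    · rw [lw_mul hLCL hb h0, h2]
      ring
  obtain ⟨j, i, b', hi, hb', rfl⟩ := decomp b hb
  have h3j : (3 : ℤ) ^ j ≠ 0 := pow_ne_zero _ (by norm_num)
  have hb'0 := ne_of_not_dvd hb'
  have hi' : (3 : ℤ) ^ i * b' ≠ 0 := mul_ne_zero (pow_ne_zero _ (by norm_num)) hb'0
  rw [lv_cube hLCL h3j hi'] at hne ⊢
  rw [lw_cube hLCL h3j hi'] at hne ⊢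
  have hu := cast_ne b' hb'
  interval_cases i
  · -- the exponent is divisible by three
    rw [pow_zero, one_mul] at hne ⊢
    rw [lv_unit hLCL hb', lw_unit hLCL hb'] at hne
    rw [lv_unit hLCL hb', lw_unit hLCL hb', sub_zero]
    obtain ⟨k, hk⟩ := sq_form b' hb'
    rw [wt_eq _ _ hk] at hne ⊢
    have hk3 : (k : ZMod 3) ≠ 0 := fun h => hne ⟨rfl, h⟩
    have hkd : ¬ (3 : ℤ) ∣ k := fun h => hk3 ((ZMod.intCast_zmod_eq_zero_iff_dvd k 3).mpr h)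
    have hm0 : ¬ (3 : ℤ) ∣ -(b' * k) := by
      rw [dvd_neg]
      intro h
      rcases (Int.prime_three.dvd_mul).mp h with h | h
      · exact hb' h
      · exact hkd h
    obtain ⟨t, -, ht⟩ := exists_sol (2 * ((-(b' * k) : ℤ) : ZMod 3)) (β - k - wt ((-(b' * k)) ^ 2))
      (two_mul_ne _ (cast_ne _ hm0))
    have hX' : ¬ (3 : ℤ) ∣ (-b' + 3 * t) := by omega
    set s : ℤ := b' ^ 2 * t - 3 * b' * t ^ 2 + 3 * t ^ 3 with hs
    have hn : (3 ^ j * (-b' + 3 * t)) ^ 3 + (3 ^ j) ^ 3 * b' * 1 ^ 3 =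
        (3 ^ j) ^ 3 * (3 * (-(b' * k) + 3 * s)) := by
      rw [hs]
      linear_combination (-(3 : ℤ) ^ (3 * j) * b') * hk
    have hm : ¬ (3 : ℤ) ∣ (-(b' * k) + 3 * s) := by
      intro h
      exact hm0 (by
        have := Int.dvd_sub h (Dvd.intro s rfl : (3 : ℤ) ∣ 3 * s)
        rwa [add_sub_cancel_right] at this)
    have hm1 := ne_of_not_dvd hm
    have hm3 : (3 : ℤ) * (-(b' * k) + 3 * s) ≠ 0 := mul_ne_zero (by norm_num) hm1
    refine ⟨3 ^ j * (-b' + 3 * t), 1, mul_ne_zero h3j (ne_of_not_dvd hX'), one_ne_zero, ?_, ?_, ?_⟩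
    · rw [hn]
      exact mul_ne_zero (pow_ne_zero 3 h3j) hm3
    · rw [hn, lv_cube hLCL h3j hm3, lv_three hLCL hm1, lv_unit hLCL hm, add_zero]
    · rw [hn, lw_cube hLCL h3j hm3, lw_three hLCL hm1, lw_unit hLCL hm, wt_sq_add _ _ hm0]
      have hst : (s : ZMod 3) = t := by
        have h3 : (3 : ZMod 3) = 0 := by decide
        have hb2 : ((b' : ZMod 3)) ^ 2 = 1 := by
          have h := congrArg (Int.cast : ℤ → ZMod 3) hk
          push_cast at h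
          rw [h, h3]
          ring
        rw [hs]
        push_cast
        rw [hb2, h3]
        ring
      rw [hst, ht]
      ring
  · -- the exponent is one modulo three
    rw [pow_one, lv_three hLCL hb'0, lv_unit hLCL hb', add_zero, sub_self]
    obtain ⟨Y, hY, hY'⟩ := exists_sol (2 * (b' : ZMod 3)) (β - lw (3 * b')) (two_mul_ne _ hu)
    have hn : (3 ^ j) ^ 3 + (3 ^ j) ^ 3 * (3 * b') * Y ^ 3 =
        (3 ^ j) ^ 3 * (1 + 3 * (b' * Y ^ 3)) := by ring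
    have hm : ¬ (3 : ℤ) ∣ 1 + 3 * (b' * Y ^ 3) := by omega
    have hm1 := ne_of_not_dvd hm
    refine ⟨3 ^ j, Y, h3j, hY, ?_, ?_, ?_⟩
    · rw [hn]
      exact mul_ne_zero (pow_ne_zero 3 h3j) hm1
    · rw [hn, lv_cube hLCL h3j hm1, lv_unit hLCL hm]
    · rw [hn, lw_cube hLCL h3j hm1, lw_unit hLCL hm, wt_sq_add 1 _ (by norm_num)]
      have h1 : wt (1 ^ 2) = 0 := by
        rw [wt_eq (1 ^ 2) 0 (by norm_num)]
        simp
      rw [h1, ← hY']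
      push_cast
      rw [cube_eq]
      ring
  · -- the exponent is two modulo three
    have e9 : (3 : ℤ) ^ 2 * b' = 3 * (3 * b') := by ring
    have h3b : (3 : ℤ) * b' ≠ 0 := mul_ne_zero (by norm_num) hb'0
    rw [e9, lv_three hLCL h3b, lv_three hLCL hb'0, lv_unit hLCL hb', lw_three hLCL h3b,
      lw_three hLCL hb'0, lw_unit hLCL hb']
    obtain ⟨X, hX, hX'⟩ := exists_sol (2 * (b' : ZMod 3)) (β - wt (b' ^ 2) - wt (b' ^ 2))
      (two_mul_ne _ hu)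
    have hn : (3 ^ j * (3 * X)) ^ 3 + (3 ^ j) ^ 3 * (3 * (3 * b')) * 1 ^ 3 =
        (3 ^ j) ^ 3 * (3 * (3 * (b' + 3 * X ^ 3))) := by ring
    have hm : ¬ (3 : ℤ) ∣ b' + 3 * X ^ 3 := by omega
    have hm1 := ne_of_not_dvd hm
    have hm3 : (3 : ℤ) * (b' + 3 * X ^ 3) ≠ 0 := mul_ne_zero (by norm_num) hm1
    have hm9 : (3 : ℤ) * (3 * (b' + 3 * X ^ 3)) ≠ 0 := mul_ne_zero (by norm_num) hm3
    refine ⟨3 ^ j * (3 * X), 1, mul_ne_zero h3j (mul_ne_zero (by norm_num) hX), one_ne_zero,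
      ?_, ?_, ?_⟩
    · rw [hn]
      exact mul_ne_zero (pow_ne_zero 3 h3j) hm9
    · rw [hn, lv_cube hLCL h3j hm9, lv_three hLCL hm3, lv_three hLCL hm1, lv_unit hLCL hm]
      decide
    · rw [hn, lw_cube hLCL h3j hm9, lw_three hLCL hm3, lw_three hLCL hm1, lw_unit hLCL hm,
        wt_sq_add _ _ hb']
      push_cast
      rw [cube_eq, hX']
      ring

end Pool.Agent.PT3
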