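import Pool.Agent.PT3.Stmts
import Pool.Agent.PT.LEV
import Pool.Agent.PT.IF2

/-!
# Module LVB: the local evaluation at `lam`, `x` a local cube, `b` in the class of `B`
-/

namespace Pool.Agent.PT3

open Pool.Agent.Lib_helper18 Pool.Agent.Lib_helper18.Eis Pool.Agent.Lib_helper84.Cub
open Pool.Agent.PT Pool.Agent.PTE

namespace LVB

/-- symbols of rational numbers in the same class, on the left -/
theorem left_eq (hSLC : SLC) (hLCL : LCL) {a b : ℤ} (ha : a ≠ 0) (hb : b ≠ 0)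
    (h1 : lv a = lv b) (h2 : lw a = lw b) {y : Eis} (hy : y ≠ 0) :
    sl (a : Eis) y = sl (b : Eis) y := by
  have h := hLCL.2.2.2.2.2.1 a b y ha hb hy h1 h2
  rw [hSLC.skew y (a : Eis) hy (LEV.cast_ne ha), hSLC.skew y (b : Eis) hy (LEV.cast_ne hb), h]

end LVB

theorem LVB_thm (_hSTM : STM) (_hSPP : SPP) (_hSSL : SSL) (hSLC : SLC) (_hSCJ : SCJ) (hLCI : LCI)
    (hIF2 : IF2) (hIF4 : IF4) (hIF4B : IF4B) (hLCL : LCL) : LVB := by
  intro B b x p q p' q' X Y hB hb hx hS hLx hbv hbw hP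
  have hn := hP.n0
  have hxn : x * (X ^ 3 + x * Y ^ 3) ≠ 0 := mul_ne_zero hx hn
  have hbe := LEV.cast_ne hb
  have hBe := LEV.cast_ne hB
  have hxe := LEV.cast_ne hx
  have hne := LEV.cast_ne hn
  -- the classes
  have hrel : LEV.Rel sl (B : Eis) (x : Eis) ((X ^ 3 + x * Y ^ 3 : ℤ) : Eis) := by
    intro y hy
    rw [← LVB.left_eq hSLC hLCL hxn hB hP.cl.1 hP.cl.2 hy, Int.cast_mul,
      hSLC.mul _ _ y hxe hne hy]
  have hbB : ∀ y : Eis, y ≠ 0 → sl (b : Eis) y = sl (B : Eis) y := fun y hy =>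
    LVB.left_eq hSLC hLCL hb hB hbv hbw hy
  obtain ⟨N1, _, h1⟩ := LEV.SV_LC hSLC hLCI hIF4 hb hx hS hP.hX hP.hY hn hLx hrel
  obtain ⟨N2, h2⟩ := LEV.prop_case hSLC hLCI hIF4B hb hx hP.hX hP.hY hn hLx hrel 1
    (fun y hy => by rw [one_mul]; exact hbB y hy)
  obtain ⟨N3, h3⟩ := hIF2 lam sl 4 hSLC x b p (-p') (-q) q' hx hb (LEV.swap hS)
  set N0 := N1 + N2 + N3 + V lam ((p ^ 3 + x * (-p') ^ 3 : ℤ) : Eis) +
    V lam (((-q) ^ 3 + x * q' ^ 3 : ℤ) : Eis) + 1 with hN0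
  obtain ⟨ξ, hξ⟩ := hLx N0
  obtain ⟨hF, h4⟩ := h1 ξ ((pow_dvd_pow lam (by omega)).trans hξ)
  have h5 := h2 ξ ((pow_dvd_pow lam (by omega)).trans hξ) hF
  have h6 := h3 ξ ((pow_dvd_pow lam (by omega)).trans hξ)
  have hG := LEV.lf_ne hSLC.prime (LEV.swap hS).n1 (N := N0) (by omega) hξ
  have hG' := LEV.lf_ne hSLC.prime (LEV.nn hS) (N := N0) (by omega) hξ
  have hAS : AS sl (B : Eis) p (-p') (-q) q' ξ = AS sl (b : Eis) p (-p') (-q) q' ξ := by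
    unfold AS
    rw [hbB _ (hG 2), hbB _ (hG' 1), hbB _ (hG 1), hbB _ (hG' 2)]
  have hg1 := IF2.Gf_ne hS 1 (Or.inl rfl)
  have hg2 := IF2.Gf_ne hS 2 (Or.inr rfl)
  rw [LEV.gf_swap, LEV.gf_swap, hbB _ hg1, hbB _ hg2] at h6
  have hw := LEV.w_ne
  -- the symbols of `w`
  have hwb : sl w (b : Eis) = sl w (B : Eis) :=
    hLCL.2.2.2.2.2.1 b B w hb hB hw hbv hbw
  have hwx : sl w (x : Eis) = 0 := LEV.lc_right hSLC hLCI hx hLx hw
  have hwBxb : sl w ((B * x * b : ℤ) : Eis) = sl w (b : Eis) + sl w (b : Eis) := by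
    rw [Int.cast_mul, Int.cast_mul, LEV.mul_right hSLC (mul_ne_zero hBe hxe) hbe hw,
      LEV.mul_right hSLC hBe hxe hw, hwx, hwb, add_zero]
  unfold UV
  rw [hwBxb, h4, hAS, h6]
  linear_combination h5

end Pool.Agent.PT3
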