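import Pool.Agent.PT3.Stmts
import Pool.Agent.PT.LEV
import Pool.Agent.PT.LFIN

/-!
# PT3, module LVC: `x` is a local cube at `lam` and `v(B) = 1`
-/

set_option autoImplicit false

open NumberField IsDedekindDomain Finset
open scoped nonZeroDivisors Pointwise

namespace Pool.Agent.PT3

open Pool.Agent.Lib_helper18 Pool.Agent.Lib_helper18.Eis Pool.Agent.Lib_helper84.Cub
open Pool.Agent.PT Pool.Agent.PTE

namespace LVC

/-- integers of the same class have the same symbols, first variable -/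
theorem left_eq (hSSL : SSL) (hLCL : LCL) {a b : ℤ} (ha : a ≠ 0) (hb : b ≠ 0) (h1 : lv a = lv b)
    (h2 : lw a = lw b) {c : Eis} (hc : c ≠ 0) : sl (a : Eis) c = sl (b : Eis) c := by
  have h3 := hLCL.2.2.2.2.2.1 a b c ha hb hc h1 h2
  have h4 : sl (a : Eis) c = - sl c (a : Eis) := hSSL.2.1 c (a : Eis) hc (LEV.cast_ne ha)
  have h5 : sl (b : Eis) c = - sl c (b : Eis) := hSSL.2.1 c (b : Eis) hc (LEV.cast_ne hb)
  rw [h4, h5, h3]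

end LVC

set_option linter.unusedVariables false in
theorem LVC_thm (hSTM : STM) (hSPP : SPP) (hSSL : SSL) (hSLC : SLC) (hSCJ : SCJ) (hLCI : LCI)
    (hIF2 : IF2) (hIF4 : IF4) (hIIA : IIA) (hLL1 : LL1) (hLCL : LCL) : LVC := by
  intro B b x p q p' q' X Y X' Y' hB hb hx hS hlv hLCx hP hP'
  have hL : LSym lam sl 4 := hSLC
  have hS' := LEV.swap hS
  obtain ⟨hX, hY, hn0, hcv, hcw⟩ := hP
  obtain ⟨hX', hY', hnb, hcv', hcw'⟩ := hP'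
  obtain ⟨hvx, hwx⟩ := (hLCL.1 x hx).1 hLCx
  have hm := hLCL.2.1 x (X ^ 3 + x * Y ^ 3) hx hn0
  have hv0 : lv (X ^ 3 + x * Y ^ 3) = lv B := by rw [← hcv, hm.1, hvx, zero_add]
  have hw0 : lw (X ^ 3 + x * Y ^ 3) = lw B := by rw [← hcw, hm.2, hwx, zero_add]
  obtain ⟨N1, h1⟩ := hIIA x b p (-p') (-q) q' X' Y' hx hb hLCx hS' hX' hY' hnb
  obtain ⟨N2, h2⟩ := hIF4 lam sl 4 hL b x p q p' q' X Y hb hx hS hX hY hn0
  obtain ⟨N3, h3⟩ := hLL1 x X Y b hx hb hX hY hn0 (by rw [hv0, hlv])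
  obtain ⟨N4, h4⟩ := hIF2 lam sl 4 hL x b p (-p') (-q) q' hx hb hS'
  have hn' : p ^ 3 + x * (-p') ^ 3 ≠ 0 := hS'.n1
  have hn'' : (-q) ^ 3 + x * q' ^ 3 ≠ 0 := LEV.nn hS
  obtain ⟨N, hN⟩ : ∃ N, N = N1 + N2 + N3 + N4 + V lam ((p ^ 3 + x * (-p') ^ 3 : ℤ) : Eis) +
    V lam (((-q) ^ 3 + x * q' ^ 3 : ℤ) : Eis) + 1 := ⟨_, rfl⟩
  obtain ⟨ξ, hξ⟩ := hLCx N
  have g1 := h1 ξ ((pow_dvd_pow lam (by omega)).trans hξ)
  have g2 := h2 ξ ((pow_dvd_pow lam (by omega)).trans hξ)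
  have g3 := h3 ξ ((pow_dvd_pow lam (by omega)).trans hξ)
  have g4 := h4 ξ ((pow_dvd_pow lam (by omega)).trans hξ)
  have hG := LEV.lf_ne hL.prime hn' (N := N) (by omega) hξ
  have hG' := LEV.lf_ne hL.prime hn'' (N := N) (by omega) hξ
  have hw : (w : Eis) ≠ 0 := LEV.w_ne
  have hB' := LEV.cast_ne hB
  have hb' := LEV.cast_ne hb
  have hx' := LEV.cast_ne hx
  have hnb' := LEV.cast_ne hnb
  -- the class of `b n_b` is the class of `B`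
  have key : ∀ y : Eis, y ≠ 0 →
      sl (B : Eis) y = sl (b : Eis) y + sl ((X' ^ 3 + b * Y' ^ 3 : ℤ) : Eis) y := by
    intro y hy
    have e1 := LVC.left_eq hSSL hLCL (mul_ne_zero hb hnb) hB hcv' hcw' hy
    have e2 : ((b * (X' ^ 3 + b * Y' ^ 3) : ℤ) : Eis) =
        (b : Eis) * ((X' ^ 3 + b * Y' ^ 3 : ℤ) : Eis) := Int.cast_mul _ _
    rw [← e1, e2, hL.mul _ _ _ hb' hnb' hy]
  have keyw : sl w (B : Eis) = sl w (b : Eis) + sl w ((X' ^ 3 + b * Y' ^ 3 : ℤ) : Eis) := by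
    have e1 := hLCL.2.2.2.2.2.1 _ _ w (mul_ne_zero hb hnb) hB hw hcv' hcw'
    have e2 : ((b * (X' ^ 3 + b * Y' ^ 3) : ℤ) : Eis) =
        (b : Eis) * ((X' ^ 3 + b * Y' ^ 3 : ℤ) : Eis) := Int.cast_mul _ _
    rw [← e1, e2, LEV.mul_right hL hb' hnb' hw]
  have key0 : ∀ y : Eis, y ≠ 0 →
      sl ((X ^ 3 + x * Y ^ 3 : ℤ) : Eis) y = sl (B : Eis) y := fun y hy =>
    LVC.left_eq hSSL hLCL hn0 hB hv0 hw0 hy
  have a1 : AS sl ((X ^ 3 + x * Y ^ 3 : ℤ) : Eis) p (-p') (-q) q' ξ =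
      AS sl (b : Eis) p (-p') (-q) q' ξ +
        AS sl ((X' ^ 3 + b * Y' ^ 3 : ℤ) : Eis) p (-p') (-q) q' ξ := by
    unfold AS
    rw [key0 _ (hG 2), key0 _ (hG' 1), key0 _ (hG 1), key0 _ (hG' 2), key _ (hG 2),
      key _ (hG' 1), key _ (hG 1), key _ (hG' 2)]
    ring
  have wx : sl w (x : Eis) = 0 := LEV.lc_right hL hLCI hx hLCx hw
  have wm : sl w ((B * x * b : ℤ) : Eis) = sl w (B : Eis) + sl w (b : Eis) := by
    have e2 : ((B * x * b : ℤ) : Eis) = (B : Eis) * (x : Eis) * (b : Eis) := by push_cast; ring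
    rw [e2, LEV.mul_right hL (mul_ne_zero hB' hx') hb' hw, LEV.mul_right hL hB' hx' hw, wx,
      add_zero]
  have G1 : Gf p q p' q' 1 ≠ 0 := LFIN.Gf_ne hS 1 (Or.inl rfl)
  have G2 : Gf p q p' q' 2 ≠ 0 := LFIN.Gf_ne hS 2 (Or.inr rfl)
  rw [LEV.gf_swap, LEV.gf_swap] at g1 g4
  unfold UV
  rw [wm, key _ G1, key _ G2, keyw]
  rw [a1] at g2
  linear_combination g1 + g2 + g3 + g4

end Pool.Agent.PT3
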