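import Pool.Agent.PT3.Stmts
import Pool.Agent.PT.MAINT

/-!
# PT3: the theorem for all `n`
-/

set_option autoImplicit false

namespace Pool.Agent.PT3

open Pool.Agent.Lib_helper18 Pool.Agent.Lib_helper18.Eis Pool.Agent.Lib_helper84.Cub
open Pool.Agent.PT Pool.Agent.PTE

namespace MAI3

/-- the density statements give the two inequalities -/
theorem ineq {N m : ℕ} {d : ℝ} (c : ℝ) (_hc : 0 < c) (hd : d = 2 ^ m / (c * 3 ^ m))
    (h : RI.DensityGE {q : ℕ | ¬ ∃ X Y : ℚ, X ^ 3 + Y ^ 3 = (N : ℚ) * q} d) :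
    ∃ C : ℝ, ∀ s : ℝ, 1 < s → s ≤ 2 →
      (2 / 3) ^ m / c * Real.log (1 / (s - 1)) - C ≤
      ∑' q : {q : ℕ // q.Prime ∧ ¬ ∃ X Y : ℚ, X ^ 3 + Y ^ 3 = (N : ℚ) * q}, (q : ℝ) ^ (-s) := by
  obtain ⟨C, hC⟩ := h
  refine ⟨C, fun s hs1 hs2 => ?_⟩
  have := hC s hs1 hs2
  have e : ((2 : ℝ) / 3) ^ m / c = d := by
    rw [hd, div_pow, div_div, mul_comm ((3 : ℝ) ^ m) c]
  rw [e]
  exact this

/-- multiplying by a cube -/
theorem set_eq {N M T : ℕ} (hT : 0 < T) (h : N = M * T ^ 3) :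
    {q : ℕ | ¬ ∃ X Y : ℚ, X ^ 3 + Y ^ 3 = (M : ℚ) * q} =
      {q : ℕ | ¬ ∃ X Y : ℚ, X ^ 3 + Y ^ 3 = (N : ℚ) * q} := by
  ext q
  simp only [Set.mem_setOf_eq]
  rw [h, MAINT.sum_cubes_iff hT q]

/-- the exponents of the primes other than `3` -/
theorem card_eq (N r : ℕ) (hr : r ≠ 0) :
    Nat.card {p : ℕ // p.Prime ∧ p % 3 = r ∧ ¬ 3 ∣ (N / 3 ^ N.factorization 3).factorization p} =
      Nat.card {p : ℕ // p.Prime ∧ p % 3 = r ∧ ¬ 3 ∣ N.factorization p} := by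
  apply Nat.card_congr
  apply Equiv.subtypeEquivRight
  intro p
  have h1 : p % 3 = r → (N / 3 ^ N.factorization 3).factorization p = N.factorization p := by
    intro h
    have h3 : p ≠ 3 := by
      rintro rfl
      exact hr h.symm
    rw [Nat.factorization_ordCompl, Finsupp.erase_ne h3]
  constructor
  · rintro ⟨a, b, c⟩
    exact ⟨a, b, by rwa [h1 b] at c⟩
  · rintro ⟨a, b, c⟩
    exact ⟨a, b, by rwa [h1 b]⟩

end MAI3

open MAI3 in
/-- MAI3: the theorem for all `n`. -/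
theorem MAI3_thm (hENF : ENF) (hFIN0 : FIN0) (hFIN3 : FIN3) : MAIN3 := by
  intro N hN
  set v := N.factorization 3 with hv
  have hN0 : 3 ^ v * (N / 3 ^ v) = N := Nat.ordProj_mul_ordCompl_eq_self N 3
  have h3 : ¬ 3 ∣ N / 3 ^ v := Nat.not_dvd_ordCompl Nat.prime_three hN.ne'
  have hpos : 0 < N / 3 ^ v := Nat.ordCompl_pos 3 hN.ne'
  have hm := card_eq N 1 (by norm_num)
  have hk := card_eq N 2 (by norm_num)
  rw [← hv] at hm hk
  obtain ⟨n, t, π, p, e, r, f, hn, ht, hNn, hNF, -⟩ := hENF (N / 3 ^ v) hpos h3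
  rw [← hm, ← hk]
  have hvd := Nat.div_add_mod v 3
  have hT : 0 < t * 3 ^ (v / 3) := by positivity
  rcases Nat.eq_zero_or_pos (v % 3) with h0 | h0
  · have hN1 : N = n * (t * 3 ^ (v / 3)) ^ 3 := by
      rw [← hN0, hNn]
      have : 3 ^ v = (3 ^ (v / 3)) ^ 3 := by
        rw [← pow_mul]
        congr 1
        omega
      rw [this]
      ring
    have hS := set_eq hT hN1
    obtain ⟨f1, f2⟩ := hFIN0 n _ _ π p e r f hNF
    rw [hS] at f1 f2
    refine ⟨ineq 30 (by norm_num) rfl f2, fun hE => ineq 12 (by norm_num) rfl (f1 ?_)⟩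
    rwa [h0, zero_add] at hE
  · have hh : v % 3 = 1 ∨ v % 3 = 2 := by omega
    have hN1 : N = (3 ^ (v % 3) * n) * (t * 3 ^ (v / 3)) ^ 3 := by
      rw [← hN0, hNn]
      have : 3 ^ v = 3 ^ (v % 3) * (3 ^ (v / 3)) ^ 3 := by
        rw [← pow_mul, ← pow_add]
        congr 1
        omega
      rw [this]
      ring
    have hS := set_eq hT hN1
    obtain ⟨f1, f2⟩ := hFIN3 (v % 3) n _ _ π p e r f hNF hh
    rw [hS] at f1 f2
    exact ⟨ineq 30 (by norm_num) rfl f2, fun hE => ineq 12 (by norm_num) rfl (f1 hE)⟩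

end Pool.Agent.PT3
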