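import Pool.Agent.PT3.Stmts
import Pool.Agent.PT.TADD

/-!
# SVAD: additivity of the local term at `lam`
-/

open NumberField IsDedekindDomain Finset
open scoped nonZeroDivisors Pointwise

namespace Pool.Agent.PT3

open Pool.Agent.Lib_helper18 Pool.Agent.Lib_helper18.Eis Pool.Agent.Lib_helper84.Cub
open Pool.Agent.PT Pool.Agent.PTE

namespace SVAD

/-- the swapped solution -/
theorem swap' {b x p q p' q' : ℤ} (h : Sol b x p q p' q') : Sol x b p (-p') (-q) q' where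
  eq := by linear_combination h.eq
  n1 := by
    intro h0
    apply h.n2
    linear_combination h0
  n2 := by
    intro h0
    apply h.n1
    linear_combination h0

/-- the denominators are nonzero -/
theorem den_ne {b x p q p' q' : ℤ} (S : Sol b x p q p' q') : p' ^ 3 + b * q' ^ 3 ≠ 0 := by
  intro h
  apply S.n1
  rw [S.eq, h, mul_zero]

/-- IF4 for the swapped solution -/
theorem if4_swap (hIF4 : IF4) {π : Eis} {s : Eis → Eis → ZMod 3} {e : ℕ} (hs : LSym π s e)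
    {b x p q p' q' X Y : ℤ} (hb : b ≠ 0) (hx : x ≠ 0) (S : Sol b x p q p' q') (hX : X ≠ 0)
    (hY : Y ≠ 0) (hn : X ^ 3 + b * Y ^ 3 ≠ 0) :
    ∃ N0 : ℕ, ∀ ξ : ℤ, π ^ N0 ∣ (ξ : Eis) ^ 3 - (b : Eis) →
      SV s b p (-p') (-q) q' X Y = AS s ((X ^ 3 + b * Y ^ 3 : ℤ) : Eis) p q p' q' ξ +
        s (Lf X Y 1 ξ) (x : Eis) - s (Lf X Y 2 ξ) (x : Eis) := by
  obtain ⟨N0, hN0⟩ := hIF4 π s e hs x b p (-p') (-q) q' X Y hx hb (swap' S) hX hY hn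
  refine ⟨N0, fun ξ hξ => ?_⟩
  have h := hN0 ξ hξ
  rw [neg_neg, neg_neg] at h
  exact h

/-- local additivity where `b` is a local cube -/
theorem loc_cube (hIF4 : IF4) {π : Eis} {s : Eis → Eis → ZMod 3} {e : ℕ} (hs : LSym π s e)
    {b x₁ x₂ p₁ q₁ p₁' q₁' p₂ q₂ p₂' q₂' p q p' q' X Y : ℤ} (hb : b ≠ 0) (hx₁ : x₁ ≠ 0)
    (hx₂ : x₂ ≠ 0) (S₁ : Sol b x₁ p₁ q₁ p₁' q₁') (S₂ : Sol b x₂ p₂ q₂ p₂' q₂')
    (S : Sol b (x₁ * x₂) p q p' q') (R : PRel b p₁ q₁ p₁' q₁' p₂ q₂ p₂' q₂' p q p' q')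
    (hX : X ≠ 0) (hY : Y ≠ 0) (hn : X ^ 3 + b * Y ^ 3 ≠ 0) (hLC : LC π b) :
    SV s b p (-p') (-q) q' X Y =
      SV s b p₁ (-p₁') (-q₁) q₁' X Y + SV s b p₂ (-p₂') (-q₂) q₂' X Y := by
  have hx₁' : (x₁ : Eis) ≠ 0 := TADD.cast_ne hx₁
  have hx₂' : (x₂ : Eis) ≠ 0 := TADD.cast_ne hx₂
  obtain ⟨N₁, h₁⟩ := if4_swap hIF4 hs hb hx₁ S₁ hX hY hn
  obtain ⟨N₂, h₂⟩ := if4_swap hIF4 hs hb hx₂ S₂ hX hY hn
  obtain ⟨N₃, h₃⟩ := if4_swap hIF4 hs hb (mul_ne_zero hx₁ hx₂) S hX hY hn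
  obtain ⟨N₄, h₄⟩ := TADD.AS_add hs (TADD.cast_ne hn) (TADD.cast_ne S₁.n1) (TADD.cast_ne S₂.n1)
    (TADD.cast_ne (den_ne S)) (TADD.cast_ne (den_ne S₁)) (TADD.cast_ne (den_ne S₂))
    (TADD.cast_ne S.n1) R.e0 R.e1 R.e2
  obtain ⟨r, hr⟩ := hLC (N₁ + N₂ + N₃ + N₄ + V π ((X ^ 3 + b * Y ^ 3 : ℤ) : Eis) + 1)
  have k : ∀ M : ℕ, M ≤ N₁ + N₂ + N₃ + N₄ + V π ((X ^ 3 + b * Y ^ 3 : ℤ) : Eis) + 1 →
      π ^ M ∣ (r : Eis) ^ 3 - (b : Eis) := fun M hM => (pow_dvd_pow π hM).trans hr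
  have l1 := (TADD.Lf_bound hs.prime (TADD.cast_ne hn) hr (by omega) 1 (Or.inl rfl)).1
  have l2 := (TADD.Lf_bound hs.prime (TADD.cast_ne hn) hr (by omega) 2 (Or.inr rfl)).1
  have g₁ := h₁ r (k _ (by omega))
  have g₂ := h₂ r (k _ (by omega))
  have g₃ := h₃ r (k _ (by omega))
  have g₄ := h₄ r (k _ (by omega))
  have hcast : (((x₁ * x₂ : ℤ)) : Eis) = (x₁ : Eis) * (x₂ : Eis) := by push_cast; rfl
  rw [hcast, TADD.LSym.right_mul hs l1 hx₁' hx₂', TADD.LSym.right_mul hs l2 hx₁' hx₂'] at g₃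
  rw [g₁, g₂, g₃, g₄]
  ring

end SVAD

open SVAD in
theorem SVAD_thm (hSTM : STM) (hSPP : SPP) (hSSL : SSL) (hSLC : SLC) (hLCI : LCI)
    (hLFIN : LFIN) (hIF4 : IF4) (hF6R : F6R) (hF7U : F7U) : SVAD := by
  intro b x₁ x₂ p₁ q₁ p₁' q₁' p₂ q₂ p₂' q₂' p q p' q' X Y hb hx₁ hx₂ S₁ S₂ S R hX hY hn
  have hx₁' : (x₁ : Eis) ≠ 0 := TADD.cast_ne hx₁
  have hx₂' : (x₂ : Eis) ≠ 0 := TADD.cast_ne hx₂
  have hx : x₁ * x₂ ≠ 0 := mul_ne_zero hx₁ hx₂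
  have hw0 : (w : Eis) ≠ 0 := by
    intro h
    have := w_cube
    rw [h] at this
    exact absurd this (by decide)
  have hcast : (((x₁ * x₂ : ℤ)) : Eis) = (x₁ : Eis) * (x₂ : Eis) := by push_cast; rfl
  have hloc : ∀ π : PP, SV (tm π.1) b p (-p') (-q) q' X Y =
      SV (tm π.1) b p₁ (-p₁') (-q₁) q₁' X Y + SV (tm π.1) b p₂ (-p₂') (-q₂) q₂' X Y := by
    intro π
    have hs : LSym π.1 (tm π.1) 1 := hSTM π.1 π.2.1 (hSPP.2.2.2.1 π).1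
    by_cases h3 : 3 ∣ V π.1 (b : Eis)
    · by_cases hc : ch π.1 (b : Eis) = 0
      · exact loc_cube hIF4 hs hb hx₁ hx₂ S₁ S₂ S R hX hY hn ((hLCI.1 π b hb).2 ⟨h3, hc⟩)
      · rw [hF7U π x₁ b p₁ (-p₁') (-q₁) q₁' X Y hx₁ hb (swap' S₁) hX hY h3 hc,
          hF7U π x₂ b p₂ (-p₂') (-q₂) q₂' X Y hx₂ hb (swap' S₂) hX hY h3 hc,
          hF7U π (x₁ * x₂) b p (-p') (-q) q' X Y hx hb (swap' S) hX hY h3 hc, add_zero]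
    · have f₁ := hF6R π x₁ b p₁ (-p₁') (-q₁) q₁' X Y hx₁ hb (swap' S₁) hX hY h3
      have f₂ := hF6R π x₂ b p₂ (-p₂') (-q₂) q₂' X Y hx₂ hb (swap' S₂) hX hY h3
      have f₃ := hF6R π (x₁ * x₂) b p (-p') (-q) q' X Y hx hb (swap' S) hX hY h3
      by_cases hV : 3 ∣ V π.1 ((X ^ 3 + b * Y ^ 3 : ℤ) : Eis)
      · rw [f₁.1 hV, f₂.1 hV, f₃.1 hV, add_zero]
      · rw [f₁.2 hV, f₂.2 hV, f₃.2 hV, hcast, TADD.LSym.right_mul hs hw0 hx₁' hx₂']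
        ring
  obtain ⟨s₁, t₁⟩ := hLFIN.2.2 x₁ b p₁ (-p₁') (-q₁) q₁' X Y hx₁ hb (swap' S₁) hX hY hn
  obtain ⟨s₂, t₂⟩ := hLFIN.2.2 x₂ b p₂ (-p₂') (-q₂) q₂' X Y hx₂ hb (swap' S₂) hX hY hn
  obtain ⟨s₃, t₃⟩ := hLFIN.2.2 (x₁ * x₂) b p (-p') (-q) q' X Y hx hb (swap' S) hX hY hn
  have s₁₂ : (Function.support fun v : Pl => SV (sy v) b p₁ (-p₁') (-q₁) q₁' X Y +
      SV (sy v) b p₂ (-p₂') (-q₂) q₂' X Y).Finite :=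
    (s₁.union s₂).subset (Function.support_add _ _)
  have t₁₂ : ∑ᶠ v : Pl, (SV (sy v) b p₁ (-p₁') (-q₁) q₁' X Y +
      SV (sy v) b p₂ (-p₂') (-q₂) q₂' X Y) = 0 := by
    rw [finsum_add_distrib s₁ s₂, t₁, t₂, add_zero]
  have t : ∑ᶠ v : Pl, (SV (sy v) b p (-p') (-q) q' X Y - (SV (sy v) b p₁ (-p₁') (-q₁) q₁' X Y +
      SV (sy v) b p₂ (-p₂') (-q₂) q₂' X Y)) = 0 := by
    rw [finsum_sub_distrib s₃ s₁₂, t₃, t₁₂, sub_zero]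
  rw [finsum_eq_single _ (none : Pl)] at t
  · exact sub_eq_zero.1 t
  · intro v hv
    rcases v with _ | π
    · exact absurd rfl hv
    · exact sub_eq_zero.2 (hloc π)

end Pool.Agent.PT3
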