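import Pool.Agent.PT3.Stmts
import Pool.Agent.PT.TADD

/-!
# TADT: additivity of the pairing in the second variable, `n` divisible by `3`
-/

set_option autoImplicit false

namespace Pool.Agent.PT3

open Pool.Agent.Lib_helper18 Pool.Agent.Lib_helper18.Eis Pool.Agent.Lib_helper84.Cub
open Pool.Agent.PT Pool.Agent.PTE

namespace TADT

open Pool.Agent.PT.TADD

/-- an integer that is the cube of a rational number is a cube -/
theorem rcube {x m n : ℤ} (hn : n ≠ 0) (h : m ^ 3 = x * n ^ 3) : ∃ t : ℤ, t ^ 3 = x := by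
  have h1 : n ^ 3 ∣ m ^ 3 := ⟨x, by rw [h]; ring⟩
  obtain ⟨t, rfl⟩ := (Int.pow_dvd_pow_iff (by norm_num)).1 h1
  refine ⟨t, ?_⟩
  have h2 : n ^ 3 * t ^ 3 = n ^ 3 * x := by
    rw [← mul_pow, h]
    ring
  exact mul_left_cancel₀ (pow_ne_zero 3 hn) h2

theorem sol_of {b x p q p' q' : ℤ} (hb : b ≠ 0) (hc : ¬ ∃ c : ℤ, c ^ 3 = x)
    (h : SolW b x p q p' q') : Sol b x p q p' q' := by
  refine { toSolW := h, n2 := fun h2 => ?_ }
  by_cases hp : p' = 0
  · subst hp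
    have hp0 : p = 0 := by
      have : p ^ 3 = 0 := by linarith
      exact pow_eq_zero_iff (by norm_num) |>.1 this
    subst hp0
    have h3 := h.eq
    have h4 := h.n1
    have h5 : b * q ^ 3 = b * (x * q' ^ 3) := by linarith
    have h6 : q ^ 3 = x * q' ^ 3 := mul_left_cancel₀ hb h5
    by_cases hq : q' = 0
    · subst hq
      apply h4
      have : q ^ 3 = 0 := by rw [h6]; ring
      rw [this]
      ring
    · exact hc (rcube hq h6)
  · exact hc (rcube (m := p) hp (by linarith))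

lemma w_ne : w ≠ 0 := by
  intro h
  have h2 := congrArg Eis.im h
  simp at h2

/-- `g + w^i h ≠ 0` -/
lemma lin_ne {g h : ℤ} (hne : g ≠ 0 ∨ h ≠ 0) (i : ℕ) (hi : i = 1 ∨ i = 2) :
    (g : Eis) + w ^ i * (h : Eis) ≠ 0 := by
  intro h0
  have h1 := congrArg Eis.re h0
  have h2 := congrArg Eis.im h0
  rcases hi with rfl | rfl
  · rw [pow_one] at h1 h2
    simp at h1 h2
    rcases hne with h3 | h3
    · exact h3 h1
    · exact h3 h2
  · rw [w_sq] at h1 h2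
    simp at h1 h2
    rcases hne with h3 | h3
    · apply h3
      rw [h2] at h1
      simpa using h1
    · exact h3 h2

lemma Df_ne {X Y u v : ℤ} (hX : X ≠ 0) (hY : Y ≠ 0) (h : u ≠ 0 ∨ v ≠ 0) (i : ℕ)
    (hi : i = 1 ∨ i = 2) : Df X Y u v i ≠ 0 := by
  have e : Df X Y u v i = ((X * u : ℤ) : Eis) + w ^ i * ((v * Y : ℤ) : Eis) := by
    unfold Df
    push_cast
    ring
  rw [e]
  apply lin_ne _ i hi
  rcases h with h | h
  · exact Or.inl (mul_ne_zero hX h)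
  · exact Or.inr (mul_ne_zero h hY)

/-- the local term at the point `(1, 0)` -/
lemma SV_one_zero (s : Eis → Eis → ZMod 3) (x p q p' q' : ℤ) : SV s x p q p' q' 1 0 = 0 := by
  have e : ∀ (u v : ℤ), Df 1 0 u v 1 = Df 1 0 u v 2 := by
    intro u v
    unfold Df
    push_cast
    ring
  unfold SV
  rw [e p' p, e q' q]
  ring

lemma three_mul_zero (a : ZMod 3) : 3 * a = 0 := by
  have : (3 : ZMod 3) = 0 := by decide
  rw [this, zero_mul]

/-- cubes are in the kernel on the right -/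
lemma right_cube {π : Eis} {s : Eis → Eis → ZMod 3} {e : ℕ} (hs : LSym π s e) {a c : Eis} {u : ℤ}
    (ha : a ≠ 0) (hc : c ≠ 0) (hu : u ≠ 0) : s a ((u : Eis) ^ 3 * c) = s a c := by
  have hu' : (u : Eis) ≠ 0 := cast_ne hu
  have e1 : (u : Eis) ^ 3 * c = (u : Eis) * ((u : Eis) * ((u : Eis) * c)) := by ring
  rw [e1, LSym.right_mul hs ha hu' (mul_ne_zero hu' (mul_ne_zero hu' hc)),
    LSym.right_mul hs ha hu' (mul_ne_zero hu' hc), LSym.right_mul hs ha hu' hc]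
  linear_combination three_mul_zero (s a (u : Eis))

/-- the local term for `(u p, u q)` -/
lemma SV_cube {π : Eis} {s : Eis → Eis → ZMod 3} {e : ℕ} (hs : LSym π s e)
    {b x p q p' q' X Y u : ℤ} (hu : u ≠ 0) (hX : X ≠ 0) (hY : Y ≠ 0)
    (hn : X ^ 3 + b * Y ^ 3 ≠ 0) (h : Sol b x p q p' q') :
    SV s b (u * p) (-p') (-(u * q)) q' X Y = SV s b p (-p') (-q) q' X Y := by
  have hpq : -q ≠ 0 ∨ p ≠ 0 := by
    by_contra hcon
    push Not at hcon
    obtain ⟨h1, h2⟩ := hcon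
    have h3 : q = 0 := by linarith
    apply h.n1
    rw [h2, h3]
    ring
  have hu' : (u : Eis) ≠ 0 := cast_ne hu
  have d1 := Df_ne hX hY hpq 1 (Or.inl rfl)
  have d2 := Df_ne hX hY hpq 2 (Or.inr rfl)
  have hN : p ^ 3 - b * (-q) ^ 3 ≠ 0 := by
    have : p ^ 3 - b * (-q) ^ 3 = p ^ 3 + b * q ^ 3 := by ring
    rw [this]
    exact h.n1
  have hN' : ((p ^ 3 - b * (-q) ^ 3 : ℤ) : Eis) ≠ 0 := cast_ne hN
  have hn' : ((X ^ 3 + b * Y ^ 3 : ℤ) : Eis) ≠ 0 := cast_ne hn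
  have eD : ∀ i : ℕ, Df X Y (-(u * q)) (u * p) i = (u : Eis) * Df X Y (-q) p i := by
    intro i
    unfold Df
    push_cast
    ring
  have eN : (((u * p) ^ 3 - b * (-(u * q)) ^ 3 : ℤ) : Eis) =
      (u : Eis) ^ 3 * ((p ^ 3 - b * (-q) ^ 3 : ℤ) : Eis) := by
    push_cast
    ring
  unfold SV
  rw [eD, eD, eN, right_cube hs (mul_ne_zero hu' d1) hN' hu, right_cube hs (mul_ne_zero hu' d2) hN' hu,
    hs.mul _ _ _ hu' d1 hN', hs.mul _ _ _ hu' d2 hN', hs.mul _ _ _ hu' d1 hn',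
    hs.mul _ _ _ hu' d2 hn']
  ring

/-- `AS` for `(u p, u q)` -/
lemma AS_cube {π : Eis} {s : Eis → Eis → ZMod 3} {e : ℕ} (hs : LSym π s e)
    {B b x p q p' q' u : ℤ} (hB : (B : Eis) ≠ 0) (hu : u ≠ 0) (h : SolW b x p q p' q') :
    ∃ N0 : ℕ, ∀ r : ℤ, π ^ N0 ∣ (r : Eis) ^ 3 - (b : Eis) →
      AS s (B : Eis) (u * p) (u * q) p' q' r = AS s (B : Eis) p q p' q' r := by
  refine ⟨V π ((p ^ 3 + b * q ^ 3 : ℤ) : Eis) + 1, fun r hr => ?_⟩
  have hu' : (u : Eis) ≠ 0 := cast_ne hu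
  have a1 := Lf_bound hs.prime (cast_ne h.n1) hr (by omega) 1 (Or.inl rfl)
  have a2 := Lf_bound hs.prime (cast_ne h.n1) hr (by omega) 2 (Or.inr rfl)
  have eL : ∀ i : ℕ, Lf (u * p) (u * q) i r = (u : Eis) * Lf p q i r := by
    intro i
    unfold Lf
    push_cast
    ring
  unfold AS
  rw [eL, eL, LSym.right_mul hs hB hu' a1.1, LSym.right_mul hs hB hu' a2.1]
  ring

end TADT

open TADT in
open Pool.Agent.PT.TADD in
/-- TADT: additivity of the pairing in the second variable. -/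
theorem TADT_thm (hSTM : STM) (hSPP : SPP) (hSSL : SSL) (hSLC : SLC) (hSCJ : SCJ) (hLCI : LCI)
    (hAVV : AVV) (hLFIG : LFIG) (hSVAD : SVAD) : TADT := by
  -- the symbols at all places
  have hv : ∀ v : Pl, ∃ e, LSym (uni v) (sy v) e := by
    intro v
    rcases v with _ | π
    · exact ⟨4, hSLC⟩
    · exact ⟨1, hSTM π.1 π.2.1 (hSPP.2.2.2.1 π).1⟩
  have hw0 : (w : Eis) ≠ 0 := TADT.w_ne
  have hsy : ∀ (B x : ℤ), (B : Eis) ≠ 0 → AG B x → ∀ v : Pl, sy v (B : Eis) (x : Eis) = 0 := by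
    intro B x hB0 hx v
    have htm : ∀ π : PP, tm π.1 (B : Eis) (x : Eis) = 0 := by
      intro π
      have h1 := (hSTM π.1 π.2.1 (hSPP.2.2.2.1 π).1).skew (x : Eis) (B : Eis)
        (Pool.Agent.PT.TADD.cast_ne hx.ne) hB0
      rw [h1, hx.sym π, neg_zero]
    rcases v with _ | π
    · change sl (B : Eis) (x : Eis) = 0
      unfold sl
      rw [finsum_eq_zero_of_forall_eq_zero htm, neg_zero]
    · exact htm π
  constructor
  · intro b x₁ x₂ p₁ q₁ p₁' q₁' p₂ q₂ p₂' q₂' hb hx12 hb0 hx₁ hx₂ T₁ T₂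
    have S₁ := T₁.toSolW
    have S₂ := T₂.toSolW
    have d1 : p₁' ^ 3 + b * q₁' ^ 3 ≠ 0 := by
      intro h
      apply S₁.n1
      rw [S₁.eq, h, mul_zero]
    have d2 : p₂' ^ 3 + b * q₂' ^ 3 ≠ 0 := by
      intro h
      apply S₂.n1
      rw [S₂.eq, h, mul_zero]
    obtain ⟨p, q, p', q', hne, e0, e1, e2⟩ := exists_prod b hb p₁ q₁ p₁' q₁' p₂ q₂ p₂' q₂' d1 d2
    have d' : p' ^ 3 + b * q' ^ 3 ≠ 0 := ne_of_not_cube hb hne
    have hnorm : (p₁ ^ 3 + b * q₁ ^ 3) * (p₂ ^ 3 + b * q₂ ^ 3) * (p' ^ 3 + b * q' ^ 3) =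
        (p₁' ^ 3 + b * q₁' ^ 3) * (p₂' ^ 3 + b * q₂' ^ 3) * (p ^ 3 + b * q ^ 3) := by
      have h1 := N3_mul b p₁ q₁ 0 p₂ q₂ 0
      have h2 := N3_mul b p₁' q₁' 0 p₂' q₂' 0
      have h3 := N3_mul b (p₁ * p₂) (p₁ * q₂ + q₁ * p₂) (q₁ * q₂) p' q' 0
      have h4 := N3_mul b (p₁' * p₂') (p₁' * q₂' + q₁' * p₂') (q₁' * q₂') p q 0
      have h5 : N3 b (p₁ * p₂ * p' + b * ((p₁ * q₂ + q₁ * p₂) * 0 + q₁ * q₂ * q'))
          (p₁ * p₂ * q' + (p₁ * q₂ + q₁ * p₂) * p' + b * (q₁ * q₂ * 0))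
          (p₁ * p₂ * 0 + (p₁ * q₂ + q₁ * p₂) * q' + q₁ * q₂ * p') =
        N3 b (p₁' * p₂' * p + b * ((p₁' * q₂' + q₁' * p₂') * 0 + q₁' * q₂' * q))
          (p₁' * p₂' * q + (p₁' * q₂' + q₁' * p₂') * p + b * (q₁' * q₂' * 0))
          (p₁' * p₂' * 0 + (p₁' * q₂' + q₁' * p₂') * q + q₁' * q₂' * p) := by
        congr 1
        · linear_combination e0
        · linear_combination e1
        · linear_combination e2
      rw [h3, h4] at h5
      have g1 : N3 b (p₁ * p₂) (p₁ * q₂ + q₁ * p₂) (q₁ * q₂) =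
          (p₁ ^ 3 + b * q₁ ^ 3) * (p₂ ^ 3 + b * q₂ ^ 3) := by
        unfold N3 at h1 ⊢
        linear_combination h1
      have g2 : N3 b (p₁' * p₂') (p₁' * q₂' + q₁' * p₂') (q₁' * q₂') =
          (p₁' ^ 3 + b * q₁' ^ 3) * (p₂' ^ 3 + b * q₂' ^ 3) := by
        unfold N3 at h2 ⊢
        linear_combination h2
      have g3 : N3 b p' q' 0 = p' ^ 3 + b * q' ^ 3 := by unfold N3; ring
      have g4 : N3 b p q 0 = p ^ 3 + b * q ^ 3 := by unfold N3; ring
      rw [g1, g2, g3, g4] at h5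
      exact h5
    have hS : SolW b (x₁ * x₂) p q p' q' := by
      have heq : p ^ 3 + b * q ^ 3 = x₁ * x₂ * (p' ^ 3 + b * q' ^ 3) := by
        apply mul_left_cancel₀ (mul_ne_zero d1 d2)
        rw [← hnorm, S₁.eq, S₂.eq]
        ring
      refine ⟨heq, ?_⟩
      rw [heq]
      exact mul_ne_zero (mul_ne_zero hx₁ hx₂) d'
    have hT : Sol b (x₁ * x₂) p q p' q' := TADT.sol_of hb0 hx12 hS
    refine ⟨p, q, p', q', hT, ?_⟩
    intro B X Y hB hAb hA₁ hA₂ hXY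
    have hB0 : (B : Eis) ≠ 0 := Pool.Agent.PT.TADD.cast_ne hB.ne
    have hx₁' : (x₁ : Eis) ≠ 0 := Pool.Agent.PT.TADD.cast_ne hx₁
    have hx₂' : (x₂ : Eis) ≠ 0 := Pool.Agent.PT.TADD.cast_ne hx₂
    -- local additivity
    have hloc : ∀ v : Pl, TT v B b (x₁ * x₂) p q p' q' =
        TT v B b x₁ p₁ q₁ p₁' q₁' + TT v B b x₂ p₂ q₂ p₂' q₂' := by
      intro v
      obtain ⟨e, hs⟩ := hv v
      have hcast : (((x₁ * x₂ : ℤ)) : Eis) = (x₁ : Eis) * (x₂ : Eis) := by push_cast; rfl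
      by_cases hLC : LC (uni v) b
      · have h12 : sy v (B : Eis) ((x₁ * x₂ : ℤ) : Eis) = 0 := by
          rw [hcast, LSym.right_mul hs hB0 hx₁' hx₂', hsy B x₁ hB0 hA₁ v, hsy B x₂ hB0 hA₂ v,
            add_zero]
        obtain ⟨⟨N₁, hN₁⟩, -⟩ := hAVV v B b x₁ p₁ q₁ p₁' q₁' hB.ne hb0 hx₁ S₁ (hsy B x₁ hB0 hA₁ v)
          hLC
        obtain ⟨⟨N₂, hN₂⟩, -⟩ := hAVV v B b x₂ p₂ q₂ p₂' q₂' hB.ne hb0 hx₂ S₂ (hsy B x₂ hB0 hA₂ v)
          hLC
        obtain ⟨-, huniq⟩ := hAVV v B b (x₁ * x₂) p q p' q' hB.ne hb0 (mul_ne_zero hx₁ hx₂) hS h12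
          hLC
        obtain ⟨N₃, hN₃⟩ := AS_add hs hB0 (Pool.Agent.PT.TADD.cast_ne S₁.n1)
          (Pool.Agent.PT.TADD.cast_ne S₂.n1) (Pool.Agent.PT.TADD.cast_ne d')
          (Pool.Agent.PT.TADD.cast_ne d1) (Pool.Agent.PT.TADD.cast_ne d2)
          (Pool.Agent.PT.TADD.cast_ne hS.n1) e0 e1 e2
        have hAV : AV v B b p q p' q' = AV v B b p₁ q₁ p₁' q₁' + AV v B b p₂ q₂ p₂' q₂' := by
          refine huniq _ (max N₁ (max N₂ N₃)) (fun r hr => ?_)
          rw [hN₃ r ((pow_dvd_pow _ (by omega)).trans hr),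
            hN₁ r ((pow_dvd_pow _ (by omega)).trans hr),
            hN₂ r ((pow_dvd_pow _ (by omega)).trans hr)]
        unfold TT
        rw [if_pos hLC, if_pos hLC, if_pos hLC, hAV, hcast, LSym.right_mul hs hw0 hx₁' hx₂']
        ring
      · unfold TT
        rw [if_neg hLC, if_neg hLC, if_neg hLC]
        rcases v with _ | π
        · simp
        · simp only
          split_ifs with h
          · rw [hcast]
            have := LSym.right_mul hs hw0 hx₁' hx₂'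
            change tm π.1 w ((x₁ : Eis) * (x₂ : Eis)) = tm π.1 w (x₁ : Eis) + tm π.1 w (x₂ : Eis)
              at this
            rw [this]
            ring
          · simp
    have hOO : OO B b (x₁ * x₂) p q p' q' =
        OO B b x₁ p₁ q₁ p₁' q₁' + OO B b x₂ p₂ q₂ p₂' q₂' := by
      unfold OO
      rw [← finsum_add_distrib (hLFIG B b x₁ p₁ q₁ p₁' q₁' hB hAb hA₁ S₁)
        (hLFIG B b x₂ p₂ q₂ p₂' q₂' hB hAb hA₂ S₂)]
      exact finsum_congr hloc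
    unfold OT
    by_cases hL : LC lam b
    · rw [if_pos hL, if_pos hL, if_pos hL, hOO]
      ring
    · rw [if_neg hL, if_neg hL, if_neg hL, hOO]
      rcases hXY with hXY | ⟨rfl, rfl⟩ | ⟨hX, hY, hn⟩
      · exact absurd hXY hL
      · rw [SV_one_zero, SV_one_zero, SV_one_zero]
        ring
      · rw [hSVAD b x₁ x₂ p₁ q₁ p₁' q₁' p₂ q₂ p₂' q₂' p q p' q' X Y hb0 hx₁ hx₂ T₁ T₂ hT
          ⟨e0, e1, e2⟩ hX hY hn]
        ring
  · intro b x p q p' q' u hb0 hx hu T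
    have hS : Sol b (u ^ 3 * x) (u * p) (u * q) p' q' := by
      refine { eq := ?_, n1 := ?_, n2 := ?_ }
      · linear_combination u ^ 3 * T.eq
      · have h1 : (u * p) ^ 3 + b * (u * q) ^ 3 = u ^ 3 * (p ^ 3 + b * q ^ 3) := by ring
        rw [h1]
        exact mul_ne_zero (pow_ne_zero _ hu) T.n1
      · have h1 : (u * p) ^ 3 - u ^ 3 * x * p' ^ 3 = u ^ 3 * (p ^ 3 - x * p' ^ 3) := by ring
        rw [h1]
        exact mul_ne_zero (pow_ne_zero _ hu) T.n2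
    refine ⟨hS, ?_⟩
    intro B X Y hB hAb hAx _ hXY
    have hB0 : (B : Eis) ≠ 0 := Pool.Agent.PT.TADD.cast_ne hB.ne
    have hx' : (x : Eis) ≠ 0 := Pool.Agent.PT.TADD.cast_ne hx
    have hcast : (((u ^ 3 * x : ℤ)) : Eis) = (u : Eis) ^ 3 * (x : Eis) := by push_cast; rfl
    have hloc : ∀ v : Pl, TT v B b (u ^ 3 * x) (u * p) (u * q) p' q' = TT v B b x p q p' q' := by
      intro v
      obtain ⟨e, hs⟩ := hv v
      by_cases hLC : LC (uni v) b
      · have h12 : sy v (B : Eis) ((u ^ 3 * x : ℤ) : Eis) = 0 := by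
          rw [hcast, right_cube hs hB0 hx' hu, hsy B x hB0 hAx v]
        obtain ⟨⟨N₁, hN₁⟩, -⟩ := hAVV v B b x p q p' q' hB.ne hb0 hx T.toSolW (hsy B x hB0 hAx v)
          hLC
        obtain ⟨-, huniq⟩ := hAVV v B b (u ^ 3 * x) (u * p) (u * q) p' q' hB.ne hb0
          (mul_ne_zero (pow_ne_zero _ hu) hx) hS.toSolW h12 hLC
        obtain ⟨N₃, hN₃⟩ := AS_cube hs hB0 hu T.toSolW
        have hAV : AV v B b (u * p) (u * q) p' q' = AV v B b p q p' q' := by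
          refine huniq _ (max N₁ N₃) (fun r hr => ?_)
          rw [hN₃ r ((pow_dvd_pow _ (by omega)).trans hr),
            hN₁ r ((pow_dvd_pow _ (by omega)).trans hr)]
        unfold TT
        rw [if_pos hLC, if_pos hLC, hAV, hcast, right_cube hs hw0 hx' hu]
      · unfold TT
        rw [if_neg hLC, if_neg hLC]
        rcases v with _ | π
        · rfl
        · simp only
          have := right_cube hs hw0 hx' hu
          change tm π.1 w ((u : Eis) ^ 3 * (x : Eis)) = tm π.1 w (x : Eis) at this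
          rw [hcast, this]
    have hOO : OO B b (u ^ 3 * x) (u * p) (u * q) p' q' = OO B b x p q p' q' := by
      unfold OO
      exact finsum_congr hloc
    unfold OT
    by_cases hL : LC lam b
    · rw [if_pos hL, if_pos hL, hOO]
    · rw [if_neg hL, if_neg hL, hOO]
      rcases hXY with hXY | ⟨rfl, rfl⟩ | ⟨hX, hY, hn⟩
      · exact absurd hXY hL
      · rw [SV_one_zero, SV_one_zero]
      · rw [SV_cube hSLC hu hX hY hn T]

end Pool.Agent.PT3
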