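import Pool.Agent.PT3.Stmts

/-!
# PT3, module TALT (helper68): antisymmetry of the pairing
-/

namespace Pool.Agent.PT3

open Pool.Agent.Lib_helper18 Pool.Agent.Lib_helper18.Eis Pool.Agent.Lib_helper84.Cub
open Pool.Agent.PT Pool.Agent.PTE

namespace TALT

theorem sol_swap {b x p q p' q' : ℤ} (h : Sol b x p q p' q') : Sol x b p (-p') (-q) q' where
  eq := by linear_combination h.eq
  n1 := by
    intro h0
    apply h.n2
    linear_combination h0
  n2 := by
    intro h0
    apply h.n1
    linear_combination h0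

theorem SV_one_zero (s : Eis → Eis → ZMod 3) (x p q p' q' : ℤ) : SV s x p q p' q' 1 0 = 0 := by
  have h : ∀ (u v : ℤ) (i : ℕ), Df 1 0 u v i = (u : Eis) := by
    intro u v i
    unfold Df
    simp
  unfold SV
  simp only [h]
  ring

theorem TT_none {B b x p q p' q' : ℤ} (h : ¬ LC lam b) : TT none B b x p q p' q' = 0 := by
  unfold TT
  exact if_neg h

/-- The sum of the two pairings is the contribution of `lam`. -/
theorem key (hLFIG : LFIG) (hLFIN : LFIN) (hLAMG : LAMG) {B b x p q p' q' : ℤ} (hB : BG B)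
    (hb : AG B b) (hx : AG B x) (hS : Sol b x p q p' q') :
    OO B b x p q p' q' + OO B x b p (-p') (-q) q' =
      TT none B b x p q p' q' + TT none B x b p (-p') (-q) q' - UV sl B b x p q p' q' := by
  have f1 := hLFIG B b x p q p' q' hB hb hx hS.toSolW
  have f2 := hLFIG B x b p (-p') (-q) q' hB hx hb (sol_swap hS).toSolW
  obtain ⟨f3, e3⟩ := hLFIN.2.1 B b x p q p' q' hB.ne hb.ne hx.ne hS
  have hd : ∀ v : Pl, v ≠ none → TT v B b x p q p' q' + TT v B x b p (-p') (-q) q' -
      UV (sy v) B b x p q p' q' = 0 := by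
    intro v hv
    cases v with
    | none => exact absurd rfl hv
    | some π =>
      rw [hLAMG π B b x p q p' q' hB hb hx hS]
      exact sub_self _
  have f4 : (Function.support fun v : Pl => TT v B b x p q p' q' +
      TT v B x b p (-p') (-q) q' - UV (sy v) B b x p q p' q').Finite := by
    apply (Set.finite_singleton (none : Pl)).subset
    intro v hv
    by_contra h0
    exact hv (hd v h0)
  have h1 : ∑ᶠ v : Pl, (TT v B b x p q p' q' + TT v B x b p (-p') (-q) q') =
      ∑ᶠ v : Pl, (TT v B b x p q p' q' + TT v B x b p (-p') (-q) q' -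
        UV (sy v) B b x p q p' q') + ∑ᶠ v : Pl, UV (sy v) B b x p q p' q' := by
    rw [← finsum_add_distrib f4 f3]
    apply finsum_congr
    intro v
    ring
  have h2 : ∑ᶠ v : Pl, (TT v B b x p q p' q' + TT v B x b p (-p') (-q) q' -
        UV (sy v) B b x p q p' q') = TT none B b x p q p' q' +
        TT none B x b p (-p') (-q) q' - UV sl B b x p q p' q' :=
    finsum_eq_single _ none hd
  unfold OO
  rw [← finsum_add_distrib f1 f2, h1, e3, add_zero, h2]

end TALT

theorem TALT_thm (hSTM : STM) (hSPP : SPP) (hSSL : SSL) (hSLC : SLC) (hSCJ : SCJ) (hLCI : LCI)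
    (hAVV : AVV) (hLFIG : LFIG) (hLFIN : LFIN) (hLAMG : LAMG) (hLB : LB) (hLVA : LVA)
    (hLE1 : LE1) (hLCL : LCL) : TALT := by
  intro B b x p q p' q' X Y X' Y' hB hb hx hS hc
  have hk := TALT.key hLFIG hLFIN hLAMG hB hb hx hS
  unfold OT
  rw [neg_neg, neg_neg]
  by_cases hbL : LC lam b
  · rw [if_pos hbL, add_zero]
    by_cases hxL : LC lam x
    · rw [if_pos hxL, add_zero, hk,
        hLB.1 B b x p q p' q' hB.ne hb.ne hx.ne hS hbL hxL, sub_self]
    · rw [if_neg hxL, ← add_assoc, hk, TALT.TT_none hxL]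
      rcases hc with ⟨-, h1 | ⟨h1, h2, rfl, rfl⟩ | h1⟩ | ⟨h1, h2, h3, -⟩
      · exact absurd h1 hxL
      · rw [TALT.SV_one_zero, hLB.2 B b x p q p' q' hB.ne hb.ne hx.ne hS hbL h1 h2]
        ring
      · rw [hLVA B b x p q p' q' X' Y' hB.ne hb.ne hx.ne hS hbL h1]
        ring
      · exfalso
        have h4 := ((hLCL.1 b hb.ne).1 hbL).1
        rw [h2, h1] at h4
        exact absurd h4 (by decide)
  · rw [if_neg hbL]
    rcases hc with ⟨h1, -⟩ | ⟨h1, h2, h3, rfl, rfl, h4, h5⟩
    · exact absurd h1 hbL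
    · rw [TALT.SV_one_zero, add_zero, if_neg h4, ← add_assoc, hk, TALT.TT_none hbL,
        TALT.TT_none h4,
        hLE1 B b x p q p' q' X' Y' hB.ne hb.ne hx.ne hS h1 h2 h3 h4 h5]
      ring

end Pool.Agent.PT3
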