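import Pool.Agent.PT3.Stmts
import Pool.Agent.PT.F2B
import Pool.Agent.PT.F3R
import Pool.Agent.PT.F3U

/-!
# TAMG: the tame places, two noncubes or one noncube
-/

open NumberField IsDedekindDomain Finset
open scoped nonZeroDivisors Pointwise

namespace Pool.Agent.PT3

open Pool.Agent.Lib_helper18 Pool.Agent.Lib_helper18.Eis Pool.Agent.Lib_helper84.Cub
open Pool.Agent.PT Pool.Agent.PTE

namespace TAMG

theorem f2bg (hSTM : STM) (hSPP : SPP) (hLCI : LCI) (hIF2 : IF2) : F2BG := by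
  intro π B b x p q p' q' hB hb hx hsol hLb hLx
  have hLSym : LSym π.1 (tm π.1) 1 := hSTM π.1 π.2.1 (hSPP.2.2.2.1 π).1
  have h1 : ¬ (3 ∣ V π.1 (x : Eis) ∧ ch π.1 (x : Eis) = 0) :=
    fun h => hLx ((hLCI.1 π x hx.ne).2 h)
  obtain ⟨j, hj, hj'⟩ := PT.F2B.tm_smul (hx.sym π) h1
  obtain ⟨N0, hN0⟩ := hIF2 π.1 (tm π.1) 1 hLSym b x p q p' q' hb.ne hx.ne hsol
  refine ⟨N0, fun r hr => ?_⟩
  have h2 := hN0 r hr
  have h3 : AS (tm π.1) (B : Eis) p q p' q' r = j * AS (tm π.1) (x : Eis) p q p' q' r := by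
    unfold AS
    rw [hj, hj, hj, hj]
    ring
  rw [h3, h2, hj, hj, hj']
  ring

open PT.F3R in
theorem f3rg (hSTM : STM) : F3RG := by
  intro π B b x p q p' q' hB hb hx hs hdvd hVb hVx
  have hπ : Prime π.1 := π.2.1
  have h3 := not_dvd_three π
  have S := hSTM π.1 hπ h3
  have B0 : (B : Eis) ≠ 0 := ne_zero_cast hB.ne
  have b0 : (b : Eis) ≠ 0 := ne_zero_cast hb.ne
  have x0 : (x : Eis) ≠ 0 := ne_zero_cast hx.ne
  have w0 : w ≠ 0 := isUnit_w.ne_zero
  have Vw : V π.1 w = 0 := V_eq_zero (not_dvd_of_isUnit hπ isUnit_w)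
  have tw : ∀ y : Eis, tm π.1 w y = (V π.1 y : ZMod 3) * ch π.1 w := by
    intro y
    unfold tm
    rw [Vw]
    push_cast
    ring
  have hv : (V π.1 (B : Eis) : ZMod 3) ≠ 0 := by
    rw [Ne, ← three_dvd_iff']
    have h1 : V π.1 (B : Eis) ≠ 0 := fun h => V_eq_zero_iff.1 h hdvd
    have h2 := hB.cf π
    omega
  have hβ : (V π.1 (b : Eis) : ZMod 3) ≠ 0 := by rwa [Ne, ← three_dvd_iff']
  have hξ : (V π.1 (x : Eis) : ZMod 3) ≠ 0 := by rwa [Ne, ← three_dvd_iff']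
  have skw : ∀ a c : Eis, tm π.1 a c = - tm π.1 c a := by
    intro a c
    unfold tm
    ring
  have e3 : ∀ n : ℕ, ((3 * n : ℕ) : ZMod 3) = 0 := fun n => (three_dvd_iff' _).1 ⟨n, rfl⟩
  -- the valuations of the four terms
  have c1 : (p : Eis) ^ 3 ≠ 0 → (V π.1 ((p : Eis) ^ 3) : ZMod 3) = 0 := by
    intro h
    have h1 : (p : Eis) ≠ 0 := fun h' => h (by rw [h']; ring)
    rw [V_pow hπ h1, e3]
  have c2 : (b : Eis) * (q : Eis) ^ 3 ≠ 0 →
      (V π.1 ((b : Eis) * (q : Eis) ^ 3) : ZMod 3) = V π.1 (b : Eis) := by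
    intro h
    have h1 : (q : Eis) ≠ 0 := fun h' => h (by rw [h']; ring)
    rw [V_mul hπ b0 (pow_ne_zero _ h1), V_pow hπ h1, Nat.cast_add, e3, add_zero]
  have c3 : -((x : Eis) * (p' : Eis) ^ 3) ≠ 0 →
      (V π.1 (-((x : Eis) * (p' : Eis) ^ 3)) : ZMod 3) = V π.1 (x : Eis) := by
    intro h
    have h1 : (p' : Eis) ≠ 0 := fun h' => h (by rw [h']; ring)
    rw [V_neg, V_mul hπ x0 (pow_ne_zero _ h1), V_pow hπ h1, Nat.cast_add, e3, add_zero]
  have c4 : -((x : Eis) * (b : Eis) * (q' : Eis) ^ 3) ≠ 0 →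
      (V π.1 (-((x : Eis) * (b : Eis) * (q' : Eis) ^ 3)) : ZMod 3) =
        V π.1 (x : Eis) + V π.1 (b : Eis) := by
    intro h
    have h1 : (q' : Eis) ≠ 0 := fun h' => h (by rw [h']; ring)
    rw [V_neg, V_mul hπ (mul_ne_zero x0 b0) (pow_ne_zero _ h1), V_mul hπ x0 b0, V_pow hπ h1,
      Nat.cast_add, e3, add_zero, Nat.cast_add]
  have heq : (p : Eis) ^ 3 + (b : Eis) * (q : Eis) ^ 3 =
      (x : Eis) * ((p' : Eis) ^ 3 + (b : Eis) * (q' : Eis) ^ 3) := by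
    exact_mod_cast congrArg (Int.cast : ℤ → Eis) hs.eq
  have hn1 : (p : Eis) ^ 3 + (b : Eis) * (q : Eis) ^ 3 ≠ 0 := by
    have := ne_zero_cast hs.n1
    push_cast at this
    exact this
  have hG : ∀ i, Gf p q p' q' i = (q : Eis) * p' - w ^ i * p * q' := fun i => rfl
  have hBxb : ((B * x * b : ℤ) : Eis) = (B : Eis) * x * b := by push_cast; ring
  have hsum : tm π.1 w ((B * x * b : ℤ) : Eis) = ((V π.1 (B : Eis) : ZMod 3) +
      V π.1 (x : Eis) + V π.1 (b : Eis)) * ch π.1 w := by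
    rw [tw, hBxb, V_mul hπ (mul_ne_zero B0 x0) b0, V_mul hπ B0 x0]
    push_cast
    ring
  unfold UV
  rw [hsum, tw, tw, ite3, ite3, Nat.cast_add, Nat.cast_add]
  by_cases hj : (V π.1 (b : Eis) : ZMod 3) = V π.1 (x : Eis)
  · obtain ⟨f1, f2, f3, f4, f5⟩ := four hπ (a := (p : Eis) ^ 3) (b := (b : Eis) * (q : Eis) ^ 3)
      (c := -((x : Eis) * (p' : Eis) ^ 3)) (d := -((x : Eis) * (b : Eis) * (q' : Eis) ^ 3))
      (by linear_combination heq) c1 c2 c3 c4 hβ.symm hξ.symm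
      (by
        rw [← hj]
        intro h
        apply hβ
        linear_combination h + (V π.1 (b : Eis) : ZMod 3) * three_zmod)
      (by
        intro h
        apply hξ
        linear_combination -h)
      (by
        intro h
        apply hβ
        linear_combination -h)
      (fun h => hn1 (by rw [h.1, h.2.1, add_zero]))
    obtain ⟨g1, g2⟩ := cmp hπ (A := -((x : Eis) * b)) (y := (q : Eis) * p') (z := (p : Eis) * q')
      (neg_ne_zero.2 (mul_ne_zero x0 b0)) f1 f2 f3 f4 f5 (by ring) (by ring)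
    have hc : ∀ i, tm π.1 (B : Eis) (Gf p q p' q' i) = tm π.1 (B : Eis) ((q : Eis) * p') := by
      intro i
      rw [skw, skw (B : Eis), S.cont ((q : Eis) * p') (Gf p q p' q' i) (B : Eis) g1 B0]
      have e : Gf p q p' q' i - (q : Eis) * p' = (p : Eis) * q' * (-w ^ i) := by
        rw [hG]
        ring
      rw [e]
      exact Dvd.dvd.mul_right g2 _
    rw [hc, hc, sub_self, zero_add, ← hj]
    exact fin1 _ _ _ hv hβ
  · obtain ⟨f1, f2, f3, f4, f5⟩ := four hπ (a := (b : Eis) * (q : Eis) ^ 3) (b := (p : Eis) ^ 3)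
      (c := -((x : Eis) * (b : Eis) * (q' : Eis) ^ 3)) (d := -((x : Eis) * (p' : Eis) ^ 3))
      (by linear_combination heq) c2 c1 c4 c3 hβ
      (by
        intro h
        apply hξ
        linear_combination -h)
      hj hξ.symm
      (by
        intro h
        apply hβ
        linear_combination h)
      (fun h => hn1 (by rw [h.1, h.2.1, add_zero]))
    obtain ⟨g1, g2⟩ := cmp hπ (A := -((x : Eis) * b)) (y := (p : Eis) * q') (z := (q : Eis) * p')
      (neg_ne_zero.2 (mul_ne_zero x0 b0)) f1 f2 f3 f4 f5 (by ring) (by ring)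
    have hc : ∀ i, tm π.1 (B : Eis) (Gf p q p' q' i) =
        -(tm π.1 (w ^ i) (B : Eis) + tm π.1 (-((p : Eis) * q')) (B : Eis)) := by
      intro i
      have gn : -((p : Eis) * q') ≠ 0 := neg_ne_zero.2 g1
      have wi : w ^ i ≠ 0 := pow_ne_zero _ w0
      have hVi : V π.1 (w ^ i * -((p : Eis) * q')) = V π.1 ((p : Eis) * q') := by
        rw [V_mul hπ wi gn, V_neg, V_eq_zero (not_dvd_of_isUnit hπ (isUnit_w.pow i)), zero_add]
      rw [skw, ← S.mul _ _ _ wi gn B0,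
        S.cont (w ^ i * -((p : Eis) * q')) (Gf p q p' q' i) (B : Eis) (mul_ne_zero wi gn) B0]
      have e : Gf p q p' q' i - w ^ i * -((p : Eis) * q') = (q : Eis) * p' := by
        rw [hG]
        ring
      rw [e, hVi]
      exact g2
    have hw2 : tm π.1 (w ^ 2) (B : Eis) = tm π.1 w (B : Eis) + tm π.1 w (B : Eis) := by
      rw [pow_two, S.mul _ _ _ w0 w0 B0]
    rw [hc, hc, hw2, pow_one, tw]
    have h6 := fin2 _ _ _ (ch π.1 w) hv hβ hξ hj
    rw [← h6]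
    ring

theorem f3ug (hSTM : STM) : F3UG := by
  intro π B b x p q p' q' hB hAb hAx hS hπB hcb hcx
  have hl : Prime π.1 := π.2.1
  have h3 : ¬ π.1 ∣ 3 := by
    intro h
    have h1 := (dvd_three_iff hl).1 h
    have h2 : lam ∣ π.1 := h1.symm.dvd
    rw [lam_dvd_iff] at h2
    have h4 := π.2.2.1
    have h5 := π.2.2.2
    omega
  have hb : ¬ π.1 ∣ (b : Eis) := hAb.unr π hπB
  have hx : ¬ π.1 ∣ (x : Eis) := hAx.unr π hπB
  rw [PT.F3U.ch_eq hb] at hcb
  rw [PT.F3U.ch_eq hx] at hcx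
  have hw : ¬ π.1 ∣ w := not_dvd_of_isUnit hl isUnit_w
  -- the maximal power
  have hpq : ¬ ((p : Eis) = 0 ∧ (q : Eis) = 0) := by
    rintro ⟨h1, h2⟩
    have h1' : p = 0 := by
      have h4 := congrArg Eis.re h1
      simpa using h4
    have h2' : q = 0 := by
      have h4 := congrArg Eis.re h2
      simpa using h4
    apply hS.n1
    rw [h1', h2']
    ring
  obtain ⟨m, P, Q, P', Q', eP, eQ, eP', eQ', hn⟩ :=
    PT.F3U.exists_max (p' := (p' : Eis)) (q' := (q' : Eis)) hl hpq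
  have heq : (p : Eis) ^ 3 + b * (q : Eis) ^ 3 = x * ((p' : Eis) ^ 3 + b * (q' : Eis) ^ 3) := by
    have h1 : ((p ^ 3 + b * q ^ 3 : ℤ) : Eis) = ((x * (p' ^ 3 + b * q' ^ 3) : ℤ) : Eis) := by
      rw [hS.eq]
    push_cast at h1
    exact h1
  have heq2 : P ^ 3 + (b : Eis) * Q ^ 3 = (x : Eis) * (P' ^ 3 + b * Q' ^ 3) := by
    have h0 : (π.1 ^ m) ^ 3 ≠ 0 := pow_ne_zero _ (pow_ne_zero _ hl.ne_zero)
    apply mul_left_cancel₀ h0
    rw [eP, eQ, eP', eQ'] at heq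
    linear_combination heq
  have hV : ∀ i, V π.1 (Gf p q p' q' i) = m + m := by
    intro i
    have e1 : Gf p q p' q' i = π.1 ^ (m + m) * (Q * P' - w ^ i * P * Q') := by
      unfold Gf
      rw [eP, eQ, eP', eQ', pow_add]
      ring
    rw [e1]
    exact V_pow_mul hl _ (PT.F3U.key hl h3 hb hcb hx hcx heq2 hn i)
  have hVB : V π.1 (B : Eis) = 0 := V_eq_zero hπB
  have hVw : V π.1 w = 0 := V_eq_zero hw
  have hVP : V π.1 ((B * x * b : ℤ) : Eis) = 0 := by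
    apply V_eq_zero
    push_cast
    intro h
    rcases hl.dvd_or_dvd h with h1 | h1
    · rcases hl.dvd_or_dvd h1 with h2 | h2
      · exact hπB h2
      · exact hx h2
    · exact hb h1
  unfold UV tm
  rw [hV 1, hV 2, hVB, hVw, hVP]
  simp

end TAMG

theorem TAMG_thm (hSTM : STM) (hSPP : SPP) (hSSL : SSL) (hSLC : SLC) (hSREC : SREC) (hSCJ : SCJ)
    (hLCI : LCI) (hIF2 : IF2) : TAMG :=
  ⟨TAMG.f2bg hSTM hSPP hLCI hIF2, TAMG.f3rg hSTM, TAMG.f3ug hSTM⟩

end Pool.Agent.PT3
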