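import Pool.Agent.PT3.Stmts
import Pool.Agent.PT.TEND

/-!
# PT3_TENT: the matrix of the pairing is alternating and the class of a point is in its kernel
-/

open NumberField IsDedekindDomain Finset
open scoped nonZeroDivisors Pointwise

namespace Pool.Agent.PT3

open Pool.Agent.Lib_helper18 Pool.Agent.Lib_helper18.Eis Pool.Agent.Lib_helper84.Cub
open Pool.Agent.PT Pool.Agent.PTE

namespace TENT

/-! ### Admissible classes -/

theorem ag_mul (hSTM : STM) (hSPP : SPP) {B x y : ℤ} (hB : B ≠ 0) (hx : AG B x)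
    (hy : AG B y) : AG B (x * y) where
  ne := mul_ne_zero hx.ne hy.ne
  sym := fun π => by
    have hs := hSTM π.1 π.2.1 (hSPP.2.2.2.1 π).1
    push_cast
    rw [hs.mul _ _ _ (TEND.cast_ne hx.ne) (TEND.cast_ne hy.ne) (TEND.cast_ne hB), hx.sym π,
      hy.sym π, add_zero]
  unr := fun π h1 h2 => by
    push_cast at h2
    rcases π.2.1.dvd_or_dvd h2 with h | h
    · exact hx.unr π h1 h
    · exact hy.unr π h1 h

theorem ag_one (hSTM : STM) (hSPP : SPP) {B : ℤ} (hB : B ≠ 0) : AG B 1 where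
  ne := one_ne_zero
  sym := fun π => by
    have hs := hSTM π.1 π.2.1 (hSPP.2.2.2.1 π).1
    have h1 : (1 : Eis) ≠ 0 := one_ne_zero
    have h := hs.mul 1 1 _ h1 h1 (TEND.cast_ne hB)
    rw [one_mul] at h
    push_cast
    have h2 : tm π.1 1 (B : Eis) + 0 = tm π.1 1 (B : Eis) + tm π.1 1 (B : Eis) := by
      rw [add_zero]
      exact h
    exact (add_left_cancel h2).symm
  unr := fun π _ h2 => by
    push_cast at h2
    exact π.2.1.not_isUnit (isUnit_of_dvd_one h2)

theorem ag_pow (hSTM : STM) (hSPP : SPP) {B x : ℤ} (hB : B ≠ 0) (hx : AG B x) (n : ℕ) :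
    AG B (x ^ n) := by
  induction n with
  | zero =>
    rw [pow_zero]
    exact ag_one hSTM hSPP hB
  | succ n ih =>
    rw [pow_succ]
    exact ag_mul hSTM hSPP hB ih hx

theorem ag_prod (hSTM : STM) (hSPP : SPP) {B : ℤ} (hB : B ≠ 0) {s : ℕ} {b : Fin s → ℤ}
    (hb : ∀ i, AG B (b i)) (c : Fin s → ℕ) (t : Finset (Fin s)) :
    AG B (∏ i ∈ t, b i ^ c i) := by
  classical
  induction t using Finset.induction_on with
  | empty =>
    rw [Finset.prod_empty]
    exact ag_one hSTM hSPP hB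
  | insert i t hi ih =>
    rw [Finset.prod_insert hi]
    exact ag_mul hSTM hSPP hB (ag_pow hSTM hSPP hB (hb i) _) ih

/-! ### The class at `lam` of a product -/

theorem hom_one {f : ℤ → ZMod 3} (hf : ∀ a b : ℤ, a ≠ 0 → b ≠ 0 → f (a * b) = f a + f b) :
    f 1 = 0 := by
  have h := hf 1 1 one_ne_zero one_ne_zero
  rw [one_mul] at h
  have h2 : f 1 + 0 = f 1 + f 1 := by rw [add_zero]; exact h
  exact (add_left_cancel h2).symm

theorem hom_pow {f : ℤ → ZMod 3} (hf : ∀ a b : ℤ, a ≠ 0 → b ≠ 0 → f (a * b) = f a + f b)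
    {a : ℤ} (ha : a ≠ 0) (n : ℕ) : f (a ^ n) = (n : ZMod 3) * f a := by
  induction n with
  | zero => rw [pow_zero, hom_one hf]; simp
  | succ n ih =>
    rw [pow_succ, hf _ _ (pow_ne_zero n ha) ha, ih]
    push_cast
    ring

theorem hom_prod {f : ℤ → ZMod 3} (hf : ∀ a b : ℤ, a ≠ 0 → b ≠ 0 → f (a * b) = f a + f b)
    {s : ℕ} {b : Fin s → ℤ} (hb : ∀ i, b i ≠ 0) (c : Fin s → ℕ) (t : Finset (Fin s)) :
    f (∏ i ∈ t, b i ^ c i) = ∑ i ∈ t, (c i : ZMod 3) * f (b i) := by
  classical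
  induction t using Finset.induction_on with
  | empty =>
    rw [Finset.prod_empty, Finset.sum_empty, hom_one hf]
  | insert i t hi ih =>
    rw [Finset.prod_insert hi, Finset.sum_insert hi, hf _ _ (pow_ne_zero _ (hb i))
      (Finset.prod_ne_zero_iff.2 fun k _ => pow_ne_zero _ (hb k)), ih, hom_pow hf (hb i)]

/-- the multiplicity of the class of `B` in a product -/
noncomputable def mth {s : ℕ} (τ : Fin s → Fin 3) (c : Fin s → ℕ) : ZMod 3 :=
  ∑ i, if τ i = 1 then (c i : ZMod 3) else 0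

theorem cls (hLCL : LCL) {s : ℕ} {τ : Fin s → Fin 3} {b X Y : Fin s → ℤ} {B : ℤ}
    (hL : LamS B τ b X Y) (hb : ∀ i, b i ≠ 0) (c : Fin s → ℕ)
    (hc : ∀ i, τ i = 2 → (c i : ZMod 3) = 0) :
    lv (∏ i, b i ^ c i) = mth τ c * lv B ∧ lw (∏ i, b i ^ c i) = mth τ c * lw B := by
  have h3 : ∀ i, τ i = 0 ∨ τ i = 1 ∨ τ i = 2 := by
    intro i
    generalize τ i = t
    revert t
    decide
  have key : ∀ f : ℤ → ZMod 3, (∀ a b : ℤ, a ≠ 0 → b ≠ 0 → f (a * b) = f a + f b) →
      (∀ i, τ i = 0 → f (b i) = 0) → (∀ i, τ i = 1 → f (b i) = f B) →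
      f (∏ i, b i ^ c i) = mth τ c * f B := by
    intro f hf h0 h1
    rw [hom_prod hf hb c, mth, Finset.sum_mul]
    refine Finset.sum_congr rfl fun i _ => ?_
    rcases h3 i with h | h | h
    · rw [h0 i h, mul_zero, if_neg (by rw [h]; decide), zero_mul]
    · rw [h1 i h, if_pos h]
    · rw [hc i h, zero_mul, if_neg (by rw [h]; decide), zero_mul]
  constructor
  · refine key lv (fun a b ha hb => (hLCL.2.1 a b ha hb).1) (fun i hi => ?_) fun i hi => ?_
    · exact ((hLCL.1 (b i) (hb i)).1 (hL.t0 i hi)).1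
    · exact (hL.t1 i hi).2.1
  · refine key lw (fun a b ha hb => (hLCL.2.1 a b ha hb).2) (fun i hi => ?_) fun i hi => ?_
    · exact ((hLCL.1 (b i) (hb i)).1 (hL.t0 i hi)).2
    · exact (hL.t1 i hi).2.2.1

/-! ### The trivial solution -/

theorem sol_self {b : ℤ} (hb : b ≠ 0) : Sol b b 0 1 1 0 where
  eq := by ring
  n1 := by simpa using hb
  n2 := by simpa using hb

theorem sv_triv (s : Eis → Eis → ZMod 3) (x p q p' q' : ℤ) : SV s x p q p' q' 1 0 = 0 := by
  unfold SV Df
  simp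

theorem ot_self (hTTHT : TTHT) {B b X Y : ℤ} (hB : BG B) (hb : AG B b)
    (h : LC lam b ∨ (lv b = lv B ∧ lw b = lw B ∧ X = 1 ∧ Y = 0)) :
    OT B b X Y b 0 1 1 0 = 0 := by
  unfold OT
  rw [hTTHT B b hB hb (h.imp id fun h => ⟨h.1, h.2.1⟩), zero_add]
  rcases h with h | ⟨-, -, rfl, rfl⟩
  · rw [if_pos h]
  · rw [sv_triv, ite_self]

/-- the point of the square class -/
theorem pt_sq {B x X Y : ℤ} (hx : x ≠ 0) (h : Pt B x X Y) : Pt B (x ^ 2) (x * Y) X where
  hX := mul_ne_zero hx h.hY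
  hY := h.hX
  eq := by
    obtain ⟨c, hc, h1⟩ := h.eq
    refine ⟨x * c, mul_ne_zero hx hc, ?_⟩
    linear_combination x ^ 3 * h1

section Row

variable {s : ℕ} {τ : Fin s → Fin 3} {b X Y : Fin s → ℤ} {p q p' q' : Fin s → Fin s → ℤ} {B : ℤ}

/-- the solution for one factor -/
theorem one (hTTHT : TTHT) (hSys : SysG b p q p' q') (hB : BG B) (hA : ∀ i, AG B (b i))
    (hL : LamS B τ b X Y) (j i : Fin s) (hj : τ j ≠ 2 ∨ i ≠ j) :
    ∃ P Q P' Q' : ℤ, Sol (b j) (b i) P Q P' Q' ∧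
      OT B (b j) (X j) (Y j) (b i) P Q P' Q' = MaT b X Y p q p' q' B j i := by
  by_cases hij : i = j
  · subst hij
    have hj2 : τ i ≠ 2 := hj.resolve_right fun h => h rfl
    refine ⟨0, 1, 1, 0, sol_self (hA i).ne, ?_⟩
    have hM : MaT b X Y p q p' q' B i i = 0 := by simp [MaT]
    rw [hM]
    refine ot_self hTTHT hB (hA i) ?_
    have h3 : τ i = 0 ∨ τ i = 1 := by
      revert hj2
      generalize τ i = t
      revert t
      decide
    rcases h3 with h | h
    · exact Or.inl (hL.t0 i h)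
    · exact Or.inr (hL.t1 i h).2
  · have hji : j ≠ i := fun h => hij h.symm
    refine ⟨_, _, _, _, hSys.sol j i hji, ?_⟩
    unfold MaT
    rw [if_neg hji]

theorem prod_split (b : Fin s → ℤ) (g g' : Fin s → ℕ) (i0 : Fin s)
    (h : ∀ i, g i = g' i + if i = i0 then 1 else 0) :
    ∏ i, b i ^ g i = (∏ i, b i ^ g' i) * b i0 := by
  have h1 : ∏ i, b i ^ (if i = i0 then 1 else 0) = b i0 := by
    rw [Finset.prod_eq_single i0]
    · simp
    · intro i _ hi
      simp [hi]
    · intro hi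
      exact absurd (Finset.mem_univ _) hi
  conv_rhs => rw [← h1]
  rw [← Finset.prod_mul_distrib]
  refine Finset.prod_congr rfl fun i _ => ?_
  rw [← pow_add, h i]

theorem sum_split (m : Fin s → ZMod 3) (g g' : Fin s → ℕ) (i0 : Fin s)
    (h : ∀ i, g i = g' i + if i = i0 then 1 else 0) :
    ∑ i, m i * (g i : ZMod 3) = (∑ i, m i * (g' i : ZMod 3)) + m i0 := by
  have h1 : ∑ i, (if i = i0 then m i else 0) = m i0 := by
    rw [Finset.sum_ite_eq']
    simp
  conv_rhs => rw [← h1]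
  rw [← Finset.sum_add_distrib]
  refine Finset.sum_congr rfl fun i _ => ?_
  rw [h i]
  split_ifs <;> push_cast <;> ring

/-- solutions for reduced exponents -/
theorem red (hTADT : TADT) (hTTHT : TTHT) (hSTM : STM) (hSPP : SPP) (hSys : SysG b p q p' q')
    (hB : BG B) (hA : ∀ i, AG B (b i)) (hL : LamS B τ b X Y) (j : Fin s)
    (hbj : ¬ ∃ c : ℤ, c ^ 3 = b j)
    (hcond : LC lam (b j) ∨ (X j = 1 ∧ Y j = 0) ∨
      (X j ≠ 0 ∧ Y j ≠ 0 ∧ X j ^ 3 + b j * Y j ^ 3 ≠ 0)) (n : ℕ) :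
    ∀ g : Fin s → ℕ, ∑ i, g i = n + 1 → (∀ i, g i ≤ 2) → (τ j ≠ 2 ∨ g j = 0) →
    ∃ P Q P' Q' : ℤ, Sol (b j) (∏ i, b i ^ g i) P Q P' Q' ∧
      OT B (b j) (X j) (Y j) (∏ i, b i ^ g i) P Q P' Q' =
        ∑ i, MaT b X Y p q p' q' B j i * (g i : ZMod 3) := by
  induction n with
  | zero =>
    intro g hg hg2 hgj
    obtain ⟨i0, hi0⟩ : ∃ i, g i ≠ 0 := by
      by_contra hcon
      push Not at hcon
      rw [Finset.sum_eq_zero fun i _ => hcon i] at hg
      omega
    have hsp : ∀ i, g i = (g i - if i = i0 then 1 else 0) + if i = i0 then 1 else 0 := by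
      intro i
      split_ifs with h
      · rw [h]; omega
      · omega
    have hsum : ∑ i, g i = (∑ i, (g i - if i = i0 then 1 else 0)) + 1 := by
      have h1 : ∑ i : Fin s, (if i = i0 then 1 else 0) = 1 := by
        rw [Finset.sum_ite_eq']
        simp
      calc ∑ i, g i = ∑ i, ((g i - if i = i0 then 1 else 0) + if i = i0 then 1 else 0) :=
            Finset.sum_congr rfl fun i _ => hsp i
        _ = (∑ i, (g i - if i = i0 then 1 else 0)) + ∑ i : Fin s, (if i = i0 then 1 else 0) :=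
            Finset.sum_add_distrib
        _ = _ := by rw [h1]
    have h0 : ∀ i, (g i - if i = i0 then 1 else 0) = 0 := by
      have h2 : ∑ i, (g i - if i = i0 then 1 else 0) = 0 := by omega
      intro i
      exact (Finset.sum_eq_zero_iff.1 h2) i (Finset.mem_univ i)
    obtain ⟨P, Q, P', Q', h1, h2⟩ := one hTTHT hSys hB hA hL j i0 (by
      rcases hgj with h | h
      · exact Or.inl h
      · right
        rintro rfl
        exact hi0 h)
    refine ⟨P, Q, P', Q', ?_, ?_⟩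
    · rw [prod_split b g _ i0 hsp]
      have h3 : ∏ i, b i ^ (g i - if i = i0 then 1 else 0) = 1 :=
        Finset.prod_eq_one fun i _ => by rw [h0 i, pow_zero]
      rw [h3, one_mul]
      exact h1
    · rw [prod_split b g _ i0 hsp, sum_split _ g _ i0 hsp]
      have h3 : ∏ i, b i ^ (g i - if i = i0 then 1 else 0) = 1 :=
        Finset.prod_eq_one fun i _ => by rw [h0 i, pow_zero]
      have h4 : ∑ i, MaT b X Y p q p' q' B j i *
          (((g i - if i = i0 then 1 else 0 : ℕ)) : ZMod 3) = 0 :=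
        Finset.sum_eq_zero fun i _ => by rw [h0 i, Nat.cast_zero, mul_zero]
      rw [h3, one_mul, h4, zero_add]
      exact h2
  | succ n ih =>
    intro g hg hg2 hgj
    obtain ⟨i0, hi0⟩ : ∃ i, g i ≠ 0 := by
      by_contra hcon
      push Not at hcon
      rw [Finset.sum_eq_zero fun i _ => hcon i] at hg
      omega
    have hsp : ∀ i, g i = (g i - if i = i0 then 1 else 0) + if i = i0 then 1 else 0 := by
      intro i
      split_ifs with h
      · rw [h]; omega
      · omega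
    have hsum : ∑ i, g i = (∑ i, (g i - if i = i0 then 1 else 0)) + 1 := by
      have h1 : ∑ i : Fin s, (if i = i0 then 1 else 0) = 1 := by
        rw [Finset.sum_ite_eq']
        simp
      calc ∑ i, g i = ∑ i, ((g i - if i = i0 then 1 else 0) + if i = i0 then 1 else 0) :=
            Finset.sum_congr rfl fun i _ => hsp i
        _ = (∑ i, (g i - if i = i0 then 1 else 0)) + ∑ i : Fin s, (if i = i0 then 1 else 0) :=
            Finset.sum_add_distrib
        _ = _ := by rw [h1]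
    obtain ⟨P, Q, P', Q', h1, h2⟩ := one hTTHT hSys hB hA hL j i0 (by
      rcases hgj with h | h
      · exact Or.inl h
      · right
        rintro rfl
        exact hi0 h)
    obtain ⟨P₁, Q₁, P₁', Q₁', h3, h4⟩ := ih (fun i => g i - if i = i0 then 1 else 0)
      (by
        show ∑ i, (g i - if i = i0 then 1 else 0) = n + 1
        omega)
      (fun i => (Nat.sub_le _ _).trans (hg2 i))
      (by
        rcases hgj with h | h
        · exact Or.inl h
        · right
          show g j - (if j = i0 then 1 else 0) = 0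
          omega)
    have hnc : ¬ ∃ c : ℤ, c ^ 3 =
        (∏ i, b i ^ (g i - if i = i0 then 1 else 0)) * b i0 := by
      rw [← prod_split b g _ i0 hsp]
      refine hSys.ind g ⟨i0, ?_⟩
      intro h
      have := hg2 i0
      omega
    obtain ⟨P₂, Q₂, P₂', Q₂', h5, h6⟩ := hTADT.1 (b j)
      (∏ i, b i ^ (g i - if i = i0 then 1 else 0)) (b i0) P₁ Q₁ P₁' Q₁' P Q P' Q' hbj hnc
      (hA j).ne (ag_prod hSTM hSPP hB.ne hA _ Finset.univ).ne (hA i0).ne h3 h1
    refine ⟨P₂, Q₂, P₂', Q₂', ?_, ?_⟩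
    · rw [prod_split b g _ i0 hsp]
      exact h5
    · rw [prod_split b g _ i0 hsp, sum_split _ g _ i0 hsp, h6 B (X j) (Y j) hB (hA j)
        (ag_prod hSTM hSPP hB.ne hA _ Finset.univ) (hA i0) hcond, h4, h2]

/-- the solution for a product -/
theorem key (hTADT : TADT) (hTTHT : TTHT) (hSTM : STM) (hSPP : SPP) (hSys : SysG b p q p' q')
    (hB : BG B) (hA : ∀ i, AG B (b i)) (hL : LamS B τ b X Y) (j : Fin s)
    (hbj : ¬ ∃ c : ℤ, c ^ 3 = b j)
    (hcond : LC lam (b j) ∨ (X j = 1 ∧ Y j = 0) ∨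
      (X j ≠ 0 ∧ Y j ≠ 0 ∧ X j ^ 3 + b j * Y j ^ 3 ≠ 0)) (c : Fin s → ℕ)
    (hc : ∃ i, ¬ 3 ∣ c i) (hj : τ j ≠ 2 ∨ 3 ∣ c j) :
    ∃ P Q P' Q' : ℤ, Sol (b j) (∏ i, b i ^ c i) P Q P' Q' ∧
      OT B (b j) (X j) (Y j) (∏ i, b i ^ c i) P Q P' Q' =
        ∑ i, MaT b X Y p q p' q' B j i * (c i : ZMod 3) := by
  obtain ⟨i1, hi1⟩ := hc
  have hpos : 0 < ∑ i, c i % 3 := by
    have h1 : c i1 % 3 ≤ ∑ i, c i % 3 :=
      Finset.single_le_sum (f := fun i => c i % 3) (fun i _ => Nat.zero_le _)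
        (Finset.mem_univ i1)
    omega
  obtain ⟨P, Q, P', Q', h1, h2⟩ := red hTADT hTTHT hSTM hSPP hSys hB hA hL j hbj hcond
    ((∑ i, c i % 3) - 1) (fun i => c i % 3) (by
      show ∑ i, c i % 3 = _
      omega) (fun i => by
      show c i % 3 ≤ 2
      omega) (by
      rcases hj with h | h
      · exact Or.inl h
      · right
        show c j % 3 = 0
        omega)
  have hprod : ∏ i, b i ^ c i = (∏ i, b i ^ (c i / 3)) ^ 3 * ∏ i, b i ^ (c i % 3) := by
    rw [← Finset.prod_pow, ← Finset.prod_mul_distrib]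
    refine Finset.prod_congr rfl fun i _ => ?_
    rw [← pow_mul, ← pow_add]
    congr 1
    omega
  have hu := ag_prod hSTM hSPP hB.ne hA (fun i => c i / 3) Finset.univ
  have hx := ag_prod hSTM hSPP hB.ne hA (fun i => c i % 3) Finset.univ
  obtain ⟨h3, h4⟩ := hTADT.2 (b j) (∏ i, b i ^ (c i % 3)) P Q P' Q' (∏ i, b i ^ (c i / 3))
    (hA j).ne hx.ne hu.ne h1
  refine ⟨(∏ i, b i ^ (c i / 3)) * P, (∏ i, b i ^ (c i / 3)) * Q, P', Q', ?_, ?_⟩
  · rw [hprod]
    exact h3
  · rw [hprod, h4 B (X j) (Y j) hB (hA j) hx hu hcond, h2]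
    refine Finset.sum_congr rfl fun i _ => ?_
    rw [ZMod.natCast_mod]

end Row

end TENT

set_option linter.unusedVariables false in
open TENT in
theorem TENT_thm (hTPT : TPT) (hTALT : TALT) (hTADT : TADT) (hTTHT : TTHT) (hSTM : STM)
    (hSPP : SPP) (hSSL : SSL) (hSLC : SLC) (hSCJ : SCJ) (hLCI : LCI) (hAVV : AVV)
    (hLCL : LCL) : TENT := by
  classical
  intro s τ b X Y p q p' q' B hSys hSw hB hA hL hb0
  have h3 : ∀ i, τ i = 0 ∨ τ i = 1 ∨ τ i = 2 := by
    intro i
    generalize τ i = t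
    revert t
    decide
  -- antisymmetry
  have hord : ∀ j i, j ≠ i → (τ j = 0 ∨ (τ j = 1 ∧ τ i = 2)) →
      MaT b X Y p q p' q' B j i + MaT b X Y p q p' q' B i j = 0 := by
    intro j i hji h
    obtain ⟨e1, e2, e3, e4⟩ := hSw j i hji
    have hij : i ≠ j := fun h => hji h.symm
    unfold MaT
    rw [if_neg hji, if_neg hij, e1, e2, e3, e4]
    refine hTALT B (b j) (b i) (p j i) (q j i) (p' j i) (q' j i) (X j) (Y j) (X i) (Y i) hB
      (hA j) (hA i) (hSys.sol j i hji) ?_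
    rcases h with h | ⟨h, h'⟩
    · left
      refine ⟨hL.t0 j h, ?_⟩
      rcases h3 i with h' | h' | h'
      · exact Or.inl (hL.t0 i h')
      · exact Or.inr (Or.inl (hL.t1 i h').2)
      · exact Or.inr (Or.inr (hL.t2 i h').2.2)
    · right
      obtain ⟨-, k1, k2, k3, k4⟩ := hL.t1 j h
      obtain ⟨m1, m2, m3⟩ := hL.t2 i h'
      exact ⟨m2, k1, k2, k3, k4, m1, m3⟩
  have hanti : ∀ i j, MaT b X Y p q p' q' B i j = - MaT b X Y p q p' q' B j i := by
    intro i j
    by_cases hij : i = j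
    · subst hij
      simp [MaT]
    · have hji : j ≠ i := fun h => hij h.symm
      have h : (τ j = 0 ∨ (τ j = 1 ∧ τ i = 2)) ∨ (τ i = 0 ∨ (τ i = 1 ∧ τ j = 2)) := by
        rcases h3 i with h | h | h
        · exact Or.inr (Or.inl h)
        · rcases h3 j with h' | h' | h'
          · exact Or.inl (Or.inl h')
          · exact absurd (hL.inj i j (h.trans h'.symm) (by rw [h]; decide)) hij
          · exact Or.inr (Or.inr ⟨h, h'⟩)
        · rcases h3 j with h' | h' | h'
          · exact Or.inl (Or.inl h')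
          · exact Or.inl (Or.inr ⟨h', h⟩)
          · exact absurd (hL.inj i j (h.trans h'.symm) (by rw [h]; decide)) hij
      rcases h with h | h
      · exact eq_neg_of_add_eq_zero_right (hord j i hji h)
      · exact eq_neg_of_add_eq_zero_left (hord i j hij h)
  refine ⟨hanti, fun c X₀ Y₀ hc hPt => ?_⟩
  have hbc : ∀ j, ¬ ∃ t : ℤ, t ^ 3 = b j := by
    intro j
    have h1 := hSys.ind (fun i => if i = j then 1 else 0) ⟨j, by simp⟩
    have h2 : ∏ i, b i ^ (if i = j then 1 else 0) = b j := by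
      rw [Finset.prod_eq_single j]
      · simp
      · intro i _ hij
        simp [hij]
      · intro h
        exact absurd (Finset.mem_univ _) h
    rw [h2] at h1
    exact h1
  have hcond : ∀ j, LC lam (b j) ∨ (X j = 1 ∧ Y j = 0) ∨
      (X j ≠ 0 ∧ Y j ≠ 0 ∧ X j ^ 3 + b j * Y j ^ 3 ≠ 0) := by
    intro j
    rcases h3 j with h | h | h
    · exact Or.inl (hL.t0 j h)
    · exact Or.inr (Or.inl (hL.t1 j h).2.2.2)
    · have := (hL.t2 j h).2.2
      exact Or.inr (Or.inr ⟨this.hX, this.hY, this.n0⟩)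
  -- rows to which `TPT` applies
  have good : ∀ (c : Fin s → ℕ) (X₀ Y₀ : ℤ), (∃ i, ¬ 3 ∣ c i) → Pt B (∏ i, b i ^ c i) X₀ Y₀ →
      ∀ j, (τ j ≠ 2 ∨ 3 ∣ c j) → (LC lam (b j) ∨
      (lv (b j) = lv B ∧ lw (b j) = lw B ∧ X j = 1 ∧ Y j = 0 ∧
        (LC lam (∏ i, b i ^ c i) ∨ lv B = 1)) ∨
      (lv B = 1 ∧ ¬ LC lam (b j) ∧ PtL B (b j) (X j) (Y j) ∧
        (LC lam (∏ i, b i ^ c i) ∨
          (lv (∏ i, b i ^ c i) = lv B ∧ lw (∏ i, b i ^ c i) = lw B)))) →
      ∑ i, MaT b X Y p q p' q' B j i * (c i : ZMod 3) = 0 := by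
    intro c X₀ Y₀ hc hPt j hj h
    obtain ⟨P, Q, P', Q', k1, k2⟩ := key hTADT hTTHT hSTM hSPP hSys hB hA hL j (hbc j)
      (hcond j) c hc hj
    rw [← k2]
    exact hTPT B (b j) (∏ i, b i ^ c i) P Q P' Q' (X j) (Y j) X₀ Y₀ hB (hA j)
      (ag_prod hSTM hSPP hB.ne hA c Finset.univ) k1 hPt h
  have hx0 : ∀ c : Fin s → ℕ, ∏ i, b i ^ c i ≠ 0 := fun c =>
    Finset.prod_ne_zero_iff.2 fun i _ => pow_ne_zero _ (hb0 i)
  have hlc : ∀ c : Fin s → ℕ, (∀ i, τ i = 2 → (c i : ZMod 3) = 0) → mth τ c = 0 →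
      LC lam (∏ i, b i ^ c i) := by
    intro c h1 h2
    obtain ⟨k1, k2⟩ := cls hLCL hL hb0 c h1
    rw [hLCL.1 _ (hx0 c), k1, k2, h2, zero_mul, zero_mul]
    exact ⟨rfl, rfl⟩
  -- rows of type 2, exponent divisible by 3
  have good2 : ∀ j, τ j = 2 → 3 ∣ c j →
      ∑ i, MaT b X Y p q p' q' B j i * (c i : ZMod 3) = 0 := by
    intro j hj h3c
    obtain ⟨m1, m2, m3⟩ := hL.t2 j hj
    have hz : ∀ i, τ i = 2 → (c i : ZMod 3) = 0 := by
      intro i hi
      have : i = j := hL.inj i j (hi.trans hj.symm) (by rw [hi]; decide)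
      rw [this, ZMod.natCast_eq_zero_iff]
      exact h3c
    have ht : mth τ c = 0 ∨ mth τ c = 1 ∨ mth τ c = 2 := by
      generalize mth τ c = t
      revert t
      decide
    rcases ht with ht | ht | ht
    · exact good c X₀ Y₀ hc hPt j (Or.inr h3c)
        (Or.inr (Or.inr ⟨m2, m1, m3, Or.inl (hlc c hz ht)⟩))
    · obtain ⟨k1, k2⟩ := cls hLCL hL hb0 c hz
      rw [ht, one_mul] at k1 k2
      exact good c X₀ Y₀ hc hPt j (Or.inr h3c)
        (Or.inr (Or.inr ⟨m2, m1, m3, Or.inr ⟨k1, k2⟩⟩))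
    · have hz2 : ∀ i, τ i = 2 → ((2 * c i : ℕ) : ZMod 3) = 0 := by
        intro i hi
        rw [Nat.cast_mul, hz i hi, mul_zero]
      have ht2 : mth τ (fun i => 2 * c i) = 1 := by
        have h1 : mth τ (fun i => 2 * c i) = 2 * mth τ c := by
          unfold mth
          rw [Finset.mul_sum]
          refine Finset.sum_congr rfl fun i _ => ?_
          split_ifs
          · push_cast; ring
          · ring
        rw [h1, ht]
        rfl
      have hsq : ∏ i, b i ^ (2 * c i) = (∏ i, b i ^ c i) ^ 2 := by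
        rw [← Finset.prod_pow]
        refine Finset.prod_congr rfl fun i _ => ?_
        rw [← pow_mul, mul_comm]
      have hP2 : Pt B (∏ i, b i ^ (2 * c i)) ((∏ i, b i ^ c i) * Y₀) X₀ := by
        rw [hsq]
        exact pt_sq (hx0 c) hPt
      obtain ⟨k1, k2⟩ := cls hLCL hL hb0 (fun i => 2 * c i) hz2
      rw [ht2, one_mul] at k1 k2
      have hg := good (fun i => 2 * c i) _ _ (by
          obtain ⟨i, hi⟩ := hc
          refine ⟨i, ?_⟩
          show ¬ 3 ∣ 2 * c i
          omega) hP2 j (Or.inr (by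
          show 3 ∣ 2 * c j
          exact Dvd.dvd.mul_left h3c 2)) (Or.inr (Or.inr ⟨m2, m1, m3, Or.inr ⟨k1, k2⟩⟩))
      have h1 : ∑ i, MaT b X Y p q p' q' B j i * ((2 * c i : ℕ) : ZMod 3) =
          2 * ∑ i, MaT b X Y p q p' q' B j i * (c i : ZMod 3) := by
        rw [Finset.mul_sum]
        refine Finset.sum_congr rfl fun i _ => ?_
        push_cast
        ring
      rw [h1] at hg
      generalize ∑ i, MaT b X Y p q p' q' B j i * (c i : ZMod 3) = z at hg ⊢
      revert hg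
      revert z
      decide
  -- the remaining row
  have skew : ∀ j, ¬ 3 ∣ c j →
      (∀ i, i ≠ j → ∑ k, MaT b X Y p q p' q' B i k * (c k : ZMod 3) = 0) →
      ∑ i, MaT b X Y p q p' q' B j i * (c i : ZMod 3) = 0 := by
    intro j hcj hrow
    set M := MaT b X Y p q p' q' B with hM
    have h1 : ∑ i, (c i : ZMod 3) * ∑ k, M i k * (c k : ZMod 3) =
        (c j : ZMod 3) * ∑ k, M j k * (c k : ZMod 3) := by
      rw [Finset.sum_eq_single j]
      · intro i _ hi
        rw [hrow i hi, mul_zero]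
      · intro h
        exact absurd (Finset.mem_univ _) h
    have h2 : ∑ i, (c i : ZMod 3) * ∑ k, M i k * (c k : ZMod 3) =
        - ∑ i, (c i : ZMod 3) * ∑ k, M i k * (c k : ZMod 3) := by
      conv_lhs =>
        simp only [Finset.mul_sum]
        rw [Finset.sum_comm]
      rw [← Finset.sum_neg_distrib]
      apply Finset.sum_congr rfl
      intro i _
      rw [Finset.mul_sum, ← Finset.sum_neg_distrib]
      apply Finset.sum_congr rfl
      intro k _
      rw [hanti k i]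
      ring
    have h3 : ∑ i, (c i : ZMod 3) * ∑ k, M i k * (c k : ZMod 3) = 0 := by
      generalize ∑ i, (c i : ZMod 3) * ∑ k, M i k * (c k : ZMod 3) = z at h2
      revert h2
      revert z
      decide
    rw [h1] at h3
    have : Fact (Nat.Prime 3) := ⟨Nat.prime_three⟩
    rcases mul_eq_zero.1 h3 with h | h
    · exact absurd ((ZMod.natCast_eq_zero_iff _ _).1 h) hcj
    · exact h
  have type0 : ∀ j, τ j = 0 → ∑ i, MaT b X Y p q p' q' B j i * (c i : ZMod 3) = 0 :=
    fun j hj => good c X₀ Y₀ hc hPt j (Or.inl (by rw [hj]; decide)) (Or.inl (hL.t0 j hj))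
  have type1 : ∀ j, τ j = 1 → (LC lam (∏ i, b i ^ c i) ∨ lv B = 1) →
      ∑ i, MaT b X Y p q p' q' B j i * (c i : ZMod 3) = 0 := by
    intro j hj h
    obtain ⟨-, k1, k2, k3, k4⟩ := hL.t1 j hj
    exact good c X₀ Y₀ hc hPt j (Or.inl (by rw [hj]; decide))
      (Or.inr (Or.inl ⟨k1, k2, k3, k4, h⟩))
  intro j
  rcases h3 j with hj | hj | hj
  · exact type0 j hj
  · by_cases h : LC lam (∏ i, b i ^ c i) ∨ lv B = 1
    · exact type1 j hj h
    · push Not at h
      have hno : ∀ i, τ i ≠ 2 := fun i hi => h.2 (hL.t2 i hi).2.1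
      refine skew j ?_ fun i hi => ?_
      · intro h3c
        apply h.1
        refine hlc c (fun i hi => absurd hi (hno i)) ?_
        unfold mth
        refine Finset.sum_eq_zero fun i _ => ?_
        split_ifs with hi
        · have : i = j := hL.inj i j (hi.trans hj.symm) (by rw [hi]; decide)
          rw [this, ZMod.natCast_eq_zero_iff]
          exact h3c
        · rfl
      · rcases h3 i with h' | h' | h'
        · exact type0 i h'
        · exact absurd (hL.inj i j (h'.trans hj.symm) (by rw [h']; decide)) hi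
        · exact absurd h' (hno i)
  · by_cases h3c : 3 ∣ c j
    · exact good2 j hj h3c
    · refine skew j h3c fun i hi => ?_
      rcases h3 i with h' | h' | h'
      · exact type0 i h'
      · exact type1 i h' (Or.inr (hL.t2 j hj).2.1)
      · exact absurd (hL.inj i j (h'.trans hj.symm) (by rw [h']; decide)) hi

end Pool.Agent.PT3
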