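import Pool.Agent.PT3.Stmts

/-!
# TPT: the pairing vanishes on the class of a point
-/

namespace Pool.Agent.PT3

open Pool.Agent.Lib_helper18 Pool.Agent.Lib_helper18.Eis Pool.Agent.Lib_helper84.Cub
open Pool.Agent.PT Pool.Agent.PTE

namespace TPT

theorem sol_swap {b x p q p' q' : ℤ} (h : Sol b x p q p' q') : Sol x b p (-p') (-q) q' where
  eq := by linear_combination h.eq
  n1 := by
    intro h0
    apply h.n2
    linear_combination h0
  n2 := by
    intro h0
    apply h.n1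
    linear_combination h0

theorem Gf_swap (p q p' q' : ℤ) (i : ℕ) : Gf p (-p') (-q) q' i = Gf p q p' q' i := by
  unfold Gf
  push_cast
  ring

theorem UV_swap {s : Eis → Eis → ZMod 3} (B b x p q p' q' : ℤ) :
    UV s B x b p (-p') (-q) q' = UV s B b x p q p' q' := by
  unfold UV
  rw [Gf_swap, Gf_swap]
  have : B * b * x = B * x * b := by ring
  rw [this]

theorem Df_one (u v : ℤ) (i : ℕ) : Df 1 0 u v i = u := by
  unfold Df
  push_cast
  ring

/-- the local term at the point at infinity -/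
theorem SV_one (s : Eis → Eis → ZMod 3) (x p q p' q' : ℤ) : SV s x p q p' q' 1 0 = 0 := by
  unfold SV
  simp only [Df_one]
  ring

theorem n0_ne {B x X Y : ℤ} (hB : B ≠ 0) (h : Pt B x X Y) : X ^ 3 + x * Y ^ 3 ≠ 0 := by
  obtain ⟨-, -, c, hc, e⟩ := h
  intro h0
  rw [h0, mul_zero] at e
  exact mul_ne_zero hB (pow_ne_zero 3 hc) e.symm

theorem three_mul (a : ZMod 3) : a + (a + a) = 0 := by
  revert a
  decide

theorem ptL (hLCL : LCL) {B x X Y : ℤ} (hB : B ≠ 0) (h : Pt B x X Y) : PtL B x X Y := by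
  have hn := n0_ne hB h
  obtain ⟨hX, hY, c, hc, e⟩ := h
  refine ⟨hX, hY, hn, ?_⟩
  have h2 := hLCL.2.1
  have e1 := h2 c (c * c) hc (mul_ne_zero hc hc)
  have e2 := h2 c c hc hc
  have e3 := h2 B (c * (c * c)) hB (mul_ne_zero hc (mul_ne_zero hc hc))
  have e4 : B * c ^ 3 = B * (c * (c * c)) := by ring
  rw [e, e4, e3.1, e3.2, e1.1, e1.2, e2.1, e2.2, three_mul, three_mul]
  exact ⟨add_zero _, add_zero _⟩

/-- the local identity at `lam` -/
theorem lam_case (hLVA : LVA) (hLVB : LVB) (hLVC : LVC) (hLE1 : LE1) (hLE3 : LE3)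
    {B b x p q p' q' X Y X₀ Y₀ : ℤ} (hB : B ≠ 0) (hb : b ≠ 0) (hx : x ≠ 0)
    (hS : Sol b x p q p' q') (hP : PtL B x X₀ Y₀)
    (h : LC lam b ∨
      (lv b = lv B ∧ lw b = lw B ∧ X = 1 ∧ Y = 0 ∧ (LC lam x ∨ lv B = 1)) ∨
      (lv B = 1 ∧ ¬ LC lam b ∧ PtL B b X Y ∧ (LC lam x ∨ (lv x = lv B ∧ lw x = lw B)))) :
    TT none B b x p q p' q' =
      UV (sy none) B b x p q p' q' - SV (sy none) x p q p' q' X₀ Y₀ -
        OT B b X Y x p q p' q' + OO B b x p q p' q' := by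
  have e0 : sy none = sl := rfl
  rw [e0]
  unfold OT
  by_cases hc : LC lam b
  · rw [if_pos hc, hLVA B b x p q p' q' X₀ Y₀ hB hb hx hS hc hP]
    ring
  · rw [if_neg hc]
    have hT : TT none B b x p q p' q' = 0 := by
      unfold TT
      rw [if_neg]
      exact hc
    rw [hT]
    rcases h with h | ⟨h1, h2, rfl, rfl, h5⟩ | ⟨h1, -, h3, h4⟩
    · exact absurd h hc
    · rw [SV_one]
      have key : SV sl x p q p' q' X₀ Y₀ = UV sl B b x p q p' q' := by
        by_cases hcx : LC lam x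
        · exact hLVB B b x p q p' q' X₀ Y₀ hB hb hx hS hcx h1 h2 hP
        · exact hLE1 B b x p q p' q' X₀ Y₀ hB hb hx hS (h5.resolve_left hcx) h1 h2 hcx hP
      rw [key]
      ring
    · by_cases hcx : LC lam x
      · rw [hLVC B b x p q p' q' X₀ Y₀ X Y hB hb hx hS h1 hcx hP h3]
        ring
      · obtain ⟨h5, h6⟩ := h4.resolve_left hcx
        rw [hLE3 B b x p q p' q' X₀ Y₀ hB hb hx hS h1 h5 h6 hP,
          hLE1 B x b p (-p') (-q) q' X Y hB hx hb (sol_swap hS) h1 h5 h6 hc h3, UV_swap]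
        ring

end TPT

theorem TPT_thm (hSTM : STM) (hSPP : SPP) (hSSL : SSL) (hSLC : SLC) (hSCJ : SCJ) (hLCI : LCI)
    (hAVV : AVV) (hLFIG : LFIG) (hLFIN : LFIN) (hLEVG : LEVG) (hLVA : LVA) (hLVB : LVB)
    (hLVC : LVC) (hLE1 : LE1) (hLE3 : LE3) (hLCL : LCL) : TPT := by
  intro B b x p q p' q' X Y X₀ Y₀ hB hb hx hS hP h
  have hn := TPT.n0_ne hB.ne hP
  have hPL := TPT.ptL hLCL hB.ne hP
  have hlam := TPT.lam_case hLVA hLVB hLVC hLE1 hLE3 hB.ne hb.ne hx.ne hS hPL h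
  obtain ⟨f1, e1⟩ := hLFIN.2.1 B b x p q p' q' hB.ne hb.ne hx.ne hS
  obtain ⟨f2, e2⟩ := hLFIN.2.2 b x p q p' q' X₀ Y₀ hb.ne hx.ne hS hP.hX hP.hY hn
  have f3 := hLFIG B b x p q p' q' hB hb hx hS.toSolW
  have e3 : ∑ᶠ v : Pl, (UV (sy v) B b x p q p' q' - SV (sy v) x p q p' q' X₀ Y₀) = 0 := by
    rw [finsum_sub_distrib f1 f2, e1, e2, sub_zero]
  set E : ZMod 3 := OT B b X Y x p q p' q' - OO B b x p q p' q' with hE
  have f4 : (Function.support fun v : Pl => if v = none then E else 0).Finite := by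
    refine Set.Finite.subset (Set.finite_singleton (none : Pl)) ?_
    intro v hv
    by_contra hne
    exact hv (if_neg hne)
  have e4 : ∑ᶠ v : Pl, (if v = none then E else 0) = E := by
    rw [finsum_eq_single _ (none : Pl) (fun v hv => if_neg hv), if_pos rfl]
  have e5 : ∀ v : Pl, TT v B b x p q p' q' + (if v = none then E else 0) =
      UV (sy v) B b x p q p' q' - SV (sy v) x p q p' q' X₀ Y₀ := by
    intro v
    cases v with
    | none =>
      rw [if_pos rfl, hlam, hE]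
      ring
    | some π =>
      rw [if_neg (by simp), add_zero]
      exact hLEVG π B b x p q p' q' X₀ Y₀ hB hb hx hS hP
  rw [← finsum_congr e5, finsum_add_distrib f3 f4, e4, hE] at e3
  have e6 : ∑ᶠ v : Pl, TT v B b x p q p' q' = OO B b x p q p' q' := rfl
  rw [e6] at e3
  rw [← e3]
  ring

end Pool.Agent.PT3
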