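import Pool.Agent.PTE.Final
import Pool.Agent.PT3.DADD
import Pool.Agent.PT3.DCOT
import Pool.Agent.PT3.DCOU
import Pool.Agent.PT3.DENG
import Pool.Agent.PT3.EADT
import Pool.Agent.PT3.EADU
import Pool.Agent.PT3.EBAT
import Pool.Agent.PT3.ECL0
import Pool.Agent.PT3.ECLT
import Pool.Agent.PT3.ECLU
import Pool.Agent.PT3.ECS0
import Pool.Agent.PT3.EDC
import Pool.Agent.PT3.EHPT
import Pool.Agent.PT3.EMA0
import Pool.Agent.PT3.EMAX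
import Pool.Agent.PT3.ESYT
import Pool.Agent.PT3.EVET
import Pool.Agent.PT3.FCL0
import Pool.Agent.PT3.FCLT
import Pool.Agent.PT3.FCLU
import Pool.Agent.PT3.FCS0
import Pool.Agent.PT3.FD1T
import Pool.Agent.PT3.FD2T
import Pool.Agent.PT3.FDAT
import Pool.Agent.PT3.FDCT
import Pool.Agent.PT3.FDKT
import Pool.Agent.PT3.FIN0
import Pool.Agent.PT3.FIN3
import Pool.Agent.PT3.GALG
import Pool.Agent.PT3.GFRG
import Pool.Agent.PT3.GTG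
import Pool.Agent.PT3.HNT
import Pool.Agent.PT3.HYP0
import Pool.Agent.PT3.HYPT
import Pool.Agent.PT3.HYPU
import Pool.Agent.PT3.IIA
import Pool.Agent.PT3.IIAG
import Pool.Agent.PT3.LAMG
import Pool.Agent.PT3.LB
import Pool.Agent.PT3.LCL
import Pool.Agent.PT3.LE1
import Pool.Agent.PT3.LE3
import Pool.Agent.PT3.LEVG
import Pool.Agent.PT3.LFIG
import Pool.Agent.PT3.LL1
import Pool.Agent.PT3.LN1
import Pool.Agent.PT3.LPT
import Pool.Agent.PT3.LVA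
import Pool.Agent.PT3.LVB
import Pool.Agent.PT3.LVC
import Pool.Agent.PT3.MAI3
import Pool.Agent.PT3.NMAT
import Pool.Agent.PT3.SVAD
import Pool.Agent.PT3.TADT
import Pool.Agent.PT3.TALT
import Pool.Agent.PT3.TAMG
import Pool.Agent.PT3.TENT
import Pool.Agent.PT3.TPT
import Pool.Agent.PT3.TTHT

/-!
# Prime twists of rank zero, every `n`: assembly
-/

namespace Pool.Agent.PT3.Final

open Pool.Agent.PT Pool.Agent.PT.Final Pool.Agent.PTE Pool.Agent.PTE.Final Pool.Agent.PT3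

theorem fDADD : DADD := DADD_thm

theorem fDCOT : DCOT := DCOT_thm fSTM fSPP fSLC fLCI fAVV fSCJ

theorem fDCOU : DCOU := DCOU_thm fSTM fSPP fSLC fLCI fAVV fSCJ fSPLT

theorem fECS0 : ECS0 := ECS0_thm fEHPL fESYS fEADMS fHYPS fFD1 fFD2S fTEND fSPLT

theorem fEDC : EDC := EDC_thm

theorem fEMA0 : EMA0 := EMA0_thm fEDC

theorem fEMAX : EMAX := EMAX_thm fEDC

theorem fFCS0 : FCS0 := FCS0_thm fSPLT fECS0 fDCONSTS fCLSC fCLSCS fDENSS fDIRS fDSUM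

theorem fFDAT : FDAT := FDAT_thm

theorem fFDCT : FDCT := FDCT_thm

theorem fFDKT : FDKT := FDKT_thm fSTM fSPP fSTAR fSLC fSSL fSCJ

theorem fGFRG : GFRG := GFRG_thm

theorem fGTG : GTG := GTG_thm

theorem fHYP0 : HYP0 := HYP0_thm fSTM fSPP fSSL fSREC fSCJ

theorem fIIAG : IIAG := IIAG_thm fSTM fSPP fSSL fLCI fLFIN fIF1 fIF2 fIF4 fF6R fF7U

theorem fLCL : LCL := LCL_thm fSTM fSPP fSSL fSLC fSREC fSCJ fLCI

theorem fLE3 : LE3 := LE3_thm fSLE fLCL fSCJ fSSL fSLC fSREC fLCI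

theorem fLFIG : LFIG := LFIG_thm fSTM fSPP fSSL fSLC fSCJ fLCI fAVV

theorem fLL1 : LL1 := LL1_thm fSLC fSSL fSCJ fLCL

theorem fLN1 : LN1 := LN1_thm fSLE fSSL fSREC fSCJ fSLC fLCL

theorem fLPT : LPT := LPT_thm fLCL

theorem fLVB : LVB := LVB_thm fSTM fSPP fSSL fSLC fSCJ fLCI fIF2 fIF4 fIF4B fLCL

theorem fNMAT : NMAT := NMAT_thm fSTM fSPP fSSL fSLC fLCI fHERBQ fSUN fNRK fNHN fNTR fNCNT fNFIX fNHO fNNS fNGEN

theorem fSVAD : SVAD := SVAD_thm fSTM fSPP fSSL fSLC fLCI fLFIN fIF4 fF6R fF7U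

theorem fTADT : TADT := TADT_thm fSTM fSPP fSSL fSLC fSCJ fLCI fAVV fLFIG fSVAD

theorem fTAMG : TAMG := TAMG_thm fSTM fSPP fSSL fSLC fSREC fSCJ fLCI fIF2

theorem fTTHT : TTHT := TTHT_thm fSTM fSPP fSSL fSLC fSCJ fLCI fAVV fLFIG fLCL

theorem fEADT : EADT := EADT_thm fSTM fSPP fSCJ fLCL

theorem fEADU : EADU := EADU_thm fSTM fSPP fSCJ fSPLT fLCL

theorem fECL0 : ECL0 := ECL0_thm fHYP0 fEBAS fEADM fESYS fFD1 fFD2 fTEND

theorem fEVET : EVET := EVET_thm fSTM fSPP fLCL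

theorem fFCL0 : FCL0 := FCL0_thm fSPP fECL0 fDCONST fCLSC fDENS fTEND

theorem fFD1T : FD1T := FD1T_thm fFDKT fFDAT fFDCT

theorem fFD2T : FD2T := FD2T_thm fSTM fSPP fLCL

theorem fFIN0 : FIN0 := FIN0_thm fFCL0 fFCS0 fEMA0 fDADD

theorem fGALG : GALG := GALG_thm fGZEROG fGCHI fGTG fGCG fGFRG

theorem fHNT : HNT := HNT_thm fNFLD fNMAT fNDESC fSTM fSPP fLCI

theorem fHYPT : HYPT := HYPT_thm fSTM fSPP fSSL fSLC fSREC fSCJ fLCI fLCL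

theorem fHYPU : HYPU := HYPU_thm fSTM fSPP fSSL fSLC fSREC fSCJ fLCI fSPLT fLCL

theorem fIIA : IIA := IIA_thm fSLC fSSL fSCJ fIIAG

theorem fLAMG : LAMG := LAMG_thm fSTM fSPP fSSL fSLC fSREC fSCJ fLCI fIF1 fAVV fTAMG

theorem fLB : LB := LB_thm fSTM fSPP fSSL fSLC fSCJ fLCI fIF1 fIF2 fAVV fLCL

theorem fLE1 : LE1 := LE1_thm fLN1 fLCL fSCJ fSSL fSLC fSREC

theorem fLEVG : LEVG := LEVG_thm fSTM fSPP fSSL fSLC fSREC fSCJ fLCI fIF1 fIF2 fIF4 fIF4B fAVV fTAMG fF6R fF7U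

theorem fLVA : LVA := LVA_thm fSTM fSPP fSSL fSLC fSCJ fLCI fIF2 fAVV fIIA fLCL

theorem fLVC : LVC := LVC_thm fSTM fSPP fSSL fSLC fSCJ fLCI fIF2 fIF4 fIIA fLL1 fLCL

theorem fTALT : TALT := TALT_thm fSTM fSPP fSSL fSLC fSCJ fLCI fAVV fLFIG fLFIN fLAMG fLB fLVA fLE1 fLCL

theorem fTPT : TPT := TPT_thm fSTM fSPP fSSL fSLC fSCJ fLCI fAVV fLFIG fLFIN fLEVG fLVA fLVB fLVC fLE1 fLE3 fLCL

theorem fDENG : DENG := DENG_thm fGALG fDCNT fDIR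

theorem fEBAT : EBAT := EBAT_thm fEVET fSPP fLPT fLCL

theorem fEHPT : EHPT := EHPT_thm fEVET fSTM fSPP fLPT fLCL

theorem fESYT : ESYT := ESYT_thm fSTM fSPP fSCJ fHNT

theorem fTENT : TENT := TENT_thm fTPT fTALT fTADT fTTHT fSTM fSPP fSSL fSLC fSCJ fLCI fAVV fLCL

theorem fECLT : ECLT := ECLT_thm fHYPT fEBAT fEADT fESYT fFD1T fFD2T fTENT

theorem fECLU : ECLU := ECLU_thm fHYPU fEHPT fEADU fESYT fFD1T fFD2T fTENT fSPLT

theorem fFCLT : FCLT := FCLT_thm fSPP fECLT fDCOT fCLSC fDENG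

theorem fFCLU : FCLU := FCLU_thm fSPLT fECLU fDCOU fCLSC fCLSCS fDENSS fDIRS fDSUM

theorem fFIN3 : FIN3 := FIN3_thm fFCLT fFCLU fEMAX fDADD

theorem fMAIN3 : MAIN3 := MAI3_thm fENF fFIN0 fFIN3

end Pool.Agent.PT3.Final
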