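import Pool.Agent.PT3.Stmts
import Pool.Agent.PT.GT

/-!
# GTG: existence, uniqueness and properties of `t`
-/

set_option autoImplicit false
set_option linter.unusedSectionVars false

namespace Pool.Agent.PT3

open Pool.Agent.PT Pool.Agent.PTE Pool.Agent.Lib_helper18 Pool.Agent.Lib_helper18.Eis Pool.Agent.Lib_helper84.Cub

open Pool.Agent.PT.GT in
/-- GTG: existence, uniqueness and properties of `t`. -/
theorem GTG_thm : GTG := by
  intro s b p q p' q' f L _ _ ζ ω _ hG j i hji
  have rel := hG.rel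
  have h3 := cube_one rel
  -- one witness is enough
  have isT_of : ∀ (g : L ≃ₐ[ℚ] L) (t : ZMod 3) (ρ A : L), g ω = ω ^ 2 → ρ ^ 3 = (b j : L) →
      g ρ = ρ → A ^ 3 * aD ω (p j i) (q j i) (p' j i) (q' j i) ρ =
        aN ω (p j i) (q j i) (p' j i) (q' j i) ρ → g A * A = E ω t →
      IsT b p q p' q' ω g j i t := by
    intro g t ρ A hg hρ hf hA ht ρ' A' hρ' hf' hA'
    have e1 := fixed_unique rel hg hρ hρ' hf hf'
    subst e1
    have hD := (hG.D j i hji ρ' hρ').1
    have e2 : A' ^ 3 = A ^ 3 := mul_right_cancel₀ hD (hA'.trans hA.symm)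
    obtain ⟨k, hk⟩ := of_cube rel e2
    change g A' * A' = E ω t
    rw [hk, map_mul, map_E rel hg, E_neg rel, ← ht]
    have hk0 := E_ne_zero rel k
    field_simp
  -- witnesses exist
  have exW : ∀ g : L ≃ₐ[ℚ] L, g ω = ω ^ 2 → ∃ ρ A : L, ρ ^ 3 = (b j : L) ∧ g ρ = ρ ∧
      A ^ 3 * aD ω (p j i) (q j i) (p' j i) (q' j i) ρ =
        aN ω (p j i) (q j i) (p' j i) (q' j i) ρ ∧ A ≠ 0 := by
    intro g hg
    obtain ⟨θ, hθ⟩ := hG.root j
    obtain ⟨ρ, hρ, hf⟩ := exists_fixed rel hg hθ
    obtain ⟨A, hA⟩ := hG.A j i hji ρ hρ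
    refine ⟨ρ, A, hρ, hf, hA, ?_⟩
    rintro rfl
    apply (hG.D j i hji ρ hρ).2
    rw [← hA]
    ring
  refine ⟨?_, ?_, ?_⟩
  · intro g hg
    obtain ⟨ρ, A, hρ, hf, hA, hA0⟩ := exW g hg
    obtain ⟨hD, hN⟩ := hG.D j i hji ρ hρ
    have e1 : (g A) ^ 3 * aN ω (p j i) (q j i) (p' j i) (q' j i) ρ =
        aD ω (p j i) (q j i) (p' j i) (q' j i) ρ := by
      have := congrArg g hA
      rwa [map_mul, map_pow, map_aD rel hg, map_aN rel hg, hf] at this
    have e2 : (g A * A) ^ 3 = (1 : L) ^ 3 := by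
      have h5 : (g A * A) ^ 3 * (aN ω (p j i) (q j i) (p' j i) (q' j i) ρ *
          aD ω (p j i) (q j i) (p' j i) (q' j i) ρ) =
          1 * (aN ω (p j i) (q j i) (p' j i) (q' j i) ρ *
          aD ω (p j i) (q j i) (p' j i) (q' j i) ρ) := by
        calc (g A * A) ^ 3 * (aN ω (p j i) (q j i) (p' j i) (q' j i) ρ *
              aD ω (p j i) (q j i) (p' j i) (q' j i) ρ)
            = ((g A) ^ 3 * aN ω (p j i) (q j i) (p' j i) (q' j i) ρ) *
              (A ^ 3 * aD ω (p j i) (q j i) (p' j i) (q' j i) ρ) := by ring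
          _ = _ := by rw [e1, hA]; ring
      rw [one_pow]
      exact mul_right_cancel₀ (mul_ne_zero hN hD) h5
    obtain ⟨t, ht⟩ := of_cube rel e2
    rw [mul_one] at ht
    refine ⟨t, isT_of g t ρ A hg hρ hf hA ht, ?_⟩
    intro t' ht'
    have h5 : g A * A = E ω t' := ht' ρ A hρ hf hA
    exact E_inj rel (h5.symm.trans ht)
  · intro g τ t hg ht
    obtain ⟨ρ, A, hρ, hf, hA, hA0⟩ := exW g hg
    have hw : g A * A = E ω t := ht ρ A hρ hf hA
    have c1 : ∀ x : L, (τ * g * τ⁻¹) (τ x) = τ (g x) := by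
      intro x
      change τ (g (τ⁻¹ (τ x))) = τ (g x)
      have : τ⁻¹ (τ x) = x := τ.symm_apply_apply x
      rw [this]
    have hρ' : (τ ρ) ^ 3 = (b j : L) := by
      rw [← map_pow, hρ, map_intCast]
    have hf' : (τ * g * τ⁻¹) (τ ρ) = τ ρ := by rw [c1, hf]
    have e1 := congrArg τ hA
    rw [map_mul, map_pow] at e1
    rcases map_ω rel τ with hτ | hτ
    · have hg' : (τ * g * τ⁻¹) ω = ω ^ 2 := by
        have := c1 ω
        rwa [hτ, hg, map_pow, hτ] at this
      rw [map_aD' hτ, map_aN' hτ] at e1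
      refine isT_of _ t (τ ρ) (τ A) hg' hρ' hf' e1 ?_
      rw [c1, ← map_mul, hw, map_E' hτ]
    · have hg' : (τ * g * τ⁻¹) ω = ω ^ 2 := by
        have h5 := c1 (ω ^ 2)
        have h6 : τ (ω ^ 2) = ω := by
          rw [map_pow, hτ]
          linear_combination ω * h3
        rw [h6] at h5
        rw [h5, map_pow, hg]
        have h7 : (ω ^ 2) ^ 2 = ω := by linear_combination ω * h3
        rw [h7, hτ]
      rw [map_aD rel hτ, map_aN rel hτ] at e1
      have hτA : τ A ≠ 0 := by
        rw [Ne, EmbeddingLike.map_eq_zero_iff]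
        exact hA0
      refine isT_of _ t (τ ρ) (τ A)⁻¹ hg' hρ' hf' ?_ ?_
      · rw [inv_pow, ← e1]
        field_simp
      · rw [map_inv₀, c1, ← mul_inv, ← map_mul, hw, map_E rel hτ, E_neg rel, inv_inv]
  · intro g t k hg hk ht
    obtain ⟨ρ, A, hρ, hf, hA, hA0⟩ := exW g hg
    have hw : g A * A = E ω t := ht ρ A hρ hf hA
    have e1 : g A = E ω t * A⁻¹ := by
      rw [← hw]
      field_simp
    have h30 : (3 : ZMod 3) = 0 := rfl
    have e2 : ∀ l : ℕ, (g ^ (2 * l)) A = E ω (l * t) * A := by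
      intro l
      induction l with
      | zero => simp [E_zero]
      | succ l ih =>
        have h5 : (g ^ (2 * (l + 1))) A = g (g ((g ^ (2 * l)) A)) := by
          have : g ^ (2 * (l + 1)) = g * (g * g ^ (2 * l)) := by
            rw [← mul_assoc, ← pow_two, ← pow_add]
            congr 1
            ring
          rw [this]
          rfl
        rw [h5, ih, map_mul, map_E rel hg, e1, map_mul, map_mul, map_E rel hg, map_E rel hg,
          map_inv₀, e1, mul_inv, inv_inv, ← E_neg rel, neg_neg, ← mul_assoc, ← mul_assoc,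
          ← E_add rel, ← E_add rel]
        congr 2
        push_cast
        linear_combination (-t) * h30
    have f1 : ∀ m : ℕ, (g ^ m) ρ = ρ := by
      intro m
      induction m with
      | zero => rfl
      | succ m ih =>
        rw [pow_succ']
        change g ((g ^ m) ρ) = ρ
        rw [ih, hf]
    have f2 : ∀ l : ℕ, (g ^ (2 * l)) ω = ω := by
      intro l
      induction l with
      | zero => rfl
      | succ l ih =>
        have h5 : (g ^ (2 * (l + 1))) ω = g (g ((g ^ (2 * l)) ω)) := by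
          have : g ^ (2 * (l + 1)) = g * (g * g ^ (2 * l)) := by
            rw [← mul_assoc, ← pow_two, ← pow_add]
            congr 1
            ring
          rw [this]
          rfl
        rw [h5, ih, hg, map_pow, hg]
        linear_combination ω * h3
    obtain ⟨l, rfl⟩ := hk
    have h6 : ∀ x : L, (g ^ (2 * l + 1)) x = g ((g ^ (2 * l)) x) := by
      intro x
      rw [pow_succ']
      rfl
    refine isT_of _ _ ρ A ?_ hρ (f1 _) hA ?_
    · rw [h6, f2, hg]
    · rw [h6, e2, map_mul, map_E rel hg, mul_assoc, hw, ← E_add rel]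
      congr 1
      push_cast
      linear_combination (-(l : ZMod 3) * t) * h30

end Pool.Agent.PT3
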