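import Pool.Agent.PT3.Stmts
import Pool.Agent.PT.LEV
import Pool.Agent.PT.IF2

/-!
# PT3, module LVA: the local evaluation at `lam` when `b` is a local cube
-/

namespace Pool.Agent.PT3

open Pool.Agent.Lib_helper18 Pool.Agent.Lib_helper18.Eis Pool.Agent.Lib_helper84.Cub
open Pool.Agent.PT Pool.Agent.PTE

namespace LVA

/-- two rational integers in the same class have the same symbols -/
theorem sl_congr (hSLC : SLC) (hLCL : LCL) {a b : ℤ} (ha : a ≠ 0) (hb : b ≠ 0)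
    (h1 : lv a = lv b) (h2 : lw a = lw b) {y : Eis} (hy : y ≠ 0) :
    sl (a : Eis) y = sl (b : Eis) y := by
  have h := hLCL.2.2.2.2.2.1 a b y ha hb hy h1 h2
  rw [hSLC.skew _ _ (LEV.cast_ne ha) hy, hSLC.skew _ _ (LEV.cast_ne hb) hy] at h
  exact neg_injective h

/-- the relation of symbols of a local point -/
theorem rel (hSLC : SLC) (hLCL : LCL) {B x X Y : ℤ} (hB : B ≠ 0) (hx : x ≠ 0)
    (hP : PtL B x X Y) {y : Eis} (hy : y ≠ 0) :
    sl (B : Eis) y = sl (x : Eis) y + sl ((X ^ 3 + x * Y ^ 3 : ℤ) : Eis) y := by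
  rw [← sl_congr hSLC hLCL (mul_ne_zero hx hP.n0) hB hP.cl.1 hP.cl.2 hy, Int.cast_mul,
    hSLC.mul _ _ _ (LEV.cast_ne hx) (LEV.cast_ne hP.n0) hy]

/-- the relation of symbols of a local point, right argument -/
theorem rel_right (hSLC : SLC) (hLCL : LCL) {B x X Y : ℤ} (hB : B ≠ 0) (hx : x ≠ 0)
    (hP : PtL B x X Y) {y : Eis} (hy : y ≠ 0) :
    sl y (B : Eis) = sl y (x : Eis) + sl y ((X ^ 3 + x * Y ^ 3 : ℤ) : Eis) := by
  rw [hSLC.skew _ _ (LEV.cast_ne hB) hy, hSLC.skew _ _ (LEV.cast_ne hx) hy,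
    hSLC.skew _ _ (LEV.cast_ne hP.n0) hy, rel hSLC hLCL hB hx hP hy]
  ring

/-- expansion of `(w, B x b)` -/
theorem w_mul (hSLC : SLC) {B x b : ℤ} (hB : B ≠ 0) (hx : x ≠ 0) (hb : b ≠ 0) :
    sl w ((B * x * b : ℤ) : Eis) = sl w (B : Eis) + sl w (x : Eis) + sl w (b : Eis) := by
  have h1 : ((B * x * b : ℤ) : Eis) = (B : Eis) * (x : Eis) * (b : Eis) := by push_cast; ring
  rw [h1, LEV.mul_right hSLC (mul_ne_zero (LEV.cast_ne hB) (LEV.cast_ne hx)) (LEV.cast_ne hb)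
    LEV.w_ne, LEV.mul_right hSLC (LEV.cast_ne hB) (LEV.cast_ne hx) LEV.w_ne]

/-- the second linear form -/
theorem n1' {b x p q p' q' : ℤ} (h : Sol b x p q p' q') : p' ^ 3 + b * q' ^ 3 ≠ 0 := by
  intro h0
  apply h.n1
  rw [h.eq, h0, mul_zero]

end LVA

set_option linter.unusedVariables false in
open LVA in
theorem LVA_thm (hSTM : STM) (hSPP : SPP) (hSSL : SSL) (hSLC : SLC) (hSCJ : SCJ) (hLCI : LCI)
    (hIF2 : IF2) (hAVV : AVV) (hIIA : IIA) (hLCL : LCL) : LVA := by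
  intro B b x p q p' q' X Y hB hb hx hS hLb hP
  obtain ⟨N1, h1⟩ := hIIA b x p q p' q' X Y hb hx hLb hS hP.hX hP.hY hP.n0
  obtain ⟨N2, h2⟩ := hIF2 lam sl 4 hSLC b x p q p' q' hb hx hS
  have hLb' : LC (uni none) b := hLb
  obtain ⟨N3, h3⟩ := (hAVV none B b x p q p' q' hB hb hx hS.toSolW (hSCJ.2.2.1 B x hB hx)
    hLb').1
  obtain ⟨r, hr⟩ := hLb (N1 + N2 + N3 + V lam ((p ^ 3 + b * q ^ 3 : ℤ) : Eis) +
    V lam ((p' ^ 3 + b * q' ^ 3 : ℤ) : Eis) + 1)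
  have hF := LEV.lf_ne hSLC.prime hS.n1 (by omega) hr
  have hF' := LEV.lf_ne hSLC.prime (n1' hS) (by omega) hr
  have a1 := h1 r ((pow_dvd_pow _ (by omega)).trans hr)
  have a2 := h2 r ((pow_dvd_pow _ (by omega)).trans hr)
  have a3 := h3 r ((pow_dvd_pow _ (by omega)).trans hr)
  have hG1 := IF2.Gf_ne hS 1 (Or.inl rfl)
  have hG2 := IF2.Gf_ne hS 2 (Or.inr rfl)
  have hwb : sl w (b : Eis) = 0 := LEV.lc_right hSLC hLCI hb hLb LEV.w_ne
  have hT : TT none B b x p q p' q' = AV none B b p q p' q' + sl w (x : Eis) := by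
    unfold TT
    rw [if_pos hLb']
    rfl
  have a3' : AS sl (B : Eis) p q p' q' r = AV none B b p q p' q' := a3
  rw [hT, ← a3', a1]
  unfold UV
  rw [w_mul hSLC hB hx hb, hwb]
  unfold AS at a2 ⊢
  rw [rel hSLC hLCL hB hx hP (hF 2), rel hSLC hLCL hB hx hP (hF' 1),
    rel hSLC hLCL hB hx hP (hF 1), rel hSLC hLCL hB hx hP (hF' 2),
    rel hSLC hLCL hB hx hP hG1, rel hSLC hLCL hB hx hP hG2,
    rel_right hSLC hLCL hB hx hP LEV.w_ne]
  linear_combination a2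

end Pool.Agent.PT3
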