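import Pool.Agent.PTE.Stmts

/-!
# Prime twists of rank zero, `n` divisible by `3`: statements

`B = 3^h n q^E`, `h = 1, 2`, `E = 1, 2`, `n` prime to `3` and cube-free.
-/

open NumberField IsDedekindDomain Finset
open scoped nonZeroDivisors Pointwise

namespace Pool.Agent.PT3

open Pool.Agent.Lib_helper18 Pool.Agent.Lib_helper18.Eis Pool.Agent.Lib_helper84.Cub
open Pool.Agent.PT Pool.Agent.PTE

/-! ### The completion at `3` -/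

/-- the exponent of `3` -/
noncomputable def lv (b : ℤ) : ZMod 3 := (padicValInt 3 b : ZMod 3)

/-- the class modulo `9` of the part prime to `3` -/
noncomputable def lw (b : ℤ) : ZMod 3 := wt ((b / 3 ^ padicValInt 3 b) ^ 2)

/-- LCL: local cubes at `lam` and symbols of rational numbers. -/
def LCL : Prop :=
  (∀ b : ℤ, b ≠ 0 → (LC lam b ↔ lv b = 0 ∧ lw b = 0)) ∧
  (∀ a b : ℤ, a ≠ 0 → b ≠ 0 → lv (a * b) = lv a + lv b ∧ lw (a * b) = lw a + lw b) ∧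
  (lv 3 = 1 ∧ lw 3 = 0) ∧
  (∀ b : ℤ, ¬ (3 : ℤ) ∣ b → lv b = 0 ∧ lw b = wt (b ^ 2)) ∧
  (∀ b : ℤ, b ≠ 0 → sl w (b : Eis) = - lw b) ∧
  (∀ (a b : ℤ) (c : Eis), a ≠ 0 → b ≠ 0 → c ≠ 0 → lv a = lv b → lw a = lw b →
    sl c (a : Eis) = sl c (b : Eis)) ∧
  (∀ a b : ℤ, a ≠ 0 → b ≠ 0 → lv a = lv b → lw a = lw b → LC lam (a * b ^ 2))

/-! ### Conditions on `B` and on the classes -/

/-- conditions on `B`: nonzero and cube-free outside `3` -/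
structure BG (B : ℤ) : Prop where
  ne : B ≠ 0
  cf : ∀ π : PP, V π.1 (B : Eis) ≤ 2

/-- conditions on `B`: divisible by `3`, cube-free -/
structure BT (B : ℤ) : Prop extends BG B where
  t1 : (3 : ℤ) ∣ B
  t2 : ¬ (27 : ℤ) ∣ B

/-- the conditions on the class `b` outside `3` -/
structure AG (B b : ℤ) : Prop where
  ne : b ≠ 0
  sym : ∀ π : PP, tm π.1 (b : Eis) (B : Eis) = 0
  unr : ∀ π : PP, ¬ π.1 ∣ (B : Eis) → ¬ π.1 ∣ (b : Eis)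

/-- `b` is an admissible class for the curve `X^3 + Y^3 = B`, `3 ∣ B`. -/
structure AdT (B b : ℤ) : Prop extends AG B b where
  wild : lv B = 2 → lw b + lv b * lw B = 0

/-- a local point of class `x` at `lam` -/
structure PtL (B x X Y : ℤ) : Prop where
  hX : X ≠ 0
  hY : Y ≠ 0
  n0 : X ^ 3 + x * Y ^ 3 ≠ 0
  cl : lv (x * (X ^ 3 + x * Y ^ 3)) = lv B ∧ lw (x * (X ^ 3 + x * Y ^ 3)) = lw B

/-- `HypM`, with the local condition at `lam` when `9` does not divide `B` -/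
def HypT (B : ℤ) : Prop := ∀ z t : Eis, z ≠ 0 → z * conj z = t ^ 3 →
  (∀ π : PP, tm π.1 z (B : Eis) = 0) → (∀ π : PP, ¬ π.1 ∣ (B : Eis) → 3 ∣ V π.1 z) →
  (¬ (9 : ℤ) ∣ B → sl z 3 = 0 ∧ sl z 4 = 0) →
  ∃ γ : Eis, z = γ ^ 3

/-! ### The local evaluation outside `3` -/

/-- F2BG -/
def F2BG : Prop := ∀ (π : PP) (B b x p q p' q' : ℤ), BG B → AG B b → AG B x →
  Sol b x p q p' q' → LC π.1 b → ¬ LC π.1 x →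
  ∃ N0 : ℕ, ∀ r : ℤ, π.1 ^ N0 ∣ (r : Eis) ^ 3 - (b : Eis) →
    AS (tm π.1) (B : Eis) p q p' q' r =
      tm π.1 (B : Eis) (Gf p q p' q' 1) - tm π.1 (B : Eis) (Gf p q p' q' 2) +
        tm π.1 w (B : Eis)

/-- F3RG -/
def F3RG : Prop := ∀ (π : PP) (B b x p q p' q' : ℤ), BG B → AG B b → AG B x →
  Sol b x p q p' q' → π.1 ∣ (B : Eis) → ¬ 3 ∣ V π.1 (b : Eis) → ¬ 3 ∣ V π.1 (x : Eis) →
    UV (tm π.1) B b x p q p' q' =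
      (if 3 ∣ V π.1 (b : Eis) + V π.1 (B : Eis) then - tm π.1 w (x : Eis) else 0) +
      (if 3 ∣ V π.1 (x : Eis) + V π.1 (B : Eis) then - tm π.1 w (b : Eis) else 0)

/-- F3UG -/
def F3UG : Prop := ∀ (π : PP) (B b x p q p' q' : ℤ), BG B → AG B b → AG B x →
  Sol b x p q p' q' → ¬ π.1 ∣ (B : Eis) → ch π.1 (b : Eis) ≠ 0 → ch π.1 (x : Eis) ≠ 0 →
    UV (tm π.1) B b x p q p' q' = 0

/-- TAMG: the tame places, two noncubes or one noncube. -/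
def TAMG : Prop := F2BG ∧ F3RG ∧ F3UG

/-- LEVG: the local evaluation at the tame places. -/
def LEVG : Prop := ∀ (π : PP) (B b x p q p' q' X Y : ℤ), BG B → AG B b → AG B x →
  Sol b x p q p' q' → Pt B x X Y →
    TT (some π) B b x p q p' q' = UV (tm π.1) B b x p q p' q' - SV (tm π.1) x p q p' q' X Y

/-- LAMG: the local form of the antisymmetry at the tame places. -/
def LAMG : Prop := ∀ (π : PP) (B b x p q p' q' : ℤ), BG B → AG B b → AG B x →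
  Sol b x p q p' q' →
    TT (some π) B b x p q p' q' + TT (some π) B x b p (-p') (-q) q' = UV (tm π.1) B b x p q p' q'

/-- LFIG: finiteness of the supports. -/
def LFIG : Prop := ∀ B b x p q p' q' : ℤ, BG B → AG B b → AG B x → SolW b x p q p' q' →
    (Function.support fun v : Pl => TT v B b x p q p' q').Finite

/-! ### The local evaluation at `lam` -/

/-- IIAG: the local term of a point when `b` is the cube of an integer. -/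
def IIAG : Prop := ∀ r x p q p' q' X Y : ℤ, r ≠ 0 → x ≠ 0 → Sol (r ^ 3) x p q p' q' →
  X ≠ 0 → Y ≠ 0 → X ^ 3 + x * Y ^ 3 ≠ 0 →
  SV sl x p q p' q' X Y =
    sl ((X ^ 3 + x * Y ^ 3 : ℤ) : Eis) (Gf p q p' q' 1) -
      sl ((X ^ 3 + x * Y ^ 3 : ℤ) : Eis) (Gf p q p' q' 2) +
      sl w ((X ^ 3 + x * Y ^ 3 : ℤ) : Eis) -
      AS sl ((X ^ 3 + x * Y ^ 3 : ℤ) : Eis) p q p' q' r

/-- IIA: the local term of a point at `lam` when `b` is a local cube. -/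
def IIA : Prop := ∀ b x p q p' q' X Y : ℤ, b ≠ 0 → x ≠ 0 → LC lam b → Sol b x p q p' q' →
  X ≠ 0 → Y ≠ 0 → X ^ 3 + x * Y ^ 3 ≠ 0 →
  ∃ N0 : ℕ, ∀ r : ℤ, lam ^ N0 ∣ (r : Eis) ^ 3 - (b : Eis) →
  SV sl x p q p' q' X Y =
    sl ((X ^ 3 + x * Y ^ 3 : ℤ) : Eis) (Gf p q p' q' 1) -
      sl ((X ^ 3 + x * Y ^ 3 : ℤ) : Eis) (Gf p q p' q' 2) +
      sl w ((X ^ 3 + x * Y ^ 3 : ℤ) : Eis) -
      AS sl ((X ^ 3 + x * Y ^ 3 : ℤ) : Eis) p q p' q' r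

/-- LL1: the linear forms of a point when `x` is a local cube. -/
def LL1 : Prop := ∀ x X Y b : ℤ, x ≠ 0 → b ≠ 0 → X ≠ 0 → Y ≠ 0 → X ^ 3 + x * Y ^ 3 ≠ 0 →
  lv (X ^ 3 + x * Y ^ 3) = 1 →
  ∃ N0 : ℕ, ∀ ξ : ℤ, lam ^ N0 ∣ (ξ : Eis) ^ 3 - (x : Eis) →
    sl (Lf X Y 1 ξ) (b : Eis) - sl (Lf X Y 2 ξ) (b : Eis) = sl w (b : Eis)

/-- LB: the local form of the antisymmetry at `lam` when `b` is a local cube and `x` is a local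
cube or in the class of `B`. -/
def LB : Prop :=
  (∀ B b x p q p' q' : ℤ, B ≠ 0 → b ≠ 0 → x ≠ 0 → Sol b x p q p' q' → LC lam b → LC lam x →
    TT none B b x p q p' q' + TT none B x b p (-p') (-q) q' = UV sl B b x p q p' q') ∧
  (∀ B b x p q p' q' : ℤ, B ≠ 0 → b ≠ 0 → x ≠ 0 → Sol b x p q p' q' → LC lam b →
    lv x = lv B → lw x = lw B → TT none B b x p q p' q' = UV sl B b x p q p' q')

/-- LVA: the local evaluation at `lam` when `b` is a local cube. -/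
def LVA : Prop := ∀ B b x p q p' q' X Y : ℤ, B ≠ 0 → b ≠ 0 → x ≠ 0 → Sol b x p q p' q' →
  LC lam b → PtL B x X Y →
    TT none B b x p q p' q' = UV sl B b x p q p' q' - SV sl x p q p' q' X Y

/-- LVB: the case where `x` is a local cube and `b` is in the class of `B`. -/
def LVB : Prop := ∀ B b x p q p' q' X Y : ℤ, B ≠ 0 → b ≠ 0 → x ≠ 0 → Sol b x p q p' q' →
  LC lam x → lv b = lv B → lw b = lw B → PtL B x X Y →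
    SV sl x p q p' q' X Y = UV sl B b x p q p' q'

/-- LVC: the case where `x` is a local cube and `v(B) = 1`. -/
def LVC : Prop := ∀ B b x p q p' q' X Y X' Y' : ℤ, B ≠ 0 → b ≠ 0 → x ≠ 0 → Sol b x p q p' q' →
  lv B = 1 → LC lam x → PtL B x X Y → PtL B b X' Y' →
    SV sl b p (-p') (-q) q' X' Y' = UV sl B b x p q p' q' - SV sl x p q p' q' X Y

/-- LN1: the numerical form of LE1. -/
def LN1 : Prop := ∀ b p q p' q' X Y F H M : ℤ, (3 : ℤ) ∣ b → ¬ (9 : ℤ) ∣ b →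
  ¬ ((3 : ℤ) ∣ p ∧ (3 : ℤ) ∣ q) → ¬ ((3 : ℤ) ∣ p' ∧ (3 : ℤ) ∣ q') → ¬ ((3 : ℤ) ∣ X ∧ (3 : ℤ) ∣ Y) →
  X ≠ 0 → Y ≠ 0 →
  F = p ^ 3 + b * q ^ 3 → H = p' ^ 3 + b * q' ^ 3 → M = H * X ^ 3 + F * Y ^ 3 →
  F ≠ 0 → H ≠ 0 → M ≠ 0 → p ^ 3 * q' ^ 3 - q ^ 3 * p' ^ 3 ≠ 0 →
  lv F + lv H + lv M = 1 → lw F + lw H + lw M = lw b → ¬ (lv F = lv H ∧ lw F = lw H) →
  sl ((X * q' : ℤ) + (q * Y : ℤ) * w)
      ((b * (p ^ 3 * q' ^ 3 - q ^ 3 * p' ^ 3) * F * H * b : ℤ) : Eis) -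
    sl ((X * p' : ℤ) + (p * Y : ℤ) * w)
      ((b * (p ^ 3 * q' ^ 3 - q ^ 3 * p' ^ 3) * F * H * b ^ 2 : ℤ) : Eis) =
  sl ((q * p' : ℤ) - (p * q' : ℤ) * w) (b : Eis) + lw b - lw F + lw H

/-- LE1: the case where `b` is in the class of `B`, `v(B) = 1`, and `x` is not a local cube. -/
def LE1 : Prop := ∀ B b x p q p' q' X Y : ℤ, B ≠ 0 → b ≠ 0 → x ≠ 0 → Sol b x p q p' q' →
  lv B = 1 → lv b = lv B → lw b = lw B → ¬ LC lam x → PtL B x X Y →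
    SV sl x p q p' q' X Y = UV sl B b x p q p' q'

/-- LE3: the local term of a point in the class of `B`, `v(B) = 1`. -/
def LE3 : Prop := ∀ B b x p q p' q' X Y : ℤ, B ≠ 0 → b ≠ 0 → x ≠ 0 → Sol b x p q p' q' →
  lv B = 1 → lv x = lv B → lw x = lw B → PtL B x X Y → SV sl x p q p' q' X Y = 0

/-- LPT: existence of local points. -/
def LPT : Prop := ∀ (b : ℤ) (β : ZMod 3), b ≠ 0 → ¬ (lv b = 0 ∧ lw b = 0) →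
  ∃ X Y : ℤ, X ≠ 0 ∧ Y ≠ 0 ∧ X ^ 3 + b * Y ^ 3 ≠ 0 ∧
    lv (b * (X ^ 3 + b * Y ^ 3)) = 1 ∧ lw (b * (X ^ 3 + b * Y ^ 3)) = β

/-! ### The pairing -/

open Classical in
/-- The pairing `O_B(b, η)` with the local term of the local point `(X, Y)` of class `b`. -/
noncomputable def OT (B b X Y x p q p' q' : ℤ) : ZMod 3 :=
  OO B b x p q p' q' + if LC lam b then 0 else SV sl b p (-p') (-q) q' X Y

/-- `(p + qT)/(p' + q'T)` is the product of two elements, `T^3 = b` -/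
structure PRel (b p₁ q₁ p₁' q₁' p₂ q₂ p₂' q₂' p q p' q' : ℤ) : Prop where
  e0 : p₁ * p₂ * p' + b * (q₁ * q₂ * q') = p₁' * p₂' * p + b * (q₁' * q₂' * q)
  e1 : (p₁ * q₂ + q₁ * p₂) * p' + p₁ * p₂ * q' = (p₁' * q₂' + q₁' * p₂') * p + p₁' * p₂' * q
  e2 : q₁ * q₂ * p' + (p₁ * q₂ + q₁ * p₂) * q' = q₁' * q₂' * p + (p₁' * q₂' + q₁' * p₂') * q

/-- SVAD: additivity of the local term at `lam`. -/
def SVAD : Prop := ∀ b x₁ x₂ p₁ q₁ p₁' q₁' p₂ q₂ p₂' q₂' p q p' q' X Y : ℤ, b ≠ 0 → x₁ ≠ 0 →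
  x₂ ≠ 0 → Sol b x₁ p₁ q₁ p₁' q₁' → Sol b x₂ p₂ q₂ p₂' q₂' → Sol b (x₁ * x₂) p q p' q' →
  PRel b p₁ q₁ p₁' q₁' p₂ q₂ p₂' q₂' p q p' q' → X ≠ 0 → Y ≠ 0 → X ^ 3 + b * Y ^ 3 ≠ 0 →
  SV sl b p (-p') (-q) q' X Y =
    SV sl b p₁ (-p₁') (-q₁) q₁' X Y + SV sl b p₂ (-p₂') (-q₂) q₂' X Y

/-- TADT: additivity of the pairing. -/
def TADT : Prop :=
  (∀ b x₁ x₂ p₁ q₁ p₁' q₁' p₂ q₂ p₂' q₂' : ℤ, (¬ ∃ c : ℤ, c ^ 3 = b) →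
    (¬ ∃ c : ℤ, c ^ 3 = x₁ * x₂) → b ≠ 0 → x₁ ≠ 0 → x₂ ≠ 0 →
    Sol b x₁ p₁ q₁ p₁' q₁' → Sol b x₂ p₂ q₂ p₂' q₂' →
    ∃ p q p' q' : ℤ, Sol b (x₁ * x₂) p q p' q' ∧ ∀ B X Y : ℤ, BG B → AG B b → AG B x₁ →
      AG B x₂ → (LC lam b ∨ (X = 1 ∧ Y = 0) ∨ (X ≠ 0 ∧ Y ≠ 0 ∧ X ^ 3 + b * Y ^ 3 ≠ 0)) →
      OT B b X Y (x₁ * x₂) p q p' q' =
        OT B b X Y x₁ p₁ q₁ p₁' q₁' + OT B b X Y x₂ p₂ q₂ p₂' q₂') ∧
  (∀ b x p q p' q' u : ℤ, b ≠ 0 → x ≠ 0 → u ≠ 0 → Sol b x p q p' q' →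
    Sol b (u ^ 3 * x) (u * p) (u * q) p' q' ∧ ∀ B X Y : ℤ, BG B → AG B b → AG B x → AG B u →
      (LC lam b ∨ (X = 1 ∧ Y = 0) ∨ (X ≠ 0 ∧ Y ≠ 0 ∧ X ^ 3 + b * Y ^ 3 ≠ 0)) →
      OT B b X Y (u ^ 3 * x) (u * p) (u * q) p' q' = OT B b X Y x p q p' q')

/-- TTHT: `O_B(b, b^(1/3)) = 0`. -/
def TTHT : Prop := ∀ B b : ℤ, BG B → AG B b → (LC lam b ∨ (lv b = lv B ∧ lw b = lw B)) →
  OO B b b 0 1 1 0 = 0

/-- TPT: the pairing vanishes on the class of a point. -/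
def TPT : Prop := ∀ B b x p q p' q' X Y X₀ Y₀ : ℤ, BG B → AG B b → AG B x →
  Sol b x p q p' q' → Pt B x X₀ Y₀ →
  (LC lam b ∨
    (lv b = lv B ∧ lw b = lw B ∧ X = 1 ∧ Y = 0 ∧ (LC lam x ∨ lv B = 1)) ∨
    (lv B = 1 ∧ ¬ LC lam b ∧ PtL B b X Y ∧ (LC lam x ∨ (lv x = lv B ∧ lw x = lw B)))) →
  OT B b X Y x p q p' q' = 0

/-- TALT: antisymmetry. -/
def TALT : Prop := ∀ B b x p q p' q' X Y X' Y' : ℤ, BG B → AG B b → AG B x →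
  Sol b x p q p' q' →
  ((LC lam b ∧ (LC lam x ∨ (lv x = lv B ∧ lw x = lw B ∧ X' = 1 ∧ Y' = 0) ∨ PtL B x X' Y')) ∨
    (lv B = 1 ∧ lv b = lv B ∧ lw b = lw B ∧ X = 1 ∧ Y = 0 ∧ ¬ LC lam x ∧ PtL B x X' Y')) →
  OT B b X Y x p q p' q' + OT B x X' Y' b p (-p') (-q) q' = 0

/-- The types of the classes at `lam`: `0` local cubes, `1` the class of `B`, `2` another class;
at most one class of type `1` and at most one of type `2`. -/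
structure LamS {s : ℕ} (B : ℤ) (τ : Fin s → Fin 3) (b X Y : Fin s → ℤ) : Prop where
  t0 : ∀ i, τ i = 0 → LC lam (b i)
  t1 : ∀ i, τ i = 1 → ¬ LC lam (b i) ∧ lv (b i) = lv B ∧ lw (b i) = lw B ∧ X i = 1 ∧ Y i = 0
  t2 : ∀ i, τ i = 2 → ¬ LC lam (b i) ∧ lv B = 1 ∧ PtL B (b i) (X i) (Y i)
  inj : ∀ i j, τ i = τ j → τ i ≠ 0 → i = j

/-- the skew form of a system -/
def SwS {s : ℕ} (p q p' q' : Fin s → Fin s → ℤ) : Prop :=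
  ∀ j i, j ≠ i → p i j = p j i ∧ q i j = - p' j i ∧ p' i j = - q j i ∧ q' i j = q' j i

open Classical in
/-- the matrix of the pairing -/
noncomputable def MaT {s : ℕ} (b X Y : Fin s → ℤ) (p q p' q' : Fin s → Fin s → ℤ) (B : ℤ) :
    Matrix (Fin s) (Fin s) (ZMod 3) := fun j i =>
  if j = i then 0 else OT B (b j) (X j) (Y j) (b i) (p j i) (q j i) (p' j i) (q' j i)

/-- TENT: the matrix is alternating and the class of a point is in its kernel. -/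
def TENT : Prop := ∀ (s : ℕ) (τ : Fin s → Fin 3) (b X Y : Fin s → ℤ)
  (p q p' q' : Fin s → Fin s → ℤ) (B : ℤ),
  SysG b p q p' q' → SwS p q p' q' → BG B → (∀ i, AG B (b i)) → LamS B τ b X Y →
  (∀ i, b i ≠ 0) →
  (∀ i j, MaT b X Y p q p' q' B i j = - MaT b X Y p q p' q' B j i) ∧
  ∀ (c : Fin s → ℕ) (X₀ Y₀ : ℤ), (∃ i, ¬ 3 ∣ c i) → Pt B (∏ i, b i ^ c i) X₀ Y₀ →
    ∀ j, ∑ i, MaT b X Y p q p' q' B j i * (c i : ZMod 3) = 0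

/-! ### First descent -/

/-- FDKT -/
def FDKT : Prop := ∀ B x y z : ℤ, BT B → HypT B → IsCoprime x y → z ≠ 0 →
  x ^ 3 + y ^ 3 = B * z ^ 3 →
  ∃ (δ : Eis) (c d : ℤ), c ≠ 0 ∧ d ≠ 0 ∧ (∀ m : ℤ, (m : Eis) ∣ δ → IsUnit m) ∧
    (d : Eis) * ((x : Eis) + w * y) = c * w ^ 2 * δ ^ 3

/-- FDAT -/
def FDAT : Prop := ∀ (B x y z c d : ℤ) (δ : Eis), BT B → 3 ≤ |B| → IsCoprime x y → z ≠ 0 →
  x ^ 3 + y ^ 3 = B * z ^ 3 → c ≠ 0 → d ≠ 0 → (∀ m : ℤ, (m : Eis) ∣ δ → IsUnit m) →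
  (d : Eis) * ((x : Eis) + w * y) = c * w ^ 2 * δ ^ 3 →
  ∃ (A : Fin 3 → ℤ) (m : ℤ), (∀ k, A k ≠ 0) ∧ A 0 + A 1 + A 2 = 0 ∧
    A 0 * A 1 * A 2 = B * m ^ 3 ∧ (∀ i j, i ≠ j → IsCoprime (A i) (A j)) ∧ |m| < |z|

/-- FDCT -/
def FDCT : Prop := ∀ (B m : ℤ) (A : Fin 3 → ℤ), BT B → (∀ k, A k ≠ 0) → A 0 + A 1 + A 2 = 0 →
  A 0 * A 1 * A 2 = B * m ^ 3 → (∀ i j, i ≠ j → IsCoprime (A i) (A j)) →
  ∃ a x : Fin 3 → ℤ, (∀ k, A k = a k * x k ^ 3) ∧ ∏ k, a k = B ∧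
    (∀ i j, i ≠ j → IsCoprime (a i) (a j)) ∧ (∀ i j, i ≠ j → IsCoprime (x i) (x j))

/-- FD1T: the first descent. -/
def FD1T : Prop := ∀ B : ℤ, BT B → HypT B →
  (∃ X Y : ℚ, X ^ 3 + Y ^ 3 = (B : ℚ)) → ∃ a x : Fin 3 → ℤ, Cell B a x

/-- the number `3^h n q^E` -/
def BB (h n E q : ℕ) : ℤ := (3 : ℤ) ^ h * n * (q : ℤ) ^ E

/-- FD2T: the class of a point; the prime `q` can be put into the last cell. -/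
def FD2T : Prop := ∀ (h n E q : ℕ) (a x : Fin 3 → ℤ), (h = 1 ∨ h = 2) → (E = 1 ∨ E = 2) →
  q.Prime → q ≠ 3 → ¬ q ∣ n → 0 < n → BT (BB h n E q) → Cell (BB h n E q) a x →
  ∃ z X Y : ℤ, Pt (BB h n E q) z X Y ∧ AdT (BB h n E q) z ∧
    (∀ l : ℕ, l.Prime → (l : ℤ) ∣ z → l ∣ 3 * n) ∧ ¬ ∃ t : ℤ, t ^ 3 = z

/-! ### The norm theorem -/

/-- NMAT: the norm theorem for `L / Q(w)`, `y` arbitrary. -/
def NMAT : Prop := ∀ (x : ℤ) (L : Type) [Field L] [NumberField L] (ι : Eis →+* L) (θ : L)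
  (σ c : L ≃ₐ[ℚ] L), x ≠ 0 → ¬ (3 : ℤ) ∣ x → (∀ π : PP, V π.1 (x : Eis) ≤ 2) →
  (¬ ∃ c : ℤ, c ^ 3 = x) → CubF x L ι θ σ c →
  ∀ y : ℤ, y ≠ 0 → (∀ π : PP, tm π.1 (x : Eis) (y : Eis) = 0) →
    (∀ π : PP, π.1 ∣ (y : Eis) → ¬ LC π.1 x → π.1 ∣ (x : Eis)) →
    ∃ z : L, z ≠ 0 ∧ z * σ z * σ (σ z) = (y : L)

/-- HNT: Hasse norm theorem for pure cubic fields, `y` arbitrary. -/
def HNT : Prop := ∀ x y : ℤ, x ≠ 0 → ¬ (3 : ℤ) ∣ x → (¬ ∃ c : ℤ, c ^ 3 = x) →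
  (∀ π : PP, V π.1 (x : Eis) ≤ 2) → y ≠ 0 →
  (∀ π : PP, tm π.1 (x : Eis) (y : Eis) = 0) →
  ∃ p q p' q' : ℤ, SolW x y p q p' q'

/-! ### Choice of the class -/

/-- `q^E` is in the class `(w0, c)`. -/
def InCT {m : ℕ} (E : ℕ) (π : Fin m → PP) (w0 : ZMod 3) (c : Fin m → ZMod 3) (q : ℕ) : Prop :=
  wt (((q : ℤ) ^ E) ^ 2) = w0 ∧ ∀ i, (E : ZMod 3) * sym (π i).1 (q : Eis) = c i

/-- The matrix of the conditions; the first column belongs to the prime `3`, the first row to the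
condition at `lam` (`h = 2`). -/
noncomputable def Mt (h n : ℕ) {m : ℕ} (π : Fin m → PP) (p e : Fin m → ℕ) (w0 : ZMod 3)
    (c : Fin m → ZMod 3) : Matrix (Fin (m + 1)) (Fin (m + 1)) (ZMod 3) :=
  fun a b => Fin.cases
    (motive := fun _ => ZMod 3)
    (Fin.cases (motive := fun _ => ZMod 3) (if h = 2 then wt ((n : ℤ) ^ 2) + w0 else 1)
      (fun i' => if h = 2 then wt ((p i' : ℤ) ^ 2) else 0) b)
    (fun i => Fin.cases (motive := fun _ => ZMod 3)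
      ((e i : ZMod 3) * sym (π i).1 3)
      (fun i' => if i' = i then
          (e i : ZMod 3) * sym (π i).1 (conj (π i).1) -
            ch (π i).1 ((3 ^ h * n : ℕ) : Eis) - c i
        else (e i : ZMod 3) * sym (π i).1 (p i' : Eis)) b) a

/-- EDC: the number of the diagonals such that the matrix becomes invertible. -/
def EDC : Prop := ∀ (m : ℕ) (A : Matrix (Fin (m + 1)) (Fin (m + 1)) (ZMod 3)), A 0 0 ≠ 0 →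
  2 ^ m ≤ Nat.card {d : Fin m → ZMod 3 //
    (A - Matrix.diagonal (Fin.cons 0 d : Fin (m + 1) → ZMod 3)).det ≠ 0}

/-- EMAX: the number of the classes. -/
def EMAX : Prop := ∀ (h n m : ℕ) (π : Fin m → PP) (p e : Fin m → ℕ) (w0 : ZMod 3),
  (h = 2 → wt ((n : ℤ) ^ 2) + w0 ≠ 0) →
  2 ^ m ≤ Nat.card {c : Fin m → ZMod 3 // (Mt h n π p e w0 c).det ≠ 0}

/-- The rational classes that are admissible for `3^h n q^E`, `q^E` in the class `(w0, c)`. -/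
structure AdC (h n : ℕ) {m : ℕ} (π : Fin m → PP) (w0 : ZMod 3) (c : Fin m → ZMod 3) (x : ℤ) :
    Prop where
  ne : x ≠ 0
  supp : ∀ l : ℕ, l.Prime → (l : ℤ) ∣ x → l ∣ 3 * n
  sym : ∀ i, (V (π i).1 (n : Eis) : ZMod 3) * ch (π i).1 (x : Eis) -
    (V (π i).1 (x : Eis) : ZMod 3) * (ch (π i).1 ((3 ^ h * n : ℕ) : Eis) + c i) = 0
  wild : h = 2 → lw x + lv x * (wt ((n : ℤ) ^ 2) + w0) = 0

/-- `B` has the type `(h, w)` at `3` -/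
def TyB (h n : ℕ) (w0 : ZMod 3) (B : ℤ) : Prop :=
  B ≠ 0 ∧ lv B = (h : ZMod 3) ∧ lw B = wt ((n : ℤ) ^ 2) + w0

/-- EADT: `AdC` and `AdT`, `q = 2 (mod 3)`. -/
def EADT : Prop := ∀ (h n m k : ℕ) (π : Fin m → PP) (p e : Fin m → ℕ) (r f : Fin k → ℕ)
  (w0 : ZMod 3) (c : Fin m → ZMod 3) (E q : ℕ), NF n π p e r f → (h = 1 ∨ h = 2) →
  (E = 1 ∨ E = 2) → q.Prime → q % 3 = 2 → InCT E π w0 c q → ¬ q ∣ n →
  BT (BB h n E q) ∧ TyB h n w0 (BB h n E q) ∧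
    ∀ x : ℤ, (∀ l : ℕ, l.Prime → (l : ℤ) ∣ x → l ∣ 3 * n) →
      (AdC h n π w0 c x ↔ AdT (BB h n E q) x)

/-- EADU: `AdC` and `AdT`, `q = 1 (mod 3)`. -/
def EADU : Prop := ∀ (h n m k : ℕ) (π : Fin m → PP) (p e : Fin m → ℕ) (r f : Fin k → ℕ)
  (w0 : ZMod 3) (c : Fin m → ZMod 3) (E q : ℕ) (ρ : PP), NF n π p e r f → (h = 1 ∨ h = 2) →
  (E = 1 ∨ E = 2) → q.Prime → q % 3 = 1 → InCT E π w0 c q → ¬ q ∣ n →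
  (q : Eis) = ρ.1 * conj ρ.1 →
  BT (BB h n E q) ∧ TyB h n w0 (BB h n E q) ∧
    ∀ x : ℤ, (∀ l : ℕ, l.Prime → (l : ℤ) ∣ x → l ∣ 3 * n) →
      ((AdC h n π w0 c x ∧ sym ρ.1 (x : Eis) = 0) ↔ AdT (BB h n E q) x)

/-- HYPT: the minus part of the Selmer group is trivial, `q = 2 (mod 3)`. -/
def HYPT : Prop := ∀ (h n m k : ℕ) (π : Fin m → PP) (p e : Fin m → ℕ) (r f : Fin k → ℕ)
  (w0 : ZMod 3) (c : Fin m → ZMod 3) (E q : ℕ), NF n π p e r f → (h = 1 ∨ h = 2) →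
  (E = 1 ∨ E = 2) → q.Prime → q % 3 = 2 → InCT E π w0 c q → ¬ q ∣ n →
  (Mt h n π p e w0 c).det ≠ 0 → HypT (BB h n E q)

/-- HYPU: the minus part of the Selmer group is trivial, `q = 1 (mod 3)`. -/
def HYPU : Prop := ∀ (h n m k : ℕ) (π : Fin m → PP) (p e : Fin m → ℕ) (r f : Fin k → ℕ)
  (w0 : ZMod 3) (c : Fin m → ZMod 3) (E q : ℕ) (ρ : PP) (y : ℤ), NF n π p e r f →
  (h = 1 ∨ h = 2) → (E = 1 ∨ E = 2) → q.Prime → q % 3 = 1 → InCT E π w0 c q → ¬ q ∣ n →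
  (q : Eis) = ρ.1 * conj ρ.1 → (Mt h n π p e w0 c).det ≠ 0 → AdC h n π w0 c y →
  sym ρ.1 (y : Eis) ≠ 0 → HypT (BB h n E q)

/-- EVET: the admissible classes in terms of exponent vectors. -/
def EVET : Prop := ∀ (h n m k : ℕ) (π : Fin m → PP) (p e : Fin m → ℕ) (r f : Fin k → ℕ)
  (w0 : ZMod 3) (c : Fin m → ZMod 3), NF n π p e r f →
  (∀ x : ℤ, x ≠ 0 → (∀ l : ℕ, l.Prime → (l : ℤ) ∣ x → l ∣ 3 * n) →
    (AdC h n π w0 c x ↔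
      (∀ i, (e i : ZMod 3) * (lv x * sym (π i).1 3) +
        (e i : ZMod 3) * (∑ i', (padicValInt (p i') x : ZMod 3) *
          (if i' = i then sym (π i).1 (conj (π i).1) else sym (π i).1 (p i' : Eis))) +
        (e i : ZMod 3) * (∑ j, (padicValInt (r j) x : ZMod 3) * sym (π i).1 (r j : Eis)) -
        (padicValInt (p i) x : ZMod 3) * (ch (π i).1 ((3 ^ h * n : ℕ) : Eis) + c i) = 0) ∧
      (h = 2 → (∑ i, (padicValInt (p i) x : ZMod 3) * wt ((p i : ℤ) ^ 2)) +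
        (∑ j, (padicValInt (r j) x : ZMod 3) * wt ((r j : ℤ) ^ 2)) +
        lv x * (wt ((n : ℤ) ^ 2) + w0) = 0)) ∧
    lw x = (∑ i, (padicValInt (p i) x : ZMod 3) * wt ((p i : ℤ) ^ 2)) +
        ∑ j, (padicValInt (r j) x : ZMod 3) * wt ((r j : ℤ) ^ 2)) ∧
  ∀ x x' : ℤ, x ≠ 0 → x' ≠ 0 → (∀ l : ℕ, l.Prime → (l : ℤ) ∣ x → l ∣ 3 * n) →
    (∀ l : ℕ, l.Prime → (l : ℤ) ∣ x' → l ∣ 3 * n) →
    ((∃ u v : ℤ, u ≠ 0 ∧ v ≠ 0 ∧ x * u ^ 3 = x' * v ^ 3) ↔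
      lv x = lv x' ∧ (∀ i, (padicValInt (p i) x : ZMod 3) = padicValInt (p i) x') ∧
      ∀ j, (padicValInt (r j) x : ZMod 3) = padicValInt (r j) x')

/-- EBAT: basis of the admissible classes. -/
def EBAT : Prop := ∀ (h n m k : ℕ) (π : Fin m → PP) (p e : Fin m → ℕ) (r f : Fin k → ℕ)
  (w0 : ZMod 3) (c : Fin m → ZMod 3), NF n π p e r f → (h = 1 ∨ h = 2) →
  (Mt h n π p e w0 c).det ≠ 0 →
  ∃ (s : ℕ) (τ : Fin s → Fin 3) (b X Y : Fin s → ℤ), s + h = k + 2 ∧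
    (∀ i, AdC h n π w0 c (b i)) ∧ (∀ i (π : PP), V π.1 (b i : Eis) ≤ 2) ∧
    (∀ g : Fin s → ℕ, (∃ i, ¬ 3 ∣ g i) → ¬ ∃ t : ℤ, t ^ 3 = ∏ i, b i ^ g i) ∧
    (∀ i j, i ≠ j → ¬ (3 : ℤ) ∣ b i ∨ ¬ (3 : ℤ) ∣ b j) ∧
    (∀ B : ℤ, TyB h n w0 B → LamS B τ b X Y) ∧
    (∀ x : ℤ, AdC h n π w0 c x → ∃ (g : Fin s → ℕ) (u v : ℤ), u ≠ 0 ∧ v ≠ 0 ∧
      x * u ^ 3 = (∏ i, b i ^ g i) * v ^ 3)

/-- EHPT: bases adapted to a hyperplane. -/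
def EHPT : Prop := ∀ (h n m k : ℕ) (π : Fin m → PP) (p e : Fin m → ℕ) (r f : Fin k → ℕ)
  (w0 : ZMod 3) (c : Fin m → ZMod 3), NF n π p e r f → (h = 1 ∨ h = 2) →
  (Mt h n π p e w0 c).det ≠ 0 →
  ∃ (d : ℕ) (v : Fin d → ℤ), d + h = k + 2 ∧ (∀ i, AdC h n π w0 c (v i)) ∧
    ∀ δ : Fin d → ZMod 3, δ ≠ 0 → ∃ (s : ℕ) (τ : Fin s → Fin 3) (b : Fin (s + 1) → ℤ)
      (X Y : Fin s → ℤ), s + 1 = d ∧
      (∀ i, AdC h n π w0 c (b i)) ∧ (∀ i (π : PP), V π.1 (b i : Eis) ≤ 2) ∧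
      (∀ g : Fin (s + 1) → ℕ, (∃ i, ¬ 3 ∣ g i) → ¬ ∃ t : ℤ, t ^ 3 = ∏ i, b i ^ g i) ∧
      (∀ i j, i ≠ j → ¬ (3 : ℤ) ∣ b i ∨ ¬ (3 : ℤ) ∣ b j) ∧
      (∀ B : ℤ, TyB h n w0 B → LamS B τ (rv b) X Y) ∧
      ∀ ρ : PP, ¬ ρ.1 ∣ (n : Eis) → (∀ i : Fin s, sym ρ.1 (b i.castSucc : Eis) = 0) →
        sym ρ.1 (b (Fin.last s) : Eis) ≠ 0 →
        (∃ ε : ZMod 3, ε ≠ 0 ∧ ∀ i, sym ρ.1 (v i : Eis) = ε * δ i) ∧
        ∀ x : ℤ, AdC h n π w0 c x → sym ρ.1 (x : Eis) = 0 → ∃ (g : Fin s → ℕ) (u t : ℤ),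
          u ≠ 0 ∧ t ≠ 0 ∧ x * u ^ 3 = (∏ i, b i.castSucc ^ g i) * t ^ 3

/-- ESYT: from a basis to a system with solutions. -/
def ESYT : Prop := ∀ (h n m k : ℕ) (π : Fin m → PP) (p e : Fin m → ℕ) (r f : Fin k → ℕ)
  (w0 : ZMod 3) (c : Fin m → ZMod 3) (s : ℕ) (b : Fin s → ℤ), NF n π p e r f →
  (∀ i, AdC h n π w0 c (b i)) → (∀ i (π : PP), V π.1 (b i : Eis) ≤ 2) →
  (∀ g : Fin s → ℕ, (∃ i, ¬ 3 ∣ g i) → ¬ ∃ t : ℤ, t ^ 3 = ∏ i, b i ^ g i) →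
  (∀ i j, i ≠ j → ¬ (3 : ℤ) ∣ b i ∨ ¬ (3 : ℤ) ∣ b j) →
  ∃ P Q P' Q' : Fin s → Fin s → ℤ, SysG b P Q P' Q' ∧ SwS P Q P' Q'

/-- ECLT: the system for a class, `q = 2 (mod 3)`. -/
def ECLT : Prop := ∀ (h n m k : ℕ) (π : Fin m → PP) (p e : Fin m → ℕ) (r f : Fin k → ℕ)
  (w0 : ZMod 3) (c : Fin m → ZMod 3),
  NF n π p e r f → (h = 1 ∨ h = 2) → Even (h + k) → (Mt h n π p e w0 c).det ≠ 0 →
  ∃ (s : ℕ) (b X Y : Fin s → ℤ) (P Q P' Q' : Fin s → Fin s → ℤ), Even s ∧ SysG b P Q P' Q' ∧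
    (∀ i, b i ≠ 0) ∧
    ∀ E q : ℕ, (E = 1 ∨ E = 2) → q.Prime → q % 3 = 2 → InCT E π w0 c q → ¬ q ∣ n →
      BT (BB h n E q) ∧ (∀ i, AdT (BB h n E q) (b i)) ∧
      (∀ i j, MaT b X Y P Q P' Q' (BB h n E q) i j = - MaT b X Y P Q P' Q' (BB h n E q) j i) ∧
      ((∃ X Y : ℚ, X ^ 3 + Y ^ 3 = (BB h n E q : ℚ)) →
        (MaT b X Y P Q P' Q' (BB h n E q)).det = 0)

/-- ECLU: the systems for a class, `q = 1 (mod 3)`. -/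
def ECLU : Prop := ∀ (h n m k : ℕ) (π : Fin m → PP) (p e : Fin m → ℕ) (r f : Fin k → ℕ)
  (w0 : ZMod 3) (c : Fin m → ZMod 3),
  NF n π p e r f → (h = 1 ∨ h = 2) → Odd (h + k) → (Mt h n π p e w0 c).det ≠ 0 →
  ∃ (d : ℕ) (v : Fin d → ℤ), Odd d ∧
    (∀ i, v i ≠ 0 ∧ ∀ l : ℕ, l.Prime → (l : ℤ) ∣ v i → l ∣ 3 * n) ∧
    ∀ δ : Fin d → ZMod 3, δ ≠ 0 → ∃ (s : ℕ) (b : Fin (s + 1) → ℤ) (X Y : Fin s → ℤ)
      (P Q P' Q' : Fin (s + 1) → Fin (s + 1) → ℤ), s + 1 = d ∧ SysG b P Q P' Q' ∧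
      (∀ i, b i ≠ 0) ∧
      (∀ ρ : PP, ¬ ρ.1 ∣ (n : Eis) → (∀ i : Fin s, sym ρ.1 (b i.castSucc : Eis) = 0) →
        sym ρ.1 (b (Fin.last s) : Eis) ≠ 0 →
        ∃ ε : ZMod 3, ε ≠ 0 ∧ ∀ i, sym ρ.1 (v i : Eis) = ε * δ i) ∧
      ∀ (E q : ℕ) (ρ : PP), (E = 1 ∨ E = 2) → q.Prime → q % 3 = 1 → InCT E π w0 c q →
        ¬ q ∣ n → (q : Eis) = ρ.1 * conj ρ.1 →
        (∀ i : Fin s, sym ρ.1 (b i.castSucc : Eis) = 0) →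
        sym ρ.1 (b (Fin.last s) : Eis) ≠ 0 →
        BT (BB h n E q) ∧ (∀ i : Fin s, AdT (BB h n E q) (b i.castSucc)) ∧
        (∀ i j, MaT (rv b) X Y (rs P) (rs Q) (rs P') (rs Q') (BB h n E q) i j =
          - MaT (rv b) X Y (rs P) (rs Q) (rs P') (rs Q') (BB h n E q) j i) ∧
        ((∃ X Y : ℚ, X ^ 3 + Y ^ 3 = (BB h n E q : ℚ)) →
          (MaT (rv b) X Y (rs P) (rs Q) (rs P') (rs Q') (BB h n E q)).det = 0)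

/-! ### Dependence of the pairing on the prime -/

/-- DCOT: the pairing `O_{NQ^E}(b, η)` as a function of the prime `Q = 2 (mod 3)` and of `E`. -/
def DCOT : Prop := ∀ (N : ℕ) (b X Y x p q p' q' : ℤ), 0 < N → Sol b x p q p' q' → b ≠ 0 →
  x ≠ 0 → ∃ f₀ : ℕ, 0 < f₀ ∧ ∀ f : ℕ, 0 < f → f₀ ∣ f →
  ∃ (C : ZMod 3) (Φ : (ZMod f)ˣ →* Multiplicative (ZMod 3)),
    ∀ (E Q : ℕ) (hQ : Q.Coprime f), Q.Prime → Q % 3 = 2 → AG ((N : ℤ) * (Q : ℤ) ^ E) x →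
      ∀ r : ℤ, (Q : ℤ) ∣ r ^ 3 - b → OT ((N : ℤ) * (Q : ℤ) ^ E) b X Y x p q p' q' =
        C + E * ((Φ (ZMod.unitOfCoprime Q hQ)).toAdd - TAUV Q p q p' q' r)

/-- DCOU: the pairing `O_{NQ^E}(b, η)` as a function of the prime `Q = 1 (mod 3)` and of `E`. -/
def DCOU : Prop := ∀ (N : ℕ) (b X Y x p q p' q' : ℤ), 0 < N → Sol b x p q p' q' → b ≠ 0 →
  x ≠ 0 → ∃ f₀ : ℕ, 0 < f₀ ∧ ∀ f : ℕ, 0 < f → f₀ ∣ f →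
  ∃ (C : ZMod 3) (Φ : (ZMod f)ˣ →* Multiplicative (ZMod 3)) (N₀ : ℕ),
    ∀ (E Q : ℕ) (hQ : Q.Coprime f) (ρ : PP), (E = 1 ∨ E = 2) → Q.Prime → N₀ < Q → Q % 3 = 1 →
      (Q : Eis) = ρ.1 * conj ρ.1 → AG ((N : ℤ) * (Q : ℤ) ^ E) b → AG ((N : ℤ) * (Q : ℤ) ^ E) x →
      ∀ r : ℤ, (Q : ℤ) ∣ r ^ 3 - b → OT ((N : ℤ) * (Q : ℤ) ^ E) b X Y x p q p' q' =
        C + E * ((Φ (ZMod.unitOfCoprime Q hQ)).toAdd + TAUVS ρ.1 p q p' q' r)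

/-! ### The governing field for `Q = 2 (mod 3)` -/

/-- GTG -/
def GTG : Prop := ∀ (s : ℕ) (b : Fin s → ℤ) (p q p' q' : Fin s → Fin s → ℤ) (f : ℕ)
  (L : Type) [Field L] [NumberField L] (ζ ω : L), SysG b p q p' q' →
  GovF b p q p' q' f L ζ ω →
  ∀ j i, j ≠ i →
  (∀ g : L ≃ₐ[ℚ] L, g ω = ω ^ 2 → ∃! t : ZMod 3, IsT b p q p' q' ω g j i t) ∧
  (∀ (g τ : L ≃ₐ[ℚ] L) (t : ZMod 3), g ω = ω ^ 2 → IsT b p q p' q' ω g j i t →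
    IsT b p q p' q' ω (τ * g * τ⁻¹) j i t) ∧
  (∀ (g : L ≃ₐ[ℚ] L) (t : ZMod 3) (k : ℕ), g ω = ω ^ 2 → Odd k → IsT b p q p' q' ω g j i t →
    IsT b p q p' q' ω (g ^ k) j i (k * t))

/-- GFRG -/
def GFRG : Prop := ∀ (s : ℕ) (b : Fin s → ℤ) (p q p' q' : Fin s → Fin s → ℤ) (f : ℕ)
  (L : Type) [Field L] [NumberField L] (ζ ω : L), SysG b p q p' q' →
  GovF b p q p' q' f L ζ ω →
  ∃ N₀ : ℕ, ∀ Q : ℕ, Q.Prime → N₀ < Q → ∀ (P : Ideal (𝓞 L)), P.IsPrime → (Q : 𝓞 L) ∈ P →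
    (∀ g : L ≃ₐ[ℚ] L, MulAction.stabilizer (L ≃ₐ[ℚ] L) P = Subgroup.zpowers g →
      ∃ k : ℕ, k.Coprime (orderOf g) ∧ IsArithFrobAt ℤ (g ^ k) P) ∧
    ∀ φ : L ≃ₐ[ℚ] L, IsArithFrobAt ℤ φ P → Q % 3 = 2 → φ ω = ω ^ 2 ∧
      ∀ j i, j ≠ i → ∀ (r : ℤ) (t : ZMod 3), (Q : ℤ) ∣ r ^ 3 - b j →
        IsT b p q p' q' ω φ j i t → t = TAUV Q (p j i) (q j i) (p' j i) (q' j i) r

/-- GALG: summary of the governing field. -/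
def GALG : Prop := ∀ (s : ℕ) (b : Fin s → ℤ) (p q p' q' : Fin s → Fin s → ℤ) (f : ℕ),
  SysG b p q p' q' → 0 < f → 9 ∣ f →
  ∃ (L : Type) (_ : Field L) (_ : NumberField L) (_ : IsGalois ℚ L)
    (χ : (L ≃ₐ[ℚ] L) →* (ZMod f)ˣ) (t : (L ≃ₐ[ℚ] L) → Fin s → Fin s → ZMod 3) (N₀ : ℕ),
    Function.Surjective χ ∧
    (∀ g τ : L ≃ₐ[ℚ] L, M2 (χ g) → ∀ j i, j ≠ i → t (τ * g * τ⁻¹) j i = t g j i) ∧
    (∀ (g : L ≃ₐ[ℚ] L) (k : ℕ), M2 (χ g) → Odd k → ∀ j i, j ≠ i → t (g ^ k) j i = k * t g j i) ∧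
    (∀ (a : (ZMod f)ˣ) (v v' : Fin s → Fin s → ZMod 3), M2 a →
      Nat.card {g : L ≃ₐ[ℚ] L // χ g = a ∧ ∀ j i, j < i → t g j i = v j i} =
        Nat.card {g : L ≃ₐ[ℚ] L // χ g = a ∧ ∀ j i, j < i → t g j i = v' j i}) ∧
    ∀ (Q : ℕ) (hQ : Q.Coprime f), Q.Prime → N₀ < Q → ∀ (P : Ideal (𝓞 L)) (g : L ≃ₐ[ℚ] L),
      P.IsPrime → (Q : 𝓞 L) ∈ P →
      MulAction.stabilizer (L ≃ₐ[ℚ] L) P = Subgroup.zpowers g →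
      ∃ k : ℕ, k.Coprime (orderOf g) ∧ χ (g ^ k) = ZMod.unitOfCoprime Q hQ ∧
        (Q % 3 = 2 → ∀ j i, j ≠ i → ∀ r : ℤ, (Q : ℤ) ∣ r ^ 3 - b j →
          t (g ^ k) j i = TAUV Q (p j i) (q j i) (p' j i) (q' j i) r)

/-- DENG: the density of the primes with nonsingular matrix. -/
def DENG : Prop := ∀ (s : ℕ) (b : Fin s → ℤ) (p q p' q' : Fin s → Fin s → ℤ) (f m : ℕ)
  (κ : (ZMod f)ˣ →* Multiplicative (Fin (m + 1) → ZMod 3)) (c : Fin (m + 1) → ZMod 3)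
  (C : Fin s → Fin s → ZMod 3) (Φ : (ZMod f)ˣ →* Multiplicative (Fin s → Fin s → ZMod 3)),
  SysG b p q p' q' → Even s → 0 < f → 9 ∣ f →
  (∀ c : Fin (m + 1) → ZMod 3,
    Nat.card {a : (ZMod f)ˣ // M2 a ∧ (κ a).toAdd = c} * (2 * 3 ^ (m + 1)) = f.totient) →
  RI.DensityGE {Q : ℕ | ∃ hQ : Q.Coprime f, Q % 3 = 2 ∧
    (κ (ZMod.unitOfCoprime Q hQ)).toAdd = c ∧
    ∀ τ : Fin s → Fin s → ZMod 3,
      (∀ j i, j ≠ i → ∀ r : ℤ, (Q : ℤ) ∣ r ^ 3 - b j →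
        τ j i = TAUV Q (p j i) (q j i) (p' j i) (q' j i) r) →
      (alt (C + (Φ (ZMod.unitOfCoprime Q hQ)).toAdd - τ)).det ≠ 0}
    (1 / (24 * 3 ^ m))

/-! ### `n` prime to `3`, all classes -/

/-- HYP0: the minus part of the Selmer group of `n q` is trivial, `q = 2 (mod 3)`. -/
def HYP0 : Prop := ∀ (n m k : ℕ) (π : Fin m → PP) (p e : Fin m → ℕ) (r f : Fin k → ℕ)
  (w0 : ZMod 3) (c : Fin m → ZMod 3) (q : ℕ), NF n π p e r f → q.Prime →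
  InCl π w0 c q → ¬ q ∣ n → wt ((n : ℤ) ^ 2) + w0 ≠ 0 → (Mp n π p e r none c).det ≠ 0 →
  HypM ((n : ℤ) * q)

/-- EMA0: the number of the classes. -/
def EMA0 : Prop := ∀ (n m k : ℕ) (π : Fin m → PP) (p e : Fin m → ℕ) (r : Fin k → ℕ),
  2 ^ m ≤ Nat.card {c : Fin m → ZMod 3 // (Mp n π p e r none c).det ≠ 0}

/-- ECL0: the system for a class, `k` even. -/
def ECL0 : Prop := ∀ (n m k : ℕ) (π : Fin m → PP) (p e : Fin m → ℕ) (r f : Fin k → ℕ)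
  (w0 : ZMod 3) (c : Fin m → ZMod 3),
  NF n π p e r f → Even k → wt ((n : ℤ) ^ 2) + w0 ≠ 0 → (Mp n π p e r none c).det ≠ 0 →
  ∃ (s : ℕ) (b : Fin s → ℤ) (P Q P' Q' : Fin s → Fin s → ℤ),
    Even s ∧ (∀ i, AdmC n π w0 c (b i)) ∧ Sys b P Q P' Q' ∧
    ∀ q : ℕ, q.Prime → InCl π w0 c q → ¬ q ∣ n → 3 < q →
      (∀ i, Adm ((n : ℤ) * q) (b i)) ∧ BOk ((n : ℤ) * q) ∧
      ((∃ X Y : ℚ, X ^ 3 + Y ^ 3 = (n : ℚ) * q) → (Mat b P Q P' Q' ((n : ℤ) * q)).det = 0)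

/-- ECS0: the systems for a class, `k` odd. -/
def ECS0 : Prop := ∀ (n m k : ℕ) (π : Fin m → PP) (p e : Fin m → ℕ) (r f : Fin k → ℕ)
  (w0 : ZMod 3) (c : Fin m → ZMod 3),
  NF n π p e r f → Odd k → wt ((n : ℤ) ^ 2) + w0 ≠ 0 → (Mp n π p e r none c).det ≠ 0 →
  ∃ v : Fin k → ℤ,
    (∀ i, v i ≠ 0 ∧ ∀ l : ℕ, l.Prime → (l : ℤ) ∣ v i → l ∣ n) ∧
    ∀ δ : Fin k → ZMod 3, δ ≠ 0 → ∃ (s : ℕ) (b : Fin (s + 1) → ℤ)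
      (P Q P' Q' : Fin (s + 1) → Fin (s + 1) → ℤ), s + 1 = k ∧ SysG b P Q P' Q' ∧
      (∀ i, b i ≠ 0) ∧
      (∀ ρ : PP, ¬ ρ.1 ∣ (n : Eis) → (∀ i : Fin s, sym ρ.1 (b i.castSucc : Eis) = 0) →
        sym ρ.1 (b (Fin.last s) : Eis) ≠ 0 →
        ∃ ε : ZMod 3, ε ≠ 0 ∧ ∀ i, sym ρ.1 (v i : Eis) = ε * δ i) ∧
      ∀ (q : ℕ) (ρ : PP), q.Prime → InClS π w0 c q → ¬ q ∣ n → 3 < q →
        (q : Eis) = ρ.1 * conj ρ.1 → (∀ i : Fin s, sym ρ.1 (b i.castSucc : Eis) = 0) →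
        sym ρ.1 (b (Fin.last s) : Eis) ≠ 0 →
        BOk ((n : ℤ) * q) ∧ (∀ i : Fin s, Adm ((n : ℤ) * q) (b i.castSucc)) ∧
        (∀ i j, Mat (rv b) (rs P) (rs Q) (rs P') (rs Q') ((n : ℤ) * q) i j =
          - Mat (rv b) (rs P) (rs Q) (rs P') (rs Q') ((n : ℤ) * q) j i) ∧
        ((∃ X Y : ℚ, X ^ 3 + Y ^ 3 = (n : ℚ) * q) →
          (Mat (rv b) (rs P) (rs Q) (rs P') (rs Q') ((n : ℤ) * q)).det = 0)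

/-! ### The theorems -/

/-- FCL0: one class, `3` does not divide `n`, `k` even. -/
def FCL0 : Prop := ∀ (n m k : ℕ) (π : Fin m → PP) (p e : Fin m → ℕ) (r f : Fin k → ℕ)
  (w0 : ZMod 3) (c : Fin m → ZMod 3),
  NF n π p e r f → Even k → wt ((n : ℤ) ^ 2) + w0 ≠ 0 → (Mp n π p e r none c).det ≠ 0 →
  RI.DensityGE {q : ℕ | InCl π w0 c q ∧ ¬ ∃ X Y : ℚ, X ^ 3 + Y ^ 3 = (n : ℚ) * q}
    (1 / (24 * 3 ^ m))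

/-- FCS0: one class, `3` does not divide `n`, `k` odd. -/
def FCS0 : Prop := ∀ (n m k : ℕ) (π : Fin m → PP) (p e : Fin m → ℕ) (r f : Fin k → ℕ)
  (w0 : ZMod 3) (c : Fin m → ZMod 3),
  NF n π p e r f → Odd k → (w0 ≠ 0 ∨ c ≠ 0) → wt ((n : ℤ) ^ 2) + w0 ≠ 0 →
  (Mp n π p e r none c).det ≠ 0 →
  RI.DensityGE {q : ℕ | InClS π w0 c q ∧ ¬ ∃ X Y : ℚ, X ^ 3 + Y ^ 3 = (n : ℚ) * q}
    (1 / (30 * 3 ^ m))

/-- FCLT: one class, `3^h n`, `h + k` even. -/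
def FCLT : Prop := ∀ (h n m k : ℕ) (π : Fin m → PP) (p e : Fin m → ℕ) (r f : Fin k → ℕ)
  (w0 : ZMod 3) (c : Fin m → ZMod 3),
  NF n π p e r f → (h = 1 ∨ h = 2) → Even (h + k) → (Mt h n π p e w0 c).det ≠ 0 →
  RI.DensityGE {q : ℕ | InCl π w0 c q ∧
    ¬ ∃ X Y : ℚ, X ^ 3 + Y ^ 3 = ((3 ^ h * n : ℕ) : ℚ) * q} (1 / (24 * 3 ^ m))

/-- FCLU: one class, `3^h n`, `h + k` odd. -/
def FCLU : Prop := ∀ (h n m k : ℕ) (π : Fin m → PP) (p e : Fin m → ℕ) (r f : Fin k → ℕ)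
  (w0 : ZMod 3) (c : Fin m → ZMod 3),
  NF n π p e r f → (h = 1 ∨ h = 2) → Odd (h + k) → (w0 ≠ 0 ∨ c ≠ 0) →
  (Mt h n π p e w0 c).det ≠ 0 →
  RI.DensityGE {q : ℕ | InClS π w0 c q ∧
    ¬ ∃ X Y : ℚ, X ^ 3 + Y ^ 3 = ((3 ^ h * n : ℕ) : ℚ) * q} (1 / (30 * 3 ^ m))

/-- DADD: sum of the densities of disjoint sets. -/
def DADD : Prop := ∀ (ι : Type) [Fintype ι] (S : ι → Set ℕ) (T : Set ℕ) (d : ℝ), 0 ≤ d →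
  (∀ i, RI.DensityGE (S i) d) → (∀ i, S i ⊆ T) → (∀ i j, i ≠ j → Disjoint (S i) (S j)) →
  ∀ N : ℕ, N ≤ Fintype.card ι → RI.DensityGE T (N * d)

/-- FIN0: `n` prime to `3`. -/
def FIN0 : Prop := ∀ (n m k : ℕ) (π : Fin m → PP) (p e : Fin m → ℕ) (r f : Fin k → ℕ),
  NF n π p e r f →
  (Even k → RI.DensityGE {q : ℕ | ¬ ∃ X Y : ℚ, X ^ 3 + Y ^ 3 = (n : ℚ) * q}
    (2 ^ m / (12 * 3 ^ m))) ∧
  RI.DensityGE {q : ℕ | ¬ ∃ X Y : ℚ, X ^ 3 + Y ^ 3 = (n : ℚ) * q} (2 ^ m / (30 * 3 ^ m))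

/-- FIN3: `3^h n`. -/
def FIN3 : Prop := ∀ (h n m k : ℕ) (π : Fin m → PP) (p e : Fin m → ℕ) (r f : Fin k → ℕ),
  NF n π p e r f → (h = 1 ∨ h = 2) →
  (Even (h + k) →
    RI.DensityGE {q : ℕ | ¬ ∃ X Y : ℚ, X ^ 3 + Y ^ 3 = ((3 ^ h * n : ℕ) : ℚ) * q}
      (2 ^ m / (12 * 3 ^ m))) ∧
  RI.DensityGE {q : ℕ | ¬ ∃ X Y : ℚ, X ^ 3 + Y ^ 3 = ((3 ^ h * n : ℕ) : ℚ) * q}
    (2 ^ m / (30 * 3 ^ m))

/-- MAIN3: the theorem for all `n`. -/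
def MAIN3 : Prop := ∀ n : ℕ, 0 < n →
  (∃ C : ℝ, ∀ s : ℝ, 1 < s → s ≤ 2 →
    (2 / 3) ^ Nat.card {p : ℕ // p.Prime ∧ p % 3 = 1 ∧ ¬ 3 ∣ n.factorization p} / 30 *
      Real.log (1 / (s - 1)) - C ≤
    ∑' q : {q : ℕ // q.Prime ∧ ¬ ∃ X Y : ℚ, X ^ 3 + Y ^ 3 = (n : ℚ) * q}, (q : ℝ) ^ (-s)) ∧
  (Even (n.factorization 3 % 3 +
      Nat.card {p : ℕ // p.Prime ∧ p % 3 = 2 ∧ ¬ 3 ∣ n.factorization p}) →
    ∃ C : ℝ, ∀ s : ℝ, 1 < s → s ≤ 2 →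
    (2 / 3) ^ Nat.card {p : ℕ // p.Prime ∧ p % 3 = 1 ∧ ¬ 3 ∣ n.factorization p} / 12 *
      Real.log (1 / (s - 1)) - C ≤
    ∑' q : {q : ℕ // q.Prime ∧ ¬ ∃ X Y : ℚ, X ^ 3 + Y ^ 3 = (n : ℚ) * q}, (q : ℝ) ^ (-s))

end Pool.Agent.PT3
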